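import Pool.Agent.P.MP_e9218d_nt.Andrews2

namespace Pool.Agent.P.MP_e9218d_nt

open Finset

/-! ### transfer along a bijection of parts -/

/-- chains are transported along a bijection of parts -/
theorem wch_transfer {α β : Type*} {P : Set α} {Q : Set β} {R : α → α → Prop}
    {R' : β → β → Prop} {w : α → ℕ} {w' : β → ℕ} (φ : α → β) (hφ : Set.BijOn φ P Q)
    (hR : ∀ a ∈ P, ∀ b ∈ P, R a b ↔ R' (φ a) (φ b)) (hw : ∀ a ∈ P, w a = w' (φ a)) (n : ℕ) :
    (wch P R w Set.univ n).ncard = (wch Q R' w' Set.univ n).ncard := by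
  have hchain : ∀ l : List α, (∀ a ∈ l, a ∈ P) → (l.IsChain R ↔ (l.map φ).IsChain R') := by
    intro l hl
    rw [List.isChain_map]
    constructor
    · intro h
      exact h.imp_of_mem_imp (fun a b ha hb hab => (hR a (hl a ha) b (hl b hb)).1 hab)
    · intro h
      exact h.imp_of_mem_imp (fun a b ha hb hab => (hR a (hl a ha) b (hl b hb)).2 hab)
  have hsum : ∀ l : List α, (∀ a ∈ l, a ∈ P) → (l.map w).sum = ((l.map φ).map w').sum := by
    intro l hl
    rw [List.map_map]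
    congr 1
    exact List.map_congr_left (fun a ha => hw a (hl a ha))
  refine Set.ncard_congr (fun l _ => l.map φ) ?_ ?_ ?_
  · rintro l ⟨h1, h2, -, h4⟩
    refine ⟨fun b hb => ?_, (hchain l h1).1 h2, by simp, by rw [← hsum l h1]; exact h4⟩
    obtain ⟨a, ha, rfl⟩ := List.mem_map.1 hb
    exact hφ.mapsTo (h1 a ha)
  · rintro l l' ⟨h1, -⟩ ⟨h1', -⟩ h
    induction l generalizing l' with
    | nil => simpa using h.symm
    | cons a l ih =>
      cases l' with
      | nil => simp at h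
      | cons a' l' =>
        simp only [List.map_cons, List.cons.injEq] at h
        rw [hφ.injOn (h1 a (by simp)) (h1' a' (by simp)) h.1,
          ih l' (fun x hx => h1 x (by simp [hx])) (fun x hx => h1' x (by simp [hx])) h.2]
  · rintro l' ⟨h1, h2, -, h4⟩
    have : ∃ l : List α, (∀ a ∈ l, a ∈ P) ∧ l.map φ = l' := by
      clear h2 h4
      induction l' with
      | nil => exact ⟨[], by simp, rfl⟩
      | cons b l' ih =>
        obtain ⟨l, hl, rfl⟩ := ih (fun x hx => h1 x (by simp [hx]))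
        obtain ⟨a, ha, rfl⟩ := hφ.surjOn (h1 b (by simp))
        refine ⟨a :: l, fun x hx => ?_, rfl⟩
        rcases List.mem_cons.1 hx with rfl | hx
        · exact ha
        · exact hl x hx
    obtain ⟨l, hl, rfl⟩ := this
    exact ⟨l, ⟨hl, (hchain l hl).2 h2, by simp, by rw [hsum l hl]; exact h4⟩, rfl⟩

/-- finite sets of parts are transported along a bijection of parts -/
theorem fset_transfer {α : Type*} [Nonempty α] {P : Set α} {Q : Set ℕ} (φ : α → ℕ) (hφ : Set.BijOn φ P Q)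
    (n : ℕ) : {S : Finset α | (∀ p ∈ S, p ∈ P) ∧ ∑ p ∈ S, φ p = n}.ncard =
      {S : Finset ℕ | (∀ e ∈ S, e ∈ Q) ∧ ∑ e ∈ S, e = n}.ncard := by
  classical
  have hsum : ∀ S : Finset α, (∀ p ∈ S, p ∈ P) → ∑ e ∈ S.image φ, e = ∑ p ∈ S, φ p := by
    intro S hS
    rw [Finset.sum_image (fun a ha b hb h => hφ.injOn (hS a ha) (hS b hb) h)]
  refine Set.ncard_congr (fun S _ => S.image φ) ?_ ?_ ?_
  · rintro S ⟨h1, h2⟩
    refine ⟨fun e he => ?_, by rw [hsum S h1]; exact h2⟩
    obtain ⟨a, ha, rfl⟩ := Finset.mem_image.1 he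
    exact hφ.mapsTo (h1 a ha)
  · rintro S S' ⟨h1, -⟩ ⟨h1', -⟩ h
    have key : ∀ S S' : Finset α, (∀ p ∈ S, p ∈ P) → (∀ p ∈ S', p ∈ P) →
        S.image φ = S'.image φ → S ⊆ S' := by
      intro S S' h1 h1' h a ha
      have : φ a ∈ S'.image φ := h ▸ Finset.mem_image_of_mem φ ha
      obtain ⟨b, hb, hab⟩ := Finset.mem_image.1 this
      rwa [← hφ.injOn (h1' b hb) (h1 a ha) hab]
    exact Finset.Subset.antisymm (key S S' h1 h1' h) (key S' S h1' h1 h.symm)
  · rintro S' ⟨h1, h2⟩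
    choose! ψ hψ using fun e (he : e ∈ Q) => hφ.surjOn he
    have hS : ∀ p ∈ S'.image ψ, p ∈ P := by
      intro p hp
      obtain ⟨e, he, rfl⟩ := Finset.mem_image.1 hp
      exact (hψ e (h1 e he)).1
    have him : (S'.image ψ).image φ = S' := by
      rw [Finset.image_image]
      conv_rhs => rw [← Finset.image_id (s := S')]
      exact Finset.image_congr (fun e he => (hψ e (h1 e he)).2)
    exact ⟨S'.image ψ, ⟨hS, by rw [← hsum _ hS, him]; exact h2⟩, him⟩

/-! ### the formal identity -/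

lemma two_pow_lt_of {M s : ℕ} (hM : 2 ^ (s - 1) < M) : ∀ c < s, 2 ^ c < M := fun c hc =>
  lt_of_le_of_lt (Nat.pow_le_pow_right (by norm_num) (by omega)) hM

lemma colW_std (M : ℕ) : colW M (fun c => 2 ^ c) = stdW M := by
  funext p; simp [colW, stdW, dsum_std]

theorem adm_stdW {M s : ℕ} (hM : 2 ^ (s - 1) < M) : Adm (colP s) (stdW M) := by
  rw [← colW_std]; exact adm_colW (two_pow_lt_of hM)

lemma level_unique {M L L' r r' : ℕ} (h1 : 1 ≤ r) (h2 : r ≤ M) (h1' : 1 ≤ r') (h2' : r' ≤ M)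
    (hL : 1 ≤ L) (hL' : 1 ≤ L') (h : L * M - r = L' * M - r') : L = L' ∧ r = r' := by
  have hLM : M ≤ L * M := Nat.le_mul_of_pos_left _ hL
  have hLM' : M ≤ L' * M := Nat.le_mul_of_pos_left _ hL'
  have : L = L' := by
    rcases lt_trichotomy L L' with hl | hl | hl
    · have : (L + 1) * M ≤ L' * M := Nat.mul_le_mul_right _ hl
      rw [add_mul] at this; omega
    · exact hl
    · have : (L' + 1) * M ≤ L * M := Nat.mul_le_mul_right _ hl
      rw [add_mul] at this; omega
  subst this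
  exact ⟨rfl, by omega⟩

lemma bijOn_okA {M s : ℕ} (hM : 2 ^ (s - 1) < M) :
    Set.BijOn (fun p : ℕ × ℕ => p.1 * M - 2 ^ p.2) {p | 1 ≤ p.1 ∧ p.2 < s} {e | okA M s e} := by
  have hd := two_pow_lt_of hM
  refine ⟨?_, ?_, ?_⟩
  · rintro ⟨L, c⟩ ⟨h1, h2⟩
    have h3 := hd c h2
    have h4 : M ≤ L * M := Nat.le_mul_of_pos_left _ h1
    refine ⟨by simp only; omega, c, h2, ?_⟩
    simp only
    rw [Nat.sub_add_cancel (by omega)]
    exact Dvd.intro_left _ rfl
  · rintro ⟨L, c⟩ ⟨h1, h2⟩ ⟨L', c'⟩ ⟨h1', h2'⟩ h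
    obtain ⟨e1, e2⟩ := level_unique Nat.one_le_two_pow (hd c h2).le Nat.one_le_two_pow
      (hd c' h2').le h1 h1' h
    rw [Prod.mk.injEq]
    exact ⟨e1, Nat.pow_right_injective le_rfl e2⟩
  · rintro e ⟨h1, c, hc, L, hL⟩
    refine ⟨(L, c), ⟨?_, hc⟩, ?_⟩
    · rcases Nat.eq_zero_or_pos L with rfl | h
      · have : 1 ≤ 2 ^ c := Nat.one_le_two_pow
        omega
      · exact h
    · simp only [mul_comm L M]; omega

/-- the theorem of Andrews for the defects `2 ^ c` -/
theorem andrews_formal {M s : ℕ} (hM : 2 ^ (s - 1) < M) (_hs : 1 ≤ s) (n : ℕ) :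
    (setA M s n).ncard = (wch (colP s) colR (stdW M) Set.univ n).ncard := by
  rw [← colW_std, ← andrews_col M s _ (two_pow_lt_of hM) n]
  exact (fset_transfer _ (bijOn_okA hM) n).symm

/-! ### the case `M + 1 = 2 ^ s` -/

lemma two_pow_pred_lt {M s : ℕ} (hs : 2 ≤ s) (hM : M + 1 = 2 ^ s) : 2 ^ (s - 1) < M := by
  obtain ⟨t, rfl⟩ := Nat.exists_eq_add_of_le hs
  have : 1 ≤ 2 ^ t := Nat.one_le_two_pow
  rw [show 2 + t - 1 = t + 1 by omega, pow_succ]
  rw [add_comm 2 t, pow_add] at hM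
  omega

lemma mem_Dset_andrews {M s : ℕ} (hs : 2 ≤ s) (hM : M + 1 = 2 ^ s) (e : ℕ) :
    e ∈ Dset M s ↔ ∃ L r, 1 ≤ r ∧ r ≤ M ∧ omega r ≤ L ∧ e = L * M - r := by
  have hlt := two_pow_pred_lt hs hM
  have hd := two_pow_lt_of hlt
  constructor
  · rintro ⟨he, S, h1, h2⟩
    have key : ∀ S : Finset ℕ, (∀ e ∈ S, okA M s e) → ∑ e ∈ S, e = 0 ∨
        ∃ L r, 1 ≤ r ∧ r ≤ M ∧ omega r ≤ L ∧ ∑ e ∈ S, e = L * M - r := by
      intro S
      induction S using Finset.induction_on with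
      | empty => simp
      | insert a S ha ih =>
        intro h
        right
        obtain ⟨⟨L', c⟩, ⟨hL', hc⟩, hφ⟩ := (bijOn_okA hlt).surjOn (h a (by simp))
        simp only at hL' hc hφ
        have hc1 := hd c hc
        have hc2 : 1 ≤ 2 ^ c := Nat.one_le_two_pow
        have hLM' : M ≤ L' * M := Nat.le_mul_of_pos_left _ hL'
        rw [Finset.sum_insert ha]
        rcases ih (fun e he => h e (by simp [he])) with h0 | ⟨L, r, r1, r2, r3, r4⟩
        · exact ⟨L', 2 ^ c, hc2, hc1.le, by rw [omega_two_pow]; exact hL', by omega⟩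
        · have hL : 1 ≤ L := le_trans (omega_pos r1) r3
          have hLM : M ≤ L * M := Nat.le_mul_of_pos_left _ hL
          by_cases hr : r + 2 ^ c ≤ M
          · refine ⟨L + L', r + 2 ^ c, by omega, hr, ?_, by rw [add_mul]; omega⟩
            have := omega_add_two_pow_le c r
            omega
          · obtain ⟨t, rfl⟩ : ∃ t, s = t + 1 := ⟨s - 1, by omega⟩
            have hct : 2 ^ c ≤ 2 ^ t := Nat.pow_le_pow_right (by norm_num) (by omega)
            rw [pow_succ] at hM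
            obtain ⟨r0, rfl⟩ : ∃ r0, r = 2 ^ t + r0 := ⟨r - 2 ^ t, by omega⟩
            obtain ⟨u, hu⟩ : ∃ u, r0 + 2 ^ c = 2 ^ t + u := ⟨r0 + 2 ^ c - 2 ^ t, by omega⟩
            have e1 := omega_two_pow_add (c := t) (r := r0) (by omega)
            have e2 := omega_two_pow_add (c := t) (r := u) (by omega)
            have e3 := omega_add_two_pow_le c r0
            have e4 := omega_succ_le u
            rw [hu] at e3
            obtain ⟨L0, rfl⟩ : ∃ L0, L' = L0 + 1 := ⟨L' - 1, by omega⟩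
            refine ⟨L + L0, u + 1, by omega, by omega, by omega, ?_⟩
            rw [add_mul] at hφ hLM' ⊢
            omega
    rcases key S h1 with h0 | h
    · omega
    · rwa [h2] at h
  · rintro ⟨L, r, r1, r2, r3, rfl⟩
    have hp : (L, r) ∈ colP s := ⟨r1, by omega, r3⟩
    refine ⟨(adm_stdW hlt).1 _ hp, ?_⟩
    apply Set.nonempty_of_ncard_ne_zero
    rw [andrews_formal hlt (by omega)]
    refine Set.ncard_ne_zero_of_mem (a := [(L, r)]) ⟨?_, by simp, by simp, by simp [stdW]⟩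
      (wch_finite (adm_stdW hlt) _ _ _)
    simpa using hp

lemma idx_idx {M L r : ℕ} (h1 : 1 ≤ r) (h2 : r ≤ M) (hL : 1 ≤ L) :
    idx M (M - idx M (L * M - r)) = r := by
  obtain ⟨L0, rfl⟩ : ∃ L0, L = L0 + 1 := ⟨L - 1, by omega⟩
  have e : (L0 + 1) * M - r = (M - r) + M * L0 := by rw [add_mul, mul_comm L0 M]; omega
  have e2 : ((L0 + 1) * M - r) % M = M - r := by
    rw [e, Nat.add_mul_mod_self_left, Nat.mod_eq_of_lt (by omega)]
  unfold idx
  rw [e2]
  by_cases h : M - r = 0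
  · rw [if_pos h]; simp; omega
  · rw [if_neg h, show M - (M - r) = r by omega, Nat.mod_eq_of_lt (by omega), if_neg (by omega)]

/-- the theorem of Andrews -/
theorem andrews_ident {M s : ℕ} {b : ℕ → ℕ} (hs : 1 ≤ s) (hM : M + 1 = 2 ^ s)
    (hb : ∀ j, 1 ≤ j → j ≤ M → b j = andrews M j) : Ident M s b := by
  rcases Nat.eq_or_lt_of_le hs with rfl | hs2
  · obtain rfl : M = 1 := by omega
    rw [ident_iff (by norm_num)]
    intro n
    have hb1 : b 1 = 1 := by
      rw [hb 1 le_rfl le_rfl]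
      have := omega_two_pow 0
      have := lowv_two_pow 0
      simp_all [andrews, idx]
    have hA : Set.BijOn (fun p : ℕ × ℕ => p.1 * 1 - 0) {p | 1 ≤ p.1 ∧ p.2 < 1}
        {e | okA 1 1 e} := by
      refine ⟨?_, ?_, ?_⟩
      · rintro ⟨L, c⟩ ⟨h1, h2⟩
        exact ⟨by simp only at *; omega, 0, by norm_num, one_dvd _⟩
      · rintro ⟨L, c⟩ ⟨h1, h2⟩ ⟨L', c'⟩ ⟨h1', h2'⟩ h
        simp only [Prod.mk.injEq] at *
        omega
      · rintro e ⟨h1, -⟩
        exact ⟨(e, 0), ⟨h1, by norm_num⟩, by simp⟩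
    have hD : Set.BijOn (fun p : ℕ × ℕ => p.1) (colP 1) (Dset 1 1) := by
      refine ⟨?_, ?_, ?_⟩
      · rintro ⟨L, r⟩ ⟨h1, h2, h3⟩
        have h4 : 1 ≤ L := le_trans (omega_pos h1) h3
        exact ⟨h4, {L}, by simpa using ⟨h4, 0, by norm_num, one_dvd _⟩, by simp⟩
      · rintro ⟨L, r⟩ ⟨h1, h2, h3⟩ ⟨L', r'⟩ ⟨h1', h2', h3'⟩ h
        simp only [Prod.mk.injEq] at *
        omega
      · rintro e ⟨h1, -⟩
        refine ⟨(e, 1), ⟨le_rfl, by norm_num, ?_⟩, rfl⟩
        have := omega_two_pow 0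
        simp only [pow_zero] at this
        simp only [this]; exact h1
    have h1 := andrews_col 1 1 (fun _ => 0) (fun _ _ => Nat.one_pos) n
    have h2 := fset_transfer _ hA n
    have h3 := wch_transfer (R := colR) (R' := gap 1 b) (w := colW 1 (fun _ => 0)) (w' := id)
      _ hD ?_ ?_ n
    · exact h2.symm.trans (h1.trans h3)
    · rintro ⟨L, r⟩ ⟨h1, h2, h3⟩ ⟨L', r'⟩ ⟨h1', h2', h3'⟩
      simp only at *
      obtain rfl : r = 1 := by omega
      obtain rfl : r' = 1 := by omega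
      have e1 := omega_two_pow 0
      have e2 := lowv_two_pow 0
      simp only [pow_zero] at e1 e2
      simp only [colR, gap, idx, Nat.mod_one, if_true, hb1, e1, e2]
      omega
    · rintro ⟨L, r⟩ -
      simp [colW, dsum]
  · have hlt := two_pow_pred_lt hs2 hM
    rw [ident_iff hlt.le]
    intro n
    rw [andrews_formal hlt hs]
    have hD : Set.BijOn (stdW M) (colP s) (Dset M s) := by
      refine ⟨?_, ?_, ?_⟩
      · rintro ⟨L, r⟩ ⟨h1, h2, h3⟩
        exact (mem_Dset_andrews hs2 hM _).2 ⟨L, r, h1, by simp only at h2; omega, h3, rfl⟩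
      · rintro ⟨L, r⟩ ⟨h1, h2, h3⟩ ⟨L', r'⟩ ⟨h1', h2', h3'⟩ h
        simp only at h1 h2 h3 h1' h2' h3'
        obtain ⟨e1, e2⟩ := level_unique h1 (by omega) h1' (by omega)
          (le_trans (omega_pos h1) h3) (le_trans (omega_pos h1') h3') h
        rw [Prod.mk.injEq]; exact ⟨e1, e2⟩
      · intro e he
        obtain ⟨L, r, h1, h2, h3, rfl⟩ := (mem_Dset_andrews hs2 hM _).1 he
        exact ⟨(L, r), ⟨h1, by simp only; omega, h3⟩, rfl⟩
    refine wch_transfer (w' := id) _ hD ?_ (fun _ _ => rfl) n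
    rintro ⟨L, r⟩ ⟨h1, h2, h3⟩ ⟨L', r'⟩ ⟨h1', h2', h3'⟩
    simp only at h1 h2 h3 h1' h2' h3'
    have hM0 : 0 < M := by omega
    have ho := omega_pos h1
    have hL : 1 ≤ L := le_trans ho h3
    have hL' : 1 ≤ L' := le_trans (omega_pos h1') h3'
    have l1 := lowv_pos r
    have l2 := lowv_le h1
    simp only [colR, gap, stdW]
    rw [hb _ (idx_pos hM0 _) (idx_le hM0 _), andrews, idx_idx h1 (by omega) hL]
    have m1 : M ≤ L * M := Nat.le_mul_of_pos_left _ hL
    have m2 : M ≤ L' * M := Nat.le_mul_of_pos_left _ hL'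
    have m3 : M ≤ M * omega r := Nat.le_mul_of_pos_right _ ho
    have m4 : (L' + omega r) * M = L' * M + M * omega r := by ring
    rcases lt_trichotomy (L' + omega r) L with h | h | h
    · have : (L' + omega r + 1) * M ≤ L * M := Nat.mul_le_mul_right _ h
      rw [add_mul, m4] at this
      omega
    · have : (L' + omega r) * M = L * M := by rw [h]
      rw [m4] at this
      omega
    · have : (L + 1) * M ≤ (L' + omega r) * M := Nat.mul_le_mul_right _ h
      rw [add_mul, m4] at this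
      omega

end Pool.Agent.P.MP_e9218d_nt
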