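import Pool.Agent.P.MP_e9218d_nt.Col

namespace Pool.Agent.P.MP_e9218d_nt

open Finset

/-! ### the abstract recurrence and its solution modulo a nilpotent element -/

section abstract
variable {R : Type*} [CommRing R]

/-- solution of the recurrence of Andrews in a ring where `q ^ K = 0` -/
theorem abstract_andrews (q x : R) (v : ℕ → R) (s K : ℕ) (G : ℕ → ℕ → R)
    (hq : q ^ K = 0) (hx : q ∣ x) (hv : ∀ c < s, q ∣ v c)
    (h0 : G 0 0 = 1) (htop : ∀ L, G (L + 1) s = G L 0)
    (hrec : ∀ L c, c < s →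
      G (L + 1) c = G (L + 1) (c + 1) + v c * G L 0 - v c * (1 - x ^ L) * G L c) :
    G K 0 = ∏ j ∈ range (K + 1), ∏ c ∈ range s, (1 + v c * x ^ j) := by
  -- tail products
  set T : ℕ → R := fun L => ∏ i ∈ Ico L (K + 1), (1 - x ^ i) with hT
  have hTs : ∀ L ≤ K, T L = (1 - x ^ L) * T (L + 1) := by
    intro L hL
    simp only [hT]
    rw [Finset.prod_eq_prod_Ico_succ_bot (by omega)]
  have hT0 : T 0 = 0 := by rw [hTs 0 (by omega)]; simp
  have hTK : T (K + 1) = 1 := by simp [hT]
  set u : ℕ → R := fun L => G L 0 * T (L + 1) with hu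
  set δ : ℕ → ℕ → R := fun L c => u L - G L c * T L with hδ
  have hδ0 : ∀ L ≤ K, δ L 0 = x ^ L * u L := by
    intro L hL
    simp only [hδ, hu]
    rw [hTs L hL]; ring
  have hδz : ∀ c, δ 0 c = u 0 := by
    intro c; simp only [hδ]; rw [hT0]; ring
  have hδs : ∀ L, δ (L + 1) s = u (L + 1) - u L := by
    intro L; simp only [hδ, hu]; rw [htop]
  have hδr : ∀ L c, L + 1 ≤ K → c < s → δ (L + 1) (c + 1) = δ (L + 1) c + v c * δ L c := by
    intro L c hL hc
    simp only [hδ, hu]
    rw [hrec L c hc, hTs L (by omega)]; ring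
  have hdvd : ∀ L ≤ K, ∀ c ≤ s, q ^ L ∣ δ L c := by
    intro L
    induction L with
    | zero => intro _ c _; simp
    | succ L ih =>
      intro hL c
      induction c with
      | zero =>
        intro _
        rw [hδ0 _ hL]
        exact Dvd.dvd.mul_right (pow_dvd_pow_of_dvd hx _) _
      | succ c ihc =>
        intro hc
        rw [hδr L c hL (by omega)]
        refine dvd_add (ihc (by omega)) ?_
        rw [pow_succ']
        exact mul_dvd_mul (hv c (by omega)) (ih (by omega) c (by omega))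
  have hK : ∀ c ≤ s, δ K c = 0 := by
    intro c hc
    have := hdvd K le_rfl c hc
    rwa [hq, zero_dvd_iff] at this
  have hxK : x ^ K = 0 := by
    have := pow_dvd_pow_of_dvd hx K
    rwa [hq, zero_dvd_iff] at this
  set A : ℕ → ℕ → R := fun c j => ∑ L ∈ range (K + 1), δ L c * (x ^ j) ^ L with hA
  set B : ℕ → R := fun j => ∑ L ∈ range (K + 1), u L * (x ^ j) ^ L with hB
  have hAr : ∀ c < s, ∀ j, A (c + 1) j = (1 + v c * x ^ j) * A c j := by
    intro c hc j
    have e1 : A (c + 1) j = ∑ L ∈ range K, (δ (L + 1) c + v c * δ L c) * (x ^ j) ^ (L + 1)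
        + δ 0 c * (x ^ j) ^ 0 := by
      simp only [hA]
      rw [Finset.sum_range_succ', hδz, hδz]
      congr 1
      refine Finset.sum_congr rfl (fun L hL => ?_)
      rw [hδr L c (by simpa using Finset.mem_range.1 hL) hc]
    have e2 : A c j = ∑ L ∈ range K, δ (L + 1) c * (x ^ j) ^ (L + 1) + δ 0 c * (x ^ j) ^ 0 := by
      simp only [hA]
      rw [Finset.sum_range_succ']
    have e3 : A c j = ∑ L ∈ range K, δ L c * (x ^ j) ^ L := by
      simp only [hA]
      rw [Finset.sum_range_succ, hK c hc.le]; simp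
    have e4 : ∑ L ∈ range K, (δ (L + 1) c + v c * δ L c) * (x ^ j) ^ (L + 1) =
        ∑ L ∈ range K, δ (L + 1) c * (x ^ j) ^ (L + 1) +
          v c * x ^ j * ∑ L ∈ range K, δ L c * (x ^ j) ^ L := by
      rw [Finset.mul_sum, ← Finset.sum_add_distrib]
      refine Finset.sum_congr rfl (fun L _ => by ring)
    rw [e1, e4, ← e3, add_mul, one_mul]
    nth_rewrite 2 [e2]
    ring
  have hAc : ∀ c ≤ s, ∀ j, A c j = (∏ c ∈ range c, (1 + v c * x ^ j)) * A 0 j := by
    intro c
    induction c with
    | zero => intro _ j; simp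
    | succ c ih =>
      intro hc j
      rw [hAr c (by omega), ih (by omega), Finset.prod_range_succ]; ring
  have hA0 : ∀ j, A 0 j = B (j + 1) := by
    intro j
    simp only [hA, hB]
    refine Finset.sum_congr rfl (fun L hL => ?_)
    rw [hδ0 L (by simpa [Nat.lt_succ_iff] using Finset.mem_range.1 hL)]; ring
  have hAs : ∀ j, A s j = (1 - x ^ j) * B j + u K * (x ^ j) ^ (K + 1) := by
    intro j
    have e1 : A s j = ∑ L ∈ range K, (u (L + 1) - u L) * (x ^ j) ^ (L + 1)
        + u 0 * (x ^ j) ^ 0 := by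
      simp only [hA]
      rw [Finset.sum_range_succ', hδz]
      congr 1
      refine Finset.sum_congr rfl (fun L _ => ?_)
      rw [hδs]
    have e2 : B j = ∑ L ∈ range K, u (L + 1) * (x ^ j) ^ (L + 1) + u 0 * (x ^ j) ^ 0 := by
      simp only [hB]
      rw [Finset.sum_range_succ']
    have e3 : B j = ∑ L ∈ range K, u L * (x ^ j) ^ L + u K * (x ^ j) ^ K := by
      simp only [hB]
      rw [Finset.sum_range_succ]
    have e4 : ∑ L ∈ range K, (u (L + 1) - u L) * (x ^ j) ^ (L + 1) =
        ∑ L ∈ range K, u (L + 1) * (x ^ j) ^ (L + 1) -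
          x ^ j * ∑ L ∈ range K, u L * (x ^ j) ^ L := by
      rw [Finset.mul_sum, ← Finset.sum_sub_distrib]
      refine Finset.sum_congr rfl (fun L _ => by ring)
    have e5 : ∑ L ∈ range K, u L * (x ^ j) ^ L = B j - u K * (x ^ j) ^ K := by
      rw [e3]; ring
    have e6 : ∑ L ∈ range K, u (L + 1) * (x ^ j) ^ (L + 1) = B j - u 0 * (x ^ j) ^ 0 := by
      rw [e2]; ring
    rw [e1, e4, e5, e6]; ring
  set E : ℕ → R := fun j => ∏ c ∈ range s, (1 + v c * x ^ j) with hE
  have huK : u K = E 0 * B 1 := by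
    have := hAs 0
    rw [hAc s le_rfl, hA0] at this
    simp only [pow_zero, sub_self, zero_mul, one_pow, mul_one, zero_add] at this
    simp only [hE, pow_zero, mul_one]
    exact this.symm
  have hstep : ∀ j, (1 - x ^ (j + 1)) * B (j + 1) = E (j + 1) * B (j + 2) := by
    intro j
    have := hAs (j + 1)
    rw [hAc s le_rfl, hA0] at this
    have hz : (x ^ (j + 1)) ^ (K + 1) = 0 := by
      rw [← pow_mul, show (j + 1) * (K + 1) = K + (j * (K + 1) + 1) by ring, pow_add, hxK,
        zero_mul]
    rw [hz, mul_zero, add_zero] at this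
    exact this.symm
  have hiter : ∀ m, (∏ j ∈ range m, (1 - x ^ (j + 1))) * B 1 =
      (∏ j ∈ range m, E (j + 1)) * B (m + 1) := by
    intro m
    induction m with
    | zero => simp
    | succ m ih =>
      rw [Finset.prod_range_succ, Finset.prod_range_succ]
      calc _ = (1 - x ^ (m + 1)) * ((∏ j ∈ range m, (1 - x ^ (j + 1))) * B 1) := by ring
        _ = (∏ j ∈ range m, E (j + 1)) * ((1 - x ^ (m + 1)) * B (m + 1)) := by rw [ih]; ring
        _ = _ := by rw [hstep]; ring
  have hT1 : T 1 = ∏ j ∈ range K, (1 - x ^ (j + 1)) := by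
    simp only [hT]
    rw [Finset.prod_Ico_eq_prod_range]
    simp only [Nat.add_sub_cancel]
    refine Finset.prod_congr rfl (fun j _ => by rw [add_comm])
  have hBK : B (K + 1) = T 1 := by
    simp only [hB]
    rw [Finset.sum_range_succ', Finset.sum_eq_zero]
    · simp [hu, h0]
    · intro L _
      rw [← pow_mul, show (K + 1) * (L + 1) = K + ((K + 1) * L + 1) by ring, pow_add, hxK]
      simp
  have hunit : IsUnit (T 1) := by
    rw [hT1]
    refine Finset.prod_induction _ IsUnit (fun a b => IsUnit.mul) isUnit_one ?_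
    intro j _
    refine IsNilpotent.isUnit_one_sub ⟨K, ?_⟩
    rw [← pow_mul, show (j + 1) * K = K + j * K by ring, pow_add, hxK, zero_mul]
  have hGK : G K 0 = u K := by simp only [hu]; rw [hTK, mul_one]
  have := hiter K
  rw [hBK, ← hT1] at this
  have hB1 : B 1 = ∏ j ∈ range K, E (j + 1) := by
    apply hunit.mul_left_cancel
    rw [this]; ring
  rw [hGK, huK, hB1, Finset.prod_range_succ']
  simp only [hE]; ring

end abstract

/-! ### binary digits -/

lemma omega_zero : omega 0 = 0 := by simp [omega]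

lemma omega_two_mul (n : ℕ) : omega (2 * n) = omega n := by
  rcases Nat.eq_zero_or_pos n with rfl | hn
  · simp
  · unfold omega
    rw [Nat.digits_base_mul (by norm_num) hn]
    simp

lemma omega_two_mul_add_one (n : ℕ) : omega (2 * n + 1) = omega n + 1 := by
  unfold omega
  rw [show 2 * n + 1 = 1 + 2 * n by ring, Nat.digits_add 2 (by norm_num) 1 n (by norm_num)
    (Or.inl (by norm_num))]
  simp

lemma omega_eq_length (n : ℕ) : omega n = n.bitIndices.length := by
  induction n using Nat.strong_induction_on with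
  | _ n ih =>
    rcases Nat.eq_zero_or_pos n with rfl | hn
    · simp [omega_zero]
    · obtain ⟨k, rfl | rfl⟩ := Nat.even_or_odd' n
      · rw [omega_two_mul, Nat.bitIndices_two_mul, ih k (by omega)]; simp
      · rw [omega_two_mul_add_one, Nat.bitIndices_two_mul_add_one, ih k (by omega)]; simp

lemma omega_pos {n : ℕ} (hn : 1 ≤ n) : 1 ≤ omega n := by
  rw [omega_eq_length]
  by_contra h
  have h0 : n.bitIndices = [] := List.eq_nil_of_length_eq_zero (by omega)
  have := Nat.sum_map_two_pow_bitIndices n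
  rw [h0] at this
  simp at this; omega

lemma bitIndices_two_pow_add {c r : ℕ} (hr : r < 2 ^ c) :
    (2 ^ c + r).bitIndices = r.bitIndices ++ [c] := by
  have hs : (r.bitIndices ++ [c]).SortedLT := by
    rw [List.sortedLT_iff_pairwise, List.pairwise_append]
    refine ⟨Nat.bitIndices_sorted.pairwise, by simp, ?_⟩
    intro a ha b hb
    rw [List.mem_singleton] at hb
    subst hb
    have := Nat.two_pow_le_of_mem_bitIndices ha
    exact (Nat.pow_lt_pow_iff_right (by norm_num : 1 < 2)).1 (lt_of_le_of_lt this hr)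
  have := Nat.bitIndices_sum_map_two_pow hs
  rw [List.map_append, List.sum_append, Nat.sum_map_two_pow_bitIndices] at this
  rw [← this]; simp [add_comm]

lemma omega_two_pow_add {c r : ℕ} (hr : r < 2 ^ c) : omega (2 ^ c + r) = omega r + 1 := by
  rw [omega_eq_length, omega_eq_length, bitIndices_two_pow_add hr]; simp

lemma omega_two_pow (c : ℕ) : omega (2 ^ c) = 1 := by
  rw [omega_eq_length]; simp

lemma dsum_two_pow_add (d : ℕ → ℕ) {c r : ℕ} (hr : r < 2 ^ c) :
    dsum d (2 ^ c + r) = dsum d r + d c := by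
  unfold dsum
  rw [bitIndices_two_pow_add hr]; simp

lemma dsum_two_pow (d : ℕ → ℕ) (c : ℕ) : dsum d (2 ^ c) = d c := by
  unfold dsum; simp

lemma dsum_std (r : ℕ) : dsum (fun c => 2 ^ c) r = r := Nat.sum_map_two_pow_bitIndices r

lemma lowv_two_pow (c : ℕ) : lowv (2 ^ c) = 2 ^ c := by
  unfold lowv; simp

lemma lowv_pos (r : ℕ) : 1 ≤ lowv r := Nat.one_le_two_pow

lemma lowv_le {r : ℕ} (hr : 1 ≤ r) : lowv r ≤ r :=
  Nat.le_of_dvd hr pow_padicValNat_dvd

lemma lowv_two_pow_add {c r : ℕ} (h1 : 1 ≤ r) (hr : r < 2 ^ c) : lowv (2 ^ c + r) = lowv r := by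
  unfold lowv
  congr 1
  have hlt : padicValNat 2 r < c :=
    (Nat.pow_lt_pow_iff_right (by norm_num : 1 < 2)).1 (lt_of_le_of_lt (lowv_le h1) hr)
  have hne : 2 ^ c + r ≠ 0 := by positivity
  apply le_antisymm
  · by_contra h
    have h2 : 2 ^ (padicValNat 2 r + 1) ∣ 2 ^ c + r :=
      (padicValNat_dvd_iff_le hne).2 (by omega)
    have h3 : 2 ^ (padicValNat 2 r + 1) ∣ 2 ^ c := pow_dvd_pow _ (by omega)
    have h4 := (Nat.dvd_add_right h3).1 h2
    have := (padicValNat_dvd_iff_le (p := 2) (by omega : r ≠ 0)).1 h4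
    omega
  · exact (padicValNat_dvd_iff_le hne).1
      (dvd_add (pow_dvd_pow _ hlt.le) pow_padicValNat_dvd)

lemma omega_succ_le (a : ℕ) : omega (a + 1) ≤ omega a + 1 := by
  induction a using Nat.strong_induction_on with
  | _ a ih =>
    obtain ⟨k, rfl | rfl⟩ := Nat.even_or_odd' a
    · rw [omega_two_mul_add_one, omega_two_mul]
    · rw [show 2 * k + 1 + 1 = 2 * (k + 1) by ring, omega_two_mul, omega_two_mul_add_one]
      have := ih k (by omega); omega

lemma omega_add_two_pow_le (c : ℕ) : ∀ a, omega (a + 2 ^ c) ≤ omega a + 1 := by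
  induction c with
  | zero => intro a; simpa using omega_succ_le a
  | succ c ih =>
    intro a
    obtain ⟨k, rfl | rfl⟩ := Nat.even_or_odd' a
    · rw [show 2 * k + 2 ^ (c + 1) = 2 * (k + 2 ^ c) by ring, omega_two_mul, omega_two_mul]
      exact ih k
    · rw [show 2 * k + 1 + 2 ^ (c + 1) = 2 * (k + 2 ^ c) + 1 by ring, omega_two_mul_add_one,
        omega_two_mul_add_one]
      have := ih k; omega

lemma dsum_add_omega_le {M s : ℕ} {d : ℕ → ℕ} (hd : ∀ c < s, d c < M) {r : ℕ} (hr : r < 2 ^ s) :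
    dsum d r + omega r ≤ omega r * M := by
  rw [omega_eq_length]
  unfold dsum
  have : ∀ l : List ℕ, (∀ c ∈ l, c < s) → (l.map d).sum + l.length ≤ l.length * M := by
    intro l
    induction l with
    | nil => simp
    | cons a l ih =>
      intro h
      have h1 := hd a (h a (by simp))
      have h2 := ih (fun c hc => h c (by simp [hc]))
      simp only [List.map_cons, List.sum_cons, List.length_cons, add_mul]
      omega
  apply this
  intro c hc
  have := Nat.two_pow_le_of_mem_bitIndices hc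
  exact (Nat.pow_lt_pow_iff_right (by norm_num : 1 < 2)).1 (lt_of_le_of_lt this hr)

end Pool.Agent.P.MP_e9218d_nt
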