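import Pool.Agent.P.MP_e9218d_nt.Andrews1

namespace Pool.Agent.P.MP_e9218d_nt

open Finset PowerSeries

/-! ### generating functions of coloured chains -/

/-- generating function of chains -/
noncomputable def gfch {α : Type*} (P : Set α) (R : α → α → Prop) (w : α → ℕ) (U : Set α) :
    PowerSeries ℤ :=
  PowerSeries.mk fun n => ((wch P R w U n).ncard : ℤ)

lemma gfch_insert {α : Type*} {P : Set α} {w : α → ℕ} (h : Adm P w) (R : α → α → Prop)
    {U : Set α} {a : α} (haP : a ∈ P) (haU : a ∉ U) :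
    gfch P R w (insert a U) = gfch P R w U + X ^ (w a) * gfch P R w {f | R a f} := by
  ext n
  simp only [gfch, map_add, coeff_mk, coeff_X_pow_mul', wch_insert h R haP haU n]
  split_ifs <;> simp

lemma gfch_congr {α : Type*} (P : Set α) (w : α → ℕ) (R : α → α → Prop) {U V : Set α}
    (hU : ∀ a ∈ P, (a ∈ U ↔ a ∈ V)) : gfch P R w U = gfch P R w V := by
  ext n
  simp only [gfch, coeff_mk]
  rw [wch_congr P w R (fun a ha _ => hU a ha)]

lemma gfch_empty {α : Type*} {P : Set α} {w : α → ℕ} (h : Adm P w) (R : α → α → Prop)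
    {U : Set α} (hU : ∀ a ∈ P, a ∉ U) : gfch P R w U = 1 := by
  ext n
  simp only [gfch, coeff_mk, coeff_one]
  split_ifs with hn
  · subst hn; rw [wch_zero h]; simp
  · rw [wch_empty P w R hU (by omega)]; simp

lemma colW_ge {M s : ℕ} {d : ℕ → ℕ} (hd : ∀ c < s, d c < M) {p : ℕ × ℕ} (hp : p ∈ colP s) :
    p.1 ≤ colW M d p := by
  obtain ⟨h1, h2, h3⟩ := hp
  have h4 := dsum_add_omega_le hd h2
  have h5 := omega_pos h1
  unfold colW
  obtain ⟨k, hk⟩ := Nat.exists_eq_add_of_le h3
  have hM : 1 ≤ M := by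
    rcases Nat.eq_zero_or_pos M with rfl | h
    · omega
    · exact h
  have : k ≤ k * M := Nat.le_mul_of_pos_right _ hM
  rw [hk, add_mul]; omega

theorem adm_colW {M s : ℕ} {d : ℕ → ℕ} (hd : ∀ c < s, d c < M) : Adm (colP s) (colW M d) := by
  refine ⟨fun p hp => ?_, fun n => ?_⟩
  · have := colW_ge hd hp
    have h5 := omega_pos hp.1
    have := hp.2.2
    omega
  · refine (Finset.range (n + 1) ×ˢ Finset.range (2 ^ s)).finite_toSet.subset ?_
    rintro p ⟨hp, hn⟩
    have := colW_ge hd hp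
    have := hp.2.1
    simp; omega

/-- first parts below `(L, m)` in the natural order -/
def below (L m : ℕ) : Set (ℕ × ℕ) := {p | p.1 < L ∨ (p.1 = L ∧ m ≤ p.2)}

section
variable (M s : ℕ) (d : ℕ → ℕ)

/-- chains with first part below `(L, m)` -/
noncomputable def Gm (L m : ℕ) : PowerSeries ℤ := gfch (colP s) colR (colW M d) (below L m)

/-- chains with first part exactly `(L, m)` -/
noncomputable def term (L m : ℕ) : PowerSeries ℤ :=
  if omega m ≤ L then X ^ (colW M d (L, m)) * Gm M s d (L - omega m) (lowv m) else 0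

variable {M s d}

lemma Gm_step (hd : ∀ c < s, d c < M) (L : ℕ) {m : ℕ} (h1 : 1 ≤ m) (h2 : m < 2 ^ s) :
    Gm M s d L m = Gm M s d L (m + 1) + term M s d L m := by
  unfold term
  split_ifs with h
  · have e : below L m = insert (L, m) (below L (m + 1)) := by
      ext ⟨a, b⟩
      simp only [below, Set.mem_ofPred_eq, Set.mem_insert_iff, Prod.mk.injEq]
      omega
    unfold Gm
    rw [e, gfch_insert (adm_colW hd) _ ⟨h1, h2, h⟩ (by simp [below])]
    congr 3
    ext ⟨a, b⟩
    simp only [below, colR, Set.mem_ofPred_eq]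
    omega
  · rw [add_zero]
    unfold Gm
    apply gfch_congr
    rintro ⟨a, b⟩ ⟨-, -, h3⟩
    simp only [below, Set.mem_ofPred_eq] at *
    have : a = L → b ≠ m := by rintro rfl rfl; exact h h3
    omega

lemma Gm_sum (hd : ∀ c < s, d c < M) (L : ℕ) {a b : ℕ} (h1 : 1 ≤ a) (hab : a ≤ b)
    (h2 : b ≤ 2 ^ s) : Gm M s d L a = Gm M s d L b + ∑ m ∈ Ico a b, term M s d L m := by
  induction b, hab using Nat.le_induction with
  | base => simp
  | succ b hab ih =>
    rw [ih (by omega), Finset.sum_Ico_succ_top hab, Gm_step hd L (by omega) (by omega : b < 2 ^ s)]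
    ring

lemma term_two_pow (hd : ∀ c < s, d c < M) (L : ℕ) {c : ℕ} (hc : c < s) :
    term M s d (L + 1) (2 ^ c) = X ^ (M - d c) * (X ^ M) ^ L * Gm M s d L (2 ^ c) := by
  unfold term
  rw [omega_two_pow, if_pos (by omega), lowv_two_pow, Nat.add_sub_cancel, ← pow_mul, ← pow_add]
  congr 2
  unfold colW
  have := hd c hc
  simp only [dsum_two_pow, add_mul, mul_comm M L]
  omega

lemma term_two_pow_add (hd : ∀ c < s, d c < M) (L : ℕ) {c r : ℕ} (hc : c < s) (h1 : 1 ≤ r)
    (hr : r < 2 ^ c) :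
    term M s d (L + 1) (2 ^ c + r) = X ^ (M - d c) * term M s d L r := by
  unfold term
  rw [omega_two_pow_add hr, lowv_two_pow_add h1 hr]
  by_cases h : omega r ≤ L
  · rw [if_pos (by omega), if_pos h, ← mul_assoc, ← pow_add, Nat.add_sub_add_right]
    congr 2
    unfold colW
    have h3 := hd c hc
    have h4 := dsum_add_omega_le hd
      (lt_of_lt_of_le hr (Nat.pow_le_pow_right (by norm_num) hc.le))
    have h5 : omega r * M ≤ L * M := Nat.mul_le_mul_right _ h
    simp only [dsum_two_pow_add d hr, add_mul]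
    omega
  · rw [if_neg (by omega), if_neg h, mul_zero]

lemma Gm_rec (hd : ∀ c < s, d c < M) (L : ℕ) {c : ℕ} (hc : c < s) :
    Gm M s d (L + 1) (2 ^ c) = Gm M s d (L + 1) (2 ^ (c + 1)) +
      X ^ (M - d c) * Gm M s d L (2 ^ 0) -
      X ^ (M - d c) * (1 - (X ^ M) ^ L) * Gm M s d L (2 ^ c) := by
  have h1 : 1 ≤ 2 ^ c := Nat.one_le_two_pow
  have h2 : 2 ^ (c + 1) ≤ 2 ^ s := Nat.pow_le_pow_right (by norm_num) hc
  have h3 : 2 ^ (c + 1) = 2 ^ c + 2 ^ c := by ring
  rw [Gm_sum hd (L + 1) h1 (by omega : 2 ^ c ≤ 2 ^ (c + 1)) h2,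
    Gm_sum hd L (a := 2 ^ 0) (b := 2 ^ c) (by norm_num) (by simpa using h1) (by omega),
    Finset.sum_eq_sum_Ico_succ_bot (by omega : 2 ^ c < 2 ^ (c + 1)), term_two_pow hd L hc]
  have e : ∑ m ∈ Ico (2 ^ c + 1) (2 ^ (c + 1)), term M s d (L + 1) m =
      X ^ (M - d c) * ∑ m ∈ Ico (2 ^ 0) (2 ^ c), term M s d L m := by
    rw [h3, pow_zero, add_comm (2 ^ c) 1, ← Finset.sum_Ico_add, Finset.mul_sum]
    refine Finset.sum_congr rfl (fun r hr => ?_)
    rw [Finset.mem_Ico] at hr
    exact term_two_pow_add hd L hc hr.1 hr.2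
  rw [e]; ring

lemma Gm_top (L : ℕ) : Gm M s d (L + 1) (2 ^ s) = Gm M s d L (2 ^ 0) := by
  unfold Gm
  apply gfch_congr
  rintro ⟨a, b⟩ ⟨h1, h2, -⟩
  simp only [below, Set.mem_ofPred_eq] at *
  omega

lemma Gm_zero (hd : ∀ c < s, d c < M) (m : ℕ) : Gm M s d 0 m = 1 := by
  apply gfch_empty (adm_colW hd)
  rintro ⟨a, b⟩ ⟨h1, -, h3⟩
  have := omega_pos h1
  simp only [below, Set.mem_ofPred_eq] at *
  omega

lemma coeff_Gm (hd : ∀ c < s, d c < M) (hM : 1 ≤ M) (n : ℕ) :
    coeff n (Gm M s d (n + 1) 1) =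
      coeff n (∏ j ∈ range (n + 2), ∏ c ∈ range s,
        (1 + X ^ (M - d c) * (X ^ M) ^ j : PowerSeries ℤ)) := by
  set I : Ideal (PowerSeries ℤ) := Ideal.span {X ^ (n + 1)} with hI
  set π := Ideal.Quotient.mk I with hπ
  have key := abstract_andrews (π X) (π (X ^ M)) (fun c => π (X ^ (M - d c))) s (n + 1)
    (fun L c => π (Gm M s d L (2 ^ c)))
    (by rw [← map_pow, hπ, Ideal.Quotient.eq_zero_iff_mem]; exact Ideal.subset_span rfl)
    (map_dvd π (dvd_pow_self _ (by omega)))
    (fun c hc => map_dvd π (dvd_pow_self _ (by have := hd c hc; omega)))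
    (by simp only [Gm_zero hd, map_one])
    (fun L => by simp only [Gm_top])
    (fun L c hc => by
      rw [Gm_rec hd L hc]
      simp only [map_add, map_sub, map_mul, map_pow, map_one])
  have key2 : π (Gm M s d (n + 1) 1) = π (∏ j ∈ range (n + 2), ∏ c ∈ range s,
        (1 + X ^ (M - d c) * (X ^ M) ^ j : PowerSeries ℤ)) := by
    simp only [map_prod, map_add, map_mul, map_one]
    simpa only [pow_zero, map_pow] using key
  rw [hπ, Ideal.Quotient.eq, hI, Ideal.mem_span_singleton, X_pow_dvd_iff] at key2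
  have := key2 n (by omega)
  rwa [map_sub, sub_eq_zero] at this

lemma coeff_prod_box (hd : ∀ c < s, d c < M) (n : ℕ) :
    coeff n (∏ j ∈ range (n + 2), ∏ c ∈ range s,
        (1 + X ^ (M - d c) * (X ^ M) ^ j : PowerSeries ℤ)) = ((setAc M s d n).ncard : ℤ) := by
  classical
  have e1 : (∏ j ∈ range (n + 2), ∏ c ∈ range s,
        (1 + X ^ (M - d c) * (X ^ M) ^ j : PowerSeries ℤ)) =
      ∏ p ∈ (Ico 1 (n + 3)) ×ˢ range s, (1 + X ^ (p.1 * M - d p.2) : PowerSeries ℤ) := by
    rw [Finset.prod_product, Finset.prod_Ico_eq_prod_range]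
    refine Finset.prod_congr rfl (fun j _ => Finset.prod_congr rfl (fun c hc => ?_))
    have := hd c (Finset.mem_range.1 hc)
    rw [← pow_mul, ← pow_add]
    congr 2
    simp only [add_mul, mul_comm M j]
    omega
  have e2 : setAc M s d n = ((((Ico 1 (n + 3)) ×ˢ range s).powerset.filter
      (fun S => n = ∑ p ∈ S, (p.1 * M - d p.2)) : Finset (Finset (ℕ × ℕ))) : Set _) := by
    ext S
    simp only [setAc, Set.mem_ofPred_eq, coe_filter, mem_powerset]
    constructor
    · rintro ⟨h1, h2⟩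
      refine ⟨fun p hp => ?_, h2.symm⟩
      have h3 := h1 p hp
      have h4 : p.1 * M - d p.2 ≤ ∑ p ∈ S, (p.1 * M - d p.2) :=
        Finset.single_le_sum (f := fun p : ℕ × ℕ => p.1 * M - d p.2) (by simp) hp
      have h5 := hd p.2 h3.2
      obtain ⟨k, hk⟩ := Nat.exists_eq_add_of_le h3.1
      have h6 : k ≤ k * M := Nat.le_mul_of_pos_right _ (by omega)
      rw [h2, hk, add_mul] at h4
      simp only [Finset.mem_product, Finset.mem_Ico, Finset.mem_range]
      omega
    · rintro ⟨h1, h2⟩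
      refine ⟨fun p hp => ?_, h2.symm⟩
      have := h1 hp
      simp only [Finset.mem_product, Finset.mem_Ico, Finset.mem_range] at this
      omega
  rw [e1, e2, Set.ncard_coe_finset, Finset.prod_one_add, map_sum, Finset.card_filter]
  push_cast
  refine Finset.sum_congr rfl (fun S _ => ?_)
  rw [Finset.prod_pow_eq_pow_sum, coeff_X_pow]

end

/-- the theorem of Andrews, coloured form -/
theorem andrews_col (M s : ℕ) (d : ℕ → ℕ) (hd : ∀ c < s, d c < M) (n : ℕ) :
    (setAc M s d n).ncard = (wch (colP s) colR (colW M d) Set.univ n).ncard := by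
  rcases Nat.eq_zero_or_pos s with rfl | hs
  · rcases Nat.eq_zero_or_pos n with rfl | hn
    · rw [wch_zero (adm_colW hd)]
      have : setAc M 0 d 0 = {∅} := by
        ext S
        simp only [setAc, Set.mem_ofPred_eq, Set.mem_singleton_iff]
        constructor
        · rintro ⟨h, -⟩
          exact Finset.eq_empty_of_forall_notMem (fun p hp => by have := (h p hp).2; omega)
        · rintro rfl; simp
      rw [this]; simp
    · rw [wch_empty _ _ _ (fun p hp _ => by have := hp.1; have := hp.2.1; omega) hn]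
      have : setAc M 0 d n = ∅ := by
        ext S
        simp only [setAc, Set.mem_ofPred_eq, Set.mem_empty_iff_false, iff_false]
        rintro ⟨h, h2⟩
        have : S = ∅ :=
          Finset.eq_empty_of_forall_notMem (fun p hp => by have := (h p hp).2; omega)
        subst this
        simp at h2; omega
      rw [this]; simp
  · have hM : 1 ≤ M := by have := hd 0 hs; omega
    have h1 := coeff_Gm hd hM n
    rw [coeff_prod_box hd n] at h1
    simp only [Gm, gfch, coeff_mk, Nat.cast_inj] at h1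
    rw [← h1]
    congr 1
    apply wch_congr
    intro p hp hn
    have := colW_ge hd hp
    simp only [below, Set.mem_ofPred_eq, Set.mem_univ, iff_true]
    omega

end Pool.Agent.P.MP_e9218d_nt
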