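import Pool.Agent.P.MP_e9218d_nt.Defs

namespace Pool.Agent.P.MP_e9218d_nt

open Finset

/-! ### weighted chains -/

section chains
variable {α : Type*}

/-- lists of elements of `P`, consecutive ones related by `R`, first element in `U`, weight `n` -/
def wch (P : Set α) (R : α → α → Prop) (w : α → ℕ) (U : Set α) (n : ℕ) : Set (List α) :=
  {l | (∀ a ∈ l, a ∈ P) ∧ l.IsChain R ∧ (∀ a ∈ l.head?, a ∈ U) ∧ (l.map w).sum = n}

/-- admissible weighted system: positive weights, finitely many elements of bounded weight -/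
def Adm (P : Set α) (w : α → ℕ) : Prop :=
  (∀ a ∈ P, 0 < w a) ∧ ∀ n, {a ∈ P | w a ≤ n}.Finite

lemma length_le_of_pos (w : α → ℕ) : ∀ l : List α, (∀ a ∈ l, 0 < w a) →
    l.length ≤ (l.map w).sum
  | [], _ => by simp
  | a :: l, h => by
    have h1 := h a (by simp)
    have h2 := length_le_of_pos w l (fun x hx => h x (by simp [hx]))
    simp only [List.length_cons, List.map_cons, List.sum_cons]; omega

lemma wch_finite {P : Set α} {w : α → ℕ} (h : Adm P w) (R : α → α → Prop) (U : Set α) (n : ℕ) :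
    (wch P R w U n).Finite := by
  classical
  have hf := h.2 n
  have : Finite {a // a ∈ {a ∈ P | w a ≤ n}} := hf
  have h1 := List.finite_length_le {a // a ∈ {a ∈ P | w a ≤ n}} n
  refine (h1.image (List.map Subtype.val)).subset ?_
  rintro l ⟨hP, -, -, hs⟩
  have hl : ∀ a ∈ l, a ∈ {a ∈ P | w a ≤ n} := by
    intro a ha
    refine ⟨hP a ha, ?_⟩
    rw [← hs]
    exact List.single_le_sum (by simp) _ (List.mem_map_of_mem ha)
  refine ⟨l.attachWith _ hl, ?_, List.unattach_attachWith⟩
  simp only [Set.mem_ofPred_eq, List.length_attachWith]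
  rw [← hs]
  exact length_le_of_pos w l (fun a ha => h.1 a (hP a ha))

lemma wch_zero {P : Set α} {w : α → ℕ} (h : Adm P w) (R : α → α → Prop) (U : Set α) :
    wch P R w U 0 = {[]} := by
  ext l
  constructor
  · rintro ⟨hP, -, -, hs⟩
    have := length_le_of_pos w l (fun a ha => h.1 a (hP a ha))
    rw [hs] at this
    simpa using this
  · rintro rfl
    simp [wch]

lemma wch_empty (P : Set α) (w : α → ℕ) (R : α → α → Prop) {U : Set α} (hU : ∀ a ∈ P, a ∉ U)
    {n : ℕ} (hn : 0 < n) : wch P R w U n = ∅ := by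
  ext l
  simp only [Set.mem_empty_iff_false, iff_false]
  rintro ⟨hP, -, hh, hs⟩
  cases l with
  | nil => simp at hs; omega
  | cons a l => exact hU a (hP a (by simp)) (hh a (by simp))

lemma wch_congr (P : Set α) (w : α → ℕ) (R : α → α → Prop) {U V : Set α} {n : ℕ}
    (hU : ∀ a ∈ P, w a ≤ n → (a ∈ U ↔ a ∈ V)) : wch P R w U n = wch P R w V n := by
  ext l
  cases l with
  | nil => simp [wch]
  | cons a l =>
    simp only [wch, Set.mem_ofPred_eq, List.head?_cons, Option.mem_def, Option.some.injEq,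
      forall_eq', List.map_cons, List.sum_cons]
    constructor
    · rintro ⟨hP, hc, hh, hs⟩
      exact ⟨hP, hc, (hU a (hP a (by simp)) (by omega)).1 hh, hs⟩
    · rintro ⟨hP, hc, hh, hs⟩
      exact ⟨hP, hc, (hU a (hP a (by simp)) (by omega)).2 hh, hs⟩

/-- the basic recurrence: add one more possible first element -/
lemma wch_insert {P : Set α} {w : α → ℕ} (h : Adm P w) (R : α → α → Prop) {U : Set α} {a : α}
    (haP : a ∈ P) (haU : a ∉ U) (n : ℕ) :
    (wch P R w (insert a U) n).ncard = (wch P R w U n).ncard +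
      if w a ≤ n then (wch P R w {f | R a f} (n - w a)).ncard else 0 := by
  split_ifs with hw
  · have e : wch P R w (insert a U) n =
        wch P R w U n ∪ (List.cons a) '' wch P R w {f | R a f} (n - w a) := by
      ext l
      cases l with
      | nil => simp [wch]
      | cons c l =>
        simp only [wch, Set.mem_ofPred_eq, List.head?_cons, Option.mem_def, Option.some.injEq,
          forall_eq', List.map_cons, List.sum_cons, Set.mem_union, Set.mem_image,
          List.cons.injEq, Set.mem_insert_iff]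
        constructor
        · rintro ⟨hP, hc, rfl | hh, hs⟩
          · right
            rw [List.isChain_cons] at hc
            exact ⟨l, ⟨fun x hx => hP x (by simp [hx]), hc.2, fun x hx => hc.1 x hx, by omega⟩,
              rfl, rfl⟩
          · exact Or.inl ⟨hP, hc, hh, hs⟩
        · rintro (⟨hP, hc, hh, hs⟩ | ⟨l', ⟨hP, hc, hh, hs⟩, rfl, rfl⟩)
          · exact ⟨hP, hc, Or.inr hh, hs⟩
          · refine ⟨?_, ?_, Or.inl rfl, by omega⟩
            · intro x hx
              rcases List.mem_cons.1 hx with rfl | hx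
              · exact haP
              · exact hP x hx
            · rw [List.isChain_cons]
              exact ⟨fun x hx => hh x hx, hc⟩
    rw [e, Set.ncard_union_eq _ (wch_finite h _ _ _) ((wch_finite h _ _ _).image _),
      Set.ncard_image_of_injective _ (List.cons_injective)]
    rw [Set.disjoint_left]
    rintro l ⟨-, -, hh, -⟩ ⟨l', -, rfl⟩
    exact haU (hh a (by simp))
  · rw [add_zero]
    congr 1
    apply wch_congr
    intro c _ hc
    have : c ≠ a := by rintro rfl; exact hw hc
    simp [this]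

end chains

/-! ### the real system -/

/-- parts allowed on the `A` side -/
def okA (M s e : ℕ) : Prop := 0 < e ∧ ∃ j < s, M ∣ e + 2 ^ j

/-- the partitions counted by `A`, as finite sets of parts -/
def setA (M s n : ℕ) : Set (Finset ℕ) := {S | (∀ e ∈ S, okA M s e) ∧ ∑ e ∈ S, e = n}

/-- parts allowed on the `B` side -/
def Dset (M s : ℕ) : Set ℕ := {m | 0 < m ∧ (setA M s m).Nonempty}

/-- the gap relation -/
def gap (M : ℕ) (b : ℕ → ℕ) (e f : ℕ) : Prop := f + b (idx M e) ≤ e

lemma idx_pos {M : ℕ} (hM : 0 < M) (e : ℕ) : 1 ≤ idx M e := by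
  unfold idx; split_ifs <;> omega

lemma idx_le {M : ℕ} (hM : 0 < M) (e : ℕ) : idx M e ≤ M := by
  unfold idx; split_ifs
  · exact le_rfl
  · exact (Nat.mod_lt _ hM).le

lemma setA_finite (M s n : ℕ) : (setA M s n).Finite := by
  refine (Finset.powerset (Finset.range (n + 1))).finite_toSet.subset ?_
  rintro S ⟨-, hs⟩
  simp only [coe_powerset, coe_range, Set.mem_preimage, Set.mem_powerset_iff]
  intro e he
  have : e ≤ ∑ e ∈ S, e := Finset.single_le_sum (f := fun e => e) (by simp) he
  simp; omega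

lemma modEq_res_iff {M s : ℕ} (hM : 2 ^ (s - 1) ≤ M) (e : ℕ) :
    (∃ i, e ≡ res M s i [MOD M]) ↔ ∃ j < s, M ∣ e + 2 ^ j := by
  have key : ∀ j < s, (e ≡ M - 2 ^ j [MOD M] ↔ M ∣ e + 2 ^ j) := by
    intro j hj
    have h1 : 2 ^ j ≤ M := le_trans (Nat.pow_le_pow_right (by norm_num) (by omega)) hM
    constructor
    · intro h
      have h2 := h.add_right (2 ^ j)
      rw [Nat.sub_add_cancel h1] at h2
      exact (Nat.modEq_zero_iff_dvd).1 (h2.trans (Nat.modEq_zero_iff_dvd.2 dvd_rfl))
    · intro h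
      have h2 : e + 2 ^ j ≡ (M - 2 ^ j) + 2 ^ j [MOD M] := by
        rw [Nat.sub_add_cancel h1]
        exact (Nat.modEq_zero_iff_dvd.2 h).trans (Nat.modEq_zero_iff_dvd.2 dvd_rfl).symm
      exact Nat.ModEq.add_right_cancel' _ h2
  constructor
  · rintro ⟨i, hi⟩
    exact ⟨i, i.2, (key i i.2).1 hi⟩
  · rintro ⟨j, hj, h⟩
    exact ⟨⟨j, hj⟩, (key j hj).2 h⟩

theorem cntA_eq {M s : ℕ} (hM : 2 ^ (s - 1) ≤ M) (n : ℕ) :
    cntA M (res M s) n = (setA M s n).ncard := by
  unfold cntA
  symm
  refine Set.ncard_congr (fun S hS => (⟨S.val, fun {i} hi => (hS.1 i hi).1, ?_⟩ : n.Partition))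
    ?_ ?_ ?_
  · have := hS.2
    rw [← this, Finset.sum_eq_multiset_sum, Multiset.map_id']
  · intro S hS
    refine ⟨S.nodup, fun e he => (modEq_res_iff hM e).2 (hS.1 e he).2⟩
  · intro S T hS hT h
    have := congrArg Nat.Partition.parts h
    exact Finset.val_injective this
  · rintro p ⟨hn, hp⟩
    refine ⟨⟨p.parts, hn⟩, ⟨fun e he => ⟨p.parts_pos he, (modEq_res_iff hM e).1 (hp e he)⟩, ?_⟩,
      rfl⟩
    have := p.parts_sum
    simpa [Finset.sum] using this

lemma mem_Dset_iff {M s : ℕ} (hM : 2 ^ (s - 1) ≤ M) (e : ℕ) :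
    e ∈ Dset M s ↔ 0 < e ∧ e ∉ forb M s := by
  unfold Dset forb
  simp only [Set.mem_ofPred_eq, cntA_eq hM, Set.ncard_eq_zero (setA_finite M s e), not_and]
  constructor
  · rintro ⟨h1, h2⟩
    exact ⟨h1, fun _ => h2.ne_empty⟩
  · rintro ⟨h1, h2⟩
    exact ⟨h1, Set.nonempty_iff_ne_empty.2 (h2 h1)⟩

lemma adm_id {P : Set ℕ} (hP : ∀ a ∈ P, 0 < a) : Adm P id :=
  ⟨hP, fun n => (Set.finite_Iic n).subset (fun _ ha => ha.2)⟩

lemma adm_Dset (M s : ℕ) : Adm (Dset M s) id := adm_id (fun _ h => h.1)

theorem cntB_eq' (M : ℕ) (b : ℕ → ℕ) (C : Set ℕ) (n : ℕ) :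
    cntB M b C n = (wch {e | 0 < e ∧ e ∉ C} (gap M b) id Set.univ n).ncard := by
  unfold cntB
  refine Set.ncard_congr (fun p _ => p.parts.sort (· ≥ ·)) ?_ ?_ ?_
  · rintro p ⟨h1, h2⟩
    refine ⟨fun e he => ?_, h2, by simp, ?_⟩
    · rw [Multiset.mem_sort] at he
      exact ⟨p.parts_pos he, h1 e he⟩
    · have := p.parts_sum
      rw [← Multiset.sort_eq p.parts (· ≥ ·), Multiset.sum_coe] at this
      rw [List.map_id]; exact this
  · intro p q _ _ h
    apply Nat.Partition.ext
    rw [← Multiset.sort_eq p.parts (· ≥ ·), ← Multiset.sort_eq q.parts (· ≥ ·)]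
    exact congrArg _ h
  · rintro l ⟨hP, hc, -, hs⟩
    have hsorted : l.Pairwise (· ≥ ·) := by
      rw [← List.isChain_iff_pairwise]
      refine hc.imp ?_
      intro e f hef
      unfold gap at hef
      omega
    have hsort : (l : Multiset ℕ).sort (· ≥ ·) = l := by
      rw [Multiset.coe_sort]
      exact List.mergeSort_eq_self _ hsorted
    refine ⟨⟨(l : Multiset ℕ), fun {i} hi => (hP i (by simpa using hi)).1, by simpa using hs⟩,
      ⟨fun e he => (hP e (by simpa using he)).2, ?_⟩, hsort⟩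
    show List.IsChain _ ((l : Multiset ℕ).sort (· ≥ ·))
    rw [hsort]; exact hc

/-- the `B` side as chains of elements of `Dset` -/
def setB (M s : ℕ) (b : ℕ → ℕ) (n : ℕ) : Set (List ℕ) :=
  wch (Dset M s) (gap M b) id Set.univ n

theorem cntB_eq {M s : ℕ} (hM : 2 ^ (s - 1) ≤ M) (b : ℕ → ℕ) (n : ℕ) :
    cntB M b (forb M s) n = (setB M s b n).ncard := by
  rw [cntB_eq']
  unfold setB
  congr 2
  ext e
  exact (mem_Dset_iff hM e).symm

/-- the identity in terms of finite sets and chains -/
theorem ident_iff {M s : ℕ} (hM : 2 ^ (s - 1) ≤ M) (b : ℕ → ℕ) :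
    Ident M s b ↔ ∀ n, (setA M s n).ncard = (setB M s b n).ncard := by
  unfold Ident
  constructor
  · intro h n
    rcases Nat.eq_zero_or_pos n with rfl | hn
    · have h1 : setA M s 0 = {∅} := by
        ext S
        simp only [setA, Set.mem_ofPred_eq, Set.mem_singleton_iff]
        constructor
        · rintro ⟨h1, h2⟩
          rw [Finset.eq_empty_iff_forall_notMem]
          intro e he
          have := (h1 e he).1
          have h3 := (Finset.sum_eq_zero_iff.1 h2) e he
          omega
        · rintro rfl; simp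
      rw [h1, setB, wch_zero (adm_Dset M s)]; simp
    · rw [← cntA_eq hM, ← cntB_eq hM b]; exact h n hn
  · intro h n _
    rw [cntA_eq hM, cntB_eq hM b]; exact h n

/-- number of chains with all parts at most `N` -/
noncomputable def cntLe (P : Set ℕ) (M : ℕ) (b : ℕ → ℕ) (N n : ℕ) : ℕ :=
  (wch P (gap M b) id (Set.Iic N) n).ncard

lemma cntLe_zero {P : Set ℕ} (hP : ∀ a ∈ P, 0 < a) (M : ℕ) (b : ℕ → ℕ) (n : ℕ) :
    cntLe P M b 0 n = if n = 0 then 1 else 0 := by
  unfold cntLe
  split_ifs with h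
  · subst h; rw [wch_zero (adm_id hP)]; simp
  · rw [wch_empty]
    · simp
    · intro a ha; have := hP a ha; simp; omega
    · omega

open Classical in
lemma cntLe_succ {P : Set ℕ} (hP : ∀ a ∈ P, 0 < a) (M : ℕ) (b : ℕ → ℕ) (N n : ℕ) :
    cntLe P M b (N + 1) n = cntLe P M b N n +
      if N + 1 ∈ P ∧ N + 1 ≤ n then cntLe P M b (N + 1 - b (idx M (N + 1))) (n - (N + 1))
      else 0 := by
  unfold cntLe
  by_cases h : N + 1 ∈ P
  · have e : Set.Iic (N + 1) = insert (N + 1) (Set.Iic N) := by
      ext x; simp; omega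
    rw [e, wch_insert (adm_id hP) _ h (by simp)]
    simp only [id, h, true_and]
    split_ifs
    · congr 2
      apply wch_congr
      intro a ha _
      have := hP a ha
      simp [gap]; omega
    · rfl
  · simp only [h, false_and, if_false, add_zero]
    congr 1
    apply wch_congr
    intro a ha _
    have : a ≠ N + 1 := by rintro rfl; exact h ha
    simp; omega

lemma setB_eq_cntLe (M s : ℕ) (b : ℕ → ℕ) {N n : ℕ} (h : n ≤ N) :
    (setB M s b n).ncard = cntLe (Dset M s) M b N n := by
  unfold setB cntLe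
  congr 1
  apply wch_congr
  intro a _ ha
  simp only [id] at ha
  simp; omega

end Pool.Agent.P.MP_e9218d_nt
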