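import Pool.Agent.P.MP_e9218d_nt.Basic

namespace Pool.Agent.P.MP_e9218d_nt

/-! ### the coloured (formal) system: a part is a pair (level, colour) -/

/-- coloured parts: colour `r ∈ [1, 2^s)`, level at least `omega r` -/
def colP (s : ℕ) : Set (ℕ × ℕ) := {p | 1 ≤ p.2 ∧ p.2 < 2 ^ s ∧ omega p.2 ≤ p.1}

/-- the standard gap relation between coloured parts -/
def colR (p q : ℕ × ℕ) : Prop :=
  q.1 + omega p.2 < p.1 ∨ (q.1 + omega p.2 = p.1 ∧ lowv p.2 ≤ q.2)

/-- total weight of the bits of a colour -/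
def dsum (d : ℕ → ℕ) (r : ℕ) : ℕ := (r.bitIndices.map d).sum

/-- weight of a coloured part when primary colour `c` has defect `d c` -/
def colW (M : ℕ) (d : ℕ → ℕ) (p : ℕ × ℕ) : ℕ := p.1 * M - dsum d p.2

/-- sets of primary coloured parts (level `≥ 1`, primary colour `c < s`) of total weight `n` -/
def setAc (M s : ℕ) (d : ℕ → ℕ) (n : ℕ) : Set (Finset (ℕ × ℕ)) :=
  {S | (∀ p ∈ S, 1 ≤ p.1 ∧ p.2 < s) ∧ ∑ p ∈ S, (p.1 * M - d p.2) = n}

/-- weight of a coloured part for the defects `2^c` -/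
def stdW (M : ℕ) (p : ℕ × ℕ) : ℕ := p.1 * M - p.2

end Pool.Agent.P.MP_e9218d_nt
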