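import Mathlib

namespace Pool.Agent.P.MP_e9218d_nt

/-- the index `j ∈ {1,…,M}` with `e ≡ j (mod M)` -/
def idx (M e : ℕ) : ℕ := if e % M = 0 then M else e % M

/-- number of partitions of `n` into distinct parts, each congruent to some `a i` modulo `M` -/
noncomputable def cntA (M : ℕ) {s : ℕ} (a : Fin s → ℕ) (n : ℕ) : ℕ :=
  Set.ncard {p : n.Partition | p.parts.Nodup ∧ ∀ e ∈ p.parts, ∃ i, e ≡ a i [MOD M]}

/-- number of partitions of `n` with no part in `C` and consecutive gaps at least `b (idx M e)` -/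
noncomputable def cntB (M : ℕ) (b : ℕ → ℕ) (C : Set ℕ) (n : ℕ) : ℕ :=
  Set.ncard {p : n.Partition | (∀ e ∈ p.parts, e ∉ C) ∧
    (p.parts.sort (· ≥ ·)).IsChain (fun e f => f + b (idx M e) ≤ e)}

/-- the residues `M - 2^j`, `j < s` -/
def res (M s : ℕ) : Fin s → ℕ := fun j => M - 2 ^ (j : ℕ)

/-- the set of positive `m` with `A(m) = 0` -/
def forb (M s : ℕ) : Set ℕ := {m | 1 ≤ m ∧ cntA M (res M s) m = 0}

/-- number of binary ones -/
def omega (m : ℕ) : ℕ := (Nat.digits 2 m).count 1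

/-- smallest power of two in the binary expansion -/
def lowv (m : ℕ) : ℕ := 2 ^ padicValNat 2 m

/-- the vector of Andrews -/
def andrews (M j : ℕ) : ℕ :=
  M * omega (idx M (M - j)) + lowv (idx M (M - j)) - idx M (M - j)

/-- the identity `A = B_0` -/
def Ident (M s : ℕ) (b : ℕ → ℕ) : Prop :=
  ∀ n, 1 ≤ n → cntA M (res M s) n = cntB M b (forb M s) n

/-- the list `(b 1, …, b M)` -/
def vec (M : ℕ) (b : ℕ → ℕ) : List ℕ := (List.range M).map (fun i => b (i + 1))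

/-- the sporadic solutions `(M, s, [b 1, …, b M])` -/
def sporadic : List (ℕ × ℕ × List ℕ) :=
  [(2, 1, [6, 7]), (2, 2, [1, 1]), (3, 2, [3, 2, 5]), (4, 3, [3, 2, 3, 2]), (4, 3, [4, 1, 4, 1]),
   (6, 3, [7, 6, 7, 6, 6, 7]), (6, 3, [7, 6, 7, 6, 5, 8])]

/-- the answer -/
def Answer (M s : ℕ) (b : ℕ → ℕ) : Prop :=
  (M + 1 = 2 ^ s ∧ ∀ j, 1 ≤ j → j ≤ M → b j = andrews M j) ∨ (M, s, vec M b) ∈ sporadic

end Pool.Agent.P.MP_e9218d_nt
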