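import Pool.Agent.P.MP_e9218d_nt.Nec4B

namespace Pool.Agent.P.MP_e9218d_nt

namespace Big
variable {M s K : ℕ} (H : Big M s K)
include H

lemma D_low {e : ℕ} (he : e ∈ Dset M s) :
    (∃ x, Pw x ∧ x ≤ K ∧ e + x = M) ∨ 4 * M ≤ 2 * e + 3 * K := by
  have hM := H.hM
  rcases Nat.lt_or_ge e (3 * M) with h | h
  · rcases H.D_cases he h with h1 | ⟨r, h1, h2, h3, h4⟩ | ⟨r, h1, h2, h3, h4⟩ | h1 | h1
    · exact Or.inl h1
    all_goals omega
  · omega

lemma D_ge {e : ℕ} (he : e ∈ Dset M s) : M ≤ e + K := by
  have hM := H.hM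
  rcases H.D_low he with ⟨x, -, h1, h2⟩ | h <;> omega

lemma not3_low {x c : ℕ} (hx : Pw x) (hc : Pw c) (hxK : 4 * x ≤ K) (hcx : 4 * c ≤ x) {r : ℕ}
    (hr : r + c = K + 2 * x) : ¬ omega r ≤ 3 := by
  intro ho
  have hK := H.pw
  have := hc.pos
  rcases om3 (by omega) ho with h | ⟨u, v, hu, hv, huv, rfl⟩ | ⟨u, v, w, hu, hv, hw, huv, hvw, rfl⟩
  · have := hK.dbl h
    omega
  · have := hu.dbl hv huv
    have := hK.dbl hv
    have := hv.dbl hK
    have := hu.dbl hx.two_mul
    omega
  · have := hu.dbl hv huv
    have := hv.dbl hw hvw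
    have := hK.dbl hw
    have := hw.dbl hK
    have := hv.dbl hx.two_mul
    omega

lemma not3_high {x c : ℕ} (hx : Pw x) (hcK : 8 * c ≤ K) (hcx : 2 * x < c) {r : ℕ}
    (hr : r + c = K + 2 * x) : ¬ omega r ≤ 3 := by
  intro ho
  have hK := H.pw
  have := hx.pos
  rcases om3 (by omega) ho with h | ⟨u, v, hu, hv, huv, rfl⟩ | ⟨u, v, w, hu, hv, hw, huv, hvw, rfl⟩
  · have := h.dbl hK
    omega
  · have := hu.dbl hv huv
    have := hv.dbl hK
    omega
  · have := hu.dbl hv huv
    have := hv.dbl hw hvw
    have := hw.dbl hK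
    omega

variable {b : ℕ → ℕ} (hI : ∀ n, (setA M s n).ncard = (setB M s b n).ncard)
include hI

lemma lev1_last {e f x : ℕ} (hx : Pw x) (hxK : x ≤ K) (he : e + x = M) (hf : f ∈ Dset M s) :
    ¬ gap M b e f := by
  have hM := H.hM
  have h1 := H.D_ge hf
  rw [gap_iff (r := x) 1 (by omega) le_rfl (by omega)]
  rcases Nat.lt_or_ge x K with h | h
  · have := H.F1 hI hx h
    omega
  · obtain rfl : x = K := by omega
    have := H.F3 hI
    omega

/-- the chains of weight `4M - K - 2x` when the class `x` needs a gap above `K` -/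
lemma B_enum {x n K2 K4 : ℕ} (hx : Pw x) (h2 : Pw K2) (h4 : Pw K4) (e2 : K = 2 * K2)
    (e4 : K2 = 2 * K4) (hK4 : 2 ≤ K4) (hxK : 4 * x ≤ K) (hxM : 2 * K + x ≤ M)
    (hb : K < bet M b x) (hn : n + K + 2 * x = 4 * M) {l : List ℕ} (hl : l ∈ setB M s b n) :
    l = [n] ∨ l = [3 * M - K, M - 2 * x] ∨ l = [3 * M - 2 * x, M - K] ∨
      l = [3 * M - (K2 + 2 * x), M - K2] := by
  obtain ⟨hP, hc, -, hs⟩ := hl
  have hK := H.pw
  have hx1 := hx.pos
  rw [List.map_id] at hs
  match l, hP, hc, hs with
  | [], _, _, hs => simp at hs; omega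
  | [e], _, _, hs => left; simp at hs; rw [hs]
  | e :: f :: g :: rest, hP, hc, hs =>
    exfalso
    have he := hP e (by simp)
    have hf := hP f (by simp)
    have hg := hP g (by simp)
    rw [List.isChain_cons_cons, List.isChain_cons_cons] at hc
    obtain ⟨hef, hfg, -⟩ := hc
    simp only [List.sum_cons] at hs
    have hg1 := H.D_ge hg
    have hfe : f ≤ e := by unfold gap at hef; omega
    rcases H.D_low hf with ⟨u, hu, h5, h6⟩ | h5
    · exact H.lev1_last hI hu h5 h6 hg hfg
    · rcases H.D_cases he (by omega) with ⟨u, hu, h6, h7⟩ | ⟨r, h6, h7, h8, h9⟩ |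
        ⟨r, h6, h7, h8, h9⟩ | h6 | h6
      · omega
      · rw [gap_iff (r := r) 2 (by omega) (by omega) h9] at hef
        rcases om2 h6 h7 with hr | ⟨p, q, hp, hq, hpq, rfl⟩
        · have := hr.dbl hK
          have := hK.dbl hr
          obtain rfl : r = K := by omega
          have := H.F3 hI
          omega
        · have := hK.dbl hq
          have := H.F2 hI (by omega) hp hq hpq (by omega)
          omega
      all_goals omega
  | [e, f], hP, hc, hs =>
    right
    have he := hP e (by simp)
    have hf := hP f (by simp)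
    rw [List.isChain_cons_cons] at hc
    have hef := hc.1
    simp only [List.sum_cons, List.sum_nil, add_zero] at hs
    have hf1 := H.D_ge hf
    have hfe : f ≤ e := by unfold gap at hef; omega
    rcases H.D_cases hf (by omega) with ⟨c, hc, h6, h7⟩ | ⟨r2, h6, h7, h8, h9⟩ |
      ⟨r, h6, h7, h8, h9⟩ | h6 | h6
    · have hc1 := hc.pos
      by_cases c1 : c = K
      · right; left
        rw [show e = 3 * M - 2 * x by omega, show f = M - K by omega]
      by_cases c2 : c = 2 * x
      · left
        rw [show e = 3 * M - K by omega, show f = M - 2 * x by omega]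
      by_cases c3 : c = K2
      · right; right
        rw [show e = 3 * M - (K2 + 2 * x) by omega, show f = M - K2 by omega]
      exfalso
      have c4 : c ≤ K4 := by
        have := hc.dbl hK
        have := hc.dbl h2
        omega
      obtain ⟨r, hr⟩ : ∃ r, r + c = K + 2 * x := ⟨K + 2 * x - c, by omega⟩
      rw [gap_iff (r := r) 3 (by omega) (by omega) (by omega)] at hef
      have ho : omega r ≤ 3 := by
        rcases H.D_cases he (by omega) with ⟨u, hu, h8, h9⟩ | ⟨r', h8, h9, h10, h11⟩ |
          ⟨r', h8, h9, h10, h11⟩ | h8 | h8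
        · omega
        · omega
        · rwa [show r = r' by omega]
        · omega
        · omega
      rcases lt_trichotomy c x with c5 | c5 | c5
      · have c6 := hc.dbl hx c5
        rcases Nat.eq_or_lt_of_le c6 with c7 | c7
        · have := H.F4 hI hc hx hx.two_mul c5 (by omega) (by omega) hx.two_mul (by omega) ho
            (by omega)
          omega
        · have := hc.two_mul.dbl hx c7
          exact H.not3_low hx hc hxK (by omega) hr ho
      · subst c5
        have := H.G hI hx (by omega) hxM
        rw [show K + c = r by omega] at this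
        omega
      · have c6 : 2 * x < c := by
          have := hx.dbl hc c5
          omega
        rcases Nat.eq_or_lt_of_le c4 with c7 | c7
        · subst c7
          have := H.F4 hI hx.two_mul hc h2 c6 (by omega) (by omega) hK le_rfl ho (by omega)
          omega
        · have := hc.dbl h4 c7
          exact H.not3_high hx (by omega) c6 hr ho
    · exfalso
      rcases H.D_cases he (by omega) with ⟨u, hu, h10, h11⟩ | ⟨r1, h10, h11, h12, h13⟩ |
        ⟨r1, h10, h11, h12, h13⟩ | h10 | h10
      · omega
      · rw [gap_iff (r := r1) 2 (by omega) (by omega) h13] at hef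
        rcases om2 h10 h11 with hr | ⟨p, q, hp, hq, hpq, rfl⟩
        · have := H.F1 hI hr (by omega)
          rcases om2 h6 h7 with hr2 | ⟨p, q, hp, hq, hpq, rfl⟩
          · have := hK.dbl hr2
            omega
          · have := hp.dbl hq hpq
            have := hK.dbl hq
            have := hq.dbl hK
            have := hp.pos
            have := hp.dbl hx.two_mul
            have := hr.dbl hx.two_mul
            obtain rfl : r1 = x := by omega
            omega
        · have := H.F2 hI (by omega) hp hq hpq (by omega)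
          omega
      · rw [gap_iff (r := r1) 3 (by omega) (by omega) h13] at hef
        rcases om3 h10 h12 with hr | ⟨p, q, hp, hq, hpq, rfl⟩ |
          ⟨u, v, w, hu, hv, hw, huv, hvw, rfl⟩
        · have := hK.dbl hr
          omega
        · have := hp.dbl hq hpq
          have := hK.dbl hq
          omega
        · have := hu.dbl hv huv
          have := hv.dbl hw hvw
          have := hK.dbl hw
          have := hw.dbl hK
          have := hv.dbl h2
          obtain rfl : w = K := by omega
          obtain rfl : v = K2 := by omega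
          rcases Nat.lt_or_ge 1 u with c1 | c1
          · have := H.F4 hI pw_one hu hv c1 huv hvw pw_one (by omega) h12 (by omega)
            omega
          · obtain rfl : u = 1 := by have := hu.pos; omega
            have := H.F4 hI pw_one pw_two hv (by omega) (by omega) hvw pw_two (by omega) h12
              (by omega)
            omega
      · rw [gap_iff (r := 2 * K) 3 (by omega) (by omega) h10] at hef
        have := H.F5 hI pw_one (by omega) (by omega)
        omega
      · omega
    all_goals omega

/-- the class `x` may be followed by a part of the same level -/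
lemma bad {x K2 K4 : ℕ} (hx : Pw x) (h2 : Pw K2) (h4 : Pw K4) (e2 : K = 2 * K2)
    (e4 : K2 = 2 * K4) (hK4 : 2 ≤ K4) (hxK : 4 * x ≤ K) (hxM : 2 * K + x ≤ M) :
    bet M b x ≤ K := by
  by_contra hb
  have hK := H.pw
  have hx1 := hx.pos
  obtain ⟨n, hn⟩ : ∃ n, n + K + 2 * x = 4 * M := ⟨4 * M - (K + 2 * x), by omega⟩
  have hB := fun l => H.B_enum hI hx h2 h4 e2 e4 hK4 hxK hxM (by omega) hn (l := l)
  have o1 := hK.om
  have o2 := hx.om
  have o3 := hx.two_mul.om
  have o4 := h2.om
  have o5 := om_two hx hK (by omega)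
  have o6 := om_two hx.two_mul hK (by omega)
  have l1 := hK.low_add hx1 (by omega)
  have l2 := hx.low
  have a1 := H.single_std (L := 4) (r := K + 2 * x) (n := n) (by omega) (by omega) (by omega)
    (by omega)
  have a2 := H.pair_std (L := 3) (r := K) (L' := 1) (r' := 2 * x) (n := n) (by omega) (by omega)
    (by omega) (by omega) (by omega) (by omega) (by omega) (by omega)
  have a3 := H.pair_std (L := 3) (r := 2 * x) (L' := 1) (r' := K) (n := n) (by omega) (by omega)
    (by omega) (by omega) (by omega) (by omega) (by omega) (by omega)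
  have a4 := H.pair_std (L := 3) (r := K + x) (L' := 1) (r' := x) (n := n) (by omega) (by omega)
    (by omega) (by omega) (by omega) (by omega) (by omega) (by omega)
  have hAB := hI n
  rw [H.card_eq] at hAB
  rcases Nat.lt_or_ge (2 * x) K2 with c | c
  · have o7 := om_two hx.two_mul h2 c
    have l3 := h2.low_add (r := 2 * x) (by omega) c
    have l4 := hx.two_mul.low
    have a5 := H.pair_std (L := 3) (r := K2 + 2 * x) (L' := 1) (r' := K2) (n := n) (by omega)
      (by omega) (by omega) (by omega) (by omega) (by omega) (by omega) (by omega)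
    have h5 : ({[(4, K + 2 * x)], [(3, K), (1, 2 * x)], [(3, 2 * x), (1, K)],
        [(3, K + x), (1, x)], [(3, K2 + 2 * x), (1, K2)]} : Set (List (ℕ × ℕ))).ncard = 5 := by
      rw [Set.ncard_insert_of_notMem (by simp), Set.ncard_insert_of_notMem (by simp; omega),
        Set.ncard_insert_of_notMem (by simp; omega), Set.ncard_insert_of_notMem (by simp; omega),
        Set.ncard_singleton]
    have h6 : 5 ≤ (std M s n).ncard := by
      rw [← h5]
      refine Set.ncard_le_ncard ?_ (H.std_finite n)
      rintro l (rfl | rfl | rfl | rfl | rfl) <;> assumption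
    have h7 : (setB M s b n).ncard ≤ 4 := by
      refine (Set.ncard_le_ncard (t := {[n], [3 * M - K, M - 2 * x], [3 * M - 2 * x, M - K],
        [3 * M - (K2 + 2 * x), M - K2]}) (fun l hl => hB l hl) (Set.toFinite _)).trans ?_
      refine (Set.ncard_insert_le _ _).trans (Nat.succ_le_succ ?_)
      refine (Set.ncard_insert_le _ _).trans (Nat.succ_le_succ ?_)
      refine (Set.ncard_insert_le _ _).trans (Nat.succ_le_succ ?_)
      simp
    omega
  · have h5 : ({[(4, K + 2 * x)], [(3, K), (1, 2 * x)], [(3, 2 * x), (1, K)],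
        [(3, K + x), (1, x)]} : Set (List (ℕ × ℕ))).ncard = 4 := by
      rw [Set.ncard_insert_of_notMem (by simp), Set.ncard_insert_of_notMem (by simp; omega),
        Set.ncard_insert_of_notMem (by simp; omega), Set.ncard_singleton]
    have h6 : 4 ≤ (std M s n).ncard := by
      rw [← h5]
      refine Set.ncard_le_ncard ?_ (H.std_finite n)
      rintro l (rfl | rfl | rfl | rfl) <;> assumption
    have h7 : (setB M s b n).ncard ≤ 3 := by
      refine (Set.ncard_le_ncard (t := {[n], [3 * M - K, M - 2 * x], [3 * M - 2 * x, M - K]})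
        (fun l hl => ?_) (Set.toFinite _)).trans ?_
      · rcases hB l hl with h | h | h | h
        · exact Or.inl h
        · exact Or.inr (Or.inl h)
        · exact Or.inr (Or.inr h)
        · refine Or.inr (Or.inl ?_)
          rw [h, show K2 + 2 * x = K by omega, show K2 = 2 * x by omega]
      refine (Set.ncard_insert_le _ _).trans (Nat.succ_le_succ ?_)
      refine (Set.ncard_insert_le _ _).trans (Nat.succ_le_succ ?_)
      simp
    omega

/-- two such classes force a wrapped partition -/
lemma two_bad {x y : ℕ} (hx : Pw x) (hy : Pw y) (hxy : x < y) (hyK : y ≤ K)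
    (bx : bet M b x ≤ K) (by' : bet M b y ≤ K) : Pw (M + (y + x) - 2 * K) := by
  by_contra hw
  have hM := H.hM
  have hx1 := hx.pos
  have hd := hx.dbl hy hxy
  obtain ⟨n, hn⟩ : ∃ n, n + (y + x) = 3 * M := ⟨3 * M - (y + x), by omega⟩
  have hA := H.A3two hx hy hxy hyK hn hw
  have o1 := hx.om
  have o2 := hy.om
  have o3 := om_two hx hy hxy
  have a1 := single_B b (H.mem_D (L := 3) (r := y + x) (e := n) (by omega) (by omega) (by omega) hn)
  have a2 := pair_B (b := b) (n := n)
    (H.mem_D (L := 2) (r := x) (e := 2 * M - x) (by omega) (by omega) (by omega) (by omega))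
    (H.D1 (e := M - y) hy hyK (by omega))
    ((gap_iff (r := x) 2 (by omega) (by omega) (by omega) _).2 (by omega)) (by omega)
  have a3 := pair_B (b := b) (n := n)
    (H.mem_D (L := 2) (r := y) (e := 2 * M - y) (by omega) (by omega) (by omega) (by omega))
    (H.D1 (e := M - x) hx (by omega) (by omega))
    ((gap_iff (r := y) 2 (by omega) (by omega) (by omega) _).2 (by omega)) (by omega)
  have h5 : ({[n], [2 * M - x, M - y], [2 * M - y, M - x]} : Set (List ℕ)).ncard = 3 := by
    rw [Set.ncard_insert_of_notMem (by simp), Set.ncard_insert_of_notMem (by simp; omega),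
      Set.ncard_singleton]
  have h6 : 3 ≤ (setB M s b n).ncard := by
    rw [← h5]
    refine Set.ncard_le_ncard ?_ (setB_finite M s b n)
    rintro l (rfl | rfl | rfl) <;> assumption
  have := hI n
  omega

end Big

/-- no solution for `s ≥ 5` and `M ≥ 2^s + 2` -/
theorem nec4 {M s : ℕ} {b : ℕ → ℕ} (hs : 5 ≤ s) (hM : 2 ^ s + 2 ≤ M) : ¬ Ident M s b := by
  intro hid
  obtain ⟨t, rfl⟩ : ∃ t, s = t + 5 := ⟨s - 5, by omega⟩
  have ht : 1 ≤ 2 ^ t := Nat.one_le_two_pow
  have e5 : 2 ^ (t + 5) = 32 * 2 ^ t := by ring
  have e4 : 2 ^ (t + 4) = 16 * 2 ^ t := by ring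
  have e3 : 2 ^ (t + 3) = 8 * 2 ^ t := by ring
  have e2 : 2 ^ (t + 2) = 4 * 2 ^ t := by ring
  have H : Big M (t + 5) (2 ^ (t + 4)) := ⟨by omega, rfl, by omega⟩
  have hI := (ident_iff H.lt.le b).1 hid
  have hbad := fun x (hx : Pw x) => H.bad hI (x := x) (K2 := 2 ^ (t + 3)) (K4 := 2 ^ (t + 2)) hx
    ⟨_, rfl⟩ ⟨_, rfl⟩ (by omega) (by omega) (by omega)
  have b1 := hbad 1 pw_one (by omega) (by omega)
  have b2 := hbad 2 pw_two (by omega) (by omega)
  have w1 := H.two_bad hI pw_one pw_two (by omega) (by omega) b1 b2
  have c1 := pw_four.dbl w1 (by omega)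
  have b4 := hbad 4 pw_four (by omega) (by omega)
  have w2 := H.two_bad hI pw_one pw_four (by omega) (by omega) b1 b4
  have := w1.dbl w2 (by omega)
  omega

end Pool.Agent.P.MP_e9218d_nt
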