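import Pool.Agent.P.MP_e9218d_nt.Andrews

namespace Pool.Agent.P.MP_e9218d_nt

/-! ### powers of two and small binary weights -/

/-- `x` is a power of two -/
def Pw (x : ℕ) : Prop := ∃ c, x = 2 ^ c

lemma Pw.pos {x : ℕ} (h : Pw x) : 1 ≤ x := by
  obtain ⟨c, rfl⟩ := h; exact Nat.one_le_two_pow

lemma Pw.dbl {x y : ℕ} (hx : Pw x) (hy : Pw y) : x < y → 2 * x ≤ y := by
  obtain ⟨c, rfl⟩ := hx
  obtain ⟨d, rfl⟩ := hy
  intro h
  have := (Nat.pow_lt_pow_iff_right (by norm_num : 1 < 2)).1 h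
  rw [← pow_succ']
  exact Nat.pow_le_pow_right (by norm_num) this

lemma Pw.two_mul {x : ℕ} (h : Pw x) : Pw (2 * x) := by
  obtain ⟨c, rfl⟩ := h; exact ⟨c + 1, by rw [pow_succ']⟩

lemma pw_one : Pw 1 := ⟨0, rfl⟩
lemma pw_two : Pw 2 := ⟨1, rfl⟩
lemma pw_four : Pw 4 := ⟨2, rfl⟩

lemma Pw.om {x : ℕ} (h : Pw x) : omega x = 1 := by
  obtain ⟨c, rfl⟩ := h; exact omega_two_pow c

lemma Pw.low {x : ℕ} (h : Pw x) : lowv x = x := by
  obtain ⟨c, rfl⟩ := h; exact lowv_two_pow c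

lemma Pw.om_add {x r : ℕ} (h : Pw x) (hr : r < x) : omega (x + r) = omega r + 1 := by
  obtain ⟨c, rfl⟩ := h; exact omega_two_pow_add hr

lemma Pw.om_add_le {x : ℕ} (h : Pw x) (r : ℕ) : omega (r + x) ≤ omega r + 1 := by
  obtain ⟨c, rfl⟩ := h; exact omega_add_two_pow_le c r

lemma Pw.low_add {x r : ℕ} (h : Pw x) (h1 : 1 ≤ r) (hr : r < x) : lowv (x + r) = lowv r := by
  obtain ⟨c, rfl⟩ := h; exact lowv_two_pow_add h1 hr

lemma top_split {r : ℕ} (h : 1 ≤ r) :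
    ∃ x t, Pw x ∧ t < x ∧ r = x + t ∧ omega r = omega t + 1 := by
  have h1 := Nat.pow_log_le_self 2 (by omega : r ≠ 0)
  have h2 := Nat.lt_pow_succ_log_self (by norm_num : 1 < 2) r
  rw [pow_succ] at h2
  refine ⟨2 ^ Nat.log 2 r, r - 2 ^ Nat.log 2 r, ⟨_, rfl⟩, by omega, by omega, ?_⟩
  rw [← omega_two_pow_add (c := Nat.log 2 r) (by omega)]
  congr 1; omega

lemma eq_zero_of_om {t : ℕ} (h : omega t = 0) : t = 0 := by
  by_contra h0
  have := omega_pos (n := t) (by omega)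
  omega

lemma om1 {r : ℕ} (h : 1 ≤ r) (ho : omega r ≤ 1) : Pw r := by
  obtain ⟨x, t, hx, -, rfl, h3⟩ := top_split h
  rw [eq_zero_of_om (t := t) (by omega)]; exact hx

lemma om2 {r : ℕ} (h : 1 ≤ r) (ho : omega r ≤ 2) :
    Pw r ∨ ∃ x y, Pw x ∧ Pw y ∧ x < y ∧ r = y + x := by
  obtain ⟨x, t, hx, h1, rfl, h3⟩ := top_split h
  rcases Nat.eq_zero_or_pos t with rfl | ht
  · exact Or.inl hx
  · exact Or.inr ⟨t, x, om1 ht (by omega), hx, h1, rfl⟩

lemma om3 {r : ℕ} (h : 1 ≤ r) (ho : omega r ≤ 3) :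
    Pw r ∨ (∃ x y, Pw x ∧ Pw y ∧ x < y ∧ r = y + x) ∨
      ∃ x y z, Pw x ∧ Pw y ∧ Pw z ∧ x < y ∧ y < z ∧ r = z + (y + x) := by
  obtain ⟨x, t, hx, h1, rfl, h3⟩ := top_split h
  rcases Nat.eq_zero_or_pos t with rfl | ht
  · exact Or.inl hx
  · rcases om2 ht (by omega) with h4 | ⟨u, v, hu, hv, huv, rfl⟩
    · exact Or.inr (Or.inl ⟨t, x, h4, hx, h1, rfl⟩)
    · exact Or.inr (Or.inr ⟨u, v, x, hu, hv, hx, huv, by omega, rfl⟩)

lemma om_two {x y : ℕ} (hx : Pw x) (hy : Pw y) (h : x < y) : omega (y + x) = 2 := by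
  rw [hy.om_add h, hx.om]

lemma om_three {x y z : ℕ} (hx : Pw x) (hy : Pw y) (hz : Pw z) (h : x < y) (h' : y < z) :
    omega (z + (y + x)) = 3 := by
  have := hy.dbl hz h'
  rw [hz.om_add (by omega), om_two hx hy h]

lemma om_four {x y z w : ℕ} (hx : Pw x) (hy : Pw y) (hz : Pw z) (hw : Pw w) (h : x < y)
    (h' : y < z) (h'' : z < w) : omega (w + (z + (y + x))) = 4 := by
  have := hy.dbl hz h'
  have := hz.dbl hw h''
  rw [hw.om_add (by omega), om_three hx hy hz h h']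

/-! ### standard chains of small weight -/

/-- the standard chains of weight `n` -/
def std (M s n : ℕ) : Set (List (ℕ × ℕ)) := wch (colP s) colR (stdW M) Set.univ n

/-- the setting `K = 2^(s-1)`, `2K ≤ M` -/
structure Big (M s K : ℕ) : Prop where
  hs : 1 ≤ s
  hK : 2 ^ (s - 1) = K
  hM : 2 * K ≤ M

namespace Big
variable {M s K : ℕ} (H : Big M s K)
include H

lemma pw : Pw K := ⟨s - 1, H.hK.symm⟩

lemma lt : 2 ^ (s - 1) < M := by
  have := H.pw.pos; have := H.hK; have := H.hM; omega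

lemma two_pow : 2 ^ s = 2 * K := by
  obtain ⟨t, ht⟩ : ∃ t, s = t + 1 := ⟨s - 1, by have := H.hs; omega⟩
  have := H.hK
  rw [ht] at this ⊢
  rw [pow_succ', ← this]; simp

lemma mem_colP {L r : ℕ} : (L, r) ∈ colP s ↔ 1 ≤ r ∧ r < 2 * K ∧ omega r ≤ L := by
  simp only [colP, Set.mem_ofPred_eq, H.two_pow]

lemma card_eq (n : ℕ) : (setA M s n).ncard = (std M s n).ncard := andrews_formal H.lt H.hs n

lemma std_finite (n : ℕ) : (std M s n).Finite := wch_finite (adm_stdW H.lt) _ _ _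

lemma le1 {r : ℕ} (h1 : 1 ≤ r) (h2 : r < 2 * K) (ho : omega r ≤ 1) : Pw r ∧ r ≤ K := by
  have h := om1 h1 ho
  have := h.dbl H.pw.two_mul h2
  exact ⟨h, by omega⟩

lemma le2 {r : ℕ} (h1 : 1 ≤ r) (h2 : r < 2 * K) (ho : omega r ≤ 2) : 2 * r ≤ 3 * K := by
  rcases om2 h1 ho with h | ⟨x, y, hx, hy, hxy, rfl⟩
  · have := h.dbl H.pw.two_mul h2; omega
  · have := hy.dbl H.pw.two_mul (by omega)
    have := hx.dbl hy hxy
    omega

lemma weight {L r : ℕ} (h : (L, r) ∈ colP s) : stdW M (L, r) + r = L * M ∧ 1 ≤ L := by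
  obtain ⟨h1, h2, h3⟩ := H.mem_colP.1 h
  have hL : 1 ≤ L := le_trans (omega_pos h1) h3
  have : M ≤ L * M := Nat.le_mul_of_pos_left _ hL
  have := H.hM
  exact ⟨by simp only [stdW]; omega, hL⟩

/-- the standard chains of weight at most `4M - K` -/
lemma std_enum {n : ℕ} (hn : n + K ≤ 4 * M) {l : List (ℕ × ℕ)} (hl : l ∈ std M s n) :
    (n = 0 ∧ l = []) ∨
    (∃ L r, l = [(L, r)] ∧ 1 ≤ r ∧ r < 2 * K ∧ omega r ≤ L ∧ 1 ≤ L ∧ L ≤ 4 ∧ n + r = L * M) ∨
    (∃ x y, l = [(2, x), (1, y)] ∧ Pw x ∧ Pw y ∧ x ≤ y ∧ y ≤ K ∧ n + x + y = 3 * M) ∨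
    (∃ r y, l = [(3, r), (1, y)] ∧ 1 ≤ r ∧ r < 2 * K ∧ omega r ≤ 2 ∧ 2 * r ≤ 3 * K ∧ Pw y ∧
      y ≤ K ∧ n + r + y = 4 * M) := by
  obtain ⟨hP, hc, -, hs⟩ := hl
  have hM := H.hM
  have hK := H.pw.pos
  match l, hP, hc, hs with
  | [], _, _, hs => exact Or.inl ⟨by simpa using hs.symm, rfl⟩
  | [(L, r)], hP, _, hs =>
    right; left
    have h := hP (L, r) (by simp)
    obtain ⟨h1, h2, h3⟩ := H.mem_colP.1 h
    obtain ⟨h4, h5⟩ := H.weight h
    simp only [List.map_cons, List.map_nil, List.sum_cons, List.sum_nil, add_zero] at hs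
    refine ⟨L, r, rfl, h1, h2, h3, h5, ?_, by omega⟩
    by_contra hL
    have : 5 * M ≤ L * M := Nat.mul_le_mul_right _ (by omega)
    omega
  | (L, r) :: (L', r') :: rest, hP, hc, hs =>
    right; right
    have h := hP (L, r) (by simp)
    have h' := hP (L', r') (by simp)
    obtain ⟨h1, h2, h3⟩ := H.mem_colP.1 h
    obtain ⟨h4, h5⟩ := H.weight h
    obtain ⟨h1', h2', h3'⟩ := H.mem_colP.1 h'
    obtain ⟨h4', h5'⟩ := H.weight h'
    have ho := omega_pos h1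
    have ho' := omega_pos h1'
    rw [List.isChain_cons_cons] at hc
    obtain ⟨hR, hc⟩ := hc
    simp only [colR] at hR
    simp only [List.map_cons, List.sum_cons] at hs
    have hL' : L' = 1 := by
      by_contra hne
      rcases Nat.lt_or_ge L' 3 with h6 | h6
      · obtain rfl : L' = 2 := by omega
        have := H.le2 h1' h2' h3'
        rcases Nat.lt_or_ge L 4 with h7 | h7
        · obtain rfl : L = 3 := by omega
          have := (H.le1 h1 h2 (by omega)).2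
          omega
        · have : 4 * M ≤ L * M := Nat.mul_le_mul_right _ h7
          omega
      · have : 3 * M ≤ L' * M := Nat.mul_le_mul_right _ h6
        have : 4 * M ≤ L * M := Nat.mul_le_mul_right _ (by omega)
        omega
    subst hL'
    obtain ⟨hy, hyK⟩ := H.le1 h1' h2' h3'
    have hrest : rest = [] := by
      cases rest with
      | nil => rfl
      | cons t rest =>
        exfalso
        rw [List.isChain_cons_cons] at hc
        have h8 := hc.1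
        simp only [colR] at h8
        have := (H.weight (L := t.1) (r := t.2) (hP t (by simp))).2
        omega
    subst hrest
    simp only [List.map_nil, List.sum_nil, add_zero] at hs
    rcases Nat.lt_or_ge L 3 with h6 | h6
    · obtain rfl : L = 2 := by omega
      obtain ⟨hx, -⟩ := H.le1 h1 h2 (by omega)
      have := hx.low
      exact Or.inl ⟨r, r', rfl, hx, hy, by omega, hyK, by omega⟩
    · rcases Nat.lt_or_ge L 4 with h7 | h7
      · obtain rfl : L = 3 := by omega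
        exact Or.inr ⟨r, r', rfl, h1, h2, by omega, H.le2 h1 h2 (by omega), hy, hyK, by omega⟩
      · have : 4 * M ≤ L * M := Nat.mul_le_mul_right _ h7
        omega

lemma mem_D_of_std {n : ℕ} (hn : 0 < n) {l : List (ℕ × ℕ)} (hl : l ∈ std M s n) :
    n ∈ Dset M s := by
  refine ⟨hn, Set.nonempty_of_ncard_ne_zero ?_⟩
  rw [H.card_eq]
  exact Set.ncard_ne_zero_of_mem hl (H.std_finite n)

lemma std_of_mem_D {n : ℕ} (hn : n ∈ Dset M s) : ∃ l, l ∈ std M s n := by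
  apply Set.nonempty_of_ncard_ne_zero
  rw [← H.card_eq]
  exact (Set.ncard_pos (setA_finite M s n)).2 hn.2 |>.ne'

lemma single_std {L r n : ℕ} (h1 : 1 ≤ r) (h2 : r < 2 * K) (h3 : omega r ≤ L)
    (hn : n + r = L * M) : [(L, r)] ∈ std M s n := by
  have h := H.mem_colP.2 ⟨h1, h2, h3⟩
  have := (H.weight h).1
  exact ⟨by simpa using h, by simp, by simp, by simp; omega⟩

lemma pair_std {L r L' r' n : ℕ} (h1 : 1 ≤ r) (h2 : r < 2 * K) (h3 : omega r ≤ L)
    (h1' : 1 ≤ r') (h2' : r' < 2 * K) (h3' : omega r' ≤ L')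
    (hR : L' + omega r < L ∨ (L' + omega r = L ∧ lowv r ≤ r'))
    (hn : n + r + r' = L * M + L' * M) : [(L, r), (L', r')] ∈ std M s n := by
  have h := H.mem_colP.2 ⟨h1, h2, h3⟩
  have h' := H.mem_colP.2 ⟨h1', h2', h3'⟩
  have := (H.weight h).1
  have := (H.weight h').1
  refine ⟨?_, ?_, by simp, by simp; omega⟩
  · intro a ha
    simp only [List.mem_cons, List.not_mem_nil, or_false] at ha
    rcases ha with rfl | rfl
    · exact h
    · exact h'
  · rw [List.isChain_cons_cons]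
    exact ⟨hR, by simp⟩

lemma mem_D {L r e : ℕ} (h1 : 1 ≤ r) (h2 : r < 2 * K) (h3 : omega r ≤ L) (he : e + r = L * M) :
    e ∈ Dset M s := by
  have hL : 1 ≤ L := le_trans (omega_pos h1) h3
  have : M ≤ L * M := Nat.le_mul_of_pos_left _ hL
  have := H.hM
  exact H.mem_D_of_std (by omega) (H.single_std h1 h2 h3 he)

/-- the allowed parts below `3M` -/
lemma D_cases {e : ℕ} (he : e ∈ Dset M s) (h3 : e < 3 * M) :
    (∃ x, Pw x ∧ x ≤ K ∧ e + x = M) ∨
    (∃ r, 1 ≤ r ∧ omega r ≤ 2 ∧ 2 * r ≤ 3 * K ∧ e + r = 2 * M) ∨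
    (∃ r, 1 ≤ r ∧ r < 2 * K ∧ omega r ≤ 3 ∧ e + r = 3 * M) ∨
    e + 2 * K = 3 * M ∨ 8 * M ≤ 2 * e + 5 * K := by
  obtain ⟨l, hl⟩ := H.std_of_mem_D he
  have hM := H.hM
  have h0 := he.1
  rcases H.std_enum (by omega) hl with h | ⟨L, r, -, h1, h2, h4, h5, h6, h7⟩ |
    ⟨x, y, -, hx, hy, h1, h2, h4⟩ | ⟨r, y, -, h1, h2, h4, h5, hy, h6, h7⟩
  · omega
  · interval_cases L
    · obtain ⟨h8, h9⟩ := H.le1 h1 h2 h4
      exact Or.inl ⟨r, h8, h9, by omega⟩
    · exact Or.inr (Or.inl ⟨r, h1, h4, H.le2 h1 h2 h4, h7⟩)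
    · exact Or.inr (Or.inr (Or.inl ⟨r, h1, h2, h4, h7⟩))
    · omega
  · rcases Nat.lt_or_ge (x + y) (2 * K) with h8 | h8
    · have := hy.om_add_le x
      have := hx.om
      have := hx.pos
      exact Or.inr (Or.inr (Or.inl ⟨x + y, by omega, h8, by omega, by omega⟩))
    · omega
  · omega

end Big

/-! ### thresholds of classes -/

/-- the gap required after a part of class `r`, that is congruent to `-r` -/
def bet (M : ℕ) (b : ℕ → ℕ) (r : ℕ) : ℕ := b (idx M (M - r))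

lemma gap_iff {M : ℕ} {b : ℕ → ℕ} {e r : ℕ} (L : ℕ) (hr : r ≤ M) (hL : 1 ≤ L)
    (he : e + r = L * M) (f : ℕ) : gap M b e f ↔ f + bet M b r ≤ e := by
  obtain ⟨L0, rfl⟩ : ∃ L0, L = L0 + 1 := ⟨L - 1, by omega⟩
  have e1 : e = (M - r) + M * L0 := by rw [add_mul, mul_comm L0 M] at he; omega
  have e2 : idx M e = idx M (M - r) := by
    unfold idx
    rw [e1, Nat.add_mul_mod_self_left]
  unfold gap bet
  rw [e2]

lemma setB_finite (M s : ℕ) (b : ℕ → ℕ) (n : ℕ) : (setB M s b n).Finite :=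
  wch_finite (adm_Dset M s) _ _ _

lemma single_B {M s : ℕ} (b : ℕ → ℕ) {n : ℕ} (hn : n ∈ Dset M s) : [n] ∈ setB M s b n :=
  ⟨by simpa using hn, by simp, by simp, by simp⟩

lemma pair_B {M s : ℕ} {b : ℕ → ℕ} {e f n : ℕ} (he : e ∈ Dset M s) (hf : f ∈ Dset M s)
    (hg : gap M b e f) (hn : e + f = n) : [e, f] ∈ setB M s b n := by
  refine ⟨?_, ?_, by simp, by simpa using hn⟩
  · intro a ha
    simp only [List.mem_cons, List.not_mem_nil, or_false] at ha
    rcases ha with rfl | rfl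
    · exact he
    · exact hf
  · rw [List.isChain_cons_cons]
    exact ⟨hg, by simp⟩

/-- if `A(n) ≤ 1` and `n` is a part, no two-part partition of `n` is allowed -/
lemma kill {M s : ℕ} {b : ℕ → ℕ} {e f n : ℕ}
    (hI : (setA M s n).ncard = (setB M s b n).ncard) (hA : (setA M s n).ncard ≤ 1)
    (hn : n ∈ Dset M s) (he : e ∈ Dset M s) (hf : f ∈ Dset M s) (h : e + f = n) :
    ¬ gap M b e f := by
  intro hg
  have h1 := (Set.ncard_le_one (setB_finite M s b n)).1 (hI ▸ hA) _ (single_B b hn) _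
    (pair_B he hf hg h)
  simp at h1

end Pool.Agent.P.MP_e9218d_nt
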