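import Pool.Agent.P.MP_e9218d_nt.Nec4A

namespace Pool.Agent.P.MP_e9218d_nt

namespace Big
variable {M s K : ℕ} (H : Big M s K)
include H

lemma A_le_one {n : ℕ} (l0 : List (ℕ × ℕ)) (h : ∀ l ∈ std M s n, l = l0) :
    (setA M s n).ncard ≤ 1 := by
  rw [H.card_eq]
  exact (Set.ncard_le_one (H.std_finite n)).2 (fun a ha b hb => (h a ha).trans (h b hb).symm)

lemma A2 {n x : ℕ} (hx : Pw x) (hxK : x < K) (hn : n + (K + x) = 2 * M) :
    (setA M s n).ncard ≤ 1 := by
  have hM := H.hM
  have := hx.pos
  refine H.A_le_one [(2, K + x)] (fun l hl => ?_)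
  rcases H.std_enum (by omega) hl with h | ⟨L, r, rfl, h1, h2, h4, h5, h6, h7⟩ |
    ⟨u, v, rfl, hu, hv, h1, h2, h4⟩ | ⟨r, v, rfl, h1, h2, h4, h5, hv, h6, h7⟩
  · omega
  · interval_cases L
    · omega
    · obtain rfl : r = K + x := by omega
      rfl
    · omega
    · omega
  · omega
  · omega

lemma A3 {n x y : ℕ} (hx : Pw x) (hy : Pw y) (hxy : x < y) (hyK : y < K)
    (hn : n + (K + (y + x)) = 3 * M) : (setA M s n).ncard ≤ 1 := by
  have hM := H.hM
  have := hx.pos
  have := hx.dbl hy hxy
  have := hy.dbl H.pw hyK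
  refine H.A_le_one [(3, K + (y + x))] (fun l hl => ?_)
  rcases H.std_enum (by omega) hl with h | ⟨L, r, rfl, h1, h2, h4, h5, h6, h7⟩ |
    ⟨u, v, rfl, hu, hv, h1, h2, h4⟩ | ⟨r, v, rfl, h1, h2, h4, h5, hv, h6, h7⟩
  · omega
  · interval_cases L
    · omega
    · omega
    · obtain rfl : r = K + (y + x) := by omega
      rfl
    · omega
  · have e1 := om_three hx hy H.pw hxy hyK
    have e2 := hv.om_add_le u
    rw [hu.om, show u + v = K + (y + x) by omega] at e2
    omega
  · omega

lemma A3top {n : ℕ} (hn : n + 2 * K = 3 * M) : (setA M s n).ncard ≤ 1 := by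
  have hM := H.hM
  have := H.pw.pos
  refine H.A_le_one [(2, K), (1, K)] (fun l hl => ?_)
  rcases H.std_enum (by omega) hl with h | ⟨L, r, rfl, h1, h2, h4, h5, h6, h7⟩ |
    ⟨u, v, rfl, hu, hv, h1, h2, h4⟩ | ⟨r, v, rfl, h1, h2, h4, h5, hv, h6, h7⟩
  · omega
  · interval_cases L <;> omega
  · obtain rfl : u = K := by omega
    obtain rfl : v = u := by omega
    rfl
  · omega

lemma A4 {n x y z : ℕ} (hx : Pw x) (hy : Pw y) (hz : Pw z) (hxy : x < y) (hyz : y < z)
    (hzK : z < K) (hn : n + (K + (z + (y + x))) = 4 * M) : (setA M s n).ncard ≤ 1 := by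
  have hM := H.hM
  have := hx.pos
  have := hx.dbl hy hxy
  have := hy.dbl hz hyz
  have := hz.dbl H.pw hzK
  refine H.A_le_one [(4, K + (z + (y + x)))] (fun l hl => ?_)
  rcases H.std_enum (by omega) hl with h | ⟨L, r, rfl, h1, h2, h4, h5, h6, h7⟩ |
    ⟨u, v, rfl, hu, hv, h1, h2, h4⟩ | ⟨r, v, rfl, h1, h2, h4, h5, hv, h6, h7⟩
  · omega
  · interval_cases L
    · omega
    · omega
    · omega
    · obtain rfl : r = K + (z + (y + x)) := by omega
      rfl
  · have := hu.pos
    omega
  · have e1 := om_four hx hy hz H.pw hxy hyz hzK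
    have e2 := hv.om_add_le r
    rw [show r + v = K + (z + (y + x)) by omega] at e2
    omega

lemma A4top {n x : ℕ} (hx : Pw x) (hxK : x < K) (hxM : 2 * K + x ≤ M)
    (hn : n + (2 * K + x) = 4 * M) : (setA M s n).ncard ≤ 1 := by
  have hM := H.hM
  have := hx.pos
  refine H.A_le_one [(3, K + x), (1, K)] (fun l hl => ?_)
  rcases H.std_enum (by omega) hl with h | ⟨L, r, rfl, h1, h2, h4, h5, h6, h7⟩ |
    ⟨u, v, rfl, hu, hv, h1, h2, h4⟩ | ⟨r, v, rfl, h1, h2, h4, h5, hv, h6, h7⟩
  · omega
  · interval_cases L <;> omega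
  · have := hu.pos
    omega
  · have := hv.dbl H.pw
    obtain rfl : v = K := by omega
    obtain rfl : r = v + x := by omega
    rfl

lemma A3two {n x y : ℕ} (hx : Pw x) (hy : Pw y) (hxy : x < y) (hyK : y ≤ K)
    (hn : n + (y + x) = 3 * M) (hw : ¬ Pw (M + (y + x) - 2 * K)) :
    (setA M s n).ncard ≤ 2 := by
  have hM := H.hM
  have := hx.pos
  have := hx.dbl hy hxy
  rw [H.card_eq]
  have hsub : std M s n ⊆ {[(3, y + x)], [(2, x), (1, y)]} := by
    intro l hl
    rcases H.std_enum (by omega) hl with h | ⟨L, r, rfl, h1, h2, h4, h5, h6, h7⟩ |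
      ⟨u, v, rfl, hu, hv, h1, h2, h4⟩ | ⟨r, v, rfl, h1, h2, h4, h5, hv, h6, h7⟩
    · omega
    · interval_cases L
      · omega
      · omega
      · obtain rfl : r = y + x := by omega
        simp
      · omega
    · have := hu.pos
      have := hv.dbl hy
      have := hy.dbl hv
      have := hu.dbl hx
      have := hx.dbl hu
      have := hu.dbl hy
      obtain rfl : v = y := by omega
      obtain rfl : u = x := by omega
      simp
    · exfalso
      have := hv.dbl H.pw
      obtain rfl : v = K := by omega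
      rcases om2 h1 h4 with hr | ⟨p, q, hp, hq, hpq, rfl⟩
      · have := hv.dbl hr
        omega
      · have := hp.dbl hq hpq
        have := hq.dbl hv
        have := hv.dbl hq
        obtain rfl : q = v := by omega
        exact hw (by rw [show M + (y + x) - 2 * q = p by omega]; exact hp)
  exact (Set.ncard_le_ncard hsub (Set.toFinite _)).trans
    ((Set.ncard_insert_le _ _).trans (by simp))

lemma D1 {x e : ℕ} (hx : Pw x) (hxK : x ≤ K) (he : e + x = M) : e ∈ Dset M s :=
  H.mem_D (L := 1) hx.pos (by have := hx.pos; omega) hx.om.le (by omega)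

lemma D3top {e : ℕ} (he : e + 2 * K = 3 * M) : e ∈ Dset M s := by
  have hM := H.hM
  have h1 := H.pw.pos
  have h2 := H.pw.om
  have h3 := H.pw.low
  exact H.mem_D_of_std (by omega) (H.pair_std (L := 2) (r := K) (L' := 1) (r' := K) h1 (by omega)
    (by omega) h1 (by omega) (by omega) (by omega) (by omega))

lemma D4top {e x : ℕ} (hx : Pw x) (hxK : x < K) (he : e + (2 * K + x) = 4 * M) :
    e ∈ Dset M s := by
  have hM := H.hM
  have h1 := H.pw.pos
  have h2 := H.pw.om
  have h3 := om_two hx H.pw hxK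
  have h4 := H.pw.low_add hx.pos hxK
  have h5 := hx.low
  exact H.mem_D_of_std (by omega) (H.pair_std (L := 3) (r := K + x) (L' := 1) (r' := K) (by omega)
    (by omega) (by omega) h1 (by omega) (by omega) (by omega) (by omega))

variable {b : ℕ → ℕ} (hI : ∀ n, (setA M s n).ncard = (setB M s b n).ncard)
include hI

/-- a forbidden pair gives a lower bound for the gap of a class -/
lemma low_of {n L r e f : ℕ} (hA : (setA M s n).ncard ≤ 1) (hn : n ∈ Dset M s)
    (he : e ∈ Dset M s) (hf : f ∈ Dset M s) (h : e + f = n) (hr : r ≤ M) (hL : 1 ≤ L)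
    (hre : e + r = L * M) : e < f + bet M b r := by
  have := kill (hI n) hA hn he hf h
  rw [gap_iff L hr hL hre] at this
  omega

lemma F1 {x : ℕ} (hx : Pw x) (hxK : x < K) : K < bet M b x + x := by
  have hM := H.hM
  have h1 := hx.pos
  have := H.low_of hI (n := 2 * M - (K + x)) (L := 1) (r := x) (e := M - x) (f := M - K)
    (H.A2 hx hxK (by omega))
    (H.mem_D (L := 2) (r := K + x) (by omega) (by omega) (om_two hx H.pw hxK).le (by omega))
    (H.D1 hx hxK.le (by omega)) (H.D1 H.pw le_rfl (by omega)) (by omega) (by omega) le_rfl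
    (by omega)
  omega

lemma F3 : M < bet M b K := by
  have hM := H.hM
  have h1 := H.pw.pos
  have := H.low_of hI (n := 3 * M - 2 * K) (L := 2) (r := K) (e := 2 * M - K) (f := M - K)
    (H.A3top (by omega)) (H.D3top (by omega))
    (H.mem_D (L := 2) (r := K) (by omega) (by omega) (by rw [H.pw.om]; omega) (by omega))
    (H.D1 H.pw le_rfl (by omega)) (by omega) (by omega) (by omega) (by omega)
  omega

/-- removing the power `w` from a sum of three powers containing `K` -/
lemma F2gen {x y r w : ℕ} (hx : Pw x) (hy : Pw y) (hxy : x < y) (hyK : y < K) (hw : Pw w)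
    (hwK : w ≤ K) (hr : omega r ≤ 2) (hrw : r + w = K + (y + x)) : M + w < bet M b r + r := by
  have hM := H.hM
  have := hx.pos
  have := hw.pos
  have := hx.dbl hy hxy
  have := hy.dbl H.pw hyK
  have := H.low_of hI (n := 3 * M - (K + (y + x))) (L := 2) (r := r) (e := 2 * M - r) (f := M - w)
    (H.A3 hx hy hxy hyK (by omega))
    (H.mem_D (L := 3) (r := K + (y + x)) (by omega) (by omega)
      (om_three hx hy H.pw hxy hyK).le (by omega))
    (H.mem_D (L := 2) (r := r) (by omega) (by omega) hr (by omega))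
    (H.D1 hw hwK (by omega)) (by omega) (by omega) (by omega) (by omega)
  omega

lemma F2 (hK : 4 ≤ K) {x y : ℕ} (hx : Pw x) (hy : Pw y) (hxy : x < y) (hyK : y ≤ K) :
    M + 1 < bet M b (y + x) + (y + x) := by
  have ho := (om_two hx hy hxy).le
  have := H.pw.pos
  rcases Nat.lt_or_ge y K with h | h
  · have := H.F2gen hI hx hy hxy h H.pw le_rfl ho (by omega)
    omega
  · obtain rfl : y = K := by omega
    rcases Nat.lt_or_ge 1 x with h1 | h1
    · have := H.F2gen hI pw_one hx h1 hxy pw_one (by omega) ho (by omega)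
      omega
    · obtain rfl : x = 1 := by have := hx.pos; omega
      have := H.F2gen hI pw_one pw_two (by omega) (by omega) pw_two (by omega) ho (by omega)
      omega

/-- removing the power `w` from a sum of four powers containing `K` -/
lemma F4 {x y z r w : ℕ} (hx : Pw x) (hy : Pw y) (hz : Pw z) (hxy : x < y) (hyz : y < z)
    (hzK : z < K) (hw : Pw w) (hwK : w ≤ K) (hr : omega r ≤ 3)
    (hrw : r + w = K + (z + (y + x))) : 2 * M + w < bet M b r + r := by
  have hM := H.hM
  have := hx.pos
  have := hw.pos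
  have := hx.dbl hy hxy
  have := hy.dbl hz hyz
  have := hz.dbl H.pw hzK
  have := H.low_of hI (n := 4 * M - (K + (z + (y + x)))) (L := 3) (r := r) (e := 3 * M - r)
    (f := M - w) (H.A4 hx hy hz hxy hyz hzK (by omega))
    (H.mem_D (L := 4) (r := K + (z + (y + x))) (by omega) (by omega)
      (om_four hx hy hz H.pw hxy hyz hzK).le (by omega))
    (H.mem_D (L := 3) (r := r) (by omega) (by omega) hr (by omega))
    (H.D1 hw hwK (by omega)) (by omega) (by omega) (by omega) (by omega)
  omega

lemma F5 {x : ℕ} (hx : Pw x) (hxK : x < K) (hxM : 2 * K + x ≤ M) :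
    2 * M + x < bet M b (2 * K) + 2 * K := by
  have := hx.pos
  have := H.low_of hI (n := 4 * M - (2 * K + x)) (L := 3) (r := 2 * K) (e := 3 * M - 2 * K)
    (f := M - x) (H.A4top hx hxK hxM (by omega)) (H.D4top hx hxK (by omega))
    (H.D3top (by omega)) (H.D1 hx hxK.le (by omega)) (by omega) (by omega) (by omega) (by omega)
  omega

lemma G {x : ℕ} (hx : Pw x) (hxK : x < K) (hxM : 2 * K + x ≤ M) :
    2 * M + K < bet M b (K + x) + (K + x) := by
  have := hx.pos
  have := H.low_of hI (n := 4 * M - (2 * K + x)) (L := 3) (r := K + x) (e := 3 * M - (K + x))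
    (f := M - K) (H.A4top hx hxK hxM (by omega)) (H.D4top hx hxK (by omega))
    (H.mem_D (L := 3) (r := K + x) (by omega) (by omega)
      (by rw [om_two hx H.pw hxK]; omega) (by omega))
    (H.D1 H.pw le_rfl (by omega)) (by omega) (by omega) (by omega) (by omega)
  omega

end Big

end Pool.Agent.P.MP_e9218d_nt
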