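import Pool.Agent.P.MP_e9218d_nt.Nec4A

namespace Pool.Agent.P.MP_e9218d_nt

/-! ### the range `2^(s-1) < M < 2^s`: standard chains of small weight -/

lemma wle {t c N : ℕ} (hc : Pw c) (h : t + c = N) : omega N ≤ omega t + 1 := h ▸ hc.om_add_le t

lemma weq {a b : ℕ} (h : a = b) : omega a = omega b := by rw [h]

lemma om_split (a : ℕ) : ∀ (k r : ℕ), r < 2 ^ k → omega (2 ^ k * a + r) = omega a + omega r := by
  intro k
  induction k with
  | zero => intro r hr; obtain rfl : r = 0 := by omega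
            simp [omega_zero]
  | succ k ih =>
    intro r hr
    rcases Nat.even_or_odd' r with ⟨t, rfl | rfl⟩
    · rw [show 2 ^ (k + 1) * a + 2 * t = 2 * (2 ^ k * a + t) by ring, omega_two_mul, omega_two_mul,
        ih t (by rw [pow_succ] at hr; omega)]
    · rw [show 2 ^ (k + 1) * a + (2 * t + 1) = 2 * (2 ^ k * a + t) + 1 by ring,
        omega_two_mul_add_one, omega_two_mul_add_one, ih t (by rw [pow_succ] at hr; omega)]
      omega

lemma Pw.dvd {x y : ℕ} (hx : Pw x) (hy : Pw y) (h : x ≤ y) : x ∣ y := by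
  obtain ⟨c, rfl⟩ := hx
  obtain ⟨d, rfl⟩ := hy
  exact pow_dvd_pow _ ((Nat.pow_le_pow_iff_right (by norm_num)).1 h)

lemma Pw.split {x a r : ℕ} (hx : Pw x) (ha : x ∣ a) (hr : r < x) :
    omega (a + r) = omega a + omega r := by
  obtain ⟨c, rfl⟩ := hx
  obtain ⟨m, rfl⟩ := ha
  have h := om_split m c 0 (by positivity)
  rw [om_split m c r hr]
  rw [add_zero, omega_zero] at h
  omega

lemma Pw.spl {x a r t : ℕ} (hx : Pw x) (ha : x ∣ a) (hr : r < x) (ht : t = a + r) :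
    omega t = omega a + omega r := ht ▸ hx.split ha hr

lemma Pw.add1 {x r t : ℕ} (hx : Pw x) (hr : r < x) (ht : t = x + r) :
    omega t = omega r + 1 := ht ▸ hx.om_add hr

lemma Pw.dsub {c x : ℕ} (hc : Pw c) (hx : Pw x) (h : c ≤ x) : c ∣ x - c :=
  Nat.dvd_sub (hc.dvd hx h) dvd_rfl

lemma Pw.half {x : ℕ} (hx : Pw x) (h : 2 ≤ x) : ∃ y, Pw y ∧ x = 2 * y := by
  obtain ⟨c, rfl⟩ := hx
  cases c with
  | zero => simp at h
  | succ c => exact ⟨2 ^ c, ⟨c, rfl⟩, by ring⟩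

lemma Pw.not3 {x m : ℕ} (hx : Pw x) : x ≠ 3 * m := by
  obtain ⟨c, rfl⟩ := hx
  intro h
  have : 3 ∣ 2 ^ c := ⟨m, h⟩
  have := Nat.Prime.dvd_of_dvd_pow Nat.prime_three this
  omega

/-- necessary conditions for a standard chain of total level `L` and total colour `t` -/
def P1 (q t : ℕ) : Prop := Pw t ∧ t ≤ 16 * q
def P2 (q t : ℕ) : Prop := 1 ≤ t ∧ omega t ≤ 2 ∧ t ≤ 24 * q
def P3 (q t : ℕ) : Prop := (1 ≤ t ∧ t < 32 * q ∧ omega t ≤ 3) ∨ t = 32 * q
def P4 (q t : ℕ) : Prop :=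
  (1 ≤ t ∧ t < 32 * q ∧ omega t ≤ 4) ∨ t = 32 * q ∨ ∃ p, Pw p ∧ p ≤ 8 * q ∧ t = 32 * q + p
def P5 (q t : ℕ) : Prop := ∃ r, t = 32 * q + r ∧ 1 ≤ r ∧ omega r ≤ 2 ∧ r ≤ 12 * q

/-- the setting `2^(s-1) = 16 q`, `M = 16 q + η = 32 q - δ` -/
structure Mid (M s q η δ : ℕ) : Prop where
  hs : 1 ≤ s
  hq : Pw q
  hK : 2 ^ (s - 1) = 16 * q
  hM : M = 16 * q + η
  hd : η + δ = 16 * q
  h1 : 1 ≤ η
  hw : 3 ≤ omega δ

namespace Mid
variable {M s q η δ : ℕ} (H : Mid M s q η δ)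
include H

lemma p2 : Pw (2 * q) := H.hq.two_mul
lemma p4 : Pw (4 * q) := by have := H.p2.two_mul; rwa [← mul_assoc] at this
lemma p8 : Pw (8 * q) := by have := H.p4.two_mul; rwa [← mul_assoc] at this
lemma p16 : Pw (16 * q) := by have := H.p8.two_mul; rwa [← mul_assoc] at this
lemma p32 : Pw (32 * q) := by have := H.p16.two_mul; rwa [← mul_assoc] at this

lemma lt : 2 ^ (s - 1) < M := by
  have := H.hK; have := H.hM; have := H.h1; omega

lemma dpos : 1 ≤ δ := by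
  by_contra h
  have h1 := H.hw
  rw [show δ = 0 by omega, omega_zero] at h1
  omega

lemma two_pow : 2 ^ s = 32 * q := by
  obtain ⟨t, ht⟩ : ∃ t, s = t + 1 := ⟨s - 1, by have := H.hs; omega⟩
  have := H.hK
  rw [ht] at this ⊢
  rw [pow_succ]; simp at this; omega

lemma mem_colP {L r : ℕ} : (L, r) ∈ colP s ↔ 1 ≤ r ∧ r < 32 * q ∧ omega r ≤ L := by
  simp only [colP, Set.mem_ofPred_eq, H.two_pow]

lemma card_eq (n : ℕ) : (setA M s n).ncard = (std M s n).ncard := andrews_formal H.lt H.hs n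

lemma std_finite (n : ℕ) : (std M s n).Finite := wch_finite (adm_stdW H.lt) _ _ _

lemma le1 {r : ℕ} (h1 : 1 ≤ r) (h2 : r < 32 * q) (ho : omega r ≤ 1) : Pw r ∧ r ≤ 16 * q := by
  have h := om1 h1 ho
  have := h.dbl H.p32 h2
  exact ⟨h, by omega⟩

lemma le2 {r : ℕ} (h1 : 1 ≤ r) (h2 : r < 32 * q) (ho : omega r ≤ 2) : r ≤ 24 * q := by
  rcases om2 h1 ho with h | ⟨x, y, hx, hy, hxy, rfl⟩
  · have := h.dbl H.p32 h2; omega
  · have := hy.dbl H.p32 (by omega)
    have := hx.dbl hy hxy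
    omega

lemma le3 {r : ℕ} (h1 : 1 ≤ r) (h2 : r < 32 * q) (ho : omega r ≤ 3) : r ≤ 28 * q := by
  rcases om3 h1 ho with h | ⟨x, y, hx, hy, hxy, rfl⟩ | ⟨x, y, z, hx, hy, hz, hxy, hyz, rfl⟩
  · have := h.dbl H.p32 h2; omega
  · have := hy.dbl H.p32 (by omega)
    have := hx.dbl hy hxy
    omega
  · have := hz.dbl H.p32 (by omega)
    have := hx.dbl hy hxy
    have := hy.dbl hz hyz
    omega

lemma weight {L r : ℕ} (h : (L, r) ∈ colP s) : stdW M (L, r) + r = L * M ∧ 1 ≤ L := by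
  obtain ⟨h1, h2, h3⟩ := H.mem_colP.1 h
  have hL : 1 ≤ L := le_trans (omega_pos h1) h3
  have := H.hM
  have := H.h1
  refine ⟨?_, hL⟩
  simp only [stdW]
  rcases Nat.eq_or_lt_of_le hL with rfl | h4
  · have := (H.le1 h1 h2 h3).2
    omega
  · have : 2 * M ≤ L * M := Nat.mul_le_mul_right _ h4
    omega

/-- the standard chains of weight at most `4M - K` -/
lemma std_enum {n : ℕ} (h0 : 0 < n) (hn : n + 16 * q ≤ 4 * M) {l : List (ℕ × ℕ)}
    (hl : l ∈ std M s n) :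
    (∃ L r, l = [(L, r)] ∧ 1 ≤ r ∧ r < 32 * q ∧ omega r ≤ L ∧ 1 ≤ L ∧ L ≤ 4 ∧ n + r = L * M) ∨
    (∃ x y, l = [(2, x), (1, y)] ∧ Pw x ∧ Pw y ∧ x ≤ y ∧ y ≤ 16 * q ∧ n + (x + y) = 3 * M) ∨
    (∃ r y, l = [(3, r), (1, y)] ∧ 1 ≤ r ∧ omega r ≤ 2 ∧ r ≤ 24 * q ∧ Pw y ∧
      y ≤ 16 * q ∧ n + (r + y) = 4 * M) ∨ (∃ t, n + t = 5 * M ∧ P5 q t) := by
  obtain ⟨hP, hc, -, hs⟩ := hl
  have hM := H.hM
  have hη := H.h1
  have hK := H.hq.pos
  match l, hP, hc, hs with
  | [], _, _, hs => simp at hs; omega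
  | [(L, r)], hP, _, hs =>
    left
    have h := hP (L, r) (by simp)
    obtain ⟨h1, h2, h3⟩ := H.mem_colP.1 h
    obtain ⟨h4, h5⟩ := H.weight h
    simp only [List.map_cons, List.map_nil, List.sum_cons, List.sum_nil, add_zero] at hs
    refine ⟨L, r, rfl, h1, h2, h3, h5, ?_, by omega⟩
    by_contra hL
    have : 5 * M ≤ L * M := Nat.mul_le_mul_right _ (by omega)
    omega
  | (L, r) :: (L', r') :: rest, hP, hc, hs =>
    right
    have h := hP (L, r) (by simp)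
    have h' := hP (L', r') (by simp)
    obtain ⟨h1, h2, h3⟩ := H.mem_colP.1 h
    obtain ⟨h4, h5⟩ := H.weight h
    obtain ⟨h1', h2', h3'⟩ := H.mem_colP.1 h'
    obtain ⟨h4', h5'⟩ := H.weight h'
    have ho := omega_pos h1
    have ho' := omega_pos h1'
    rw [List.isChain_cons_cons] at hc
    obtain ⟨hR, hc⟩ := hc
    simp only [colR] at hR
    simp only [List.map_cons, List.sum_cons] at hs
    have hL5 : L ≤ 4 := by
      by_contra hne
      have : 5 * M ≤ L * M := Nat.mul_le_mul_right _ (by omega)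
      rcases Nat.eq_or_lt_of_le h5' with rfl | h6
      · have := (H.le1 h1' h2' h3').2
        omega
      · rcases Nat.eq_or_lt_of_le (show 2 ≤ L' from h6) with rfl | h7
        · have := H.le2 h1' h2' h3'
          omega
        · have : 3 * M ≤ L' * M := Nat.mul_le_mul_right _ h7
          omega
    have hL' : L' ≤ 2 := by
      by_contra hne
      obtain rfl : L = 4 := by omega
      obtain rfl : L' = 3 := by omega
      have := (H.le1 h1 h2 (by omega)).2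
      omega
    rcases Nat.eq_or_lt_of_le h5' with rfl | h6
    · obtain ⟨hy, hyK⟩ := H.le1 h1' h2' h3'
      have hrest : rest = [] := by
        cases rest with
        | nil => rfl
        | cons t rest =>
          exfalso
          rw [List.isChain_cons_cons] at hc
          have h8 := hc.1
          simp only [colR] at h8
          have := (H.weight (L := t.1) (r := t.2) (hP t (by simp))).2
          omega
      subst hrest
      simp only [List.map_nil, List.sum_nil, add_zero] at hs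
      have h7 : 2 ≤ L := by omega
      interval_cases L
      · obtain ⟨hx, -⟩ := H.le1 h1 h2 (by omega)
        have := hx.low
        exact Or.inl ⟨r, r', rfl, hx, hy, by omega, hyK, by omega⟩
      · exact Or.inr (Or.inl ⟨r, r', rfl, h1, by omega, H.le2 h1 h2 (by omega), hy, hyK, by omega⟩)
      · have h8 := H.le3 h1 h2 (by omega)
        refine Or.inr (Or.inr ⟨r + r', by omega, r + r' - 32 * q, by omega, by omega, ?_, by omega⟩)
        rcases Nat.eq_or_lt_of_le hyK with rfl | h9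
        · have := H.p16.om_add (r := r - 16 * q) (by omega)
          rw [show 16 * q + (r - 16 * q) = r by omega] at this
          rw [show r + 16 * q - 32 * q = r - 16 * q by omega]
          omega
        · have := hy.dbl H.p16 h9
          have := hy.dbl H.p8
          have := H.p4.dbl hy
          obtain rfl : r' = 8 * q := by omega
          have e1 := H.p16.om_add (r := r - 16 * q) (by omega)
          have e2 := H.p8.om_add (r := r - 24 * q) (by omega)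
          rw [show 16 * q + (r - 16 * q) = r by omega] at e1
          rw [show 8 * q + (r - 24 * q) = r - 16 * q by omega] at e2
          rw [show r + 8 * q - 32 * q = r - 24 * q by omega]
          omega
    · obtain rfl : L' = 2 := by omega
      have h7 := H.le2 h1' h2' h3'
      rcases Nat.eq_or_lt_of_le hL5 with rfl | h8
      · have := H.le2 h1 h2 (by omega)
        omega
      obtain rfl : L = 3 := by omega
      obtain ⟨hx, hxK⟩ := H.le1 h1 h2 (by omega)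
      have hrest : rest = [] := by
        cases rest with
        | nil => rfl
        | cons t rest =>
          exfalso
          rw [List.isChain_cons_cons] at hc
          have h8 := hc.1
          simp only [colR] at h8
          have ht := hP t (by simp)
          obtain ⟨a1, a2⟩ := H.weight (L := t.1) (r := t.2) ht
          obtain ⟨b1, b2, b3⟩ := H.mem_colP.1 (show (t.1, t.2) ∈ colP s from ht)
          have a3 : t.1 = 1 := by omega
          have := (H.le1 b1 b2 (by omega)).2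
          have := (H.le1 h1' h2' (by omega)).2
          simp only [List.map_cons, List.sum_cons] at hs
          rw [a3] at a1
          have : stdW M t = stdW M (1, t.2) := by rw [← a3]
          omega
      subst hrest
      simp only [List.map_nil, List.sum_nil, add_zero] at hs
      refine Or.inr (Or.inr ⟨r + r', by omega, r + r' - 32 * q, by omega, by omega, ?_, by omega⟩)
      have := hx.dbl H.p16
      obtain rfl : r = 16 * q := by omega
      have := H.p16.om_add (r := r' - 16 * q) (by omega)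
      rw [show 16 * q + (r' - 16 * q) = r' by omega] at this
      rw [show 16 * q + r' - 32 * q = r' - 16 * q by omega]
      omega

/-- the chains sorted by their total level -/
lemma lev {n : ℕ} (h0 : 0 < n) (hn : n + 16 * q ≤ 4 * M) {l : List (ℕ × ℕ)}
    (hl : l ∈ std M s n) :
    (∃ t, n + t = M ∧ P1 q t ∧ l = [(1, t)]) ∨ (∃ t, n + t = 2 * M ∧ P2 q t ∧ l = [(2, t)]) ∨
    (∃ t, n + t = 3 * M ∧ P3 q t ∧ ((l = [(3, t)] ∧ t < 32 * q) ∨
      ∃ x y, l = [(2, x), (1, y)] ∧ Pw x ∧ Pw y ∧ x ≤ y ∧ y ≤ 16 * q ∧ t = x + y)) ∨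
    (∃ t, n + t = 4 * M ∧ P4 q t ∧ ((l = [(4, t)] ∧ t < 32 * q) ∨
      ∃ r y, l = [(3, r), (1, y)] ∧ omega r ≤ 2 ∧ r ≤ 24 * q ∧ Pw y ∧ y ≤ 16 * q ∧ t = r + y)) ∨
    (∃ t, n + t = 5 * M ∧ P5 q t) := by
  rcases H.std_enum h0 hn hl with ⟨L, r, rfl, h1, h2, h4, h5, h6, h7⟩ |
    ⟨x, y, rfl, hx, hy, h1, h2, h4⟩ | ⟨r, y, rfl, h1, h4, h5, hy, h6, h7⟩ | h
  · interval_cases L
    · exact Or.inl ⟨r, by omega, H.le1 h1 h2 h4, rfl⟩
    · exact Or.inr (Or.inl ⟨r, h7, ⟨h1, h4, H.le2 h1 h2 h4⟩, rfl⟩)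
    · exact Or.inr (Or.inr (Or.inl ⟨r, h7, Or.inl ⟨h1, h2, h4⟩, Or.inl ⟨rfl, h2⟩⟩))
    · exact Or.inr (Or.inr (Or.inr (Or.inl ⟨r, h7, Or.inl ⟨h1, h2, h4⟩, Or.inl ⟨rfl, h2⟩⟩)))
  · refine Or.inr (Or.inr (Or.inl ⟨x + y, h4, ?_, Or.inr ⟨x, y, rfl, hx, hy, h1, h2, rfl⟩⟩))
    have := hy.om_add_le x
    have := hx.om
    have := hx.pos
    unfold P3
    omega
  · refine Or.inr (Or.inr (Or.inr (Or.inl ⟨r + y, h7, ?_,
      Or.inr ⟨r, y, rfl, h4, h5, hy, h6, rfl⟩⟩)))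
    have := hy.om_add_le r
    rcases lt_trichotomy (r + y) (32 * q) with c | c | c
    · exact Or.inl ⟨by omega, c, by omega⟩
    · exact Or.inr (Or.inl c)
    · refine Or.inr (Or.inr ⟨r - 16 * q, ?_, by omega, ?_⟩)
      · have := hy.dbl H.p16
        have := H.p16.om_add (r := r - 16 * q) (by omega)
        rw [show 16 * q + (r - 16 * q) = r by omega] at this
        exact om1 (by omega) (by omega)
      · have := hy.dbl H.p16
        omega
  · exact Or.inr (Or.inr (Or.inr (Or.inr h)))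

lemma A_le_one {n : ℕ} (l0 : List (ℕ × ℕ)) (h : ∀ l ∈ std M s n, l = l0) :
    (setA M s n).ncard ≤ 1 := by
  rw [H.card_eq]
  exact (Set.ncard_le_one (H.std_finite n)).2 (fun a ha b hb => (h a ha).trans (h b hb).symm)

lemma A1 {n : ℕ} (h0 : 0 < n) (hn : n + 16 * q ≤ 4 * M) (z2 : ∀ t, n + t = 2 * M → ¬ P2 q t)
    (z3 : ∀ t, n + t = 3 * M → ¬ P3 q t) (z4 : ∀ t, n + t = 4 * M → ¬ P4 q t)
    (z5 : ∀ t, n + t = 5 * M → ¬ P5 q t) : (setA M s n).ncard ≤ 1 := by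
  refine H.A_le_one [(1, M - n)] (fun l hl => ?_)
  rcases H.lev h0 hn hl with ⟨t, h1, h2, h3⟩ | ⟨t, h1, h2, h3⟩ | ⟨t, h1, h2, h3⟩ | ⟨t, h1, h2, h3⟩ |
    ⟨t, h1, h2⟩
  · rw [h3, show M - n = t by omega]
  · exact absurd h2 (z2 t h1)
  · exact absurd h2 (z3 t h1)
  · exact absurd h2 (z4 t h1)
  · exact absurd h2 (z5 t h1)

lemma A2 {n : ℕ} (h0 : 0 < n) (hn : n + 16 * q ≤ 4 * M) (z1 : ∀ t, n + t = M → ¬ P1 q t)
    (z3 : ∀ t, n + t = 3 * M → ¬ P3 q t) (z4 : ∀ t, n + t = 4 * M → ¬ P4 q t)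
    (z5 : ∀ t, n + t = 5 * M → ¬ P5 q t) : (setA M s n).ncard ≤ 1 := by
  refine H.A_le_one [(2, 2 * M - n)] (fun l hl => ?_)
  rcases H.lev h0 hn hl with ⟨t, h1, h2, h3⟩ | ⟨t, h1, h2, h3⟩ | ⟨t, h1, h2, h3⟩ | ⟨t, h1, h2, h3⟩ |
    ⟨t, h1, h2⟩
  · exact absurd h2 (z1 t h1)
  · rw [h3, show 2 * M - n = t by omega]
  · exact absurd h2 (z3 t h1)
  · exact absurd h2 (z4 t h1)
  · exact absurd h2 (z5 t h1)

lemma A3 {n : ℕ} (h0 : 0 < n) (hn : n + 16 * q ≤ 4 * M) (z1 : ∀ t, n + t = M → ¬ P1 q t)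
    (z2 : ∀ t, n + t = 2 * M → ¬ P2 q t) (u3 : ∀ t, n + t = 3 * M → t < 32 * q → 3 ≤ omega t)
    (z4 : ∀ t, n + t = 4 * M → ¬ P4 q t)
    (z5 : ∀ t, n + t = 5 * M → ¬ P5 q t) : (setA M s n).ncard ≤ 1 := by
  refine H.A_le_one (if n + 32 * q ≤ 3 * M then [(2, 16 * q), (1, 16 * q)] else [(3, 3 * M - n)])
    (fun l hl => ?_)
  rcases H.lev h0 hn hl with ⟨t, h1, h2, h3⟩ | ⟨t, h1, h2, h3⟩ | ⟨t, h1, h2, h3⟩ | ⟨t, h1, h2, h3⟩ |
    ⟨t, h1, h2⟩
  · exact absurd h2 (z1 t h1)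
  · exact absurd h2 (z2 t h1)
  · rcases h3 with ⟨rfl, h4⟩ | ⟨x, y, rfl, hx, hy, h4, h5, rfl⟩
    · rw [if_neg (by omega), show 3 * M - n = t by omega]
    · have := hy.om_add_le x
      have := hx.om
      have := u3 _ h1
      rw [if_pos (by omega), show x = 16 * q by omega, show y = 16 * q by omega]
  · exact absurd h2 (z4 t h1)
  · exact absurd h2 (z5 t h1)

lemma A4 {n : ℕ} (h0 : 0 < n) (hn : n + 16 * q ≤ 4 * M) (z1 : ∀ t, n + t = M → ¬ P1 q t)
    (z2 : ∀ t, n + t = 2 * M → ¬ P2 q t) (z3 : ∀ t, n + t = 3 * M → ¬ P3 q t)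
    (u4 : ∀ t, n + t = 4 * M → t ≤ 32 * q → 4 ≤ omega t)
    (z5 : ∀ t, n + t = 5 * M → ¬ P5 q t) : (setA M s n).ncard ≤ 1 := by
  refine H.A_le_one (if n + 32 * q < 4 * M then [(3, 4 * M - n - 16 * q), (1, 16 * q)]
    else [(4, 4 * M - n)]) (fun l hl => ?_)
  rcases H.lev h0 hn hl with ⟨t, h1, h2, h3⟩ | ⟨t, h1, h2, h3⟩ | ⟨t, h1, h2, h3⟩ | ⟨t, h1, h2, h3⟩ |
    ⟨t, h1, h2⟩
  · exact absurd h2 (z1 t h1)
  · exact absurd h2 (z2 t h1)
  · exact absurd h2 (z3 t h1)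
  · rcases h3 with ⟨rfl, h4⟩ | ⟨r, y, rfl, h4, h5, hy, h6, rfl⟩
    · rw [if_neg (by omega), show 4 * M - n = t by omega]
    · have := hy.om_add_le r
      have := u4 _ h1
      have := hy.dbl H.p16
      rw [if_pos (by omega), show y = 16 * q by omega, show 4 * M - n - 16 * q = r by omega]
  · exact absurd h2 (z5 t h1)

lemma A3two {n x y : ℕ} (hx : Pw x) (hy : Pw y) (hxy : x < y) (hyK : y ≤ 8 * q)
    (hn : n + (y + x) = 3 * M) (z4 : ∀ t, n + t = 4 * M → ¬ P4 q t)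
    (z5 : ∀ t, n + t = 5 * M → ¬ P5 q t) : (setA M s n).ncard ≤ 2 := by
  have hM := H.hM
  have := H.h1
  have := H.hd
  have := hx.pos
  have := hx.dbl hy hxy
  rw [H.card_eq]
  have hsub : std M s n ⊆ {[(3, y + x)], [(2, x), (1, y)]} := by
    intro l hl
    rcases H.lev (by omega) (by omega) hl with ⟨t, h1, h2, h3⟩ | ⟨t, h1, h2, h3⟩ |
      ⟨t, h1, h2, h3⟩ |
      ⟨t, h1, h2, h3⟩ | ⟨t, h1, h2⟩
    · omega
    · omega
    · rcases h3 with ⟨rfl, h4⟩ | ⟨u, v, rfl, hu, hv, h4, h5, rfl⟩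
      · obtain rfl : t = y + x := by omega
        simp
      · have := hu.pos
        have := hv.dbl hy
        have := hy.dbl hv
        have := hu.dbl hx
        have := hx.dbl hu
        have := hu.dbl hy
        obtain rfl : v = y := by omega
        obtain rfl : u = x := by omega
        simp
    · exact absurd h2 (z4 t h1)
    · exact absurd h2 (z5 t h1)
  exact (Set.ncard_le_ncard hsub (Set.toFinite _)).trans
    ((Set.ncard_insert_le _ _).trans (by simp))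

lemma mem_D_of_std {n : ℕ} (hn : 0 < n) {l : List (ℕ × ℕ)} (hl : l ∈ std M s n) :
    n ∈ Dset M s := by
  refine ⟨hn, Set.nonempty_of_ncard_ne_zero ?_⟩
  rw [H.card_eq]
  exact Set.ncard_ne_zero_of_mem hl (H.std_finite n)

lemma std_of_mem_D {n : ℕ} (hn : n ∈ Dset M s) : ∃ l, l ∈ std M s n := by
  apply Set.nonempty_of_ncard_ne_zero
  rw [← H.card_eq]
  exact (Set.ncard_pos (setA_finite M s n)).2 hn.2 |>.ne'

lemma D_lev {n : ℕ} (hD : n ∈ Dset M s) (hn : n + 16 * q ≤ 4 * M) :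
    (∃ t, n + t = M ∧ P1 q t) ∨ (∃ t, n + t = 2 * M ∧ P2 q t) ∨ (∃ t, n + t = 3 * M ∧ P3 q t) ∨
    (∃ t, n + t = 4 * M ∧ P4 q t) ∨ (∃ t, n + t = 5 * M ∧ P5 q t) := by
  obtain ⟨l, hl⟩ := H.std_of_mem_D hD
  rcases H.lev hD.1 hn hl with ⟨t, h1, h2, -⟩ | ⟨t, h1, h2, -⟩ | ⟨t, h1, h2, -⟩ |
    ⟨t, h1, h2, -⟩ | h
  · exact Or.inl ⟨t, h1, h2⟩
  · exact Or.inr (Or.inl ⟨t, h1, h2⟩)
  · exact Or.inr (Or.inr (Or.inl ⟨t, h1, h2⟩))
  · exact Or.inr (Or.inr (Or.inr (Or.inl ⟨t, h1, h2⟩)))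
  · exact Or.inr (Or.inr (Or.inr (Or.inr h)))

lemma single_std {L r n : ℕ} (h1 : 1 ≤ r) (h2 : r < 32 * q) (h3 : omega r ≤ L)
    (hn : n + r = L * M) : [(L, r)] ∈ std M s n := by
  have h := H.mem_colP.2 ⟨h1, h2, h3⟩
  have := (H.weight h).1
  exact ⟨by simpa using h, by simp, by simp, by simp; omega⟩

lemma pair_std {L r L' r' n : ℕ} (h1 : 1 ≤ r) (h2 : r < 32 * q) (h3 : omega r ≤ L)
    (h1' : 1 ≤ r') (h2' : r' < 32 * q) (h3' : omega r' ≤ L')
    (hR : L' + omega r < L ∨ (L' + omega r = L ∧ lowv r ≤ r'))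
    (hn : n + r + r' = L * M + L' * M) : [(L, r), (L', r')] ∈ std M s n := by
  have h := H.mem_colP.2 ⟨h1, h2, h3⟩
  have h' := H.mem_colP.2 ⟨h1', h2', h3'⟩
  have := (H.weight h).1
  have := (H.weight h').1
  refine ⟨?_, ?_, by simp, by simp; omega⟩
  · intro a ha
    simp only [List.mem_cons, List.not_mem_nil, or_false] at ha
    rcases ha with rfl | rfl
    · exact h
    · exact h'
  · rw [List.isChain_cons_cons]
    exact ⟨hR, by simp⟩

lemma mem_D {L r e : ℕ} (h1 : 1 ≤ r) (h2 : r < 32 * q) (h3 : omega r ≤ L) (he : e + r = L * M) :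
    e ∈ Dset M s := by
  have h := H.mem_colP.2 ⟨h1, h2, h3⟩
  have h4 := (adm_stdW H.lt).1 _ h
  have := (H.weight h).1
  exact H.mem_D_of_std (by omega) (H.single_std h1 h2 h3 he)

lemma D1 {x e : ℕ} (hx : Pw x) (hxK : x ≤ 16 * q) (he : e + x = M) : e ∈ Dset M s :=
  H.mem_D (L := 1) hx.pos (by have := hx.pos; omega) hx.om.le (by omega)

lemma D2 {x e : ℕ} (hx : Pw x) (hxK : x ≤ 16 * q) (he : e + x = 2 * M) : e ∈ Dset M s :=
  H.mem_D (L := 2) hx.pos (by have := hx.pos; omega) (by rw [hx.om]; omega) he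

lemma Deta : η ∈ Dset M s := H.D1 H.p16 le_rfl (by have := H.hM; omega)

/-- the allowed parts below `2M - K/2` -/
lemma D_types {e : ℕ} (he : e ∈ Dset M s) (h : e + 8 * q < 2 * M) :
    (∃ c, Pw c ∧ c ≤ 16 * q ∧ e + c = M) ∨
    (∃ c, Pw c ∧ c ≤ 4 * q ∧ e + (8 * q + c) = 2 * M) ∨ e + 16 * q = 2 * M ∨
    (∃ c, Pw c ∧ c ≤ 8 * q ∧ e + (16 * q + c) = 2 * M) ∨
    (∃ c, Pw c ∧ c ≤ 4 * q ∧ e + (24 * q + c) = 3 * M) ∨ e + 32 * q = 3 * M := by
  have hM := H.hM
  have := H.h1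
  have := H.hq.pos
  rcases H.D_lev he (by omega) with ⟨t, h1, h2⟩ | ⟨t, h1, h2, h3, h4⟩ | ⟨t, h1, h2⟩ |
    ⟨t, h1, h2⟩ | ⟨t, h1, r, h2⟩
  · exact Or.inl ⟨t, h2.1, h2.2, h1⟩
  · right
    rcases om2 h2 h3 with ht | ⟨x, y, hx, hy, hxy, rfl⟩
    · have := H.p8.dbl ht
      have := H.p16.dbl ht
      exact Or.inr (Or.inl (by omega))
    · have := hx.dbl hy hxy
      have := H.p16.dbl hy
      have := hy.dbl H.p16
      have := hy.dbl H.p8
      rcases Nat.lt_or_ge y (16 * q) with c | c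
      · exact Or.inl ⟨x, hx, by omega, by omega⟩
      · exact Or.inr (Or.inr (Or.inl ⟨x, hx, by omega, by omega⟩))
  · right; right; right; right
    rcases h2 with ⟨h2, h3, h4⟩ | h2
    · left
      rcases om3 h2 h4 with ht | ⟨x, y, hx, hy, hxy, rfl⟩ | ⟨x, y, z, hx, hy, hz, hxy, hyz, rfl⟩
      · have := ht.dbl H.p32
        omega
      · have := hx.dbl hy hxy
        have := hy.dbl H.p32
        omega
      · have := hx.dbl hy hxy
        have := hy.dbl hz hyz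
        have := hz.dbl H.p32
        have := hz.dbl H.p16
        have := hy.dbl H.p8
        exact ⟨x, hx, by omega, by omega⟩
    · right; omega
  · rcases h2 with h2 | h2 | ⟨p, -, h2⟩ <;> omega
  · omega

lemma D_second {e : ℕ} (he : e ∈ Dset M s) : e = η ∨ 8 * q + η ≤ e := by
  have hM := H.hM
  have := H.h1
  rcases Nat.lt_or_ge (e + 8 * q) (2 * M) with h | h
  · rcases H.D_types he h with ⟨c, hc, h1, h2⟩ | ⟨c, hc, h1, h2⟩ | h1 | ⟨c, hc, h1, h2⟩ |
      ⟨c, hc, h1, h2⟩ | h1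
    · have := hc.dbl H.p16
      omega
    all_goals omega
  · omega

lemma D_ge {e : ℕ} (he : e ∈ Dset M s) : η ≤ e := by
  rcases H.D_second he with h | h <;> omega

variable {b : ℕ → ℕ} (hI : ∀ n, (setA M s n).ncard = (setB M s b n).ncard)
include hI

omit H in
/-- a pair is forbidden when a smaller second part gives a sum with `A ≤ 1` -/
lemma kil {e f f' m : ℕ} (hg : gap M b e f) (he : e ∈ Dset M s) (hf' : f' ∈ Dset M s)
    (hle : f' ≤ f) (hm : e + f' = m) (hA : (setA M s m).ncard ≤ 1) : False := by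
  have hg' : gap M b e f' := by unfold gap at hg ⊢; omega
  have h1 := pair_B he hf' hg' hm
  have h2 : m ∈ Dset M s := by
    refine ⟨by have := he.1; omega, Set.nonempty_of_ncard_ne_zero ?_⟩
    rw [hI]
    exact Set.ncard_ne_zero_of_mem h1 (setB_finite M s b m)
  exact kill (hI m) hA h2 he hf' hm hg'

lemma term {e f : ℕ} (hg : gap M b e f) (he : e ∈ Dset M s) (hf : f ∈ Dset M s) {m : ℕ}
    (hm : e + η = m) (hA : (setA M s m).ncard ≤ 1) : False :=
  kil hI hg he H.Deta (H.D_ge hf) hm hA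

end Mid

lemma gap_lt {M : ℕ} {b : ℕ → ℕ} (hM : 0 < M) (hb : ∀ j, 1 ≤ j → j ≤ M → 0 < b j) {e f : ℕ}
    (h : gap M b e f) : f < e := by
  have := hb _ (idx_pos hM e) (idx_le hM e)
  unfold gap at h
  omega

end Pool.Agent.P.MP_e9218d_nt
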