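import Pool.Agent.P.MP_e9218d_nt.Nec5A

namespace Pool.Agent.P.MP_e9218d_nt

lemma z1s {M q n : ℕ} (h : M ≤ n ∨ n + 16 * q < M) : ∀ t, n + t = M → ¬ P1 q t := by
  rintro t ht ⟨h1, h2⟩
  have := h1.pos
  omega

lemma z2s {M q n : ℕ} (h : 2 * M ≤ n ∨ n + 24 * q < 2 * M) : ∀ t, n + t = 2 * M → ¬ P2 q t := by
  rintro t ht ⟨h1, h2, h3⟩
  omega

lemma z3s {M q n : ℕ} (h : n + 32 * q < 3 * M) : ∀ t, n + t = 3 * M → ¬ P3 q t := by
  rintro t ht (h1 | h1) <;> omega

lemma z4s {M q n : ℕ} (h : n + 40 * q < 4 * M) : ∀ t, n + t = 4 * M → ¬ P4 q t := by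
  rintro t ht (h1 | h1 | ⟨p, -, h1⟩) <;> omega

lemma z5s {M q n : ℕ} (h : n + 44 * q < 5 * M) : ∀ t, n + t = 5 * M → ¬ P5 q t := by
  rintro t ht ⟨r, h1⟩
  omega

lemma card_le_two {α : Type*} {S : Set α} {a b : α} (h : ∀ l ∈ S, l = a ∨ l = b) :
    S.ncard ≤ 2 :=
  (Set.ncard_le_ncard (t := {a, b}) h (Set.toFinite _)).trans
    ((Set.ncard_insert_le _ _).trans (by simp))

lemma card_le_three {α : Type*} {S : Set α} {a b c : α} (h : ∀ l ∈ S, l = a ∨ l = b ∨ l = c) :
    S.ncard ≤ 3 :=
  (Set.ncard_le_ncard (t := {a, b, c}) h (Set.toFinite _)).trans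
    ((Set.ncard_insert_le _ _).trans (Nat.succ_le_succ
      ((Set.ncard_insert_le _ _).trans (by simp))))

lemma card_le_four {α : Type*} {S : Set α} {a b c d : α}
    (h : ∀ l ∈ S, l = a ∨ l = b ∨ l = c ∨ l = d) : S.ncard ≤ 4 :=
  (Set.ncard_le_ncard (t := {a, b, c, d}) h (Set.toFinite _)).trans
    ((Set.ncard_insert_le _ _).trans (Nat.succ_le_succ
      ((Set.ncard_insert_le _ _).trans (Nat.succ_le_succ
        ((Set.ncard_insert_le _ _).trans (by simp))))))

lemma card_le_five {α : Type*} {S : Set α} {a b c d e : α}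
    (h : ∀ l ∈ S, l = a ∨ l = b ∨ l = c ∨ l = d ∨ l = e) : S.ncard ≤ 5 :=
  (Set.ncard_le_ncard (t := {a, b, c, d, e}) h (Set.toFinite _)).trans
    ((Set.ncard_insert_le _ _).trans (Nat.succ_le_succ
      ((Set.ncard_insert_le _ _).trans (Nat.succ_le_succ
        ((Set.ncard_insert_le _ _).trans (Nat.succ_le_succ
          ((Set.ncard_insert_le _ _).trans (by simp))))))))

lemma length_le_card {α : Type*} {S : Set α} (hS : S.Finite) (L : List α) (hL : L.Nodup)
    (h : ∀ l ∈ L, l ∈ S) : L.length ≤ S.ncard := by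
  classical
  rw [← List.toFinset_card_of_nodup hL, ← Set.ncard_coe_finset]
  exact Set.ncard_le_ncard (fun l hl => h l (by simpa using hl)) hS

lemma setB_cases {M s n : ℕ} {b : ℕ → ℕ} {l : List ℕ} (hl : l ∈ setB M s b n) (h0 : 0 < n) :
    l = [n] ∨ (∃ e f, l = [e, f] ∧ e ∈ Dset M s ∧ f ∈ Dset M s ∧ gap M b e f ∧ e + f = n) ∨
    ∃ e f g, e ∈ Dset M s ∧ f ∈ Dset M s ∧ g ∈ Dset M s ∧ gap M b e f ∧ gap M b f g ∧
      e + f + g ≤ n ∧ (e + f + g = n ∨ ∃ g', g' ∈ Dset M s ∧ gap M b g g') := by
  obtain ⟨hP, hc, -, hs⟩ := hl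
  rw [List.map_id] at hs
  match l, hP, hc, hs with
  | [], _, _, hs => simp at hs; omega
  | [e], _, _, hs => left; simp at hs; rw [hs]
  | [e, f], hP, hc, hs =>
    rw [List.isChain_cons_cons] at hc
    simp only [List.sum_cons, List.sum_nil, add_zero] at hs
    exact Or.inr (Or.inl ⟨e, f, rfl, hP e (by simp), hP f (by simp), hc.1, hs⟩)
  | [e, f, g], hP, hc, hs =>
    rw [List.isChain_cons_cons, List.isChain_cons_cons] at hc
    simp only [List.sum_cons, List.sum_nil, add_zero] at hs
    exact Or.inr (Or.inr ⟨e, f, g, hP e (by simp), hP f (by simp), hP g (by simp), hc.1, hc.2.1,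
      by omega, Or.inl (by omega)⟩)
  | e :: f :: g :: g' :: rest, hP, hc, hs =>
    rw [List.isChain_cons_cons, List.isChain_cons_cons, List.isChain_cons_cons] at hc
    simp only [List.sum_cons] at hs
    exact Or.inr (Or.inr ⟨e, f, g, hP e (by simp), hP f (by simp), hP g (by simp), hc.1, hc.2.1,
      by omega, Or.inr ⟨g', hP g' (by simp), hc.2.2.1⟩⟩)

namespace Mid
variable {M s q η δ : ℕ} (H : Mid M s q η δ)
include H

lemma mpos : 0 < M := by have := H.hM; have := H.h1; omega

lemma om_K_sub {c : ℕ} (hc : Pw c) (h : c < 16 * q) : 2 ≤ omega (32 * q - c) := by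
  have := hc.pos
  have := H.p16.add1 (r := 16 * q - c) (t := 32 * q - c) (by omega) (by omega)
  have := omega_pos (n := 16 * q - c) (by omega)
  omega

variable {b : ℕ → ℕ} (hI : ∀ n, (setA M s n).ncard = (setB M s b n).ncard)
include hI

/-- nothing follows the part `2M - K` -/
lemma T2K {e g : ℕ} (he : e ∈ Dset M s) (h : e + 16 * q = 2 * M) (hg : g ∈ Dset M s) :
    ¬ gap M b e g := fun hgap => by
  have hM := H.hM
  have := H.hd
  have := H.h1
  have := H.dpos
  refine H.term hI hgap he hg rfl (H.A3 (by omega) (by omega) (z1s (by omega)) ?_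
    (fun t ht h => by omega) (z4s (by omega)) (z5s (by omega)))
  rintro t ht ⟨h1, h2, h3⟩
  have := weq (show t = δ by omega)
  have := H.hw
  omega

/-- nothing follows the part `2M - K - c` -/
lemma T2c {e g c : ℕ} (he : e ∈ Dset M s) (hc : Pw c) (hcK : c ≤ 8 * q)
    (h : e + (16 * q + c) = 2 * M) (hg : g ∈ Dset M s) : ¬ gap M b e g := fun hgap => by
  have hM := H.hM
  have := H.hd
  have := H.h1
  have := hc.pos
  refine H.term hI hgap he hg rfl ?_
  by_cases h1 : ∃ t, Pw t ∧ 2 * η + t = c
  · obtain ⟨t, ht, h1⟩ := h1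
    refine H.A1 (by omega) (by omega) ?_ (z3s (by omega)) (z4s (by omega)) (z5s (by omega))
    rintro u hu ⟨h2, h3, h4⟩
    have e1 := H.p16.add1 (r := η + t) (t := u) (by omega) (by omega)
    have h5 := om1 (r := η + t) (by omega) (by omega)
    have := ht.pos
    have := h5.dbl hc
    omega
  · refine H.A2 (by omega) (by omega) ?_ (z3s (by omega)) (z4s (by omega)) (z5s (by omega))
    rintro t ht ⟨h2, -⟩
    exact h1 ⟨t, h2, by omega⟩

/-- nothing follows the part `3M - 2K` -/
lemma T3K {e g : ℕ} (he : e ∈ Dset M s) (h : e + 32 * q = 3 * M) (hg : g ∈ Dset M s) :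
    ¬ gap M b e g := fun hgap => by
  have hM := H.hM
  have := H.hd
  have := H.h1
  refine H.term hI hgap he hg rfl (H.A2 (by omega) (by omega) (z1s (by omega)) ?_
    (z4s (by omega)) (z5s (by omega)))
  rintro t ht (⟨h1, h2, h3⟩ | h1)
  · have := H.p16.add1 (r := δ) (t := t) (by omega) (by omega)
    have := H.hw
    omega
  · omega

/-- a part of level one is last unless `η` plus a power is its class -/
lemma T1 {e g c : ℕ} (he : e ∈ Dset M s) (hc : Pw c) (hcK : c ≤ 8 * q) (h : e + c = M)
    (hg : g ∈ Dset M s) (hgap : gap M b e g) : ∃ t, Pw t ∧ η + t = c := by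
  by_contra h1
  have hM := H.hM
  have := H.h1
  have := hc.pos
  refine H.term hI hgap he hg rfl (H.A2 (by omega) (by omega) ?_ (z3s (by omega))
    (z4s (by omega)) (z5s (by omega)))
  rintro t ht ⟨h2, -⟩
  exact h1 ⟨t, h2, by omega⟩

variable (hb : ∀ j, 1 ≤ j → j ≤ M → 0 < b j)
include hb

/-- the family `η = P - y - z` -/
theorem famA {P y z : ℕ} (hP : Pw P) (hy : Pw y) (hz : Pw z) (hzy : z < y) (hPK : P ≤ 8 * q)
    (hη : η + y + z = P) : False := by
  have hM := H.hM
  have hd := H.hd
  have h1 := H.h1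
  have := hz.pos
  have hzy2 := hz.dbl hy hzy
  have hyP := hy.dbl hP (by omega)
  obtain ⟨n, hn⟩ : ∃ n, n + (16 * q + P) = 3 * M := ⟨3 * M - (16 * q + P), by omega⟩
  have o1 := H.p16.om
  have o2 := hP.om
  have o3 := om_two hP H.p16 (by omega)
  have o4 := om_two hz hy hzy
  have l1 := hP.low
  have a1 := H.single_std (L := 3) (r := 16 * q + P) (n := n) (by omega) (by omega) (by omega) hn
  have a2 := H.pair_std (L := 2) (r := P) (L' := 1) (r' := 16 * q) (n := n) (by omega) (by omega)
    (by omega) (by omega) (by omega) (by omega) (by omega) (by omega)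
  have a3 := H.single_std (L := 2) (r := y + z) (n := n) (by omega) (by omega) (by omega)
    (by omega)
  have hA := length_le_card (H.std_finite n) [[(3, 16 * q + P)], [(2, P), (1, 16 * q)],
    [(2, y + z)]] (by simp) (by simp [a1, a2, a3])
  have hB : (setB M s b n).ncard ≤ 2 := by
    refine card_le_two (a := [n]) (b := [2 * M - P, η]) (fun l hl => ?_)
    rcases setB_cases hl (by omega) with h | ⟨e, f, rfl, he, hf, hg, hs⟩ |
      ⟨e, f, g, he, hf, hg, hef, hfg, hs, -⟩
    · exact Or.inl h
    · right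
      have hlt := gap_lt H.mpos hb hg
      rcases H.D_types hf (by omega) with ⟨c, hc, h2, h3⟩ | ⟨c, hc, h2, h3⟩ | h3 |
        ⟨c, hc, h2, h3⟩ | ⟨c, hc, h2, h3⟩ | h3
      · have c1 := hc.dbl hy
        rcases Nat.eq_or_lt_of_le h2 with rfl | c2
        · rw [show e = 2 * M - P by omega, show f = η by omega]
        exfalso
        have c3 := hc.dbl H.p16 c2
        rcases Nat.eq_or_lt_of_le (show y ≤ c by omega) with rfl | c4
        · exact H.term hI hg he hf rfl (H.A2 (by omega) (by omega) (z1s (by omega))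
            (z3s (by omega)) (z4s (by omega)) (z5s (by omega)))
        · have c5 := hy.dbl hc c4
          refine H.term hI hg he hf rfl (H.A3 (by omega) (by omega) (z1s (by omega)) ?_ ?_
            (z4s (by omega)) (z5s (by omega)))
          · rintro t ht ⟨h4, h5, h6⟩
            have := hc.spl (hc.dsub H.p16 h2) (r := y + z) (t := t) (by omega) (by omega)
            have := omega_pos (n := 16 * q - c) (by omega)
            omega
          · intro t ht h4
            have := hc.spl (hc.dsub H.p32 (by omega)) (r := P) (t := t) (by omega) (by omega)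
            have := H.om_K_sub hc c2
            omega
      · omega
      · omega
      · exfalso
        have c1 := hc.dbl hP
        refine H.term hI hg he hf rfl (H.A2 (by omega) (by omega) (z1s (by omega)) ?_
          (z4s (by omega)) (z5s (by omega)))
        have c2 := hP.dbl hc
        rintro t ht (⟨h4, h5, h6⟩ | h4)
        · have := hc.spl (hc.dsub H.p32 (by omega)) (r := P + η) (t := t) (by omega) (by omega)
          have := H.om_K_sub hc (by omega)
          have := hP.om_add (r := η) (by omega)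
          have := omega_pos h1
          omega
        · omega
      · omega
      · omega
    · exfalso
      have hlt := gap_lt H.mpos hb hef
      have hlt' := gap_lt H.mpos hb hfg
      have hg1 := H.D_ge hg
      rcases H.D_types hf (by omega) with ⟨c, hc, h2, h3⟩ | ⟨c, hc, h2, h3⟩ | h3 |
        ⟨c, hc, h2, h3⟩ | ⟨c, hc, h2, h3⟩ | h3
      · have c3 := hc.dbl H.p16 (by omega)
        obtain ⟨t, ht, h4⟩ := H.T1 hI hf hc (by omega) h3 hg hfg
        have c4 := ht.dbl hc (by omega)
        rcases H.D_second hg with h5 | h5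
        · have := hc.dbl hP
          have := hP.dbl hc
          have := ht.om
          have := weq (show t = y + z by omega)
          omega
        · have := hc.dbl H.p8
          have := hP.dbl H.p8
          omega
      · omega
      · omega
      · exact H.T2c hI hf hc h2 h3 hg hfg
      · omega
      · omega
  have := hI n
  rw [H.card_eq] at this
  simp only [List.length_cons, List.length_nil] at hA
  omega

end Mid

end Pool.Agent.P.MP_e9218d_nt
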