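import Pool.Agent.P.MP_e9218d_nt.Nec5B

namespace Pool.Agent.P.MP_e9218d_nt

lemma om_sub_ge {c : ℕ} (hc : Pw c) : ∀ (k P : ℕ), Pw P → c * 2 ^ k ≤ P → k ≤ omega (P - c) := by
  intro k
  induction k with
  | zero => intro _ _ _; exact Nat.zero_le _
  | succ k ih =>
    intro P hP h
    have h1 := hc.pos
    have h2 : 1 ≤ 2 ^ k := Nat.one_le_two_pow
    have h3 : c ≤ c * 2 ^ k := Nat.le_mul_of_pos_right _ h2
    rw [pow_succ, ← mul_assoc] at h
    obtain ⟨Q, hQ, rfl⟩ := hP.half (by omega)
    have := hQ.add1 (r := Q - c) (t := 2 * Q - c) (by omega) (by omega)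
    have := ih Q hQ (by omega)
    omega

lemma Pw.sub2 {c P : ℕ} (hc : Pw c) (hP : Pw P) (h : 4 * c ≤ P) : 2 ≤ omega (P - c) :=
  om_sub_ge hc 2 P hP (by omega)
lemma Pw.sub3 {c P : ℕ} (hc : Pw c) (hP : Pw P) (h : 8 * c ≤ P) : 3 ≤ omega (P - c) :=
  om_sub_ge hc 3 P hP (by omega)
lemma Pw.sub4 {c P : ℕ} (hc : Pw c) (hP : Pw P) (h : 16 * c ≤ P) : 4 ≤ omega (P - c) :=
  om_sub_ge hc 4 P hP (by omega)

/-- `η` is not a difference of two powers -/
def NS (η : ℕ) : Prop := ∀ p r, Pw p → Pw r → η + p ≠ r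

lemma NS.dbl {η p r : ℕ} (h : NS η) (hp : Pw p) (hr : Pw r) : 2 * η + 2 * p ≠ r := by
  intro e
  have := hp.pos
  obtain ⟨t, ht, rfl⟩ := hr.half (by omega)
  exact h p t hp ht (by omega)

lemma NS.notPw {η r : ℕ} (h : NS η) (h1 : 1 ≤ η) (hr : Pw r) : 2 * η ≠ r := by
  intro e
  obtain ⟨t, ht, rfl⟩ := hr.half (by omega)
  exact h t (2 * t) ht ht.two_mul (by omega)

namespace Mid
variable {M s q η δ : ℕ} (H : Mid M s q η δ)
include H

lemma notD2M (hN : NS η) (hf : 3 ≤ omega η) : 2 * M ∉ Dset M s := by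
  intro he
  have hM := H.hM
  have := H.hd
  have := H.dpos
  rcases H.D_lev he (by omega) with ⟨t, h1, h2⟩ | ⟨t, h1, h2⟩ | ⟨t, h1, h2⟩ | ⟨t, h1, h2⟩ |
    ⟨t, h1, h2⟩
  · have := H.h1; omega
  · have := h2.1; omega
  · have := H.p16.add1 (r := η) (t := t) (by omega) (by omega)
    rcases h2 with h2 | h2 <;> omega
  · have := H.h1
    rcases h2 with h2 | h2 | ⟨p, hp, h2⟩
    · omega
    · omega
    · exact hN.notPw H.h1 hp (by omega)
  · exact z5s (by omega) t h1 h2

variable {b : ℕ → ℕ} (hI : ∀ n, (setA M s n).ncard = (setB M s b n).ncard)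
include hI

lemma F1 (hN : NS η) {e f c : ℕ} (hc : Pw c) (hcK : c ≤ 8 * q) (he : e + c = 2 * M)
    (hf : 2 * M ≤ f + 16 * q) : ¬ gap M b e f := by
  have hM := H.hM
  rw [gap_iff (r := c) 2 (by omega) (by omega) he]
  intro h
  obtain ⟨t, ht, h1⟩ := H.T1 hI (H.D1 (e := M - c) hc (by omega) (by omega)) hc hcK (by omega)
    H.Deta ((gap_iff (r := c) 1 (by omega) le_rfl (by omega) _).2 (by omega))
  exact hN t c ht hc h1

lemma two_bad {x y : ℕ} (hx : Pw x) (hy : Pw y) (hxy : x < y) (hyK : y ≤ 8 * q)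
    (g1 : bet M b x + x ≤ M + y) (g2 : bet M b y + y ≤ M + x)
    (z4 : ∀ t, t = M + (y + x) → ¬ P4 q t) (z5 : ∀ t, t = 2 * M + (y + x) → ¬ P5 q t) : False := by
  have hM := H.hM
  have hx1 := hx.pos
  have hd := hx.dbl hy hxy
  obtain ⟨n, hn⟩ : ∃ n, n + (y + x) = 3 * M := ⟨3 * M - (y + x), by omega⟩
  have hA := H.A3two hx hy hxy hyK hn (fun t ht => z4 t (by omega)) (fun t ht => z5 t (by omega))
  have o3 := om_two hx hy hxy
  have a1 := single_B b (H.mem_D (L := 3) (r := y + x) (e := n) (by omega) (by omega) (by omega) hn)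
  have a2 := pair_B (b := b) (n := n) (H.D2 (e := 2 * M - x) hx (by omega) (by omega))
    (H.D1 (e := M - y) hy (by omega) (by omega))
    ((gap_iff (r := x) 2 (by omega) (by omega) (by omega) _).2 (by omega)) (by omega)
  have a3 := pair_B (b := b) (n := n) (H.D2 (e := 2 * M - y) hy (by omega) (by omega))
    (H.D1 (e := M - x) hx (by omega) (by omega))
    ((gap_iff (r := y) 2 (by omega) (by omega) (by omega) _).2 (by omega)) (by omega)
  have h6 := length_le_card (setB_finite M s b n) [[n], [2 * M - x, M - y], [2 * M - y, M - x]]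
    (by simp; omega) (by simp [a1, a2, a3])
  have := hI n
  simp only [List.length_cons, List.length_nil] at h6
  omega

variable (hb : ∀ j, 1 ≤ j → j ≤ M → 0 < b j)
include hb

/-- the shape of the chains of weight `4M - K - S` -/
lemma B_shape (hN : NS η) {n S : ℕ} (hn : n + (16 * q + S) = 4 * M) (hS : 1 ≤ S) (h0 : 0 < n)
    (hT : ∀ c m, Pw c → c ≤ 4 * q → η + S < 2 * c → m + (8 * q + S) = 2 * M + c →
      (setA M s m).ncard ≤ 1)
    (hU : ∀ m, 2 * η + S < 16 * q → m + S = 2 * M → (setA M s m).ncard ≤ 1)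
    {l : List ℕ} (hl : l ∈ setB M s b n) :
    l = [n] ∨ ∃ e f, l = [e, f] ∧ e ∈ Dset M s ∧ f ∈ Dset M s ∧ gap M b e f ∧ e + f = n ∧ f < e ∧
      ((∃ c, Pw c ∧ c ≤ 16 * q ∧ f + c = M) ∨ (∃ c, Pw c ∧ c ≤ 4 * q ∧ f + (8 * q + c) = 2 * M) ∨
        f + 16 * q = 2 * M ∨ ∃ c, Pw c ∧ c ≤ 8 * q ∧ f + (16 * q + c) = 2 * M) := by
  have hM := H.hM
  have := H.h1
  rcases setB_cases hl h0 with h | ⟨e, f, rfl, he, hf, hg, hs⟩ |
    ⟨e, f, g, he, hf, hg, hef, hfg, hs, hs'⟩
  · exact Or.inl h
  · have hlt := gap_lt H.mpos hb hg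
    refine Or.inr ⟨e, f, rfl, he, hf, hg, hs, hlt, ?_⟩
    rcases H.D_types hf (by omega) with h | h | h | h | ⟨c, hc, h2, h3⟩ | h3
    · exact Or.inl h
    · exact Or.inr (Or.inl h)
    · exact Or.inr (Or.inr (Or.inl h))
    · exact Or.inr (Or.inr (Or.inr h))
    · exact (H.term hI hg he hf rfl (hT c _ hc h2 (by omega) (by omega))).elim
    · exact (H.term hI hg he hf rfl (hU _ (by omega) (by omega))).elim
  · exfalso
    have hlt := gap_lt H.mpos hb hef
    have hlt' := gap_lt H.mpos hb hfg
    have hg1 := H.D_ge hg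
    rcases H.D_types hf (by omega) with ⟨c, hc, h2, h3⟩ | ⟨c, hc, h2, h3⟩ | h3 |
      ⟨c, hc, h2, h3⟩ | ⟨c, hc, h2, h3⟩ | h3
    · have c3 := hc.dbl H.p16 (by omega)
      obtain ⟨t, ht, h4⟩ := H.T1 hI hf hc (by omega) h3 hg hfg
      exact hN t c ht hc h4
    · have h4 : g = η := by have := H.D_second hg; omega
      rcases hs' with h5 | ⟨g', h5, h6⟩
      · exact H.term hI hef he hf rfl (hT c _ hc h2 (by omega) (by omega))
      · have := gap_lt H.mpos hb h6
        have := H.D_ge h5
        omega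
    · exact H.T2K hI hf h3 hg hfg
    · exact H.T2c hI hf hc h2 h3 hg hfg
    · refine H.term hI hfg hf hg rfl (H.A2 (by omega) (by omega) (z1s (by omega)) ?_
        (z4s (by have := hc.pos; omega)) (z5s (by omega)))
      rintro t ht (⟨h4, h5, h6⟩ | h4)
      · have e1 := H.p16.add1 (r := 8 * q + (c - η)) (t := t) (by omega) (by omega)
        have e2 := H.p8.om_add (r := c - η) (by omega)
        exact hN (c - η) c (om1 (by omega) (by omega)) hc (by omega)
      · omega
    · exact H.T3K hI hf h3 hg hfg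

/-- the chains of weight `4M - K - 2x` -/
lemma bad_enum (hN : NS η) {x n : ℕ} (hx : Pw x) (hxK : x ≤ 4 * q) (hxη : x ≤ η)
    (ha : 3 ≤ omega (η + 2 * x)) (hc1 : 4 ≤ omega (δ + x)) (hc2 : 4 ≤ omega (δ + 2 * x))
    (he' : ∀ t, 2 * x < 4 * q → t + 4 * q = δ + 2 * x → 1 ≤ t → 4 ≤ omega t) (hf' : 3 ≤ omega η)
    (hg' : ∀ e, 2 * x < 8 * q → e + 2 * x = 2 * M + 8 * q → e ∉ Dset M s)
    (hh : ∀ y e f, x = 2 * y → e + 3 * y = 2 * M → f + (16 * q + y) = 2 * M → e ∈ Dset M s →
      ¬ gap M b e f)
    (hn : n + (16 * q + 2 * x) = 4 * M) {l : List ℕ} (hl : l ∈ setB M s b n) :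
    l = [n] ∨ l = [3 * M - 16 * q, M - 2 * x] ∨ l = [3 * M - 2 * x, η] ∨
      l = [3 * M - (8 * q + 2 * x), M - 8 * q] ∨
      (l = [2 * M - x, 2 * M - (16 * q + x)] ∧ bet M b x ≤ 16 * q) := by
  have hM := H.hM
  have hd := H.hd
  have h1 := H.h1
  have hd1 := H.dpos
  have hx1 := hx.pos
  have hx2 := hx.two_mul
  have hsh := H.B_shape hI hb hN hn (by omega) (by omega) ?_ ?_ hl
  rotate_left
  · intro c m hc h2 h3 h4
    refine H.A2 (by omega) (by omega) (z1s (by omega)) ?_ ?_ (z5s (by omega))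
    · rintro t ht (⟨h5, h6, h7⟩ | h5)
      · have e0 := wle hc (t := t) (N := 16 * q + (8 * q + (η + 2 * x))) (by omega)
        have e1 := H.p16.om_add (r := 8 * q + (η + 2 * x)) (by omega)
        have e2 := H.p8.om_add (r := η + 2 * x) (by omega)
        omega
      · omega
    · rintro t ht (h5 | h5 | ⟨p, hp, h5, h6⟩)
      · omega
      · omega
      · have := hp.dbl H.p8
        exact hN.dbl hx hc (by omega)
  · intro m h2 h3
    refine H.A2 (by omega) (by omega) (z1s (by omega)) ?_ ?_ (z5s (by omega))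
    · rintro t ht (⟨h5, h6, h7⟩ | h5)
      · have e1 := H.p16.add1 (r := η + 2 * x) (t := t) (by omega) (by omega)
        omega
      · omega
    · rintro t ht (h5 | h5 | ⟨p, hp, h5, h6⟩)
      · omega
      · omega
      · exact hN.dbl hx hp (by omega)
  rcases hsh with h | ⟨e, f, rfl, he, hf, hg, hs, hlt, h⟩
  · exact Or.inl h
  right
  rcases h with ⟨c, hc, h2, h3⟩ | ⟨c, hc, h2, h3⟩ | h3 | ⟨c, hc, h2, h3⟩
  · have hc0 := hc.pos
    by_cases c1 : c = 16 * q
    · right; left
      rw [show e = 3 * M - 2 * x by omega, show f = η by omega]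
    by_cases c2 : c = 8 * q
    · right; right; left
      rw [show e = 3 * M - (8 * q + 2 * x) by omega, show f = M - 8 * q by omega]
    by_cases c3 : c = 2 * x
    · left
      rw [show e = 3 * M - 16 * q by omega, show f = M - 2 * x by omega]
    exfalso
    have c4 : c ≤ 4 * q := by
      have := hc.dbl H.p16
      have := hc.dbl H.p8
      omega
    refine H.term hI hg he hf rfl ?_
    by_cases c5 : c = x
    · refine H.A4 (by omega) (by omega) (z1s (by omega)) (z2s (by omega)) ?_
        (fun t ht h => by omega) (z5s (by omega))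
      rintro t ht (⟨h5, h6, h7⟩ | h5)
      · have := weq (show t = δ + x by omega)
        omega
      · omega
    by_cases c6 : c = 4 * q ∧ 2 * x < 4 * q
    · refine H.A4 (by omega) (by omega) (z1s (by omega)) (z2s (by omega)) ?_ ?_ (z5s (by omega))
      · rintro t ht (⟨h5, h6, h7⟩ | h5)
        · have := he' t c6.2 (by omega) h5
          omega
        · omega
      · intro t ht _
        have := om_four hx2 H.p4 H.p8 H.p16 c6.2 (by omega) (by omega)
        have := weq (show t = 16 * q + (8 * q + (4 * q + 2 * x)) by omega)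
        omega
    · refine H.A3 (by omega) (by omega) (z1s (by omega)) (z2s (by omega)) ?_ ?_ (z5s (by omega))
      · intro t ht _
        have := wle hc (t := t) (N := δ + 2 * x) (by omega)
        omega
      · rintro t ht (⟨h5, h6, h7⟩ | h5 | ⟨p, hp, h5, h6⟩)
        · have := hc.dbl H.p4
          have := hc.spl (hc.dsub H.p32 (by omega)) (r := 2 * x) (t := t) (by omega) (by omega)
          have := hc.sub4 H.p32 (by omega)
          have := hx2.om
          omega
        · omega
        · have := hp.pos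
          have := hc.dbl hx2
          have := hp.dbl hx2
          have := hc.dbl hx
          omega
  · exfalso
    have c1 := hx.dbl hc (by omega)
    rcases Nat.eq_or_lt_of_le c1 with c2 | c2
    · exact H.F1 hI hN H.p8 le_rfl (by omega) (by omega) hg
    have c3 := hx2.dbl hc c2
    rcases Nat.eq_or_lt_of_le h2 with c4 | c4
    · refine kil hI hg he (H.D1 (e := M - 8 * q) H.p8 (by omega) (by omega)) (by omega) rfl
        (H.A3 (by omega) (by omega) (z1s (by omega)) (z2s (by omega)) ?_ ?_ (z5s (by omega)))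
      · intro t ht _
        have := om_three hx2 H.p4 H.p8 (by omega) (by omega)
        have := weq (show t = 8 * q + (4 * q + 2 * x) by omega)
        omega
      · rintro t ht (⟨h5, h6, h7⟩ | h5 | ⟨p, hp, h5, h6⟩)
        · have e1 := H.p16.add1 (r := 8 * q + (4 * q + (η + 2 * x))) (t := t) (by omega) (by omega)
          have e2 := H.p8.om_add (r := 4 * q + (η + 2 * x)) (by omega)
          have e3 := H.p4.om_add (r := η + 2 * x) (by omega)
          omega
        · exact hN _ _ hx2 H.p4 (by omega)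
        · have := wle hp (t := 4 * q) (N := η + 2 * x) (by omega)
          have := H.p4.om
          omega
    · have c5 := hc.dbl H.p4 c4
      refine H.term hI hg he hf rfl (H.A2 (by omega) (by omega) (z1s (by omega)) ?_ ?_
        (z5s (by omega)))
      · rintro t ht (⟨h5, h6, h7⟩ | h5)
        · have e1 := H.p16.add1 (r := 8 * q - c + 2 * x) (t := t) (by omega) (by omega)
          have e2 := hc.split (hc.dsub H.p8 (by omega)) c2
          have := hc.sub2 H.p8 (by omega)
          have := hx2.om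
          omega
        · omega
      · rintro t ht (h5 | h5 | ⟨p, hp, h5, h6⟩)
        · omega
        · omega
        · have := hp.dbl H.p8
          exact hN _ _ hx2 hc (by omega)
  · exact absurd hg (H.F1 hI hN hx2 (by omega) (by omega) (by omega))
  · have hc0 := hc.pos
    by_cases c1 : c = x
    · right; right; right
      rw [gap_iff (r := x) 2 (by omega) (by omega) (by omega)] at hg
      exact ⟨by rw [show e = 2 * M - x by omega, show f = 2 * M - (16 * q + x) by omega], by omega⟩
    exfalso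
    by_cases c2 : c = 2 * x
    · exact H.notD2M hN hf' (by rwa [show 2 * M = e by omega])
    by_cases c3 : c = 8 * q
    · exact hg' e (by omega) (by omega) he
    by_cases c4 : x = 2 * c
    · exact hh c e f c4 (by omega) h3 he hg
    have c5 := hc.dbl H.p8 (by omega)
    refine H.term hI hg he hf rfl ?_
    have z4 : ∀ t, e + η + t = 4 * M → ¬ P4 q t := by
      rintro t ht (⟨h5, h6, h7⟩ | h5 | ⟨p, hp, h5, h6⟩)
      · have := hc.spl (hc.dsub H.p32 (by omega)) (r := η + 2 * x) (t := t) (by omega) (by omega)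
        have := hc.sub2 H.p32 (by omega)
        omega
      · exact hN _ _ hx2 hc (by omega)
      · have := wle hp (t := c) (N := η + 2 * x) (by omega)
        have := hc.om
        omega
    rcases Nat.lt_or_ge c x with c6 | c6
    · have c7 := hc.dbl hx c6
      have c8 := hc.two_mul.dbl hx (by omega)
      refine H.A2 (by omega) (by omega) (z1s (by omega)) ?_ z4 (z5s (by omega))
      rintro t ht (⟨h5, h6, h7⟩ | h5)
      · have e1 := H.p16.add1 (r := 2 * x - c) (t := t) (by omega) (by omega)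
        have := hc.sub3 hx2 (by omega)
        omega
      · omega
    · have c7 := hx.dbl hc (by omega)
      refine H.A3 (by omega) (by omega) (z1s (by omega)) (z2s (by omega)) ?_ z4 (z5s (by omega))
      intro t ht _
      have := hc.spl (hc.dsub H.p16 (by omega)) (r := 2 * x) (t := t) (by omega) (by omega)
      have := hc.sub2 H.p16 (by omega)
      have := hx2.om
      omega

end Mid

end Pool.Agent.P.MP_e9218d_nt
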