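import Pool.Agent.P.MP_e9218d_nt.Nec5C

namespace Pool.Agent.P.MP_e9218d_nt

lemma Pw.top {x r : ℕ} (hx : Pw x) (hr : r < 2 * x) : omega r ≤ omega (r + x) := by
  rcases Nat.lt_or_ge r x with h | h
  · have := hx.add1 h (add_comm r x)
    omega
  · have := hx.add1 (r := r - x) (t := r) (by omega) (by omega)
    have := hx.two_mul.add1 (r := r - x) (t := r + x) (by omega) (by omega)
    omega

lemma Pw.m4 {x : ℕ} (hx : Pw x) : Pw (4 * x) := by
  have := hx.two_mul.two_mul; rwa [← mul_assoc] at this
lemma Pw.m8 {x : ℕ} (hx : Pw x) : Pw (8 * x) := by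
  have := hx.m4.two_mul; rwa [← mul_assoc] at this
lemma Pw.m16 {x : ℕ} (hx : Pw x) : Pw (16 * x) := by
  have := hx.m8.two_mul; rwa [← mul_assoc] at this
lemma Pw.m32 {x : ℕ} (hx : Pw x) : Pw (32 * x) := by
  have := hx.m16.two_mul; rwa [← mul_assoc] at this

namespace Mid
variable {M s q η δ : ℕ} (H : Mid M s q η δ)
include H

lemma notDg (hN : NS η) {x : ℕ} (hx : Pw x) (ha : 3 ≤ omega (η + 2 * x))
    (g1 : 8 * q ≤ η + 2 * x → 4 ≤ omega (η + 2 * x)) (g2 : 3 ≤ omega (η + x))
    (g3 : ∀ p, Pw p → 3 * η + 2 * x ≠ p) :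
    ∀ e, 2 * x < 8 * q → e + 2 * x = 2 * M + 8 * q → e ∉ Dset M s := by
  intro e h0 h he
  have hM := H.hM
  have := H.hd
  have := H.dpos
  have := H.h1
  have := hx.two_mul.dbl H.p8 h0
  have e0 := omega_two_mul (η + x)
  rcases H.D_lev he (by omega) with ⟨t, h1, h2⟩ | ⟨t, h1, h2⟩ | ⟨t, h1, h2⟩ | ⟨t, h1, h2⟩ |
    ⟨t, h1, r, h2, h3, h4, h5⟩
  · omega
  · omega
  · rcases h2 with ⟨h2, h3, h4⟩ | h2
    · rcases Nat.lt_or_ge (η + 2 * x) (8 * q) with c | c
      · have := H.p8.add1 c (t := t) (by omega)
        omega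
      · have := H.p8.top (r := η + 2 * x - 8 * q) (by omega)
        have := g1 c
        rcases Nat.lt_or_ge (η + 2 * x) (16 * q) with c1 | c1
        · have := H.p8.add1 (r := η + 2 * x - 8 * q) (t := η + 2 * x) (by omega) (by omega)
          have := H.p16.add1 (r := η + 2 * x - 8 * q) (t := t) (by omega) (by omega)
          omega
        · have := H.p16.add1 (r := η + 2 * x - 16 * q) (t := η + 2 * x) (by omega) (by omega)
          have := H.p16.add1 (r := 8 * q + (η + 2 * x - 16 * q)) (t := t) (by omega) (by omega)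
          have := H.p8.om_add (r := η + 2 * x - 16 * q) (by omega)
          omega
    · omega
  · rcases h2 with ⟨h2, h3, h4⟩ | h2 | ⟨p, hp, h2, h3⟩
    · have := H.p16.add1 (r := 8 * q + 2 * (η + x)) (t := t) (by omega) (by omega)
      have := H.p8.om_add (r := 2 * (η + x)) (by omega)
      omega
    · exact hN.dbl hx H.p8 (by omega)
    · have := wle hp (t := 8 * q) (N := 2 * (η + x)) (by omega)
      have := H.p8.om
      omega
  · have := H.p8.add1 (r := 3 * η + 2 * x) (t := r) (by omega) (by omega)
    exact g3 _ (om1 (by omega) (by omega)) rfl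

variable {b : ℕ → ℕ} (hI : ∀ n, (setA M s n).ncard = (setB M s b n).ncard)
include hI

lemma hh_low {x : ℕ} (hx : Pw x) (hxK : x ≤ 4 * q) (hxη : 3 * x ≤ 2 * η)
    (ha : 3 ≤ omega (η + 2 * x)) :
    ∀ y e f, x = 2 * y → e + 3 * y = 2 * M → f + (16 * q + y) = 2 * M → e ∈ Dset M s →
      ¬ gap M b e f := by
  intro y e f hy h1 h2 he hg
  have hM := H.hM
  have := hx.pos
  obtain ⟨y', hy', rfl⟩ := hx.half (by omega)
  obtain rfl : y' = y := by omega
  refine kil hI hg he H.Deta (by omega) rfl (H.A3 (by omega) (by omega) (z1s (by omega))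
    (z2s (by omega)) ?_ ?_ (z5s (by omega)))
  · intro t ht _
    have := om_three hy' hx H.p16 (by omega) (by omega)
    have := weq (show t = 16 * q + (2 * y' + y') by omega)
    omega
  · rintro t ht (h5 | h5 | ⟨p, hp, h5, h6⟩)
    · omega
    · omega
    · have := wle hy' (t := p) (N := η + 2 * (2 * y')) (by omega)
      have := hp.om
      omega

lemma hh_top {x γ : ℕ} (hx : Pw x) (hxK : x ≤ 4 * q) (hγ : η + γ = 2 * x) (hγx : γ < x)
    (ha : 3 ≤ omega γ) :
    ∀ y e f, x = 2 * y → e + 3 * y = 2 * M → f + (16 * q + y) = 2 * M → e ∈ Dset M s →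
      ¬ gap M b e f := by
  intro y e f hy h1 h2 he hg
  have hM := H.hM
  have := hx.pos
  obtain ⟨y', hy', rfl⟩ := hx.half (by omega)
  obtain rfl : y' = y := by omega
  have hnp : ∀ p, Pw p → p + γ ≠ 3 * y' := by
    intro p hp h
    have := hy'.dbl hp
    have := hx.dbl hp
    have := hy'.om
    have := weq (show γ = y' by omega)
    omega
  refine kil hI hg he (H.D1 (e := M - 8 * q) H.p8 (by omega) (by omega)) (by omega) rfl
    (H.A3 (by omega) (by omega) (z1s (by omega)) (z2s (by omega)) ?_ ?_ ?_)
  · intro t ht _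
    have := om_three hy' hx H.p8 (by omega) (by omega)
    have := weq (show t = 8 * q + (2 * y' + y') by omega)
    omega
  · have := hx.dbl H.p4
    rintro t ht (⟨h5, h6, h7⟩ | h5 | ⟨p, hp, h5, h6⟩)
    · have := H.p16.add1 (r := 8 * q + (4 * y' + (3 * y' - γ))) (t := t) (by omega) (by omega)
      have := H.p8.om_add (r := 4 * y' + (3 * y' - γ)) (by omega)
      have := hy'.m4.om_add (r := 3 * y' - γ) (by omega)
      exact hnp (3 * y' - γ) (om1 (by omega) (by omega)) (by omega)
    · omega
    · exact hnp p hp (by omega)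
  · rintro t ht ⟨r, h2, h3, h4, h5⟩
    have := H.p8.add1 (r := 2 * η + 3 * y') (t := r) (by omega) (by omega)
    have hp := om1 (r := 2 * η + 3 * y') (by omega) (by omega)
    have := hy'.m4.dbl hp
    have := hy'.m8.dbl hp
    have := omega_two_mul γ
    have := om_two hy' hx (by omega)
    have := weq (show 2 * γ = 2 * y' + y' by omega)
    omega

variable (hb : ∀ j, 1 ≤ j → j ≤ M → 0 < b j)
include hb

/-- the class `x` needs a gap at most `K` -/
lemma bad (hN : NS η) {x : ℕ} (hx : Pw x) (hxK : x ≤ 4 * q) (hxη : x ≤ η)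
    (ha : 3 ≤ omega (η + 2 * x)) (hc1 : 4 ≤ omega (δ + x)) (hc2 : 4 ≤ omega (δ + 2 * x))
    (he' : ∀ t, 2 * x < 4 * q → t + 4 * q = δ + 2 * x → 1 ≤ t → 4 ≤ omega t) (hf' : 3 ≤ omega η)
    (hg' : ∀ e, 2 * x < 8 * q → e + 2 * x = 2 * M + 8 * q → e ∉ Dset M s)
    (hh : ∀ y e f, x = 2 * y → e + 3 * y = 2 * M → f + (16 * q + y) = 2 * M → e ∈ Dset M s →
      ¬ gap M b e f) :
    bet M b x ≤ 16 * q ∧ ∀ γ, 1 ≤ γ → η + γ = 2 * x → 4 ≤ omega γ := by
  have hM := H.hM
  have hx1 := hx.pos
  have hx2 := hx.two_mul
  obtain ⟨n, hn⟩ : ∃ n, n + (16 * q + 2 * x) = 4 * M := ⟨4 * M - (16 * q + 2 * x), by omega⟩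
  have hB := fun l => H.bad_enum hI hb hN hx hxK hxη ha hc1 hc2 he' hf' hg' hh hn (l := l)
  have o1 := H.p16.om
  have o2 := hx.om
  have o3 := hx2.om
  have o4 := H.p8.om
  have o5 := om_two hx H.p16 (by omega)
  have o6 := om_two hx2 H.p16 (by omega)
  have l1 := H.p16.low_add hx1 (by omega)
  have l2 := hx.low
  have a1 := H.single_std (L := 4) (r := 16 * q + 2 * x) (n := n) (by omega) (by omega) (by omega)
    (by omega)
  have a2 := H.pair_std (L := 3) (r := 16 * q) (L' := 1) (r' := 2 * x) (n := n) (by omega)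
    (by omega) (by omega) (by omega) (by omega) (by omega) (by omega) (by omega)
  have a3 := H.pair_std (L := 3) (r := 2 * x) (L' := 1) (r' := 16 * q) (n := n) (by omega)
    (by omega) (by omega) (by omega) (by omega) (by omega) (by omega) (by omega)
  have a4 := H.pair_std (L := 3) (r := 16 * q + x) (L' := 1) (r' := x) (n := n) (by omega)
    (by omega) (by omega) (by omega) (by omega) (by omega) (by omega) (by omega)
  have hAB := hI n
  rw [H.card_eq] at hAB
  rcases Nat.lt_or_ge (2 * x) (8 * q) with c | c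
  · have o7 := om_two hx2 H.p8 c
    have l3 := H.p8.low_add (r := 2 * x) (by omega) c
    have l4 := hx2.low
    have a5 := H.pair_std (L := 3) (r := 8 * q + 2 * x) (L' := 1) (r' := 8 * q) (n := n) (by omega)
      (by omega) (by omega) (by omega) (by omega) (by omega) (by omega) (by omega)
    constructor
    · by_contra hc
      have h5 := length_le_card (H.std_finite n) [[(4, 16 * q + 2 * x)], [(3, 16 * q), (1, 2 * x)],
        [(3, 2 * x), (1, 16 * q)], [(3, 16 * q + x), (1, x)], [(3, 8 * q + 2 * x), (1, 8 * q)]]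
        (by simp; omega) (by simp [a1, a2, a3, a4, a5])
      have h6 := card_le_four (S := setB M s b n) (fun l hl => by
        rcases hB l hl with h | h | h | h | h
        · exact Or.inl h
        · exact Or.inr (Or.inl h)
        · exact Or.inr (Or.inr (Or.inl h))
        · exact Or.inr (Or.inr (Or.inr h))
        · exact absurd h.2 hc)
      simp only [List.length_cons, List.length_nil] at h5
      omega
    · intro γ h1 h2
      by_contra hc
      have a6 := H.single_std (L := 3) (r := γ) (n := n) h1 (by omega) (by omega) (by omega)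
      have h5 := length_le_card (H.std_finite n) [[(3, γ)], [(4, 16 * q + 2 * x)],
        [(3, 16 * q), (1, 2 * x)],
        [(3, 2 * x), (1, 16 * q)], [(3, 16 * q + x), (1, x)], [(3, 8 * q + 2 * x), (1, 8 * q)]]
        (by simp; omega) (by simp [a1, a2, a3, a4, a5, a6])
      have h6 := card_le_five (S := setB M s b n) (fun l hl => by
        rcases hB l hl with h | h | h | h | h
        · exact Or.inl h
        · exact Or.inr (Or.inl h)
        · exact Or.inr (Or.inr (Or.inl h))
        · exact Or.inr (Or.inr (Or.inr (Or.inl h)))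
        · exact Or.inr (Or.inr (Or.inr (Or.inr h.1))))
      simp only [List.length_cons, List.length_nil] at h5
      omega
  · have hB' : ∀ l ∈ setB M s b n, l = [n] ∨ l = [3 * M - 16 * q, M - 2 * x] ∨
        l = [3 * M - 2 * x, η] ∨ (l = [2 * M - x, 2 * M - (16 * q + x)] ∧ bet M b x ≤ 16 * q) := by
      intro l hl
      rcases hB l hl with h | h | h | h | h
      · exact Or.inl h
      · exact Or.inr (Or.inl h)
      · exact Or.inr (Or.inr (Or.inl h))
      · refine Or.inr (Or.inl ?_)
        rw [h, show 8 * q + 2 * x = 16 * q by omega, show 8 * q = 2 * x by omega]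
      · exact Or.inr (Or.inr (Or.inr h))
    constructor
    · by_contra hc
      have h5 := length_le_card (H.std_finite n) [[(4, 16 * q + 2 * x)], [(3, 16 * q), (1, 2 * x)],
        [(3, 2 * x), (1, 16 * q)], [(3, 16 * q + x), (1, x)]]
        (by simp; omega) (by simp [a1, a2, a3, a4])
      have h6 := card_le_three (S := setB M s b n) (fun l hl => by
        rcases hB' l hl with h | h | h | h
        · exact Or.inl h
        · exact Or.inr (Or.inl h)
        · exact Or.inr (Or.inr h)
        · exact absurd h.2 hc)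
      simp only [List.length_cons, List.length_nil] at h5
      omega
    · intro γ h1 h2
      by_contra hc
      have a6 := H.single_std (L := 3) (r := γ) (n := n) h1 (by omega) (by omega) (by omega)
      have h5 := length_le_card (H.std_finite n) [[(3, γ)], [(4, 16 * q + 2 * x)],
        [(3, 16 * q), (1, 2 * x)], [(3, 2 * x), (1, 16 * q)], [(3, 16 * q + x), (1, x)]]
        (by simp; omega) (by simp [a1, a2, a3, a4, a6])
      have h6 := card_le_four (S := setB M s b n) (fun l hl => by
        rcases hB' l hl with h | h | h | h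
        · exact Or.inl h
        · exact Or.inr (Or.inl h)
        · exact Or.inr (Or.inr (Or.inl h))
        · exact Or.inr (Or.inr (Or.inr h.1)))
      simp only [List.length_cons, List.length_nil] at h5
      omega

lemma bad_top (hN : NS η) {X ρ γ : ℕ} (hX : Pw X) (hXK : X ≤ 4 * q) (hη : η = X + ρ)
    (hγ : ρ + γ = X) (hρ : 2 ≤ omega ρ) (hγ3 : 3 ≤ omega γ) :
    bet M b X ≤ 16 * q ∧ 4 ≤ omega γ := by
  have hd := H.hd
  have hρ1 : 1 ≤ ρ := by
    by_contra h
    rw [show ρ = 0 by omega, omega_zero] at hρ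
    omega
  have hγ1 : 1 ≤ γ := by
    by_contra h
    rw [show γ = 0 by omega, omega_zero] at hγ3
    omega
  have e1 := hX.add1 (r := ρ) (t := η) (by omega) hη
  have e2 := hX.two_mul.add1 (r := η) (t := η + 2 * X) (by omega) (by omega)
  have e3 := hX.spl (hX.dsub H.p16 (by omega)) (r := γ) (t := δ + X) (by omega) (by omega)
  have e4 := omega_pos (n := 16 * q - X) (by omega)
  have e5 := H.p16.add1 (r := γ) (t := δ + 2 * X) (by omega) (by omega)
  have e6 := hX.two_mul.add1 (r := ρ) (t := η + X) (by omega) (by omega)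
  have := H.bad hI hb hN hX hXK (by omega) (by omega) (by omega) (by omega) ?_ (by omega)
    (fun e h => H.notDg hN hX (by omega) (by have := hX.two_mul.dbl H.p8 h; omega) (by omega)
      (fun p hp h => by have := hX.m4.dbl hp; omega) e h)
    (H.hh_top hI hX hXK (γ := γ) (by omega) (by omega) hγ3)
  · exact ⟨this.1, this.2 γ hγ1 (by omega)⟩
  · intro t h1 h2 h3
    have := H.p8.add1 (r := 4 * q + γ) (t := t) (by omega) (by omega)
    have := H.p4.om_add (r := γ) (by omega)
    omega

lemma case1_core (hN : NS η) {X ρ γ x : ℕ} (hX : Pw X) (hXK : X ≤ 4 * q) (hη : η = X + ρ)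
    (hγ : ρ + γ = X) (hρ1 : 1 ≤ ρ) (hγ1 : 1 ≤ γ) (hf : 3 ≤ omega η) (bX : bet M b X ≤ 16 * q)
    (hx : Pw x) (hxX : 2 * x ≤ X)
    (k1 : 3 ≤ omega (ρ + x)) (k2 : 4 ≤ omega (η + 2 * x)) (k3 : 3 ≤ omega (γ + x))
    (k4 : 4 ≤ omega (γ + 2 * x)) (k5 : 3 ≤ omega (3 * X + 2 * ρ + x))
    (k6 : ∀ p, Pw p → 3 * η + 2 * x ≠ p) : False := by
  have hd := H.hd
  have hM := H.hM
  have hx1 := hx.pos
  have hX2 := hX.two_mul
  have e1 := hX2.spl (hX2.dsub H.p16 (by omega)) (r := γ + x) (t := δ + x) (by omega) (by omega)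
  have e2 := hX2.spl (hX2.dsub H.p16 (by omega)) (r := γ + 2 * x) (t := δ + 2 * x) (by omega)
    (by omega)
  have e3 := omega_pos (n := 16 * q - 2 * X) (by omega)
  have e4 := hX.top (r := ρ + x) (by omega)
  have e5 := weq (show ρ + x + X = η + x by omega)
  have bx := H.bad hI hb hN hx (by omega) (by omega) (by omega) (by omega) (by omega) ?_ hf
    (H.notDg hN hx (by omega) (fun _ => k2) (by omega) k6)
    (H.hh_low hI hx (by omega) (by omega) (by omega))
  · refine H.two_bad hI hx hX (by omega) (by omega) (by omega) (by omega) ?_ ?_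
    · rintro t ht (⟨h5, h6, h7⟩ | h5 | ⟨p, hp, h5, h6⟩)
      · have := H.p16.add1 (r := 2 * X + (ρ + x)) (t := t) (by omega) (by omega)
        have := hX2.om_add (r := ρ + x) (by omega)
        omega
      · omega
      · omega
    · rintro t ht ⟨r, h2, h3, h4, h5⟩
      have := weq (show r = 3 * X + 2 * ρ + x by omega)
      omega
  · intro t h1 h2 h3
    rcases Nat.eq_or_lt_of_le hXK with c | c
    · have := H.p4.top (r := γ + 2 * x) (by omega)
      have := weq (show t = γ + 2 * x + 4 * q by omega)
      omega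
    · have := hX.dbl H.p4 c
      have h4 : 2 * X ∣ 12 * q - 2 * X :=
        Nat.dvd_sub ((hX2.dvd H.p4 this).trans ⟨3, by ring⟩) dvd_rfl
      have := hX2.spl h4 (r := γ + 2 * x) (t := t) (by omega) (by omega)
      omega

/-- the range `η < K/2` with at least three binary ones -/
theorem case1 (hN : NS η) (hlt : η < 8 * q) (hf : 3 ≤ omega η) : False := by
  obtain ⟨X, ρ, hX, hρX, hη, ho⟩ := top_split H.h1
  have hXK := hX.dbl H.p8 (by omega)
  obtain ⟨γ, hγ⟩ : ∃ γ, ρ + γ = X := ⟨X - ρ, by omega⟩
  have hρ1 : 1 ≤ ρ := by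
    by_contra h
    rw [show ρ = 0 by omega, omega_zero] at ho
    omega
  have hγ3 : 3 ≤ omega γ := by
    by_contra hc
    rcases om2 (r := γ) (by omega) (by omega) with h | ⟨z, y, hz, hy, hzy, h⟩
    · exact hN _ _ h hX.two_mul (by omega)
    · exact H.famA hI hb hX.two_mul hy hz hzy (by omega) (by omega)
  obtain ⟨bX, hγ4⟩ := H.bad_top hI hb hN hX (by omega) hη hγ (by omega) hγ3
  have core := fun x => H.case1_core hI hb hN (x := x) hX (by omega) hη hγ hρ1 (by omega) hf bX
  rcases Nat.lt_or_ge 2 (omega ρ) with c | c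
  · obtain ⟨x, hx, rfl⟩ := hX.half (by omega)
    have := hx.top hρX
    have := hx.m4.add1 (r := ρ) (t := η + 2 * x) (by omega) (by omega)
    have := hx.top (r := γ) (by omega)
    have := hX.add1 (r := γ) (t := γ + 2 * x) (by omega) (by omega)
    refine core x hx le_rfl (by omega) (by omega) (by omega) (by omega) ?_
      (fun p hp h => by have := hx.m8.dbl hp; omega)
    rcases Nat.lt_or_ge (2 * ρ) x with c1 | c1
    · have := hx.m4.add1 (r := 2 * x + (x + 2 * ρ)) (t := 3 * (2 * x) + 2 * ρ + x) (by omega)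
        (by omega)
      have := hX.om_add (r := x + 2 * ρ) (by omega)
      have := omega_pos (n := x + 2 * ρ) (by omega)
      omega
    · have := hx.m8.add1 (r := 2 * ρ - x) (t := 3 * (2 * x) + 2 * ρ + x) (by omega) (by omega)
      have := wle hx (t := 2 * ρ - x) (N := 2 * ρ) (by omega)
      have := omega_two_mul ρ
      omega
  rcases om2 hρ1 c with h | ⟨v, u, hv, hu, hvu, h⟩
  · have := h.om
    omega
  have huv := hv.dbl hu hvu
  have hv1 := hv.pos
  have huX := hu.dbl hX (by omega)
  rcases Nat.lt_or_ge X (8 * u) with c1 | c1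
  · have c2 : X = 2 * u ∨ X = 4 * u := by
      have := hu.two_mul.dbl hX
      have := hu.m4.dbl hX
      omega
    have e0 := hu.two_mul.om_add (r := u - v) (by omega)
    have e1 : 3 ≤ omega (u - v) := by
      rcases c2 with c2 | c2
      · have := weq (show γ = u - v by omega)
        omega
      · have := weq (show γ = 2 * u + (u - v) by omega)
        omega
    have c3 : 8 * v ≤ u := by
      by_contra hc
      have := hv.two_mul.dbl hu
      have := hv.m4.dbl hu
      have := hv.om
      have := om_two hv hv.two_mul (by omega)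
      rcases (show u = 2 * v ∨ u = 4 * v by omega) with c4 | c4
      · have := weq (show u - v = v by omega)
        omega
      · have := weq (show u - v = 2 * v + v by omega)
        omega
    obtain ⟨u', hu', rfl⟩ := hu.half (by omega)
    obtain ⟨x, hx, rfl⟩ := hu'.half (by omega)
    have e2 := hu'.add1 (r := x + (x - v)) (t := 2 * (2 * x) - v) (by omega) (by omega)
    have e3 := hx.om_add (r := x - v) (by omega)
    have e4 := om_three hv hx hu (by omega) (by omega)
    have e5 := om_four hv hu' hu hX (by omega) (by omega) (by omega)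
    have e6 := weq (show ρ + x = 2 * (2 * x) + (x + v) by omega)
    have e7 := weq (show η + 2 * x = X + (2 * (2 * x) + (2 * x + v)) by omega)
    have e8 := hu.om_add (r := x - v) (by omega)
    have e9 := hu.om_add (r := x + (x - v)) (by omega)
    rcases c2 with c2 | c2
    · have := weq (show γ = 2 * (2 * x) - v by omega)
      have := weq (show γ + x = 2 * (2 * x) + (x - v) by omega)
      have := weq (show γ + 2 * x = 2 * (2 * x) + (x + (x - v)) by omega)
      have c4 : 2 * v ≠ x := by
        intro h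
        have := weq (show x - v = v by omega)
        have := hv.om
        omega
      have := om_three hv.two_mul hx hx.m32 (by omega) (by omega)
      have := weq (show 3 * X + 2 * ρ + x = 32 * x + (x + 2 * v) by omega)
      exact core x hx (by omega) (by omega) (by omega) (by omega) (by omega) (by omega)
        (fun p hp h => by have := hx.m32.dbl hp; omega)
    · have := hx.m8.add1 (r := 2 * (2 * x) + (x - v)) (t := γ + x) (by omega) (by omega)
      have := hx.m8.add1 (r := 2 * (2 * x) + (x + (x - v))) (t := γ + 2 * x) (by omega) (by omega)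
      have := hx.m32.add1 (r := 16 * x + (9 * x + 2 * v)) (t := 3 * X + 2 * ρ + x) (by omega)
        (by omega)
      have := hx.m16.om_add (r := 9 * x + 2 * v) (by omega)
      have := omega_pos (n := 9 * x + 2 * v) (by omega)
      exact core x hx (by omega) (by omega) (by omega) (by omega) (by omega) (by omega)
        (fun p hp h => by have := hx.m32.dbl hp; omega)
  · obtain ⟨X', hX', rfl⟩ := hX.half (by omega)
    obtain ⟨x, hx, rfl⟩ := hX'.half (by omega)
    have e2 := hX'.add1 (r := x + (x - ρ)) (t := γ) (by omega) (by omega)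
    have e3 := hx.om_add (r := x - ρ) (by omega)
    have e4 := om_three hv hu hx hvu (by omega)
    have e5 := om_four hv hu hX' hX hvu (by omega) (by omega)
    have e6 := weq (show ρ + x = x + (u + v) by omega)
    have e7 := weq (show η + 2 * x = 2 * (2 * x) + (2 * x + (u + v)) by omega)
    have e8 := hX.add1 (r := x - ρ) (t := γ + x) (by omega) (by omega)
    have e9 := hX.add1 (r := x + (x - ρ)) (t := γ + 2 * x) (by omega) (by omega)
    have := hx.m8.add1 (r := 4 * x + (x + 2 * ρ)) (t := 3 * (2 * (2 * x)) + 2 * ρ + x) (by omega)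
      (by omega)
    have := hx.m4.om_add (r := x + 2 * ρ) (by omega)
    have := omega_pos (n := x + 2 * ρ) (by omega)
    refine core x hx (by omega) (by omega) (by omega) (by omega) (by omega) (by omega) ?_
    intro p hp h
    have := hx.m8.dbl hp
    have := hx.m16.dbl hp
    exact hX'.not3 (m := ρ) (by omega)

end Mid

end Pool.Agent.P.MP_e9218d_nt
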