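import Pool.Agent.P.MP_e9218d_nt.Nec5D

namespace Pool.Agent.P.MP_e9218d_nt

namespace Mid
variable {M s q η δ : ℕ} (H : Mid M s q η δ)
include H

lemma A3K (hη : 8 * q < η) {n : ℕ} (hn : n + 16 * q = 3 * M) : (setA M s n).ncard ≤ 2 := by
  have hM := H.hM
  rw [H.card_eq]
  refine card_le_two (a := [(3, 16 * q)]) (b := [(2, 8 * q), (1, 8 * q)]) (fun l hl => ?_)
  rcases H.lev (by omega) (by omega) hl with ⟨t, h1, h2, h3⟩ | ⟨t, h1, h2, h3⟩ | ⟨t, h1, h2, h3⟩ |
    ⟨t, h1, h2, h3⟩ | ⟨t, h1, h2⟩
  · omega
  · have := H.hd; have := H.dpos; omega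
  · rcases h3 with ⟨rfl, h4⟩ | ⟨u, v, rfl, hu, hv, h4, h5, rfl⟩
    · left; rw [show t = 16 * q by omega]
    · have := hu.pos
      have := hv.dbl H.p16
      right; rw [show u = 8 * q by omega, show v = 8 * q by omega]
  · exact absurd h2 (z4s (by omega) t h1)
  · exact absurd h2 (z5s (by omega) t h1)

variable {b : ℕ → ℕ} (hI : ∀ n, (setA M s n).ncard = (setB M s b n).ncard)
  (hb : ∀ j, 1 ≤ j → j ≤ M → 0 < b j)
include hI hb

/-- the chains of weight `3M - 2u` when `η > K/2` -/
lemma R_enum (hN : NS η) (hη : 8 * q < η) {u n : ℕ} (hu : Pw u) (huK : u ≤ 4 * q)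
    (hi : ∀ c p, Pw c → c ≤ 4 * q → Pw p → p ≤ 8 * q → η + 2 * u ≠ c + p)
    (hii : ∀ c m, (c = 0 ∨ Pw c) → c ≤ 8 * q → m + 2 * u = 2 * M + c → (setA M s m).ncard ≤ 1)
    (hbu : M < bet M b u) (hn : n + 2 * u = 3 * M) {l : List ℕ} (hl : l ∈ setB M s b n) :
    l = [n] ∨ (l = [2 * M + 16 * q - 2 * u, η] ∧ 2 * M + 16 * q - 2 * u ∈ Dset M s) ∨
      (2 * u < 8 * q ∧ 2 * M + 8 * q - 2 * u ∈ Dset M s) ∨
      (2 * M ∈ Dset M s ∧ gap M b (2 * M) (M - 2 * u)) := by
  have hM := H.hM
  have hu1 := hu.pos
  have hu2 := hu.two_mul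
  rcases H.B_shape hI hb hN (S := η + 2 * u) (by omega) (by omega) (by omega)
    (fun c m _ _ _ => by omega) (fun m _ => by omega) hl with h |
    ⟨e, f, rfl, he, hf, hg, hs, hlt, h⟩
  · exact Or.inl h
  right
  rcases h with ⟨c, hc, h2, h3⟩ | ⟨c, hc, h2, h3⟩ | h3 | ⟨c, hc, h2, h3⟩
  · have hc0 := hc.pos
    by_cases c1 : c = 16 * q
    · left
      rw [show 2 * M + 16 * q - 2 * u = e by omega, show η = f by omega]
      exact ⟨rfl, he⟩
    by_cases c2 : c = 2 * u
    · right; right
      rw [show 2 * M = e by omega, show M - 2 * u = f by omega]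
      exact ⟨he, hg⟩
    by_cases c3 : c = 8 * q
    · right; left
      rw [show 2 * M + 8 * q - 2 * u = e by omega]
      exact ⟨by omega, he⟩
    exfalso
    by_cases c4 : c = u
    · rw [gap_iff (r := u) 2 (by omega) (by omega) (by omega)] at hg
      omega
    have c5 : c ≤ 4 * q := by
      have := hc.dbl H.p16
      have := hc.dbl H.p8
      omega
    refine H.term hI hg he hf rfl (H.A3 (by omega) (by omega) (z1s (by omega)) (z2s (by omega)) ?_
      ?_ (z5s (by omega)))
    · intro t ht _
      rcases Nat.lt_or_ge c (2 * u) with c6 | c6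
      · have := hc.dbl hu2 c6
        have := hc.dbl hu (by omega)
        have := H.p16.add1 (r := 2 * u - c) (t := t) (by omega) (by omega)
        have := hc.sub2 hu2 (by omega)
        omega
      · have := hc.spl (hc.dsub H.p16 (by omega)) (r := 2 * u) (t := t) (by omega) (by omega)
        have := hc.sub2 H.p16 (by omega)
        have := hu2.om
        omega
    · rintro t ht (h5 | h5 | ⟨p, hp, h5, h6⟩)
      · omega
      · omega
      · exact hi c p hc c5 hp h5 (by omega)
  · omega
  · exact (H.term hI hg he hf rfl (hii 0 _ (Or.inl rfl) (by omega) (by omega))).elim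
  · exact (H.term hI hg he hf rfl (hii c _ (Or.inr hc) h2 (by omega))).elim

lemma R_gen (hN : NS η) (hη : 8 * q < η) (hf : 3 ≤ omega η) {x u : ℕ} (hx : Pw x) (hu : Pw u)
    (hux : u < x) (hxK : x ≤ 8 * q) (huK : u ≤ 2 * q) (bx : bet M b x ≤ 16 * q)
    (k1 : 4 ≤ omega (η + 2 * u)) (k2 : η + 2 * u < 16 * q) (k3 : 3 ≤ omega (η + u))
    (z4 : ∀ t, t = M + (x + u) → ¬ P4 q t) : False := by
  have hM := H.hM
  have hu1 := hu.pos
  have hbu : M < bet M b u := by
    by_contra hc
    refine H.two_bad hI hu hx hux hxK (by omega) (by omega) z4 ?_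
    rintro t ht ⟨r, h⟩
    omega
  obtain ⟨n, hn⟩ : ∃ n, n + 2 * u = 3 * M := ⟨3 * M - 2 * u, by omega⟩
  have e0 := H.p16.add1 k2 (t := M + 2 * u) (by omega)
  have hB : ∀ l ∈ setB M s b n, l = [n] := by
    intro l hl
    have hR := H.R_enum hI hb hN hη hu (by omega) ?_ ?_ hbu hn hl
    rotate_left
    · intro c p hc _ hp _ h
      have := wle hp (t := c) h.symm
      have := hc.om
      omega
    · intro c m hc h1 h2
      refine H.A2 (by omega) (by omega) (z1s (by omega)) ?_ (z4s (by omega)) (z5s (by omega))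
      rintro t ht (⟨h5, h6, h7⟩ | h5)
      · rcases hc with rfl | hc
        · have := weq (show t = M + 2 * u by omega)
          omega
        · have := wle hc (t := t) (N := M + 2 * u) (by omega)
          omega
      · omega
    rcases hR with h | ⟨-, h⟩ | ⟨-, h⟩ | ⟨h, -⟩
    · exact h
    · exfalso
      rcases H.D_lev h (by omega) with ⟨t, h1, h2⟩ | ⟨t, h1, h2⟩ | ⟨t, h1, h2⟩ | ⟨t, h1, h2⟩ |
        ⟨t, h1, h2⟩
      · omega
      · omega
      · have := weq (show t = η + 2 * u by omega)
        rcases h2 with h2 | h2 <;> omega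
      · rcases h2 with h2 | h2 | ⟨p, hp, h2, h3⟩
        · omega
        · omega
        · have := wle hp (t := 16 * q) (N := 2 * (η + u)) (by omega)
          have := H.p16.om
          have := omega_two_mul (η + u)
          omega
      · exact z5s (by omega) t h1 h2
    · exfalso
      rcases H.D_lev h (by omega) with ⟨t, h1, h2⟩ | ⟨t, h1, h2⟩ | ⟨t, h1, h2⟩ | ⟨t, h1, h2⟩ |
        ⟨t, h1, h2⟩
      · omega
      · omega
      · have := H.p8.top (r := η + 2 * u) (by omega)
        have := weq (show t = η + 2 * u + 8 * q by omega)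
        rcases h2 with h2 | h2 <;> omega
      · exact z4s (by omega) t h1 h2
      · exact z5s (by omega) t h1 h2
    · exact absurd h (H.notD2M hN hf)
  have o1 := hu.om
  have o2 := hu.two_mul.om
  have l1 := hu.low
  have a1 := H.single_std (L := 3) (r := 2 * u) (n := n) (by omega) (by omega) (by omega) hn
  have a2 := H.pair_std (L := 2) (r := u) (L' := 1) (r' := u) (n := n) (by omega) (by omega)
    (by omega) (by omega) (by omega) (by omega) (by omega) (by omega)
  have hA := length_le_card (H.std_finite n) [[(3, 2 * u)], [(2, u), (1, u)]] (by simp)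
    (by simp [a1, a2])
  have h6 := (Set.ncard_le_one (setB_finite M s b n)).2
    (fun a ha c hc => (hB a ha).trans (hB c hc).symm)
  have := hI n
  rw [H.card_eq] at this
  simp only [List.length_cons, List.length_nil] at hA
  omega

/-- the family `δ = K/4 + u + v`: the class `K/2` needs a gap at most `K` -/
lemma famB (hN : NS η) {u v : ℕ} (hu : Pw u) (hv : Pw v) (hvu : v < u) (huK : u ≤ 2 * q)
    (hδ : δ = 4 * q + (u + v)) : bet M b (8 * q) ≤ 16 * q := by
  by_contra hbad
  have hM := H.hM
  have hd := H.hd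
  have hv1 := hv.pos
  have huv := hv.dbl hu hvu
  have o0 : omega δ = 3 := hδ ▸ om_three hv hu H.p4 hvu (by omega)
  obtain ⟨n, hn⟩ : ∃ n, n + 32 * q = 4 * M := ⟨4 * M - 32 * q, by omega⟩
  have hB : (setB M s b n).ncard ≤ 2 := by
    refine card_le_two (a := [n]) (b := [3 * M - 16 * q, η]) (fun l hl => ?_)
    rcases H.B_shape hI hb hN (S := 16 * q) (by omega) (by omega) (by omega)
      (fun c m _ _ _ => by omega) (fun m _ => by omega) hl with h |
      ⟨e, f, rfl, he, hf, hg, hs, hlt, h⟩
    · exact Or.inl h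
    right
    rcases h with ⟨c, hc, h2, h3⟩ | ⟨c, hc, h2, h3⟩ | h3 | ⟨c, hc, h2, h3⟩
    · have hc0 := hc.pos
      by_cases c1 : c = 16 * q
      · rw [show e = 3 * M - 16 * q by omega, show f = η by omega]
      exfalso
      have c2 := hc.dbl H.p16 (by omega)
      refine H.term hI hg he hf rfl ?_
      by_cases c3 : c = 8 * q
      · refine H.A4 (by omega) (by omega) (z1s (by omega)) (z2s (by omega)) ?_
          (fun t ht h => by omega) (z5s (by omega))
        rintro t ht (⟨h5, h6, h7⟩ | h5)
        · have := H.p8.add1 (r := δ) (t := t) (by omega) (by omega)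
          omega
        · omega
      · have c4 := hc.dbl H.p8 (by omega)
        refine H.A3 (by omega) (by omega) (z1s (by omega)) (z2s (by omega)) ?_ (z4s (by omega))
          (z5s (by omega))
        intro t ht _
        have := wle hc (t := t) (N := 16 * q + δ) (by omega)
        have := H.p16.om_add (r := δ) (by omega)
        omega
    · omega
    · omega
    · exfalso
      have hc0 := hc.pos
      by_cases c1 : c = 8 * q
      · rw [gap_iff (r := 8 * q) 2 (by omega) (by omega) (by omega)] at hg
        omega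
      have c2 := hc.dbl H.p8 (by omega)
      by_cases c3 : c = 4 * q
      · refine kil hI hg he (H.D1 (e := M - 2 * q) H.p2 (by omega) (by omega)) (by omega) rfl
          (H.A3 (by omega) (by omega) (z1s (by omega)) (z2s (by omega)) ?_ ?_ (z5s (by omega)))
        · intro t ht _
          have := om_three H.p2 H.p4 H.p8 (by omega) (by omega)
          have := weq (show t = 8 * q + (4 * q + 2 * q) by omega)
          omega
        · rintro t ht (h5 | h5 | ⟨p, hp, h5, h6⟩)
          · omega
          · omega
          · have := hp.dbl H.p8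
            have := hu.dbl H.p2
            omega
      · have c4 := hc.dbl H.p4 (by omega)
        refine H.term hI hg he hf rfl (H.A2 (by omega) (by omega) (z1s (by omega)) ?_
          (z4s (by omega)) (z5s (by omega)))
        rintro t ht (⟨h5, h6, h7⟩ | h5)
        · have := hc.sub4 H.p32 (by omega)
          have := weq (show t = 32 * q - c by omega)
          omega
        · omega
  have o1 := H.p16.om
  have o2 := H.p8.om
  have o3 := om_two H.p8 H.p16 (by omega)
  have l1 := H.p16.low_add (r := 8 * q) (by omega) (by omega)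
  have l2 := H.p8.low
  have a1 := H.single_std (L := 3) (r := δ) (n := n) (by omega) (by omega) (by omega) (by omega)
  have a2 := H.pair_std (L := 3) (r := 16 * q) (L' := 1) (r' := 16 * q) (n := n) (by omega)
    (by omega) (by omega) (by omega) (by omega) (by omega) (by omega) (by omega)
  have a3 := H.pair_std (L := 3) (r := 16 * q + 8 * q) (L' := 1) (r' := 8 * q) (n := n) (by omega)
    (by omega) (by omega) (by omega) (by omega) (by omega) (by omega) (by omega)
  have hA := length_le_card (H.std_finite n) [[(3, δ)], [(3, 16 * q), (1, 16 * q)],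
    [(3, 16 * q + 8 * q), (1, 8 * q)]] (by simp; omega) (by simp [a1, a2, a3])
  have := hI n
  rw [H.card_eq] at this
  simp only [List.length_cons, List.length_nil] at hA
  omega

/-- the value `M = 25 K / 16` -/
lemma special (hN : NS η) (hη : η = 9 * q) (bx : bet M b (8 * q) ≤ 16 * q) : False := by
  have hM := H.hM
  have hq := H.hq
  have hq1 := hq.pos
  have hbu : M < bet M b (4 * q) := by
    by_contra hc
    refine H.two_bad hI H.p4 H.p8 (by omega) le_rfl (by omega) (by omega) ?_ ?_
    · rintro t ht (h5 | h5 | ⟨p, hp, h5, h6⟩)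
      · omega
      · omega
      · have := H.p4.dbl hp
        omega
    · rintro t ht ⟨r, h⟩
      omega
  have hterm : 2 * M ∈ Dset M s → ¬ gap M b (2 * M) (M - 2 * (4 * q)) := by
    intro hD hg
    obtain ⟨n, hn⟩ : ∃ n, n + 16 * q = 3 * M := ⟨3 * M - 16 * q, by omega⟩
    have hA := H.A3K (by omega) hn
    have a1 := single_B b (H.mem_D (L := 3) (r := 16 * q) (e := n) (by omega) (by omega)
      (by rw [H.p16.om]; omega) hn)
    have a2 := pair_B (b := b) (n := n) (H.D2 (e := 2 * M - 8 * q) H.p8 (by omega) (by omega))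
      (H.D1 (e := M - 8 * q) H.p8 (by omega) (by omega))
      ((gap_iff (r := 8 * q) 2 (by omega) (by omega) (by omega) _).2 (by omega)) (by omega)
    have a3 := pair_B (b := b) (n := n) hD H.Deta (by unfold gap at hg ⊢; omega) (by omega)
    have h6 := length_le_card (setB_finite M s b n) [[n], [2 * M - 8 * q, M - 8 * q], [2 * M, η]]
      (by simp; omega) (by simp [a1, a2, a3])
    have := hI n
    simp only [List.length_cons, List.length_nil] at h6
    omega
  obtain ⟨n, hn⟩ : ∃ n, n + 2 * (4 * q) = 3 * M := ⟨3 * M - 8 * q, by omega⟩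
  have hB : (setB M s b n).ncard ≤ 2 := by
    refine card_le_two (a := [n]) (b := [2 * M + 16 * q - 2 * (4 * q), η]) (fun l hl => ?_)
    have hR := H.R_enum hI hb hN (by omega) H.p4 le_rfl (fun c p _ _ _ _ => by omega) ?_ hbu hn hl
    · rcases hR with h | ⟨h, -⟩ | ⟨h, -⟩ | ⟨h, h'⟩
      · exact Or.inl h
      · exact Or.inr h
      · omega
      · exact absurd h' (hterm h)
    intro c m hc h1 h2
    rcases Nat.lt_or_ge c q with c1 | c1
    · exact H.A2 (by omega) (by omega) (z1s (by omega)) (z3s (by omega)) (z4s (by omega))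
        (z5s (by omega))
    have hc : Pw c := hc.resolve_left (by omega)
    rcases Nat.eq_or_lt_of_le c1 with rfl | c2
    · refine H.A3 (by omega) (by omega) (z1s (by omega)) ?_ (fun t ht h => by omega)
        (z4s (by omega)) (z5s (by omega))
      rintro t ht ⟨h3, h4, h5⟩
      have := om_three hq H.p2 H.p4 (by omega) (by omega)
      have := weq (show t = 4 * q + (2 * q + q) by omega)
      omega
    rcases Nat.eq_or_lt_of_le h1 with rfl | c3
    · refine H.A3 (by omega) (by omega) (z1s (by omega)) (z2s (by omega)) ?_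
        (z4s (by omega)) (z5s (by omega))
      intro t ht _
      have := om_three hq H.p8 H.p16 (by omega) (by omega)
      have := weq (show t = 16 * q + (8 * q + q) by omega)
      omega
    · have := hc.dbl H.p8 c3
      refine H.A2 (by omega) (by omega) (z1s (by omega)) ?_ (z4s (by omega)) (z5s (by omega))
      rintro t ht (⟨h5, h6, h7⟩ | h5)
      · have := hc.spl (hc.dsub H.p32 (by omega)) (r := q) (t := t) (by omega) (by omega)
        have := hc.sub3 H.p32 (by omega)
        have := hq.om
        omega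
      · omega
  have o1 := H.p16.om
  have o2 := H.p8.om
  have o3 := H.p4.om
  have o4 := om_two hq H.p16 (by omega)
  have l1 := H.p16.low_add (r := q) (by omega) (by omega)
  have l2 := H.p4.low
  have l3 := hq.low
  have a1 := H.single_std (L := 3) (r := 8 * q) (n := n) (by omega) (by omega) (by omega) (by omega)
  have a2 := H.pair_std (L := 2) (r := 4 * q) (L' := 1) (r' := 4 * q) (n := n) (by omega)
    (by omega) (by omega) (by omega) (by omega) (by omega) (by omega) (by omega)
  have a3 := H.pair_std (L := 3) (r := 16 * q + q) (L' := 1) (r' := 16 * q) (n := n) (by omega)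
    (by omega) (by omega) (by omega) (by omega) (by omega) (by omega) (by omega)
  have hA := length_le_card (H.std_finite n) [[(3, 8 * q)], [(2, 4 * q), (1, 4 * q)],
    [(3, 16 * q + q), (1, 16 * q)]] (by simp) (by simp [a1, a2, a3])
  have := hI n
  rw [H.card_eq] at this
  simp only [List.length_cons, List.length_nil] at hA
  omega

/-- the family `δ = K/4 + u + v` -/
theorem caseU (hN : NS η) {u v : ℕ} (hu : Pw u) (hv : Pw v) (hvu : v < u) (huK : u < 4 * q)
    (hδ : δ = 4 * q + (u + v)) : False := by
  have hd := H.hd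
  have hM := H.hM
  have hv1 := hv.pos
  have huv := hv.dbl hu hvu
  have hu2 := hu.dbl H.p4 huK
  have bx := H.famB hI hb hN hu hv hvu (by omega) hδ
  obtain ⟨ρ, hρ⟩ : ∃ ρ, ρ + (u + v) = 4 * q := ⟨4 * q - (u + v), by omega⟩
  by_cases c : ρ = q
  · exact H.special hI hb hN (by omega) bx
  have o1 : 2 ≤ omega ρ := by
    by_contra hc
    have hp := om1 (r := ρ) (by omega) (by omega)
    have := hu.dbl H.p2
    have := H.p2.dbl hp
    have := hp.dbl H.p2
    have := hv.dbl H.p2
    have := H.hq.dbl hp
    omega
  have e1 := H.p8.add1 (r := ρ) (t := η) (by omega) (by omega)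
  have e2 := H.p8.add1 (r := 4 * q + ρ) (t := η + 2 * (2 * q)) (by omega) (by omega)
  have e3 := H.p4.om_add (r := ρ) (by omega)
  have e4 := H.p2.top (r := ρ) (by omega)
  have e5 := H.p8.add1 (r := ρ + 2 * q) (t := η + 2 * q) (by omega) (by omega)
  refine H.R_gen hI hb hN (by omega) (by omega) H.p8 H.p2 (by omega) le_rfl le_rfl bx (by omega)
    (by omega) (by omega) ?_
  rintro t ht (h5 | h5 | ⟨p, hp, h5, h6⟩)
  · omega
  · omega
  · have := hp.om
    have := weq (show p = ρ + 2 * q by omega)
    omega

lemma case2_core (hN : NS η) {ρ u : ℕ} (hη : η = 8 * q + ρ) (hf : 3 ≤ omega η)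
    (bx : bet M b (4 * q) ≤ 16 * q) (hu : Pw u) (huK : u ≤ 2 * q) (k1 : 3 ≤ omega (ρ + 2 * u))
    (k2 : ρ + 2 * u < 8 * q) (k3 : 3 ≤ omega (ρ + u)) : False := by
  have hM := H.hM
  have hu1 := hu.pos
  have e1 := H.p8.add1 k2 (t := η + 2 * u) (by omega)
  have e2 := H.p8.add1 (r := ρ + u) (t := η + u) (by omega) (by omega)
  have hρ : 1 ≤ ρ := by
    by_contra h
    have := H.p8.om
    have := weq (show η = 8 * q by omega)
    omega
  refine H.R_gen hI hb hN (by omega) hf H.p4 hu (by omega) (by omega) huK bx (by omega) (by omega)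
    (by omega) ?_
  rintro t ht (⟨h5, h6, h7⟩ | h5 | ⟨p, hp, h5, h6⟩)
  · have := H.p16.add1 (r := 8 * q + (4 * q + (ρ + u))) (t := t) (by omega) (by omega)
    have := H.p8.om_add (r := 4 * q + (ρ + u)) (by omega)
    have := H.p4.om_add (r := ρ + u) (by omega)
    omega
  · have := H.p4.om
    have := weq (show ρ + u = 4 * q by omega)
    omega
  · have := wle hp (t := 4 * q) (N := ρ + u) (by omega)
    have := H.p4.om
    omega

/-- the range `η > K/2` with at least three binary ones -/
theorem case2 (hN : NS η) (hge : 8 * q ≤ η) (hf : 3 ≤ omega η) : False := by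
  have hd := H.hd
  have hw := H.hw
  have hd1 := H.dpos
  have hq := H.hq
  obtain ⟨ρ, hη⟩ : ∃ ρ, η = 8 * q + ρ := ⟨η - 8 * q, by omega⟩
  have e1 := H.p8.add1 (r := ρ) (by omega) hη
  have hρ : 1 ≤ ρ := by
    by_contra h
    rw [show ρ = 0 by omega, omega_zero] at e1
    omega
  have hU : 4 * q ≤ δ → 3 ≤ omega (δ - 4 * q) := by
    intro h
    by_contra hc
    have := H.p4.add1 (r := δ - 4 * q) (t := δ) (by omega) (by omega)
    have h0 : 1 ≤ δ - 4 * q := by
      by_contra h0
      rw [show δ - 4 * q = 0 by omega, omega_zero] at this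
      omega
    rcases om2 h0 (by omega) with h1 | ⟨v, u, hv, hu, hvu, h1⟩
    · have := h1.om
      omega
    · exact H.caseU hI hb hN hu hv hvu (by omega) (by omega)
  have e2 := H.p16.add1 (r := ρ) (t := η + 2 * (4 * q)) (by omega) (by omega)
  have e3 := H.p8.add1 (r := δ) (t := δ + 2 * (4 * q)) (by omega) (by omega)
  have e4 : 4 ≤ omega (δ + 4 * q) := by
    rcases Nat.lt_or_ge δ (4 * q) with c | c
    · have := H.p4.add1 c (add_comm δ _)
      omega
    · have := H.p8.add1 (r := δ - 4 * q) (t := δ + 4 * q) (by omega) (by omega)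
      have := hU c
      omega
  have bx := (H.bad hI hb hN H.p4 le_rfl (by omega) (by omega) e4 (by omega)
    (fun t h => by omega) hf (fun e h => by omega)
    (H.hh_low hI H.p4 le_rfl (by omega) (by omega))).1
  have core := fun u => H.case2_core hI hb hN (u := u) hη hf bx
  rcases Nat.lt_or_ge ρ (4 * q) with c | c
  · have e5 := H.p4.add1 c (t := ρ + 2 * (2 * q)) (by omega)
    have e6 := H.p2.top (r := ρ) (by omega)
    rcases Nat.lt_or_ge ρ (2 * q) with c1 | c1
    · have := H.p2.add1 c1 (add_comm ρ _)
      exact core _ H.p2 le_rfl (by omega) (by omega) (by omega)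
    rcases Nat.lt_or_ge 2 (omega ρ) with c2 | c2
    · exact core _ H.p2 le_rfl (by omega) (by omega) (by omega)
    have e7 := H.p2.add1 (r := ρ - 2 * q) (t := ρ) (by omega) (by omega)
    have h0 : 1 ≤ ρ - 2 * q := by
      by_contra h0
      rw [show ρ - 2 * q = 0 by omega, omega_zero] at e7
      omega
    obtain ⟨v, hv, hρv⟩ : ∃ v, Pw v ∧ ρ = 2 * q + v := ⟨ρ - 2 * q, om1 h0 (by omega), by omega⟩
    have e8 := hU (by omega)
    have c3 : 4 * v ≤ q := by
      by_contra hc
      have := hv.dbl H.p2
      have := hv.dbl hq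
      have := hv.two_mul.dbl hq
      have := hv.om
      have := om_two hv hv.two_mul (by have := hv.pos; omega)
      rcases (show q = v ∨ q = 2 * v by omega) with c4 | c4
      · have := weq (show δ - 4 * q = v by omega)
        omega
      · have := weq (show δ - 4 * q = 2 * v + v by omega)
        omega
    have hv1 := hv.pos
    obtain ⟨u, hu, hqu⟩ := hq.half (by omega)
    have := om_three hv hq H.p2 (by omega) (by omega)
    have := weq (show ρ + 2 * u = 2 * q + (q + v) by omega)
    have := om_three hv hu H.p2 (by omega) (by omega)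
    have := weq (show ρ + u = 2 * q + (u + v) by omega)
    exact core u hu (by omega) (by omega) (by omega) (by omega)
  · obtain ⟨T, d, hT, hdT, hδ, ho⟩ := top_split hd1
    have hd0 : 1 ≤ d := by
      by_contra h0
      rw [show d = 0 by omega, omega_zero] at ho
      omega
    have := hT.dbl H.p4 (by omega)
    obtain ⟨u, hu, rfl⟩ := hT.half (by omega)
    have := H.p4.add1 (r := 2 * q + (2 * q - d)) (t := ρ + 2 * u) (by omega) (by omega)
    have := H.p2.om_add (r := 2 * q - d) (by omega)
    have := omega_pos (n := 2 * q - d) (by omega)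
    have := H.p4.add1 (r := 4 * q - u - d) (t := ρ + u) (by have := hu.pos; omega) (by omega)
    refine core u hu (by omega) (by omega) (by omega) ?_
    by_contra hc
    have hp := om1 (r := 4 * q - u - d) (by omega) (by omega)
    have := hq.dbl hp
    have := H.p2.dbl hp
    have := hu.dbl hq
    have := hq.om
    have := weq (show d = q by omega)
    omega

end Mid

end Pool.Agent.P.MP_e9218d_nt
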