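import Pool.Agent.P.MP_e9218d_nt.Nec5E

namespace Pool.Agent.P.MP_e9218d_nt

namespace Mid
variable {M s q η δ : ℕ} (H : Mid M s q η δ)
  {b : ℕ → ℕ} (hI : ∀ n, (setA M s n).ncard = (setB M s b n).ncard)
  (hb : ∀ j, 1 ≤ j → j ≤ M → 0 < b j)
include H hI hb

lemma Wa_enum (hN : NS η) {X v n : ℕ} (hX : Pw X) (hv : Pw v) (hvX : 8 * v ≤ X) (hXK : X ≤ 4 * q)
    (hη : η = X + v) (hn : n + (16 * q + (2 * X + 4 * v)) = 4 * M) {l : List ℕ}
    (hl : l ∈ setB M s b n) :
    l = [n] ∨ l = [3 * M - (2 * X + 4 * v), η] ∨
      (l = [2 * M - 2 * X, 2 * M - (16 * q + 4 * v)] ∧ bet M b (2 * X) + 2 * X ≤ 16 * q + 4 * v) ∨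
      (l = [2 * M - 4 * v, 2 * M - (16 * q + 2 * X)] ∧
        bet M b (4 * v) + 4 * v ≤ 16 * q + 2 * X) := by
  have hM := H.hM
  have hv1 := hv.pos
  have hX2 := hX.two_mul
  have hv2 := hv.two_mul
  have hv4 := hv.m4
  have hXq := hX.dbl H.p4
  have w1 : omega (3 * X + 5 * v) = 4 := by
    rw [← om_four hv hv4 hX hX2 (by omega) (by omega) (by omega)]; exact weq (by omega)
  have w2 : omega (4 * X + 6 * v) = 3 := by
    rw [← om_three hv2 hv4 hX.m4 (by omega) (by omega)]; exact weq (by omega)
  have w3 : omega (2 * X + 4 * v) = 2 := om_two hv4 hX2 (by omega)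
  have w4 : omega (X + 3 * v) = 3 :=
    (weq (by omega)).trans (om_three hv hv2 hX (by omega) (by omega))
  have w5 : omega (3 * v) = 2 := by
    rw [← om_two hv hv2 (by omega)]; exact weq (by omega)
  have hsh := H.B_shape hI hb hN hn (by omega) (by omega) ?_ ?_ hl
  rotate_left
  · intro c m hc h2 h3 h4
    refine H.A2 (by omega) (by omega) (z1s (by omega)) ?_ ?_ (z5s (by omega))
    · rintro t ht (⟨h5, h6, h7⟩ | h5)
      · have e0 := wle hc (t := t) (N := 16 * q + (8 * q + (3 * X + 5 * v))) (by omega)
        have e1 := H.p16.om_add (r := 8 * q + (3 * X + 5 * v)) (by omega)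
        have e2 := H.p8.om_add (r := 3 * X + 5 * v) (by omega)
        omega
      · omega
    · rintro t ht (h5 | h5 | ⟨p, hp, h5, h6⟩)
      · omega
      · omega
      · have := hp.dbl H.p8
        have := hc.om
        have := weq (show c = 4 * X + 6 * v by omega)
        omega
  · intro m h2 h3
    refine H.A2 (by omega) (by omega) (z1s (by omega)) ?_ ?_ (z5s (by omega))
    · rintro t ht (⟨h5, h6, h7⟩ | h5)
      · have e1 := H.p16.add1 (r := 3 * X + 5 * v) (t := t) (by omega) (by omega)
        omega
      · omega
    · rintro t ht (h5 | h5 | ⟨p, hp, h5, h6⟩)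
      · omega
      · omega
      · have := hp.om
        have := weq (show p = 4 * X + 6 * v by omega)
        omega
  rcases hsh with h | ⟨e, f, rfl, he, hf, hg, hs, hlt, h⟩
  · exact Or.inl h
  right
  have D8 := H.D1 (e := M - 8 * q) H.p8 (by omega) (by omega)
  rcases h with ⟨c, hc, h2, h3⟩ | ⟨c, hc, h2, h3⟩ | h3 | ⟨c, hc, h2, h3⟩
  · have hc0 := hc.pos
    by_cases c1 : c = 16 * q
    · left
      rw [show e = 3 * M - (2 * X + 4 * v) by omega, show f = η by omega]
    exfalso
    have c2 := hc.dbl H.p16 (by omega)
    by_cases c3 : c = v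
    · refine kil hI hg he D8 (by omega) rfl (H.A3 (by omega) (by omega) (z1s (by omega))
        (z2s (by omega)) ?_ ?_ ?_)
      · intro t ht _
        have := om_three hv2 hX H.p8 (by omega) (by omega)
        have := weq (show t = 8 * q + (X + 2 * v) by omega)
        omega
      · rintro t ht (⟨h5, h6, h7⟩ | h5 | ⟨p, hp, h5, h6⟩)
        · have := H.p16.add1 (r := 8 * q + (2 * X + 3 * v)) (t := t) (by omega) (by omega)
          have := H.p8.om_add (r := 2 * X + 3 * v) (by omega)
          have := hX2.om_add (r := 3 * v) (by omega)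
          omega
        · omega
        · exact hp.not3 (m := v) (by omega)
      · rintro t ht ⟨r, h4, h5, h6, h7⟩
        have := H.p8.add1 (r := 2 * X + (X + 4 * v)) (t := r) (by omega) (by omega)
        have := om_three hv4 hX hX2 (by omega) (by omega)
        omega
    refine H.term hI hg he hf rfl ?_
    have z5 : ∀ t, e + η + t = 5 * M → ¬ P5 q t := by
      rintro t ht ⟨r, h4, h5, h6, h7⟩
      have := hc.dbl H.p8
      have := H.p8.add1 (r := 3 * X + 5 * v) (t := r) (by omega) (by omega)
      omega
    by_cases c4 : c = 4 * v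
    · refine H.A4 (by omega) (by omega) (z1s (by omega)) (z2s (by omega)) ?_
        (fun t ht h => by omega) z5
      rintro t ht (⟨h5, h6, h7⟩ | h5)
      · have := H.p16.add1 (r := X - v) (t := t) (by omega) (by omega)
        have := hv.sub3 hX hvX
        omega
      · omega
    by_cases c5 : c = 2 * X
    · refine H.A4 (by omega) (by omega) (z1s (by omega)) (z2s (by omega)) ?_
        (fun t ht h => by omega) z5
      rintro t ht (⟨h5, h6, h7⟩ | h5)
      · have := hX.spl (hX.dsub H.p16 (by omega)) (r := 3 * v) (t := t) (by omega) (by omega)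
        have := hX.sub2 H.p16 (by omega)
        omega
      · omega
    by_cases c6 : c = 8 * q
    · refine H.A4 (by omega) (by omega) (z1s (by omega)) (z2s (by omega)) ?_ ?_ z5
      · rintro t ht (⟨h5, h6, h7⟩ | h5)
        · have := H.p8.add1 (r := X + 3 * v) (t := t) (by omega) (by omega)
          omega
        · omega
      · intro t ht _
        have := H.p16.add1 (r := 8 * q + (2 * X + 4 * v)) (t := t) (by omega) (by omega)
        have := H.p8.om_add (r := 2 * X + 4 * v) (by omega)
        omega
    have c7 := hc.dbl H.p8 (by omega)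
    have z4 : ∀ t, e + η + t = 4 * M → ¬ P4 q t := by
      rintro t ht (⟨h5, h6, h7⟩ | h5 | ⟨p, hp, h5, h6⟩)
      · have := hc.spl (hc.dsub H.p32 (by omega)) (r := 2 * X + 4 * v) (t := t) (by omega)
          (by omega)
        have := hc.sub3 H.p32 (by omega)
        omega
      · have := hc.om
        have := weq (show c = 2 * X + 4 * v by omega)
        omega
      · have := hX.dbl hp
        have := hX.dbl hc
        have := hX2.dbl hp
        have := hX2.dbl hc
        have := hp.dbl hc
        have := hc.dbl hp
        omega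
    by_cases c8 : v = 2 * c
    · refine H.A2 (by omega) (by omega) (z1s (by omega)) ?_ z4 z5
      rintro t ht (⟨h5, h6, h7⟩ | h5)
      · have := om_four hc hv2 hX H.p16 (by omega) (by omega) (by omega)
        have := weq (show t = 16 * q + (X + (2 * v + c)) by omega)
        omega
      · omega
    · refine H.A3 (by omega) (by omega) (z1s (by omega)) ?_ ?_ z4 z5
      · rintro t ht ⟨h5, h6, h7⟩
        have := hc.dbl hv2 (by omega)
        have := hc.dbl hv (by omega)
        have := hc.two_mul.dbl hv (by omega)
        have := hc.sub3 hv2 (by omega)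
        have := weq (show t = 2 * v - c by omega)
        omega
      · intro t ht _
        have := wle hc (t := t) (N := 16 * q + (X + 3 * v)) (by omega)
        have := H.p16.om_add (r := X + 3 * v) (by omega)
        omega
  · exfalso
    have c1 := hX.dbl hc (by omega)
    refine H.term hI hg he hf rfl ?_
    have z4 : ∀ t, e + η + t = 4 * M → ¬ P4 q t := by
      rintro t ht (h5 | h5 | ⟨p, hp, h5, h6⟩)
      · omega
      · omega
      · have := hp.dbl H.p8
        have := hc.om
        have := weq (show c = 3 * X + 5 * v by omega)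
        omega
    rcases Nat.eq_or_lt_of_le c1 with c2 | c2
    · refine H.A3 (by omega) (by omega) (z1s (by omega)) ?_ ?_ z4 (z5s (by omega))
      · rintro t ht ⟨h5, h6, h7⟩
        have := hX.spl (hX.dsub H.p8 (by omega)) (r := 3 * v) (t := t) (by omega) (by omega)
        have := omega_pos (n := 8 * q - X) (by omega)
        omega
      · intro t ht _
        have := om_three hv4 H.p8 H.p16 (by omega) (by omega)
        have := weq (show t = 16 * q + (8 * q + 4 * v) by omega)
        omega
    · have c3 := hX2.dbl hc c2
      refine H.A2 (by omega) (by omega) (z1s (by omega)) ?_ z4 (z5s (by omega))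
      rintro t ht (⟨h5, h6, h7⟩ | h5)
      · have := H.p16.add1 (r := 8 * q - c + (2 * X + 4 * v)) (t := t) (by omega) (by omega)
        have := hc.split (hc.dsub H.p8 (by omega)) (r := 2 * X + 4 * v) (by omega)
        have := omega_pos (n := 8 * q - c) (by omega)
        omega
      · omega
  · exfalso
    refine H.term hI hg he hf rfl (H.A3 (by omega) (by omega) (z1s (by omega)) ?_ ?_ ?_
      (z5s (by omega)))
    · rintro t ht ⟨h5, h6, h7⟩
      have := weq (show t = X + 3 * v by omega)
      omega
    · intro t ht _
      have := H.p16.add1 (r := 2 * X + 4 * v) (t := t) (by omega) (by omega)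
      omega
    · rintro t ht (h5 | h5 | ⟨p, hp, h5, h6⟩)
      · omega
      · omega
      · have := hp.om
        have := weq (show p = 3 * X + 5 * v by omega)
        omega
  · have hc0 := hc.pos
    by_cases c1 : c = 4 * v
    · right; left
      rw [gap_iff (r := 2 * X) 2 (by omega) (by omega) (by omega)] at hg
      exact ⟨by rw [show e = 2 * M - 2 * X by omega, show f = 2 * M - (16 * q + 4 * v) by omega],
        by omega⟩
    by_cases c2 : c = 2 * X
    · right; right
      rw [gap_iff (r := 4 * v) 2 (by omega) (by omega) (by omega)] at hg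
      exact ⟨by rw [show e = 2 * M - 4 * v by omega, show f = 2 * M - (16 * q + 2 * X) by omega],
        by omega⟩
    exfalso
    by_cases c3 : c = 2 * v
    · rcases Nat.eq_or_lt_of_le hXK with c4 | c4
      · refine kil hI hg he (H.D1 (e := M - 4 * v) hv4 (by omega) (by omega)) (by omega) rfl
          (H.A3 (by omega) (by omega) (z1s (by omega)) (z2s (by omega)) ?_ ?_ (z5s (by omega)))
        · intro t ht _
          have := om_three hv2 hv4 H.p8 (by omega) (by omega)
          have := weq (show t = 8 * q + (4 * v + 2 * v) by omega)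
          omega
        · rintro t ht (⟨h5, h6, h7⟩ | h5 | ⟨p, hp, h5, h6⟩)
          · have := H.p16.add1 (r := 8 * q + (4 * q + (4 * v + 3 * v))) (t := t) (by omega)
              (by omega)
            have := H.p8.om_add (r := 4 * q + (4 * v + 3 * v)) (by omega)
            have := H.p4.om_add (r := 4 * v + 3 * v) (by omega)
            have := hv4.om_add (r := 3 * v) (by omega)
            omega
          · omega
          · omega
      · refine kil hI hg he D8 (by omega) rfl
          (H.A3 (by omega) (by omega) (z1s (by omega)) (z2s (by omega)) ?_ ?_ ?_)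
        · intro t ht _
          have := om_three hv2 hX2 H.p8 (by omega) (by omega)
          have := weq (show t = 8 * q + (2 * X + 2 * v) by omega)
          omega
        · rintro t ht (⟨h5, h6, h7⟩ | h5 | ⟨p, hp, h5, h6⟩)
          · have := H.p16.add1 (r := 8 * q + (2 * X + (X + 3 * v))) (t := t) (by omega)
              (by omega)
            have := H.p8.om_add (r := 2 * X + (X + 3 * v)) (by omega)
            have := hX2.om_add (r := X + 3 * v) (by omega)
            omega
          · omega
          · omega
        · rintro t ht ⟨r, h4, h5, h6, h7⟩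
          have := om_three hv4 hX.m4 H.p8 (by omega) (by omega)
          have := weq (show r = 8 * q + (4 * X + 4 * v) by omega)
          omega
    by_cases c4 : c = X
    · refine kil hI hg he D8 (by omega) rfl
        (H.A3 (by omega) (by omega) (z1s (by omega)) (z2s (by omega)) ?_ ?_ ?_)
      · intro t ht _
        have := om_three hv4 hX H.p8 (by omega) (by omega)
        have := weq (show t = 8 * q + (X + 4 * v) by omega)
        omega
      · rintro t ht (⟨h5, h6, h7⟩ | h5 | ⟨p, hp, h5, h6⟩)
        · have := H.p16.add1 (r := 8 * q + (2 * X + (4 * v + v))) (t := t) (by omega) (by omega)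
          have := H.p8.om_add (r := 2 * X + (4 * v + v)) (by omega)
          have := om_three hv hv4 hX2 (by omega) (by omega)
          omega
        · omega
        · have := hv4.dbl hp
          omega
      · rintro t ht ⟨r, h4, h5, h6, h7⟩
        have := om_four hv2 hv4 hX hX2 (by omega) (by omega) (by omega)
        have := H.p8.add1 (r := 2 * X + (X + (4 * v + 2 * v))) (t := r) (by omega) (by omega)
        omega
    refine H.term hI hg he hf rfl ?_
    have z4 : ∀ t, e + η + t = 4 * M → ¬ P4 q t := by
      rintro t ht (⟨h5, h6, h7⟩ | h5 | ⟨p, hp, h5, h6⟩)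
      · have := hc.spl (hc.dsub H.p32 (by omega)) (r := 3 * X + 5 * v) (t := t) (by omega)
          (by omega)
        have := hc.sub2 H.p32 (by omega)
        omega
      · have := hc.om
        have := weq (show c = 3 * X + 5 * v by omega)
        omega
      · have := wle hp (t := c) (N := 3 * X + 5 * v) (by omega)
        have := hc.om
        omega
    have z5 : ∀ t, e + η + t = 5 * M → ¬ P5 q t := by
      rintro t ht ⟨r, h4, h5, h6, h7⟩
      have := hc.dbl H.p8
      have := H.p8.add1 (r := 4 * X + 6 * v) (t := r) (by omega) (by omega)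
      omega
    rcases Nat.lt_or_ge (2 * X) c with c5 | c5
    · have := hX2.dbl hc c5
      refine H.A3 (by omega) (by omega) (z1s (by omega)) (z2s (by omega)) ?_ z4 z5
      intro t ht _
      have := hc.spl (hc.dsub H.p16 (by omega)) (r := 2 * X + 4 * v) (t := t) (by omega) (by omega)
      have := omega_pos (n := 16 * q - c) (by omega)
      omega
    · have c6 := hc.dbl hX2 (by omega)
      have c7 := hc.dbl hX (by omega)
      refine H.A2 (by omega) (by omega) (z1s (by omega)) ?_ z4 z5
      rintro t ht (⟨h5, h6, h7⟩ | h5)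
      · rcases Nat.lt_or_ge c (4 * v) with c8 | c8
        · have := hc.dbl hv4 c8
          have := hc.dbl hv2 (by omega)
          have := H.p16.add1 (r := 2 * X + (4 * v - c)) (t := t) (by omega) (by omega)
          have := hX2.om_add (r := 4 * v - c) (by omega)
          have := hc.sub2 hv4 (by omega)
          omega
        · have := H.p16.add1 (r := 2 * X - c + 4 * v) (t := t) (by omega) (by omega)
          have := hc.split (hc.dsub hX2 c5) (r := 4 * v) (by omega)
          have := hc.sub2 hX2 (by omega)
          have := hv4.om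
          omega
      · omega

/-- the family `η = X + v`, `8 v ≤ X ≤ K/4` -/
theorem famWa (hN : NS η) {X v : ℕ} (hX : Pw X) (hv : Pw v) (hvX : 8 * v ≤ X) (hXK : X ≤ 4 * q)
    (hη : η = X + v) : False := by
  have hM := H.hM
  have hv1 := hv.pos
  have hX2 := hX.two_mul
  have hv4 := hv.m4
  obtain ⟨n, hn⟩ : ∃ n, n + (16 * q + (2 * X + 4 * v)) = 4 * M :=
    ⟨4 * M - (16 * q + (2 * X + 4 * v)), by omega⟩
  have hB := fun l => H.Wa_enum hI hb hN hX hv hvX hXK hη hn (l := l)
  have o1 := H.p16.om
  have o2 := hX2.om
  have o3 := om_two hv4 hX2 (by omega)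
  have o4 := om_three hv4 hX2 H.p16 (by omega) (by omega)
  have o5 := om_two hv4 H.p16 (by omega)
  have o6 := om_three hv hv.two_mul hX (by omega) (by omega)
  have l1 := H.p16.low_add (r := 4 * v) (by omega) (by omega)
  have l2 := hX2.low_add (r := 4 * v) (by omega) (by omega)
  have l3 := hv4.low
  have a1 := H.single_std (L := 4) (r := 16 * q + (2 * X + 4 * v)) (n := n) (by omega) (by omega)
    (by omega) hn
  have a2 := H.pair_std (L := 3) (r := 2 * X + 4 * v) (L' := 1) (r' := 16 * q) (n := n) (by omega)
    (by omega) (by omega) (by omega) (by omega) (by omega) (by omega) (by omega)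
  have a3 := H.pair_std (L := 3) (r := 16 * q + 4 * v) (L' := 1) (r' := 2 * X) (n := n) (by omega)
    (by omega) (by omega) (by omega) (by omega) (by omega) (by omega) (by omega)
  have a4 := H.single_std (L := 3) (r := X + (2 * v + v)) (n := n) (by omega) (by omega)
    (by omega) (by omega)
  have hA := length_le_card (H.std_finite n) [[(4, 16 * q + (2 * X + 4 * v))],
    [(3, 2 * X + 4 * v), (1, 16 * q)], [(3, 16 * q + 4 * v), (1, 2 * X)], [(3, X + (2 * v + v))]]
    (by simp; omega) (by simp only [List.forall_mem_cons]; simp [a1, a2, a3, a4])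
  have hAB := hI n
  rw [H.card_eq] at hAB
  simp only [List.length_cons, List.length_nil] at hA
  have b1 : bet M b (2 * X) + 2 * X ≤ 16 * q + 4 * v := by
    by_contra hc
    have := card_le_three (S := setB M s b n) (fun l hl => by
      rcases hB l hl with h | h | h | h
      · exact Or.inl h
      · exact Or.inr (Or.inl h)
      · exact absurd h.2 hc
      · exact Or.inr (Or.inr h.1))
    omega
  have b2 : bet M b (4 * v) + 4 * v ≤ 16 * q + 2 * X := by
    by_contra hc
    have := card_le_three (S := setB M s b n) (fun l hl => by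
      rcases hB l hl with h | h | h | h
      · exact Or.inl h
      · exact Or.inr (Or.inl h)
      · exact Or.inr (Or.inr h.1)
      · exact absurd h.2 hc)
    omega
  refine H.two_bad hI hv4 hX2 (by omega) (by omega) (by omega) (by omega) ?_ ?_
  · rintro t ht (⟨h5, h6, h7⟩ | h5 | ⟨p, hp, h5, h6⟩)
    · have := om_four hv hv4 hX hX2 (by omega) (by omega) (by omega)
      have := H.p16.add1 (r := 2 * X + (X + (4 * v + v))) (t := t) (by omega) (by omega)
      omega
    · omega
    · omega
  · rintro t ht ⟨r, h4, h5, h6, h7⟩
    have := om_three hv.two_mul hv4 hX.m4 (by omega) (by omega)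
    have := weq (show r = 4 * X + (4 * v + 2 * v) by omega)
    omega

lemma Wb_enum (hN : NS η) {v n : ℕ} (hv : Pw v) (hvq : 2 * v ≤ q)
    (hη : η = 8 * q + v) (hn : n + (16 * q + (8 * q + 8 * v)) = 4 * M) {l : List ℕ}
    (hl : l ∈ setB M s b n) :
    l = [n] ∨ l = [3 * M - (8 * q + 8 * v), η] ∨
      (l = [2 * M - 8 * q, 2 * M - (16 * q + 8 * v)] ∧ bet M b (8 * q) + 8 * q ≤ 16 * q + 8 * v) ∨
      (l = [2 * M - 8 * v, 2 * M - 24 * q] ∧ bet M b (8 * v) + 8 * v ≤ 24 * q) := by
  have hM := H.hM
  have hv1 := hv.pos
  have hv2 := hv.two_mul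
  have hv4 := hv.m4
  have hv8 := hv.m8
  have w1 : omega (7 * v) = 3 := by
    rw [← om_three hv hv2 hv4 (by omega) (by omega)]; exact weq (by omega)
  rcases H.B_shape hI hb hN hn (by omega) (by omega) (fun c m _ _ _ => by omega)
    (fun m _ => by omega) hl with h | ⟨e, f, rfl, he, hf, hg, hs, hlt, h⟩
  · exact Or.inl h
  right
  rcases h with ⟨c, hc, h2, h3⟩ | ⟨c, hc, h2, h3⟩ | h3 | ⟨c, hc, h2, h3⟩
  · have hc0 := hc.pos
    by_cases c1 : c = 16 * q
    · left
      rw [show e = 3 * M - (8 * q + 8 * v) by omega, show f = η by omega]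
    exfalso
    have c2 := hc.dbl H.p16 (by omega)
    refine H.term hI hg he hf rfl ?_
    by_cases c3 : c = 8 * v
    · refine H.A4 (by omega) (by omega) (z1s (by omega)) (z2s (by omega)) ?_
        (fun t ht h => by omega) (z5s (by omega))
      rintro t ht (⟨h5, h6, h7⟩ | h5)
      · have := hv.sub4 H.p16 (by omega)
        have := weq (show t = 16 * q - v by omega)
        omega
      · omega
    by_cases c4 : c = 8 * q
    · refine H.A4 (by omega) (by omega) (z1s (by omega)) (z2s (by omega)) ?_
        (fun t ht h => by omega) (z5s (by omega))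
      rintro t ht (⟨h5, h6, h7⟩ | h5)
      · have := H.p8.add1 (r := 7 * v) (t := t) (by omega) (by omega)
        omega
      · omega
    have c5 := hc.dbl H.p8 (by omega)
    refine H.A3 (by omega) (by omega) (z1s (by omega)) (z2s (by omega)) ?_ ?_ (z5s (by omega))
    · intro t ht _
      have := wle hc (t := t) (N := 16 * q + 7 * v) (by omega)
      have := H.p16.om_add (r := 7 * v) (by omega)
      omega
    · rintro t ht (h5 | h5 | ⟨p, hp, h5, h6⟩)
      · omega
      · omega
      · have := hp.dbl H.p8
        omega
  · omega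
  · exfalso
    refine H.term hI hg he hf rfl (H.A3 (by omega) (by omega) (z1s (by omega)) ?_ ?_
      (z4s (by omega)) (z5s (by omega)))
    · rintro t ht ⟨h5, h6, h7⟩
      have := weq (show t = 7 * v by omega)
      omega
    · intro t ht _
      have := om_three hv8 H.p8 H.p16 (by omega) (by omega)
      have := weq (show t = 16 * q + (8 * q + 8 * v) by omega)
      omega
  · have hc0 := hc.pos
    by_cases c1 : c = 8 * v
    · right; left
      rw [gap_iff (r := 8 * q) 2 (by omega) (by omega) (by omega)] at hg
      exact ⟨by rw [show e = 2 * M - 8 * q by omega, show f = 2 * M - (16 * q + 8 * v) by omega],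
        by omega⟩
    by_cases c2 : c = 8 * q
    · right; right
      rw [gap_iff (r := 8 * v) 2 (by omega) (by omega) (by omega)] at hg
      exact ⟨by rw [show e = 2 * M - 8 * v by omega, show f = 2 * M - 24 * q by omega], by omega⟩
    exfalso
    have c3 := hc.dbl H.p8 (by omega)
    by_cases c4 : c = 4 * v
    · refine kil hI hg he (H.D1 (e := M - v) hv (by omega) (by omega)) (by omega) rfl
        (H.A3 (by omega) (by omega) (z1s (by omega)) (z2s (by omega)) ?_ ?_ (z5s (by omega)))
      · intro t ht _
        have := om_three hv hv4 H.p8 (by omega) (by omega)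
        have := weq (show t = 8 * q + (4 * v + v) by omega)
        omega
      · rintro t ht (h5 | h5 | ⟨p, hp, h5, h6⟩)
        · omega
        · omega
        · have := hv4.dbl hp
          omega
    refine H.term hI hg he hf rfl ?_
    rcases Nat.lt_or_ge (8 * v) c with c5 | c5
    · refine H.A3 (by omega) (by omega) (z1s (by omega)) (z2s (by omega)) ?_ (z4s (by omega))
        (z5s (by omega))
      intro t ht _
      have := H.p16.add1 (r := 8 * q - c + 8 * v) (t := t) (by omega) (by omega)
      have := hc.split (hc.dsub H.p8 h2) c5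
      have := omega_pos (n := 8 * q - c) (by omega)
      have := hv8.om
      omega
    · have := hc.dbl hv8 (by omega)
      have := hc.dbl hv4 (by omega)
      refine H.A2 (by omega) (by omega) (z1s (by omega)) ?_ (z4s (by omega)) (z5s (by omega))
      rintro t ht (⟨h5, h6, h7⟩ | h5)
      · have := H.p16.add1 (r := 8 * q + (8 * v - c)) (t := t) (by omega) (by omega)
        have := H.p8.om_add (r := 8 * v - c) (by omega)
        have := hc.sub2 hv8 (by omega)
        omega
      · omega

/-- the family `η = K/2 + v`, `32 v ≤ K` -/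
theorem famWb (hN : NS η) {v : ℕ} (hv : Pw v) (hvq : 2 * v ≤ q) (hη : η = 8 * q + v) : False := by
  have hM := H.hM
  have hv1 := hv.pos
  have hv8 := hv.m8
  obtain ⟨n, hn⟩ : ∃ n, n + (16 * q + (8 * q + 8 * v)) = 4 * M :=
    ⟨4 * M - (16 * q + (8 * q + 8 * v)), by omega⟩
  have hB := fun l => H.Wb_enum hI hb hN hv hvq hη hn (l := l)
  have o1 := H.p16.om
  have o2 := H.p8.om
  have o3 := om_two hv8 H.p8 (by omega)
  have o4 := om_three hv8 H.p8 H.p16 (by omega) (by omega)
  have o5 := om_two hv8 H.p16 (by omega)
  have o6 := om_three hv hv.two_mul hv.m4 (by omega) (by omega)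
  have l1 := H.p16.low_add (r := 8 * v) (by omega) (by omega)
  have l2 := H.p8.low_add (r := 8 * v) (by omega) (by omega)
  have l3 := hv8.low
  have a1 := H.single_std (L := 4) (r := 16 * q + (8 * q + 8 * v)) (n := n) (by omega) (by omega)
    (by omega) hn
  have a2 := H.pair_std (L := 3) (r := 8 * q + 8 * v) (L' := 1) (r' := 16 * q) (n := n) (by omega)
    (by omega) (by omega) (by omega) (by omega) (by omega) (by omega) (by omega)
  have a3 := H.pair_std (L := 3) (r := 16 * q + 8 * v) (L' := 1) (r' := 8 * q) (n := n) (by omega)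
    (by omega) (by omega) (by omega) (by omega) (by omega) (by omega) (by omega)
  have a4 := H.single_std (L := 3) (r := 4 * v + (2 * v + v)) (n := n) (by omega) (by omega)
    (by omega) (by omega)
  have hA := length_le_card (H.std_finite n) [[(4, 16 * q + (8 * q + 8 * v))],
    [(3, 8 * q + 8 * v), (1, 16 * q)], [(3, 16 * q + 8 * v), (1, 8 * q)],
    [(3, 4 * v + (2 * v + v))]]
    (by simp; omega) (by simp only [List.forall_mem_cons]; simp [a1, a2, a3, a4])
  have hAB := hI n
  rw [H.card_eq] at hAB
  simp only [List.length_cons, List.length_nil] at hA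
  have b1 : bet M b (8 * q) + 8 * q ≤ 16 * q + 8 * v := by
    by_contra hc
    have := card_le_three (S := setB M s b n) (fun l hl => by
      rcases hB l hl with h | h | h | h
      · exact Or.inl h
      · exact Or.inr (Or.inl h)
      · exact absurd h.2 hc
      · exact Or.inr (Or.inr h.1))
    omega
  have b2 : bet M b (8 * v) + 8 * v ≤ 24 * q := by
    by_contra hc
    have := card_le_three (S := setB M s b n) (fun l hl => by
      rcases hB l hl with h | h | h | h
      · exact Or.inl h
      · exact Or.inr (Or.inl h)
      · exact Or.inr (Or.inr h.1)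
      · exact absurd h.2 hc)
    omega
  refine H.two_bad hI hv8 H.p8 (by omega) le_rfl (by omega) (by omega) ?_ ?_
  · rintro t ht (h5 | h5 | ⟨p, hp, h5, h6⟩)
    · omega
    · omega
    · have := hv8.dbl hp
      omega
  · rintro t ht ⟨r, h4⟩
    omega

theorem mid_false : False := by
  have hd := H.hd
  have hw := H.hw
  have h1 := H.h1
  have hd1 := H.dpos
  have hN : NS η := by
    intro p r hp hr h
    have := hp.dbl hr (by omega)
    have c1 := H.p16.dbl hr
    by_cases c2 : r = 16 * q
    · have := hp.om
      have := weq (show δ = p by omega)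
      omega
    have c3 := hr.dbl H.p16 (by omega)
    by_cases c4 : r = 8 * q
    · have := om_two hp H.p8 (by omega)
      have := weq (show δ = 8 * q + p by omega)
      omega
    have c5 := hr.dbl H.p8 (by omega)
    exact H.famA hI hb hr.two_mul hr hp (by omega) (by omega) (by omega)
  rcases Nat.lt_or_ge 2 (omega η) with c | c
  · rcases Nat.lt_or_ge η (8 * q) with c1 | c1
    · exact H.case1 hI hb hN c1 c
    · exact H.case2 hI hb hN c1 c
  rcases om2 h1 c with h | ⟨v, X, hv, hX, hvX, h⟩
  · exact hN η (2 * η) h h.two_mul (by omega)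
  have hv1 := hv.pos
  have c1 := hv.dbl hX hvX
  have c2 := hX.dbl H.p16 (by omega)
  by_cases c3 : X = 2 * v
  · exact hN v (4 * v) hv hv.m4 (by omega)
  have c4 := hv.two_mul.dbl hX (by omega)
  have c5 := hX.dbl H.p8
  by_cases c6 : X = 4 * v
  · by_cases c7 : X = 8 * q
    · have := om_two H.p2 H.p4 (by omega)
      have := weq (show δ = 4 * q + 2 * q by omega)
      omega
    · exact H.famA hI hb hX.two_mul hv.two_mul hv (by omega) (by omega) (by omega)
  have c7 := hv.m4.dbl hX (by omega)
  by_cases c8 : X = 8 * q
  · by_cases c9 : v = q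
    · exact H.caseU hI hb hN H.p2 H.hq (by omega) (by omega) (by omega)
    · exact H.famWb hI hb hN hv (hv.dbl H.hq (by omega)) (by omega)
  · exact H.famWa hI hb hN hX hv (by omega) (by omega) h

end Mid

/-- no solution for `s ≥ 5`, `2^(s-1) < M < 2^s` and at least three binary ones in `2^s - M` -/
theorem nec5 {M s : ℕ} {b : ℕ → ℕ} (hs : 5 ≤ s) (hM : 2 ^ (s - 1) < M) (hM' : M < 2 ^ s)
    (hw : 3 ≤ omega (2 ^ s - M)) (hb : ∀ j, 1 ≤ j → j ≤ M → 0 < b j) : ¬ Ident M s b := by
  intro hid
  obtain ⟨t, rfl⟩ : ∃ t, s = t + 5 := ⟨s - 5, by omega⟩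
  have e5 : 2 ^ (t + 5) = 32 * 2 ^ t := by ring
  have e4 : 2 ^ (t + 5 - 1) = 16 * 2 ^ t := by
    rw [show t + 5 - 1 = t + 4 by omega]; ring
  have H : Mid M (t + 5) (2 ^ t) (M - 16 * 2 ^ t) (2 ^ (t + 5) - M) :=
    ⟨by omega, ⟨t, rfl⟩, e4, by omega, by omega, by omega, hw⟩
  exact H.mid_false ((ident_iff hM.le b).1 hid) hb

end Pool.Agent.P.MP_e9218d_nt
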