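import Pool.Agent.P.MP_e9218d_nt.Nec6DA

set_option maxRecDepth 100000

namespace Pool.Agent.P.MP_e9218d_nt.R6

theorem rupA : rup 9 1521 vjA vdA (eqsOf ewA) (unqAll pwA) = true := by decide +kernel

end Pool.Agent.P.MP_e9218d_nt.R6
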