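import Pool.Agent.P.MP_e9218d_nt.Nec6DB

set_option maxRecDepth 100000

namespace Pool.Agent.P.MP_e9218d_nt.R6

theorem rupB : rup 10 2245 vjB vdB (eqsOf ewB) (unqAll pwB) = true := by decide +kernel

end Pool.Agent.P.MP_e9218d_nt.R6
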