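import Pool.Agent.P.MP_e9218d_nt.Nec6DA

set_option maxRecDepth 100000

namespace Pool.Agent.P.MP_e9218d_nt.R6

theorem tabA_7 : tab (fun _ => true) 128 7 7 832 10 dmA_7 gmA_7 wmA_7 1 1521 vjA vdA (eqsOf ewA) = true := by
  decide +kernel

end Pool.Agent.P.MP_e9218d_nt.R6
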