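import Pool.Agent.P.MP_e9218d_nt.Nec6DB

set_option maxRecDepth 100000

namespace Pool.Agent.P.MP_e9218d_nt.R6

theorem tabB_8 : tab (fun _ => true) 256 8 7 1688 11 dmB_8 gmB_8 wmB_8 1 2245 vjB vdB (eqsOf ewB) = true := by
  decide +kernel

end Pool.Agent.P.MP_e9218d_nt.R6
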