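import Pool.Agent.P.MP_e9218d_nt.Nec6DC

set_option maxRecDepth 100000

namespace Pool.Agent.P.MP_e9218d_nt.R6

theorem tabC_10 : tab (stab 10) 1024 10 8 7008 13 dmC_10 gmC_10 wmC_10 2 4706 vjC vdC (eqsOf ewC) = true := by
  decide +kernel

end Pool.Agent.P.MP_e9218d_nt.R6
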