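import Pool.Agent.P.MP_e9218d_nt.Nec6DC

set_option maxRecDepth 100000

namespace Pool.Agent.P.MP_e9218d_nt.R6

theorem tabC_9 : tab (fun _ => true) 512 9 8 3504 12 dmC_9 gmC_9 wmC_9 1 4706 vjC vdC (eqsOf ewC) = true := by
  decide +kernel

end Pool.Agent.P.MP_e9218d_nt.R6
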