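import Pool.Agent.P.MP_e9218d_nt.NecT8Snd2

namespace Pool.Agent.P.MP_e9218d_nt

open Finset

structure Inv (P : Set ℕ) (M N J : ℕ) (gs : ℕ → ℕ) (H : ℕ) (gm gp : ℕ → ℕ → ℕ)
    (u v Sm Sp : ℕ) (Φm Φp : ℕ → ℕ → ℕ → ℕ) : Prop where
  hH : H ≤ N
  pm : Ph M J H gm Φm
  pp : Ph M J H gp Φp
  lower : ∀ g, Rel M N g gs → ∀ n ≤ H, SF M Φm g n ≤ cn P M gs n n
  upper : ∀ g, Rel M N gs g → ∀ n ≤ H, cn P M gs n n ≤ SF M Φp g n
  sm : Sm = enc (2 ^ (J + 12)) (SF M Φm (up v)) H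
  sp : Sp = enc (2 ^ (J + 12)) (SF M Φp (dh u)) H
  lo : ∀ j < M, dh u j ≤ gs j
  hi : ∀ j < M, gs j ≤ up v j ∨ dh v j = 0

lemma up_eq (v k : ℕ) : up v k = 4095 - dh v k := rfl

lemma rel_lo {M N u : ℕ} {gs : ℕ → ℕ} (hM : 0 < M) (h : ∀ j < M, dh u j ≤ gs j) :
    Rel M N gs (dh u) := by
  intro w _
  have := h _ (Nat.mod_lt w hM)
  omega

lemma rel_hi {M N v : ℕ} {gs : ℕ → ℕ} (hM : 0 < M) (hN : N < 4095)
    (h : ∀ j < M, gs j ≤ up v j ∨ dh v j = 0) : Rel M N (up v) gs := by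
  intro w _
  have := h _ (Nat.mod_lt w hM)
  have := up_eq v (w % M)
  omega

def Snd (P : Set ℕ) (M N J : ℕ) (gs : ℕ → ℕ) (Q : Prop) (ih : Rec) : Prop :=
  ∀ H gm gp u v Sm Sp Φm Φp L r, Inv P M N J gs H gm gp u v Sm Sp Φm Φp →
    ih H gm gp u v Sm Sp L = some r → Q

variable {P : Set ℕ} {M N J : ℕ} {gs : ℕ → ℕ} {Q : Prop} {ih : Rec} {p : ℕ → Bool}

lemma phase_sound (hP : ∀ a ∈ P, 0 < a) (hM : 0 < M) (hJ : 0 < J) (hN : N < 4095)
    (hp : ∀ t, 1 ≤ t → t ≤ N → (p t = true ↔ t ∈ P)) (hs : Snd P M N J gs Q ih)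
    {H kd u v : ℕ} {l r : List ℕ} (lo : ∀ j < M, dh u j ≤ gs j)
    (hi : ∀ j < M, gs j ≤ up v j ∨ dh v j = 0) (h : phase p M N J H kd u v l ih = some r) : Q := by
  obtain ⟨h1, h2⟩ := guard_some h
  obtain ⟨h3, h4⟩ := brec_true h1
  have hH : H ≤ N := Nat.le_of_ble_eq_true h3
  have hc : (H + 1) / 2 < 2 ^ kd := Nat.blt_eq.mp h4
  obtain ⟨tm, e1, h5⟩ := obind_some h2
  obtain ⟨tp, e2, h6⟩ := obind_some h5
  have hp' : ∀ t, 1 ≤ t → t ≤ H → (p t = true ↔ t ∈ P) := fun t a b => hp t a (b.trans hH)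
  have t1 := bld_tab hP hM hJ hp' hc (by omega) e1
  have t2 := bld_tab hP hM hJ hp' hc (by omega) e2
  have p1 := ph_tab hM (by omega) hp' t1
  have p2 := ph_tab hM (by omega) hp' t2
  exact hs _ _ _ _ _ _ _ _ _ _ _ ⟨hH, p1, p2,
    fun g hg n hn => ph_lower hP hM hH (rel_hi hM hN hi) hg hn,
    fun g hg n hn => ph_upper hP hM hH (by omega) (rel_lo hM lo) hg hn,
    ssum_eq _ p1.en M, ssum_eq _ p2.en M, lo, hi⟩ h6

variable {H u v Sm Sp : ℕ} {gm gp : ℕ → ℕ → ℕ} {Φm Φp : ℕ → ℕ → ℕ → ℕ}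

lemma goL_sound (hs : Snd P M N J gs Q ih) (I : Inv P M N J gs H gm gp u v Sm Sp Φm Φp)
    {j d : ℕ} (hj : j < M) (hd : d < up v j) (hg : gs j ≤ d) {l r : List ℕ}
    (h : goL ih H gm gp u v Sm Sp j d (up v j) l = some r) : Q := by
  have a1 := dh_lt v j
  have a2 := up_eq v j
  have e : Nat.sub 4095 (up v j) = dh v j := by show 4095 - up v j = _; omega
  unfold goL at h
  rw [e] at h
  have k1 : ∀ i, dh (uph v j (Nat.sub 4095 d) (dh v j)) i = if i = j then 4095 - d else dh v i :=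
    fun i => dh_uph v j (4095 - d) i (by omega) (by omega)
  generalize uph v j (Nat.sub 4095 d) (dh v j) = v' at h k1
  have k2 : up v' j = d := by rw [up_eq, k1, if_pos rfl]; omega
  refine hs _ _ _ _ _ _ _ Φm Φp _ _ ⟨I.hH, I.pm, I.pp, I.lower, I.upper, ?_, I.sp, I.lo, ?_⟩ h
  · rw [I.sm, ← k2]
    exact upd_enc I.pm.en hj (fun i hi => by rw [up_eq, up_eq, k1, if_neg hi])
  · intro i hi
    by_cases c : i = j
    · subst c; left; omega
    · rw [up_eq, k1, if_neg c]; exact I.hi i hi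

lemma goR_sound (hs : Snd P M N J gs Q ih) (I : Inv P M N J gs H gm gp u v Sm Sp Φm Φp)
    {j d : ℕ} (hj : j < M) (hd : d < up v j) (hl : dh u j ≤ d) (hg : d < gs j) {l r : List ℕ}
    (h : goR ih H gm gp u v Sm Sp j d (dh u j) l = some r) : Q := by
  have a2 := up_eq v j
  unfold goR at h
  have k1 : ∀ i, dh (uph u j (Nat.succ d) (dh u j)) i = if i = j then d + 1 else dh u i :=
    fun i => dh_uph u j (d + 1) i (by omega) (by omega)
  generalize uph u j (Nat.succ d) (dh u j) = u' at h k1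
  have k2 : dh u' j = Nat.succ d := by rw [k1, if_pos rfl]
  refine hs _ _ _ _ _ _ _ Φm Φp _ _ ⟨I.hH, I.pm, I.pp, I.lower, I.upper, I.sm, ?_, ?_, I.hi⟩ h
  · rw [I.sp, ← k2]
    exact upd_enc I.pp.en hj (fun i hi => by rw [k1, if_neg hi])
  · intro i hi
    by_cases c : i = j
    · subst c; omega
    · rw [k1, if_neg c]; exact I.lo i hi

lemma split_sound (hs : Snd P M N J gs Q ih) (I : Inv P M N J gs H gm gp u v Sm Sp Φm Φp)
    {j d : ℕ} {sw : Bool} {l r : List ℕ} (h : split M ih H gm gp u v Sm Sp l sw j d = some r) :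
    Q := by
  obtain ⟨h1, h2⟩ := guard_some h
  obtain ⟨h3, h4⟩ := brec_true h1
  obtain ⟨h5, h6⟩ := brec_true h3
  have hj : j < M := Nat.blt_eq.mp h5
  have hl : dh u j ≤ d := Nat.le_of_ble_eq_true h6
  have hd : d < up v j := Nat.blt_eq.mp h4
  cases sw
  · obtain ⟨a, e1, e2⟩ := obind_some h2
    rcases le_or_gt (gs j) d with c | c
    · exact goL_sound hs I hj hd c e1
    · exact goR_sound hs I hj hd hl c e2
  · obtain ⟨a, e1, e2⟩ := obind_some h2
    rcases le_or_gt (gs j) d with c | c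
    · exact goL_sound hs I hj hd c e2
    · exact goR_sound hs I hj hd hl c e1

lemma chk2_sound (hP : ∀ a ∈ P, 0 < a) (hM : 0 < M) (hJ : 0 < J) (hN : N < 4095)
    (hp : ∀ t, 1 ≤ t → t ≤ N → (p t = true ↔ t ∈ P)) {A : ℕ → ℕ}
    (hA : ∀ n ≤ N, A n = cn P M gs n n) (sol : List ℕ) (f : ℕ) :
    Snd P M N J gs ((List.range M).map (fun k => gs k + 1) = sol) (chk2 p A M N J sol f) := by
  induction f with
  | zero => intro H gm gp u v Sm Sp Φm Φp L r _ h; exact absurd h (by simp [chk2])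
  | succ f ih =>
    intro H gm gp u v Sm Sp Φm Φp L r I h
    rcases L with _ | ⟨w, l⟩
    · exact absurd h (by simp [chk2])
    have h' : node p A M N J sol (chk2 p A M N J sol f) H gm gp u v Sm Sp l (Nat.mod w 8)
      (Nat.mod (Nat.div w 8) 256) (Nat.div w 2048) = some r := h
    generalize Nat.mod w 8 = op at h'
    generalize Nat.mod (Nat.div w 8) 256 = j at h'
    generalize Nat.div w 2048 = d at h'
    rcases op with _ | _ | _ | _ | _ | op
    · obtain ⟨h1, -⟩ := guard_some h'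
      obtain ⟨h2, h3⟩ := brec_true h1
      have hd : d ≤ H := Nat.le_of_ble_eq_true h3
      have h4 : dgt Sp (J + 12) H d < A d := Nat.blt_eq.mp h2
      rw [I.sp, dgt_enc (I.pp.bd _) hd, hA d (hd.trans I.hH)] at h4
      exact absurd (I.upper _ (rel_lo hM I.lo) d hd) (by omega)
    · obtain ⟨h1, -⟩ := guard_some h'
      obtain ⟨h2, h3⟩ := brec_true h1
      have hd : d ≤ H := Nat.le_of_ble_eq_true h3
      have h4 : A d < dgt Sm (J + 12) H d := Nat.blt_eq.mp h2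
      rw [I.sm, dgt_enc (I.pm.bd _) hd, hA d (hd.trans I.hH)] at h4
      exact absurd (I.lower _ (rel_hi hM hN I.hi) d hd) (by omega)
    · exact split_sound (l := l) (sw := false) (j := j) (d := d) (r := r) ih I h'
    · exact split_sound (l := l) (sw := true) (j := j) (d := d) (r := r) ih I h'
    · exact phase_sound hP hM hJ hN hp ih I.lo I.hi h'
    · obtain ⟨h1, -⟩ := guard_some h'
      unfold solB at h1
      rw [Bool.and_eq_true, List.all_eq_true, decide_eq_true_iff] at h1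
      rw [← h1.2]
      refine List.map_congr_left fun k hk => ?_
      have h2 := of_decide_eq_true (h1.1 k hk)
      have h3 := I.lo k (List.mem_range.1 hk)
      have h4 := I.hi k (List.mem_range.1 hk)
      have h5 := up_eq v k
      omega

lemma maskB_spec {M s N D : ℕ} {A : ℕ → ℕ} (hA : ∀ n ≤ N, A n = (setA M s n).ncard)
    (h : maskB A N D = true) (t : ℕ) (h1 : 1 ≤ t) (h2 : t ≤ N) :
    bit D t = true ↔ t ∈ Dset M s := by
  unfold maskB at h
  have h3 : ¬ (anyLt (fun t => Bool.rec (Nat.blt 0 (A t)) (Nat.beq (A t) 0) (bit D t))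
      (Nat.succ N) = true) := by
    intro h4; rw [h4] at h; exact Bool.noConfusion h
  rw [anyLt_iff] at h3
  have h4 : ¬ ((Bool.rec (Nat.blt 0 (A t)) (Nat.beq (A t) 0) (bit D t) : Bool) = true) :=
    fun h5 => h3 ⟨t, by omega, h5⟩
  rw [hA t h2] at h4
  have h5 : t ∈ Dset M s ↔ (setA M s t).ncard ≠ 0 := by
    unfold Dset
    rw [Set.mem_ofPred_eq, Ne, Set.ncard_eq_zero (setA_finite M s t), ← Ne,
      ← Set.nonempty_iff_ne_empty]
    exact ⟨fun h => h.2, fun h => ⟨h1, h⟩⟩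
  rw [h5]
  cases hb : bit D t with
  | false =>
    rw [hb] at h4
    have : ¬ (0 < (setA M s t).ncard) := fun h6 => h4 (Nat.blt_eq.mpr h6)
    simp; omega
  | true =>
    rw [hb] at h4
    have : ¬ ((setA M s t).ncard = 0) := fun h6 => h4 (Nat.beq_eq.mpr h6)
    simp [this]

theorem run3_sound {M s N J D : ℕ} {A : ℕ → ℕ} {sol L : List ℕ}
    (h : run3 M N J D A sol L = true)
    (hA' : 0 < M → N < 2048 → ∀ n ≤ N, A n = (setA M s n).ncard) {b : ℕ → ℕ}
    (hpos : ∀ j, 1 ≤ j → j ≤ M → 0 < b j) (hb : Eqs M s b N) : vec M b = sol := by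
  obtain ⟨h1, h2⟩ := brec_true h
  obtain ⟨h3, h4⟩ := brec_true h2
  obtain ⟨h5, h6⟩ := brec_true h4
  obtain ⟨h7, h8⟩ := brec_true h5
  have hM : 0 < M := Nat.blt_eq.mp h7
  have hN : N < 2048 := Nat.blt_eq.mp h6
  obtain ⟨r, hr⟩ := Option.isSome_iff_exists.1 h1
  have hA : ∀ n ≤ N, A n = cn (Dset M s) M (fun j => b (j + 1) - 1) n n := by
    intro n hn
    rw [hA' hM hN n hn, hb n hn, cn, ← wch_univ_eq_cntLe _ M _ le_rfl, setB]
    congr 2
    funext e f
    have a1 := idx_pos hM e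
    have a2 := hpos _ a1 (idx_le hM e)
    unfold gap
    beta_reduce
    rw [show idx M e - 1 + 1 = idx M e by omega, show b (idx M e) - 1 + 1 = b (idx M e) by omega]
  have z : ∀ k, dh 0 k = 0 := fun k => by rw [dh_eq]; simp
  have c0 : cn (Dset M s) M (fun j => b (j + 1) - 1) 0 0 = 1 := by
    rw [cn_zero (Dset_pos M s)]; rfl
  have s0 : ∀ g, SF M (fun _ _ _ => 0) g 0 = 1 := fun g => by simp [SF]
  have p0 : Ph M J 0 (fun _ _ => 0) (fun _ _ _ => 0) := by
    refine ⟨fun _ _ => rfl, fun g n hn => ?_⟩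
    obtain rfl : n = 0 := by omega
    rw [s0]
    exact Nat.one_lt_two_pow (by omega)
  have := chk2_sound (Dset_pos M s) hM (Nat.blt_eq.mp h8) (by omega : N < 4095)
    (maskB_spec (hA' hM hN) h3) hA sol _ _ _ _ _ _ _ _ _ _ _ _
    ⟨Nat.zero_le N, p0, p0, ?_, ?_, (s0 _).symm, (s0 _).symm, ?_, fun j _ => Or.inr (z j)⟩ hr
  · rw [← this]
    refine List.map_congr_left fun k hk => ?_
    have := hpos (k + 1) (by omega) (List.mem_range.1 hk)
    omega
  · intro g _ n hn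
    obtain rfl : n = 0 := by omega
    rw [s0, c0]
  · intro g _ n hn
    obtain rfl : n = 0 := by omega
    rw [s0, c0]
  · intro j _
    rw [z]
    exact Nat.zero_le _

theorem run2_sound {M s N J D : ℕ} {sol L : List ℕ} (h : run2 M s N J D sol L = true) {b : ℕ → ℕ}
    (hpos : ∀ j, 1 ≤ j → j ≤ M → 0 < b j) (hb : Eqs M s b N) : vec M b = sol := by
  unfold run2 at h
  generalize ht : bld (memA M s) (fun _ => 0) M 40 (mkMask 28 N) N N
    (Nat.shiftLeft 1 (Nat.mul 40 N)) (bset (bfull 11 0) 0 (Nat.shiftLeft 1 (Nat.mul 40 N))) = o at h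
  rcases o with _ | t
  · exact Bool.noConfusion h
  refine run3_sound h (fun hM hN n hn => ?_) hpos hb
  have h1 := bld_tab (J := 28) (okS_pos M s) hM (by norm_num)
    (fun t h1 _ => memA_iff M s t h1) (by omega) le_rfl ht N le_rfl
  rw [h1.1, dgt_enc (K := 40) (fun m hm => lt_big (h1.2 m hm)) hn, setA_eq_wch,
    wch_univ_eq_cntLe _ M _ hn]
  rfl

end Pool.Agent.P.MP_e9218d_nt
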