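import Pool.Agent.P.MP_e9218d_nt.Nec6Rup
import Pool.Agent.P.MP_e9218d_nt.NecT8Snd3

namespace Pool.Agent.P.MP_e9218d_nt.R6

lemma idx'_eq {M e : ℕ} (hM : 0 < M) (he : 1 ≤ e) : idx' M e = idx M e := by
  obtain ⟨u, rfl⟩ : ∃ u, e = u + 1 := ⟨e - 1, by omega⟩
  have h1 := idx_succ hM u
  have h2 := idx_pos hM (u + 1)
  show u % M + 1 = _
  omega

lemma tabOf_sound {P : Set ℕ} {p : ℕ → Bool} {g : ℕ → ℕ} {M J H kd : ℕ} {k : ℕ → Bool}
    (hP : ∀ a ∈ P, 0 < a) (hM : 0 < M) (hJ : 0 < J) (hH : H < 2 ^ kd)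
    (hp : ∀ t, 1 ≤ t → t ≤ H → (p t = true ↔ t ∈ P)) (h : tabOf p g M J H kd k = true) :
    ∃ S, k S = true ∧ ∀ n ≤ H, dgt S (J + 12) H n =
      (wch P (gap M (fun i => g (i - 1) + 1)) id Set.univ n).ncard := by
  have h' : (Option.rec false (fun t => k (bget t H))
      (bld p g M (J + 12) (mkMask J H) H H (Nat.shiftLeft 1 (Nat.mul (J + 12) H))
        (bset (bfull kd 0) 0 (Nat.shiftLeft 1 (Nat.mul (J + 12) H)))) : Bool) = true := h
  generalize ht : bld p g M (J + 12) (mkMask J H) H H (Nat.shiftLeft 1 (Nat.mul (J + 12) H))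
    (bset (bfull kd 0) 0 (Nat.shiftLeft 1 (Nat.mul (J + 12) H))) = o at h'
  rcases o with _ | t
  · exact Bool.noConfusion h'
  refine ⟨bget t H, h', fun n hn => ?_⟩
  have h1 := bld_tab hP hM hJ hp hH le_rfl ht H le_rfl
  rw [h1.1, dgt_enc (fun m hm => lt_big (h1.2 m hm)) hn, wch_univ_eq_cntLe _ M _ hn]
  rfl

lemma kill_one {M s e f : ℕ} {b : ℕ → ℕ} (h : (setB M s b (e + f)).ncard = 1)
    (he : e ∈ Dset M s) (hf : f ∈ Dset M s) (hn : e + f ∈ Dset M s) : ¬ gap M b e f := by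
  intro hg
  obtain ⟨a, ha⟩ := Set.ncard_eq_one.1 h
  have h1 : [e + f] ∈ setB M s b (e + f) := ⟨by simpa using hn, by simp, by simp, by simp⟩
  have h2 : [e, f] ∈ setB M s b (e + f) :=
    ⟨by simpa using ⟨he, hf⟩, by simpa using hg, by simp, by simp⟩
  rw [ha, Set.mem_singleton_iff] at h1 h2
  rw [← h2] at h1
  simp at h1

section
variable {M s H D G : ℕ} {b : ℕ → ℕ} {ok : ℕ → Bool}

lemma inD_sound (hD : ∀ t, 1 ≤ t → t ≤ H → (bit D t = true ↔ t ∈ Dset M s)) {e : ℕ}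
    (h : inD H D e = true) : e ∈ Dset M s ∧ 1 ≤ e ∧ e ≤ H := by
  obtain ⟨a1, a2⟩ := band_true h
  obtain ⟨a3, a4⟩ := band_true a2
  have a5 := Nat.le_of_ble_eq_true a3
  have a6 := Nat.le_of_ble_eq_true a4
  exact ⟨(hD e a5 a6).1 a1, a5, a6⟩

lemma kills_sound {A : ℕ → ℕ} {W : ℕ} (hM : 0 < M)
    (hD : ∀ t, 1 ≤ t → t ≤ H → (bit D t = true ↔ t ∈ Dset M s))
    (hA : ∀ n ≤ H, ok n = true → A n = (setB M s b n).ncard)
    (hb : ∀ j, 1 ≤ j → j ≤ M → 0 < b j) : ∀ n, n ≤ M → kills ok A M H D G W n = true →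
    ∀ k < n, dg G k + 1 ≤ b (k + 1)
  | 0, _, _, _, hk => by omega
  | n + 1, hn, h, k, hk => by
    obtain ⟨a1, a2⟩ := band_true (x := kills ok A M H D G W n) h
    rcases Nat.lt_or_ge k n with h1 | h1
    · exact kills_sound hM hD hA hb n (by omega) a2 k h1
    obtain rfl : k = n := by omega
    cases hz : Nat.beq (dg G k) 0
    · rw [hz] at a1
      obtain ⟨b1, b2⟩ := band_true (c := Nat.beq (idx' M (dg W k + dg G k)) (k + 1)) a1
      obtain ⟨b3, b4⟩ := band_true b2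
      obtain ⟨b5, b6⟩ := band_true b4
      obtain ⟨b7, b8⟩ := band_true b6
      obtain ⟨b9, b10⟩ := band_true b8
      obtain ⟨c1, c2, -⟩ := inD_sound (e := dg W k + dg G k) hD b3
      obtain ⟨c3, -, -⟩ := inD_sound hD b5
      obtain ⟨c4, -, c5⟩ := inD_sound (e := dg W k + dg G k + dg W k) hD b7
      have c6 := kill_one (b := b) (by rw [← hA _ c5 b10]; exact Nat.eq_of_beq_eq_true b9) c1 c3 c4
      unfold gap at c6
      rw [← idx'_eq hM c2, Nat.eq_of_beq_eq_true b1] at c6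
      omega
    · have := hb (k + 1) (by omega) hn
      have := Nat.eq_of_beq_eq_true hz
      omega

/-- the parts after the first one -/
def tl (t VD : ℕ) : ℕ → List ℕ → List ℕ
  | _, [] => []
  | e, v :: vs => (e - t * dg VD v) :: tl t VD (e - t * dg VD v) vs

def cdf (cd : ℕ) (l : List ℕ) : ℕ := l.foldl (fun a e => a * 65536 + e) cd

lemma cdf_cons (cd e : ℕ) (l : List ℕ) : cdf cd (e :: l) = cdf (cd * 65536 + e) l :=
  List.foldl_cons ..

variable {t nv VJ VD : ℕ}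

lemma chain1_sound (hM : 0 < M) (hD : ∀ t, 1 ≤ t → t ≤ H → (bit D t = true ↔ t ∈ Dset M s))
    (b : ℕ → ℕ) : ∀ vs e sm cd k, chain1 M H D G t nv VJ VD vs e sm cd k = true →
    (∀ x ∈ e :: tl t VD e vs, x ∈ Dset M s) ∧
      (e :: tl t VD e vs).IsChain (gap M (fun i => dg G (i - 1) + 1)) ∧
      (∀ v ∈ vs, 64 ≤ v ∧ v < nv) ∧
      ((e :: tl t VD e vs).IsChain (gap M b) ↔ ∀ v ∈ vs, b (t * dg VJ v) ≤ t * dg VD v) ∧
      k (sm + (e :: tl t VD e vs).sum) (cdf cd (e :: tl t VD e vs)) = true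
  | [], e, sm, cd, k, h => by
    obtain ⟨a1, a2⟩ := band_true (c := inD H D e) h
    refine ⟨?_, by simp [tl], by simp, by simp [tl], a2⟩
    simpa [tl] using (inD_sound hD a1).1
  | v :: vs, e, sm, cd, k, h => by
    obtain ⟨a1, a2⟩ := band_true (c := inD H D e) h
    obtain ⟨a3, a4⟩ := band_true a2
    obtain ⟨a5, a6⟩ := band_true a4
    obtain ⟨a7, a8⟩ := band_true a6
    obtain ⟨a9, a10⟩ := band_true a8
    obtain ⟨a11, a12⟩ := band_true a3
    obtain ⟨c1, c2, -⟩ := inD_sound hD a1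
    have c3 : idx M e = t * dg VJ v := by rw [← idx'_eq hM c2]; exact Nat.eq_of_beq_eq_true a5
    have c4 : dg G (idx M e - 1) < t * dg VD v := by rw [← idx'_eq hM c2]; exact Nat.blt_eq.mp a7
    have c5 : t * dg VD v ≤ e := Nat.le_of_ble_eq_true a9
    obtain ⟨i1, i2, i3, i4, i5⟩ := chain1_sound hM hD b vs (e - t * dg VD v) (sm + e)
      (cd * 65536 + e) k a10
    have e0 : tl t VD e (v :: vs) = (e - t * dg VD v) :: tl t VD (e - t * dg VD v) vs := rfl
    rw [e0]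
    refine ⟨fun x hx => ?_, ?_, fun u hu => ?_, ?_, ?_⟩
    · rcases List.mem_cons.1 hx with rfl | hx
      · exact c1
      · exact i1 x hx
    · rw [List.isChain_cons_cons]
      refine ⟨?_, i2⟩
      show _ + (dg G (idx M e - 1) + 1) ≤ e
      omega
    · rcases List.mem_cons.1 hu with rfl | hu
      · exact ⟨Nat.le_of_ble_eq_true a11, Nat.blt_eq.mp a12⟩
      · exact i3 u hu
    · rw [List.isChain_cons_cons, i4, List.forall_mem_cons]
      refine and_congr_left fun _ => ?_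
      unfold gap
      rw [c3]
      omega
    · rw [List.sum_cons, ← add_assoc, cdf_cons]
      exact i5

/-- the chain described by a first part and a list of variables -/
def full (t VD : ℕ) (ch : ℕ × List ℕ) : List ℕ := t * ch.1 :: tl t VD (t * ch.1) ch.2

lemma chains_sound (hM : 0 < M) (hD : ∀ t, 1 ≤ t → t ≤ H → (bit D t = true ↔ t ∈ Dset M s))
    (b : ℕ → ℕ) (n : ℕ) : ∀ cs pc r, chains M H D G t nv VJ VD n cs pc r = true →
    cs.length = r ∧ (∀ ch ∈ cs, pc < cdf 0 (full t VD ch) ∧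
      full t VD ch ∈ wch (Dset M s) (gap M (fun i => dg G (i - 1) + 1)) id Set.univ n ∧
      (∀ v ∈ ch.2, 64 ≤ v ∧ v < nv) ∧
      ((full t VD ch).IsChain (gap M b) ↔ ∀ v ∈ ch.2, b (t * dg VJ v) ≤ t * dg VD v)) ∧
      (cs.map (full t VD)).Nodup
  | [], _, r, h => ⟨(Nat.eq_of_beq_eq_true h).symm, by simp, by simp⟩
  | ch :: cs, pc, r, h => by
    obtain ⟨i1, i2, i3, i4, i5⟩ := chain1_sound hM hD b ch.2 (t * ch.1) 0 0 _ h
    obtain ⟨a1, a2⟩ := band_true (c := Nat.beq (0 + (full t VD ch).sum) n) i5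
    obtain ⟨a3, a4⟩ := band_true (c := Nat.blt pc (cdf 0 (full t VD ch))) a2
    have a5 := Nat.eq_of_beq_eq_true a1
    have a6 : pc < cdf 0 (full t VD ch) := Nat.blt_eq.mp a3
    cases r with
    | zero => exact Bool.noConfusion a4
    | succ r =>
      obtain ⟨j1, j2, j3⟩ := chains_sound hM hD b n cs (cdf 0 (full t VD ch)) r a4
      refine ⟨by rw [List.length_cons, j1], fun x hx => ?_, ?_⟩
      · rcases List.mem_cons.1 hx with rfl | hx
        · exact ⟨a6, ⟨i1, i2, by simp, by rw [List.map_id]; omega⟩, i3, i4⟩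
        · exact ⟨lt_trans a6 (j2 x hx).1, (j2 x hx).2⟩
      · rw [List.map_cons, List.nodup_cons]
        refine ⟨fun hm => ?_, j3⟩
        obtain ⟨x, hx, hx'⟩ := List.mem_map.1 hm
        have := (j2 x hx).1
        rw [hx'] at this
        exact lt_irrefl _ this

open Classical in
lemma count_of_card {S : Set (List ℕ)} (hS : S.Finite) {L : List (List ℕ)} (h1 : L.Nodup)
    (h2 : ∀ l ∈ L, l ∈ S) (h3 : S.ncard = L.length) (Q : List ℕ → Prop) :
    {l ∈ S | Q l}.ncard = L.countP (fun l => decide (Q l)) := by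
  have e1 : (↑L.toFinset : Set (List ℕ)) = S := by
    refine Set.eq_of_subset_of_ncard_le (fun l hl => h2 l (by simpa using hl)) ?_ hS
    rw [h3, Set.ncard_coe_finset, List.toFinset_card_of_nodup h1]
  have e2 : {l ∈ S | Q l} = ↑(L.filter (fun l => decide (Q l))).toFinset := by
    rw [← e1]
    ext l
    simp
  rw [e2, Set.ncard_coe_finset, List.toFinset_card_of_nodup (h1.filter _),
    List.countP_eq_length_filter]

lemma eqsB_sound {A B : ℕ → ℕ} (hM : 0 < M)
    (hD : ∀ t, 1 ≤ t → t ≤ H → (bit D t = true ↔ t ∈ Dset M s))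
    (hA : ∀ n ≤ H, ok n = true → A n = (setB M s b n).ncard)
    (hB : ∀ n ≤ H, B n =
      (wch (Dset M s) (gap M (fun i => dg G (i - 1) + 1)) id Set.univ n).ncard)
    (hG : ∀ k < M, dg G k + 1 ≤ b (k + 1)) : ∀ es, eqsB ok A B M H D G t nv VJ VD es = true →
    ∀ q ∈ es, EqOk nv (fun v => b (t * dg VJ v) ≤ t * dg VD v) q
  | [], _, _, hq => by simp at hq
  | q :: es, h, q', hq => by
    classical
    obtain ⟨a1, a2⟩ := band_true (c := Nat.ble (t * q.1) H) h
    obtain ⟨a3, a4⟩ := band_true a2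
    obtain ⟨a5, a6⟩ := band_true a4
    obtain ⟨a7, a8⟩ := band_true a6
    rcases List.mem_cons.1 hq with rfl | hq
    swap
    · exact eqsB_sound hM hD hA hB hG es a8 q' hq
    have b1 : t * q'.1 ≤ H := Nat.le_of_ble_eq_true a1
    obtain ⟨j1, j2, j3⟩ := chains_sound hM hD b (t * q'.1) q'.2.2 0 (B (t * q'.1)) a7
    refine ⟨fun ch hch => (j2 ch hch).2.2.1, ?_⟩
    have c1 := count_of_card (wch_finite (adm_Dset M s) (gap M (fun i => dg G (i - 1) + 1))
      Set.univ (t * q'.1)) j3 (fun l hl => by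
        obtain ⟨ch, h1, rfl⟩ := List.mem_map.1 hl
        exact (j2 ch h1).2.1) (by rw [← hB _ b1, List.length_map, j1])
      (fun l => l.IsChain (gap M b))
    have c2 : setB M s b (t * q'.1) = {l ∈ wch (Dset M s) (gap M (fun i => dg G (i - 1) + 1)) id
        Set.univ (t * q'.1) | l.IsChain (gap M b)} := by
      ext l
      constructor
      · rintro ⟨h1, h2, h3, h4⟩
        refine ⟨⟨h1, h2.imp fun e f hef => ?_, h3, h4⟩, h2⟩
        have d1 := idx_pos hM e
        have d2 := idx_le hM e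
        have d3 := hG (idx M e - 1) (by omega)
        rw [show idx M e - 1 + 1 = idx M e by omega] at d3
        unfold gap at hef
        show f + (dg G (idx M e - 1) + 1) ≤ e
        omega
      · rintro ⟨⟨h1, -, h3, h4⟩, h2⟩
        exact ⟨h1, h2, h3, h4⟩
    have c3 : A (t * q'.1) = q'.2.1 := Nat.eq_of_beq_eq_true a5
    rw [← c3, hA _ b1 a3, c2, c1, List.countP_map]
    refine List.countP_congr fun ch hch => ?_
    simp only [decide_eq_true_eq, Function.comp]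
    exact (j2 ch hch).2.2.2.symm

end

theorem tab_sound {ok : ℕ → Bool} {M s J H kd D G W t nv VJ VD : ℕ} {es : List Eqn}
    (h : tab ok M s J H kd D G W t nv VJ VD es = true) {b : ℕ → ℕ}
    (hb : ∀ j, 1 ≤ j → j ≤ M → 0 < b j)
    (he : ∀ n, ok n = true → (setA M s n).ncard = (setB M s b n).ncard) :
    ∀ q ∈ es, EqOk nv (fun v => b (t * dg VJ v) ≤ t * dg VD v) q := by
  obtain ⟨a1, a2⟩ := band_true h
  obtain ⟨a3, a4⟩ := band_true a2
  obtain ⟨a5, a6⟩ := band_true a4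
  have hM : 0 < M := Nat.blt_eq.mp a1
  have hJ : 0 < J := Nat.blt_eq.mp a3
  have hH : H < 2 ^ kd := Nat.blt_eq.mp a5
  obtain ⟨SA, b1, b2⟩ := tabOf_sound (okS_pos M s) hM hJ hH (fun t h1 _ => memA_iff M s t h1) a6
  have hA : ∀ n ≤ H, dgt SA (J + 12) H n = (setA M s n).ncard := fun n hn => by
    rw [b2 n hn, setA_eq_wch]
  obtain ⟨b3, b4⟩ := band_true b1
  obtain ⟨b5, b6⟩ := band_true b4
  have hD := maskB_spec hA b3
  have hA' : ∀ n ≤ H, ok n = true → dgt SA (J + 12) H n = (setB M s b n).ncard :=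
    fun n hn h1 => by rw [hA n hn, he n h1]
  obtain ⟨SB, b7, b8⟩ := tabOf_sound (Dset_pos M s) hM hJ hH hD b6
  exact eqsB_sound hM hD hA' b8 (kills_sound hM hD hA' hb M le_rfl b5) es b7

/-- tables and refutation together -/
theorem cert_sound {ok : ℕ → Bool} {M s J H kd D G W t nv VJ VD kd' : ℕ} {es : List Eqn}
    {L : List ℕ} (h : tab ok M s J H kd D G W t nv VJ VD es = true)
    (h' : rup kd' nv VJ VD es L = true) {b : ℕ → ℕ} (hb : ∀ j, 1 ≤ j → j ≤ M → 0 < b j)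
    (he : ∀ n, ok n = true → (setA M s n).ncard = (setB M s b n).ncard) : False :=
  rup_sound h' _ (fun i h1 h2 h3 => by
    rw [← h1]; exact le_trans h3 (Nat.mul_le_mul_left t h2)) (tab_sound h hb he)

end Pool.Agent.P.MP_e9218d_nt.R6
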