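import Pool.Agent.P.MP_e9218d_nt.NecT8Chk

namespace Pool.Agent.P.MP_e9218d_nt.R6

/-! ### a checker for clause learning certificates -/

/-- a constraint: kind, bound, masks -/
abbrev Con : Type := Bool × ℕ × List ℕ

/-- an equation: `n`, the count, the chains (first part, variables) -/
abbrev Eqn : Type := ℕ × ℕ × List (ℕ × List ℕ)

inductive Gt : Type
  | lf : Con → Gt
  | nd : ℕ → Gt → Gt → Gt

noncomputable def gget (t : Gt) (i : ℕ) : Con :=
  Gt.rec (fun v => v) (fun q _ _ gl gr => Bool.rec gl gr (Nat.ble q i)) t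

noncomputable def gset (t : Gt) (i : ℕ) (v : Con) : (Gt → Bool) → Bool :=
  Gt.rec (fun _ k => k (Gt.lf v))
    (fun q l r sl sr k => Bool.rec (sl fun l' => k (Gt.nd q l' r)) (sr fun r' => k (Gt.nd q l r'))
      (Nat.ble q i)) t

noncomputable def gfull (k : ℕ) : ℕ → Gt :=
  Nat.rec (fun _ => Gt.lf (false, 0, []))
    (fun k ih a => fc (Nat.add a (Nat.pow 2 k)) fun q => Gt.nd q (ih a) (ih q)) k

noncomputable def band (c x : Bool) : Bool := Bool.rec false x c

noncomputable def cU (X : ℕ) (l : List ℕ) : ℕ → Bool :=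
  List.rec (fun _ => false)
    (fun m _ ih k => Bool.rec (ih k) (Nat.rec true (fun k _ => ih k) k) (Nat.beq (Nat.land m X) m)) l

noncomputable def cL (X : ℕ) (l : List ℕ) : ℕ → Bool :=
  List.rec (fun _ => false)
    (fun m _ ih k => Bool.rec (Nat.rec true (fun k _ => ih k) k) (ih k)
      (Nat.ble (Nat.land m X) 4294967295)) l

noncomputable def viol (X : ℕ) (C : Con) : Bool :=
  Prod.rec (fun kd r => Prod.rec (fun a l => Bool.rec (cU X l a) (cL X l a) kd) r) C

/-- closure of `X` under the implications `p → p + 1` marked in `Lk` -/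
def clo (Lk X : ℕ) : ℕ := Nat.lor X (Nat.xor (Nat.add Lk (Nat.land X Lk)) Lk)

def addb (X p : ℕ) : ℕ := Nat.lor X (Nat.shiftLeft 1 p)

def upd (X p z : ℕ) : ℕ := Nat.xor (Nat.lor X (Nat.shiftLeft 1 p)) z

def low (x : ℕ) : ℕ := Nat.land x 4294967295

abbrev RecR : Type := Gt → ℕ → ℕ → ℕ → ℕ → Bool

noncomputable def rstep (c Lk : ℕ) (ih : RecR) (db : Gt) (nx X0 X m tg p cid z : ℕ) : Bool :=
  Nat.rec (fc (upd X p z) fun Y => fc (clo Lk Y) fun Y => fc (addb m p) fun m => ih db nx X0 Y m)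
    (fun tg _ => Nat.rec
      (fc (upd X (Nat.sub c p) z) fun Y => band (viol Y (gget db cid)) (band (Nat.ble p c)
        (fc (upd X p z) fun Y => fc (clo Lk Y) fun Y => ih db nx X0 Y m)))
      (fun tg _ => Nat.rec
        (band (viol X (gget db cid)) (Bool.rec
          (gset db nx (false, 0, [m]) fun db => fc (Nat.succ nx) fun nx => fc (low nx) fun m =>
            fc (Nat.xor X0 z) fun Y => ih db nx Y Y m)
          true (Nat.ble m 4294967295)))
        (fun _ _ => band (viol X (gget db cid))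
          (band (Nat.beq m (addb (low nx) (Nat.sub c p))) (band (Nat.ble p c)
            (fc (upd X0 p z) fun Y => fc (clo Lk Y) fun Y => fc (low nx) fun m =>
              ih db nx Y Y m)))) tg) tg) tg

noncomputable def rrun (c Lk : ℕ) (W : List ℕ) : RecR :=
  List.rec (fun _ _ _ _ _ => false)
    (fun w _ ih db nx X0 X m => fc w fun w => fc (Nat.mod (Nat.div w 4) 65536) fun p =>
      fc (Nat.div w 262144) fun cid => fc (Nat.shiftLeft (low w) 32) fun z =>
        rstep c Lk ih db nx X0 X m (Nat.mod w 4) p cid z) W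

/-- digit `k` in base `65536` -/
def dg (v k : ℕ) : ℕ := Nat.mod (Nat.shiftRight v (Nat.mul 16 k)) 65536

noncomputable def mkLk (VJ VD c n : ℕ) : ℕ :=
  Nat.rec 0 (fun i ih => fc (Nat.add i 64) fun i =>
    Bool.rec ih (addb (addb ih i) (Nat.sub c (Nat.succ i)))
    (band (Nat.beq (dg VJ i) (dg VJ (Nat.succ i))) (Nat.ble (dg VD i) (dg VD (Nat.succ i))))) n

noncomputable def pm (z : ℕ) (vs : List ℕ) : ℕ := List.rec z (fun v _ ih => addb ih v) vs

noncomputable def nm (c z : ℕ) (vs : List ℕ) : ℕ :=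
  List.rec z (fun v _ ih => addb ih (Nat.sub c v)) vs

noncomputable def bm (c y : ℕ) (cs : List (ℕ × List ℕ)) : (List ℕ → List ℕ → ℕ → Bool) → Bool :=
  List.rec (fun k => k [] [] 0)
    (fun ch _ ih k => ih fun P N n => fc (low (Nat.add y n)) fun z => fc (pm z ch.2) fun x =>
      fc (nm c z ch.2) fun x' => fc (Nat.succ n) fun n => k (x :: P) (x' :: N) n) cs

noncomputable def bdb (c : ℕ) (es : List Eqn) (k : Gt → ℕ → Bool) : Gt → ℕ → Bool :=
  List.rec k (fun q _ ih db nx => fc q.2.1 fun a => fc (Nat.mul (Nat.succ nx) 65536) fun y =>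
    bm c y q.2.2 fun P N n =>
    fc (Nat.sub n a) fun a' => gset db nx (false, a, P) fun db => fc (Nat.succ nx) fun nx =>
      gset db nx (true, a', N) fun db => fc (Nat.succ nx) fun nx => ih db nx) es

noncomputable def rup (kd nv VJ VD : ℕ) (es : List Eqn) (W : List ℕ) : Bool :=
  band (Nat.ble 65 nv) (fc VJ fun VJ => fc VD fun VD =>
  fc (Nat.sub (Nat.mul 2 nv) 1) fun c => fc (mkLk VJ VD c (Nat.sub nv 65)) fun Lk =>
    bdb c es (fun db nx => fc (low nx) fun m => rrun c Lk W db nx 4294967295 4294967295 m)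
      (gfull kd 0) 0)

/-! ### reading the data -/

noncomputable def unq (f : ℕ) : ℕ → List ℕ → List ℕ :=
  Nat.rec (fun _ acc => acc) (fun _ ih n acc =>
    Bool.rec (Nat.mod n 4294967296 :: ih (Nat.div n 4294967296) acc) acc (Nat.ble n 1)) f

noncomputable def unqAll (L : List ℕ) : List ℕ := List.rec [] (fun c _ ih => unq 400 c ih) L

noncomputable def prs (W : List ℕ) : List ℕ → List (ℕ × List ℕ) → List Eqn → List Eqn :=
  List.rec (fun _ _ es => es) (fun w _ ih vs cs es => fc w fun w => fc (Nat.div w 4) fun x =>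
    Nat.rec (ih (x :: vs) cs es) (fun tg _ => Nat.rec (ih [] ((x, vs) :: cs) es)
      (fun _ _ => fc (Nat.mod x 65536) fun n => fc (Nat.div x 65536) fun a =>
        ih [] [] ((n, a, cs) :: es)) tg) (Nat.mod w 4)) W

noncomputable def eqsOf (L : List ℕ) : List Eqn := prs (unqAll L) [] [] []

/-- glue numbers of `w` bits -/
noncomputable def glue (w : ℕ) (L : List ℕ) : ℕ :=
  List.rec 0 (fun c _ ih => Nat.add (Nat.shiftLeft ih w) c) L

/-! ### the tables -/

noncomputable def idx' (M e : ℕ) : ℕ := Nat.succ (Nat.mod (Nat.pred e) M)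

noncomputable def inD (H D e : ℕ) : Bool := band (bit D e) (band (Nat.ble 1 e) (Nat.ble e H))

/-- the lower bounds in `G` follow from equations with `A = 1` -/
noncomputable def kills (ok : ℕ → Bool) (A : ℕ → ℕ) (M H D G W : ℕ) (n : ℕ) : Bool :=
  Nat.rec true (fun k ih => fc k fun k => fc (dg G k) fun g => band
    (Bool.rec (fc (dg W k) fun f => fc (Nat.add f g) fun e => fc (Nat.add e f) fun n =>
      band (Nat.beq (idx' M e) (Nat.succ k)) (band (inD H D e) (band (inD H D f)
        (band (inD H D n) (band (Nat.beq (A n) 1) (ok n)))))) true (Nat.beq g 0)) ih) n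

/-- checks one chain; the continuation gets the sum and a code of the chain -/
noncomputable def chain1 (M H D G t nv VJ VD : ℕ) (vs : List ℕ) :
    ℕ → ℕ → ℕ → (ℕ → ℕ → Bool) → Bool :=
  List.rec (fun e sm cd k => band (inD H D e) (k (Nat.add sm e) (Nat.add (Nat.mul cd 65536) e)))
    (fun v _ ih e sm cd k => fc (Nat.mul t (dg VD v)) fun d => fc (idx' M e) fun j =>
      band (inD H D e) (band (band (Nat.ble 64 v) (Nat.blt v nv)) (band (Nat.beq j (Nat.mul t (dg VJ v)))
        (band (Nat.blt (dg G (Nat.pred j)) d) (band (Nat.ble d e)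
          (fc (Nat.sub e d) fun f => fc (Nat.add sm e) fun sm =>
            fc (Nat.add (Nat.mul cd 65536) e) fun cd => ih f sm cd k)))))) vs

noncomputable def chains (M H D G t nv VJ VD n : ℕ) (cs : List (ℕ × List ℕ)) : ℕ → ℕ → Bool :=
  List.rec (fun _ r => Nat.beq r 0)
    (fun ch _ ih pc r => fc (Nat.mul t ch.1) fun e => chain1 M H D G t nv VJ VD ch.2 e 0 0
      fun sm cd => fc cd fun cd => band (Nat.beq sm n) (band (Nat.blt pc cd)
        (Nat.rec false (fun r _ => ih cd r) r))) cs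

noncomputable def eqsB (ok : ℕ → Bool) (A B : ℕ → ℕ) (M H D G t nv VJ VD : ℕ) (es : List Eqn) :
    Bool :=
  List.rec true (fun q _ ih => fc (Nat.mul t q.1) fun n => band (Nat.ble n H) (band (ok n)
    (band (Nat.beq (A n) q.2.1) (band (fc (B n) (chains M H D G t nv VJ VD n q.2.2 0)) ih)))) es

noncomputable def tabOf (p : ℕ → Bool) (g : ℕ → ℕ) (M J H kd : ℕ) (k : ℕ → Bool) : Bool :=
  fc (mkMask J H) fun mask => fc (Nat.shiftLeft 1 (Nat.mul (Nat.add J 12) H)) fun one =>
    Option.rec false (fun t => fc (bget t H) k)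
      (bld p g M (Nat.add J 12) mask H H one (bset (bfull kd 0) 0 one))

noncomputable def tab (ok : ℕ → Bool) (M s J H kd D G W t nv VJ VD : ℕ) (es : List Eqn) : Bool :=
  band (Nat.blt 0 M) (band (Nat.blt 0 J) (band (Nat.blt H (Nat.pow 2 kd))
    (fc D fun D => fc G fun G => fc W fun W => fc VJ fun VJ => fc VD fun VD =>
    tabOf (memA M s) (fun _ => 0) M J H kd fun SA =>
      band (maskB (dgt SA (Nat.add J 12) H) H D)
        (band (kills ok (dgt SA (Nat.add J 12) H) M H D G W M)
          (tabOf (bit D) (dg G) M J H kd fun SB =>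
            eqsB ok (dgt SA (Nat.add J 12) H) (dgt SB (Nat.add J 12) H) M H D G t nv VJ VD es)))))

/-- number of binary ones, with fuel -/
noncomputable def pcn (f : ℕ) : ℕ → ℕ :=
  Nat.rec (fun _ => 0) (fun _ ih x => Nat.add (Nat.mod x 2) (ih (Nat.div x 2))) f

/-- the stable equations -/
noncomputable def stab (s n : ℕ) : Bool :=
  Nat.ble (Nat.div n (Nat.pow 2 s))
    (pcn s (Nat.sub (Nat.pred (Nat.pow 2 s)) (Nat.mod n (Nat.pow 2 s))))

end Pool.Agent.P.MP_e9218d_nt.R6
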