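import Pool.Agent.P.MP_e9218d_nt.Nec7Red2
import Pool.Agent.P.MP_e9218d_nt.Nec6Chk

namespace Pool.Agent.P.MP_e9218d_nt.R6

open T7

lemma okA_iff6 (h p e : ℕ) : okA (2 ^ (h + p)) (h + p) e ↔
    0 < T7.up p e ∧ omega (lw h (T7.up p e)) + omega (lw p e) = 1 := by
  rw [← omega_mul_add _ _ _ (up_spec p e).2, ← (up_up h p e).2, up_pos]
  generalize h + p = t
  obtain ⟨h1, h2⟩ := up_spec t e
  unfold okA
  refine and_congr_right fun he => ⟨?_, fun hh => ?_⟩
  · rintro ⟨j, hj, c, hc⟩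
    rw [(up_unique (p := t) (e := e) (u := c) (w := 2 ^ j) (by rw [hc, mul_comm])
      (Nat.pow_lt_pow_right (by norm_num) hj)).2, omega_two_pow]
  · rcases omega_le_one hh.le with h3 | ⟨c, h3⟩
    · rw [h3, omega_zero] at hh; omega
    · rw [h3] at h1 h2
      exact ⟨c, (Nat.pow_lt_pow_iff_right (by norm_num : 1 < 2)).1 h2,
        T7.up t e, by rw [h1, mul_comm]⟩

lemma ex0_okA6 {h p e : ℕ} (he : okA (2 ^ (h + p)) (h + p) e) : Ex0 h p e := by
  obtain ⟨h1, h2⟩ := (okA_iff6 h p e).1 he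
  have := (up_pos (p := h)).2 h1
  unfold Ex0; omega

lemma ex0_D6 {h p e : ℕ} (he : e ∈ Dset (2 ^ (h + p)) (h + p)) : Ex0 h p e := by
  obtain ⟨-, S, h1, rfl⟩ := he
  induction S using Finset.induction_on with
  | empty => exact ex0_zero h p
  | insert a S ha ih =>
    rw [Finset.sum_insert ha]
    exact ex0_add (ex0_okA6 (h1 a (by simp))) (ih fun e he => h1 e (by simp [he]))

lemma cardA_tau6 {h p q n : ℕ} (hpq : p ≤ q) (hg : Good h p n) :
    (setA (2 ^ (h + p)) (h + p) n).ncard = (setA (2 ^ (h + q)) (h + q) (tau p q n)).ncard := by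
  have hc : 2 ^ p ≤ 2 ^ q := Nat.pow_le_pow_right (by norm_num) hpq
  have hw : ∀ e, lw p e < 2 ^ q := fun e => lt_of_lt_of_le (up_spec p e).2 hc
  rw [setA_eq_wch, setA_eq_wch]
  refine transfer hpq (fun e he => ⟨he.1, ex0_okA6 he⟩) (fun e he => ⟨he.1, ex0_okA6 he⟩)
    (fun e _ => ?_) (fun e f => ?_) hg
  · show okA _ _ _ ↔ okA _ _ _
    rw [okA_iff6, okA_iff6, (up_tau (hw e)).1, (up_tau (hw e)).2]
  · show f + 1 ≤ e ↔ tau p q f + 1 ≤ tau p q e
    obtain ⟨a1, a2⟩ := up_spec p e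
    obtain ⟨a3, a4⟩ := up_spec p f
    have a5 := tau_add (hw e)
    have a6 := tau_add (hw f)
    have b1 := lex_le (A := T7.up p f) (B := T7.up p e) (x := lw p e + 1) a2 a4
    have b2 := lex_le (A := T7.up p f) (B := T7.up p e) (x := lw p e + 1) (hw e) (hw f)
    omega

theorem reduce6 {h p q : ℕ} (hpq : p ≤ q) {b : ℕ → ℕ}
    (hb : ∀ j, 1 ≤ j → j ≤ 2 ^ (h + q) → 0 < b j)
    (he : ∀ n, (setA (2 ^ (h + q)) (h + q) n).ncard = (setB (2 ^ (h + q)) (h + q) b n).ncard) :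
    (∀ j, 0 < bsm h p q b j) ∧ ∀ n, Good h p n → (setA (2 ^ (h + p)) (h + p) n).ncard =
      (setB (2 ^ (h + p)) (h + p) (bsm h p q b) n).ncard := by
  have hc : 2 ^ p ≤ 2 ^ q := Nat.pow_le_pow_right (by norm_num) hpq
  have hw : ∀ e, lw p e < 2 ^ q := fun e => lt_of_lt_of_le (up_spec p e).2 hc
  have hM : 0 < 2 ^ (h + q) := by positivity
  have hb' : ∀ e, 0 < b (idx (2 ^ (h + q)) e) := fun e => hb _ (idx_pos hM e) (idx_le hM e)
  refine ⟨fun j => ?_, fun n hg => ?_⟩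
  · have := thr_add (Q := 2 ^ q) (up_spec p j).2 (hb' (tau p q j))
    unfold bsm; omega
  · rw [cardA_tau6 hpq hg, he]
    symm
    refine transfer hpq (fun e he => ⟨he.1, ex0_D6 he⟩) (fun e he => ⟨he.1, ex0_D6 he⟩)
      (fun e hge => ?_) (fun e f => ?_) hg
    · rw [mem_D_iff, mem_D_iff, cardA_tau6 hpq hge, ← up_pos (p := p) (e := e),
        ← up_pos (p := q) (e := tau p q e),
        (up_tau (hw e)).1]
    · unfold gap
      rw [bsm_idx h p q b hpq]
      obtain ⟨a1, a2⟩ := up_spec p e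
      obtain ⟨a3, a4⟩ := up_spec p f
      have a5 := tau_add (hw e)
      have a6 := tau_add (hw f)
      have a7 := thr_add (Q := 2 ^ q) a2 (hb' (tau p q e))
      unfold bsm
      generalize b (idx (2 ^ (h + q)) (tau p q e)) = β at a7 ⊢
      have a8 := Nat.div_add_mod (β + lw p e) (2 ^ q)
      have a9 := Nat.mod_lt (β + lw p e) (show 0 < 2 ^ q by positivity)
      generalize (β + lw p e) / 2 ^ q = U at a7 a8 ⊢
      generalize (β + lw p e) % 2 ^ q = W at a7 a8 a9 ⊢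
      have b1 := lex_le (A := T7.up p f + U) (B := T7.up p e) (x := min W (2 ^ p))
        (min_le_right _ _) a4
      have b2 := lex_le (A := T7.up p f + U) (B := T7.up p e) (x := W) a9.le (hw f)
      rw [add_mul] at b1 b2
      rw [mul_comm] at a8
      omega

lemma stab_good {h n : ℕ} (hs : stab h n = true) : Good h 0 n := by
  have h1 : n / 2 ^ h ≤ T7.pc h (2 ^ h - 1 - n % 2 ^ h) := Nat.le_of_ble_eq_true hs
  have p0 : 0 < 2 ^ h := by positivity
  have h2 := Nat.mod_lt n p0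
  have h3 := Nat.div_add_mod n (2 ^ h)
  rw [pc_eq _ _ (by omega)] at h1
  obtain ⟨a1, a2⟩ := up_unique (p := 0) (e := n) (u := n) (w := 0) (by simp) (by simp)
  obtain ⟨a3, a4⟩ := up_unique (p := h) (e := n + 1) (u := n / 2 ^ h + 1)
    (w := 2 ^ h - 1 - n % 2 ^ h) (by rw [add_mul, mul_comm]; omega) (by omega)
  unfold Good
  rw [a1, a2, a3, a4]
  omega

end Pool.Agent.P.MP_e9218d_nt.R6
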