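import Pool.Agent.P.MP_e9218d_nt.NecT8Fin
import Pool.Agent.P.MP_e9218d_nt.NecT8R5A
import Pool.Agent.P.MP_e9218d_nt.NecT8R5B
import Pool.Agent.P.MP_e9218d_nt.NecT8R5C

namespace Pool.Agent.P.MP_e9218d_nt

lemma vec_andrews_31 : vec 31 (andrews 31) =
    [96, 96, 69, 98, 69, 69, 46, 102, 73, 73, 46, 75, 46, 46, 31, 110, 81, 81, 54, 83, 54, 54, 31, 87, 58, 58, 31, 60, 31, 31, 125] := by
  decide +kernel

theorem runs2_5 (M : ℕ) (h1 : 16 ≤ M) (h2 : M ≤ 81) :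
    ∃ N J D L sol, (M = 81 → N ≤ 4 * 81) ∧ (sol = [] ∨ (M + 1 = 2 ^ 5 ∧ sol = vec M (andrews M))) ∧
      run2 M 5 N J D sol L = true := by
  interval_cases M
  · exact ⟨_, _, _, _, _, by omega, Or.inl rfl, run2_5_16⟩
  · exact ⟨_, _, _, _, _, by omega, Or.inl rfl, run2_5_17⟩
  · exact ⟨_, _, _, _, _, by omega, Or.inl rfl, run2_5_18⟩
  · exact ⟨_, _, _, _, _, by omega, Or.inl rfl, run2_5_19⟩
  · exact ⟨_, _, _, _, _, by omega, Or.inl rfl, run2_5_20⟩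
  · exact ⟨_, _, _, _, _, by omega, Or.inl rfl, run2_5_21⟩
  · exact ⟨_, _, _, _, _, by omega, Or.inl rfl, run2_5_22⟩
  · exact ⟨_, _, _, _, _, by omega, Or.inl rfl, run2_5_23⟩
  · exact ⟨_, _, _, _, _, by omega, Or.inl rfl, run2_5_24⟩
  · exact ⟨_, _, _, _, _, by omega, Or.inl rfl, run2_5_25⟩
  · exact ⟨_, _, _, _, _, by omega, Or.inl rfl, run2_5_26⟩
  · exact ⟨_, _, _, _, _, by omega, Or.inl rfl, run2_5_27⟩
  · exact ⟨_, _, _, _, _, by omega, Or.inl rfl, run2_5_28⟩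
  · exact ⟨_, _, _, _, _, by omega, Or.inl rfl, run2_5_29⟩
  · exact ⟨_, _, _, _, _, by omega, Or.inl rfl, run2_5_30⟩
  · exact ⟨_, _, _, _, _, by omega, Or.inr ⟨rfl, vec_andrews_31.symm⟩, run2_5_31⟩
  · exact ⟨_, _, _, _, _, by omega, Or.inl rfl, run2_5_32⟩
  · exact ⟨_, _, _, _, _, by omega, Or.inl rfl, run2_5_33⟩
  · exact ⟨_, _, _, _, _, by omega, Or.inl rfl, run2_5_34⟩
  · exact ⟨_, _, _, _, _, by omega, Or.inl rfl, run2_5_35⟩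
  · exact ⟨_, _, _, _, _, by omega, Or.inl rfl, run2_5_36⟩
  · exact ⟨_, _, _, _, _, by omega, Or.inl rfl, run2_5_37⟩
  · exact ⟨_, _, _, _, _, by omega, Or.inl rfl, run2_5_38⟩
  · exact ⟨_, _, _, _, _, by omega, Or.inl rfl, run2_5_39⟩
  · exact ⟨_, _, _, _, _, by omega, Or.inl rfl, run2_5_40⟩
  · exact ⟨_, _, _, _, _, by omega, Or.inl rfl, run2_5_41⟩
  · exact ⟨_, _, _, _, _, by omega, Or.inl rfl, run2_5_42⟩
  · exact ⟨_, _, _, _, _, by omega, Or.inl rfl, run2_5_43⟩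
  · exact ⟨_, _, _, _, _, by omega, Or.inl rfl, run2_5_44⟩
  · exact ⟨_, _, _, _, _, by omega, Or.inl rfl, run2_5_45⟩
  · exact ⟨_, _, _, _, _, by omega, Or.inl rfl, run2_5_46⟩
  · exact ⟨_, _, _, _, _, by omega, Or.inl rfl, run2_5_47⟩
  · exact ⟨_, _, _, _, _, by omega, Or.inl rfl, run2_5_48⟩
  · exact ⟨_, _, _, _, _, by omega, Or.inl rfl, run2_5_49⟩
  · exact ⟨_, _, _, _, _, by omega, Or.inl rfl, run2_5_50⟩
  · exact ⟨_, _, _, _, _, by omega, Or.inl rfl, run2_5_51⟩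
  · exact ⟨_, _, _, _, _, by omega, Or.inl rfl, run2_5_52⟩
  · exact ⟨_, _, _, _, _, by omega, Or.inl rfl, run2_5_53⟩
  · exact ⟨_, _, _, _, _, by omega, Or.inl rfl, run2_5_54⟩
  · exact ⟨_, _, _, _, _, by omega, Or.inl rfl, run2_5_55⟩
  · exact ⟨_, _, _, _, _, by omega, Or.inl rfl, run2_5_56⟩
  · exact ⟨_, _, _, _, _, by omega, Or.inl rfl, run2_5_57⟩
  · exact ⟨_, _, _, _, _, by omega, Or.inl rfl, run2_5_58⟩
  · exact ⟨_, _, _, _, _, by omega, Or.inl rfl, run2_5_59⟩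
  · exact ⟨_, _, _, _, _, by omega, Or.inl rfl, run2_5_60⟩
  · exact ⟨_, _, _, _, _, by omega, Or.inl rfl, run2_5_61⟩
  · exact ⟨_, _, _, _, _, by omega, Or.inl rfl, run2_5_62⟩
  · exact ⟨_, _, _, _, _, by omega, Or.inl rfl, run2_5_63⟩
  · exact ⟨_, _, _, _, _, by omega, Or.inl rfl, run2_5_64⟩
  · exact ⟨_, _, _, _, _, by omega, Or.inl rfl, run2_5_65⟩
  · exact ⟨_, _, _, _, _, by omega, Or.inl rfl, run2_5_66⟩
  · exact ⟨_, _, _, _, _, by omega, Or.inl rfl, run2_5_67⟩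
  · exact ⟨_, _, _, _, _, by omega, Or.inl rfl, run2_5_68⟩
  · exact ⟨_, _, _, _, _, by omega, Or.inl rfl, run2_5_69⟩
  · exact ⟨_, _, _, _, _, by omega, Or.inl rfl, run2_5_70⟩
  · exact ⟨_, _, _, _, _, by omega, Or.inl rfl, run2_5_71⟩
  · exact ⟨_, _, _, _, _, by omega, Or.inl rfl, run2_5_72⟩
  · exact ⟨_, _, _, _, _, by omega, Or.inl rfl, run2_5_73⟩
  · exact ⟨_, _, _, _, _, by omega, Or.inl rfl, run2_5_74⟩
  · exact ⟨_, _, _, _, _, by omega, Or.inl rfl, run2_5_75⟩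
  · exact ⟨_, _, _, _, _, by omega, Or.inl rfl, run2_5_76⟩
  · exact ⟨_, _, _, _, _, by omega, Or.inl rfl, run2_5_77⟩
  · exact ⟨_, _, _, _, _, by omega, Or.inl rfl, run2_5_78⟩
  · exact ⟨_, _, _, _, _, by omega, Or.inl rfl, run2_5_79⟩
  · exact ⟨_, _, _, _, _, by omega, Or.inl rfl, run2_5_80⟩
  · exact ⟨_, _, _, _, _, by omega, Or.inl rfl, run2_5_81⟩

/-- necessity for `s = 5` and every modulus -/
theorem nec_5 {M : ℕ} {b : ℕ → ℕ} (hM : 2 ^ (5 - 1) ≤ M) (hb : ∀ j, 1 ≤ j → j ≤ M → 0 < b j) :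
    Ident M 5 b → Answer M 5 b :=
  nec_of_runs2 (by norm_num) (by norm_num) runs2_5 hM hb

end Pool.Agent.P.MP_e9218d_nt
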