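import Pool.Agent.P.MP_e9218d_nt.Nec6A
import Pool.Agent.P.MP_e9218d_nt.Nec6Tab
import Pool.Agent.P.MP_e9218d_nt.Nec6Tr
import Pool.Agent.P.MP_e9218d_nt.Nec6RA
import Pool.Agent.P.MP_e9218d_nt.Nec6RB
import Pool.Agent.P.MP_e9218d_nt.Nec6RC
import Pool.Agent.P.MP_e9218d_nt.Nec6TA7
import Pool.Agent.P.MP_e9218d_nt.Nec6TB8
import Pool.Agent.P.MP_e9218d_nt.Nec6TC9
import Pool.Agent.P.MP_e9218d_nt.Nec6TC10
import Pool.Agent.P.MP_e9218d_nt.NecT8S5
import Pool.Agent.P.MP_e9218d_nt.NecT8S6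

namespace Pool.Agent.P.MP_e9218d_nt

open R6

theorem nec6_pow {s : ℕ} {b : ℕ → ℕ} (hs : 7 ≤ s) (hb : ∀ j, 1 ≤ j → j ≤ 2 ^ s → 0 < b j) :
    ¬ Ident (2 ^ s) s b := by
  intro h
  have h' := (ident_iff (Nat.pow_le_pow_right (by norm_num) (Nat.sub_le s 1)) b).1 h
  rcases Nat.lt_or_ge s 10 with h1 | h1
  · interval_cases s
    · exact cert_sound tabA_7 rupA hb (fun n _ => h' n)
    · exact cert_sound tabB_8 rupB hb (fun n _ => h' n)
    · exact cert_sound tabC_9 rupC hb (fun n _ => h' n)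
  · obtain ⟨q, rfl⟩ : ∃ q, s = 10 + q := ⟨s - 10, by omega⟩
    obtain ⟨a1, a2⟩ := reduce6 (h := 10) (p := 0) (Nat.zero_le q) hb h'
    exact cert_sound tabC_10 rupC (fun j _ _ => a1 j) (fun n hn => a2 n (stab_good hn))

theorem nec6 {M s : ℕ} {b : ℕ → ℕ} (hs : 5 ≤ s) (hM : M = 2 ^ s ∨ M = 2 ^ s + 1)
    (hb : ∀ j, 1 ≤ j → j ≤ M → 0 < b j) : ¬ Ident M s b := by
  rcases Nat.lt_or_ge s 7 with h1 | h1
  · interval_cases s
    · intro h
      rcases nec_5 (by omega) hb h with h2 | h2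
      · omega
      · simp [sporadic] at h2
    · exact nec_6' (by omega) (by omega) hb
  · rcases hM with rfl | hM
    · exact nec6_pow h1 hb
    · exact nec6_succ h1 hM

end Pool.Agent.P.MP_e9218d_nt
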