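import Pool.Agent.P.MP_e9218d_nt.NecT8Chk

namespace Pool.Agent.P.MP_e9218d_nt

open Finset

@[simp] lemma fc_eq {α : Type} (x : ℕ) (k : ℕ → α) : fc x k = k x := rfl

lemma guard_some {α : Type} {c : Bool} {x : Option α} {r : α} (h : guard' c x = some r) :
    c = true ∧ x = some r := by
  cases c
  · exact absurd h (by simp [guard'])
  · exact ⟨rfl, h⟩

lemma obind_some {α β : Type} {x : Option α} {k : α → Option β} {r : β} (h : obind x k = some r) :
    ∃ a, x = some a ∧ k a = some r := by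
  cases x with
  | none => exact absurd h (by simp [obind])
  | some a => exact ⟨a, rfl, h⟩

/-! ### trees -/

def Shape : ℕ → ℕ → Bt → Prop
  | 0, _, t => ∃ v, t = Bt.lf v
  | k + 1, a, t => ∃ l r, t = Bt.nd (a + 2 ^ k) l r ∧ Shape k a l ∧ Shape k (a + 2 ^ k) r

lemma bget_nd (q : ℕ) (l r : Bt) (i : ℕ) :
    bget (Bt.nd q l r) i = if q ≤ i then bget r i else bget l i := by
  show (Bool.rec (bget l i) (bget r i) (Nat.ble q i) : ℕ) = _
  split_ifs with h
  · rw [Nat.ble_eq_true_of_le h]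
  · rw [Bool.eq_false_iff.2 (fun h' => h (Nat.le_of_ble_eq_true h'))]

lemma bset_nd (q : ℕ) (l r : Bt) (i v : ℕ) :
    bset (Bt.nd q l r) i v = if q ≤ i then Bt.nd q l (bset r i v) else Bt.nd q (bset l i v) r := by
  show (Bool.rec (Bt.nd q (bset l i v) r) (Bt.nd q l (bset r i v)) (Nat.ble q i) : Bt) = _
  split_ifs with h
  · rw [Nat.ble_eq_true_of_le h]
  · rw [Bool.eq_false_iff.2 (fun h' => h (Nat.le_of_ble_eq_true h'))]

lemma shape_full (k : ℕ) : ∀ a, Shape k a (bfull k a) := by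
  induction k with
  | zero => intro a; exact ⟨0, rfl⟩
  | succ k ih => intro a; exact ⟨_, _, rfl, ih a, ih _⟩

lemma shape_set (i v k : ℕ) : ∀ a t, Shape k a t → Shape k a (bset t i v) := by
  induction k with
  | zero => rintro a t ⟨w, rfl⟩; exact ⟨v, rfl⟩
  | succ k ih =>
    rintro a t ⟨l, r, rfl, h1, h2⟩
    rw [bset_nd]
    split_ifs
    · exact ⟨_, _, rfl, h1, ih _ _ h2⟩
    · exact ⟨_, _, rfl, ih _ _ h1, h2⟩

lemma bget_set (i j v k : ℕ) : ∀ a t, Shape k a t → a ≤ i → i < a + 2 ^ k → a ≤ j →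
    j < a + 2 ^ k → bget (bset t i v) j = if j = i then v else bget t j := by
  induction k with
  | zero =>
    rintro a t ⟨w, rfl⟩ h1 h2 h3 h4
    rw [if_pos (by omega)]
    rfl
  | succ k ih =>
    rintro a t ⟨l, r, rfl, s1, s2⟩ h1 h2 h3 h4
    rw [pow_succ] at h2 h4
    rw [bset_nd]
    split_ifs with c1 c2 c3
    · rw [bget_nd, if_pos (by omega), ih _ _ s2 c1 (by omega) (by omega) (by omega), if_pos c2]
    · rw [bget_nd, bget_nd]
      split_ifs with c4
      · rw [ih _ _ s2 c1 (by omega) c4 (by omega), if_neg c2]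
      · rfl
    · rw [bget_nd, if_neg (by omega), ih _ _ s1 h1 (by omega) h3 (by omega), if_pos c3]
    · rw [bget_nd, bget_nd]
      split_ifs with c4
      · rfl
      · rw [ih _ _ s1 h1 (by omega) h3 (by omega), if_neg c3]

/-! ### packed sequences with bounded range -/

lemma enc_congr (X : ℕ) {c d : ℕ → ℕ} (k : ℕ) (h : ∀ m ≤ k, c m = d m) : enc X c k = enc X d k := by
  induction k with
  | zero => exact h 0 le_rfl
  | succ k ih => simp only [enc]; rw [ih (fun m hm => h m (by omega)), h _ le_rfl]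

lemma enc_zero (X k : ℕ) : enc X (fun _ => 0) k = 0 := by
  induction k with
  | zero => rfl
  | succ k ih => simp only [enc, ih]; simp

lemma enc_trunc (X : ℕ) (c : ℕ → ℕ) {k H : ℕ} (h : k ≤ H) :
    enc X c k = enc X (fun m => if m ≤ H then c m else 0) k :=
  enc_congr X k (fun m hm => by rw [if_pos (by omega)])

lemma trunc_lt {X H : ℕ} {c : ℕ → ℕ} (hc : ∀ m ≤ H, c m < X) (m : ℕ) :
    (if m ≤ H then c m else 0) < X := by
  split_ifs with h
  · exact hc m h
  · exact lt_of_le_of_lt (Nat.zero_le _) (hc 0 (Nat.zero_le _))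

lemma enc_div' {X H : ℕ} {c : ℕ → ℕ} (hc : ∀ m ≤ H, c m < X) {t : ℕ} (ht : t ≤ H) :
    enc X c H / X ^ t = enc X c (H - t) := by
  have := enc_div (trunc_lt hc) (H - t) t
  rw [show H - t + t = H by omega] at this
  rw [enc_trunc X c (le_refl H), enc_trunc X c (Nat.sub_le H t), this]

lemma enc_shr {K H t : ℕ} {c : ℕ → ℕ} (hc : ∀ m ≤ H, c m < 2 ^ K) (ht : t ≤ H) :
    Nat.shiftRight (enc (2 ^ K) c H) (Nat.mul K t) =
      enc (2 ^ K) (fun m => if t ≤ m then c (m - t) else 0) H := by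
  show enc (2 ^ K) c H >>> (K * t) = _
  rw [Nat.shiftRight_eq_div_pow, pow_mul, enc_div' hc ht, ← enc_shift (2 ^ K) c t (H - t),
    show t + (H - t) = H by omega]

lemma dgt_enc {K H n : ℕ} {c : ℕ → ℕ} (hc : ∀ m ≤ H, c m < 2 ^ K) (hn : n ≤ H) :
    dgt (enc (2 ^ K) c H) K H n = c n := by
  show (enc (2 ^ K) c H >>> (K * (H - n))) % (1 <<< K) = _
  rw [Nat.shiftRight_eq_div_pow, pow_mul, enc_div' hc (Nat.sub_le H n), Nat.shiftLeft_eq, one_mul,
    show H - (H - n) = n by omega, enc_trunc _ c hn, enc_mod (trunc_lt hc), if_pos hn]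

lemma mkMask_eq (J H : ℕ) : mkMask J H = enc (2 ^ (J + 12)) (fun _ => 4095 * 2 ^ J) H := by
  induction H with
  | zero => exact Nat.shiftLeft_eq _ _
  | succ H ih =>
    show mkMask J H <<< (J + 12) + 4095 <<< J = _
    rw [ih, Nat.shiftLeft_eq, Nat.shiftLeft_eq]
    rfl

lemma small_of_land {J x : ℕ} (hx : x < 2 ^ (J + 12)) (h : x &&& (4095 * 2 ^ J) = 0) :
    x < 2 ^ J := by
  have h1 := congrArg (· / 2 ^ J) h
  simp only [Nat.and_div_two_pow, Nat.zero_div] at h1
  rw [Nat.mul_div_cancel _ (by positivity), show (4095 : ℕ) = 2 ^ 12 - 1 from rfl,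
    Nat.and_two_pow_sub_one_eq_mod, Nat.mod_eq_of_lt] at h1
  · exact (Nat.div_eq_zero_iff.1 h1).resolve_left (by positivity)
  · rw [Nat.div_lt_iff_lt_mul (by positivity), ← pow_add, add_comm]
    exact hx

lemma mask_sound {J : ℕ} {c : ℕ → ℕ} (H : ℕ) (hc : ∀ m ≤ H, c m < 2 ^ (J + 12))
    (h : enc (2 ^ (J + 12)) c H &&& mkMask J H = 0) : ∀ m ≤ H, c m < 2 ^ J := by
  rw [mkMask_eq] at h
  have hm : 4095 * 2 ^ J < 2 ^ (J + 12) := by
    rw [pow_add]
    have : 0 < 2 ^ J := by positivity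
    omega
  induction H with
  | zero =>
    intro m hm'
    obtain rfl : m = 0 := by omega
    exact small_of_land (hc 0 le_rfl) h
  | succ H ih =>
    simp only [enc] at h
    have p0 : 0 < 2 ^ (J + 12) := by positivity
    have h1 := congrArg (· / 2 ^ (J + 12)) h
    have h2 := congrArg (· % 2 ^ (J + 12)) h
    simp only [Nat.and_div_two_pow, Nat.zero_div, Nat.and_mod_two_pow, Nat.zero_mod] at h1 h2
    rw [Nat.mul_add_mod_self_right, Nat.mul_add_mod_self_right, Nat.mod_eq_of_lt (hc _ le_rfl),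
      Nat.mod_eq_of_lt hm] at h2
    rw [mul_comm, Nat.mul_add_div p0, Nat.div_eq_of_lt (hc _ le_rfl), mul_comm _ (2 ^ (J + 12)),
      Nat.mul_add_div p0, Nat.div_eq_of_lt hm, add_zero, add_zero] at h1
    intro m hm'
    rcases Nat.lt_or_ge m (H + 1) with h3 | h3
    · exact ih (fun m hm => hc m (by omega)) h1 m (by omega)
    · obtain rfl : m = H + 1 := by omega
      exact small_of_land (hc _ le_rfl) h2

/-! ### digits -/

lemma dh_eq (v k : ℕ) : dh v k = v / 4096 ^ k % 4096 := by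
  show (v >>> (12 * k)) % 4096 = _
  rw [Nat.shiftRight_eq_div_pow, pow_mul]; norm_num

lemma dh_lt (v k : ℕ) : dh v k < 4096 := by rw [dh_eq]; exact Nat.mod_lt _ (by norm_num)

lemma dh_uph (v k x j : ℕ) (hx : x < 4096) (hx' : dh v k ≤ x) :
    dh (uph v k x (dh v k)) j = if j = k then x else dh v j := by
  have e : uph v k x (dh v k) = v + (x - dh v k) * 4096 ^ k := by
    show v + (x - dh v k) <<< (12 * k) = _
    rw [Nat.shiftLeft_eq, pow_mul]; norm_num
  have hk : 0 < 4096 ^ k := by positivity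
  have e0 : (v + (x - dh v k) * 4096 ^ k) / 4096 ^ k = v / 4096 ^ k + (x - dh v k) :=
    Nat.add_mul_div_right _ _ hk
  have hd := dh_eq v k
  rw [e, dh_eq]
  rcases lt_trichotomy j k with h | h | h
  · rw [if_neg (by omega), dh_eq v j]
    obtain ⟨t, rfl⟩ : ∃ t, k = j + t + 1 := ⟨k - j - 1, by omega⟩
    have hj : 0 < 4096 ^ j := by positivity
    rw [show (x - dh v (j + t + 1)) * 4096 ^ (j + t + 1) =
      ((x - dh v (j + t + 1)) * 4096 ^ t * 4096) * 4096 ^ j by ring,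
      Nat.add_mul_div_right _ _ hj, Nat.add_mul_mod_self_right]
  · subst h
    rw [if_pos rfl, e0]
    omega
  · rw [if_neg (by omega), dh_eq v j]
    obtain ⟨t, rfl⟩ : ∃ t, j = k + 1 + t := ⟨j - k - 1, by omega⟩
    rw [pow_add, pow_succ, ← Nat.div_div_eq_div_mul, ← Nat.div_div_eq_div_mul,
      ← Nat.div_div_eq_div_mul, ← Nat.div_div_eq_div_mul, e0]
    congr 2
    omega

/-! ### counting chains -/

noncomputable def cn (P : Set ℕ) (M : ℕ) (g : ℕ → ℕ) (u m : ℕ) : ℕ :=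
  cntLe P M (fun i => g (i - 1) + 1) u m

lemma idx_succ {M : ℕ} (hM : 0 < M) (u : ℕ) : idx M (u + 1) - 1 = u % M := by
  unfold idx
  have h1 := Nat.mod_lt u hM
  have h2 : (u + 1) % M = (u % M + 1) % M := by simp
  rcases Nat.lt_or_ge (u % M + 1) M with h | h
  · rw [h2, Nat.mod_eq_of_lt h, if_neg (by omega)]; omega
  · have h3 : u % M + 1 = M := by omega
    rw [h2, h3, Nat.mod_self, if_pos rfl]; omega

variable {P : Set ℕ} {M : ℕ}

open Classical in
lemma cn_succ (hP : ∀ a ∈ P, 0 < a) (hM : 0 < M) (g : ℕ → ℕ) (u m : ℕ) :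
    cn P M g (u + 1) m = cn P M g u m +
      if u + 1 ∈ P ∧ u + 1 ≤ m then cn P M g (u - g (u % M)) (m - (u + 1)) else 0 := by
  unfold cn
  rw [cntLe_succ hP, idx_succ hM, show u + 1 - (g (u % M) + 1) = u - g (u % M) by omega]

lemma cn_zero (hP : ∀ a ∈ P, 0 < a) (g : ℕ → ℕ) (m : ℕ) :
    cn P M g 0 m = if m = 0 then 1 else 0 := cntLe_zero hP M _ m

lemma cn_mono_u (hP : ∀ a ∈ P, 0 < a) (hM : 0 < M) (g : ℕ → ℕ) (m : ℕ) {u u' : ℕ} (h : u ≤ u') :
    cn P M g u m ≤ cn P M g u' m := by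
  induction u', h using Nat.le_induction with
  | base => exact le_rfl
  | succ u' _ ih => rw [cn_succ hP hM]; omega

lemma cn_stab (hP : ∀ a ∈ P, 0 < a) (hM : 0 < M) (g : ℕ → ℕ) {m c u : ℕ} (h1 : m ≤ c)
    (h : c ≤ u) : cn P M g u m = cn P M g c m := by
  induction u, h using Nat.le_induction with
  | base => rfl
  | succ u' _ ih => rw [cn_succ hP hM, if_neg (by omega), ih, add_zero]

def Rel (M N : ℕ) (g g' : ℕ → ℕ) : Prop := ∀ u < N, u - g (u % M) ≤ u - g' (u % M)

lemma cn_mono (hP : ∀ a ∈ P, 0 < a) (hM : 0 < M) {g g' : ℕ → ℕ} {N : ℕ} (h : Rel M N g g')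
    (u : ℕ) : ∀ u' m, u ≤ u' → u ≤ N → cn P M g u m ≤ cn P M g' u' m := by
  induction u using Nat.strong_induction_on with
  | _ u ih =>
    intro u' m h1 h2
    refine le_trans ?_ (cn_mono_u hP hM g' m h1)
    rcases u with _ | u
    · rw [cn_zero hP, cn_zero hP]
    · rw [cn_succ hP hM, cn_succ hP hM]
      have a1 := ih u (by omega) u m le_rfl (by omega)
      have a2 := ih (u - g (u % M)) (by omega) _ (m - (u + 1)) (h u (by omega)) (by omega)
      split_ifs <;> omega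

open Classical in
lemma cn_unfold (hP : ∀ a ∈ P, 0 < a) (hM : 0 < M) (g : ℕ → ℕ) (H m : ℕ) :
    cn P M g H m = (if m = 0 then 1 else 0) + ∑ u ∈ range H,
      if u + 1 ∈ P ∧ u + 1 ≤ m then cn P M g (u - g (u % M)) (m - (u + 1)) else 0 := by
  induction H with
  | zero => rw [cn_zero hP]; simp
  | succ H ih => rw [cn_succ hP hM, sum_range_succ, ih, add_assoc]

lemma sum_classes (φ : ℕ → ℕ → ℕ) (f : ℕ) :
    ∑ j ∈ range M, ∑ i ∈ range f, φ (j + i * M) j = ∑ u ∈ range (f * M), φ u (u % M) := by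
  induction f with
  | zero => simp
  | succ f ih =>
    simp only [sum_range_succ]
    rw [sum_add_distrib, ih, add_mul, one_mul, sum_range_add]
    congr 1
    refine sum_congr rfl fun j hj => ?_
    rw [add_comm j, Nat.mul_add_mod_self_right, Nat.mod_eq_of_lt (mem_range.1 hj)]

end Pool.Agent.P.MP_e9218d_nt
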