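import Pool.Agent.P.MP_e9218d_nt.Nec6Chk
import Pool.Agent.P.MP_e9218d_nt.NecT8Snd1

namespace Pool.Agent.P.MP_e9218d_nt.R6

variable {lit : ℕ → Prop}

lemma band_true {c x : Bool} (h : band c x = true) : c = true ∧ x = true :=
  (brec_true h).symm

def AllB (lit : ℕ → Prop) (m : ℕ) : Prop := ∀ i, m.testBit i = true → lit i

def ExB (lit : ℕ → Prop) (m : ℕ) : Prop := ∃ i, 32 ≤ i ∧ m.testBit i = true ∧ lit i

open Classical in
def Ok (lit : ℕ → Prop) : Con → Prop
  | (false, a, l) => l.countP (fun m => decide (AllB lit m)) ≤ a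
  | (true, a, l) => l.countP (fun m => decide (ExB lit m)) ≤ a

def GAll (lit : ℕ → Prop) : Gt → Prop
  | .lf C => Ok lit C
  | .nd _ l r => GAll lit l ∧ GAll lit r

lemma gall_get (i : ℕ) : ∀ t, GAll lit t → Ok lit (gget t i)
  | .lf _, h => h
  | .nd q l r, h => by
    have e : gget (.nd q l r) i = Bool.rec (gget l i) (gget r i) (Nat.ble q i) := rfl
    rw [e]
    cases Nat.ble q i
    · exact gall_get i l h.1
    · exact gall_get i r h.2

lemma gset_sound (i : ℕ) {v : Con} (hv : Ok lit v) :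
    ∀ t, GAll lit t → ∀ k, gset t i v k = true → ∃ t', GAll lit t' ∧ k t' = true
  | .lf _, _, _, h => ⟨.lf v, hv, h⟩
  | .nd q l r, ht, k, h => by
    have e : gset (.nd q l r) i v k = Bool.rec (gset l i v fun l' => k (Gt.nd q l' r))
      (gset r i v fun r' => k (Gt.nd q l r')) (Nat.ble q i) := rfl
    rw [e] at h
    cases hb : Nat.ble q i
    · rw [hb] at h
      obtain ⟨t', a1, a2⟩ := gset_sound i hv l ht.1 _ h
      exact ⟨.nd q t' r, ⟨a1, ht.2⟩, a2⟩
    · rw [hb] at h
      obtain ⟨t', a1, a2⟩ := gset_sound i hv r ht.2 _ h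
      exact ⟨.nd q l t', ⟨ht.1, a1⟩, a2⟩

lemma gall_full (k : ℕ) : ∀ a, GAll lit (gfull k a) := by
  induction k with
  | zero => intro a; exact Nat.le_refl 0
  | succ k ih => intro a; exact ⟨ih a, ih _⟩

open Classical in
lemma cU_sound {X : ℕ} (hX : AllB lit X) :
    ∀ l k, cU X l k = true → k < l.countP (fun m => decide (AllB lit m))
  | [], _, h => Bool.noConfusion h
  | m :: l, k, h => by
    have e : cU X (m :: l) k = Bool.rec (cU X l k) (Nat.rec true (fun k _ => cU X l k) k)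
      (Nat.beq (m &&& X) m) := rfl
    rw [e] at h
    rw [List.countP_cons]
    cases hb : Nat.beq (m &&& X) m
    · rw [hb] at h
      have := cU_sound hX l k h
      omega
    · rw [hb] at h
      have h1 : AllB lit m := by
        intro i hi
        rw [← Nat.eq_of_beq_eq_true hb, Nat.testBit_and, Bool.and_eq_true] at hi
        exact hX i hi.2
      rw [if_pos (by simpa using h1)]
      cases k with
      | zero => omega
      | succ k => have := cU_sound hX l k h; omega

open Classical in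
lemma cL_sound {X : ℕ} (hX : AllB lit X) :
    ∀ l k, cL X l k = true → k < l.countP (fun m => decide (ExB lit m))
  | [], _, h => Bool.noConfusion h
  | m :: l, k, h => by
    have e : cL X (m :: l) k = Bool.rec (Nat.rec true (fun k _ => cL X l k) k) (cL X l k)
      (Nat.ble (m &&& X) 4294967295) := rfl
    rw [e] at h
    rw [List.countP_cons]
    cases hb : Nat.ble (m &&& X) 4294967295
    · rw [hb] at h
      have h1 : ExB lit m := by
        have h2 : 2 ^ 32 ≤ m &&& X := by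
          have : ¬ (m &&& X ≤ 4294967295) := fun h3 => by
            rw [Nat.ble_eq_true_of_le h3] at hb; exact Bool.noConfusion hb
          omega
        obtain ⟨i, h3, h4⟩ := Nat.exists_ge_and_testBit_of_ge_two_pow h2
        rw [Nat.testBit_and, Bool.and_eq_true] at h4
        exact ⟨i, h3, h4.1, hX i h4.2⟩
      rw [if_pos (by simpa using h1)]
      cases k with
      | zero => omega
      | succ k => have := cL_sound hX l k h; omega
    · rw [hb] at h
      have := cL_sound hX l k h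
      omega

lemma viol_sound {X : ℕ} (hX : AllB lit X) : ∀ C, Ok lit C → viol X C = true → False
  | (false, a, l), h1, h2 => absurd (cU_sound hX l a h2) (not_lt.2 h1)
  | (true, a, l), h1, h2 => absurd (cL_sound hX l a h2) (not_lt.2 h1)

lemma carry_sound (i : ℕ) : ∀ (lit : ℕ → Prop) (L Y c : ℕ), c ≤ 1 → (c = 1 → lit 0) →
    (∀ j, Y.testBit j = true → L.testBit j = true ∧ lit j) →
    (∀ j, L.testBit j = true → lit j → lit (j + 1)) →
    ((L + Y + c) ^^^ L).testBit i = true → lit i := by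
  induction i with
  | zero =>
    intro lit L Y c h1 h2 h3 _ h
    have h5 := h3 0
    rw [Nat.testBit_xor] at h
    simp only [Nat.testBit_zero] at h h5
    by_cases h6 : Y % 2 = 1
    · exact (h5 (by simpa using h6)).2
    · apply h2
      by_contra h7
      have : (L + Y + c) % 2 = L % 2 := by omega
      rw [this] at h
      simp at h
  | succ i ih =>
    intro lit L Y c h1 h2 h3 h4 h
    rw [Nat.testBit_xor, Nat.testBit_succ, Nat.testBit_succ, ← Nat.testBit_xor,
      show (L + Y + c) / 2 = L / 2 + Y / 2 + (L % 2 + Y % 2 + c) / 2 by omega] at h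
    refine ih (fun j => lit (j + 1)) _ _ _ (by omega) (fun h5 => ?_) (fun j hj => ?_)
      (fun j hj => ?_) h
    · have h6 := h3 0
      have h7 := h4 0
      simp only [Nat.testBit_zero, decide_eq_true_eq] at h6 h7
      by_cases h8 : Y % 2 = 1
      · exact h7 (h6 h8).1 (h6 h8).2
      · exact h7 (by omega) (h2 (by omega))
    · rw [← Nat.testBit_succ] at hj ⊢
      exact h3 _ hj
    · rw [← Nat.testBit_succ] at hj
      exact h4 _ hj

structure LitOk (lit : ℕ → Prop) (c Lk : ℕ) : Prop where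
  lo : ∀ p, p < 64 → lit p
  em : ∀ p, p ≤ c → ¬ lit (c - p) → lit p
  lk : ∀ p, Lk.testBit p = true → lit p → lit (p + 1)

variable {c Lk : ℕ}

lemma clo_sound (H : LitOk lit c Lk) {X : ℕ} (hX : AllB lit X) : AllB lit (clo Lk X) := by
  intro i hi
  have e : clo Lk X = X ||| ((Lk + (X &&& Lk) + 0) ^^^ Lk) := rfl
  rw [e, Nat.testBit_or, Bool.or_eq_true] at hi
  rcases hi with hi | hi
  · exact hX i hi
  · refine carry_sound i lit Lk (X &&& Lk) 0 (by omega) (by omega) (fun j hj => ?_) H.lk hi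
    rw [Nat.testBit_and, Bool.and_eq_true] at hj
    exact ⟨hj.2, hX j hj.1⟩

lemma bit_addb (X p i : ℕ) : (addb X p).testBit i = true ↔ X.testBit i = true ∨ p = i := by
  have e : addb X p = X ||| 1 <<< p := rfl
  rw [e, Nat.testBit_or, Bool.or_eq_true, Nat.one_shiftLeft, Nat.testBit_two_pow, decide_eq_true_eq]

lemma allB_addb {X p : ℕ} : AllB lit (addb X p) ↔ AllB lit X ∧ lit p := by
  constructor
  · intro h
    exact ⟨fun i hi => h i ((bit_addb _ _ _).2 (Or.inl hi)), h p ((bit_addb _ _ _).2 (Or.inr rfl))⟩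
  · rintro ⟨h1, h2⟩ i hi
    rcases (bit_addb _ _ _).1 hi with h | rfl
    · exact h1 i h
    · exact h2

lemma allB_xor {X z : ℕ} (h1 : AllB lit X) (h2 : AllB lit z) : AllB lit (Nat.xor X z) := by
  intro i hi
  have e : Nat.xor X z = X ^^^ z := rfl
  rw [e, Nat.testBit_xor] at hi
  cases h : X.testBit i
  · rw [h] at hi
    exact h2 i (by simpa using hi)
  · exact h1 i h

lemma allB_upd {X p z : ℕ} (h1 : AllB lit X) (hp : lit p) (h2 : AllB lit z) :
    AllB lit (upd X p z) := allB_xor (allB_addb.2 ⟨h1, hp⟩) h2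

lemma bit_lt {x i k : ℕ} (hx : x < 2 ^ k) (h : x.testBit i = true) : i < k := by
  by_contra h1
  rw [Nat.testBit_lt_two_pow (lt_of_lt_of_le hx (Nat.pow_le_pow_right (by norm_num) (by omega)))]
    at h
  exact Bool.noConfusion h

lemma low_lt (x : ℕ) : low x < 2 ^ 32 := Nat.and_lt_two_pow x (by norm_num)

lemma allB_small (H : LitOk lit c Lk) {x : ℕ} (hx : x < 2 ^ 32) : AllB lit x :=
  fun i hi => H.lo i (by have := bit_lt hx hi; omega)

lemma allB_salt (H : LitOk lit c Lk) (w : ℕ) : AllB lit (Nat.shiftLeft (low w) 32) := by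
  intro i hi
  have e : Nat.shiftLeft (low w) 32 = low w <<< 32 := rfl
  rw [e, Nat.testBit_shiftLeft, Bool.and_eq_true] at hi
  have := bit_lt (low_lt w) hi.2
  exact H.lo i (by omega)

def Snd (lit : ℕ → Prop) (F : RecR) : Prop :=
  ∀ db nx X0 X m, GAll lit db → AllB lit X0 → (AllB lit m → AllB lit X) →
    F db nx X0 X m = true → False

lemma rstep_sound (H : LitOk lit c Lk) {F : RecR} (hF : Snd lit F) {tg p cid z : ℕ}
    (hz : AllB lit z) : Snd lit (fun db nx X0 X m => rstep c Lk F db nx X0 X m tg p cid z) := by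
  intro db nx X0 X m h1 h2 h3 h
  have hC := gall_get cid db h1
  rcases tg with _ | _ | _ | tg
  · refine hF db nx X0 (clo Lk (upd X p z)) (addb m p) h1 h2 (fun h4 => ?_) h
    obtain ⟨h5, h6⟩ := allB_addb.1 h4
    exact clo_sound H (allB_upd (h3 h5) h6 hz)
  · obtain ⟨a1, a2⟩ := band_true (c := viol (upd X (c - p) z) (gget db cid)) h
    obtain ⟨a3, a4⟩ := band_true a2
    refine hF db nx X0 (clo Lk (upd X p z)) m h1 h2 (fun h4 => ?_) a4
    refine clo_sound H (allB_upd (h3 h4) (H.em p (Nat.le_of_ble_eq_true a3) fun h5 => ?_) hz)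
    exact viol_sound (allB_upd (h3 h4) h5 hz) _ hC a1
  · obtain ⟨a1, a2⟩ := band_true (c := viol X (gget db cid)) h
    have a3 : ¬ AllB lit m := fun h4 => viol_sound (h3 h4) _ hC a1
    cases hb : Nat.ble m 4294967295
    · rw [hb] at a2
      obtain ⟨t', b1, b2⟩ := gset_sound (lit := lit) nx (v := (false, 0, [m]))
        (by simp [Ok, a3]) db h1 _ a2
      exact hF t' _ _ _ _ b1 (allB_xor h2 hz) (fun _ => allB_xor h2 hz) b2
    · have := Nat.le_of_ble_eq_true hb
      exact a3 (allB_small H (by omega))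
  · obtain ⟨a1, a2⟩ := band_true (c := viol X (gget db cid)) h
    obtain ⟨a3, a4⟩ := band_true a2
    obtain ⟨a5, a6⟩ := band_true a4
    have a7 : ¬ AllB lit m := fun h4 => viol_sound (h3 h4) _ hC a1
    rw [Nat.eq_of_beq_eq_true a3, allB_addb] at a7
    have a8 : lit p := H.em p (Nat.le_of_ble_eq_true a5)
      fun h5 => a7 ⟨allB_small H (low_lt nx), h5⟩
    have a9 := clo_sound H (allB_upd h2 a8 hz)
    exact hF db nx _ _ _ h1 a9 (fun _ => a9) a6

lemma rrun_sound (H : LitOk lit c Lk) : ∀ W, Snd lit (rrun c Lk W)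
  | [] => fun _ _ _ _ _ _ _ _ h => Bool.noConfusion h
  | w :: W => fun db nx X0 X m h1 h2 h3 h =>
    rstep_sound H (rrun_sound H W) (allB_salt H w) db nx X0 X m h1 h2 h3 h

/-! ### the equations -/

lemma allB_pm {z : ℕ} : ∀ vs, AllB lit (pm z vs) → ∀ v ∈ vs, lit v
  | [], _ => by simp
  | v :: vs, h => by
    obtain ⟨h1, h2⟩ := (allB_addb (X := pm z vs) (p := v)).1 h
    intro u hu
    rcases List.mem_cons.1 hu with rfl | hu
    · exact h2
    · exact allB_pm vs h1 u hu

lemma exB_nm {z : ℕ} (hz : z < 2 ^ 32) : ∀ vs, ExB lit (nm c z vs) → ∃ v ∈ vs, lit (c - v)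
  | [], ⟨i, h1, h2, _⟩ => by have := bit_lt hz h2; omega
  | v :: vs, ⟨i, h1, h2, h3⟩ => by
    rcases (bit_addb (nm c z vs) (c - v) i).1 h2 with h | rfl
    · obtain ⟨u, hu, h4⟩ := exB_nm hz vs ⟨i, h1, h, h3⟩
      exact ⟨u, List.mem_cons_of_mem _ hu, h4⟩
    · exact ⟨v, by simp, h3⟩

open Classical in
lemma bm_sound (hne : ∀ p, lit (c - p) → ¬ lit p) (y : ℕ) : ∀ cs k, bm c y cs k = true →
    ∃ P N n, k P N n = true ∧
      P.countP (fun m => decide (AllB lit m)) ≤ cs.countP (fun ch => decide (∀ v ∈ ch.2, lit v)) ∧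
      N.countP (fun m => decide (ExB lit m)) +
        cs.countP (fun ch => decide (∀ v ∈ ch.2, lit v)) ≤ n
  | [], _, h => ⟨[], [], 0, h, le_rfl, le_rfl⟩
  | ch :: cs, k, h => by
    obtain ⟨P, N, n, a1, a2, a3⟩ := bm_sound hne y cs _ h
    refine ⟨pm (low (y + n)) ch.2 :: P, nm c (low (y + n)) ch.2 :: N, n + 1, a1, ?_, ?_⟩
    · rw [List.countP_cons, List.countP_cons]
      by_cases h1 : AllB lit (pm (low (y + n)) ch.2)
      · rw [if_pos (by simpa using h1), if_pos (by simpa using allB_pm _ h1)]; omega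
      · rw [if_neg (by simpa using h1)]; omega
    · rw [List.countP_cons, List.countP_cons]
      by_cases h1 : ExB lit (nm c (low (y + n)) ch.2)
      · obtain ⟨v, hv, h2⟩ := exB_nm (low_lt _) _ h1
        have h3 : ¬ ∀ v ∈ ch.2, lit v := fun h4 => hne v h2 (h4 v hv)
        rw [if_neg (show ¬ (decide (∀ v ∈ ch.2, lit v) = true) by simpa using h3)]
        split_ifs <;> omega
      · rw [if_neg (show ¬ (decide (ExB lit (nm c (low (y + n)) ch.2)) = true) by simpa using h1)]
        split_ifs <;> omega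

open Classical in
lemma bdb_sound (hne : ∀ p, lit (c - p) → ¬ lit p) (k : Gt → ℕ → Bool) : ∀ es : List Eqn,
    (∀ q ∈ es, q.2.2.countP (fun ch => decide (∀ v ∈ ch.2, lit v)) = q.2.1) →
    ∀ db nx, GAll lit db → bdb c es k db nx = true → ∃ db' nx', GAll lit db' ∧ k db' nx' = true
  | [], _, db, nx, h1, h => ⟨db, nx, h1, h⟩
  | q :: es, hE, db, nx, h1, h => by
    obtain ⟨P, N, n, a1, a2, a3⟩ := bm_sound hne _ q.2.2 _ h
    rw [hE q (by simp)] at a2 a3
    obtain ⟨t1, b1, b2⟩ := gset_sound (lit := lit) nx (v := (false, q.2.1, P)) a2 db h1 _ a1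
    obtain ⟨t2, b3, b4⟩ := gset_sound (lit := lit) _ (v := (true, n - q.2.1, N))
      (Nat.le_sub_of_add_le a3) t1 b1 _ b2
    exact bdb_sound hne k es (fun q hq => hE q (List.mem_cons_of_mem _ hq)) _ _ b3 b4

lemma bit_mkLk (VJ VD c : ℕ) : ∀ n p, (mkLk VJ VD c n).testBit p = true →
    ∃ i, 64 ≤ i ∧ i < n + 64 ∧ dg VJ i = dg VJ (i + 1) ∧ dg VD i ≤ dg VD (i + 1) ∧
      (p = i ∨ p = c - (i + 1))
  | 0, p, h => by simp [mkLk] at h
  | n + 1, p, h => by
    have e : mkLk VJ VD c (n + 1) = Bool.rec (mkLk VJ VD c n)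
      (addb (addb (mkLk VJ VD c n) (n + 64)) (c - (n + 64 + 1)))
      (band (Nat.beq (dg VJ (n + 64)) (dg VJ (n + 64 + 1)))
        (Nat.ble (dg VD (n + 64)) (dg VD (n + 64 + 1)))) := rfl
    rw [e] at h
    have ih : (mkLk VJ VD c n).testBit p = true → ∃ i, 64 ≤ i ∧ i < n + 1 + 64 ∧
        dg VJ i = dg VJ (i + 1) ∧ dg VD i ≤ dg VD (i + 1) ∧ (p = i ∨ p = c - (i + 1)) := by
      intro h1
      obtain ⟨i, a1, a2, a3⟩ := bit_mkLk VJ VD c n p h1
      exact ⟨i, a1, by omega, a3⟩
    cases hb : band (Nat.beq (dg VJ (n + 64)) (dg VJ (n + 64 + 1)))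
        (Nat.ble (dg VD (n + 64)) (dg VD (n + 64 + 1)))
    · rw [hb] at h; exact ih h
    · rw [hb] at h
      obtain ⟨b1, b2⟩ := band_true hb
      have b3 := Nat.eq_of_beq_eq_true b1
      have b4 := Nat.le_of_ble_eq_true b2
      rcases (bit_addb _ _ _).1 h with h1 | h1
      · rcases (bit_addb _ _ _).1 h1 with h2 | h2
        · exact ih h2
        · exact ⟨n + 64, by omega, by omega, b3, b4, Or.inl h2.symm⟩
      · exact ⟨n + 64, by omega, by omega, b3, b4, Or.inr h1.symm⟩

open Classical in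
/-- what the tables establish about an equation -/
def EqOk (nv : ℕ) (val : ℕ → Prop) (q : Eqn) : Prop :=
  (∀ ch ∈ q.2.2, ∀ v ∈ ch.2, 64 ≤ v ∧ v < nv) ∧
    q.2.2.countP (fun ch => decide (∀ v ∈ ch.2, val v)) = q.2.1

theorem rup_sound {kd nv VJ VD : ℕ} {es : List Eqn} {W : List ℕ}
    (h : rup kd nv VJ VD es W = true) (val : ℕ → Prop)
    (hv : ∀ i, dg VJ i = dg VJ (i + 1) → dg VD i ≤ dg VD (i + 1) → val i → val (i + 1))
    (hE : ∀ q ∈ es, EqOk nv val q) : False := by
  classical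
  obtain ⟨h0, h1⟩ := band_true h
  have hn : 65 ≤ nv := Nat.le_of_ble_eq_true h0
  obtain ⟨c, hc⟩ : ∃ c, c = 2 * nv - 1 := ⟨_, rfl⟩
  have h2 : bdb c es (fun db nx => rrun c (mkLk VJ VD c (nv - 65)) W db nx 4294967295 4294967295
      (low nx)) (gfull kd 0) 0 = true := by rw [hc]; exact h1
  let lit : ℕ → Prop := fun p => (64 ≤ p → p < nv → val p) ∧
    (nv ≤ p → p + 64 ≤ c ∧ ¬ val (c - p))
  have l1 : ∀ p, 64 ≤ p → p < nv → (lit p ↔ val p) := fun p a1 a2 =>
    ⟨fun a3 => a3.1 a1 a2, fun a3 => ⟨fun _ _ => a3, fun a4 => by omega⟩⟩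
  have l2 : ∀ p, 64 ≤ p → p < nv → (lit (c - p) ↔ ¬ val p) := fun p a1 a2 =>
    ⟨fun a3 => by
      have := (a3.2 (by omega)).2
      rwa [show c - (c - p) = p by omega] at this,
     fun a3 => ⟨fun _ _ => by omega, fun _ =>
      ⟨by omega, by rwa [show c - (c - p) = p by omega]⟩⟩⟩
  have l3 : ∀ p, p < 64 → lit p := fun p a1 => ⟨fun _ => by omega, fun _ => by omega⟩
  have l4 : ∀ p, c < p + 64 → ¬ lit p := fun p a1 a2 => by have := (a2.2 (by omega)).1; omega
  have hne : ∀ p, lit (c - p) → ¬ lit p := by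
    intro p a1 a2
    rcases Nat.lt_or_ge p 64 with b1 | b1
    · exact l4 _ (by omega) a1
    rcases Nat.lt_or_ge p nv with b2 | b2
    · exact (l2 p b1 b2).1 a1 ((l1 p b1 b2).1 a2)
    · obtain ⟨b3, b4⟩ := a2.2 b2
      exact b4 (a1.1 (by omega) (by omega))
  have H : LitOk lit c (mkLk VJ VD c (nv - 65)) := by
    refine ⟨l3, fun p a1 a2 => ?_, fun p a1 a2 => ?_⟩
    · rcases Nat.lt_or_ge p 64 with b1 | b1
      · exact l3 p b1
      rcases Nat.lt_or_ge p nv with b2 | b2
      · rw [l2 p b1 b2, not_not] at a2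
        exact (l1 p b1 b2).2 a2
      rcases Nat.lt_or_ge (c - p) 64 with b3 | b3
      · exact absurd (l3 _ b3) a2
      · rw [l1 _ b3 (by omega)] at a2
        exact ⟨fun _ _ => by omega, fun _ => ⟨by omega, a2⟩⟩
    · obtain ⟨i, b1, b2, b3, b4, rfl | rfl⟩ := bit_mkLk _ _ _ _ _ a1
      · exact (l1 _ (by omega) (by omega)).2 (hv p b3 b4 ((l1 p b1 (by omega)).1 a2))
      · rw [show c - (i + 1) + 1 = c - i by omega, l2 i b1 (by omega)]
        rw [l2 _ (by omega) (by omega)] at a2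
        exact fun b5 => a2 (hv i b3 b4 b5)
  obtain ⟨db, nx, a1, a2⟩ := bdb_sound hne _ es (fun q hq => by
    rw [← (hE q hq).2]
    refine List.countP_congr fun ch hch => ?_
    have := (hE q hq).1 ch hch
    simp only [decide_eq_true_eq]
    exact ⟨fun a v hv => (l1 v (this v hv).1 (this v hv).2).1 (a v hv),
      fun a v hv => (l1 v (this v hv).1 (this v hv).2).2 (a v hv)⟩) _ _ (gall_full kd 0) h2
  have a3 : AllB lit 4294967295 := allB_small H (by norm_num)
  exact rrun_sound H W db nx _ _ _ a1 a3 (fun _ => a3) a2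

end Pool.Agent.P.MP_e9218d_nt.R6
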