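import Pool.Agent.P.MP_e9218d_nt.Nec7RA
import Pool.Agent.P.MP_e9218d_nt.Nec7RB
import Pool.Agent.P.MP_e9218d_nt.Nec7RC

namespace Pool.Agent.P.MP_e9218d_nt

open T7 in
/-- no solution for `M = 2 ^ (s - 1)`, `s ≥ 5` -/
theorem nec7 {M s : ℕ} {b : ℕ → ℕ} (hs : 5 ≤ s) (hM : M = 2 ^ (s - 1))
    (hb : ∀ j, 1 ≤ j → j ≤ M → 0 < b j) : ¬ Ident M s b := by
  intro h
  have h' := (ident_iff hM.ge b).1 h
  subst hM
  rcases Nat.lt_or_ge s 10 with h1 | h1
  · interval_cases s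
    · exact run7_sound run_4 hb (fun n _ => h' n)
    · exact run7_sound run_5 hb (fun n _ => h' n)
    · exact run7_sound run_6 hb (fun n _ => h' n)
    · exact run7_sound run_7 hb (fun n _ => h' n)
    · exact run7_sound run_8 hb (fun n _ => h' n)
  · obtain ⟨q, rfl⟩ : ∃ q, s = 6 + q + 1 := ⟨s - 7, by omega⟩
    rw [Nat.add_sub_cancel] at hb h'
    obtain ⟨a1, a2⟩ := reduce (h := 6) (p := 3) (q := q) (by omega) hb h'
    exact run7_sound run_9 (fun j _ _ => a1 j) (fun n hn => a2 n (goodB_sound hn))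

end Pool.Agent.P.MP_e9218d_nt
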