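import Pool.Agent.P.MP_e9218d_nt.SmallChk

namespace Pool.Agent.P.MP_e9218d_nt.T7

/-- lists of pairs -/
inductive PL : Type
  | nil : PL
  | cons : ℕ → ℕ → PL → PL

/-- search trees -/
inductive BT (α : Type) : Type
  | lf : α → BT α
  | nd : ℕ → BT α → BT α → BT α

noncomputable def bget {α : Type} (t : BT α) (i : ℕ) : α :=
  BT.rec (fun v => v) (fun q _ _ gl gr => Bool.rec gl gr (Nat.ble q i)) t

noncomputable def bset {α : Type} (t : BT α) (i : ℕ) (v : α) : BT α :=
  BT.rec (fun _ => BT.lf v)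
    (fun q l r sl sr => Bool.rec (BT.nd q sl r) (BT.nd q l sr) (Nat.ble q i)) t

/-- evaluate a number before passing it on -/
noncomputable def fc {α : Type} (x : ℕ) (k : ℕ → α) : α :=
  Nat.rec (k 0) (fun n _ => k n) (Nat.succ x)

noncomputable def bfull {α : Type} (d : α) (k : ℕ) : ℕ → BT α :=
  Nat.rec (fun _ => BT.lf d)
    (fun k ih a => fc (Nat.add a (Nat.pow 2 k)) fun q => BT.nd q (ih a) (ih q)) k

/-- digit at a bit position -/
def dq (U s : ℕ) : ℕ := Nat.mod (Nat.shiftRight U s) 4096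

def raise (U s z : ℕ) : ℕ := Nat.add U (Nat.shiftLeft (Nat.sub z (Nat.mod (Nat.shiftRight U s) 4096)) s)

def partner (s : ℕ) : ℕ := Nat.mul 12 (Nat.xor (Nat.div s 12) 1)

noncomputable def allE (U : ℕ) (l : PL) : Bool :=
  PL.rec true (fun s z _ ih => Bool.rec false ih
    (Nat.ble z (Nat.mod (Nat.shiftRight U s) 4096))) l

noncomputable def ustep (U : ℕ) (l : PL) (k : ℕ → Bool) : Bool :=
  PL.rec true (fun s z r ih => Bool.rec
    (Bool.rec false (k (raise U (partner s) (Nat.sub 4096 z))) (allE U r)) ih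
    (Nat.ble z (Nat.mod (Nat.shiftRight U s) 4096))) l

noncomputable def assm (U : ℕ) (l : PL) : ℕ := PL.rec U (fun s z _ ih => raise ih s z) l

noncomputable def parse (f : ℕ) : ℕ → PL :=
  Nat.rec (fun _ => PL.nil) (fun _ ih a => Bool.rec
    (PL.cons (Nat.mul 12 (Nat.mod (Nat.shiftRight a 12) 1024)) (Nat.mod a 4096)
      (ih (Nat.shiftRight a 22))) PL.nil (Nat.beq a 0)) f

noncomputable def hstep (db : BT PL) (hs U : ℕ) (ih : ℕ → ℕ → Bool) : Bool :=
  fc (Nat.mod hs 65536) fun i => ustep U (bget db i) (ih (Nat.shiftRight hs 16))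

noncomputable def hl (db : BT PL) (f : ℕ) : ℕ → ℕ → Bool :=
  Nat.rec (fun _ _ => false) (fun _ ih hs U => hstep db hs U ih) f

noncomputable def chT (U1 : ℕ) (c : PL) : Bool :=
  PL.rec true (fun s d _ ih => Bool.rec false ih 
    (Nat.ble 4095 (Nat.add d (Nat.mod (Nat.shiftRight U1 s) 4096)))) c

noncomputable def chP (U : ℕ) (c : PL) : Bool :=
  PL.rec true (fun s d _ ih => Bool.rec false ih 
    (Nat.ble (Nat.mod (Nat.shiftRight U s) 4096) d)) c

/-- at least `a + 1` members satisfy the test -/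
noncomputable def more (p : PL → Bool) (L : List PL) : ℕ → Bool :=
  List.rec (fun _ => false) (fun c _ ih a =>
    Bool.rec (ih a) (Nat.rec true (fun a' _ => ih a') a) (p c)) L

/-- fewer than `a` members satisfy the test -/
noncomputable def fewer (p : PL → Bool) (L : List PL) : ℕ → Bool :=
  List.rec (fun a => Nat.blt 0 a) (fun c _ ih a =>
    Bool.rec (ih a) (Nat.rec false (fun a' _ => ih a') a) (p c)) L

noncomputable def obind {α β : Type} (x : Option α) (k : α → Option β) : Option β :=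
  Option.rec none k x

def wm (Dm RD EM N m : ℕ) : ℕ :=
  Nat.shiftLeft (Nat.shiftRight (Nat.land Dm (Nat.shiftRight RD (Nat.sub N m)))
    (dq EM (Nat.mul 12 m))) (dq EM (Nat.mul 12 m))

def capf (U M e : ℕ) : ℕ :=
  Nat.shiftLeft 2 (Nat.sub (Nat.sub e 1) (dq U (Nat.mul 24 (Nat.mod e M))))

def hif (U M e : ℕ) : ℕ := Nat.sub 4095 (dq U (Nat.add (Nat.mul 24 (Nat.mod e M)) 12))

/-- type of the enumeration loop -/
abbrev En : Type := ℕ → ℕ → ℕ → ℕ → ℕ → PL → List PL → Option (List PL)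

noncomputable def ext (pv s hi e : ℕ) (cur : PL) : PL :=
  fc (Nat.sub pv e) fun d => Bool.rec (PL.cons s d cur) cur (Nat.ble hi d)

noncomputable def e3 (U M : ℕ) (ih : En) (c' pv s hi rem : ℕ) (cur : PL) (acc : List PL)
    (e m c2 : ℕ) : Option (List PL) :=
  Bool.rec
    (obind (fc (Nat.mul 24 (Nat.mod e M)) fun s2 =>
        ih c2 (Nat.sub e 1) s2 (hif U M e) m (ext pv s hi e cur) acc) fun acc' =>
      ih c' pv s hi rem cur acc')
    (ih c' pv s hi rem cur acc) (Nat.beq c2 0)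

noncomputable def e1 (U Dm RD EM tab p M N : ℕ) (ih : En) (c' x pv s hi rem : ℕ) (cur : PL)
    (acc : List PL) : Option (List PL) :=
  fc (Nat.mod (Nat.shiftRight tab (Nat.mul 12 (Nat.mod x p))) 4096) fun e => Bool.rec none
    (Bool.rec
      (fc (Nat.sub rem e) fun m =>
        e3 U M ih c' pv s hi rem cur acc e m (Nat.mod (wm Dm RD EM N m) (capf U M e)))
      (ih c' pv s hi rem cur (ext pv s hi e cur :: acc)) (Nat.beq e rem))
    (Nat.beq x (Nat.shiftLeft 1 e))

noncomputable def estep (U Dm RD EM tab p M N : ℕ) (ih : En) (c pv s hi rem : ℕ) (cur : PL)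
    (acc : List PL) : Option (List PL) :=
  Bool.rec
    (e1 U Dm RD EM tab p M N ih (Nat.land c (Nat.sub c 1)) (Nat.xor c (Nat.land c (Nat.sub c 1)))
      pv s hi rem cur acc)
    (some acc) (Nat.beq c 0)

noncomputable def enum (U Dm RD EM tab p M N f : ℕ) : En :=
  Nat.rec (fun _ _ _ _ _ _ _ => none)
    (fun _ ih c pv s hi rem cur acc => estep U Dm RD EM tab p M N ih c pv s hi rem cur acc) f

noncomputable def allLt (f : ℕ → Bool) (k : ℕ) : Bool :=
  Nat.rec true (fun j ih => Bool.rec false ih (f j)) k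

noncomputable def gOk (U Dm M N G EM u : ℕ) : Bool :=
  Bool.rec false
    (Bool.rec false
      (Bool.rec true
        (Nat.ble (min 4095 (Nat.add (Nat.succ u)
          (dq G (Nat.mul 12 (Nat.sub u (dq U (Nat.mul 24 (Nat.mod (Nat.succ u) M))))))))
          (dq G (Nat.mul 12 (Nat.succ u)))) (bit Dm (Nat.succ u)))
      (Nat.ble (dq G (Nat.mul 12 u)) (dq G (Nat.mul 12 (Nat.succ u)))))
    (Bool.rec false (Nat.ble (dq G (Nat.mul 12 (Nat.sub (dq EM (Nat.mul 12 (Nat.succ u))) 1))) u)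
      (Nat.ble (dq EM (Nat.mul 12 (Nat.succ u))) N))

/-- type of the main loop -/
abbrev Mn : Type := ℕ → ℕ → ℕ → BT PL → ℕ → BT (ℕ × List PL) → ℕ → Bool

noncomputable def addc (ih : Mn) (U Ub EM : ℕ) (db : BT PL) (nc : ℕ) (eb : BT (ℕ × List PL))
    (ne : ℕ) (l : PL) (ok : Bool) : Bool :=
  Bool.rec false (fc (Nat.succ nc) fun nc' => ih U Ub EM (bset db nc l) nc' eb ne) ok

noncomputable def cmdB (G : ℕ → Bool) (A : ℕ → ℕ) (Dm RD tab p M N : ℕ) (ih : Mn) (U Ub EM : ℕ)
    (db : BT PL) (nc : ℕ) (eb : BT (ℕ × List PL)) (ne n : ℕ) : Bool :=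
  Bool.rec false
    (Option.rec false
      (fun L => fc (A n) fun a => fc (Nat.succ ne) fun ne' =>
        ih U Ub EM db nc (bset eb ne (a, L)) ne')
      (enum Ub Dm RD EM tab p M N 100000 (wm Dm RD EM N n) 0 0 0 n PL.nil []))
    (Bool.rec false (Bool.rec false (G n) (Nat.ble n N)) (Nat.blt 0 n))

noncomputable def cmdG (Dm M N : ℕ) (ih : Mn) (U : ℕ)
    (db : BT PL) (nc : ℕ) (eb : BT (ℕ × List PL)) (ne G EM : ℕ) : Bool :=
  Bool.rec false (ih U U EM db nc eb ne) (allLt (fun u => fc u (gOk U Dm M N G EM)) N)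

noncomputable def cmdT (U : ℕ) (q : ℕ × List PL) : Bool :=
  Prod.rec (fun a L => more (chT (Nat.shiftRight U 12)) L a) q

noncomputable def cmdP (U : ℕ) (q : ℕ × List PL) : Bool :=
  Prod.rec (fun a L => fewer (chP U) L a) q

noncomputable def cmd (G : ℕ → Bool) (A : ℕ → ℕ) (Dm RD tab p M N : ℕ) (ih : Mn) (U Ub EM : ℕ)
    (db : BT PL) (nc : ℕ) (eb : BT (ℕ × List PL)) (ne op x r : ℕ) : Bool :=
  Nat.rec (addc ih U Ub EM db nc eb ne (parse 1000 r) (cmdT (assm U (parse 1000 r)) (bget eb x)))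
    (fun op _ => Nat.rec
      (addc ih U Ub EM db nc eb ne (parse 1000 r) (cmdP (assm U (parse 1000 r)) (bget eb x)))
      (fun op _ => Nat.rec
        (addc ih U Ub EM db nc eb ne (parse 1000 (Nat.mod r (Nat.shiftLeft 1 x)))
          (hl db 5000 (Nat.shiftRight r x) (assm U (parse 1000 (Nat.mod r (Nat.shiftLeft 1 x))))))
        (fun op _ => Nat.rec
          (ustep U (bget db x) fun U' => ih U' Ub EM db nc eb ne)
          (fun op _ => Nat.rec (cmdB G A Dm RD tab p M N ih U Ub EM db nc eb ne x)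
            (fun op _ => Nat.rec
              (cmdG Dm M N ih U db nc eb ne r (Nat.shiftRight r (Nat.mul 12 (Nat.succ N))))
              (fun _ _ => ih U U EM db nc eb ne) op) op) op) op) op) op

noncomputable def main (G : ℕ → Bool) (A : ℕ → ℕ) (Dm RD tab p M N : ℕ) (L : List ℕ) : Mn :=
  List.rec (fun _ _ _ _ _ _ _ => false) (fun c _ ih U Ub EM db nc eb ne =>
    fc (Nat.mod c 8) fun op => fc (Nat.mod (Nat.shiftRight c 3) 65536) fun x =>
      cmd G A Dm RD tab p M N ih U Ub EM db nc eb ne op x (Nat.shiftRight c 19)) L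

noncomputable def unp (f : ℕ) : ℕ → List ℕ → List ℕ :=
  Nat.rec (fun _ acc => acc) (fun _ ih X acc => Bool.rec
    (fc (Nat.mod X 1048576) fun w =>
      Nat.mod (Nat.shiftRight X 20) (Nat.shiftLeft 1 w) ::
        ih (Nat.shiftRight X (Nat.add 20 w)) acc) acc (Nat.beq X 0)) f

noncomputable def unpAll (L : List ℕ) : List ℕ := List.rec [] (fun c _ ih => unp 1000 c ih) L

/-- packed values of `A` -/
noncomputable def aloop (M s N u : ℕ) : ℕ :=
  Nat.rec (Nat.shiftLeft 1 (Nat.mul 96 N)) (fun u E =>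
    Bool.rec E (Nat.add E (Nat.shiftRight E (Nat.mul 96 (Nat.succ u)))) (memA M s (Nat.succ u))) u

noncomputable def cntA' (M s u : ℕ) : ℕ :=
  Nat.rec 0 (fun u c => Bool.rec c (Nat.succ c) (memA M s (Nat.succ u))) u

def digE (E N n : ℕ) : ℕ :=
  Nat.mod (Nat.shiftRight E (Nat.mul 96 (Nat.sub N n))) 79228162514264337593543950336

noncomputable def dOk (A : ℕ → ℕ) (Dm RD t : ℕ) : Bool :=
  Bool.rec (Nat.beq (A t) 0)
    (Bool.rec false (Nat.blt 0 (A t))
      (Nat.beq (Nat.land (Nat.shiftRight RD t) RD) (Nat.shiftRight RD t))) (bit Dm t)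

noncomputable def run1 (G : ℕ → Bool) (A : ℕ → ℕ) (M N Dm RD tab p kc ke : ℕ) (L : List ℕ) : Bool :=
  Bool.rec false
    (main G A Dm RD tab p M N (unpAll L) 0 0 0 (bfull (PL.cons 0 4096 PL.nil) kc 0) 1
      (bfull (0, []) ke 0) 0)
    (Bool.rec false (allLt (fun t => dOk A Dm RD (Nat.succ t)) N)
      (Bool.rec false (Nat.beq (Nat.shiftRight RD N) 1) (Nat.beq (Nat.mod Dm 2) 0)))

noncomputable def run7 (G : ℕ → Bool) (M s N Dm RD tab p kc ke : ℕ) (L : List ℕ) : Bool :=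
  Bool.rec false (run1 G (digE (aloop M s N N) N) M N Dm RD tab p kc ke L)
    (Bool.rec false (Nat.blt (cntA' M s N) 96) (Bool.rec false (Nat.blt 0 M) (Nat.blt N 4095)))

end Pool.Agent.P.MP_e9218d_nt.T7
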