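import Pool.Agent.P.MP_e9218d_nt.Basic

namespace Pool.Agent.P.MP_e9218d_nt

/-! ### the `A` side as chains -/

/-- the parts allowed on the `A` side, as a set -/
def okS (M s : ℕ) : Set ℕ := {e | okA M s e}

lemma okS_pos (M s : ℕ) : ∀ a ∈ okS M s, 0 < a := fun _ h => h.1

lemma Dset_pos (M s : ℕ) : ∀ a ∈ Dset M s, 0 < a := fun _ h => h.1

lemma setA_eq_wch (M s n : ℕ) :
    (setA M s n).ncard = (wch (okS M s) (gap M (fun _ => 1)) id Set.univ n).ncard := by
  symm
  have hpw : ∀ l : List ℕ, l.IsChain (gap M (fun _ => 1)) ↔ l.Pairwise (· > ·) := by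
    intro l
    rw [← List.isChain_iff_pairwise]
    constructor <;> intro h <;> refine h.imp ?_ <;> intro a c hac
    · simp only [gap] at hac; omega
    · simp only [gap]; omega
  have hnd : ∀ l : List ℕ, l.Pairwise (· > ·) → l.Nodup := fun l h =>
    h.imp (fun hac => ne_of_gt hac)
  refine Set.ncard_congr (fun l _ => l.toFinset) ?_ ?_ ?_
  · rintro l ⟨hP, hc, -, hs⟩
    refine ⟨fun e he => hP e (List.mem_toFinset.1 he), ?_⟩
    rw [List.sum_toFinset _ (hnd l ((hpw l).1 hc))]
    exact hs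
  · rintro l l' ⟨-, hc, -, -⟩ ⟨-, hc', -, -⟩ h
    have h1 := (hpw l).1 hc
    have h2 := (hpw l').1 hc'
    have e1 := (List.toFinset_sort (· ≥ ·) (hnd l h1)).2 (h1.imp (fun hac => le_of_lt hac))
    have e2 := (List.toFinset_sort (· ≥ ·) (hnd l' h2)).2 (h2.imp (fun hac => le_of_lt hac))
    rw [← e1, ← e2]
    exact congrArg (fun S : Finset ℕ => S.sort (· ≥ ·)) h
  · rintro S ⟨hP, hs⟩
    refine ⟨S.sort (· ≥ ·), ⟨fun e he => hP e ((Finset.mem_sort _).1 he), ?_, by simp, ?_⟩,
      Finset.sort_toFinset _ _⟩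
    · rw [hpw]
      have h1 := Finset.pairwise_sort S (· ≥ ·)
      have h2 := Finset.sort_nodup S (· ≥ ·)
      exact (h1.and h2).imp (fun hac => lt_of_le_of_ne hac.1 (Ne.symm hac.2))
    · rw [← List.sum_toFinset _ (Finset.sort_nodup S (· ≥ ·)), Finset.sort_toFinset]
      exact hs

lemma wch_univ_eq_cntLe (P : Set ℕ) (M : ℕ) (b : ℕ → ℕ) {N n : ℕ} (h : n ≤ N) :
    (wch P (gap M b) id Set.univ n).ncard = cntLe P M b N n := by
  unfold cntLe
  congr 1
  apply wch_congr
  intro a _ ha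
  simp only [id] at ha
  simp; omega

lemma wch_mono {P : Set ℕ} (hP : ∀ a ∈ P, 0 < a) {R R' : ℕ → ℕ → Prop} {n : ℕ}
    (h : ∀ e f, e ≤ n → 0 < f → R e f → R' e f) :
    (wch P R id Set.univ n).ncard ≤ (wch P R' id Set.univ n).ncard := by
  apply Set.ncard_le_ncard _ (wch_finite (adm_id hP) _ _ _)
  rintro l ⟨h1, h2, h3, h4⟩
  refine ⟨h1, h2.imp_of_mem_imp (fun a c ha hc hac => h a c ?_ (hP c (h1 c hc)) hac), h3, h4⟩
  rw [← h4, List.map_id]
  exact List.single_le_sum (by simp) _ ha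

lemma cntLe_le {P : Set ℕ} (hP : ∀ a ∈ P, 0 < a) (M : ℕ) (g : ℕ → ℕ) :
    ∀ N m, cntLe P M (fun j => g j + 1) N m ≤ 2 ^ N := by
  intro N
  induction N using Nat.strong_induction_on with
  | _ N ih =>
    intro m
    cases N with
    | zero => rw [cntLe_zero hP]; split_ifs <;> simp
    | succ N =>
      rw [cntLe_succ hP]
      have h1 := ih N (by omega) m
      have h2 := ih (N + 1 - (g (idx M (N + 1)) + 1)) (by omega) (m - (N + 1))
      have h3 : 2 ^ (N + 1 - (g (idx M (N + 1)) + 1)) ≤ 2 ^ N :=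
        Nat.pow_le_pow_right (by norm_num) (by omega)
      split_ifs <;> omega

/-! ### packing a sequence into one number -/

/-- `enc X c k = ∑ m ≤ k, c m * X ^ (k - m)` -/
def enc (X : ℕ) (c : ℕ → ℕ) : ℕ → ℕ
  | 0 => c 0
  | k + 1 => enc X c k * X + c (k + 1)

lemma enc_mod {X : ℕ} {c : ℕ → ℕ} (hc : ∀ m, c m < X) (k : ℕ) : enc X c k % X = c k := by
  cases k with
  | zero => exact Nat.mod_eq_of_lt (hc 0)
  | succ k =>
    unfold enc
    rw [Nat.mul_add_mod_self_right]
    exact Nat.mod_eq_of_lt (hc _)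

lemma enc_div {X : ℕ} {c : ℕ → ℕ} (hc : ∀ m, c m < X) (k t : ℕ) :
    enc X c (k + t) / X ^ t = enc X c k := by
  induction t with
  | zero => simp
  | succ t ih =>
    have hX : 0 < X := lt_of_le_of_lt (Nat.zero_le _) (hc 0)
    rw [pow_succ', ← Nat.div_div_eq_div_mul, ← add_assoc]
    have : enc X c (k + t + 1) / X = enc X c (k + t) := by
      show (enc X c (k + t) * X + c (k + t + 1)) / X = _
      rw [Nat.mul_comm, Nat.mul_add_div hX, Nat.div_eq_of_lt (hc _), add_zero]
    rw [this, ih]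

lemma enc_add (X : ℕ) (c d : ℕ → ℕ) (k : ℕ) :
    enc X (fun m => c m + d m) k = enc X c k + enc X d k := by
  induction k with
  | zero => rfl
  | succ k ih => simp only [enc, ih]; ring

lemma enc_shift_lt (X : ℕ) (c : ℕ → ℕ) (t : ℕ) : ∀ k, k < t →
    enc X (fun m => if t ≤ m then c (m - t) else 0) k = 0
  | 0, h => by simp only [enc]; rw [if_neg (by omega)]
  | k + 1, h => by
    simp only [enc]
    rw [enc_shift_lt X c t k (by omega), if_neg (by omega)]; simp

lemma enc_shift (X : ℕ) (c : ℕ → ℕ) (t k : ℕ) :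
    enc X (fun m => if t ≤ m then c (m - t) else 0) (t + k) = enc X c k := by
  induction k with
  | zero =>
    cases t with
    | zero => simp [enc]
    | succ t =>
      simp only [enc]
      rw [enc_shift_lt X c (t + 1) t (by omega)]; simp
  | succ k ih =>
    rw [← add_assoc]
    simp only [enc]
    rw [ih, if_pos (by omega)]
    congr 2; omega

lemma enc_delta (X : ℕ) (k : ℕ) : enc X (fun m => if m = 0 then 1 else 0) k = X ^ k := by
  induction k with
  | zero => simp [enc]
  | succ k ih => simp only [enc, ih]; simp [pow_succ]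

/-! ### the generating function loop -/

/-- list access with a default value -/
def nth (d : ℕ) (l : List ℕ) : ℕ → ℕ :=
  List.rec (fun _ => d) (fun a _ ih i => Nat.rec a (fun j _ => ih j) i) l

@[simp] lemma nth_nil (d i : ℕ) : nth d [] i = d := rfl
@[simp] lemma nth_zero (d a : ℕ) (l : List ℕ) : nth d (a :: l) 0 = a := rfl
@[simp] lemma nth_succ (d a : ℕ) (l : List ℕ) (i : ℕ) : nth d (a :: l) (i + 1) = nth d l i := rfl

/-- one step of the recurrence -/
def gstep (p : ℕ → Bool) (g : ℕ → ℕ) (K d t : ℕ) (l : List ℕ) : ℕ :=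
  Bool.rec (nth d l 0) (Nat.add (nth d l 0) (Nat.shiftRight (nth d l (g t)) (Nat.mul K t))) (p t)

/-- the loop -/
def gloop (p : ℕ → Bool) (g : ℕ → ℕ) (K d n : ℕ) (r : ℕ) : List ℕ → ℕ :=
  Nat.rec (fun l => nth d l 0) (fun m ih l => ih (gstep p g K d (Nat.sub n m) l :: l)) r

/-- the packed generating function up to degree `n` -/
def gfun (p : ℕ → Bool) (g : ℕ → ℕ) (n : ℕ) : ℕ :=
  gloop p g (Nat.succ n) (Nat.shiftLeft 1 (Nat.mul (Nat.succ n) n)) n n []

lemma gloop_eq {P : Set ℕ} (hP : ∀ a ∈ P, 0 < a) (M : ℕ) (β : ℕ → ℕ) (p : ℕ → Bool) (g : ℕ → ℕ)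
    (n : ℕ) (hp : ∀ t, 1 ≤ t → t ≤ n → (p t = true ↔ t ∈ P))
    (hg : ∀ t, g t = β (idx M t)) (d : ℕ) : ∀ r, r ≤ n → ∀ l : List ℕ,
    (∀ i, nth d l i = enc (2 ^ (n + 1)) (cntLe P M (fun j => β j + 1) (n - r - i)) n) →
    gloop p g (n + 1) d n r l = enc (2 ^ (n + 1)) (cntLe P M (fun j => β j + 1) n) n := by
  intro r
  induction r with
  | zero => intro _ l hl; exact hl 0
  | succ m ih =>
    intro hm l hl
    show gloop p g (n + 1) d n m (gstep p g (n + 1) d (n - m) l :: l) = _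
    apply ih (by omega)
    intro i
    cases i with
    | succ i => rw [nth_succ, hl i]; congr 2; omega
    | zero =>
      rw [nth_zero]
      obtain ⟨N, hN⟩ : ∃ N, n - m = N + 1 := ⟨n - m - 1, by omega⟩
      have hN' : n - (m + 1) = N := by omega
      rw [hN'] at hl
      rw [Nat.sub_zero, hN]
      have hp' := hp (N + 1) (by omega) (by omega)
      unfold gstep
      cases hb : p (N + 1) with
      | false =>
        have hn : N + 1 ∉ P := fun h => by rw [hp'.2 h] at hb; exact Bool.noConfusion hb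
        show nth d l 0 = _
        rw [hl 0, Nat.sub_zero]
        congr 1
        funext m'
        rw [cntLe_succ hP]; simp [hn]
      | true =>
        have hn : N + 1 ∈ P := hp'.1 hb
        show nth d l 0 + (nth d l (g (N + 1))) >>> ((n + 1) * (N + 1)) = _
        rw [hl 0, hl, Nat.sub_zero, Nat.shiftRight_eq_div_pow, pow_mul, hg]
        obtain ⟨k, hk⟩ : ∃ k, n = k + (N + 1) := ⟨n - (N + 1), by omega⟩
        have hlt : ∀ m', cntLe P M (fun j => β j + 1) (N - β (idx M (N + 1))) m' < 2 ^ (n + 1) :=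
          fun m' => lt_of_le_of_lt (cntLe_le hP M β _ m')
            (Nat.pow_lt_pow_right (by norm_num) (by omega))
        have e1 : enc (2 ^ (n + 1)) (cntLe P M (fun j => β j + 1) (N - β (idx M (N + 1)))) n /
            (2 ^ (n + 1)) ^ (N + 1) =
            enc (2 ^ (n + 1)) (fun m' => if N + 1 ≤ m' then
              cntLe P M (fun j => β j + 1) (N - β (idx M (N + 1))) (m' - (N + 1)) else 0) n := by
          have a1 := enc_div hlt k (N + 1)
          have a2 := enc_shift (2 ^ (n + 1))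
            (cntLe P M (fun j => β j + 1) (N - β (idx M (N + 1)))) (N + 1) k
          rw [← hk] at a1
          rw [add_comm (N + 1) k, ← hk] at a2
          rw [a1, a2]
        rw [e1, ← enc_add]
        congr 1
        funext m'
        rw [cntLe_succ hP]
        simp only [hn, true_and]
        rw [show N + 1 - (β (idx M (N + 1)) + 1) = N - β (idx M (N + 1)) by omega]

lemma gfun_eq {P : Set ℕ} (hP : ∀ a ∈ P, 0 < a) (M : ℕ) (β : ℕ → ℕ) (p : ℕ → Bool) (g : ℕ → ℕ)
    (n : ℕ) (hp : ∀ t, 1 ≤ t → t ≤ n → (p t = true ↔ t ∈ P))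
    (hg : ∀ t, g t = β (idx M t)) :
    gfun p g n = enc (2 ^ (n + 1)) (cntLe P M (fun j => β j + 1) n) n := by
  apply gloop_eq hP M β p g n hp hg _ n le_rfl
  intro i
  rw [nth_nil, show n - n - i = 0 by omega]
  have : cntLe P M (fun j => β j + 1) 0 = fun m => if m = 0 then 1 else 0 := by
    funext m; exact cntLe_zero hP M _ m
  rw [this, enc_delta]
  show 1 <<< ((n + 1) * n) = _
  rw [Nat.shiftLeft_eq, one_mul, pow_mul]

/-- the top coefficient -/
def gcoef (p : ℕ → Bool) (g : ℕ → ℕ) (n : ℕ) : ℕ :=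
  Nat.mod (gfun p g n) (Nat.shiftLeft 1 (Nat.succ n))

lemma gcoef_eq {P : Set ℕ} (hP : ∀ a ∈ P, 0 < a) (M : ℕ) (β : ℕ → ℕ) (p : ℕ → Bool) (g : ℕ → ℕ)
    (n : ℕ) (hp : ∀ t, 1 ≤ t → t ≤ n → (p t = true ↔ t ∈ P))
    (hg : ∀ t, g t = β (idx M t)) :
    gcoef p g n = (wch P (gap M (fun j => β j + 1)) id Set.univ n).ncard := by
  rw [wch_univ_eq_cntLe P M _ le_rfl]
  show gfun p g n % (1 <<< (n + 1)) = _
  rw [gfun_eq hP M β p g n hp hg, Nat.shiftLeft_eq, one_mul, enc_mod]
  intro m
  exact lt_of_le_of_lt (cntLe_le hP M β _ m) (Nat.pow_lt_pow_right (by norm_num) (by omega))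

/-! ### the `A` side -/

/-- bounded existential -/
def anyLt (f : ℕ → Bool) (k : ℕ) : Bool := Nat.rec false (fun j ih => Bool.rec ih true (f j)) k

lemma anyLt_iff (f : ℕ → Bool) (k : ℕ) : anyLt f k = true ↔ ∃ j < k, f j = true := by
  induction k with
  | zero => simp [anyLt]
  | succ k ih =>
    have : anyLt f (k + 1) = Bool.rec (anyLt f k) true (f k) := rfl
    rw [this]
    cases hb : f k with
    | false =>
      show anyLt f k = true ↔ _
      rw [ih]
      constructor
      · rintro ⟨j, hj, h⟩; exact ⟨j, by omega, h⟩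
      · rintro ⟨j, hj, h⟩
        rcases Nat.lt_succ_iff_lt_or_eq.1 hj with hj | rfl
        · exact ⟨j, hj, h⟩
        · rw [hb] at h; exact Bool.noConfusion h
    | true => exact ⟨fun _ => ⟨k, by omega, hb⟩, fun _ => rfl⟩

/-- membership test for `okA` -/
def memA (M s t : ℕ) : Bool := anyLt (fun j => Nat.beq (Nat.mod (Nat.add t (Nat.pow 2 j)) M) 0) s

lemma memA_iff (M s t : ℕ) (ht : 1 ≤ t) : memA M s t = true ↔ t ∈ okS M s := by
  unfold memA okS okA
  rw [anyLt_iff]
  simp only [Set.mem_ofPred_eq, Nat.beq_eq]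
  constructor
  · rintro ⟨j, hj, h⟩
    exact ⟨ht, j, hj, Nat.dvd_of_mod_eq_zero h⟩
  · rintro ⟨-, j, hj, h⟩
    exact ⟨j, hj, Nat.mod_eq_zero_of_dvd h⟩

/-- packed values of `A` -/
def encA (M s N : ℕ) : ℕ := gfun (memA M s) (fun _ => 0) N

/-- digit extraction -/
def digA (E N n : ℕ) : ℕ :=
  Nat.mod (Nat.shiftRight E (Nat.mul (Nat.succ N) (Nat.sub N n))) (Nat.shiftLeft 1 (Nat.succ N))

lemma digA_eq (M s N n : ℕ) (h : n ≤ N) : digA (encA M s N) N n = (setA M s n).ncard := by
  rw [setA_eq_wch, wch_univ_eq_cntLe _ M _ h]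
  have e := gfun_eq (okS_pos M s) M (fun _ => 0) (memA M s) (fun _ => 0) N
    (fun t ht _ => memA_iff M s t ht) (fun _ => rfl)
  have hlt : ∀ m, cntLe (okS M s) M (fun _ => 0 + 1) N m < 2 ^ (N + 1) := fun m =>
    lt_of_le_of_lt (cntLe_le (okS_pos M s) M (fun _ => 0) _ m)
      (Nat.pow_lt_pow_right (by norm_num) (by omega))
  show (encA M s N >>> ((N + 1) * (N - n))) % (1 <<< (N + 1)) = _
  unfold encA
  rw [e, Nat.shiftRight_eq_div_pow, pow_mul, Nat.shiftLeft_eq, one_mul]
  have a1 := enc_div hlt n (N - n)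
  rw [show n + (N - n) = N by omega] at a1
  rw [a1, enc_mod hlt]

/-- bit mask test -/
def bit (D t : ℕ) : Bool := Nat.beq (Nat.mod (Nat.shiftRight D t) 2) 1

/-- the mask `D` describes the set of allowed parts on the `B` side -/
def maskOk (E N D : ℕ) : Bool :=
  Bool.rec true false
    (anyLt (fun t => Bool.rec (Nat.blt 0 (digA E N t)) (Nat.beq (digA E N t) 0) (bit D t))
      (Nat.succ N))

lemma maskOk_spec {M s N D : ℕ} (h : maskOk (encA M s N) N D = true) (t : ℕ) (h1 : 1 ≤ t)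
    (h2 : t ≤ N) : bit D t = true ↔ t ∈ Dset M s := by
  unfold maskOk at h
  have h3 : ¬ (anyLt (fun t => Bool.rec (Nat.blt 0 (digA (encA M s N) N t))
      (Nat.beq (digA (encA M s N) N t) 0) (bit D t)) (Nat.succ N) = true) := by
    intro h4; rw [h4] at h; exact Bool.noConfusion h
  rw [anyLt_iff] at h3
  have h4 : ¬ ((Bool.rec (Nat.blt 0 (digA (encA M s N) N t))
      (Nat.beq (digA (encA M s N) N t) 0) (bit D t) : Bool) = true) :=
    fun h5 => h3 ⟨t, by omega, h5⟩
  rw [digA_eq M s N t h2] at h4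
  have h5 : t ∈ Dset M s ↔ (setA M s t).ncard ≠ 0 := by
    unfold Dset
    rw [Set.mem_ofPred_eq, Ne, Set.ncard_eq_zero (setA_finite M s t), ← Ne,
      ← Set.nonempty_iff_ne_empty]
    exact ⟨fun h => h.2, fun h => ⟨h1, h⟩⟩
  rw [h5]
  cases hb : bit D t with
  | false =>
    rw [hb] at h4
    have : ¬ (0 < (setA M s t).ncard) := fun h6 => h4 (Nat.blt_eq.mpr h6)
    simp; omega
  | true =>
    rw [hb] at h4
    have : ¬ ((setA M s t).ncard = 0) := fun h6 => h4 (Nat.beq_eq.mpr h6)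
    simp [this]

/-! ### boxes -/

/-- digit `k` in base `1024` -/
def dg (v k : ℕ) : ℕ := Nat.mod (Nat.shiftRight v (Nat.mul 10 k)) 1024

/-- raise digit `k` to `x` -/
def upd (v k x : ℕ) : ℕ := Nat.add v (Nat.shiftLeft (Nat.sub x (dg v k)) (Nat.mul 10 k))

lemma dg_eq (v k : ℕ) : dg v k = v / 1024 ^ k % 1024 := by
  show (v >>> (10 * k)) % 1024 = _
  rw [Nat.shiftRight_eq_div_pow, pow_mul]; norm_num

lemma dg_lt (v k : ℕ) : dg v k < 1024 := by rw [dg_eq]; exact Nat.mod_lt _ (by norm_num)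

lemma dg_upd (v k x j : ℕ) (hx : x < 1024) :
    dg (upd v k x) j = if j = k then max (dg v k) x else dg v j := by
  have e : upd v k x = v + (x - dg v k) * 1024 ^ k := by
    show v + (x - dg v k) <<< (10 * k) = _
    rw [Nat.shiftLeft_eq, pow_mul]; norm_num
  have hk : 0 < 1024 ^ k := by positivity
  have e0 : (v + (x - dg v k) * 1024 ^ k) / 1024 ^ k = v / 1024 ^ k + (x - dg v k) :=
    Nat.add_mul_div_right _ _ hk
  have hd := dg_eq v k
  rw [e, dg_eq]
  rcases lt_trichotomy j k with h | h | h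
  · rw [if_neg (by omega), dg_eq v j]
    obtain ⟨t, rfl⟩ : ∃ t, k = j + t + 1 := ⟨k - j - 1, by omega⟩
    have hj : 0 < 1024 ^ j := by positivity
    rw [show (x - dg v (j + t + 1)) * 1024 ^ (j + t + 1) =
      ((x - dg v (j + t + 1)) * 1024 ^ t * 1024) * 1024 ^ j by ring,
      Nat.add_mul_div_right _ _ hj, Nat.add_mul_mod_self_right]
  · subst h
    rw [if_pos rfl, e0]
    omega
  · rw [if_neg (by omega), dg_eq v j]
    obtain ⟨t, rfl⟩ : ∃ t, j = k + 1 + t := ⟨j - k - 1, by omega⟩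
    rw [pow_add, pow_succ, ← Nat.div_div_eq_div_mul, ← Nat.div_div_eq_div_mul,
      ← Nat.div_div_eq_div_mul, ← Nat.div_div_eq_div_mul, e0]
    congr 2
    omega

/-- search trees -/
inductive Tr : Type
  | lo : ℕ → Tr
  | hi : ℕ → Tr
  | sol : Tr
  | sp : ℕ → ℕ → Tr → Tr → Tr

/-- all solutions for `s ≤ 4` -/
def good : List (ℕ × ℕ × List ℕ) :=
  sporadic ++ [(1, 1, [1]), (3, 2, [3, 3, 4]), (7, 3, [10, 10, 7, 12, 7, 7, 15]),
    (15, 4, [33, 33, 22, 35, 22, 22, 15, 39, 26, 26, 15, 28, 15, 15, 46])]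

/-- check at a solution leaf -/
def solOk (M s u v : ℕ) : Bool :=
  (List.range M).all (fun k => decide (dg u k + dg v k = 1023 ∧ dg v k ≠ 0)) &&
    decide ((M, s, vec M (fun j => dg u (j % M) + 1)) ∈ good)

/-- the checker; `u` holds lower bounds and `v` upper bounds -/
noncomputable def chk (M s N E D : ℕ) (T : Tr) : ℕ → ℕ → Bool :=
  Tr.rec
    (fun n u _ => Bool.rec false
      (Nat.blt (gcoef (bit D) (fun t => dg u (Nat.mod t M)) n) (digA E N n)) (Nat.ble n N))
    (fun n _ v => Bool.rec false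
      (Nat.blt (digA E N n) (gcoef (bit D) (fun t => Nat.sub 1023 (dg v (Nat.mod t M))) n))
      (Nat.ble n N))
    (fun u v => solOk M s u v)
    (fun k d _ _ ihl ihr u v => Bool.rec false
      (Bool.rec false (ihr (upd u k d) v) (ihl u (upd v k (Nat.sub 1024 d))))
      (Bool.rec false (Bool.rec false (Nat.blt k M) (Nat.blt d 1024)) (Nat.blt 0 d))) T

/-- the equations up to `N` -/
def Eqs (M s : ℕ) (b : ℕ → ℕ) (N : ℕ) : Prop :=
  ∀ n ≤ N, (setA M s n).ncard = (setB M s b n).ncard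

lemma idx_mod (M t : ℕ) : idx M t % M = t % M := by
  unfold idx; split_ifs with h
  · rw [h, Nat.mod_self]
  · exact Nat.mod_mod _ _

lemma idx_of_mod (M t : ℕ) : idx M (t % M) = idx M t := by
  unfold idx; rw [Nat.mod_mod]

lemma brec_true {a c : Bool} (h : (Bool.rec false a c : Bool) = true) : a = true ∧ c = true := by
  cases c
  · exact Bool.noConfusion h
  · exact ⟨h, rfl⟩

theorem chk_sound {M s N D : ℕ} (hM : 0 < M) (hN : N < 1024)
    (hD : maskOk (encA M s N) N D = true) {b : ℕ → ℕ} (hb : Eqs M s b N) (T : Tr) :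
    ∀ u v, chk M s N (encA M s N) D T u v = true →
      (∀ t, dg u (t % M) + 1 ≤ b (idx M t)) →
      (∀ t, dg v (t % M) = 0 ∨ b (idx M t) + dg v (t % M) ≤ 1024) →
      (M, s, vec M b) ∈ good := by
  induction T with
  | lo n =>
    intro u v h hu _
    exfalso
    obtain ⟨h1, h2⟩ := brec_true h
    have hn : n ≤ N := Nat.le_of_ble_eq_true h2
    have h3 := Nat.blt_eq.mp h1
    rw [digA_eq M s N n hn, hb n hn, gcoef_eq (Dset_pos M s) M (fun j => dg u (j % M)) _ _ n
      (fun t h4 h5 => maskOk_spec hD t h4 (by omega))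
      (fun t => by show dg u (t % M) = dg u (idx M t % M); rw [idx_mod])] at h3
    refine absurd h3 (not_lt.2 (wch_mono (Dset_pos M s) ?_))
    intro e f _ _ hef
    simp only [gap, idx_mod] at hef ⊢
    have := hu e
    omega
  | hi n =>
    intro u v h _ hv
    exfalso
    obtain ⟨h1, h2⟩ := brec_true h
    have hn : n ≤ N := Nat.le_of_ble_eq_true h2
    have h3 := Nat.blt_eq.mp h1
    rw [digA_eq M s N n hn, hb n hn, gcoef_eq (Dset_pos M s) M (fun j => 1023 - dg v (j % M)) _ _ n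
      (fun t h4 h5 => maskOk_spec hD t h4 (by omega))
      (fun t => by show 1023 - dg v (t % M) = 1023 - dg v (idx M t % M); rw [idx_mod])] at h3
    refine absurd h3 (not_lt.2 (wch_mono (Dset_pos M s) ?_))
    intro e f he hf hef
    simp only [gap, idx_mod] at hef ⊢
    have := hv e
    have h6 := dg_lt v (e % M)
    omega
  | sol =>
    intro u v h hu hv
    have h' : solOk M s u v = true := h
    unfold solOk at h'
    rw [Bool.and_eq_true, List.all_eq_true, decide_eq_true_iff] at h'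
    obtain ⟨h1, h2⟩ := h'
    have : vec M b = vec M (fun j => dg u (j % M) + 1) := by
      unfold vec
      apply List.map_congr_left
      intro i hi
      have hi' := List.mem_range.1 hi
      have h3 := of_decide_eq_true (h1 ((i + 1) % M) (List.mem_range.2 (Nat.mod_lt _ hM)))
      have h4 := hu (i + 1)
      have h5 := hv (i + 1)
      have h6 : idx M (i + 1) = i + 1 := by
        unfold idx
        rcases Nat.lt_or_ge (i + 1) M with h7 | h7
        · rw [Nat.mod_eq_of_lt h7, if_neg (by omega)]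
        · have : i + 1 = M := by omega
          rw [this, Nat.mod_self, if_pos rfl]
      rw [h6] at h4 h5
      show b (i + 1) = dg u ((i + 1) % M) + 1
      omega
    rw [this]; exact h2
  | sp k d l r ihl ihr =>
    intro u v h hu hv
    obtain ⟨h1, h2⟩ := brec_true h
    obtain ⟨hr, hl⟩ := brec_true h1
    obtain ⟨h3, h4⟩ := brec_true h2
    obtain ⟨h5, h6⟩ := brec_true h3
    have hd0 : 0 < d := Nat.blt_eq.mp h4
    have hk : k < M := Nat.blt_eq.mp h5
    have hd : d < 1024 := Nat.blt_eq.mp h6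
    rcases le_or_gt (b (idx M k)) d with hle | hgt
    · refine ihl u _ hl hu ?_
      intro t
      have e : Nat.sub 1024 d = 1024 - d := rfl
      rw [e, dg_upd _ _ _ _ (by omega)]
      split_ifs with h7
      · have h8 := hv t
        rw [← idx_of_mod, h7] at h8 ⊢
        omega
      · exact hv t
    · refine ihr _ v hr ?_ hv
      intro t
      rw [dg_upd _ _ _ _ hd]
      split_ifs with h7
      · have h8 := hu t
        rw [← idx_of_mod, h7] at h8 ⊢
        omega
      · exact hu t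

/-- the full check -/
noncomputable def run (M s N D : ℕ) (T : Tr) : Bool :=
  Bool.rec false (chk M s N (encA M s N) D T 0 0)
    (Bool.rec false (maskOk (encA M s N) N D) (Bool.rec false (Nat.blt 0 M) (Nat.blt N 1024)))

theorem run_sound {M s N D : ℕ} {T : Tr} (h : run M s N D T = true) {b : ℕ → ℕ}
    (hpos : ∀ j, 1 ≤ j → j ≤ M → 0 < b j) (hb : Eqs M s b N) : (M, s, vec M b) ∈ good := by
  obtain ⟨h1, h2⟩ := brec_true h
  obtain ⟨h3, h4⟩ := brec_true h2
  obtain ⟨h5, h6⟩ := brec_true h4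
  have hM : 0 < M := Nat.blt_eq.mp h5
  have z : ∀ k, dg 0 k = 0 := fun k => by rw [dg_eq]; simp
  refine chk_sound hM (Nat.blt_eq.mp h6) h3 hb T 0 0 h1 ?_ ?_
  · intro t
    rw [z]
    exact hpos _ (idx_pos hM t) (idx_le hM t)
  · intro t
    exact Or.inl (z _)

end Pool.Agent.P.MP_e9218d_nt
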