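import Pool.Agent.P.MP_e9218d_nt.Andrews1
import Pool.Agent.P.MP_e9218d_nt.SmallChk

namespace Pool.Agent.P.MP_e9218d_nt.T7

/-! ### digit sums -/

lemma omega_add_le (x : ℕ) : ∀ y, omega (x + y) ≤ omega x + omega y := by
  induction x using Nat.strong_induction_on with
  | _ x ih =>
    intro y
    rcases Nat.eq_zero_or_pos x with rfl | hx
    · simp
    obtain ⟨k, rfl | rfl⟩ := Nat.even_or_odd' x <;> obtain ⟨l, rfl | rfl⟩ := Nat.even_or_odd' y
    · rw [show 2 * k + 2 * l = 2 * (k + l) by ring, omega_two_mul, omega_two_mul, omega_two_mul]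
      exact ih k (by omega) l
    · rw [show 2 * k + (2 * l + 1) = 2 * (k + l) + 1 by ring, omega_two_mul_add_one, omega_two_mul,
        omega_two_mul_add_one]
      have := ih k (by omega) l; omega
    · rw [show 2 * k + 1 + 2 * l = 2 * (k + l) + 1 by ring, omega_two_mul_add_one, omega_two_mul,
        omega_two_mul_add_one]
      have := ih k (by omega) l; omega
    · rw [show 2 * k + 1 + (2 * l + 1) = 2 * (k + l + 1) by ring, omega_two_mul,
        omega_two_mul_add_one, omega_two_mul_add_one]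
      have := ih k (by omega) l
      have := omega_succ_le (k + l); omega

lemma omega_add_lt (p : ℕ) : ∀ x y, x < 2 ^ p → y < 2 ^ p → 2 ^ p ≤ x + y →
    omega (x + y) + 1 ≤ omega x + omega y := by
  induction p with
  | zero => intro x y h1 h2 h3; simp at h1 h2 h3; omega
  | succ p ih =>
    intro x y h1 h2 h3
    rw [pow_succ] at h1 h2 h3
    obtain ⟨k, rfl | rfl⟩ := Nat.even_or_odd' x <;> obtain ⟨l, rfl | rfl⟩ := Nat.even_or_odd' y
    · rw [show 2 * k + 2 * l = 2 * (k + l) by ring, omega_two_mul, omega_two_mul, omega_two_mul]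
      exact ih k l (by omega) (by omega) (by omega)
    · rw [show 2 * k + (2 * l + 1) = 2 * (k + l) + 1 by ring, omega_two_mul_add_one, omega_two_mul,
        omega_two_mul_add_one]
      have := ih k l (by omega) (by omega) (by omega); omega
    · rw [show 2 * k + 1 + 2 * l = 2 * (k + l) + 1 by ring, omega_two_mul_add_one, omega_two_mul,
        omega_two_mul_add_one]
      have := ih k l (by omega) (by omega) (by omega); omega
    · rw [show 2 * k + 1 + (2 * l + 1) = 2 * (k + l + 1) by ring, omega_two_mul,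
        omega_two_mul_add_one, omega_two_mul_add_one]
      have := omega_add_le k l
      have := omega_succ_le (k + l); omega

lemma omega_mul_add (y p : ℕ) : ∀ w, w < 2 ^ p → omega (y * 2 ^ p + w) = omega y + omega w := by
  induction p with
  | zero => intro w h; simp at h; subst h; simp [omega_zero]
  | succ p ih =>
    intro w h
    rw [pow_succ] at h
    obtain ⟨k, rfl | rfl⟩ := Nat.even_or_odd' w
    · rw [show y * 2 ^ (p + 1) + 2 * k = 2 * (y * 2 ^ p + k) by ring, omega_two_mul, omega_two_mul]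
      exact ih k (by omega)
    · rw [show y * 2 ^ (p + 1) + (2 * k + 1) = 2 * (y * 2 ^ p + k) + 1 by ring,
        omega_two_mul_add_one, omega_two_mul_add_one, ih k (by omega), add_assoc]

lemma omega_le_one {x : ℕ} (h : omega x ≤ 1) : x = 0 ∨ ∃ c, x = 2 ^ c := by
  rw [omega_eq_length] at h
  have := Nat.sum_map_two_pow_bitIndices x
  rcases hl : x.bitIndices with _ | ⟨c, _ | ⟨d, l⟩⟩
  · rw [hl] at this; left; simpa using this.symm
  · rw [hl] at this; right; exact ⟨c, by simpa using this.symm⟩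
  · rw [hl] at h; simp at h

/-! ### ceiling quotient and defect -/

def up (p e : ℕ) : ℕ := (e + 2 ^ p - 1) / 2 ^ p

def lw (p e : ℕ) : ℕ := up p e * 2 ^ p - e

lemma up_spec (p e : ℕ) : e + lw p e = up p e * 2 ^ p ∧ lw p e < 2 ^ p := by
  have h0 : 0 < 2 ^ p := by positivity
  have h1 := Nat.div_add_mod (e + 2 ^ p - 1) (2 ^ p)
  have h2 := Nat.mod_lt (e + 2 ^ p - 1) h0
  unfold lw up
  rw [mul_comm] at h1
  omega

lemma lex_le {X A B x y : ℕ} (hx : x ≤ X) (hy : y < X) :
    A * X + x ≤ B * X + y ↔ A < B ∨ (A = B ∧ x ≤ y) := by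
  rcases lt_trichotomy A B with h | rfl | h
  · have : (A + 1) * X ≤ B * X := Nat.mul_le_mul_right _ h
    rw [add_mul] at this
    constructor
    · intro _; exact Or.inl h
    · intro _; omega
  · constructor
    · intro h; exact Or.inr ⟨rfl, by omega⟩
    · intro h; omega
  · have : (B + 1) * X ≤ A * X := Nat.mul_le_mul_right _ h
    rw [add_mul] at this
    constructor
    · intro _; omega
    · intro _; omega

lemma up_unique {p e u w : ℕ} (h : e + w = u * 2 ^ p) (hw : w < 2 ^ p) :
    up p e = u ∧ lw p e = w := by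
  obtain ⟨h1, h2⟩ := up_spec p e
  have a1 := (lex_le (A := up p e) (B := u) hw.le h2).1 (by omega)
  have a2 := (lex_le (A := u) (B := up p e) h2.le hw).1 (by omega)
  omega

lemma up_zero (p : ℕ) : up p 0 = 0 ∧ lw p 0 = 0 := up_unique (by simp) (by positivity)

lemma up_pos {p e : ℕ} : 0 < up p e ↔ 0 < e := by
  obtain ⟨h1, h2⟩ := up_spec p e
  constructor
  · intro h
    have : 1 * 2 ^ p ≤ up p e * 2 ^ p := Nat.mul_le_mul_right _ h
    omega
  · intro h
    by_contra h3
    rw [show up p e = 0 by omega] at h1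
    omega

lemma up_add (p x y : ℕ) :
    (lw p x + lw p y < 2 ^ p ∧ up p (x + y) = up p x + up p y ∧ lw p (x + y) = lw p x + lw p y) ∨
    (2 ^ p ≤ lw p x + lw p y ∧ up p (x + y) + 1 = up p x + up p y ∧
      2 ^ p + lw p (x + y) = lw p x + lw p y) := by
  obtain ⟨h1, h2⟩ := up_spec p x
  obtain ⟨h3, h4⟩ := up_spec p y
  rcases Nat.lt_or_ge (lw p x + lw p y) (2 ^ p) with h | h
  · exact Or.inl ⟨h, up_unique (by rw [add_mul]; omega) h⟩
  · right
    obtain ⟨u, hu⟩ : ∃ u, up p x + up p y = u + 1 := by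
      refine ⟨up p x + up p y - 1, ?_⟩
      by_contra h5
      rw [show up p x = 0 by omega] at h1
      omega
    have h5 : (up p x + up p y) * 2 ^ p = (u + 1) * 2 ^ p := by rw [hu]
    rw [add_mul, add_mul] at h5
    obtain ⟨a1, a2⟩ := up_unique (p := p) (e := x + y) (u := u) (w := lw p x + lw p y - 2 ^ p)
      (by omega) (by omega)
    omega

lemma superadd (h X Y : ℕ) : up h X + up h Y + omega (lw h (X + Y)) ≤
    up h (X + Y) + omega (lw h X) + omega (lw h Y) := by
  have h0 := omega_add_le (lw h X) (lw h Y)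
  rcases up_add h X Y with ⟨-, h2, h3⟩ | ⟨-, h2, h3⟩
  · rw [h3]; omega
  · rw [← h3, omega_two_pow_add (up_spec h _).2] at h0; omega

lemma ex_succ (h X : ℕ) : up h (X + 1) + omega (lw h X) ≤ up h X + omega (lw h (X + 1)) + 1 := by
  obtain ⟨h1, h2⟩ := up_spec h X
  rcases Nat.eq_zero_or_pos (lw h X) with h3 | h3
  · obtain ⟨a1, -⟩ := up_unique (p := h) (e := X + 1) (u := up h X + 1) (w := 2 ^ h - 1)
      (by rw [add_mul]; omega) (by omega)
    rw [a1, h3, omega_zero]; omega
  · obtain ⟨a1, a2⟩ := up_unique (p := h) (e := X + 1) (u := up h X) (w := lw h X - 1)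
      (by omega) (by omega)
    have := omega_succ_le (lw h X - 1)
    rw [show lw h X - 1 + 1 = lw h X by omega] at this
    rw [a1, a2]; omega

lemma up_up (h p e : ℕ) : up (h + p) e = up h (up p e) ∧
    lw (h + p) e = lw h (up p e) * 2 ^ p + lw p e := by
  obtain ⟨h1, h2⟩ := up_spec p e
  obtain ⟨h3, h4⟩ := up_spec h (up p e)
  apply up_unique
  · rw [pow_add, ← mul_assoc, ← h3, add_mul]; omega
  · have : (lw h (up p e) + 1) * 2 ^ p ≤ 2 ^ h * 2 ^ p := Nat.mul_le_mul_right _ h4
    rw [pow_add]; rw [add_mul] at this; omega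

/-- the level is at least the number of binary ones of the defect -/
def Ex0 (h p e : ℕ) : Prop := omega (lw h (up p e)) + omega (lw p e) ≤ up h (up p e)

/-- no carry across position `p` is affordable -/
def Good (h p n : ℕ) : Prop :=
  up h (up p n + 1) ≤ omega (lw h (up p n + 1)) + omega (lw p n) + 1

lemma ex0_zero (h p : ℕ) : Ex0 h p 0 := by
  unfold Ex0
  rw [(up_zero p).1, (up_zero p).2, (up_zero h).2, omega_zero]; omega

lemma carry_two {p e f : ℕ} (h1 : 2 ^ p ≤ lw p e + lw p f)
    (h3 : 2 ^ p + lw p (e + f) = lw p e + lw p f) :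
    omega (lw p (e + f)) + 2 ≤ omega (lw p e) + omega (lw p f) := by
  have := omega_add_lt p _ _ (up_spec p e).2 (up_spec p f).2 h1
  rw [← h3, omega_two_pow_add (up_spec p _).2] at this
  omega

lemma ex0_add {h p e f : ℕ} (he : Ex0 h p e) (hf : Ex0 h p f) : Ex0 h p (e + f) := by
  unfold Ex0 at *
  have h0 := superadd h (up p e) (up p f)
  rcases up_add p e f with ⟨-, h2, h3⟩ | ⟨h1, h2, h3⟩
  · have := omega_add_le (lw p e) (lw p f)
    rw [h2, h3]; omega
  · have := carry_two h1 h3
    have := ex_succ h (up p (e + f))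
    rw [← h2] at h0; omega

lemma good_split {h p e f : ℕ} (he : Ex0 h p e) (hf : Ex0 h p f) (hg : Good h p (e + f)) :
    up p (e + f) = up p e + up p f ∧ lw p (e + f) = lw p e + lw p f ∧ Good h p e ∧ Good h p f := by
  unfold Ex0 Good at *
  rcases up_add p e f with ⟨-, h2, h3⟩ | ⟨h1, h2, h3⟩
  · have a1 := omega_add_le (lw p e) (lw p f)
    have a2 := superadd h (up p e) (up p f + 1)
    have a3 := superadd h (up p e + 1) (up p f)
    rw [← add_assoc] at a2
    rw [add_right_comm (up p e) 1] at a3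
    rw [h2, h3] at hg
    exact ⟨h2, h3, by omega, by omega⟩
  · have := carry_two h1 h3
    have h0 := superadd h (up p e) (up p f)
    rw [h2] at hg; omega

lemma okA_iff (h p e : ℕ) : okA (2 ^ (h + p)) (h + p + 1) e ↔
    0 < up p e ∧ omega (lw h (up p e)) + omega (lw p e) ≤ 1 := by
  rw [← omega_mul_add _ _ _ (up_spec p e).2, ← (up_up h p e).2, up_pos]
  generalize h + p = t
  obtain ⟨h1, h2⟩ := up_spec t e
  unfold okA
  refine and_congr_right fun he => ⟨?_, fun hh => ?_⟩
  · rintro ⟨j, hj, c, hc⟩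
    rcases Nat.lt_succ_iff_lt_or_eq.1 hj with h3 | rfl
    · rw [(up_unique (p := t) (e := e) (u := c) (w := 2 ^ j) (by rw [hc, mul_comm])
        (Nat.pow_lt_pow_right (by norm_num) h3)).2, omega_two_pow]
    · obtain ⟨c, rfl⟩ : ∃ d, c = d + 1 := ⟨c - 1, by
        rcases c with _ | c
        · simp at hc
        · rfl⟩
      rw [(up_unique (p := j) (e := e) (u := c) (w := 0) (by rw [mul_add] at hc; rw [mul_comm]; omega)
        (by positivity)).2, omega_zero]
      omega
  · rcases omega_le_one hh with h3 | ⟨c, h3⟩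
    · exact ⟨t, by omega, up t e + 1, by rw [mul_add, mul_comm]; omega⟩
    · rw [h3] at h1 h2
      exact ⟨c, by have := (Nat.pow_lt_pow_iff_right (by norm_num : 1 < 2)).1 h2; omega,
        up t e, by rw [h1, mul_comm]⟩

lemma ex0_okA {h p e : ℕ} (he : okA (2 ^ (h + p)) (h + p + 1) e) : Ex0 h p e := by
  obtain ⟨h1, h2⟩ := (okA_iff h p e).1 he
  have := (up_pos (p := h)).2 h1
  unfold Ex0; omega

lemma ex0_D {h p e : ℕ} (he : e ∈ Dset (2 ^ (h + p)) (h + p + 1)) : Ex0 h p e := by
  obtain ⟨-, S, h1, rfl⟩ := he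
  induction S using Finset.induction_on with
  | empty => exact ex0_zero h p
  | insert a S ha ih =>
    rw [Finset.sum_insert ha]
    exact ex0_add (ex0_okA (h1 a (by simp))) (ih fun e he => h1 e (by simp [he]))

end Pool.Agent.P.MP_e9218d_nt.T7
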