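import Pool.Agent.P.MP_e9218d_nt.Nec7Snd2

namespace Pool.Agent.P.MP_e9218d_nt.T7

variable {P : Set ℕ} {M N Dm RD : ℕ} {b : ℕ → ℕ}

/-- the main loop never accepts a sound state -/
def MnOk (P : Set ℕ) (M N : ℕ) (b : ℕ → ℕ) (F : Mn) : Prop :=
  ∀ U Ub EM db nc eb ne, Inv (gam M b) U → Inv (gam M b) Ub → EMok P M N b EM →
    All (NG (gam M b)) db → All (EqOk (gam M b)) eb → F U Ub EM db nc eb ne = true → False

lemma addc_sound {F : Mn} (hF : MnOk P M N b F) {U Ub EM nc ne : ℕ} {db : BT PL}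
    {eb : BT (ℕ × List PL)} {l : PL} {ok : Bool} (h1 : Inv (gam M b) U) (h2 : Inv (gam M b) Ub)
    (h3 : EMok P M N b EM) (h4 : All (NG (gam M b)) db) (h5 : All (EqOk (gam M b)) eb) (hl : WF l)
    (hok : Inv (gam M b) (assm U l) → ok = true → False)
    (h : addc F U Ub EM db nc eb ne l ok = true) : False := by
  obtain ⟨a1, a2⟩ := brec_true h
  exact hF _ _ _ _ _ _ _ h1 h2 h3 (all_set nc
    ⟨hl, fun hh => hok (assm_sound (fun _ => gam_le _) h1 l hl hh) a2⟩ db h4) h5 a1

lemma main_sound (C : Ctx P M N b Dm RD) {G : ℕ → Bool} {A : ℕ → ℕ} {tab p : ℕ}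
    (hA : ∀ n, 1 ≤ n → n ≤ N → G n = true → A n = cntLe P M b N n) :
    ∀ L, MnOk P M N b (main G A Dm RD tab p M N L)
  | [] => fun _ _ _ _ _ _ _ _ _ _ _ _ h => Bool.noConfusion h
  | c :: L => by
    have ih := main_sound C (tab := tab) (p := p) hA L
    intro U Ub EM db nc eb ne h1 h2 h3 h4 h5 h
    have hg : ∀ j, gam M b j ≤ 4095 := fun _ => gam_le _
    have h' : cmd G A Dm RD tab p M N (main G A Dm RD tab p M N L) U Ub EM db nc eb ne (c % 8)
      ((c >>> 3) % 65536) (c >>> 19) = true := h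
    generalize c % 8 = op at h'
    generalize (c >>> 3) % 65536 = x at h'
    generalize c >>> 19 = r at h'
    generalize main G A Dm RD tab p M N L = F at h' ih
    rcases op with _ | _ | _ | _ | _ | _ | op
    · exact addc_sound ih h1 h2 h3 h4 h5 (parse_wf _ _)
        (fun hI => cmdT_sound hg hI (all_get x eb h5)) h'
    · exact addc_sound ih h1 h2 h3 h4 h5 (parse_wf _ _)
        (fun hI => cmdP_sound hI (all_get x eb h5)) h'
    · exact addc_sound ih h1 h2 h3 h4 h5 (parse_wf _ _)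
        (fun hI => hl_sound hg h4 _ _ _ hI) h'
    · obtain ⟨U', a1, a2⟩ := ustep_sound hg h1 (fun U' => F U' Ub EM db nc eb ne) _
        (all_get x db h4) h'
      exact ih _ _ _ _ _ _ _ a1 h2 h3 h4 h5 a2
    · obtain ⟨a1, a2⟩ := brec_true h'
      obtain ⟨a3, a4⟩ := brec_true a2
      obtain ⟨a5, a6⟩ := brec_true a3
      have a7 : 0 < x := Nat.blt_eq.mp a4
      have a8 : x ≤ N := Nat.le_of_ble_eq_true a6
      cases he : enum Ub Dm RD EM tab p M N 100000 (wm Dm RD EM N x) 0 0 0 x PL.nil [] with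
      | none => rw [he] at a1; exact Bool.noConfusion a1
      | some L' =>
        rw [he] at a1
        obtain ⟨y1, y2⟩ := enum_sound C h3 h2 _ _ _ _ _ _ _ _ _ he (dvd_zero _) trivial
          (by simp) a8 (fun f hf => ⟨(wm_pre C a8 hf).1, (wm_pre C a8 hf).2.1⟩)
        refine ih _ _ _ _ _ _ _ h1 h2 h3 h4 (all_set ne (v := (A x, L')) ⟨y1, ?_⟩ eb h5) a1
        show ev (gam M b) L' = A x
        rw [y2, if_pos (show HC (gam M b) PL.nil from trivial), sg_top C h3 a7 a8, hA x a7 a8 a5]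
        simp [ev]
    · obtain ⟨a1, a2⟩ := brec_true h'
      exact ih _ _ _ _ _ _ _ h1 h1 (gOk_sound C h1 (allLt_iff _ _ a2)) h4 h5 a1
    · exact ih _ _ _ _ _ _ _ h1 h1 h3 h4 h5 h'

/-! ### the table of `A` -/

lemma cntA_mono (M s : ℕ) {u v : ℕ} (h : u ≤ v) : cntA' M s u ≤ cntA' M s v := by
  induction v, h using Nat.le_induction with
  | base => exact le_rfl
  | succ v _ ih =>
    show _ ≤ (Bool.rec (cntA' M s v) (cntA' M s v + 1) (memA M s (v + 1)) : ℕ)
    cases memA M s (v + 1)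
    · exact ih
    · exact Nat.le_succ_of_le ih

lemma cntA_bound (M s : ℕ) : ∀ u m, cntLe (okS M s) M (fun _ => 1) u m ≤ 2 ^ cntA' M s u
  | 0, m => by rw [cntLe_zero (okS_pos M s)]; split_ifs <;> simp [Nat.one_le_two_pow]
  | u + 1, m => by
    have e : cntA' M s (u + 1) = (Bool.rec (cntA' M s u) (cntA' M s u + 1) (memA M s (u + 1)) : ℕ) :=
      rfl
    have h1 := cntA_bound M s u m
    have h2 := cntA_bound M s u (m - (u + 1))
    have h3 := memA_iff M s (u + 1) (by omega)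
    rw [cntLe_succ (okS_pos M s), e, Nat.add_sub_cancel]
    cases hb : memA M s (u + 1) with
    | false =>
      rw [if_neg (fun h => by rw [h3.2 h.1] at hb; exact Bool.noConfusion hb)]
      exact h1
    | true =>
      show _ ≤ 2 ^ (cntA' M s u + 1)
      rw [pow_succ]
      split_ifs <;> omega

lemma aloop_eq {M s N : ℕ} (h : cntA' M s N < 96) : ∀ u, u ≤ N →
    aloop M s N u = enc (2 ^ 96) (cntLe (okS M s) M (fun _ => 1) u) N
  | 0, _ => by
    have : cntLe (okS M s) M (fun _ => 1) 0 = fun m => if m = 0 then 1 else 0 := by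
      funext m; exact cntLe_zero (okS_pos M s) M _ m
    rw [this, enc_delta]
    show 1 <<< (96 * N) = _
    rw [Nat.shiftLeft_eq, one_mul, pow_mul]
  | u + 1, hu => by
    have ih := aloop_eq h u (by omega)
    have e : aloop M s N (u + 1) = (Bool.rec (aloop M s N u)
      (aloop M s N u + (aloop M s N u) >>> (96 * (u + 1))) (memA M s (u + 1)) : ℕ) := rfl
    have h3 := memA_iff M s (u + 1) (by omega)
    rw [e, ih]
    cases hb : memA M s (u + 1) with
    | false =>
      have hn : u + 1 ∉ okS M s := fun h => by rw [h3.2 h] at hb; exact Bool.noConfusion hb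
      show enc _ _ N = _
      congr 1
      funext m
      rw [cntLe_succ (okS_pos M s)]; simp [hn]
    | true =>
      have hn : u + 1 ∈ okS M s := h3.1 hb
      show enc _ _ N + (enc _ _ N) >>> (96 * (u + 1)) = _
      rw [Nat.shiftRight_eq_div_pow, pow_mul]
      obtain ⟨k, hk⟩ : ∃ k, N = k + (u + 1) := ⟨N - (u + 1), by omega⟩
      have hlt : ∀ m, cntLe (okS M s) M (fun _ => 1) u m < 2 ^ 96 := fun m =>
        lt_of_le_of_lt (cntA_bound M s u m) (Nat.pow_lt_pow_right (by norm_num)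
          (lt_of_le_of_lt (cntA_mono M s (by omega)) h))
      have a1 := enc_div hlt k (u + 1)
      have a2 := enc_shift (2 ^ 96) (cntLe (okS M s) M (fun _ => 1) u) (u + 1) k
      rw [← hk] at a1
      rw [add_comm (u + 1) k, ← hk] at a2
      rw [a1, ← a2, ← enc_add]
      congr 1
      funext m
      rw [cntLe_succ (okS_pos M s)]
      simp only [hn, true_and, Nat.add_sub_cancel]

lemma digE_eq {M s N : ℕ} (h : cntA' M s N < 96) {n : ℕ} (hn : n ≤ N) :
    digE (aloop M s N N) N n = (setA M s n).ncard := by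
  rw [setA_eq_wch, wch_univ_eq_cntLe _ M _ hn, aloop_eq h N le_rfl]
  have hlt : ∀ m, cntLe (okS M s) M (fun _ => 1) N m < 2 ^ 96 := fun m =>
    lt_of_le_of_lt (cntA_bound M s N m) (Nat.pow_lt_pow_right (by norm_num) h)
  show ((enc _ _ N) >>> (96 * (N - n))) % 2 ^ 96 = _
  rw [Nat.shiftRight_eq_div_pow, pow_mul]
  have a1 := enc_div hlt n (N - n)
  rw [show n + (N - n) = N by omega] at a1
  rw [a1, enc_mod hlt]

lemma mem_D_iff (M s t : ℕ) : t ∈ Dset M s ↔ 0 < t ∧ (setA M s t).ncard ≠ 0 := by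
  unfold Dset
  rw [Set.mem_ofPred_eq, Ne, Set.ncard_eq_zero (setA_finite M s t), ← Ne,
    ← Set.nonempty_iff_ne_empty]

theorem run7_sound {G : ℕ → Bool} {M s N Dm RD tab p kc ke : ℕ} {L : List ℕ}
    (h : run7 G M s N Dm RD tab p kc ke L = true) {b : ℕ → ℕ}
    (hb : ∀ j, 1 ≤ j → j ≤ M → 0 < b j)
    (he : ∀ n, G n = true → (setA M s n).ncard = (setB M s b n).ncard) : False := by
  obtain ⟨a1, a2⟩ := brec_true h
  obtain ⟨a3, a4⟩ := brec_true a2
  obtain ⟨a5, a6⟩ := brec_true a4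
  have hM : 0 < M := Nat.blt_eq.mp a5
  have hc : cntA' M s N < 96 := Nat.blt_eq.mp a3
  obtain ⟨b1, b2⟩ := brec_true a1
  obtain ⟨b3, b4⟩ := brec_true b2
  obtain ⟨b5, b6⟩ := brec_true b4
  have hd : ∀ t, 1 ≤ t → t ≤ N → (Dm.testBit t = true ↔ t ∈ Dset M s) ∧
      (t ∈ Dset M s → (RD >>> t) &&& RD = RD >>> t) := by
    intro t h1 h2
    have c1 : dOk (digE (aloop M s N N) N) Dm RD (t - 1 + 1) = true :=
      allLt_iff _ _ b3 (t - 1) (by omega)
    rw [show t - 1 + 1 = t by omega] at c1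
    unfold dOk at c1
    rw [digE_eq hc h2, bit_iff] at c1
    rw [mem_D_iff]
    cases hbt : Dm.testBit t with
    | false =>
      rw [hbt] at c1
      have := Nat.eq_of_beq_eq_true c1
      simp [this]
    | true =>
      rw [hbt] at c1
      obtain ⟨c2, c3⟩ := brec_true c1
      have c4 : 0 < (setA M s t).ncard := Nat.blt_eq.mp c2
      exact ⟨⟨fun _ => ⟨h1, by omega⟩, fun _ => rfl⟩, fun _ => Nat.eq_of_beq_eq_true c3⟩
  have C : Ctx (Dset M s) M N b Dm RD :=
    { pos := Dset_pos M s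
      bpos := fun e => hb _ (idx_pos hM e) (idx_le hM e)
      small := Nat.blt_eq.mp a6
      d0 := by
        have : Dm % 2 = 0 := Nat.eq_of_beq_eq_true b6
        simp [Nat.testBit_zero, this]
      dm := fun t h1 h2 => (hd t h1 h2).1
      rtop := Nat.eq_of_beq_eq_true b5
      rcl := fun t h1 h2 => (hd t h1 h2).2 }
  refine main_sound C (G := G) (A := digE (aloop M s N N) N) (fun n _ h2 h3 => ?_) _ _ _ _ _ _ _ _
    inv_zero inv_zero (emok_zero C.pos) (all_full ⟨⟨dvd_zero _, le_rfl, trivial⟩, fun hh => ?_⟩ _ _)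
    (all_full ⟨by simp, rfl⟩ _ _) b1
  · rw [digE_eq hc h2, he n h3, setB_eq_cntLe M s b h2]
  · have := vl_le (g := gam M b) (fun _ => gam_le _) (0 / 12)
    have h1 : 4096 ≤ vl (gam M b) (0 / 12) := hh.1
    omega

end Pool.Agent.P.MP_e9218d_nt.T7
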