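import Pool.Agent.P.MP_e9218d_nt.Nec7Red1
import Pool.Agent.P.MP_e9218d_nt.Nec7Snd3

namespace Pool.Agent.P.MP_e9218d_nt.T7

/-- change of the cut position -/
def tau (p q e : ℕ) : ℕ := up p e * 2 ^ q - lw p e

lemma tau_add {p q e : ℕ} (h : lw p e < 2 ^ q) : tau p q e + lw p e = up p e * 2 ^ q := by
  unfold tau
  rcases Nat.eq_zero_or_pos (up p e) with h1 | h1
  · have := (up_spec p e).1
    rw [h1] at this ⊢
    omega
  · have : 1 * 2 ^ q ≤ up p e * 2 ^ q := Nat.mul_le_mul_right _ h1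
    omega

lemma up_tau {p q e : ℕ} (h : lw p e < 2 ^ q) :
    up q (tau p q e) = up p e ∧ lw q (tau p q e) = lw p e := up_unique (tau_add h) h

lemma tau_tau {p q e : ℕ} (h : lw p e < 2 ^ q) : tau q p (tau p q e) = e := by
  have := (up_spec p e).1
  rw [tau, (up_tau h).1, (up_tau h).2]; omega

lemma good_tau {h p q e : ℕ} (h1 : lw p e < 2 ^ q) : Good h q (tau p q e) ↔ Good h p e := by
  unfold Good; rw [(up_tau h1).1, (up_tau h1).2]

lemma list_split {h p q : ℕ} : ∀ l : List ℕ, (∀ e ∈ l, Ex0 h p e) →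
    Ex0 h p l.sum ∧ (Good h p l.sum → lw p l.sum < 2 ^ q →
      (∀ e ∈ l, Good h p e ∧ lw p e ≤ lw p l.sum) ∧ (l.map (tau p q)).sum = tau p q l.sum)
  | [], _ => ⟨ex0_zero h p, fun _ _ => ⟨by simp, by simp [tau, up_zero]⟩⟩
  | e :: l, hl => by
    obtain ⟨i1, i2⟩ := list_split (q := q) l (fun x hx => hl x (List.mem_cons_of_mem _ hx))
    have he := hl e (by simp)
    rw [List.sum_cons]
    refine ⟨ex0_add he i1, fun hg hw => ?_⟩
    obtain ⟨a1, a2, a3, a4⟩ := good_split he i1 hg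
    obtain ⟨i3, i4⟩ := i2 a4 (by omega)
    refine ⟨fun x hx => ?_, ?_⟩
    · rcases List.mem_cons.1 hx with rfl | hx
      · exact ⟨a3, by omega⟩
      · exact ⟨(i3 x hx).1, by have := (i3 x hx).2; omega⟩
    · have b1 := tau_add (p := p) (q := q) (e := e) (by omega)
      have b2 := tau_add (p := p) (q := q) (e := l.sum) (by omega)
      have b3 := tau_add hw
      rw [a1, add_mul] at b3
      rw [List.map_cons, List.sum_cons, i4]; omega

lemma transfer_le {h p q c n : ℕ} {P1 P2 : Set ℕ} {R1 R2 : ℕ → ℕ → Prop} (hc : c ≤ 2 ^ q)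
    (h1 : ∀ e ∈ P1, Ex0 h p e) (h2 : ∀ e ∈ P2, 0 < e)
    (hP : ∀ e, Good h p e → lw p e < c → e ∈ P1 → tau p q e ∈ P2)
    (hR : ∀ e f, lw p e < c → lw p f < c → R1 e f → R2 (tau p q e) (tau p q f))
    (hg : Good h p n) (hn : lw p n < c) :
    (wch P1 R1 id Set.univ n).ncard ≤ (wch P2 R2 id Set.univ (tau p q n)).ncard := by
  have key : ∀ l ∈ wch P1 R1 id Set.univ n, (∀ e ∈ l, Good h p e ∧ lw p e < c) ∧
      (l.map (tau p q)).sum = tau p q n := by
    rintro l ⟨a1, -, -, a2⟩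
    rw [List.map_id] at a2
    subst a2
    obtain ⟨b1, b2⟩ := (list_split (q := q) l (fun e he => h1 e (a1 e he))).2 hg (by omega)
    exact ⟨fun e he => ⟨(b1 e he).1, by have := (b1 e he).2; omega⟩, b2⟩
  refine Set.ncard_le_ncard_of_injOn (List.map (tau p q)) ?_ ?_ (wch_finite (adm_id h2) _ _ _)
  · intro l hl
    obtain ⟨b1, b2⟩ := key l hl
    obtain ⟨a1, a2, -, -⟩ := hl
    refine ⟨fun x hx => ?_, ?_, by simp, by rw [List.map_id]; exact b2⟩
    · obtain ⟨e, he, rfl⟩ := List.mem_map.1 hx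
      exact hP e (b1 e he).1 (b1 e he).2 (a1 e he)
    · rw [List.isChain_map]
      exact a2.imp_of_mem_imp (fun e f he hf hef => hR e f (b1 e he).2 (b1 f hf).2 hef)
  · intro l hl l' hl' e
    have k : ∀ l ∈ wch P1 R1 id Set.univ n, (l.map (tau p q)).map (tau q p) = l := by
      intro l hl
      rw [List.map_map]
      conv_rhs => rw [← List.map_id l]
      exact List.map_congr_left fun x hx => tau_tau (lt_of_lt_of_le ((key l hl).1 x hx).2 hc)
    rw [← k l hl, ← k l' hl', e]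

lemma transfer {h p q n : ℕ} {P1 P2 : Set ℕ} {R1 R2 : ℕ → ℕ → Prop} (hpq : p ≤ q)
    (h1 : ∀ e ∈ P1, 0 < e ∧ Ex0 h p e) (h2 : ∀ e ∈ P2, 0 < e ∧ Ex0 h q e)
    (hP : ∀ e, Good h p e → (e ∈ P1 ↔ tau p q e ∈ P2))
    (hR : ∀ e f, R1 e f ↔ R2 (tau p q e) (tau p q f)) (hg : Good h p n) :
    (wch P1 R1 id Set.univ n).ncard = (wch P2 R2 id Set.univ (tau p q n)).ncard := by
  have hc : 2 ^ p ≤ 2 ^ q := Nat.pow_le_pow_right (by norm_num) hpq
  have hw : ∀ e, lw p e < 2 ^ q := fun e => lt_of_lt_of_le (up_spec p e).2 hc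
  apply le_antisymm
  · exact transfer_le hc (fun e he => (h1 e he).2) (fun e he => (h2 e he).1)
      (fun e a _ b => (hP e a).1 b) (fun e f _ _ b => (hR e f).1 b) hg (up_spec p n).2
  · have := transfer_le (h := h) (p := q) (q := p) (n := tau p q n) (P1 := P2) (P2 := P1) (R1 := R2)
      (R2 := R1) le_rfl (fun e he => (h2 e he).2) (fun e he => (h1 e he).1)
      (fun e a a' b => (hP _ ((good_tau a').2 a)).2 (by rw [tau_tau a']; exact b))
      (fun e f a a' b => (hR _ _).2 (by rw [tau_tau a, tau_tau a']; exact b))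
      ((good_tau (hw n)).2 hg) (by rw [(up_tau (hw n)).2]; exact (up_spec p n).2)
    rwa [tau_tau (hw n)] at this

lemma cardA_tau {h p q n : ℕ} (hpq : p ≤ q) (hg : Good h p n) :
    (setA (2 ^ (h + p)) (h + p + 1) n).ncard =
      (setA (2 ^ (h + q)) (h + q + 1) (tau p q n)).ncard := by
  have hc : 2 ^ p ≤ 2 ^ q := Nat.pow_le_pow_right (by norm_num) hpq
  have hw : ∀ e, lw p e < 2 ^ q := fun e => lt_of_lt_of_le (up_spec p e).2 hc
  rw [setA_eq_wch, setA_eq_wch]
  refine transfer hpq (fun e he => ⟨he.1, ex0_okA he⟩) (fun e he => ⟨he.1, ex0_okA he⟩)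
    (fun e _ => ?_) (fun e f => ?_) hg
  · show okA _ _ _ ↔ okA _ _ _
    rw [okA_iff, okA_iff, (up_tau (hw e)).1, (up_tau (hw e)).2]
  · show f + 1 ≤ e ↔ tau p q f + 1 ≤ tau p q e
    obtain ⟨a1, a2⟩ := up_spec p e
    obtain ⟨a3, a4⟩ := up_spec p f
    have a5 := tau_add (hw e)
    have a6 := tau_add (hw f)
    have b1 := lex_le (A := up p f) (B := up p e) (x := lw p e + 1) a2 a4
    have b2 := lex_le (A := up p f) (B := up p e) (x := lw p e + 1) (hw e) (hw f)
    omega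

/-- the thresholds of the small system -/
def bsm (h p q : ℕ) (b : ℕ → ℕ) (j : ℕ) : ℕ :=
  (b (idx (2 ^ (h + q)) (tau p q j)) + lw p j) / 2 ^ q * 2 ^ p +
    min ((b (idx (2 ^ (h + q)) (tau p q j)) + lw p j) % 2 ^ q) (2 ^ p) - lw p j

lemma thr_add {P Q β w : ℕ} (hw : w < P) (hβ : 0 < β) :
    w < (β + w) / Q * P + min ((β + w) % Q) P := by
  rcases Nat.eq_zero_or_pos ((β + w) / Q) with h | h
  · have := Nat.div_add_mod (β + w) Q
    rw [h] at this ⊢
    omega
  · have : 1 * P ≤ (β + w) / Q * P := Nat.mul_le_mul_right _ h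
    omega

lemma shift_cls (h p q x c : ℕ) (hpq : p ≤ q) : lw p (x + c * 2 ^ (h + p)) = lw p x ∧
    tau p q (x + c * 2 ^ (h + p)) = tau p q x + c * 2 ^ (h + q) := by
  have hc : 2 ^ p ≤ 2 ^ q := Nat.pow_le_pow_right (by norm_num) hpq
  have hw : ∀ e, lw p e < 2 ^ q := fun e => lt_of_lt_of_le (up_spec p e).2 hc
  obtain ⟨a1, a2⟩ := up_spec p x
  obtain ⟨b1, b2⟩ := up_unique (p := p) (e := x + c * 2 ^ (h + p)) (u := up p x + c * 2 ^ h)
    (w := lw p x) (by rw [add_mul, ← a1, pow_add]; ring) a2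
  refine ⟨b2, ?_⟩
  have c1 := tau_add (hw x)
  have c2 := tau_add (hw (x + c * 2 ^ (h + p)))
  rw [b1, b2, add_mul, mul_assoc, ← pow_add] at c2
  omega

lemma idx_add_mul (M x c : ℕ) : idx M (x + c * M) = idx M x := by
  unfold idx; rw [Nat.add_mul_mod_self_right]

lemma bsm_idx (h p q : ℕ) (b : ℕ → ℕ) (hpq : p ≤ q) (e : ℕ) :
    bsm h p q b (idx (2 ^ (h + p)) e) = bsm h p q b e := by
  have k : ∀ x c, bsm h p q b (x + c * 2 ^ (h + p)) = bsm h p q b x := by
    intro x c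
    unfold bsm
    rw [(shift_cls h p q x c hpq).1, (shift_cls h p q x c hpq).2, idx_add_mul]
  have e1 := k (e % 2 ^ (h + p)) (e / 2 ^ (h + p))
  rw [mul_comm, Nat.mod_add_div] at e1
  rw [e1]
  unfold idx
  split_ifs with h1
  · have := k 0 1
    rw [zero_add, one_mul] at this
    rw [h1, this]
  · rfl

theorem reduce {h p q : ℕ} (hpq : p ≤ q) {b : ℕ → ℕ}
    (hb : ∀ j, 1 ≤ j → j ≤ 2 ^ (h + q) → 0 < b j)
    (he : ∀ n, (setA (2 ^ (h + q)) (h + q + 1) n).ncard =
      (setB (2 ^ (h + q)) (h + q + 1) b n).ncard) :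
    (∀ j, 0 < bsm h p q b j) ∧ ∀ n, Good h p n → (setA (2 ^ (h + p)) (h + p + 1) n).ncard =
      (setB (2 ^ (h + p)) (h + p + 1) (bsm h p q b) n).ncard := by
  have hc : 2 ^ p ≤ 2 ^ q := Nat.pow_le_pow_right (by norm_num) hpq
  have hw : ∀ e, lw p e < 2 ^ q := fun e => lt_of_lt_of_le (up_spec p e).2 hc
  have hM : 0 < 2 ^ (h + q) := by positivity
  have hb' : ∀ e, 0 < b (idx (2 ^ (h + q)) e) := fun e => hb _ (idx_pos hM e) (idx_le hM e)
  refine ⟨fun j => ?_, fun n hg => ?_⟩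
  · have := thr_add (Q := 2 ^ q) (up_spec p j).2 (hb' (tau p q j))
    unfold bsm; omega
  · rw [cardA_tau hpq hg, he]
    symm
    refine transfer hpq (fun e he => ⟨he.1, ex0_D he⟩) (fun e he => ⟨he.1, ex0_D he⟩)
      (fun e hge => ?_) (fun e f => ?_) hg
    · rw [mem_D_iff, mem_D_iff, cardA_tau hpq hge, ← up_pos (p := p) (e := e),
        ← up_pos (p := q) (e := tau p q e),
        (up_tau (hw e)).1]
    · unfold gap
      rw [bsm_idx h p q b hpq]
      obtain ⟨a1, a2⟩ := up_spec p e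
      obtain ⟨a3, a4⟩ := up_spec p f
      have a5 := tau_add (hw e)
      have a6 := tau_add (hw f)
      have a7 := thr_add (Q := 2 ^ q) a2 (hb' (tau p q e))
      unfold bsm
      generalize b (idx (2 ^ (h + q)) (tau p q e)) = β at a7 ⊢
      have a8 := Nat.div_add_mod (β + lw p e) (2 ^ q)
      have a9 := Nat.mod_lt (β + lw p e) (show 0 < 2 ^ q by positivity)
      generalize (β + lw p e) / 2 ^ q = U at a7 a8 ⊢
      generalize (β + lw p e) % 2 ^ q = W at a7 a8 a9 ⊢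
      have b1 := lex_le (A := up p f + U) (B := up p e) (x := min W (2 ^ p)) (min_le_right _ _) a4
      have b2 := lex_le (A := up p f + U) (B := up p e) (x := W) a9.le (hw f)
      rw [add_mul] at b1 b2
      rw [mul_comm] at a8
      omega

/-- number of binary ones, with fuel -/
noncomputable def pc (f : ℕ) : ℕ → ℕ :=
  Nat.rec (fun _ => 0) (fun _ ih x => Nat.add (Nat.mod x 2) (ih (Nat.div x 2))) f

lemma pc_eq : ∀ f x, x < 2 ^ f → pc f x = omega x
  | 0, x, h => by simp at h; subst h; exact omega_zero.symm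
  | f + 1, x, h => by
    rw [pow_succ] at h
    have e : pc (f + 1) x = x % 2 + pc f (x / 2) := rfl
    rw [e, pc_eq f _ (by omega)]
    obtain ⟨k, rfl | rfl⟩ := Nat.even_or_odd' x
    · rw [omega_two_mul, show 2 * k / 2 = k by omega]; omega
    · rw [omega_two_mul_add_one, show (2 * k + 1) / 2 = k by omega]; omega

noncomputable def goodB (h p n : ℕ) : Bool :=
  Nat.ble (up h (up p n + 1)) (pc h (lw h (up p n + 1)) + pc p (lw p n) + 1)

lemma goodB_sound {h p n : ℕ} (hg : goodB h p n = true) : Good h p n := by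
  have := Nat.le_of_ble_eq_true hg
  rwa [pc_eq _ _ (up_spec _ _).2, pc_eq _ _ (up_spec _ _).2] at this

end Pool.Agent.P.MP_e9218d_nt.T7
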