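import Pool.Agent.P.MP_e9218d_nt.Nec7Chk

namespace Pool.Agent.P.MP_e9218d_nt.T7

lemma fc_eq {α : Type} (x : ℕ) (k : ℕ → α) : fc x k = k x := rfl

/-! ### trees -/

def All {α : Type} (p : α → Prop) : BT α → Prop
  | .lf v => p v
  | .nd _ l r => All p l ∧ All p r

lemma all_get {α : Type} {p : α → Prop} (i : ℕ) : ∀ t : BT α, All p t → p (bget t i)
  | .lf _, h => h
  | .nd q l r, h => by
    show p (Bool.rec (bget l i) (bget r i) (Nat.ble q i))
    cases Nat.ble q i
    · exact all_get i l h.1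
    · exact all_get i r h.2

lemma all_set {α : Type} {p : α → Prop} (i : ℕ) {v : α} (hv : p v) :
    ∀ t : BT α, All p t → All p (bset t i v)
  | .lf _, _ => hv
  | .nd q l r, h => by
    show All p (Bool.rec (BT.nd q (bset l i v) r) (BT.nd q l (bset r i v)) (Nat.ble q i))
    cases Nat.ble q i
    · exact ⟨all_set i hv l h.1, h.2⟩
    · exact ⟨h.1, all_set i hv r h.2⟩

lemma all_full {α : Type} {p : α → Prop} {d : α} (hd : p d) :
    ∀ k a, All p (bfull d k a)
  | 0, _ => hd
  | k + 1, _ => ⟨all_full hd k _, all_full hd k _⟩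

/-! ### digits -/

lemma dq_eq (v k : ℕ) : dq v (12 * k) = v / 4096 ^ k % 4096 := by
  show (v >>> (12 * k)) % 4096 = _
  rw [Nat.shiftRight_eq_div_pow, pow_mul]; norm_num

lemma dq_lt (v s : ℕ) : dq v s < 4096 := Nat.mod_lt _ (by norm_num)

lemma dq_raise (v k x j : ℕ) (hx : x < 4096) :
    dq (raise v (12 * k) x) (12 * j) = if j = k then max (dq v (12 * k)) x else dq v (12 * j) := by
  have e : raise v (12 * k) x = v + (x - dq v (12 * k)) * 4096 ^ k := by
    show v + (x - dq v (12 * k)) <<< (12 * k) = _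
    rw [Nat.shiftLeft_eq, pow_mul]; norm_num
  have hk : 0 < 4096 ^ k := by positivity
  have e0 : (v + (x - dq v (12 * k)) * 4096 ^ k) / 4096 ^ k = v / 4096 ^ k + (x - dq v (12 * k)) :=
    Nat.add_mul_div_right _ _ hk
  have hd := dq_eq v k
  rw [e, dq_eq]
  rcases lt_trichotomy j k with h | h | h
  · rw [if_neg (by omega), dq_eq v j]
    obtain ⟨t, rfl⟩ : ∃ t, k = j + t + 1 := ⟨k - j - 1, by omega⟩
    have hj : 0 < 4096 ^ j := by positivity
    rw [show (x - dq v (12 * (j + t + 1))) * 4096 ^ (j + t + 1) =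
      ((x - dq v (12 * (j + t + 1))) * 4096 ^ t * 4096) * 4096 ^ j by ring,
      Nat.add_mul_div_right _ _ hj, Nat.add_mul_mod_self_right]
  · subst h
    rw [if_pos rfl, e0]
    omega
  · rw [if_neg (by omega), dq_eq v j]
    obtain ⟨t, rfl⟩ : ∃ t, j = k + 1 + t := ⟨j - k - 1, by omega⟩
    rw [pow_add, pow_succ, ← Nat.div_div_eq_div_mul, ← Nat.div_div_eq_div_mul,
      ← Nat.div_div_eq_div_mul, ← Nat.div_div_eq_div_mul, e0]
    congr 2
    omega

/-! ### boxes and nogoods -/

variable {g : ℕ → ℕ}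

def vl (g : ℕ → ℕ) (k : ℕ) : ℕ := if k % 2 = 0 then g (k / 2) else 4095 - g (k / 2)

def Inv (g : ℕ → ℕ) (U : ℕ) : Prop := ∀ k, dq U (12 * k) ≤ vl g k

def WF : PL → Prop
  | .nil => True
  | .cons s z r => 12 ∣ s ∧ z ≤ 4096 ∧ WF r

def Hold (g : ℕ → ℕ) : PL → Prop
  | .nil => True
  | .cons s z r => z ≤ vl g (s / 12) ∧ Hold g r

def NG (g : ℕ → ℕ) (l : PL) : Prop := WF l ∧ ¬ Hold g l

lemma vl_le (hg : ∀ j, g j ≤ 4095) (k : ℕ) : vl g k ≤ 4095 := by
  unfold vl; split_ifs
  · exact hg _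
  · omega

lemma vl_xor (hg : ∀ j, g j ≤ 4095) (k : ℕ) : vl g (k ^^^ 1) + vl g k = 4095 := by
  have := hg (k / 2)
  rcases Nat.even_or_odd k with h | h
  · rw [Nat.xor_one_of_even h]
    have h1 := Nat.even_iff.1 h
    unfold vl
    rw [if_neg (by omega), if_pos h1, show (k + 1) / 2 = k / 2 by omega]; omega
  · rw [Nat.xor_one_of_odd h]
    have h1 := Nat.odd_iff.1 h
    unfold vl
    rw [if_pos (by omega), if_neg (by omega), show (k - 1) / 2 = k / 2 by omega]; omega

lemma inv_zero : Inv g 0 := fun k => by rw [dq_eq]; simp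

lemma inv_raise (hg : ∀ j, g j ≤ 4095) {U k z : ℕ} (h : Inv g U) (hz : z ≤ vl g k) :
    Inv g (raise U (12 * k) z) := by
  intro j
  have := vl_le hg k
  rw [dq_raise _ _ _ _ (by omega)]
  split_ifs with h1
  · subst h1; exact max_le (h j) hz
  · exact h j

lemma allE_sound {U : ℕ} (h : Inv g U) : ∀ l, WF l → allE U l = true → Hold g l
  | .nil, _, _ => trivial
  | .cons s z r, hw, ha => by
    obtain ⟨⟨k, rfl⟩, -, hr⟩ := hw
    obtain ⟨h1, h2⟩ := brec_true (a := allE U r) (c := Nat.ble z (dq U (12 * k))) ha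
    refine ⟨?_, allE_sound h r hr h1⟩
    rw [Nat.mul_div_cancel_left _ (by norm_num)]
    exact le_trans (Nat.le_of_ble_eq_true h2) (h k)

lemma ustep_sound (hg : ∀ j, g j ≤ 4095) {U : ℕ} (h : Inv g U) (k : ℕ → Bool) :
    ∀ l, NG g l → ustep U l k = true → ∃ U', Inv g U' ∧ k U' = true
  | .nil, hn, _ => absurd trivial hn.2
  | .cons s z r, hn, hu => by
    obtain ⟨⟨⟨i, rfl⟩, hz, hr⟩, hh⟩ := hn
    have e : ustep U (.cons (12 * i) z r) k = Bool.rec
      (Bool.rec false (k (raise U (partner (12 * i)) (4096 - z))) (allE U r)) (ustep U r k)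
      (Nat.ble z (dq U (12 * i))) := rfl
    rw [e] at hu
    have e2 : 12 * i / 12 = i := Nat.mul_div_cancel_left _ (by norm_num)
    cases hb : Nat.ble z (dq U (12 * i)) with
    | true =>
      rw [hb] at hu
      refine ustep_sound hg h k r ⟨hr, fun h1 => hh ⟨?_, h1⟩⟩ hu
      rw [e2]
      exact le_trans (Nat.le_of_ble_eq_true hb) (h i)
    | false =>
      rw [hb] at hu
      obtain ⟨h1, h2⟩ := brec_true hu
      refine ⟨_, ?_, h1⟩
      have e3 : partner (12 * i) = 12 * (i ^^^ 1) := by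
        show 12 * ((12 * i / 12) ^^^ 1) = _
        rw [e2]
      rw [e3]
      apply inv_raise hg h
      have h3 : ¬ z ≤ vl g i := fun h4 => hh ⟨by rw [e2]; exact h4, allE_sound h r hr h2⟩
      have := vl_xor hg i
      omega

lemma assm_sound (hg : ∀ j, g j ≤ 4095) {U : ℕ} (h : Inv g U) :
    ∀ l, WF l → Hold g l → Inv g (assm U l)
  | .nil, _, _ => h
  | .cons s z r, hw, hh => by
    obtain ⟨⟨k, rfl⟩, -, hr⟩ := hw
    have h1 := hh.1
    rw [Nat.mul_div_cancel_left _ (by norm_num)] at h1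
    exact inv_raise hg (assm_sound hg h r hr hh.2) h1

lemma parse_wf : ∀ f a, WF (parse f a)
  | 0, _ => trivial
  | f + 1, a => by
    show WF (Bool.rec (PL.cons (12 * ((a >>> 12) % 1024)) (a % 4096) (parse f (a >>> 22))) PL.nil
      (Nat.beq a 0))
    cases Nat.beq a 0
    · exact ⟨Dvd.intro _ rfl, by omega, parse_wf f _⟩
    · trivial

lemma hl_sound (hg : ∀ j, g j ≤ 4095) {db : BT PL} (hdb : All (NG g) db) :
    ∀ f hs U, Inv g U → hl db f hs U = true → False
  | 0, _, _, _, h => Bool.noConfusion h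
  | f + 1, hs, U, hU, h => by
    obtain ⟨U', h1, h2⟩ := ustep_sound hg hU _ _ (all_get (hs % 65536) db hdb) h
    exact hl_sound hg hdb f _ U' h1 h2

/-! ### chains of conditions -/

def WC : PL → Prop
  | .nil => True
  | .cons s _ r => 24 ∣ s ∧ WC r

def HC (g : ℕ → ℕ) : PL → Prop
  | .nil => True
  | .cons s d r => g (s / 24) ≤ d ∧ HC g r

lemma inv_lo {U : ℕ} (h : Inv g U) (j : ℕ) : dq U (24 * j) ≤ g j := by
  have := h (2 * j)
  unfold vl at this
  rw [if_pos (by omega), show 2 * j / 2 = j by omega, show 12 * (2 * j) = 24 * j by omega] at this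
  exact this

lemma inv_hi (hg : ∀ j, g j ≤ 4095) {U : ℕ} (h : Inv g U) (j : ℕ) :
    g j + dq U (24 * j + 12) ≤ 4095 := by
  have := h (2 * j + 1)
  unfold vl at this
  rw [if_neg (by omega), show (2 * j + 1) / 2 = j by omega,
    show 12 * (2 * j + 1) = 24 * j + 12 by omega] at this
  have := hg j
  omega

lemma chT_sound (hg : ∀ j, g j ≤ 4095) {U : ℕ} (h : Inv g U) :
    ∀ c, WC c → chT (U >>> 12) c = true → HC g c
  | .nil, _, _ => trivial
  | .cons s d r, hw, hc => by
    obtain ⟨⟨j, rfl⟩, hr⟩ := hw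
    obtain ⟨h1, h2⟩ := brec_true (a := chT (U >>> 12) r)
      (c := Nat.ble 4095 (d + dq (U >>> 12) (24 * j))) hc
    refine ⟨?_, chT_sound hg h r hr h1⟩
    rw [Nat.mul_div_cancel_left _ (by norm_num)]
    have h3 := Nat.le_of_ble_eq_true h2
    have h4 : dq (U >>> 12) (24 * j) = dq U (24 * j + 12) := by
      show ((U >>> 12) >>> (24 * j)) % 4096 = (U >>> (24 * j + 12)) % 4096
      rw [← Nat.shiftRight_add, add_comm]
    have := inv_hi hg h j
    omega

lemma chP_sound {U : ℕ} (h : Inv g U) : ∀ c, WC c → HC g c → chP U c = true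
  | .nil, _, _ => rfl
  | .cons s d r, hw, hc => by
    obtain ⟨⟨j, rfl⟩, hr⟩ := hw
    have h1 := hc.1
    rw [Nat.mul_div_cancel_left _ (by norm_num)] at h1
    show Bool.rec false (chP U r) (Nat.ble (dq U (24 * j)) d) = true
    rw [Nat.ble_eq_true_of_le (le_trans (inv_lo h j) h1)]
    exact chP_sound h r hr hc.2

open Classical in
/-- number of chains that hold -/
noncomputable def ev (g : ℕ → ℕ) : List PL → ℕ
  | [] => 0
  | c :: L => (if HC g c then 1 else 0) + ev g L

lemma more_sound (p : PL → Bool) : ∀ (L : List PL) (a : ℕ), (∀ c ∈ L, p c = true → HC g c) →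
    more p L a = true → a < ev g L
  | [], _, _, h => Bool.noConfusion h
  | c :: L, a, hp, h => by
    have e : more p (c :: L) a = Bool.rec (more p L a)
      (Nat.rec true (fun a' _ => more p L a') a) (p c) := rfl
    rw [e] at h
    have hp' : ∀ c ∈ L, p c = true → HC g c := fun x hx => hp x (List.mem_cons_of_mem _ hx)
    unfold ev
    cases hb : p c with
    | false =>
      rw [hb] at h
      have := more_sound p L a hp' h
      omega
    | true =>
      rw [hb] at h
      rw [if_pos (hp c (by simp) hb)]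
      cases a with
      | zero => omega
      | succ a =>
        have := more_sound p L a hp' h
        omega

lemma fewer_sound (p : PL → Bool) : ∀ (L : List PL) (a : ℕ), (∀ c ∈ L, HC g c → p c = true) →
    fewer p L a = true → ev g L < a
  | [], _, _, h => Nat.blt_eq.mp h
  | c :: L, a, hp, h => by
    have e : fewer p (c :: L) a = Bool.rec (fewer p L a)
      (Nat.rec false (fun a' _ => fewer p L a') a) (p c) := rfl
    rw [e] at h
    have hp' : ∀ c ∈ L, HC g c → p c = true := fun x hx => hp x (List.mem_cons_of_mem _ hx)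
    unfold ev
    cases hb : p c with
    | false =>
      rw [hb] at h
      have := fewer_sound p L a hp' h
      rw [if_neg (fun h1 => by rw [hp c (by simp) h1] at hb; exact Bool.noConfusion hb)]
      omega
    | true =>
      rw [hb] at h
      cases a with
      | zero => exact Bool.noConfusion h
      | succ a =>
        have := fewer_sound p L a hp' h
        split_ifs <;> omega

def EqOk (g : ℕ → ℕ) (q : ℕ × List PL) : Prop := (∀ c ∈ q.2, WC c) ∧ ev g q.2 = q.1

lemma cmdT_sound (hg : ∀ j, g j ≤ 4095) {U : ℕ} (h : Inv g U) {q : ℕ × List PL} (hq : EqOk g q) :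
    cmdT U q = true → False := by
  obtain ⟨a, L⟩ := q
  intro h1
  have := more_sound (g := g) _ L a (fun c hc => chT_sound hg h c (hq.1 c hc)) h1
  have h2 : ev g L = a := hq.2
  omega

lemma cmdP_sound {U : ℕ} (h : Inv g U) {q : ℕ × List PL} (hq : EqOk g q) :
    cmdP U q = true → False := by
  obtain ⟨a, L⟩ := q
  intro h1
  have := fewer_sound (g := g) _ L a (fun c hc => chP_sound h c (hq.1 c hc)) h1
  have h2 : ev g L = a := hq.2
  omega

lemma allLt_iff (f : ℕ → Bool) : ∀ k, allLt f k = true → ∀ j < k, f j = true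
  | 0, _, _, hj => absurd hj (Nat.not_lt_zero _)
  | k + 1, h, j, hj => by
    obtain ⟨h1, h2⟩ := brec_true (a := allLt f k) (c := f k) h
    rcases Nat.lt_succ_iff_lt_or_eq.1 hj with h3 | rfl
    · exact allLt_iff f k h1 j h3
    · exact h2

end Pool.Agent.P.MP_e9218d_nt.T7
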