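import Pool.Agent.P.MP_e9218d_nt.Nec7Snd1

namespace Pool.Agent.P.MP_e9218d_nt.T7

open Finset

variable {P : Set ℕ} {M N : ℕ} {b : ℕ → ℕ}

open Classical in
lemma cnt_unfold (hP : ∀ a ∈ P, 0 < a) (u m : ℕ) :
    cntLe P M b u m = (if m = 0 then 1 else 0) + ∑ f ∈ range (u + 1),
      if f ∈ P ∧ f ≤ m then cntLe P M b (f - b (idx M f)) (m - f) else 0 := by
  induction u with
  | zero =>
    rw [cntLe_zero hP]
    have : 0 ∉ P := fun h => lt_irrefl _ (hP 0 h)
    simp [this]
  | succ u ih => rw [cntLe_succ hP, sum_range_succ, ih, add_assoc]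

lemma cnt_zero_right (hP : ∀ a ∈ P, 0 < a) (u : ℕ) : cntLe P M b u 0 = 1 := by
  classical
  rw [cnt_unfold hP, if_pos rfl, sum_eq_zero, add_zero]
  intro f _
  rw [if_neg]
  rintro ⟨h1, h2⟩
  have := hP f h1
  omega

lemma term_le (hP : ∀ a ∈ P, 0 < a) {u m f : ℕ} (h1 : f ≤ u) (h2 : f ∈ P) (h3 : f ≤ m) :
    cntLe P M b (f - b (idx M f)) (m - f) ≤ cntLe P M b u m := by
  classical
  rw [cnt_unfold hP u m]
  have := single_le_sum (f := fun f => if f ∈ P ∧ f ≤ m then
    cntLe P M b (f - b (idx M f)) (m - f) else 0) (s := range (u + 1)) (fun _ _ => Nat.zero_le _)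
    (mem_range.2 (Nat.lt_succ_of_le h1))
  simp only [h2, h3, and_self, if_true] at this
  omega

/-- truncated thresholds -/
def gam (M : ℕ) (b : ℕ → ℕ) (j : ℕ) : ℕ := min (b (idx M j) - 1) 4095

lemma gam_le (j : ℕ) : gam M b j ≤ 4095 := min_le_right _ _

lemma gam_mod (e : ℕ) : gam M b (e % M) = gam M b e := by unfold gam; rw [idx_of_mod]

/-- facts about the masks -/
structure Ctx (P : Set ℕ) (M N : ℕ) (b : ℕ → ℕ) (Dm RD : ℕ) : Prop where
  pos : ∀ a ∈ P, 0 < a
  bpos : ∀ e, 0 < b (idx M e)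
  small : N < 4095
  d0 : Dm.testBit 0 = false
  dm : ∀ t, 1 ≤ t → t ≤ N → (Dm.testBit t = true ↔ t ∈ P)
  rtop : RD >>> N = 1
  rcl : ∀ t, 1 ≤ t → t ≤ N → t ∈ P → (RD >>> t) &&& RD = RD >>> t

variable {Dm RD : ℕ}

lemma Ctx.rd_le (C : Ctx P M N b Dm RD) {i : ℕ} (h : RD.testBit i = true) : i ≤ N := by
  by_contra h1
  obtain ⟨k, rfl⟩ : ∃ k, i = N + (k + 1) := ⟨i - N - 1, by omega⟩
  rw [← Nat.testBit_shiftRight, C.rtop, Nat.testBit_lt_two_pow] at h
  · exact Bool.noConfusion h
  · exact Nat.one_lt_two_pow (by omega)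

lemma Ctx.closure (C : Ctx P M N b Dm RD) : ∀ u x, x ≤ N → cntLe P M b u x ≠ 0 →
    RD.testBit (N - x) = true := by
  intro u
  induction u using Nat.strong_induction_on with
  | _ u ih =>
    intro x hx h
    cases u with
    | zero =>
      rw [cntLe_zero C.pos] at h
      have : x = 0 := by by_contra h1; simp [h1] at h
      subst this
      have := Nat.testBit_shiftRight (i := N) (j := 0) RD
      rw [C.rtop] at this
      simpa using this.symm
    | succ u =>
      rw [cntLe_succ C.pos] at h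
      by_cases h1 : cntLe P M b u x = 0
      · rw [h1, zero_add] at h
        split_ifs at h with h2
        · have h3 := C.bpos (u + 1)
          have h4 := ih _ (by omega) _ (by omega) h
          have h5 := congrArg (fun y => Nat.testBit y (N - x)) (C.rcl (u + 1) (by omega) (by omega) h2.1)
          simp only [Nat.testBit_and, Nat.testBit_shiftRight] at h5
          rw [show u + 1 + (N - x) = N - (x - (u + 1)) by omega, h4] at h5
          simpa using h5
        · exact absurd rfl h
      · exact ih u (by omega) x hx h1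

def EMok (P : Set ℕ) (M N : ℕ) (b : ℕ → ℕ) (EM : ℕ) : Prop :=
  ∀ m, 1 ≤ m → m ≤ N → cntLe P M b (dq EM (12 * m) - 1) m = 0

lemma emok_zero (hP : ∀ a ∈ P, 0 < a) : EMok P M N b 0 := by
  intro m h1 _
  rw [dq_eq, Nat.zero_div, Nat.zero_mod, cntLe_zero hP, if_neg (by omega)]

lemma bit_iff (D t : ℕ) : bit D t = D.testBit t := by
  rw [Nat.testBit_eq_decide_div_mod_eq]
  show Nat.beq ((D >>> t) % 2) 1 = _
  rw [Nat.shiftRight_eq_div_pow]
  by_cases h : D / 2 ^ t % 2 = 1
  · rw [h]; simp
  · simp only [h, decide_false]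
    cases hb : Nat.beq (D / 2 ^ t % 2) 1
    · rfl
    · exact absurd (Nat.eq_of_beq_eq_true hb) h

lemma gOk_sound (C : Ctx P M N b Dm RD) {U G EM : ℕ} (hU : Inv (gam M b) U)
    (h : ∀ u < N, gOk U Dm M N G EM u = true) : EMok P M N b EM := by
  have h1 : ∀ u < N, dq G (12 * u) ≤ dq G (12 * (u + 1)) ∧
      (u + 1 ∈ P → min 4095 (u + 1 + dq G (12 * (u - dq U (24 * ((u + 1) % M))))) ≤
        dq G (12 * (u + 1))) ∧ dq G (12 * (dq EM (12 * (u + 1)) - 1)) ≤ u ∧
        dq EM (12 * (u + 1)) ≤ N := by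
    intro u hu
    obtain ⟨a1, a2⟩ := brec_true (h u hu)
    obtain ⟨a3, a4⟩ := brec_true a1
    obtain ⟨a5, a6⟩ := brec_true a2
    refine ⟨Nat.le_of_ble_eq_true a4, fun hp => ?_, Nat.le_of_ble_eq_true a5,
      Nat.le_of_ble_eq_true a6⟩
    have a7 : bit Dm (u + 1) = true := by
      rw [bit_iff]; exact (C.dm _ (by omega) (by omega)).2 hp
    have a8 : bit Dm u.succ = true := a7
    rw [a8] at a3
    exact Nat.le_of_ble_eq_true a3
  have mono : ∀ u v, u ≤ v → v ≤ N → dq G (12 * u) ≤ dq G (12 * v) := by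
    intro u v huv
    induction v, huv using Nat.le_induction with
    | base => intro _; exact le_rfl
    | succ v _ ih => intro hv; exact le_trans (ih (by omega)) (h1 v (by omega)).1
  have key : ∀ u, u ≤ N → ∀ m, m ≤ N → dq G (12 * u) < m → cntLe P M b u m = 0 := by
    intro u
    induction u using Nat.strong_induction_on with
    | _ u ih =>
      intro hu m hm hlt
      cases u with
      | zero => rw [cntLe_zero C.pos, if_neg (by omega)]
      | succ u =>
        obtain ⟨b1, b2, -, -⟩ := h1 u (by omega)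
        rw [cntLe_succ C.pos, ih u (by omega) (by omega) m hm (by omega), zero_add]
        split_ifs with h2
        · have b3 := b2 h2.1
          have b4 := C.bpos (u + 1)
          have b5 := inv_lo hU ((u + 1) % M)
          rw [gam_mod] at b5
          have b6 : gam M b (u + 1) ≤ b (idx M (u + 1)) - 1 := min_le_left _ _
          have b7 := mono (u + 1 - b (idx M (u + 1))) (u - dq U (24 * ((u + 1) % M))) (by omega)
            (by omega)
          have := C.small
          exact ih _ (by omega) (by omega) _ (by omega) (by omega)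
        · rfl
  intro m hm1 hm2
  obtain ⟨u, rfl⟩ : ∃ u, m = u + 1 := ⟨m - 1, by omega⟩
  obtain ⟨-, -, c1, c2⟩ := h1 u (by omega)
  exact key _ (by omega) _ hm2 (by omega)

open Classical in
/-- contribution of a candidate -/
noncomputable def tm (P : Set ℕ) (M : ℕ) (b : ℕ → ℕ) (pv s hi rem e : ℕ) : ℕ :=
  if hi ≤ pv - e ∨ gam M b (s / 24) ≤ pv - e then cntLe P M b (e - b (idx M e)) (rem - e) else 0

/-- contribution of a set of candidates -/
noncomputable def sg (P : Set ℕ) (M N : ℕ) (b : ℕ → ℕ) (c pv s hi rem : ℕ) : ℕ :=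
  ∑ e ∈ range (N + 1), if c.testBit e = true then tm P M b pv s hi rem e else 0

def Pre (c rem : ℕ) : Prop := ∀ e, c.testBit e = true → 1 ≤ e ∧ e ≤ rem

lemma wm_bit (EM m f : ℕ) : (wm Dm RD EM N m).testBit f = true ↔
    dq EM (12 * m) ≤ f ∧ Dm.testBit f = true ∧ RD.testBit (N - m + f) = true := by
  show (((Dm &&& (RD >>> (N - m))) >>> dq EM (12 * m)) <<< dq EM (12 * m)).testBit f = true ↔ _
  rw [Nat.testBit_shiftLeft, Nat.testBit_shiftRight, Nat.testBit_and, Nat.testBit_shiftRight]
  simp only [Bool.and_eq_true, decide_eq_true_eq, ge_iff_le]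
  constructor
  · rintro ⟨h1, h2⟩
    rw [show dq EM (12 * m) + (f - dq EM (12 * m)) = f by omega] at h2
    exact ⟨h1, h2⟩
  · rintro ⟨h1, h2⟩
    rw [show dq EM (12 * m) + (f - dq EM (12 * m)) = f by omega]
    exact ⟨h1, h2⟩

lemma wm_pre (C : Ctx P M N b Dm RD) {EM m f : ℕ} (hm : m ≤ N)
    (h : (wm Dm RD EM N m).testBit f = true) : 1 ≤ f ∧ f ≤ m ∧ f ∈ P := by
  obtain ⟨-, h2, h3⟩ := (wm_bit EM m f).1 h
  have h4 := C.rd_le h3
  have h5 : 1 ≤ f := by
    by_contra h6
    have : f = 0 := by omega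
    rw [this, C.d0] at h2
    exact Bool.noConfusion h2
  exact ⟨h5, by omega, (C.dm f h5 (by omega)).1 h2⟩

lemma wm_zero (C : Ctx P M N b Dm RD) {EM m f : ℕ} (hE : EMok P M N b EM) (hm1 : 1 ≤ m)
    (hm : m ≤ N) (h : ¬ (wm Dm RD EM N m).testBit f = true) (h1 : f ∈ P) (h2 : f ≤ m) :
    cntLe P M b (f - b (idx M f)) (m - f) = 0 := by
  by_contra h3
  apply h
  have h4 := C.pos f h1
  rw [wm_bit]
  refine ⟨?_, (C.dm f h4 (by omega)).2 h1, ?_⟩
  · by_contra h5
    have h6 := term_le (M := M) (b := b) C.pos (u := dq EM (12 * m) - 1) (by omega) h1 h2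
    rw [hE m hm1 hm] at h6
    omega
  · have := C.closure _ _ (by omega) h3
    rwa [show N - (m - f) = N - m + f by omega] at this

lemma sg_gen (C : Ctx P M N b Dm RD) {EM m c u pv s hi : ℕ} (hE : EMok P M N b EM) (hm1 : 1 ≤ m)
    (hm : m ≤ N) (hu : u ≤ N)
    (h1 : ∀ f, c.testBit f = true → (wm Dm RD EM N m).testBit f = true ∧
      ((hi ≤ pv - f ∨ gam M b (s / 24) ≤ pv - f) ↔ f ≤ u))
    (h2 : ∀ f, f ≤ u → (wm Dm RD EM N m).testBit f = true → c.testBit f = true) :
    sg P M N b c pv s hi m = cntLe P M b u m := by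
  classical
  rw [cnt_unfold C.pos, if_neg (by omega), zero_add]
  unfold sg
  rw [← sum_subset (s₁ := range (u + 1)) (range_subset_range.2 (by omega))]
  · refine sum_congr rfl fun f hf => ?_
    have hf' : f ≤ u := by have := mem_range.1 hf; omega
    by_cases hb : c.testBit f = true
    · obtain ⟨a1, a2⟩ := h1 f hb
      obtain ⟨-, a3, a4⟩ := wm_pre C hm a1
      rw [if_pos hb, if_pos ⟨a4, a3⟩, tm, if_pos (a2.2 hf')]
    · rw [if_neg hb]
      split_ifs with h3
      · exact (wm_zero C hE hm1 hm (fun h4 => hb (h2 f hf' h4)) h3.1 h3.2).symm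
      · rfl
  · intro f _ hf
    have hf' : ¬ f ≤ u := fun h => hf (mem_range.2 (by omega))
    split_ifs with hb
    · rw [tm, if_neg (fun h => hf' ((h1 f hb).2.1 h))]
    · rfl

lemma sg_top (C : Ctx P M N b Dm RD) {EM n : ℕ} (hE : EMok P M N b EM) (h1 : 1 ≤ n) (h2 : n ≤ N) :
    sg P M N b (wm Dm RD EM N n) 0 0 0 n = cntLe P M b N n := by
  refine sg_gen C hE h1 h2 le_rfl (fun f hf => ⟨hf, ?_⟩) (fun f _ h => h)
  have := wm_pre C h2 hf
  constructor
  · intro _; omega
  · intro _; left; omega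

lemma capf_bit (x U e f : ℕ) : (x % capf U M e).testBit f = true ↔
    f ≤ e - 1 - dq U (24 * (e % M)) ∧ x.testBit f = true := by
  have : capf U M e = 2 ^ (e - 1 - dq U (24 * (e % M)) + 1) := by
    show 2 <<< (e - 1 - dq U (24 * (e % M))) = _
    rw [Nat.shiftLeft_eq, pow_succ, mul_comm]
  rw [this, Nat.testBit_mod_two_pow]
  simp only [Bool.and_eq_true, decide_eq_true_eq]
  constructor <;> rintro ⟨h1, h2⟩ <;> exact ⟨by omega, h2⟩

lemma sg_sub (C : Ctx P M N b Dm RD) {EM U e m : ℕ} (hE : EMok P M N b EM) (hU : Inv (gam M b) U)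
    (he : e ≤ N) (h1 : 1 ≤ m) (h2 : m ≤ N) :
    sg P M N b (wm Dm RD EM N m % capf U M e) (e - 1) (24 * (e % M)) (hif U M e) m =
      cntLe P M b (e - b (idx M e)) m := by
  have a1 := inv_lo hU (e % M)
  have a2 := inv_hi (fun _ => gam_le _) hU (e % M)
  have a3 : hif U M e = 4095 - dq U (24 * (e % M) + 12) := rfl
  have a4 : gam M b (e % M) = min (b (idx M e) - 1) 4095 := gam_mod e
  have a5 := C.bpos e
  have a6 := C.small
  refine sg_gen C hE h1 h2 (by omega) (fun f hf => ?_) (fun f hf h => ?_)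
  · obtain ⟨b1, b2⟩ := (capf_bit _ _ _ _).1 hf
    have b3 := (wm_pre C h2 b2).1
    refine ⟨b2, ?_⟩
    rw [Nat.mul_div_cancel_left _ (by norm_num), a3]
    omega
  · have b3 := (wm_pre C h2 h).1
    exact (capf_bit _ _ _ _).2 ⟨by omega, h⟩

lemma sg_zero (pv s hi rem : ℕ) : sg P M N b 0 pv s hi rem = 0 := by simp [sg]

lemma sg_split {c e pv s hi rem : ℕ} (hr : rem ≤ N) (hp : Pre c rem)
    (h : c ^^^ (c &&& (c - 1)) = 1 <<< e) :
    c.testBit e = true ∧ Pre (c &&& (c - 1)) rem ∧ sg P M N b c pv s hi rem =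
      sg P M N b (c &&& (c - 1)) pv s hi rem + tm P M b pv s hi rem e := by
  have k : ∀ i, (c.testBit i ^^ (c.testBit i && (c - 1).testBit i)) = decide (e = i) := by
    intro i
    have := congrArg (fun y => Nat.testBit y i) h
    simpa only [Nat.testBit_xor, Nat.testBit_and, Nat.one_shiftLeft, Nat.testBit_two_pow] using this
  have k1 := k e
  have h1 : c.testBit e = true := by
    cases hb : c.testBit e
    · rw [hb] at k1; simp at k1
    · rfl
  have h2 : (c &&& (c - 1)).testBit e = false := by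
    rw [Nat.testBit_and]
    rw [h1] at k1 ⊢
    simpa using k1
  refine ⟨h1, fun f hf => hp f ?_, ?_⟩
  · rw [Nat.testBit_and, Bool.and_eq_true] at hf
    exact hf.1
  · have he : e ∈ range (N + 1) := mem_range.2 (by have := (hp e h1).2; omega)
    unfold sg
    rw [← sum_erase_add _ _ he, ← sum_erase_add _ _ he, if_pos h1, h2]
    simp only [Bool.false_eq_true, if_false, add_zero]
    congr 1
    refine sum_congr rfl fun f hf => ?_
    have h3 : e ≠ f := (ne_of_mem_erase hf).symm
    have k2 := k f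
    rw [decide_eq_false h3] at k2
    rw [Nat.testBit_and]
    cases hb : c.testBit f <;> cases hb' : (c - 1).testBit f <;> simp_all

lemma ext_spec {pv s hi e : ℕ} {cur : PL} (hs : 24 ∣ s) (hc : WC cur) :
    WC (ext pv s hi e cur) ∧ (HC (gam M b) (ext pv s hi e cur) ↔
      HC (gam M b) cur ∧ (hi ≤ pv - e ∨ gam M b (s / 24) ≤ pv - e)) := by
  have : ext pv s hi e cur = Bool.rec (PL.cons s (pv - e) cur) cur (Nat.ble hi (pv - e)) := rfl
  rw [this]
  cases hb : Nat.ble hi (pv - e) with
  | true => exact ⟨hc, fun h => ⟨h, Or.inl (Nat.le_of_ble_eq_true hb)⟩, fun h => h.1⟩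
  | false =>
    have h1 : ¬ hi ≤ pv - e := fun h => by
      rw [Nat.ble_eq_true_of_le h] at hb; exact Bool.noConfusion hb
    exact ⟨⟨hs, hc⟩, fun h => ⟨h.2, Or.inr h.1⟩, fun h => ⟨h.2.resolve_left h1, h.1⟩⟩

open Classical in
/-- specification of the enumeration loop -/
def EnOk (P : Set ℕ) (M N : ℕ) (b : ℕ → ℕ) (F : En) : Prop :=
  ∀ c pv s hi rem cur acc acc', F c pv s hi rem cur acc = some acc' → 24 ∣ s → WC cur →
    (∀ x ∈ acc, WC x) → rem ≤ N → Pre c rem → (∀ x ∈ acc', WC x) ∧
      ev (gam M b) acc' = ev (gam M b) acc +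
        if HC (gam M b) cur then sg P M N b c pv s hi rem else 0

lemma enum_sound (C : Ctx P M N b Dm RD) {EM U tab p : ℕ} (hE : EMok P M N b EM)
    (hU : Inv (gam M b) U) : ∀ f, EnOk P M N b (enum U Dm RD EM tab p M N f)
  | 0 => fun _ _ _ _ _ _ _ _ h => by cases h
  | f + 1 => by
    classical
    have ih := enum_sound C (tab := tab) (p := p) hE hU f
    intro c pv s hi rem cur acc acc' h hs hc ha hr hp
    set F := enum U Dm RD EM tab p M N f with hF
    have e0 : enum U Dm RD EM tab p M N (f + 1) c pv s hi rem cur acc = Bool.rec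
      (e1 U Dm RD EM tab p M N F (c &&& (c - 1)) (c ^^^ (c &&& (c - 1))) pv s hi rem cur acc)
      (some acc) (Nat.beq c 0) := rfl
    rw [e0] at h
    cases hb : Nat.beq c 0 with
    | true =>
      rw [hb] at h
      obtain rfl : acc = acc' := Option.some.inj h
      rw [Nat.eq_of_beq_eq_true hb, sg_zero]
      exact ⟨ha, by simp⟩
    | false =>
      rw [hb] at h
      generalize he : (tab >>> (12 * ((c ^^^ (c &&& (c - 1))) % p))) % 4096 = e
      have e2 : e1 U Dm RD EM tab p M N F (c &&& (c - 1)) (c ^^^ (c &&& (c - 1))) pv s hi rem cur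
        acc = Bool.rec none (Bool.rec
          (e3 U M F (c &&& (c - 1)) pv s hi rem cur acc e (rem - e)
            (wm Dm RD EM N (rem - e) % capf U M e))
          (F (c &&& (c - 1)) pv s hi rem cur (ext pv s hi e cur :: acc)) (Nat.beq e rem))
          (Nat.beq (c ^^^ (c &&& (c - 1))) (1 <<< e)) := by rw [← he]; rfl
      have h' : e1 U Dm RD EM tab p M N F (c &&& (c - 1)) (c ^^^ (c &&& (c - 1))) pv s hi rem cur
        acc = some acc' := h
      rw [e2] at h'
      cases hb1 : Nat.beq (c ^^^ (c &&& (c - 1))) (1 <<< e) with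
      | false => rw [hb1] at h'; cases h'
      | true =>
        rw [hb1] at h'
        obtain ⟨k1, k2, k3⟩ := sg_split (P := P) (M := M) (b := b) (pv := pv) (s := s) (hi := hi)
          hr hp (Nat.eq_of_beq_eq_true hb1)
        obtain ⟨x1, x2⟩ := ext_spec (M := M) (b := b) (pv := pv) (hi := hi) (e := e) hs hc
        obtain ⟨k4, k5⟩ := hp e k1
        rw [k3]
        cases hb2 : Nat.beq e rem with
        | true =>
          rw [hb2] at h'
          obtain ⟨y1, y2⟩ := ih _ _ _ _ _ _ _ _ h' hs hc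
            (fun x hx => by rcases List.mem_cons.1 hx with rfl | hx; exacts [x1, ha x hx]) hr k2
          refine ⟨y1, ?_⟩
          rw [y2, ev, tm, ← Nat.eq_of_beq_eq_true hb2, Nat.sub_self, cnt_zero_right C.pos, x2]
          by_cases z1 : HC (gam M b) cur <;>
            by_cases z2 : (hi ≤ pv - e ∨ gam M b (s / 24) ≤ pv - e) <;> simp [z1, z2] <;> omega
        | false =>
          rw [hb2] at h'
          have k6 : e ≠ rem := Nat.ne_of_beq_eq_false hb2
          have k7 := sg_sub C hE hU (e := e) (m := rem - e) (by omega) (by omega) (by omega)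
          generalize hc2 : wm Dm RD EM N (rem - e) % capf U M e = c2 at h' k7
          have e4 : e3 U M F (c &&& (c - 1)) pv s hi rem cur acc e (rem - e) c2 = Bool.rec
            (obind (F c2 (e - 1) (24 * (e % M)) (hif U M e) (rem - e) (ext pv s hi e cur) acc)
              fun acc' => F (c &&& (c - 1)) pv s hi rem cur acc')
            (F (c &&& (c - 1)) pv s hi rem cur acc) (Nat.beq c2 0) := rfl
          have h'' : e3 U M F (c &&& (c - 1)) pv s hi rem cur acc e (rem - e) c2 = some acc' := h'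
          rw [e4] at h''
          cases hb3 : Nat.beq c2 0 with
          | true =>
            rw [hb3] at h''
            obtain ⟨y1, y2⟩ := ih _ _ _ _ _ _ _ _ h'' hs hc ha hr k2
            refine ⟨y1, ?_⟩
            rw [Nat.eq_of_beq_eq_true hb3, sg_zero] at k7
            rw [y2, tm, ← k7]
            simp
          | false =>
            rw [hb3] at h''
            cases h3 : F c2 (e - 1) (24 * (e % M)) (hif U M e) (rem - e) (ext pv s hi e cur) acc with
            | none => rw [h3] at h''; cases h''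
            | some acc1 =>
              rw [h3] at h''
              have hp2 : Pre c2 (rem - e) := by
                intro f hf
                rw [← hc2] at hf
                have := wm_pre C (by omega) ((capf_bit _ _ _ _).1 hf).2
                exact ⟨this.1, this.2.1⟩
              obtain ⟨y1, y2⟩ := ih _ _ _ _ _ _ _ _ h3 (Dvd.intro _ rfl) x1 ha (by omega) hp2
              obtain ⟨y3, y4⟩ := ih _ _ _ _ _ _ _ _ h'' hs hc y1 hr k2
              refine ⟨y3, ?_⟩
              rw [y4, y2, k7, tm, x2]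
              by_cases z1 : HC (gam M b) cur <;>
                by_cases z2 : (hi ≤ pv - e ∨ gam M b (s / 24) ≤ pv - e) <;> simp [z1, z2] <;> omega

end Pool.Agent.P.MP_e9218d_nt.T7
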