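import Pool.Agent.P.MP_e9218d_nt.SmallChk

namespace Pool.Agent.P.MP_e9218d_nt

/-- search trees used as arrays -/
inductive Bt : Type
  | lf : ℕ → Bt
  | nd : ℕ → Bt → Bt → Bt

noncomputable def bget (t : Bt) (i : ℕ) : ℕ :=
  Bt.rec (fun v => v) (fun q _ _ gl gr => Bool.rec gl gr (Nat.ble q i)) t

noncomputable def bset (t : Bt) (i v : ℕ) : Bt :=
  Bt.rec (fun _ => Bt.lf v) (fun q l r sl sr => Bool.rec (Bt.nd q sl r) (Bt.nd q l sr) (Nat.ble q i))
    t

/-- evaluate a number before passing it on -/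
noncomputable def fc {α : Type} (x : ℕ) (k : ℕ → α) : α :=
  Nat.rec (k 0) (fun n _ => k n) (Nat.succ x)

noncomputable def bfull (k : ℕ) : ℕ → Bt :=
  Nat.rec (fun _ => Bt.lf 0)
    (fun k ih a => fc (Nat.add a (Nat.pow 2 k)) fun q => Bt.nd q (ih a) (ih q)) k

noncomputable def obind {α β : Type} (x : Option α) (k : α → Option β) : Option β :=
  Option.rec none k x

noncomputable def guard' {α : Type} (c : Bool) (x : Option α) : Option α := Bool.rec none x c

noncomputable def bput (mask u x : ℕ) (t : Bt) (ih : ℕ → Bt → Option Bt) : Option Bt :=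
  guard' (Nat.beq (Nat.land x mask) 0) (ih x (bset t (Nat.succ u) x))

noncomputable def bstep (p : ℕ → Bool) (g : ℕ → ℕ) (M K mask u prev : ℕ) (t : Bt)
    (ih : ℕ → Bt → Option Bt) : Option Bt :=
  Bool.rec (ih prev (bset t (Nat.succ u) prev))
    (fc (Nat.sub u (g (Nat.mod u M))) fun i => bput mask u (Nat.add prev (Nat.shiftRight (bget t i)
      (Nat.mul K (Nat.succ u)))) t ih) (p (Nat.succ u))

noncomputable def bld (p : ℕ → Bool) (g : ℕ → ℕ) (M K mask c r : ℕ) : ℕ → Bt → Option Bt :=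
  Nat.rec (fun _ t => some t)
    (fun r ih prev t => fc (Nat.sub c (Nat.succ r)) fun u => bstep p g M K mask u prev t ih) r

noncomputable def clamp (x c : ℕ) : ℕ := Bool.rec c x (Nat.ble x c)

noncomputable def gterm (p : ℕ → Bool) (t : Bt) (K c d u : ℕ) : ℕ :=
  Bool.rec 0 (fc (clamp (Nat.sub u d) c) fun i => Nat.shiftRight (bget t i) (Nat.mul K (Nat.succ u)))
    (p (Nat.succ u))

noncomputable def gl (p : ℕ → Bool) (t : Bt) (K M c H d f : ℕ) : ℕ → ℕ :=
  Nat.rec (fun _ => 0) (fun _ ih u =>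
    Bool.rec 0 (Nat.add (gterm p t K c d u) (ih (Nat.add u M))) (Nat.blt u H)) f

noncomputable def gg (p : ℕ → Bool) (t : Bt) (K M c H j d : ℕ) : ℕ := gl p t K M c H d H j

noncomputable def ssum (G : ℕ → ℕ → ℕ) (g : ℕ → ℕ) (one M : ℕ) : ℕ :=
  Nat.rec one (fun j ih => fc j fun j => fc (g j) fun d => Nat.add ih (G j d)) M

/-- digit `k` in base `4096` -/
def dh (v k : ℕ) : ℕ := Nat.mod (Nat.shiftRight v (Nat.mul 12 k)) 4096

def uph (v k x old : ℕ) : ℕ := Nat.add v (Nat.shiftLeft (Nat.sub x old) (Nat.mul 12 k))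

def up (v k : ℕ) : ℕ := Nat.sub 4095 (dh v k)

def dgt (S K H n : ℕ) : ℕ :=
  Nat.mod (Nat.shiftRight S (Nat.mul K (Nat.sub H n))) (Nat.shiftLeft 1 K)

noncomputable def mkMask (J H : ℕ) : ℕ :=
  Nat.rec (Nat.shiftLeft 4095 J)
    (fun _ ih => Nat.add (Nat.shiftLeft ih (Nat.add J 12)) (Nat.shiftLeft 4095 J)) H

/-- type of the recursive call -/
abbrev Rec : Type :=
  ℕ → (ℕ → ℕ → ℕ) → (ℕ → ℕ → ℕ) → ℕ → ℕ → ℕ → ℕ → List ℕ → Option (List ℕ)

noncomputable def ph2 (M K H u v : ℕ) (l : List ℕ) (ih : Rec) (gm gp : ℕ → ℕ → ℕ) :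
    Option (List ℕ) :=
  ih H gm gp u v (ssum gm (up v) (Nat.shiftLeft 1 (Nat.mul K H)) M)
    (ssum gp (dh u) (Nat.shiftLeft 1 (Nat.mul K H)) M) l

noncomputable def ph1 (p : ℕ → Bool) (M K H c kd mask u v : ℕ) (l : List ℕ) (ih : Rec) :
    Option (List ℕ) :=
  obind (bld p (up v) M K mask c c (Nat.shiftLeft 1 (Nat.mul K H))
      (bset (bfull kd 0) 0 (Nat.shiftLeft 1 (Nat.mul K H)))) fun tm =>
    obind (bld p (dh u) M K mask c c (Nat.shiftLeft 1 (Nat.mul K H))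
      (bset (bfull kd 0) 0 (Nat.shiftLeft 1 (Nat.mul K H)))) fun tp =>
      ph2 M K H u v l ih (gg p tm K M c H) (gg p tp K M c H)

noncomputable def phase (p : ℕ → Bool) (M N J H kd u v : ℕ) (l : List ℕ) (ih : Rec) :
    Option (List ℕ) :=
  fc (Nat.div (Nat.succ H) 2) fun c =>
    guard' (Bool.rec false (Nat.ble H N) (Nat.blt c (Nat.pow 2 kd)))
      (ph1 p M (Nat.add J 12) H c kd (mkMask J H) u v l ih)

noncomputable def goL (ih : Rec) (H : ℕ) (gm gp : ℕ → ℕ → ℕ) (u v Sm Sp j d h : ℕ) :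
    List ℕ → Option (List ℕ) :=
  ih H gm gp u (uph v j (Nat.sub 4095 d) (Nat.sub 4095 h))
    (Nat.sub (Nat.add Sm (gm j d)) (gm j h)) Sp

noncomputable def goR (ih : Rec) (H : ℕ) (gm gp : ℕ → ℕ → ℕ) (u v Sm Sp j d lo : ℕ) :
    List ℕ → Option (List ℕ) :=
  ih H gm gp (uph u j (Nat.succ d) lo) v Sm
    (Nat.sub (Nat.add Sp (gp j (Nat.succ d))) (gp j lo))

noncomputable def split (M : ℕ) (ih : Rec) (H : ℕ) (gm gp : ℕ → ℕ → ℕ) (u v Sm Sp : ℕ)
    (l : List ℕ) (sw : Bool) (j d : ℕ) : Option (List ℕ) :=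
  fc (up v j) fun h => fc (dh u j) fun lo =>
    guard' (Bool.rec false (Bool.rec false (Nat.blt j M) (Nat.ble lo d)) (Nat.blt d h))
      (Bool.rec
        (obind (goL ih H gm gp u v Sm Sp j d h l) (goR ih H gm gp u v Sm Sp j d lo))
        (obind (goR ih H gm gp u v Sm Sp j d lo l) (goL ih H gm gp u v Sm Sp j d h)) sw)

def solB (M u v : ℕ) (sol : List ℕ) : Bool :=
  (List.range M).all (fun k => decide (dh u k + dh v k = 4095 ∧ dh v k ≠ 0)) &&
    decide ((List.range M).map (fun k => dh u k + 1) = sol)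

noncomputable def node (p : ℕ → Bool) (A : ℕ → ℕ) (M N J : ℕ) (sol : List ℕ) (ih : Rec) (H : ℕ)
    (gm gp : ℕ → ℕ → ℕ) (u v Sm Sp : ℕ) (l : List ℕ) (op j d : ℕ) : Option (List ℕ) :=
  Nat.rec (guard' (Bool.rec false (Nat.blt (dgt Sp (Nat.add J 12) H d) (A d)) (Nat.ble d H))
      (some l))
    (fun op _ => Nat.rec
      (guard' (Bool.rec false (Nat.blt (A d) (dgt Sm (Nat.add J 12) H d)) (Nat.ble d H)) (some l))
      (fun op _ => Nat.rec (split M ih H gm gp u v Sm Sp l false j d)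
        (fun op _ => Nat.rec (split M ih H gm gp u v Sm Sp l true j d)
          (fun op _ => Nat.rec (phase p M N J d j u v l ih)
            (fun _ _ => guard' (solB M u v sol) (some l)) op) op) op) op) op

noncomputable def chk2 (p : ℕ → Bool) (A : ℕ → ℕ) (M N J : ℕ) (sol : List ℕ) (f : ℕ) : Rec :=
  Nat.rec (fun _ _ _ _ _ _ _ _ => none)
    (fun _ ih H gm gp u v Sm Sp L => List.rec none (fun w l _ => fc w fun w =>
      fc (Nat.mod (Nat.div w 8) 256) fun j => fc (Nat.div w 2048) fun d =>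
        node p A M N J sol ih H gm gp u v Sm Sp l (Nat.mod w 8) j d) L) f

noncomputable def unp (f : ℕ) : ℕ → List ℕ → List ℕ :=
  Nat.rec (fun _ acc => acc) (fun _ ih n acc =>
    Bool.rec (Nat.mod n 16777216 :: ih (Nat.div n 16777216) acc) acc (Nat.ble n 1)) f

noncomputable def unpAll (L : List ℕ) : List ℕ := List.rec [] (fun c _ ih => unp 400 c ih) L

noncomputable def maskB (A : ℕ → ℕ) (N D : ℕ) : Bool :=
  Bool.rec true false
    (anyLt (fun t => Bool.rec (Nat.blt 0 (A t)) (Nat.beq (A t) 0) (bit D t)) (Nat.succ N))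

noncomputable def run3 (M N J D : ℕ) (A : ℕ → ℕ) (sol L : List ℕ) : Bool :=
  Bool.rec false
    (Option.isSome (chk2 (bit D) A M N J sol 100000 0 (fun _ _ => 0) (fun _ _ => 0) 0 0 1 1
      (unpAll L)))
    (Bool.rec false (maskB A N D)
      (Bool.rec false (Bool.rec false (Nat.blt 0 M) (Nat.blt 0 J)) (Nat.blt N 2048)))

noncomputable def run2 (M s N J D : ℕ) (sol L : List ℕ) : Bool :=
  Option.rec false (fun t => run3 M N J D (dgt (bget t N) 40 N) sol L)
    (bld (memA M s) (fun _ => 0) M 40 (mkMask 28 N) N N (Nat.shiftLeft 1 (Nat.mul 40 N))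
      (bset (bfull 11 0) 0 (Nat.shiftLeft 1 (Nat.mul 40 N))))

end Pool.Agent.P.MP_e9218d_nt
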