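import Pool.Agent.P.MP_e9218d_nt.SmallChk

namespace Pool.Agent.P.MP_e9218d_nt

/-! ### reduction of large moduli to a fixed modulus -/

lemma lev_unique {M K Lm n a r a' r' : ℕ} (hM : (Lm + 1) * K < M) (ha : a ≤ Lm) (hr : r < M)
    (h : n + r = a * M) (h' : n + r' = a' * M) (hr' : r' ≤ a' * K) : a' = a ∧ r' = r := by
  rcases lt_trichotomy a' a with h1 | h1 | h1
  · exfalso
    obtain ⟨t, rfl⟩ : ∃ t, a = a' + t + 1 := ⟨a - a' - 1, by omega⟩
    have : (a' + t + 1) * M = a' * M + t * M + M := by ring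
    omega
  · subst h1; exact ⟨rfl, by omega⟩
  · exfalso
    obtain ⟨t, rfl⟩ : ∃ t, a' = a + t + 1 := ⟨a' - a - 1, by omega⟩
    have e1 : (a + t + 1) * M = a * M + (t + 1) * M := by ring
    have e2 : (t + 1) * ((Lm + 1) * K + 1) ≤ (t + 1) * M := Nat.mul_le_mul_left _ hM
    have e3 : (a + t + 1) * K ≤ (t + 1) * ((Lm + 1) * K) := by
      rw [← mul_assoc]
      apply Nat.mul_le_mul_right
      nlinarith
    have e4 : (t + 1) * ((Lm + 1) * K + 1) = (t + 1) * ((Lm + 1) * K) + (t + 1) := by ring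
    omega

/-- formal chains with prescribed total level and total defect -/
def fch (FP : Set (ℕ × ℕ)) (FR : ℕ × ℕ → ℕ × ℕ → Prop) (a r : ℕ) : Set (List (ℕ × ℕ)) :=
  {l | (∀ p ∈ l, p ∈ FP) ∧ l.IsChain FR ∧ (l.map Prod.fst).sum = a ∧ (l.map Prod.snd).sum = r}

/-- value of a formal part -/
def fw (M : ℕ) (p : ℕ × ℕ) : ℕ := p.1 * M - p.2

lemma sum_snd_le {K : ℕ} : ∀ l : List (ℕ × ℕ), (∀ p ∈ l, p.2 ≤ p.1 * K) →
    (l.map Prod.snd).sum ≤ (l.map Prod.fst).sum * K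
  | [], _ => by simp
  | p :: l, h => by
    have h1 := h p (by simp)
    have h2 := sum_snd_le l (fun q hq => h q (by simp [hq]))
    simp only [List.map_cons, List.sum_cons, add_mul]; omega

lemma sum_fw {M : ℕ} : ∀ l : List (ℕ × ℕ), (∀ p ∈ l, p.2 ≤ p.1 * M) →
    (l.map (fw M)).sum + (l.map Prod.snd).sum = (l.map Prod.fst).sum * M
  | [], _ => by simp
  | p :: l, h => by
    have h1 := h p (by simp)
    have h2 := sum_fw l (fun q hq => h q (by simp [hq]))
    simp only [List.map_cons, List.sum_cons, add_mul, fw] at h2 ⊢; omega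

theorem transport {M K Lm : ℕ} (hM : (Lm + 1) * K < M) {P : Set ℕ} {R : ℕ → ℕ → Prop}
    {FP : Set (ℕ × ℕ)} {FR : ℕ × ℕ → ℕ × ℕ → Prop}
    (h1 : ∀ p ∈ FP, p.2 ≤ p.1 * K ∧ p.1 ≤ Lm)
    (h2 : ∀ e ≤ Lm * M, e ∈ P ↔ ∃ p ∈ FP, e + p.2 = p.1 * M)
    (h3 : ∀ p ∈ FP, ∀ q ∈ FP, R (fw M p) (fw M q) ↔ FR p q)
    {a r n : ℕ} (ha : a ≤ Lm) (hr : r < M) (hn : n + r = a * M) :
    Set.BijOn (List.map (fw M)) (fch FP FR a r) (wch P R id Set.univ n) := by
  have hKM : K ≤ M := by nlinarith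
  have h4 : ∀ p ∈ FP, p.2 ≤ p.1 * M := fun p hp =>
    le_trans (h1 p hp).1 (Nat.mul_le_mul_left _ hKM)
  have h5 : ∀ p ∈ FP, p.2 < M := fun p hp => by
    have := h1 p hp
    have e : p.1 * K ≤ (Lm + 1) * K := Nat.mul_le_mul_right _ (by omega)
    omega
  have h6 : ∀ p ∈ FP, fw M p + p.2 = p.1 * M := fun p hp => Nat.sub_add_cancel (h4 p hp)
  have hinj : ∀ p ∈ FP, ∀ q ∈ FP, fw M p = fw M q → p = q := by
    intro p hp q hq h
    have := lev_unique hM (h1 p hp).2 (h5 p hp) (h6 p hp) (h ▸ h6 q hq) (h1 q hq).1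
    exact Prod.ext this.1.symm this.2.symm
  refine ⟨?_, ?_, ?_⟩
  · rintro l ⟨hP, hc, hs1, hs2⟩
    refine ⟨?_, ?_, by simp, ?_⟩
    · intro e he
      obtain ⟨p, hp, rfl⟩ := List.mem_map.1 he
      have hp' := hP p hp
      refine (h2 _ ?_).2 ⟨p, hp', h6 p hp'⟩
      have := Nat.mul_le_mul_right M (h1 p hp').2
      have := h6 p hp'
      omega
    · rw [List.isChain_map]
      exact hc.imp_of_mem_imp (fun p q hp hq h => (h3 p (hP p hp) q (hP q hq)).2 h)
    · have := sum_fw l (fun p hp => h4 p (hP p hp))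
      rw [List.map_id]; rw [hs1, hs2] at this; omega
  · rintro l ⟨hP, -⟩ l' ⟨hP', -⟩ h
    induction l generalizing l' with
    | nil => exact (List.map_eq_nil_iff.1 h.symm).symm
    | cons p l ih =>
      cases l' with
      | nil => simp at h
      | cons q l' =>
        simp only [List.map_cons, List.cons.injEq] at h
        rw [hinj p (hP p (by simp)) q (hP' q (by simp)) h.1,
          ih (fun x hx => hP x (by simp [hx])) (fun x hx => hP' x (by simp [hx])) h.2]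
  · rintro l ⟨hP, hc, -, hs⟩
    rw [List.map_id] at hs
    have hex : ∀ l : List ℕ, (∀ e ∈ l, e ∈ P ∧ e ≤ Lm * M) →
        ∃ l' : List (ℕ × ℕ), (∀ p ∈ l', p ∈ FP) ∧ l'.map (fw M) = l := by
      intro l
      induction l with
      | nil => intro _; exact ⟨[], by simp, rfl⟩
      | cons e l ih =>
        intro h
        obtain ⟨l', hl', rfl⟩ := ih (fun x hx => h x (by simp [hx]))
        obtain ⟨p, hp, hp'⟩ := (h2 e (h e (by simp)).2).1 (h e (by simp)).1
        refine ⟨p :: l', ?_, ?_⟩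
        · intro q hq
          rcases List.mem_cons.1 hq with rfl | hq
          · exact hp
          · exact hl' q hq
        · rw [List.map_cons]
          congr 1
          unfold fw; omega
    obtain ⟨l', hl', rfl⟩ := hex l (fun e he => ⟨hP e he, by
      have e1 : e ≤ l.sum := List.single_le_sum (by simp) _ he
      have := Nat.mul_le_mul_right M ha
      omega⟩)
    refine ⟨l', ⟨hl', ?_, ?_⟩, rfl⟩
    · rw [List.isChain_map] at hc
      exact hc.imp_of_mem_imp (fun p q hp hq h => (h3 p (hl' p hp) q (hl' q hq)).1 h)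
    · have e1 := sum_fw l' (fun p hp => h4 p (hl' p hp))
      rw [hs] at e1
      exact lev_unique hM ha hr hn e1 (sum_snd_le l' (fun p hp => (h1 p (hl' p hp)).1))

/-- lexicographic threshold relation -/
def thr (lam gam : ℕ → ℕ) (p q : ℕ × ℕ) : Prop :=
  q.1 + lam p.2 < p.1 ∨ (q.1 + lam p.2 = p.1 ∧ gam p.2 ≤ q.2)

lemma idx_fw {M : ℕ} {p : ℕ × ℕ} (h1 : p.2 < M) (h2 : p.2 ≤ p.1 * M) :
    idx M (fw M p) = M - p.2 := by
  obtain ⟨a, r⟩ := p
  simp only at h1 h2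
  unfold idx fw
  simp only
  rcases Nat.eq_zero_or_pos r with rfl | hr
  · simp
  · cases a with
    | zero => omega
    | succ a =>
      have e : (a + 1) * M - r = (M - r) + a * M := by
        rw [add_mul, one_mul]; omega
      rw [e, Nat.add_mul_mod_self_right, Nat.mod_eq_of_lt (by omega), if_neg (by omega)]

lemma gap_iff_thr {M : ℕ} {b lam gam : ℕ → ℕ} {p q : ℕ × ℕ} (hp1 : p.2 < M) (hp2 : p.2 ≤ p.1 * M)
    (hq1 : q.2 < M) (hq2 : q.2 ≤ q.1 * M) (hb : b (M - p.2) + p.2 = lam p.2 * M + gam p.2)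
    (hg : gam p.2 ≤ M) : gap M b (fw M p) (fw M q) ↔ thr lam gam p q := by
  unfold gap thr
  rw [idx_fw hp1 hp2]
  unfold fw
  rcases lt_trichotomy (q.1 + lam p.2) p.1 with h | h | h
  · have : (q.1 + lam p.2 + 1) * M ≤ p.1 * M := Nat.mul_le_mul_right _ h
    rw [add_mul, add_mul, one_mul] at this
    constructor
    · intro _; exact Or.inl h
    · intro _; omega
  · have : (q.1 + lam p.2) * M = p.1 * M := by rw [h]
    rw [add_mul] at this
    constructor
    · intro _; exact Or.inr ⟨h, by omega⟩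
    · intro _; omega
  · have : (p.1 + 1) * M ≤ (q.1 + lam p.2) * M := Nat.mul_le_mul_right _ h
    rw [add_mul, add_mul, one_mul] at this
    constructor
    · intro _; omega
    · intro _; omega

/-- formal parts of the `A` side -/
def fpA (s Lm : ℕ) : Set (ℕ × ℕ) := {p | 1 ≤ p.1 ∧ p.1 ≤ Lm ∧ ∃ j < s, p.2 = 2 ^ j}

/-- formal chains of the `A` side -/
def fA (s Lm a r : ℕ) : Set (List (ℕ × ℕ)) :=
  fch (fpA s Lm) (thr (fun _ => 0) (fun r => r + 1)) a r

lemma fpA_bound {s Lm : ℕ} : ∀ p ∈ fpA s Lm, p.2 ≤ p.1 * 2 ^ (s - 1) ∧ p.1 ≤ Lm := by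
  rintro p ⟨h1, h2, j, hj, h3⟩
  refine ⟨?_, h2⟩
  have : 2 ^ j ≤ 2 ^ (s - 1) := Nat.pow_le_pow_right (by norm_num) (by omega)
  have : 1 * 2 ^ (s - 1) ≤ p.1 * 2 ^ (s - 1) := Nat.mul_le_mul_right _ h1
  omega

lemma small_of_bound {M K Lm : ℕ} (hM : (Lm + 1) * K < M) {p : ℕ × ℕ}
    (h : p.2 ≤ p.1 * K ∧ p.1 ≤ Lm) : p.2 < M ∧ p.2 ≤ p.1 * M := by
  have hKM : K ≤ M := by nlinarith
  have e : p.1 * K ≤ (Lm + 1) * K := Nat.mul_le_mul_right _ (by omega)
  exact ⟨by omega, le_trans h.1 (Nat.mul_le_mul_left _ hKM)⟩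

lemma bijA {M s Lm : ℕ} (hM : (Lm + 1) * 2 ^ (s - 1) < M) {a r n : ℕ} (ha : a ≤ Lm) (hr : r < M)
    (hn : n + r = a * M) : Set.BijOn (List.map (fw M)) (fA s Lm a r)
      (wch (okS M s) (gap M (fun _ => 1)) id Set.univ n) := by
  refine transport hM fpA_bound ?_ ?_ ha hr hn
  · intro e he
    constructor
    · rintro ⟨h0, j, hj, c, hc⟩
      have h1 : 2 ^ j ≤ 2 ^ (s - 1) := Nat.pow_le_pow_right (by norm_num) (by omega)
      have h2 : 1 * 2 ^ (s - 1) ≤ (Lm + 1) * 2 ^ (s - 1) := Nat.mul_le_mul_right _ (by omega)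
      refine ⟨(c, 2 ^ j), ⟨?_, ?_, j, hj, rfl⟩, by rw [hc, mul_comm]⟩
      · rcases Nat.eq_zero_or_pos c with rfl | h
        · rw [mul_zero] at hc
          exact absurd (Nat.eq_zero_of_add_eq_zero_right hc) (by omega)
        · exact h
      · by_contra h
        have : (Lm + 1) * M ≤ c * M := Nat.mul_le_mul_right _ (by simp only at h; omega)
        rw [add_mul, one_mul, mul_comm c M] at this
        omega
    · rintro ⟨p, hp, h⟩
      have h1 := small_of_bound hM (fpA_bound p hp)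
      obtain ⟨h2, -, j, hj, h3⟩ := hp
      have : 1 * M ≤ p.1 * M := Nat.mul_le_mul_right _ h2
      exact ⟨by omega, j, hj, p.1, by rw [← h3, h, mul_comm]⟩
  · intro p hp q hq
    have h1 := small_of_bound hM (fpA_bound p hp)
    have h2 := small_of_bound hM (fpA_bound q hq)
    exact gap_iff_thr h1.1 h1.2 h2.1 h2.2 (by omega) (by omega)

lemma cardA {M s Lm : ℕ} (hM : (Lm + 1) * 2 ^ (s - 1) < M) {a r n : ℕ} (ha : a ≤ Lm) (hr : r < M)
    (hn : n + r = a * M) : (setA M s n).ncard = (fA s Lm a r).ncard := by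
  rw [setA_eq_wch, (bijA hM ha hr hn).ncard_eq]

/-- formal parts of the `B` side -/
def fpD (s Lm : ℕ) : Set (ℕ × ℕ) := {p | 1 ≤ p.1 ∧ p.1 ≤ Lm ∧ (fA s Lm p.1 p.2).Nonempty}

lemma fpD_bound {s Lm : ℕ} : ∀ p ∈ fpD s Lm, p.2 ≤ p.1 * 2 ^ (s - 1) ∧ p.1 ≤ Lm := by
  rintro p ⟨-, h2, l, hl, -, h3, h4⟩
  refine ⟨?_, h2⟩
  rw [← h3, ← h4]
  exact sum_snd_le l (fun q hq => (fpA_bound q (hl q hq)).1)

lemma exists_lev {M Lm e : ℕ} (hM : 0 < M) (he : e ≤ Lm * M) :
    ∃ a r, a ≤ Lm ∧ r < M ∧ e + r = a * M := by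
  have h1 := Nat.div_add_mod (e + (M - 1)) M
  have h2 := Nat.mod_lt (e + (M - 1)) hM
  refine ⟨(e + (M - 1)) / M, M - 1 - (e + (M - 1)) % M, ?_, by omega, ?_⟩
  · apply Nat.le_of_lt_succ
    rw [Nat.div_lt_iff_lt_mul hM, Nat.succ_mul]
    omega
  · rw [mul_comm]; omega

lemma mem_Dset_formal {M s Lm : ℕ} (hM : (Lm + 1) * 2 ^ (s - 1) < M) (e : ℕ) (he : e ≤ Lm * M) :
    e ∈ Dset M s ↔ ∃ p ∈ fpD s Lm, e + p.2 = p.1 * M := by
  constructor
  · rintro ⟨h0, h1⟩
    obtain ⟨a, r, ha, hr, h⟩ := exists_lev (by omega) he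
    refine ⟨(a, r), ⟨?_, ha, ?_⟩, h⟩
    · rcases Nat.eq_zero_or_pos a with rfl | h
      · omega
      · exact h
    · apply Set.nonempty_of_ncard_ne_zero
      rw [← cardA hM ha hr h, Ne, Set.ncard_eq_zero (setA_finite M s e)]
      exact h1.ne_empty
  · rintro ⟨p, hp, h⟩
    have h1 := small_of_bound hM (fpD_bound p hp)
    obtain ⟨h2, h3, l, hl⟩ := hp
    have : 1 * M ≤ p.1 * M := Nat.mul_le_mul_right _ h2
    refine ⟨by omega, ?_⟩
    apply Set.nonempty_of_ncard_ne_zero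
    rw [setA_eq_wch, Ne, Set.ncard_eq_zero (wch_finite (adm_id (okS_pos M s)) _ _ _)]
    exact Set.Nonempty.ne_empty ⟨_, (bijA hM h3 h1.1 h).mapsTo hl⟩

lemma cardB {M s Lm : ℕ} (hM : (Lm + 1) * 2 ^ (s - 1) < M) {b : ℕ → ℕ}
    {FR : ℕ × ℕ → ℕ × ℕ → Prop}
    (h3 : ∀ p ∈ fpD s Lm, ∀ q ∈ fpD s Lm, gap M b (fw M p) (fw M q) ↔ FR p q)
    {a r n : ℕ} (ha : a ≤ Lm) (hr : r < M) (hn : n + r = a * M) :
    (setB M s b n).ncard = (fch (fpD s Lm) FR a r).ncard := by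
  unfold setB
  rw [(transport hM fpD_bound (mem_Dset_formal hM) h3 ha hr hn).ncard_eq]

theorem reduce_mod {M M0 s Lm : ℕ} (h0 : (Lm + 1) * 2 ^ (s - 1) < M0) (hM : M0 ≤ M) {b : ℕ → ℕ}
    (hpos : ∀ j, 1 ≤ j → j ≤ M → 0 < b j)
    (hb : ∀ n, (setA M s n).ncard = (setB M s b n).ncard) :
    ∃ b0 : ℕ → ℕ, (∀ j, 1 ≤ j → j ≤ M0 → 0 < b0 j) ∧ Eqs M0 s b0 (Lm * M0) := by
  have hM' : (Lm + 1) * 2 ^ (s - 1) < M := lt_of_lt_of_le h0 hM
  have hMpos : 0 < M := by omega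
  set lam : ℕ → ℕ := fun r => (b (M - r) + r) / M with hlam
  set gam : ℕ → ℕ := fun r => (b (M - r) + r) % M with hgam
  set gam' : ℕ → ℕ := fun r => min (gam r) M0 with hgam'
  have key : ∀ r, b (M - r) + r = lam r * M + gam r := fun r => by
    rw [mul_comm]; exact (Nat.div_add_mod _ _).symm
  have big : ∀ r, r < M0 → r < lam r * M0 + gam' r := by
    intro r hr
    have h1 := key r
    have h2 := hpos (M - r) (by omega) (by omega)
    rcases Nat.eq_zero_or_pos (lam r) with h | h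
    · rw [h] at h1 ⊢
      simp only [hgam']
      omega
    · have : 1 * M0 ≤ lam r * M0 := Nat.mul_le_mul_right _ h
      omega
  refine ⟨fun j => lam (M0 - j) * M0 + gam' (M0 - j) - (M0 - j), ?_, ?_⟩
  · intro j h1 h2
    have := big (M0 - j) (by omega)
    show 0 < _ - _
    omega
  · intro n hn
    obtain ⟨a, r, ha, hr, h⟩ := exists_lev (by omega) hn
    have hle : r ≤ a * M := le_trans (by omega) (Nat.mul_le_mul_left a hM)
    have hn' : (a * M - r) + r = a * M := Nat.sub_add_cancel hle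
    rw [cardA h0 ha hr h, ← cardA hM' ha (by omega) hn', hb,
      cardB (FR := thr lam gam') hM' ?_ ha (by omega) hn',
      cardB (FR := thr lam gam') h0 ?_ ha hr h]
    · intro p hp q hq
      have h1 := small_of_bound h0 (fpD_bound p hp)
      have h2 := small_of_bound h0 (fpD_bound q hq)
      refine gap_iff_thr h1.1 h1.2 h2.1 h2.2 ?_ (min_le_right _ _)
      have := big p.2 h1.1
      rw [show M0 - (M0 - p.2) = p.2 by omega]
      omega
    · intro p hp q hq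
      have h1 := small_of_bound hM' (fpD_bound p hp)
      have h2 := small_of_bound hM' (fpD_bound q hq)
      have h3 := small_of_bound h0 (fpD_bound q hq)
      rw [gap_iff_thr h1.1 h1.2 h2.1 h2.2 (key p.2) (Nat.mod_lt _ hMpos).le]
      unfold thr
      simp only [hgam']
      omega

end Pool.Agent.P.MP_e9218d_nt
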