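import Pool.Agent.P.MP_e9218d_nt.NecT8Snd3
import Pool.Agent.P.MP_e9218d_nt.SmallBig

namespace Pool.Agent.P.MP_e9218d_nt

lemma vec_ne_nil {M : ℕ} (hM : 0 < M) (b : ℕ → ℕ) : vec M b ≠ [] := by
  intro h
  have := congrArg List.length h
  simp [vec] at this
  omega

lemma nec_of_runs2 {s Lm M0 : ℕ} (h0 : (Lm + 1) * 2 ^ (s - 1) < M0) (h1 : M0 + 1 ≠ 2 ^ s)
    (hr : ∀ M, 2 ^ (s - 1) ≤ M → M ≤ M0 → ∃ N J D L sol, (M = M0 → N ≤ Lm * M0) ∧
      (sol = [] ∨ (M + 1 = 2 ^ s ∧ sol = vec M (andrews M))) ∧ run2 M s N J D sol L = true)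
    {M : ℕ} {b : ℕ → ℕ} (hM : 2 ^ (s - 1) ≤ M) (hb : ∀ j, 1 ≤ j → j ≤ M → 0 < b j)
    (h : Ident M s b) : Answer M s b := by
  have h' := (ident_iff hM b).1 h
  have p0 : 0 < 2 ^ (s - 1) := by positivity
  rcases le_or_gt M M0 with h2 | h2
  · obtain ⟨N, J, D, L, sol, -, h3, h4⟩ := hr M hM h2
    have h5 := run2_sound h4 hb (fun n _ => h' n)
    rcases h3 with rfl | ⟨h6, rfl⟩
    · exact absurd h5 (vec_ne_nil (by omega) b)
    · refine Or.inl ⟨h6, fun j j1 j2 => ?_⟩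
      have := List.map_inj_left.1 h5 (j - 1) (List.mem_range.2 (by omega))
      rwa [show j - 1 + 1 = j by omega] at this
  · exfalso
    obtain ⟨b0, h3, h4⟩ := reduce_mod h0 h2.le hb h'
    have h5 : 1 * 2 ^ (s - 1) ≤ (Lm + 1) * 2 ^ (s - 1) := Nat.mul_le_mul_right _ (by omega)
    obtain ⟨N, J, D, L, sol, h6, h7, h8⟩ := hr M0 (by omega) le_rfl
    have h9 := run2_sound h8 h3 (fun n hn => h4 n (le_trans hn (h6 rfl)))
    rcases h7 with rfl | ⟨h10, -⟩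
    · exact vec_ne_nil (by omega) b0 h9
    · exact h1 h10

end Pool.Agent.P.MP_e9218d_nt
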