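import Pool.Agent.P.MP_e9218d_nt.NecT8Fin
import Pool.Agent.P.MP_e9218d_nt.NecT8R6A
import Pool.Agent.P.MP_e9218d_nt.NecT8R6B
import Pool.Agent.P.MP_e9218d_nt.NecT8R6C

namespace Pool.Agent.P.MP_e9218d_nt

theorem runs2_6 (M : ℕ) (h1 : 32 ≤ M) (h2 : M ≤ 161) (h3 : M < 61 ∨ 63 < M) :
    ∃ N J D L, (M = 161 → N ≤ 4 * 161) ∧ run2 M 6 N J D [] L = true := by
  interval_cases M
  · exact ⟨_, _, _, _, by omega, run2_6_32⟩
  · exact ⟨_, _, _, _, by omega, run2_6_33⟩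
  · exact ⟨_, _, _, _, by omega, run2_6_34⟩
  · exact ⟨_, _, _, _, by omega, run2_6_35⟩
  · exact ⟨_, _, _, _, by omega, run2_6_36⟩
  · exact ⟨_, _, _, _, by omega, run2_6_37⟩
  · exact ⟨_, _, _, _, by omega, run2_6_38⟩
  · exact ⟨_, _, _, _, by omega, run2_6_39⟩
  · exact ⟨_, _, _, _, by omega, run2_6_40⟩
  · exact ⟨_, _, _, _, by omega, run2_6_41⟩
  · exact ⟨_, _, _, _, by omega, run2_6_42⟩
  · exact ⟨_, _, _, _, by omega, run2_6_43⟩
  · exact ⟨_, _, _, _, by omega, run2_6_44⟩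
  · exact ⟨_, _, _, _, by omega, run2_6_45⟩
  · exact ⟨_, _, _, _, by omega, run2_6_46⟩
  · exact ⟨_, _, _, _, by omega, run2_6_47⟩
  · exact ⟨_, _, _, _, by omega, run2_6_48⟩
  · exact ⟨_, _, _, _, by omega, run2_6_49⟩
  · exact ⟨_, _, _, _, by omega, run2_6_50⟩
  · exact ⟨_, _, _, _, by omega, run2_6_51⟩
  · exact ⟨_, _, _, _, by omega, run2_6_52⟩
  · exact ⟨_, _, _, _, by omega, run2_6_53⟩
  · exact ⟨_, _, _, _, by omega, run2_6_54⟩
  · exact ⟨_, _, _, _, by omega, run2_6_55⟩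
  · exact ⟨_, _, _, _, by omega, run2_6_56⟩
  · exact ⟨_, _, _, _, by omega, run2_6_57⟩
  · exact ⟨_, _, _, _, by omega, run2_6_58⟩
  · exact ⟨_, _, _, _, by omega, run2_6_59⟩
  · exact ⟨_, _, _, _, by omega, run2_6_60⟩
  · omega
  · omega
  · omega
  · exact ⟨_, _, _, _, by omega, run2_6_64⟩
  · exact ⟨_, _, _, _, by omega, run2_6_65⟩
  · exact ⟨_, _, _, _, by omega, run2_6_66⟩
  · exact ⟨_, _, _, _, by omega, run2_6_67⟩
  · exact ⟨_, _, _, _, by omega, run2_6_68⟩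
  · exact ⟨_, _, _, _, by omega, run2_6_69⟩
  · exact ⟨_, _, _, _, by omega, run2_6_70⟩
  · exact ⟨_, _, _, _, by omega, run2_6_71⟩
  · exact ⟨_, _, _, _, by omega, run2_6_72⟩
  · exact ⟨_, _, _, _, by omega, run2_6_73⟩
  · exact ⟨_, _, _, _, by omega, run2_6_74⟩
  · exact ⟨_, _, _, _, by omega, run2_6_75⟩
  · exact ⟨_, _, _, _, by omega, run2_6_76⟩
  · exact ⟨_, _, _, _, by omega, run2_6_77⟩
  · exact ⟨_, _, _, _, by omega, run2_6_78⟩
  · exact ⟨_, _, _, _, by omega, run2_6_79⟩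
  · exact ⟨_, _, _, _, by omega, run2_6_80⟩
  · exact ⟨_, _, _, _, by omega, run2_6_81⟩
  · exact ⟨_, _, _, _, by omega, run2_6_82⟩
  · exact ⟨_, _, _, _, by omega, run2_6_83⟩
  · exact ⟨_, _, _, _, by omega, run2_6_84⟩
  · exact ⟨_, _, _, _, by omega, run2_6_85⟩
  · exact ⟨_, _, _, _, by omega, run2_6_86⟩
  · exact ⟨_, _, _, _, by omega, run2_6_87⟩
  · exact ⟨_, _, _, _, by omega, run2_6_88⟩
  · exact ⟨_, _, _, _, by omega, run2_6_89⟩
  · exact ⟨_, _, _, _, by omega, run2_6_90⟩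
  · exact ⟨_, _, _, _, by omega, run2_6_91⟩
  · exact ⟨_, _, _, _, by omega, run2_6_92⟩
  · exact ⟨_, _, _, _, by omega, run2_6_93⟩
  · exact ⟨_, _, _, _, by omega, run2_6_94⟩
  · exact ⟨_, _, _, _, by omega, run2_6_95⟩
  · exact ⟨_, _, _, _, by omega, run2_6_96⟩
  · exact ⟨_, _, _, _, by omega, run2_6_97⟩
  · exact ⟨_, _, _, _, by omega, run2_6_98⟩
  · exact ⟨_, _, _, _, by omega, run2_6_99⟩
  · exact ⟨_, _, _, _, by omega, run2_6_100⟩
  · exact ⟨_, _, _, _, by omega, run2_6_101⟩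
  · exact ⟨_, _, _, _, by omega, run2_6_102⟩
  · exact ⟨_, _, _, _, by omega, run2_6_103⟩
  · exact ⟨_, _, _, _, by omega, run2_6_104⟩
  · exact ⟨_, _, _, _, by omega, run2_6_105⟩
  · exact ⟨_, _, _, _, by omega, run2_6_106⟩
  · exact ⟨_, _, _, _, by omega, run2_6_107⟩
  · exact ⟨_, _, _, _, by omega, run2_6_108⟩
  · exact ⟨_, _, _, _, by omega, run2_6_109⟩
  · exact ⟨_, _, _, _, by omega, run2_6_110⟩
  · exact ⟨_, _, _, _, by omega, run2_6_111⟩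
  · exact ⟨_, _, _, _, by omega, run2_6_112⟩
  · exact ⟨_, _, _, _, by omega, run2_6_113⟩
  · exact ⟨_, _, _, _, by omega, run2_6_114⟩
  · exact ⟨_, _, _, _, by omega, run2_6_115⟩
  · exact ⟨_, _, _, _, by omega, run2_6_116⟩
  · exact ⟨_, _, _, _, by omega, run2_6_117⟩
  · exact ⟨_, _, _, _, by omega, run2_6_118⟩
  · exact ⟨_, _, _, _, by omega, run2_6_119⟩
  · exact ⟨_, _, _, _, by omega, run2_6_120⟩
  · exact ⟨_, _, _, _, by omega, run2_6_121⟩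
  · exact ⟨_, _, _, _, by omega, run2_6_122⟩
  · exact ⟨_, _, _, _, by omega, run2_6_123⟩
  · exact ⟨_, _, _, _, by omega, run2_6_124⟩
  · exact ⟨_, _, _, _, by omega, run2_6_125⟩
  · exact ⟨_, _, _, _, by omega, run2_6_126⟩
  · exact ⟨_, _, _, _, by omega, run2_6_127⟩
  · exact ⟨_, _, _, _, by omega, run2_6_128⟩
  · exact ⟨_, _, _, _, by omega, run2_6_129⟩
  · exact ⟨_, _, _, _, by omega, run2_6_130⟩
  · exact ⟨_, _, _, _, by omega, run2_6_131⟩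
  · exact ⟨_, _, _, _, by omega, run2_6_132⟩
  · exact ⟨_, _, _, _, by omega, run2_6_133⟩
  · exact ⟨_, _, _, _, by omega, run2_6_134⟩
  · exact ⟨_, _, _, _, by omega, run2_6_135⟩
  · exact ⟨_, _, _, _, by omega, run2_6_136⟩
  · exact ⟨_, _, _, _, by omega, run2_6_137⟩
  · exact ⟨_, _, _, _, by omega, run2_6_138⟩
  · exact ⟨_, _, _, _, by omega, run2_6_139⟩
  · exact ⟨_, _, _, _, by omega, run2_6_140⟩
  · exact ⟨_, _, _, _, by omega, run2_6_141⟩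
  · exact ⟨_, _, _, _, by omega, run2_6_142⟩
  · exact ⟨_, _, _, _, by omega, run2_6_143⟩
  · exact ⟨_, _, _, _, by omega, run2_6_144⟩
  · exact ⟨_, _, _, _, by omega, run2_6_145⟩
  · exact ⟨_, _, _, _, by omega, run2_6_146⟩
  · exact ⟨_, _, _, _, by omega, run2_6_147⟩
  · exact ⟨_, _, _, _, by omega, run2_6_148⟩
  · exact ⟨_, _, _, _, by omega, run2_6_149⟩
  · exact ⟨_, _, _, _, by omega, run2_6_150⟩
  · exact ⟨_, _, _, _, by omega, run2_6_151⟩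
  · exact ⟨_, _, _, _, by omega, run2_6_152⟩
  · exact ⟨_, _, _, _, by omega, run2_6_153⟩
  · exact ⟨_, _, _, _, by omega, run2_6_154⟩
  · exact ⟨_, _, _, _, by omega, run2_6_155⟩
  · exact ⟨_, _, _, _, by omega, run2_6_156⟩
  · exact ⟨_, _, _, _, by omega, run2_6_157⟩
  · exact ⟨_, _, _, _, by omega, run2_6_158⟩
  · exact ⟨_, _, _, _, by omega, run2_6_159⟩
  · exact ⟨_, _, _, _, by omega, run2_6_160⟩
  · exact ⟨_, _, _, _, by omega, run2_6_161⟩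

/-- no solution for `s = 6` except possibly for `M = 61, 62, 63` -/
theorem nec_6' {M : ℕ} {b : ℕ → ℕ} (hM : 2 ^ (6 - 1) ≤ M) (h3 : M < 61 ∨ 63 < M)
    (hb : ∀ j, 1 ≤ j → j ≤ M → 0 < b j) : ¬ Ident M 6 b := by
  intro h
  have h' := (ident_iff hM b).1 h
  rcases le_or_gt M 161 with h2 | h2
  · obtain ⟨N, J, D, L, -, h4⟩ := runs2_6 M hM h2 h3
    exact vec_ne_nil (by omega) b (run2_sound h4 hb (fun n _ => h' n))
  · obtain ⟨b0, h5, h6⟩ := reduce_mod (Lm := 4) (M0 := 161) (by norm_num) h2.le hb h'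
    obtain ⟨N, J, D, L, h7, h8⟩ := runs2_6 161 (by omega) le_rfl (by omega)
    exact vec_ne_nil (by omega) b0 (run2_sound h8 h5 (fun n hn => h6 n (le_trans hn (h7 rfl))))

end Pool.Agent.P.MP_e9218d_nt
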