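import Pool.Agent.P.MP_e9218d_nt.NecT8Snd1

namespace Pool.Agent.P.MP_e9218d_nt

open Finset

variable {P : Set ℕ} {M N J : ℕ} {p : ℕ → Bool}

def Tab (P : Set ℕ) (M J H : ℕ) (g : ℕ → ℕ) (t : Bt) (c : ℕ) : Prop :=
  ∀ i ≤ c, bget t i = enc (2 ^ (J + 12)) (cn P M g i) H ∧ ∀ m ≤ H, cn P M g i m < 2 ^ J

lemma lt_big {J x : ℕ} (h : x < 2 ^ J) : x < 2 ^ (J + 12) :=
  lt_of_lt_of_le h (Nat.pow_le_pow_right (by norm_num) (by omega))

lemma tab_set {H kd u x : ℕ} {g : ℕ → ℕ} {t : Bt} (hs : Shape kd 0 t) (hu : u + 1 < 2 ^ kd)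
    (ht : Tab P M J H g t u) (hx : x = enc (2 ^ (J + 12)) (cn P M g (u + 1)) H)
    (hb : ∀ m ≤ H, cn P M g (u + 1) m < 2 ^ J) : Tab P M J H g (bset t (u + 1) x) (u + 1) := by
  intro i hi
  rw [bget_set _ _ _ kd 0 t hs (by omega) (by omega) (by omega) (by omega)]
  split_ifs with h
  · subst h; exact ⟨hx, hb⟩
  · exact ht i (by omega)

lemma bld_sound (hP : ∀ a ∈ P, 0 < a) (hM : 0 < M) {H kd c : ℕ} {g : ℕ → ℕ}
    (hp : ∀ t, 1 ≤ t → t ≤ H → (p t = true ↔ t ∈ P)) (hc : c < 2 ^ kd) (hcH : c ≤ H) {t' : Bt}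
    (r : ℕ) : ∀ u prev t, u + r = c → Shape kd 0 t → Tab P M J H g t u →
      prev = enc (2 ^ (J + 12)) (cn P M g u) H →
      bld p g M (J + 12) (mkMask J H) c r prev t = some t' → Tab P M J H g t' c := by
  induction r with
  | zero =>
    intro u prev t hu _ ht _ h
    obtain rfl : t = t' := Option.some.inj h
    rwa [← hu]
  | succ r ih =>
    intro u prev t hu hs ht hprev h
    have h' : bstep p g M (J + 12) (mkMask J H) (c - (r + 1)) prev t
      (bld p g M (J + 12) (mkMask J H) c r) = some t' := h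
    rw [show c - (r + 1) = u by omega] at h'
    unfold bstep at h'
    have hp' := hp (u + 1) (by omega) (by omega)
    cases hb : p (Nat.succ u) with
    | false =>
      rw [hb] at h'
      have hn : u + 1 ∉ P := fun h => by rw [hp'.2 h] at hb; exact Bool.noConfusion hb
      have e : cn P M g (u + 1) = cn P M g u := by
        funext m; rw [cn_succ hP hM]; simp [hn]
      exact ih (u + 1) _ _ (by omega) (shape_set _ _ _ _ _ hs)
        (tab_set hs (by omega) ht (by rw [e]; exact hprev) (by rw [e]; exact (ht u le_rfl).2))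
        (by rw [e]; exact hprev) h'
    | true =>
      rw [hb] at h'
      have hn : u + 1 ∈ P := hp'.1 hb
      obtain ⟨h1, h2⟩ := guard_some h'
      obtain ⟨a1, a2⟩ := ht (u - g (u % M)) (by omega)
      have e : Nat.add prev (Nat.shiftRight (bget t (Nat.sub u (g (Nat.mod u M))))
          (Nat.mul (J + 12) (Nat.succ u))) = enc (2 ^ (J + 12)) (cn P M g (u + 1)) H := by
        show prev + Nat.shiftRight (bget t (u - g (u % M))) (Nat.mul (J + 12) (u + 1)) = _
        rw [a1, enc_shr (fun m hm => lt_big (a2 m hm)) (by omega), hprev, ← enc_add]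
        congr 1
        funext m
        rw [cn_succ hP hM]
        simp [hn]
      rw [e] at h1 h2
      have hb2 : ∀ m ≤ H, cn P M g (u + 1) m < 2 ^ (J + 12) := by
        intro m hm
        rw [cn_succ hP hM, pow_add]
        have b1 := (ht u le_rfl).2 m hm
        have b2 := a2 (m - (u + 1)) (by omega)
        split_ifs <;> omega
      have hb3 := mask_sound H hb2 (Nat.eq_of_beq_eq_true h1)
      exact ih (u + 1) _ _ (by omega) (shape_set _ _ _ _ _ hs)
        (tab_set hs (by omega) ht rfl hb3) rfl h2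

lemma bld_tab (hP : ∀ a ∈ P, 0 < a) (hM : 0 < M) (hJ : 0 < J) {H kd c : ℕ} {g : ℕ → ℕ}
    (hp : ∀ t, 1 ≤ t → t ≤ H → (p t = true ↔ t ∈ P)) (hc : c < 2 ^ kd) (hcH : c ≤ H) {t' : Bt}
    (h : bld p g M (J + 12) (mkMask J H) c c (Nat.shiftLeft 1 (Nat.mul (J + 12) H))
      (bset (bfull kd 0) 0 (Nat.shiftLeft 1 (Nat.mul (J + 12) H))) = some t') :
    Tab P M J H g t' c := by
  have e0 : cn P M g 0 = fun m => if m = 0 then 1 else 0 := funext (cn_zero hP g)
  have e : Nat.shiftLeft 1 (Nat.mul (J + 12) H) = enc (2 ^ (J + 12)) (cn P M g 0) H := by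
    rw [e0, enc_delta]
    show 1 <<< ((J + 12) * H) = _
    rw [Nat.shiftLeft_eq, one_mul, pow_mul]
  refine bld_sound hP hM hp hc hcH c 0 _ _ (by omega) (shape_set _ _ _ _ _ (shape_full kd 0)) ?_ e h
  intro i hi
  obtain rfl : i = 0 := by omega
  rw [bget_set _ _ _ kd 0 _ (shape_full kd 0) le_rfl (by omega) le_rfl (by omega), if_pos rfl]
  refine ⟨e, fun m _ => ?_⟩
  rw [e0]
  have : 2 ^ 1 ≤ 2 ^ J := Nat.pow_le_pow_right (by norm_num) hJ
  simp only
  split_ifs <;> omega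

open Classical in
noncomputable def tmf (P : Set ℕ) (M : ℕ) (g : ℕ → ℕ) (c u d n : ℕ) : ℕ :=
  if u + 1 ∈ P ∧ u + 1 ≤ n then cn P M g (min (u - d) c) (n - (u + 1)) else 0

lemma clamp_eq (x c : ℕ) : clamp x c = min x c := by
  unfold clamp
  cases h : Nat.ble x c
  · have : ¬ x ≤ c := fun h' => by rw [Nat.ble_eq_true_of_le h'] at h; exact Bool.noConfusion h
    show c = _
    omega
  · have := Nat.le_of_ble_eq_true h
    show x = _
    omega

lemma gterm_eq {H c u : ℕ} {g : ℕ → ℕ} {t : Bt}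
    (hp : ∀ t, 1 ≤ t → t ≤ H → (p t = true ↔ t ∈ P)) (ht : Tab P M J H g t c) (hu : u < H)
    (d : ℕ) : gterm p t (J + 12) c d u = enc (2 ^ (J + 12)) (tmf P M g c u d) H := by
  unfold gterm
  have hp' := hp (u + 1) (by omega) (by omega)
  cases hb : p (Nat.succ u) with
  | false =>
    have hn : u + 1 ∉ P := fun h => by rw [hp'.2 h] at hb; exact Bool.noConfusion hb
    have : tmf P M g c u d = fun _ => 0 := by funext n; simp [tmf, hn]
    rw [this, enc_zero]
  | true =>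
    have hn : u + 1 ∈ P := hp'.1 hb
    obtain ⟨a1, a2⟩ := ht (min (u - d) c) (min_le_right _ _)
    show Nat.shiftRight (bget t (clamp (u - d) c)) (Nat.mul (J + 12) (u + 1)) = _
    rw [clamp_eq, a1, enc_shr (fun m hm => lt_big (a2 m hm)) (by omega)]
    congr 1
    funext n
    simp [tmf, hn]

lemma gl_eq {H c : ℕ} {g : ℕ → ℕ} {t : Bt}
    (hp : ∀ t, 1 ≤ t → t ≤ H → (p t = true ↔ t ∈ P)) (ht : Tab P M J H g t c) (d f : ℕ) :
    ∀ u, gl p t (J + 12) M c H d f u = enc (2 ^ (J + 12))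
      (fun n => ∑ i ∈ range f, if u + i * M < H then tmf P M g c (u + i * M) d n else 0) H := by
  induction f with
  | zero => intro u; simp only [range_zero, sum_empty, enc_zero]; rfl
  | succ f ih =>
    intro u
    show (Bool.rec 0 (gterm p t (J + 12) c d u + gl p t (J + 12) M c H d f (u + M))
      (Nat.blt u H) : ℕ) = _
    cases hb : Nat.blt u H with
    | false =>
      have hu : ¬ u < H := fun h => by rw [Nat.blt_eq.mpr h] at hb; exact Bool.noConfusion hb
      rw [enc_congr (d := fun _ => 0) _ _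
        (fun n _ => sum_eq_zero fun i _ => if_neg (by omega)), enc_zero]
    | true =>
      have hu : u < H := Nat.blt_eq.mp hb
      show gterm p t (J + 12) c d u + gl p t (J + 12) M c H d f (u + M) = _
      rw [gterm_eq hp ht hu, ih, ← enc_add]
      congr 1
      funext n
      rw [sum_range_succ', add_comm]
      simp only [zero_mul, add_zero, if_pos hu, add_mul, one_mul]
      congr 1
      refine sum_congr rfl fun i _ => ?_
      rw [show u + M + i * M = u + (i * M + M) by omega]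

def SF (M : ℕ) (Φ : ℕ → ℕ → ℕ → ℕ) (g : ℕ → ℕ) (n : ℕ) : ℕ :=
  (if n = 0 then 1 else 0) + ∑ j ∈ range M, Φ j (g j) n

noncomputable def Gf (P : Set ℕ) (M : ℕ) (g : ℕ → ℕ) (c H j d n : ℕ) : ℕ :=
  ∑ i ∈ range H, if j + i * M < H then tmf P M g c (j + i * M) d n else 0

lemma SF_eq (hM : 0 < M) (g0 g : ℕ → ℕ) (c H n : ℕ) : SF M (Gf P M g0 c H) g n =
    (if n = 0 then 1 else 0) + ∑ u ∈ range H, tmf P M g0 c u (g (u % M)) n := by
  unfold SF Gf
  rw [sum_classes (fun u j => if u < H then tmf P M g0 c u (g j) n else 0) H, ← sum_filter]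
  congr 2
  ext u
  simp only [mem_filter, mem_range, and_iff_right_iff_imp]
  intro h
  exact lt_of_lt_of_le h (Nat.le_mul_of_pos_right H hM)

lemma ssum_eq {K H : ℕ} {G : ℕ → ℕ → ℕ} {Φ : ℕ → ℕ → ℕ → ℕ} (g : ℕ → ℕ)
    (hG : ∀ j d, G j d = enc (2 ^ K) (Φ j d) H) (M : ℕ) :
    ssum G g (Nat.shiftLeft 1 (Nat.mul K H)) M = enc (2 ^ K) (SF M Φ g) H := by
  induction M with
  | zero =>
    have : SF 0 Φ g = fun m => if m = 0 then 1 else 0 := by funext n; simp [SF]
    rw [this, enc_delta]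
    show 1 <<< (K * H) = _
    rw [Nat.shiftLeft_eq, one_mul, pow_mul]
  | succ M ih =>
    show ssum G g _ M + G M (g M) = _
    rw [ih, hG, ← enc_add]
    congr 1
    funext n
    simp only [SF, sum_range_succ, add_assoc]

lemma upd_enc {X H j : ℕ} {G : ℕ → ℕ → ℕ} {Φ : ℕ → ℕ → ℕ → ℕ} {g g' : ℕ → ℕ}
    (hG : ∀ j d, G j d = enc X (Φ j d) H) (hj : j < M) (h : ∀ i, i ≠ j → g' i = g i) :
    Nat.sub (Nat.add (enc X (SF M Φ g) H) (G j (g' j))) (G j (g j)) = enc X (SF M Φ g') H := by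
  have : enc X (SF M Φ g) H + G j (g' j) = enc X (SF M Φ g') H + G j (g j) := by
    rw [hG, hG, ← enc_add, ← enc_add]
    congr 1
    funext n
    unfold SF
    rw [← add_sum_erase _ _ (mem_range.2 hj), ← add_sum_erase _ _ (mem_range.2 hj),
      sum_congr rfl (fun i hi => by rw [h i (ne_of_mem_erase hi)] :
        ∀ i ∈ (range M).erase j, Φ i (g' i) n = Φ i (g i) n)]
    omega
  show enc X (SF M Φ g) H + G j (g' j) - G j (g j) = _
  omega

/-- what a phase provides -/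
structure Ph (M J H : ℕ) (G : ℕ → ℕ → ℕ) (Φ : ℕ → ℕ → ℕ → ℕ) : Prop where
  en : ∀ j d, G j d = enc (2 ^ (J + 12)) (Φ j d) H
  bd : ∀ g, ∀ n ≤ H, SF M Φ g n < 2 ^ (J + 12)

lemma ph_tab (hM : 0 < M) {H c : ℕ} {g : ℕ → ℕ} {t : Bt} (hH : H < 4095)
    (hp : ∀ t, 1 ≤ t → t ≤ H → (p t = true ↔ t ∈ P)) (ht : Tab P M J H g t c) :
    Ph M J H (gg p t (J + 12) M c H) (Gf P M g c H) := by
  refine ⟨fun j d => gl_eq hp ht d H j, fun g' n hn => ?_⟩
  rw [SF_eq hM]
  have h1 : ∑ u ∈ range H, tmf P M g c u (g' (u % M)) n ≤ (range H).card • 2 ^ J := by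
    refine sum_le_card_nsmul _ _ _ fun u _ => ?_
    unfold tmf
    split_ifs
    · exact ((ht _ (min_le_right _ _)).2 _ (by omega)).le
    · exact Nat.zero_le _
  rw [card_range, smul_eq_mul] at h1
  have h2 : H * 2 ^ J ≤ 4094 * 2 ^ J := Nat.mul_le_mul_right _ (by omega)
  have h3 : 0 < 2 ^ J := by positivity
  rw [pow_add]
  split_ifs <;> omega

lemma ph_lower (hP : ∀ a ∈ P, 0 < a) (hM : 0 < M) {H c n : ℕ} {g0 g gs : ℕ → ℕ} (hH : H ≤ N)
    (h0 : Rel M N g0 gs) (h : Rel M N g gs) (hn : n ≤ H) :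
    SF M (Gf P M g0 c H) g n ≤ cn P M gs n n := by
  rw [SF_eq hM, ← cn_stab hP hM gs le_rfl hn, cn_unfold hP hM]
  refine Nat.add_le_add_left (sum_le_sum fun u hu => ?_) _
  have hu' := mem_range.1 hu
  unfold tmf
  split_ifs
  · exact cn_mono hP hM h0 _ _ _ ((min_le_left _ _).trans (h u (by omega))) (by omega)
  · exact le_rfl

lemma ph_upper (hP : ∀ a ∈ P, 0 < a) (hM : 0 < M) {H c n : ℕ} {g0 g gs : ℕ → ℕ} (hH : H ≤ N)
    (hc : H ≤ 2 * c) (h0 : Rel M N gs g0) (h : Rel M N gs g) (hn : n ≤ H) :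
    cn P M gs n n ≤ SF M (Gf P M g0 c H) g n := by
  rw [SF_eq hM, ← cn_stab hP hM gs le_rfl hn, cn_unfold hP hM]
  refine Nat.add_le_add_left (sum_le_sum fun u hu => ?_) _
  have hu' := mem_range.1 hu
  unfold tmf
  split_ifs
  · refine (cn_mono hP hM h0 _ _ _ (h u (by omega)) (by omega)).trans ?_
    rcases le_total (u - g (u % M)) c with h1 | h1
    · rw [min_eq_left h1]
    · rw [min_eq_right h1, cn_stab hP hM g0 (by omega) h1]
  · exact le_rfl

end Pool.Agent.P.MP_e9218d_nt
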