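import Pool.Agent.P.MP_e9218d_nt.SmallChk

set_option maxRecDepth 100000

namespace Pool.Agent.P.MP_e9218d_nt

/-- search tree -/
def tr_1_1 : Tr :=
 (.sp 0 1 .sol
 (.lo 3))

theorem run_1_1 : run 1 1 3 15 tr_1_1 = true := by decide +kernel

/-- search tree -/
def tr_1_2 : Tr :=
 (.sp 1 2 (.hi 4)
 (.sp 0 3 (.hi 5)
 (.sp 1 4 (.hi 6)
 (.sp 0 5 (.hi 7)
 (.sp 1 6 (.sp 0 7 (.sp 1 5 (.hi 13)
 (.sp 0 6 (.hi 14)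
 .sol))
 (.lo 9))
 (.lo 8))))))

theorem run_1_2 : run 2 1 14 32763 tr_1_2 = true := by decide +kernel

/-- search tree -/
def tr_1_3 : Tr :=
 (.sp 2 3 (.hi 7)
 (.sp 2 9 (.sp 1 14 (.hi 18)
 (.sp 0 22 (.hi 37)
 (.lo 26)))
 (.lo 13)))

theorem run_1_3 : run 3 1 37 274877902245 tr_1_3 = true := by decide +kernel

/-- search tree -/
def tr_1_4 : Tr :=
 (.sp 3 8 (.hi 14)
 (.sp 3 12 (.sp 2 27 (.sp 2 20 (.hi 40)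
 (.sp 2 23 (.sp 1 42 (.hi 56)
 (.lo 48))
 (.sp 3 9 (.sp 1 42 (.hi 72)
 (.lo 48))
 (.lo 29))))
 (.lo 33))
 (.lo 18)))

theorem run_1_4 : run 4 1 72 9444732965734708989065 tr_1_4 = true := by decide +kernel

/-- search tree -/
def tr_1_5 : Tr :=
 (.sp 4 5 (.hi 13)
 (.sp 4 10 (.hi 18)
 (.sp 4 15 (.sp 3 25 (.hi 51)
 (.sp 3 29 (.sp 2 53 (.hi 71)
 (.lo 61))
 (.sp 4 11 (.sp 2 53 (.sp 2 48 (.hi 75)
 (.sp 3 30 (.hi 76)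
 (.lo 56)))
 (.lo 61))
 (.lo 37))))
 (.lo 23))))

theorem run_1_5 : run 5 1 76 151077643848890379428369 tr_1_5 = true := by decide +kernel

/-- search tree -/
def tr_1_6 : Tr :=
 (.sp 5 6 (.hi 16)
 (.sp 5 12 (.hi 22)
 (.sp 5 18 (.sp 4 35 (.sp 4 30 (.hi 62)
 (.sp 3 64 (.hi 86)
 (.lo 74)))
 (.sp 5 13 (.sp 3 64 (.sp 3 58 (.hi 91)
 (.sp 4 36 (.hi 92)
 (.lo 68)))
 (.lo 74))
 (.lo 45)))
 (.lo 28))))

theorem run_1_6 : run 6 1 92 8645316375543930082847557665 tr_1_6 = true := by decide +kernel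

/-- search tree -/
def tr_1_7 : Tr :=
 (.sp 6 7 (.hi 19)
 (.sp 6 14 (.hi 26)
 (.sp 6 21 (.sp 5 41 (.sp 5 35 (.hi 73)
 (.sp 4 75 (.hi 101)
 (.lo 87)))
 (.sp 6 15 (.sp 4 75 (.sp 4 68 (.hi 107)
 (.sp 5 42 (.hi 108)
 (.lo 80)))
 (.lo 87))
 (.lo 53)))
 (.lo 33))))

theorem run_1_7 : run 7 1 108 526374444118390580322455109771329 tr_1_7 = true := by decide +kernel

/-- search tree -/
def tr_1_8 : Tr :=
 (.sp 7 8 (.hi 22)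
 (.sp 7 16 (.hi 30)
 (.sp 7 24 (.sp 6 47 (.sp 6 40 (.hi 84)
 (.sp 5 86 (.hi 116)
 (.lo 100)))
 (.sp 7 17 (.sp 5 86 (.sp 5 78 (.hi 123)
 (.sp 6 48 (.hi 124)
 (.lo 92)))
 (.lo 100))
 (.lo 61)))
 (.lo 38))))

theorem run_1_8 : run 8 1 124 33194048387386180095970789626650591361 tr_1_8 = true := by decide +kernel

/-- search tree -/
def tr_1_9 : Tr :=
 (.sp 8 9 (.hi 25)
 (.sp 8 18 (.hi 34)
 (.sp 8 27 (.sp 7 53 (.sp 7 45 (.hi 95)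
 (.sp 6 97 (.hi 131)
 (.lo 113)))
 (.sp 8 19 (.sp 6 97 (.sp 6 88 (.hi 139)
 (.sp 7 54 (.hi 140)
 (.lo 104)))
 (.lo 113))
 (.lo 69)))
 (.lo 43))))

theorem run_1_9 : run 9 1 140 2132969785613926657947814333893680772022529 tr_1_9 = true := by decide +kernel

/-- search tree -/
def tr_1_10 : Tr :=
 (.sp 9 10 (.hi 28)
 (.sp 9 20 (.hi 38)
 (.sp 9 30 (.sp 8 59 (.sp 8 50 (.hi 106)
 (.sp 7 108 (.hi 146)
 (.lo 126)))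
 (.sp 9 21 (.sp 7 108 (.sp 7 98 (.hi 155)
 (.sp 8 60 (.hi 156)
 (.lo 116)))
 (.lo 126))
 (.lo 77)))
 (.lo 48))))

theorem run_1_10 : run 10 1 156 138399732663676268953720876769735057458126651905 tr_1_10 = true := by decide +kernel

/-- search tree -/
def tr_1_11 : Tr :=
 (.sp 10 11 (.hi 31)
 (.sp 10 22 (.hi 42)
 (.sp 10 33 (.sp 9 65 (.sp 9 55 (.hi 117)
 (.sp 8 119 (.hi 161)
 (.lo 139)))
 (.sp 10 23 (.sp 8 119 (.sp 8 108 (.hi 171)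
 (.sp 9 66 (.hi 172)
 (.lo 128)))
 (.lo 139))
 (.lo 85)))
 (.lo 53))))

theorem run_1_11 : run 11 1 172 9024794029692297150141004931865044164492394615538689 tr_1_11 = true := by decide +kernel

/-- search tree -/
def tr_1_12 : Tr :=
 (.sp 11 12 (.hi 34)
 (.sp 11 24 (.hi 46)
 (.sp 11 36 (.sp 10 71 (.sp 10 60 (.hi 128)
 (.sp 9 130 (.hi 176)
 (.lo 152)))
 (.sp 11 25 (.sp 9 130 (.sp 9 118 (.hi 187)
 (.sp 10 72 (.hi 188)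
 (.lo 140)))
 (.lo 152))
 (.lo 93)))
 (.lo 58))))

theorem run_1_12 : run 12 1 188 589963243593763884474303430398524121341245350745831639041 tr_1_12 = true := by decide +kernel

/-- search tree -/
def tr_1_13 : Tr :=
 (.sp 12 13 (.hi 37)
 (.sp 12 26 (.hi 50)
 (.sp 12 39 (.sp 11 77 (.sp 11 65 (.hi 139)
 (.sp 10 141 (.hi 191)
 (.lo 165)))
 (.sp 12 27 (.sp 10 141 (.sp 10 128 (.hi 203)
 (.sp 11 78 (.hi 204)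
 (.lo 152)))
 (.lo 165))
 (.lo 101)))
 (.lo 63))))

theorem run_1_13 : run 13 1 204 38615166348224898067245182702438990336649859846403406579109889 tr_1_13 = true := by decide +kernel

/-- search tree -/
def tr_1_14 : Tr :=
 (.sp 13 14 (.hi 40)
 (.sp 13 28 (.hi 54)
 (.sp 13 42 (.sp 12 83 (.sp 12 70 (.hi 150)
 (.sp 11 152 (.hi 206)
 (.lo 178)))
 (.sp 13 29 (.sp 11 152 (.sp 11 138 (.hi 219)
 (.sp 12 84 (.hi 220)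
 (.lo 164)))
 (.lo 178))
 (.lo 109)))
 (.lo 68))))

theorem run_1_14 : run 14 1 220 2529089176747550638963631813125398013226950058268758529702365241345 tr_1_14 = true := by decide +kernel

/-- search tree -/
def tr_1_15 : Tr :=
 (.sp 14 15 (.hi 43)
 (.sp 14 30 (.hi 58)
 (.sp 14 45 (.sp 13 89 (.sp 13 75 (.hi 161)
 (.sp 12 163 (.hi 221)
 (.lo 191)))
 (.sp 14 31 (.sp 12 163 (.sp 12 148 (.hi 235)
 (.sp 13 90 (.hi 236)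
 (.lo 176)))
 (.lo 191))
 (.lo 117)))
 (.lo 73))))

theorem run_1_15 : run 15 1 236 165694148762348737451440788611365644959985916929124582480884536300290049 tr_1_15 = true := by decide +kernel

/-- search tree -/
def tr_1_16 : Tr :=
 (.sp 15 16 (.hi 46)
 (.sp 15 32 (.hi 62)
 (.sp 15 48 (.sp 14 95 (.sp 14 80 (.hi 172)
 (.sp 13 174 (.hi 236)
 (.lo 204)))
 (.sp 15 33 (.sp 13 158 (.hi 251)
 (.sp 14 96 (.sp 13 174 (.hi 252)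
 (.lo 204))
 (.lo 188)))
 (.lo 125)))
 (.lo 78))))

theorem run_1_16 : run 16 1 252 10857220024367733052248283302140580903758203406137740009777622187205671813121 tr_1_16 = true := by decide +kernel

/-- search tree -/
def tr_1_17 : Tr :=
 (.sp 16 17 (.hi 49)
 (.sp 16 34 (.hi 66)
 (.sp 16 51 (.sp 15 101 (.sp 15 85 (.hi 183)
 (.sp 14 185 (.hi 251)
 (.lo 217)))
 (.sp 16 35 (.sp 14 168 (.hi 267)
 (.sp 15 102 (.sp 14 185 (.hi 268)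
 (.lo 217))
 (.lo 200)))
 (.lo 133)))
 (.lo 83))))

theorem run_1_17 : run 17 1 268 711482683481402969914866562615681187935749424656241527389895445339487775240552449 tr_1_17 = true := by decide +kernel

/-- search tree -/
def tr_1_18 : Tr :=
 (.sp 17 18 (.hi 52)
 (.sp 17 36 (.hi 70)
 (.sp 17 54 (.sp 16 107 (.sp 16 90 (.hi 194)
 (.sp 15 196 (.hi 266)
 (.lo 230)))
 (.sp 17 37 (.sp 15 178 (.hi 283)
 (.sp 16 108 (.sp 15 196 (.hi 284)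
 (.lo 230))
 (.lo 212)))
 (.lo 141)))
 (.lo 88))))

theorem run_1_18 : run 18 1 284 46625891272242590995117375622719390142493482873861109765560621032420340817059131817985 tr_1_18 = true := by decide +kernel

/-- search tree -/
def tr_2_2 : Tr :=
 (.sp 0 1 (.sp 1 2 (.sp 1 1 .sol
 (.lo 5))
 (.lo 4))
 (.lo 3))

theorem run_2_2 : run 2 2 5 63 tr_2_2 = true := by decide +kernel

/-- search tree -/
def tr_2_3 : Tr :=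
 (.sp 2 1 (.hi 3)
 (.sp 0 2 (.hi 4)
 (.sp 1 3 (.sp 2 7 (.sp 0 3 (.hi 9)
 (.sp 0 8 (.sp 2 6 (.sp 0 7 (.sp 2 5 (.sp 2 4 (.sp 1 2 (.hi 6)
 (.sp 0 5 (.sp 2 3 (.sp 0 4 (.sp 2 2 (.hi 8)
 .sol)
 (.sp 2 2 .sol
 (.lo 8)))
 (.lo 7))
 (.lo 7)))
 (.sp 1 1 (.sp 0 4 (.hi 14)
 (.lo 8))
 (.lo 7)))
 (.lo 11))
 (.lo 11))
 (.lo 10))
 (.lo 10)))
 (.lo 10))
 (.lo 5))))

theorem run_2_3 : run 3 2 14 32767 tr_2_3 = true := by decide +kernel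

/-- search tree -/
def tr_2_4 : Tr :=
 (.sp 3 1 (.hi 5)
 (.sp 1 3 (.hi 7)
 (.sp 2 4 (.hi 8)
 (.sp 3 5 (.sp 0 6 (.hi 14)
 (.sp 3 4 (.sp 1 7 (.sp 0 10 (.hi 14)
 (.sp 2 5 (.sp 0 14 (.hi 25)
 (.lo 18))
 (.lo 15)))
 (.lo 11))
 (.lo 10)))
 (.lo 9)))))

theorem run_2_4 : run 4 2 25 67108845 tr_2_4 = true := by decide +kernel

/-- search tree -/
def tr_2_5 : Tr :=
 (.sp 4 1 (.hi 7)
 (.sp 2 4 (.hi 10)
 (.sp 3 5 (.hi 11)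
 (.sp 4 5 (.sp 1 8 (.hi 14)
 (.sp 2 9 (.hi 15)
 (.sp 3 9 (.sp 0 17 (.hi 23)
 (.sp 1 18 (.sp 2 10 (.sp 0 22 (.hi 33)
 (.sp 1 14 (.hi 60)
 (.lo 28)))
 (.lo 24))
 (.lo 24)))
 (.lo 17))))
 (.lo 13)))))

theorem run_2_5 : run 5 2 60 2305843009213692825 tr_2_5 = true := by decide +kernel

/-- search tree -/
def tr_2_6 : Tr :=
 (.sp 5 1 (.hi 9)
 (.sp 4 6 (.hi 14)
 (.sp 5 7 (.sp 5 6 (.sp 3 11 (.hi 19)
 (.sp 4 12 (.sp 5 2 (.hi 20)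
 (.sp 4 11 (.sp 2 16 (.hi 24)
 (.sp 3 17 (.sp 4 7 (.hi 25)
 (.sp 3 16 (.sp 0 26 (.hi 34)
 (.sp 2 28 (.sp 1 26 (.hi 36)
 (.sp 4 8 (.hi 36)
 (.sp 2 22 (.sp 2 17 (.hi 79)
 (.sp 1 27 (.sp 3 13 (.hi 41)
 (.sp 0 44 (.hi 58)
 (.lo 53)))
 (.lo 35)))
 (.lo 48))))
 (.lo 37)))
 (.lo 26)))
 (.lo 26)))
 (.lo 21)))
 (.lo 21)))
 (.lo 16))
 (.lo 15))))

theorem run_2_6 : run 6 2 79 1208925819614629157654065 tr_2_6 = true := by decide +kernel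

/-- search tree -/
def tr_2_7 : Tr :=
 (.sp 6 1 (.hi 11)
 (.sp 5 7 (.hi 17)
 (.sp 6 8 (.sp 4 13 (.hi 23)
 (.sp 5 14 (.sp 6 2 (.hi 24)
 (.sp 3 19 (.hi 29)
 (.sp 4 20 (.sp 5 8 (.hi 30)
 (.sp 2 32 (.hi 42)
 (.sp 3 20 (.hi 42)
 (.sp 3 33 (.sp 5 9 (.hi 43)
 (.sp 3 26 (.sp 4 14 (.hi 36)
 (.sp 2 39 (.hi 49)
 (.sp 3 25 (.sp 6 3 (.hi 37)
 (.sp 2 46 (.sp 1 44 (.hi 56)
 (.sp 5 10 (.hi 56)
 (.lo 70)))
 (.lo 57)))
 (.lo 57))))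
 (.lo 57)))
 (.lo 44)))))
 (.lo 31))))
 (.lo 25)))
 (.lo 18))))

theorem run_2_7 : run 7 2 70 2361183241399651154017 tr_2_7 = true := by decide +kernel

/-- search tree -/
def tr_2_8 : Tr :=
 (.sp 7 1 (.hi 13)
 (.sp 6 8 (.hi 20)
 (.sp 7 9 (.sp 5 15 (.hi 27)
 (.sp 6 16 (.sp 7 2 (.hi 28)
 (.sp 4 22 (.hi 34)
 (.sp 5 23 (.sp 6 9 (.hi 35)
 (.sp 3 37 (.hi 49)
 (.sp 4 23 (.hi 49)
 (.sp 4 38 (.sp 6 10 (.hi 50)
 (.sp 4 30 (.sp 5 16 (.hi 42)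
 (.sp 3 45 (.hi 57)
 (.sp 4 29 (.sp 7 3 (.hi 43)
 (.sp 2 52 (.hi 64)
 (.sp 3 53 (.sp 6 11 (.hi 65)
 (.lo 81))
 (.lo 66))))
 (.lo 66))))
 (.lo 66)))
 (.lo 51)))))
 (.lo 36))))
 (.lo 29)))
 (.lo 21))))

theorem run_2_8 : run 8 2 81 4835703206116118966100161 tr_2_8 = true := by decide +kernel

/-- search tree -/
def tr_2_9 : Tr :=
 (.sp 8 1 (.hi 15)
 (.sp 7 9 (.hi 23)
 (.sp 8 10 (.sp 6 17 (.hi 31)
 (.sp 7 18 (.sp 8 2 (.hi 32)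
 (.sp 5 25 (.hi 39)
 (.sp 6 26 (.sp 7 10 (.hi 40)
 (.sp 4 42 (.hi 56)
 (.sp 5 26 (.hi 56)
 (.sp 5 43 (.sp 7 11 (.hi 57)
 (.sp 5 34 (.sp 6 18 (.hi 48)
 (.sp 5 33 (.sp 8 3 (.hi 49)
 (.sp 4 51 (.hi 65)
 (.sp 3 59 (.hi 73)
 (.sp 4 60 (.sp 7 12 (.hi 74)
 (.lo 92))
 (.lo 75)))))
 (.lo 75)))
 (.lo 75)))
 (.lo 58)))))
 (.lo 41))))
 (.lo 33)))
 (.lo 24))))

theorem run_2_9 : run 9 2 92 9901097712552923441687396737 tr_2_9 = true := by decide +kernel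

/-- search tree -/
def tr_2_10 : Tr :=
 (.sp 9 1 (.hi 17)
 (.sp 8 10 (.hi 26)
 (.sp 9 11 (.sp 7 19 (.hi 35)
 (.sp 8 20 (.sp 9 2 (.hi 36)
 (.sp 6 28 (.hi 44)
 (.sp 7 29 (.sp 8 11 (.hi 45)
 (.sp 5 47 (.hi 63)
 (.sp 6 29 (.hi 63)
 (.sp 6 48 (.sp 8 12 (.hi 64)
 (.sp 6 38 (.sp 7 20 (.hi 54)
 (.sp 6 37 (.sp 9 3 (.hi 55)
 (.sp 5 57 (.hi 73)
 (.sp 4 66 (.hi 82)
 (.sp 5 67 (.sp 8 13 (.hi 83)
 (.lo 103))
 (.lo 84)))))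
 (.lo 84)))
 (.lo 84)))
 (.lo 65)))))
 (.lo 46))))
 (.lo 37)))
 (.lo 27))))

theorem run_2_10 : run 10 2 103 19011041548255897319567384249089 tr_2_10 = true := by decide +kernel

/-- search tree -/
def tr_2_11 : Tr :=
 (.sp 10 1 (.hi 19)
 (.sp 9 11 (.hi 29)
 (.sp 10 12 (.sp 8 21 (.hi 39)
 (.sp 9 22 (.sp 10 2 (.hi 40)
 (.sp 7 31 (.hi 49)
 (.sp 8 32 (.sp 9 12 (.hi 50)
 (.sp 6 52 (.hi 70)
 (.sp 7 32 (.hi 70)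
 (.sp 7 53 (.sp 9 13 (.hi 71)
 (.sp 7 42 (.sp 8 22 (.hi 60)
 (.sp 7 41 (.sp 10 3 (.hi 61)
 (.sp 6 63 (.hi 81)
 (.sp 5 73 (.hi 91)
 (.sp 6 74 (.sp 9 14 (.hi 92)
 (.lo 114))
 (.lo 93)))))
 (.lo 93)))
 (.lo 93)))
 (.lo 72)))))
 (.lo 51))))
 (.lo 41)))
 (.lo 30))))

theorem run_2_11 : run 11 2 114 37639713278613788920101969568728577 tr_2_11 = true := by decide +kernel

/-- search tree -/
def tr_2_12 : Tr :=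
 (.sp 11 1 (.hi 21)
 (.sp 10 12 (.hi 32)
 (.sp 11 13 (.sp 9 23 (.hi 43)
 (.sp 10 24 (.sp 11 2 (.hi 44)
 (.sp 8 34 (.hi 54)
 (.sp 9 35 (.sp 10 13 (.hi 55)
 (.sp 7 57 (.hi 77)
 (.sp 8 35 (.hi 77)
 (.sp 8 58 (.sp 10 14 (.hi 78)
 (.sp 8 46 (.sp 9 24 (.hi 66)
 (.sp 8 45 (.sp 11 3 (.hi 67)
 (.sp 7 69 (.hi 89)
 (.sp 6 80 (.hi 100)
 (.sp 7 81 (.sp 10 15 (.hi 101)
 (.lo 125))
 (.lo 102)))))
 (.lo 102)))
 (.lo 102)))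
 (.lo 79)))))
 (.lo 56))))
 (.lo 45)))
 (.lo 33))))

theorem run_2_12 : run 12 2 125 75761126792413116968090555318928411649 tr_2_12 = true := by decide +kernel

/-- search tree -/
def tr_2_13 : Tr :=
 (.sp 12 1 (.hi 23)
 (.sp 11 13 (.hi 35)
 (.sp 12 14 (.sp 10 25 (.hi 47)
 (.sp 11 26 (.sp 12 2 (.hi 48)
 (.sp 9 37 (.hi 59)
 (.sp 10 38 (.sp 11 14 (.hi 60)
 (.sp 8 62 (.hi 84)
 (.sp 9 38 (.hi 84)
 (.sp 9 63 (.sp 11 15 (.hi 85)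
 (.sp 9 50 (.sp 10 26 (.hi 72)
 (.sp 9 49 (.sp 12 3 (.hi 73)
 (.sp 8 75 (.hi 97)
 (.sp 7 87 (.hi 109)
 (.sp 8 88 (.sp 11 16 (.hi 110)
 (.lo 136))
 (.lo 111)))))
 (.lo 111)))
 (.lo 111)))
 (.lo 86)))))
 (.lo 61))))
 (.lo 49)))
 (.lo 36))))

theorem run_2_13 : run 13 2 136 153802478460869821733017798766539824961537 tr_2_13 = true := by decide +kernel

/-- search tree -/
def tr_2_14 : Tr :=
 (.sp 13 1 (.hi 25)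
 (.sp 12 14 (.hi 38)
 (.sp 13 15 (.sp 11 27 (.hi 51)
 (.sp 12 28 (.sp 13 2 (.hi 52)
 (.sp 10 40 (.hi 64)
 (.sp 11 41 (.sp 12 15 (.hi 65)
 (.sp 9 67 (.hi 91)
 (.sp 10 41 (.hi 91)
 (.sp 10 68 (.sp 12 16 (.hi 92)
 (.sp 10 54 (.sp 11 28 (.hi 78)
 (.sp 10 53 (.sp 13 3 (.hi 79)
 (.sp 9 81 (.hi 105)
 (.sp 8 94 (.hi 118)
 (.sp 9 95 (.sp 12 17 (.hi 119)
 (.lo 147))
 (.lo 120)))))
 (.lo 120)))
 (.lo 120)))
 (.lo 93)))))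
 (.lo 66))))
 (.lo 53)))
 (.lo 39))))

theorem run_2_14 : run 14 2 147 313598869579902930695956750034244091584196609 tr_2_14 = true := by decide +kernel

/-- search tree -/
def tr_2_15 : Tr :=
 (.sp 14 1 (.hi 27)
 (.sp 13 15 (.hi 41)
 (.sp 14 16 (.sp 12 29 (.hi 55)
 (.sp 13 30 (.sp 14 2 (.hi 56)
 (.sp 11 43 (.hi 69)
 (.sp 12 44 (.sp 13 16 (.hi 70)
 (.sp 10 72 (.hi 98)
 (.sp 11 44 (.hi 98)
 (.sp 11 73 (.sp 13 17 (.hi 99)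
 (.sp 11 58 (.sp 12 30 (.hi 84)
 (.sp 11 57 (.sp 14 3 (.hi 85)
 (.sp 10 87 (.hi 113)
 (.sp 9 101 (.hi 127)
 (.sp 10 102 (.sp 13 18 (.hi 128)
 (.lo 158))
 (.lo 129)))))
 (.lo 129)))
 (.lo 129)))
 (.lo 100)))))
 (.lo 71))))
 (.lo 57)))
 (.lo 42))))

theorem run_2_15 : run 15 2 158 640828682225997020010232145223076559425602871297 tr_2_15 = true := by decide +kernel

/-- search tree -/
def tr_2_16 : Tr :=
 (.sp 15 1 (.hi 29)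
 (.sp 14 16 (.hi 44)
 (.sp 15 17 (.sp 13 31 (.hi 59)
 (.sp 14 32 (.sp 15 2 (.hi 60)
 (.sp 12 46 (.hi 74)
 (.sp 13 47 (.sp 14 17 (.hi 75)
 (.sp 11 77 (.hi 105)
 (.sp 12 47 (.hi 105)
 (.sp 12 62 (.sp 13 32 (.hi 90)
 (.sp 14 18 (.hi 106)
 (.sp 12 61 (.sp 15 3 (.hi 91)
 (.sp 11 93 (.hi 121)
 (.sp 10 108 (.hi 136)
 (.sp 11 109 (.sp 14 19 (.hi 137)
 (.lo 169))
 (.lo 138)))))
 (.lo 138))))
 (.sp 12 78 (.sp 14 18 (.hi 106)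
 (.lo 138))
 (.lo 107))))))
 (.lo 76))))
 (.lo 61)))
 (.lo 45))))

theorem run_2_16 : run 16 2 169 1310961281909019635450783356044604035728766450843649 tr_2_16 = true := by decide +kernel

/-- search tree -/
def tr_2_17 : Tr :=
 (.sp 16 1 (.hi 31)
 (.sp 15 17 (.hi 47)
 (.sp 16 18 (.sp 14 33 (.hi 63)
 (.sp 15 34 (.sp 16 2 (.hi 64)
 (.sp 13 49 (.hi 79)
 (.sp 14 50 (.sp 15 18 (.hi 80)
 (.sp 13 66 (.sp 14 34 (.hi 96)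
 (.sp 12 82 (.hi 112)
 (.sp 13 50 (.hi 112)
 (.sp 13 65 (.sp 16 3 (.hi 97)
 (.sp 15 19 (.hi 113)
 (.sp 12 99 (.hi 129)
 (.sp 11 115 (.hi 145)
 (.sp 12 116 (.sp 15 20 (.hi 146)
 (.lo 180))
 (.lo 147))))))
 (.sp 15 19 (.hi 113)
 (.lo 147))))))
 (.sp 12 82 (.hi 112)
 (.sp 13 83 (.sp 15 19 (.hi 113)
 (.lo 147))
 (.lo 114)))))
 (.lo 81))))
 (.lo 65)))
 (.lo 48))))

theorem run_2_17 : run 17 2 180 2683357939558849506734917469040986190025133703542439937 tr_2_17 = true := by decide +kernel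

/-- search tree -/
def tr_2_18 : Tr :=
 (.sp 17 1 (.hi 33)
 (.sp 16 18 (.hi 50)
 (.sp 17 19 (.sp 15 35 (.hi 67)
 (.sp 16 36 (.sp 17 2 (.hi 68)
 (.sp 14 52 (.hi 84)
 (.sp 15 53 (.sp 16 19 (.hi 85)
 (.sp 14 70 (.sp 15 36 (.hi 102)
 (.sp 14 69 (.sp 17 3 (.hi 103)
 (.sp 14 53 (.hi 119)
 (.sp 16 20 (.hi 120)
 (.sp 13 105 (.hi 137)
 (.sp 12 122 (.hi 154)
 (.sp 13 123 (.sp 16 21 (.hi 155)
 (.lo 191))
 (.lo 156)))))))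
 (.sp 13 87 (.hi 119)
 (.sp 16 20 (.hi 120)
 (.lo 156)))))
 (.sp 13 87 (.hi 119)
 (.sp 14 88 (.sp 16 20 (.hi 120)
 (.lo 156))
 (.lo 121)))))
 (.lo 86))))
 (.lo 69)))
 (.lo 51))))

theorem run_2_18 : run 18 2 191 5493990533516697762681670409042731289633413098543325052929 tr_2_18 = true := by decide +kernel

/-- search tree -/
def tr_2_19 : Tr :=
 (.sp 18 1 (.hi 35)
 (.sp 17 19 (.hi 53)
 (.sp 18 20 (.sp 16 37 (.hi 71)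
 (.sp 17 38 (.sp 18 2 (.hi 72)
 (.sp 15 55 (.hi 89)
 (.sp 16 56 (.sp 17 20 (.hi 90)
 (.sp 15 74 (.sp 16 38 (.hi 108)
 (.sp 15 73 (.sp 18 3 (.hi 109)
 (.sp 15 56 (.hi 126)
 (.sp 17 21 (.hi 127)
 (.sp 14 111 (.hi 145)
 (.sp 13 129 (.hi 163)
 (.sp 14 130 (.sp 17 22 (.hi 164)
 (.lo 202))
 (.lo 165)))))))
 (.sp 14 92 (.hi 126)
 (.sp 17 21 (.hi 127)
 (.lo 165)))))
 (.sp 14 92 (.hi 126)
 (.sp 15 93 (.sp 17 21 (.hi 127)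
 (.lo 165))
 (.lo 128)))))
 (.lo 91))))
 (.lo 73)))
 (.lo 54))))

theorem run_2_19 : run 19 2 202 11250129458246084139984386525864073594746631276672120678383617 tr_2_19 = true := by decide +kernel

/-- search tree -/
def tr_2_20 : Tr :=
 (.sp 19 1 (.hi 37)
 (.sp 18 20 (.hi 56)
 (.sp 19 21 (.sp 17 39 (.hi 75)
 (.sp 18 40 (.sp 19 2 (.hi 76)
 (.sp 16 58 (.hi 94)
 (.sp 17 59 (.sp 18 21 (.hi 95)
 (.sp 16 78 (.sp 17 40 (.hi 114)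
 (.sp 16 77 (.sp 19 3 (.hi 115)
 (.sp 16 59 (.hi 133)
 (.sp 18 22 (.hi 134)
 (.sp 15 117 (.hi 153)
 (.sp 14 136 (.hi 172)
 (.sp 15 137 (.sp 18 23 (.hi 173)
 (.lo 213))
 (.lo 174)))))))
 (.sp 15 97 (.hi 133)
 (.sp 18 22 (.hi 134)
 (.lo 174)))))
 (.sp 15 97 (.hi 133)
 (.sp 16 98 (.sp 18 22 (.hi 134)
 (.lo 174))
 (.lo 135)))))
 (.lo 96))))
 (.lo 77)))
 (.lo 57))))

theorem run_2_20 : run 20 2 213 23038664464965918874008766860214075644292438304425880428600885249 tr_2_20 = true := by decide +kernel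

/-- search tree -/
def tr_2_21 : Tr :=
 (.sp 20 1 (.hi 39)
 (.sp 19 21 (.hi 59)
 (.sp 20 22 (.sp 18 41 (.hi 79)
 (.sp 19 42 (.sp 20 2 (.hi 80)
 (.sp 17 61 (.hi 99)
 (.sp 18 62 (.sp 19 22 (.hi 100)
 (.sp 17 82 (.sp 18 42 (.hi 120)
 (.sp 17 81 (.sp 20 3 (.hi 121)
 (.sp 17 62 (.hi 140)
 (.sp 19 23 (.hi 141)
 (.sp 16 123 (.hi 161)
 (.sp 15 143 (.hi 181)
 (.sp 16 144 (.sp 19 24 (.hi 182)
 (.lo 224))
 (.lo 183)))))))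
 (.sp 16 102 (.hi 140)
 (.sp 19 23 (.hi 141)
 (.lo 183)))))
 (.sp 16 102 (.hi 140)
 (.sp 17 103 (.sp 19 23 (.hi 141)
 (.lo 183))
 (.lo 142)))))
 (.lo 101))))
 (.lo 81)))
 (.lo 60))))

theorem run_2_21 : run 21 2 224 47181545745100336907811525415679394612155003565271795614993794727937 tr_2_21 = true := by decide +kernel

/-- search tree -/
def tr_2_22 : Tr :=
 (.sp 21 1 (.hi 41)
 (.sp 20 22 (.hi 62)
 (.sp 21 23 (.sp 19 43 (.hi 83)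
 (.sp 20 44 (.sp 21 2 (.hi 84)
 (.sp 18 64 (.hi 104)
 (.sp 19 65 (.sp 20 23 (.hi 105)
 (.sp 18 86 (.sp 19 44 (.hi 126)
 (.sp 18 85 (.sp 21 3 (.hi 127)
 (.sp 18 65 (.hi 147)
 (.sp 20 24 (.hi 148)
 (.sp 17 129 (.hi 169)
 (.sp 16 150 (.hi 190)
 (.sp 17 151 (.sp 20 25 (.hi 191)
 (.lo 235))
 (.lo 192)))))))
 (.sp 17 107 (.hi 147)
 (.sp 20 24 (.hi 148)
 (.lo 192)))))
 (.sp 17 107 (.hi 147)
 (.sp 18 108 (.sp 20 24 (.hi 148)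
 (.lo 192))
 (.lo 149)))))
 (.lo 106))))
 (.lo 85)))
 (.lo 63))))

theorem run_2_22 : run 22 2 235 96626127270116525984913186162506208916486125573867859420248669498114049 tr_2_22 = true := by decide +kernel

/-- search tree -/
def tr_2_23 : Tr :=
 (.sp 22 1 (.hi 43)
 (.sp 21 23 (.hi 65)
 (.sp 22 24 (.sp 20 45 (.hi 87)
 (.sp 21 46 (.sp 22 2 (.hi 88)
 (.sp 19 67 (.hi 109)
 (.sp 20 68 (.sp 21 24 (.hi 110)
 (.sp 19 90 (.sp 20 46 (.hi 132)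
 (.sp 19 89 (.sp 22 3 (.hi 133)
 (.sp 19 68 (.hi 154)
 (.sp 21 25 (.hi 155)
 (.sp 18 135 (.hi 177)
 (.sp 17 157 (.hi 199)
 (.sp 18 158 (.sp 21 26 (.hi 200)
 (.lo 246))
 (.lo 201)))))))
 (.sp 18 112 (.hi 154)
 (.sp 21 25 (.hi 155)
 (.lo 201)))))
 (.sp 18 112 (.hi 154)
 (.sp 19 113 (.sp 21 25 (.hi 155)
 (.lo 201))
 (.lo 156)))))
 (.lo 111))))
 (.lo 89)))
 (.lo 66))))

theorem run_2_23 : run 23 2 246 197888589951983960391587620976963911650522473027717923565503106598920257537 tr_2_23 = true := by decide +kernel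

/-- search tree -/
def tr_2_24 : Tr :=
 (.sp 23 1 (.hi 45)
 (.sp 22 24 (.hi 68)
 (.sp 23 25 (.sp 21 47 (.hi 91)
 (.sp 22 48 (.sp 23 2 (.hi 92)
 (.sp 20 70 (.hi 114)
 (.sp 21 71 (.sp 22 25 (.hi 115)
 (.sp 20 94 (.sp 21 48 (.hi 138)
 (.sp 20 93 (.sp 23 3 (.hi 139)
 (.sp 20 71 (.hi 161)
 (.sp 22 26 (.hi 162)
 (.sp 19 141 (.hi 185)
 (.sp 18 164 (.hi 208)
 (.sp 19 165 (.sp 22 27 (.hi 209)
 (.lo 257))
 (.lo 210)))))))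
 (.sp 19 117 (.hi 161)
 (.sp 22 26 (.hi 162)
 (.lo 210)))))
 (.sp 19 117 (.hi 161)
 (.sp 20 118 (.sp 22 26 (.hi 162)
 (.lo 210))
 (.lo 163)))))
 (.lo 116))))
 (.lo 93)))
 (.lo 69))))

theorem run_2_24 : run 24 2 257 405274072276030016498021532527640347568038358492577154903607156575167680872449 tr_2_24 = true := by decide +kernel

/-- search tree -/
def tr_2_25 : Tr :=
 (.sp 24 1 (.hi 47)
 (.sp 23 25 (.hi 71)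
 (.sp 24 26 (.sp 22 49 (.hi 95)
 (.sp 23 50 (.sp 24 2 (.hi 96)
 (.sp 21 73 (.hi 119)
 (.sp 22 74 (.sp 23 26 (.hi 120)
 (.sp 21 98 (.sp 22 50 (.hi 144)
 (.sp 21 97 (.sp 24 3 (.hi 145)
 (.sp 21 74 (.hi 168)
 (.sp 23 27 (.hi 169)
 (.sp 20 147 (.hi 193)
 (.sp 19 171 (.hi 217)
 (.sp 20 172 (.sp 23 28 (.hi 218)
 (.lo 268))
 (.lo 219)))))))
 (.sp 20 122 (.hi 168)
 (.sp 23 27 (.hi 169)
 (.lo 219)))))
 (.sp 20 122 (.hi 168)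
 (.sp 21 123 (.sp 23 27 (.hi 169)
 (.lo 219))
 (.lo 170)))))
 (.lo 121))))
 (.lo 97)))
 (.lo 72))))

theorem run_2_25 : run 25 2 268 829999497837142272018518343559246179015107660941000316501482018113438902214721537 tr_2_25 = true := by decide +kernel

end Pool.Agent.P.MP_e9218d_nt
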