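import Pool.Agent.P.MP_e9218d_nt.SmallChk

set_option maxRecDepth 100000

namespace Pool.Agent.P.MP_e9218d_nt

/-- search tree -/
def tr_3_4 : Tr :=
 (.sp 3 1 (.hi 5)
 (.sp 0 2 (.sp 2 4 (.sp 1 2 (.hi 8)
 (.sp 3 5 (.sp 2 3 (.sp 3 4 (.sp 2 2 (.sp 1 7 (.sp 1 6 (.sp 3 2 (.hi 12)
 (.sp 1 5 (.sp 1 3 (.sp 0 1 (.hi 7)
 (.sp 2 1 (.hi 19)
 (.sp 3 3 .sol
 (.lo 11))))
 (.sp 0 1 (.sp 3 3 (.hi 13)
 (.sp 2 1 (.sp 1 4 .sol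
 (.lo 14))
 (.lo 11)))
 (.lo 7)))
 (.lo 15)))
 (.lo 15))
 (.lo 15))
 (.lo 10))
 (.lo 10))
 (.lo 9))
 (.lo 9)))
 (.lo 10))
 (.lo 6)))

theorem run_3_4 : run 4 3 19 1048573 tr_3_4 = true := by decide +kernel

/-- search tree -/
def tr_3_5 : Tr :=
 (.sp 3 2 (.sp 4 3 (.hi 5)
 (.sp 1 5 (.sp 2 3 (.hi 11)
 (.sp 4 6 (.hi 12)
 (.lo 13)))
 (.lo 7)))
 (.lo 4))

theorem run_3_5 : run 5 3 13 16379 tr_3_5 = true := by decide +kernel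

/-- search tree -/
def tr_3_6 : Tr :=
 (.sp 4 2 (.hi 6)
 (.sp 5 3 (.hi 7)
 (.sp 0 4 (.hi 8)
 (.sp 1 5 (.hi 9)
 (.sp 2 6 (.sp 3 7 (.sp 4 8 (.sp 2 4 (.hi 12)
 (.sp 5 15 (.sp 1 17 (.sp 5 13 (.sp 0 16 (.sp 1 6 (.hi 20)
 (.sp 0 14 (.sp 5 12 (.sp 5 9 (.sp 3 5 (.hi 13)
 (.sp 0 10 (.sp 4 6 (.sp 5 8 (.sp 1 11 (.sp 2 5 (.hi 23)
 (.sp 3 6 (.hi 24)
 (.sp 5 7 (.sp 4 5 (.hi 15)
 (.sp 0 8 (.sp 5 6 (.sp 1 10 (.sp 1 9 (.sp 0 5 (.hi 37)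
 (.sp 1 8 (.sp 0 6 (.hi 18)
 (.sp 5 4 (.hi 18)
 (.sp 1 7 (.sp 0 7 (.sp 5 5 (.hi 17)
 .sol)
 (.sp 5 5 .sol
 (.lo 17)))
 (.lo 19))))
 (.lo 19)))
 (.sp 0 7 (.sp 5 5 (.hi 34)
 (.lo 17))
 (.lo 17)))
 (.lo 28))
 (.lo 16))
 (.lo 16)))
 (.sp 0 8 (.sp 4 4 (.sp 1 8 (.hi 32)
 (.sp 0 6 (.hi 32)
 (.lo 18)))
 (.lo 16))
 (.lo 16)))))
 (.sp 5 7 (.sp 4 5 (.sp 0 5 (.hi 31)
 (.lo 19))
 (.lo 15))
 (.lo 15)))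
 (.lo 28))
 (.lo 14))
 (.lo 14)))
 (.sp 3 5 (.sp 0 10 (.sp 4 6 (.sp 3 4 (.hi 14)
 (.sp 0 8 (.sp 4 4 (.sp 1 10 (.hi 32)
 (.lo 28))
 (.lo 16))
 (.lo 16)))
 (.sp 1 11 (.sp 3 3 (.sp 0 8 (.sp 2 5 (.sp 1 9 (.hi 29)
 (.sp 0 7 (.hi 29)
 (.lo 17)))
 (.lo 28))
 (.lo 16))
 (.lo 15))
 (.lo 15)))
 (.sp 4 5 (.sp 3 3 (.sp 1 11 (.hi 15)
 (.lo 18))
 (.lo 16))
 (.lo 16)))
 (.lo 13)))
 (.lo 22))
 (.lo 22)))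
 (.lo 22))
 (.lo 21))
 (.lo 21))
 (.lo 21)))
 (.sp 2 4 (.sp 5 9 (.sp 3 5 (.hi 13)
 (.sp 2 3 (.hi 13)
 (.lo 14)))
 (.sp 3 5 (.sp 2 3 (.hi 13)
 (.sp 1 11 (.sp 3 3 (.sp 0 8 (.sp 4 14 (.sp 5 15 (.sp 5 13 (.sp 4 11 (.sp 3 1 (.hi 21)
 (.sp 1 9 (.hi 29)
 (.lo 17)))
 (.lo 22))
 (.lo 22))
 (.lo 22))
 (.lo 22))
 (.lo 16))
 (.lo 15))
 (.lo 15)))
 (.lo 16)))
 (.lo 12)))
 (.lo 11))
 (.lo 10))))))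

theorem run_3_6 : run 6 3 37 274877906933 tr_3_6 = true := by decide +kernel

/-- search tree -/
def tr_3_7 : Tr :=
 (.sp 5 2 (.hi 8)
 (.sp 6 3 (.hi 9)
 (.sp 1 5 (.hi 11)
 (.sp 2 6 (.hi 12)
 (.sp 3 7 (.sp 4 8 (.hi 14)
 (.sp 5 9 (.sp 3 5 (.hi 15)
 (.sp 6 10 (.sp 0 1 (.hi 27)
 (.sp 0 2 (.hi 29)
 (.sp 0 25 (.sp 0 11 (.sp 5 7 (.hi 17)
 (.sp 2 17 (.hi 29)
 (.lo 31)))
 (.sp 5 7 (.sp 6 8 (.sp 2 13 (.sp 6 7 (.sp 0 13 (.hi 29)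
 (.sp 1 19 (.sp 2 7 (.hi 25)
 (.sp 1 17 (.sp 4 22 (.sp 1 16 (.sp 3 6 (.hi 28)
 (.sp 4 20 (.sp 1 14 (.sp 4 19 (.sp 1 13 (.sp 1 12 (.sp 5 6 (.hi 18)
 (.sp 1 10 (.sp 0 23 (.sp 4 17 (.sp 4 15 (.sp 2 11 (.sp 1 9 (.hi 21)
 (.sp 6 5 (.hi 21)
 (.sp 2 10 (.sp 4 13 (.sp 0 22 (.sp 6 6 (.hi 34)
 (.sp 0 20 (.sp 4 12 (.sp 2 8 (.hi 48)
 (.sp 0 18 (.sp 2 9 (.hi 37)
 (.sp 4 10 (.hi 52)
 (.sp 0 16 (.sp 0 15 (.sp 4 11 (.hi 39)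
 (.sp 0 14 (.hi 42)
 .sol))
 (.lo 27))
 (.lo 26))))
 (.lo 24)))
 (.lo 44))
 (.lo 36)))
 (.lo 36))
 (.lo 23))
 (.lo 22))))
 (.sp 6 5 (.sp 1 9 (.hi 21)
 (.sp 6 4 (.sp 0 18 (.sp 4 12 (.sp 0 15 (.hi 46)
 (.sp 4 10 (.hi 52)
 (.lo 27)))
 (.lo 24))
 (.lo 24))
 (.lo 22)))
 (.lo 22)))
 (.sp 1 7 (.sp 0 16 (.hi 45)
 (.lo 26))
 (.lo 23)))
 (.lo 33))
 (.lo 33))
 (.lo 20)))
 (.sp 5 6 (.sp 4 13 (.sp 0 18 (.hi 37)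
 (.sp 2 11 (.sp 4 12 (.hi 38)
 (.lo 24))
 (.lo 24)))
 (.lo 23))
 (.lo 18)))
 (.lo 31))
 (.lo 31))
 (.lo 30))
 (.lo 30)))
 (.lo 30))
 (.lo 30))
 (.lo 30)))
 (.lo 30)))
 (.lo 19))
 (.lo 19))
 (.lo 19))
 (.lo 17)))
 (.lo 31))))
 (.lo 16)))
 (.sp 3 5 (.sp 0 11 (.sp 6 10 (.sp 3 4 (.hi 16)
 (.sp 5 23 (.sp 2 17 (.hi 29)
 (.lo 31))
 (.lo 31)))
 (.sp 1 12 (.sp 3 2 (.sp 4 22 (.sp 5 23 (.sp 2 17 (.sp 0 4 (.hi 29)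
 (.sp 2 13 (.sp 0 9 (.sp 3 1 (.hi 19)
 (.sp 6 22 (.sp 5 16 (.hi 32)
 (.sp 0 8 (.sp 1 10 (.hi 20)
 (.sp 4 15 (.sp 2 11 (.sp 0 6 (.sp 6 17 (.hi 35)
 (.lo 25))
 (.lo 22))
 (.lo 21))
 (.lo 21)))
 (.lo 22)))
 (.lo 33)))
 (.sp 1 10 (.sp 2 11 (.sp 5 16 (.sp 4 15 (.hi 34)
 (.sp 1 9 (.sp 6 17 (.hi 35)
 (.lo 23))
 (.lo 21)))
 (.lo 22))
 (.lo 22))
 (.lo 20)))
 (.sp 1 10 (.sp 0 8 (.hi 20)
 (.lo 22))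
 (.lo 21))))
 (.lo 31))
 (.lo 31))
 (.lo 31))
 (.lo 18))
 (.lo 18)))
 (.lo 17))
 (.lo 15))))
 (.lo 13))))))

theorem run_3_7 : run 7 3 52 9007199254740841 tr_3_7 = true := by decide +kernel

/-- search tree -/
def tr_3_8 : Tr :=
 (.sp 6 2 (.hi 10)
 (.sp 7 3 (.hi 11)
 (.sp 2 6 (.hi 14)
 (.sp 3 7 (.hi 15)
 (.sp 4 8 (.hi 16)
 (.sp 5 9 (.hi 17)
 (.sp 6 10 (.sp 7 11 (.sp 0 4 (.hi 28)
 (.sp 1 5 (.hi 29)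
 (.sp 2 22 (.sp 0 12 (.sp 6 8 (.hi 20)
 (.sp 5 14 (.hi 28)
 (.sp 4 10 (.hi 30)
 (.sp 1 21 (.sp 1 13 (.sp 7 9 (.hi 21)
 (.sp 2 14 (.sp 0 10 (.sp 3 15 (.hi 37)
 (.sp 2 12 (.sp 4 16 (.hi 24)
 (.lo 26))
 (.lo 25)))
 (.lo 22))
 (.lo 22)))
 (.sp 7 9 (.sp 2 14 (.sp 0 10 (.sp 7 8 (.hi 22)
 (.sp 3 15 (.hi 37)
 (.sp 2 12 (.sp 4 16 (.hi 24)
 (.lo 26))
 (.lo 25))))
 (.sp 3 15 (.sp 4 16 (.hi 34)
 (.lo 27))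
 (.lo 23)))
 (.sp 4 16 (.sp 3 20 (.hi 34)
 (.lo 38))
 (.lo 24)))
 (.lo 21)))
 (.lo 31)))))
 (.sp 6 8 (.sp 7 9 (.sp 1 13 (.hi 21)
 (.sp 2 14 (.sp 7 8 (.sp 3 15 (.sp 4 16 (.sp 2 12 (.hi 24)
 (.sp 5 17 (.sp 4 14 (.sp 1 15 (.hi 35)
 (.sp 0 28 (.sp 3 13 (.sp 7 5 (.hi 25)
 (.sp 3 12 (.sp 0 22 (.sp 1 21 (.hi 56)
 (.sp 5 14 (.sp 0 20 (.hi 28)
 (.sp 4 10 (.hi 50)
 (.lo 31)))
 (.lo 32)))
 (.lo 42))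
 (.lo 26)))
 (.sp 7 4 (.sp 1 21 (.sp 0 22 (.hi 56)
 (.lo 42))
 (.lo 29))
 (.lo 26)))
 (.lo 36)))
 (.lo 27))
 (.lo 27)))
 (.lo 27))
 (.lo 23))
 (.lo 22))
 (.lo 22)))
 (.lo 22))
 (.lo 20)))
 (.lo 33))))
 (.lo 19))
 (.lo 18))))))))

theorem run_3_8 : run 8 3 56 144115188075855057 tr_3_8 = true := by decide +kernel

/-- search tree -/
def tr_3_9 : Tr :=
 (.sp 7 2 (.hi 12)
 (.sp 8 3 (.hi 13)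
 (.sp 3 7 (.hi 17)
 (.sp 4 8 (.hi 18)
 (.sp 5 9 (.hi 19)
 (.sp 6 10 (.hi 20)
 (.sp 7 11 (.sp 8 12 (.sp 7 9 (.sp 4 17 (.hi 27)
 (.sp 2 13 (.hi 27)
 (.sp 1 11 (.hi 27)
 (.sp 8 10 (.sp 1 14 (.hi 24)
 (.sp 7 8 (.hi 24)
 (.sp 3 16 (.sp 8 9 (.sp 5 18 (.sp 3 14 (.hi 28)
 (.sp 6 19 (.sp 1 23 (.hi 33)
 (.sp 0 14 (.hi 40)
 (.sp 0 22 (.hi 41)
 (.sp 6 16 (.sp 5 11 (.sp 2 17 (.hi 41)
 (.sp 1 32 (.hi 58)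
 (.lo 42)))
 (.lo 35))
 (.lo 32)))))
 (.lo 29)))
 (.lo 30))
 (.lo 30))
 (.lo 26))))
 (.lo 30)))))
 (.lo 23))
 (.lo 22))
 (.lo 21))))))))

theorem run_3_9 : run 9 3 58 576460752303157665 tr_3_9 = true := by decide +kernel

/-- search tree -/
def tr_3_10 : Tr :=
 (.sp 8 2 (.hi 14)
 (.sp 9 3 (.hi 15)
 (.sp 4 8 (.hi 20)
 (.sp 5 9 (.hi 21)
 (.sp 6 10 (.hi 22)
 (.sp 7 11 (.hi 23)
 (.sp 8 12 (.sp 9 13 (.sp 8 10 (.sp 3 17 (.hi 29)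
 (.sp 4 18 (.hi 30)
 (.sp 2 14 (.hi 30)
 (.sp 5 19 (.hi 31)
 (.sp 9 11 (.sp 8 9 (.hi 27)
 (.sp 7 21 (.sp 9 4 (.sp 6 17 (.sp 2 26 (.hi 38)
 (.sp 5 29 (.sp 4 26 (.sp 0 24 (.hi 46)
 (.sp 7 18 (.sp 0 34 (.hi 46)
 (.sp 1 35 (.hi 47)
 (.sp 2 34 (.sp 5 20 (.sp 3 25 (.sp 7 13 (.hi 41)
 (.sp 3 24 (.hi 70)
 (.lo 42)))
 (.lo 68))
 (.lo 50))
 (.lo 50))))
 (.lo 36)))
 (.lo 43))
 (.lo 43)))
 (.lo 35))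
 (.lo 34))
 (.lo 33)))
 (.lo 34))))))
 (.lo 26))
 (.lo 25))
 (.lo 24))))))))

theorem run_3_10 : run 10 3 70 2361183241434819445569 tr_3_10 = true := by decide +kernel

/-- search tree -/
def tr_3_11 : Tr :=
 (.sp 9 2 (.hi 16)
 (.sp 10 3 (.hi 17)
 (.sp 5 9 (.hi 23)
 (.sp 6 10 (.hi 24)
 (.sp 7 11 (.hi 25)
 (.sp 8 12 (.hi 26)
 (.sp 9 11 (.sp 10 12 (.sp 9 10 (.hi 30)
 (.sp 10 11 (.sp 3 18 (.hi 32)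
 (.sp 4 19 (.hi 33)
 (.sp 5 20 (.hi 34)
 (.sp 6 21 (.hi 35)
 (.sp 10 4 (.sp 7 19 (.sp 8 20 (.sp 3 29 (.hi 43)
 (.sp 4 30 (.hi 44)
 (.sp 5 31 (.sp 7 13 (.hi 45)
 (.sp 5 29 (.sp 2 39 (.hi 53)
 (.sp 3 38 (.sp 6 22 (.sp 4 39 (.sp 2 50 (.hi 78)
 (.lo 67))
 (.lo 57))
 (.lo 56))
 (.lo 56)))
 (.lo 47)))
 (.lo 47))))
 (.lo 40))
 (.lo 39))
 (.lo 38))))))
 (.lo 31)))
 (.lo 31))
 (.lo 29))))))))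

theorem run_3_11 : run 11 3 78 604462909807305967994497 tr_3_11 = true := by decide +kernel

/-- search tree -/
def tr_3_12 : Tr :=
 (.sp 10 2 (.hi 18)
 (.sp 11 3 (.hi 19)
 (.sp 7 11 (.hi 27)
 (.sp 8 12 (.hi 28)
 (.sp 9 13 (.hi 29)
 (.sp 10 12 (.sp 11 13 (.sp 10 11 (.hi 33)
 (.sp 4 20 (.hi 36)
 (.sp 5 21 (.hi 37)
 (.sp 6 22 (.hi 38)
 (.sp 7 23 (.hi 39)
 (.sp 11 4 (.sp 8 21 (.sp 9 22 (.sp 4 32 (.hi 48)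
 (.sp 5 33 (.hi 49)
 (.sp 6 34 (.sp 8 14 (.hi 50)
 (.sp 6 32 (.sp 3 43 (.hi 59)
 (.sp 4 42 (.sp 7 24 (.sp 5 43 (.sp 3 55 (.hi 86)
 (.lo 74))
 (.lo 63))
 (.lo 62))
 (.lo 62)))
 (.lo 52)))
 (.lo 52))))
 (.lo 44))
 (.lo 43))
 (.lo 42)))))))
 (.lo 34))
 (.lo 32)))))))

theorem run_3_12 : run 12 3 86 154742504910390852975332609 tr_3_12 = true := by decide +kernel

/-- search tree -/
def tr_3_13 : Tr :=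
 (.sp 11 2 (.hi 20)
 (.sp 12 3 (.hi 21)
 (.sp 8 12 (.hi 30)
 (.sp 9 13 (.hi 31)
 (.sp 10 14 (.hi 32)
 (.sp 11 13 (.sp 12 14 (.sp 11 12 (.hi 36)
 (.sp 5 22 (.hi 40)
 (.sp 6 23 (.hi 41)
 (.sp 7 24 (.hi 42)
 (.sp 8 25 (.hi 43)
 (.sp 12 4 (.sp 9 23 (.sp 10 24 (.sp 5 35 (.hi 53)
 (.sp 6 36 (.hi 54)
 (.sp 7 37 (.sp 9 15 (.hi 55)
 (.sp 7 35 (.sp 4 47 (.hi 65)
 (.sp 5 46 (.sp 8 26 (.sp 6 47 (.sp 4 60 (.hi 94)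
 (.lo 81))
 (.lo 69))
 (.lo 68))
 (.lo 68)))
 (.lo 57)))
 (.lo 57))))
 (.lo 48))
 (.lo 47))
 (.lo 46)))))))
 (.lo 37))
 (.lo 35)))))))

theorem run_3_13 : run 13 3 94 39614081220225166000098646529 tr_3_13 = true := by decide +kernel

/-- search tree -/
def tr_3_14 : Tr :=
 (.sp 12 2 (.hi 22)
 (.sp 13 3 (.hi 23)
 (.sp 9 13 (.hi 33)
 (.sp 10 14 (.hi 34)
 (.sp 11 15 (.hi 35)
 (.sp 12 14 (.sp 13 15 (.sp 12 13 (.hi 39)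
 (.sp 6 24 (.hi 44)
 (.sp 7 25 (.hi 45)
 (.sp 8 26 (.hi 46)
 (.sp 9 27 (.hi 47)
 (.sp 13 4 (.sp 10 25 (.sp 11 26 (.sp 6 38 (.hi 58)
 (.sp 7 39 (.hi 59)
 (.sp 8 38 (.sp 5 51 (.hi 71)
 (.sp 6 50 (.sp 9 28 (.sp 7 51 (.sp 4 64 (.hi 84)
 (.sp 5 65 (.hi 102)
 (.lo 87)))
 (.lo 75))
 (.lo 74))
 (.lo 74)))
 (.lo 62))))
 (.lo 52))
 (.lo 51))
 (.lo 50)))))))
 (.lo 40))
 (.lo 38)))))))

theorem run_3_14 : run 14 3 102 10141204798283555880675512955905 tr_3_14 = true := by decide +kernel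

/-- search tree -/
def tr_3_15 : Tr :=
 (.sp 13 2 (.hi 24)
 (.sp 14 3 (.hi 25)
 (.sp 10 14 (.hi 36)
 (.sp 11 15 (.hi 37)
 (.sp 12 16 (.hi 38)
 (.sp 13 15 (.sp 14 16 (.sp 13 14 (.hi 42)
 (.sp 7 26 (.hi 48)
 (.sp 8 27 (.hi 49)
 (.sp 9 28 (.hi 50)
 (.sp 10 29 (.hi 51)
 (.sp 14 4 (.sp 11 27 (.sp 12 28 (.sp 7 41 (.hi 63)
 (.sp 8 42 (.hi 64)
 (.sp 9 41 (.sp 6 55 (.hi 77)
 (.sp 7 54 (.sp 10 30 (.sp 8 55 (.sp 5 69 (.hi 91)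
 (.sp 6 70 (.hi 110)
 (.lo 94)))
 (.lo 81))
 (.lo 80))
 (.lo 80)))
 (.lo 67))))
 (.lo 56))
 (.lo 55))
 (.lo 54)))))))
 (.lo 43))
 (.lo 41)))))))

theorem run_3_15 : run 15 3 110 2596147191062904710930852114098177 tr_3_15 = true := by decide +kernel

/-- search tree -/
def tr_3_16 : Tr :=
 (.sp 14 2 (.hi 26)
 (.sp 15 3 (.hi 27)
 (.sp 11 15 (.hi 39)
 (.sp 12 16 (.hi 40)
 (.sp 13 17 (.hi 41)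
 (.sp 14 16 (.sp 15 17 (.sp 14 15 (.hi 45)
 (.sp 8 28 (.hi 52)
 (.sp 9 29 (.hi 53)
 (.sp 10 30 (.hi 54)
 (.sp 11 31 (.hi 55)
 (.sp 15 4 (.sp 12 29 (.sp 13 30 (.sp 8 44 (.hi 68)
 (.sp 9 45 (.hi 69)
 (.sp 10 44 (.sp 7 59 (.hi 83)
 (.sp 8 58 (.sp 11 32 (.sp 9 59 (.sp 6 74 (.hi 98)
 (.sp 7 75 (.hi 118)
 (.lo 101)))
 (.lo 87))
 (.lo 86))
 (.lo 86)))
 (.lo 72))))
 (.lo 60))
 (.lo 59))
 (.lo 58)))))))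
 (.lo 46))
 (.lo 44)))))))

theorem run_3_16 : run 16 3 118 659421463331301106869340511745921025 tr_3_16 = true := by decide +kernel

/-- search tree -/
def tr_3_17 : Tr :=
 (.sp 15 2 (.hi 28)
 (.sp 16 3 (.hi 29)
 (.sp 12 16 (.hi 42)
 (.sp 13 17 (.hi 43)
 (.sp 14 18 (.hi 44)
 (.sp 15 17 (.sp 16 18 (.sp 15 16 (.hi 48)
 (.sp 9 30 (.hi 56)
 (.sp 10 31 (.hi 57)
 (.sp 11 32 (.hi 58)
 (.sp 12 33 (.hi 59)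
 (.sp 16 4 (.sp 13 31 (.sp 14 32 (.sp 9 47 (.hi 73)
 (.sp 10 48 (.hi 74)
 (.sp 11 47 (.sp 8 63 (.hi 89)
 (.sp 9 62 (.sp 12 34 (.sp 10 63 (.sp 7 79 (.hi 105)
 (.sp 8 80 (.hi 126)
 (.lo 108)))
 (.lo 93))
 (.lo 92))
 (.lo 92)))
 (.lo 77))))
 (.lo 64))
 (.lo 63))
 (.lo 62)))))))
 (.lo 49))
 (.lo 47)))))))

theorem run_3_17 : run 17 3 126 168147305971375778524246625421717774337 tr_3_17 = true := by decide +kernel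

/-- search tree -/
def tr_3_18 : Tr :=
 (.sp 16 2 (.hi 30)
 (.sp 17 3 (.hi 31)
 (.sp 13 17 (.hi 45)
 (.sp 14 18 (.hi 46)
 (.sp 15 19 (.hi 47)
 (.sp 16 18 (.sp 17 19 (.sp 16 17 (.hi 51)
 (.sp 10 32 (.hi 60)
 (.sp 11 33 (.hi 61)
 (.sp 12 34 (.hi 62)
 (.sp 13 35 (.hi 63)
 (.sp 17 4 (.sp 14 33 (.sp 15 34 (.sp 10 50 (.hi 78)
 (.sp 11 51 (.hi 79)
 (.sp 12 50 (.sp 9 67 (.hi 95)
 (.sp 10 66 (.sp 13 36 (.sp 11 67 (.sp 8 84 (.hi 112)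
 (.sp 9 85 (.hi 134)
 (.lo 115)))
 (.lo 99))
 (.lo 98))
 (.lo 98)))
 (.lo 82))))
 (.lo 68))
 (.lo 67))
 (.lo 66)))))))
 (.lo 52))
 (.lo 50)))))))

theorem run_3_18 : run 18 3 134 42960643955912185313630026417235824951297 tr_3_18 = true := by decide +kernel

/-- search tree -/
def tr_3_19 : Tr :=
 (.sp 17 2 (.hi 32)
 (.sp 18 3 (.hi 33)
 (.sp 14 18 (.hi 48)
 (.sp 15 19 (.hi 49)
 (.sp 16 20 (.hi 50)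
 (.sp 17 19 (.sp 18 20 (.sp 17 18 (.hi 54)
 (.sp 11 34 (.hi 64)
 (.sp 12 35 (.hi 65)
 (.sp 13 36 (.hi 66)
 (.sp 14 37 (.hi 67)
 (.sp 18 4 (.sp 15 35 (.sp 16 36 (.sp 11 53 (.hi 83)
 (.sp 12 54 (.hi 84)
 (.sp 13 53 (.sp 10 71 (.hi 101)
 (.sp 11 70 (.sp 14 38 (.sp 12 71 (.sp 9 89 (.hi 119)
 (.sp 10 90 (.hi 142)
 (.lo 122)))
 (.lo 105))
 (.lo 104))
 (.lo 104)))
 (.lo 87))))
 (.lo 72))
 (.lo 71))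
 (.lo 70)))))))
 (.lo 55))
 (.lo 53)))))))

theorem run_3_19 : run 19 3 142 10987036419293419642399828708006258543067137 tr_3_19 = true := by decide +kernel

/-- search tree -/
def tr_3_20 : Tr :=
 (.sp 18 2 (.hi 34)
 (.sp 19 3 (.hi 35)
 (.sp 15 19 (.hi 51)
 (.sp 16 20 (.hi 52)
 (.sp 17 21 (.hi 53)
 (.sp 18 20 (.sp 19 21 (.sp 18 19 (.hi 57)
 (.sp 12 36 (.hi 68)
 (.sp 13 37 (.hi 69)
 (.sp 14 38 (.hi 70)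
 (.sp 15 39 (.hi 71)
 (.sp 19 4 (.sp 16 37 (.sp 17 38 (.sp 12 56 (.hi 88)
 (.sp 13 57 (.hi 89)
 (.sp 14 56 (.sp 11 75 (.hi 107)
 (.sp 12 74 (.sp 15 40 (.sp 13 75 (.sp 10 94 (.hi 126)
 (.sp 11 95 (.hi 150)
 (.lo 129)))
 (.lo 111))
 (.lo 110))
 (.lo 110)))
 (.lo 92))))
 (.lo 76))
 (.lo 75))
 (.lo 74)))))))
 (.lo 58))
 (.lo 56)))))))

theorem run_3_20 : run 20 3 150 2811287607848079693809326020042230376994504705 tr_3_20 = true := by decide +kernel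

/-- search tree -/
def tr_3_21 : Tr :=
 (.sp 19 2 (.hi 36)
 (.sp 20 3 (.hi 37)
 (.sp 16 20 (.hi 54)
 (.sp 17 21 (.hi 55)
 (.sp 18 22 (.hi 56)
 (.sp 19 21 (.sp 20 22 (.sp 19 20 (.hi 60)
 (.sp 13 38 (.hi 72)
 (.sp 14 39 (.hi 73)
 (.sp 15 40 (.hi 74)
 (.sp 16 41 (.hi 75)
 (.sp 20 4 (.sp 17 39 (.sp 18 40 (.sp 13 59 (.hi 93)
 (.sp 14 60 (.hi 94)
 (.sp 15 59 (.sp 12 79 (.hi 113)
 (.sp 13 78 (.sp 16 42 (.sp 14 79 (.sp 11 99 (.hi 133)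
 (.sp 12 100 (.hi 158)
 (.lo 136)))
 (.lo 117))
 (.lo 116))
 (.lo 116)))
 (.lo 97))))
 (.lo 80))
 (.lo 79))
 (.lo 78)))))))
 (.lo 61))
 (.lo 59)))))))

theorem run_3_21 : run 21 3 158 719511232281406146656309550683678841338490126337 tr_3_21 = true := by decide +kernel

/-- search tree -/
def tr_3_22 : Tr :=
 (.sp 20 2 (.hi 38)
 (.sp 21 3 (.hi 39)
 (.sp 17 21 (.hi 57)
 (.sp 18 22 (.hi 58)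
 (.sp 19 23 (.hi 59)
 (.sp 20 22 (.sp 21 23 (.sp 20 21 (.hi 63)
 (.sp 14 40 (.hi 76)
 (.sp 15 41 (.hi 77)
 (.sp 16 42 (.hi 78)
 (.sp 17 43 (.hi 79)
 (.sp 21 4 (.sp 18 41 (.sp 19 42 (.sp 14 62 (.hi 98)
 (.sp 15 63 (.hi 99)
 (.sp 16 62 (.sp 13 83 (.hi 119)
 (.sp 14 82 (.sp 17 44 (.sp 15 83 (.sp 12 104 (.hi 140)
 (.sp 13 105 (.hi 166)
 (.lo 143)))
 (.lo 123))
 (.lo 122))
 (.lo 122)))
 (.lo 102))))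
 (.lo 84))
 (.lo 83))
 (.lo 82)))))))
 (.lo 64))
 (.lo 62)))))))

theorem run_3_22 : run 22 3 166 184172040878423678083777204167766207906678201122817 tr_3_22 = true := by decide +kernel

/-- search tree -/
def tr_3_23 : Tr :=
 (.sp 21 2 (.hi 40)
 (.sp 22 3 (.hi 41)
 (.sp 18 22 (.hi 60)
 (.sp 19 23 (.hi 61)
 (.sp 20 24 (.hi 62)
 (.sp 21 23 (.sp 22 24 (.sp 21 22 (.hi 66)
 (.sp 15 42 (.hi 80)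
 (.sp 16 43 (.hi 81)
 (.sp 17 44 (.hi 82)
 (.sp 18 45 (.hi 83)
 (.sp 22 4 (.sp 19 43 (.sp 20 44 (.sp 15 65 (.hi 103)
 (.sp 16 66 (.hi 104)
 (.sp 17 65 (.sp 14 87 (.hi 125)
 (.sp 15 86 (.sp 18 46 (.sp 16 87 (.sp 13 109 (.hi 147)
 (.sp 14 110 (.hi 174)
 (.lo 150)))
 (.lo 129))
 (.lo 128))
 (.lo 128)))
 (.lo 107))))
 (.lo 88))
 (.lo 87))
 (.lo 86)))))))
 (.lo 67))
 (.lo 65)))))))

theorem run_3_23 : run 23 3 174 47145119638962668861822888359046752432151677641424897 tr_3_23 = true := by decide +kernel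

/-- search tree -/
def tr_3_24 : Tr :=
 (.sp 22 2 (.hi 42)
 (.sp 23 3 (.hi 43)
 (.sp 19 23 (.hi 63)
 (.sp 20 24 (.hi 64)
 (.sp 21 25 (.hi 65)
 (.sp 22 24 (.sp 23 25 (.sp 22 23 (.hi 69)
 (.sp 16 44 (.hi 84)
 (.sp 17 45 (.hi 85)
 (.sp 18 46 (.hi 86)
 (.sp 19 47 (.hi 87)
 (.sp 23 4 (.sp 20 45 (.sp 21 46 (.sp 16 68 (.hi 108)
 (.sp 17 69 (.hi 109)
 (.sp 18 68 (.sp 15 91 (.hi 131)
 (.sp 16 90 (.sp 19 48 (.sp 17 91 (.sp 14 114 (.hi 154)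
 (.sp 15 115 (.hi 182)
 (.lo 157)))
 (.lo 135))
 (.lo 134))
 (.lo 134)))
 (.lo 112))))
 (.lo 92))
 (.lo 91))
 (.lo 90)))))))
 (.lo 70))
 (.lo 68)))))))

theorem run_3_24 : run 24 3 182 12068776505924363689432923811147799967716867724498960385 tr_3_24 = true := by decide +kernel

/-- search tree -/
def tr_3_25 : Tr :=
 (.sp 23 2 (.hi 44)
 (.sp 24 3 (.hi 45)
 (.sp 20 24 (.hi 66)
 (.sp 21 25 (.hi 67)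
 (.sp 22 26 (.hi 68)
 (.sp 23 25 (.sp 24 26 (.sp 23 24 (.hi 72)
 (.sp 17 46 (.hi 88)
 (.sp 18 47 (.hi 89)
 (.sp 19 48 (.hi 90)
 (.sp 20 49 (.hi 91)
 (.sp 24 4 (.sp 21 47 (.sp 22 48 (.sp 17 71 (.hi 113)
 (.sp 18 72 (.hi 114)
 (.sp 19 71 (.sp 16 95 (.hi 137)
 (.sp 17 94 (.sp 20 50 (.sp 18 95 (.sp 15 119 (.hi 161)
 (.sp 16 120 (.hi 190)
 (.lo 164)))
 (.lo 141))
 (.lo 140))
 (.lo 140)))
 (.lo 117))))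
 (.lo 96))
 (.lo 95))
 (.lo 94)))))))
 (.lo 73))
 (.lo 71)))))))

theorem run_3_25 : run 25 3 190 3089558897949707622101522229456419661821362345454270939137 tr_3_25 = true := by decide +kernel

/-- search tree -/
def tr_3_26 : Tr :=
 (.sp 24 2 (.hi 46)
 (.sp 25 3 (.hi 47)
 (.sp 21 25 (.hi 69)
 (.sp 22 26 (.hi 70)
 (.sp 23 27 (.hi 71)
 (.sp 24 26 (.sp 25 27 (.sp 24 25 (.hi 75)
 (.sp 18 48 (.hi 92)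
 (.sp 19 49 (.hi 93)
 (.sp 20 50 (.hi 94)
 (.sp 21 51 (.hi 95)
 (.sp 25 4 (.sp 22 49 (.sp 23 50 (.sp 18 74 (.hi 118)
 (.sp 19 75 (.hi 119)
 (.sp 20 74 (.sp 17 99 (.hi 143)
 (.sp 18 98 (.sp 21 52 (.sp 19 99 (.sp 16 124 (.hi 168)
 (.sp 17 125 (.hi 198)
 (.lo 171)))
 (.lo 147))
 (.lo 146))
 (.lo 146)))
 (.lo 122))))
 (.lo 100))
 (.lo 99))
 (.lo 98)))))))
 (.lo 76))
 (.lo 74)))))))

theorem run_3_26 : run 26 3 198 790920948266832142194980201427844305516580321549321959899137 tr_3_26 = true := by decide +kernel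

/-- search tree -/
def tr_3_27 : Tr :=
 (.sp 25 2 (.hi 48)
 (.sp 26 3 (.hi 49)
 (.sp 22 26 (.hi 72)
 (.sp 23 27 (.hi 73)
 (.sp 24 28 (.hi 74)
 (.sp 25 27 (.sp 26 28 (.sp 25 26 (.hi 78)
 (.sp 19 50 (.hi 96)
 (.sp 20 51 (.hi 97)
 (.sp 21 52 (.hi 98)
 (.sp 22 53 (.hi 99)
 (.sp 26 4 (.sp 23 51 (.sp 24 52 (.sp 19 77 (.hi 123)
 (.sp 20 78 (.hi 124)
 (.sp 21 77 (.sp 18 103 (.hi 149)
 (.sp 19 102 (.sp 22 54 (.sp 20 103 (.sp 17 129 (.hi 175)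
 (.sp 18 130 (.hi 206)
 (.lo 178)))
 (.lo 153))
 (.lo 152))
 (.lo 152)))
 (.lo 127))))
 (.lo 104))
 (.lo 103))
 (.lo 102)))))))
 (.lo 79))
 (.lo 77)))))))

theorem run_3_27 : run 27 3 206 202474978166465056980668842066321127166783445787827871422611457 tr_3_27 = true := by decide +kernel

/-- search tree -/
def tr_3_28 : Tr :=
 (.sp 26 2 (.hi 50)
 (.sp 27 3 (.hi 51)
 (.sp 23 27 (.hi 75)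
 (.sp 24 28 (.hi 76)
 (.sp 25 29 (.hi 77)
 (.sp 26 28 (.sp 27 29 (.sp 26 27 (.hi 81)
 (.sp 20 52 (.hi 100)
 (.sp 21 53 (.hi 101)
 (.sp 22 54 (.hi 102)
 (.sp 23 55 (.hi 103)
 (.sp 27 4 (.sp 24 53 (.sp 25 54 (.sp 20 80 (.hi 128)
 (.sp 21 81 (.hi 129)
 (.sp 22 80 (.sp 19 107 (.hi 155)
 (.sp 20 106 (.sp 23 56 (.sp 21 107 (.sp 18 134 (.hi 182)
 (.sp 19 135 (.hi 214)
 (.lo 185)))
 (.lo 159))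
 (.lo 158))
 (.lo 158)))
 (.lo 132))))
 (.lo 108))
 (.lo 107))
 (.lo 106)))))))
 (.lo 82))
 (.lo 80)))))))

theorem run_3_28 : run 28 3 214 51833493983116148404386892683734913424949294220030053836929368065 tr_3_28 = true := by decide +kernel

/-- search tree -/
def tr_3_29 : Tr :=
 (.sp 27 2 (.hi 52)
 (.sp 28 3 (.hi 53)
 (.sp 24 28 (.hi 78)
 (.sp 25 29 (.hi 79)
 (.sp 26 30 (.hi 80)
 (.sp 27 29 (.sp 28 30 (.sp 27 28 (.hi 84)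
 (.sp 21 54 (.hi 104)
 (.sp 22 55 (.hi 105)
 (.sp 23 56 (.hi 106)
 (.sp 24 57 (.hi 107)
 (.sp 28 4 (.sp 25 55 (.sp 26 56 (.sp 21 83 (.hi 133)
 (.sp 22 84 (.hi 134)
 (.sp 23 83 (.sp 20 111 (.hi 161)
 (.sp 21 110 (.sp 24 58 (.sp 22 111 (.sp 19 139 (.hi 189)
 (.sp 20 140 (.hi 222)
 (.lo 192)))
 (.lo 165))
 (.lo 164))
 (.lo 164)))
 (.lo 137))))
 (.lo 112))
 (.lo 111))
 (.lo 110)))))))
 (.lo 85))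
 (.lo 83)))))))

theorem run_3_29 : run 29 3 222 13269361604957945818333404788261948273864677479254435619241759604737 tr_3_29 = true := by decide +kernel

/-- search tree -/
def tr_3_30 : Tr :=
 (.sp 28 2 (.hi 54)
 (.sp 29 3 (.hi 55)
 (.sp 25 29 (.hi 81)
 (.sp 26 30 (.hi 82)
 (.sp 27 31 (.hi 83)
 (.sp 28 30 (.sp 29 31 (.sp 28 29 (.hi 87)
 (.sp 22 56 (.hi 108)
 (.sp 23 57 (.hi 109)
 (.sp 24 58 (.hi 110)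
 (.sp 25 59 (.hi 111)
 (.sp 29 4 (.sp 26 57 (.sp 27 58 (.sp 22 86 (.hi 138)
 (.sp 23 87 (.hi 139)
 (.sp 24 86 (.sp 21 115 (.hi 167)
 (.sp 22 114 (.sp 25 60 (.sp 23 115 (.sp 20 144 (.hi 196)
 (.sp 21 145 (.hi 230)
 (.lo 199)))
 (.lo 171))
 (.lo 170))
 (.lo 170)))
 (.lo 142))))
 (.lo 116))
 (.lo 115))
 (.lo 114)))))))
 (.lo 88))
 (.lo 86)))))))

theorem run_3_30 : run 30 3 230 3396954925465105839689297036995226349180068238951636636772873594208257 tr_3_30 = true := by decide +kernel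

/-- search tree -/
def tr_3_31 : Tr :=
 (.sp 29 2 (.hi 56)
 (.sp 30 3 (.hi 57)
 (.sp 26 30 (.hi 84)
 (.sp 27 31 (.hi 85)
 (.sp 28 32 (.hi 86)
 (.sp 29 31 (.sp 30 32 (.sp 29 30 (.hi 90)
 (.sp 23 58 (.hi 112)
 (.sp 24 59 (.hi 113)
 (.sp 25 60 (.hi 114)
 (.sp 26 61 (.hi 115)
 (.sp 30 4 (.sp 27 59 (.sp 28 60 (.sp 23 89 (.hi 143)
 (.sp 24 90 (.hi 144)
 (.sp 25 89 (.sp 22 119 (.hi 173)
 (.sp 23 118 (.sp 26 62 (.sp 24 119 (.sp 21 149 (.hi 203)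
 (.sp 22 150 (.hi 238)
 (.lo 206)))
 (.lo 177))
 (.lo 176))
 (.lo 176)))
 (.lo 147))))
 (.lo 120))
 (.lo 119))
 (.lo 118)))))))
 (.lo 91))
 (.lo 89)))))))

theorem run_3_31 : run 31 3 238 869620250307338968032850130519107741772399958497010706356688712751906817 tr_3_31 = true := by decide +kernel

/-- search tree -/
def tr_3_32 : Tr :=
 (.sp 30 2 (.hi 58)
 (.sp 31 3 (.hi 59)
 (.sp 27 31 (.hi 87)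
 (.sp 28 32 (.hi 88)
 (.sp 29 33 (.hi 89)
 (.sp 30 32 (.sp 31 33 (.sp 30 31 (.hi 93)
 (.sp 24 60 (.hi 116)
 (.sp 25 61 (.hi 117)
 (.sp 26 62 (.hi 118)
 (.sp 27 63 (.hi 119)
 (.sp 31 4 (.sp 28 61 (.sp 29 62 (.sp 24 92 (.hi 148)
 (.sp 25 93 (.hi 149)
 (.sp 26 92 (.sp 23 123 (.hi 179)
 (.sp 24 122 (.sp 27 64 (.sp 25 123 (.sp 22 154 (.hi 210)
 (.sp 23 155 (.hi 246)
 (.lo 213)))
 (.lo 183))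
 (.lo 182))
 (.lo 182)))
 (.lo 152))))
 (.lo 124))
 (.lo 123))
 (.lo 122)))))))
 (.lo 94))
 (.lo 92)))))))

theorem run_3_32 : run 32 3 246 222622757120377594396383315025070739633267368583072384066306421925288607745 tr_3_32 = true := by decide +kernel

/-- search tree -/
def tr_3_33 : Tr :=
 (.sp 31 2 (.hi 60)
 (.sp 32 3 (.hi 61)
 (.sp 28 32 (.hi 90)
 (.sp 29 33 (.hi 91)
 (.sp 30 34 (.hi 92)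
 (.sp 31 33 (.sp 32 34 (.sp 31 32 (.hi 96)
 (.sp 25 62 (.hi 120)
 (.sp 26 63 (.hi 121)
 (.sp 27 64 (.hi 122)
 (.sp 28 65 (.hi 123)
 (.sp 32 4 (.sp 29 63 (.sp 30 64 (.sp 25 95 (.hi 153)
 (.sp 26 96 (.hi 154)
 (.sp 27 95 (.sp 24 127 (.hi 185)
 (.sp 25 126 (.sp 28 66 (.sp 26 127 (.sp 23 159 (.hi 217)
 (.sp 24 160 (.hi 254)
 (.lo 220)))
 (.lo 189))
 (.lo 188))
 (.lo 188)))
 (.lo 157))))
 (.lo 128))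
 (.lo 127))
 (.lo 126)))))))
 (.lo 97))
 (.lo 95)))))))

theorem run_3_33 : run 33 3 254 56991422372154114148620054924823043165177093797893899093802279321997343195137 tr_3_33 = true := by decide +kernel

/-- search tree -/
def tr_3_34 : Tr :=
 (.sp 32 2 (.hi 62)
 (.sp 33 3 (.hi 63)
 (.sp 29 33 (.hi 93)
 (.sp 30 34 (.hi 94)
 (.sp 31 35 (.hi 95)
 (.sp 32 34 (.sp 33 35 (.sp 32 33 (.hi 99)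
 (.sp 26 64 (.hi 124)
 (.sp 27 65 (.hi 125)
 (.sp 28 66 (.hi 126)
 (.sp 29 67 (.hi 127)
 (.sp 33 4 (.sp 30 65 (.sp 31 66 (.sp 26 98 (.hi 158)
 (.sp 27 99 (.hi 159)
 (.sp 28 98 (.sp 25 131 (.hi 191)
 (.sp 26 130 (.sp 29 68 (.sp 27 131 (.sp 24 164 (.hi 224)
 (.sp 25 165 (.hi 262)
 (.lo 227)))
 (.lo 195))
 (.lo 194))
 (.lo 194)))
 (.lo 162))))
 (.lo 132))
 (.lo 131))
 (.lo 130)))))))
 (.lo 100))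
 (.lo 98)))))))

theorem run_3_34 : run 34 3 262 14589803685586646897003607475028689213957391434229994351069448702207007366578177 tr_3_34 = true := by decide +kernel

/-- search tree -/
def tr_3_35 : Tr :=
 (.sp 33 2 (.hi 64)
 (.sp 34 3 (.hi 65)
 (.sp 30 34 (.hi 96)
 (.sp 31 35 (.hi 97)
 (.sp 32 36 (.hi 98)
 (.sp 33 35 (.sp 34 36 (.sp 33 34 (.hi 102)
 (.sp 27 66 (.hi 128)
 (.sp 28 67 (.hi 129)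
 (.sp 29 68 (.hi 130)
 (.sp 30 69 (.hi 131)
 (.sp 34 4 (.sp 31 67 (.sp 32 68 (.sp 27 101 (.hi 163)
 (.sp 28 102 (.hi 164)
 (.sp 29 101 (.sp 26 135 (.hi 197)
 (.sp 27 134 (.sp 30 70 (.sp 28 135 (.sp 25 169 (.hi 231)
 (.sp 26 170 (.hi 270)
 (.lo 234)))
 (.lo 201))
 (.lo 200))
 (.lo 200)))
 (.lo 167))))
 (.lo 136))
 (.lo 135))
 (.lo 134)))))))
 (.lo 103))
 (.lo 101)))))))

theorem run_3_35 : run 35 3 270 3734989686974526400962711780070048197770668478984914365719069878568628531260030977 tr_3_35 = true := by decide +kernel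

/-- search tree -/
def tr_3_36 : Tr :=
 (.sp 34 2 (.hi 66)
 (.sp 35 3 (.hi 67)
 (.sp 31 35 (.hi 99)
 (.sp 32 36 (.hi 100)
 (.sp 33 37 (.hi 101)
 (.sp 34 36 (.sp 35 37 (.sp 34 35 (.hi 105)
 (.sp 28 68 (.hi 132)
 (.sp 29 69 (.hi 133)
 (.sp 30 70 (.hi 134)
 (.sp 31 71 (.hi 135)
 (.sp 35 4 (.sp 32 69 (.sp 33 70 (.sp 28 104 (.hi 168)
 (.sp 29 105 (.hi 169)
 (.sp 30 104 (.sp 27 139 (.hi 203)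
 (.sp 28 138 (.sp 31 72 (.sp 29 139 (.sp 26 174 (.hi 238)
 (.sp 27 175 (.hi 278)
 (.lo 241)))
 (.lo 207))
 (.lo 206))
 (.lo 206)))
 (.lo 172))))
 (.lo 140))
 (.lo 139))
 (.lo 138)))))))
 (.lo 106))
 (.lo 104)))))))

theorem run_3_36 : run 36 3 278 956157352628914892764526855816872240636427337989776662636196403653671474690653159425 tr_3_36 = true := by decide +kernel

/-- search tree -/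
def tr_3_37 : Tr :=
 (.sp 35 2 (.hi 68)
 (.sp 36 3 (.hi 69)
 (.sp 32 36 (.hi 102)
 (.sp 33 37 (.hi 103)
 (.sp 34 38 (.hi 104)
 (.sp 35 37 (.sp 36 38 (.sp 35 36 (.hi 108)
 (.sp 29 70 (.hi 136)
 (.sp 30 71 (.hi 137)
 (.sp 31 72 (.hi 138)
 (.sp 32 73 (.hi 139)
 (.sp 36 4 (.sp 33 71 (.sp 34 72 (.sp 29 107 (.hi 173)
 (.sp 30 108 (.hi 174)
 (.sp 31 107 (.sp 28 143 (.hi 209)
 (.sp 29 142 (.sp 32 74 (.sp 30 143 (.sp 27 179 (.hi 245)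
 (.sp 28 180 (.hi 286)
 (.lo 248)))
 (.lo 213))
 (.lo 212))
 (.lo 212)))
 (.lo 177))))
 (.lo 144))
 (.lo 143))
 (.lo 142)))))))
 (.lo 109))
 (.lo 107)))))))

theorem run_3_37 : run 37 3 286 244776281346722037735047196512063951441112588834223418440690172645346097193582472462337 tr_3_37 = true := by decide +kernel

end Pool.Agent.P.MP_e9218d_nt
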