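import Pool.Agent.P.MP_e9218d_nt.SmallChk

set_option maxRecDepth 100000

namespace Pool.Agent.P.MP_e9218d_nt

/-- search tree -/
def tr_4_8 : Tr :=
 (.sp 6 2 (.hi 10)
 (.sp 7 3 (.hi 11)
 (.sp 0 4 (.sp 5 9 (.hi 17)
 (.sp 3 5 (.hi 17)
 (.sp 2 3 (.hi 17)
 (.sp 4 8 (.sp 2 4 (.hi 16)
 (.sp 6 10 (.sp 4 6 (.sp 7 11 (.sp 4 5 (.sp 6 8 (.sp 4 4 (.sp 2 6 (.sp 0 2 (.hi 14)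
 (.sp 3 7 (.sp 1 10 (.hi 24)
 (.sp 6 4 (.hi 24)
 (.sp 5 17 (.sp 7 5 (.hi 25)
 (.sp 5 15 (.sp 1 13 (.sp 4 1 (.hi 39)
 (.sp 7 9 (.sp 6 7 (.hi 21)
 (.sp 4 2 (.hi 37)
 (.lo 22)))
 (.lo 27)))
 (.sp 7 9 (.sp 6 7 (.sp 4 1 (.hi 41)
 (.sp 7 8 (.sp 7 7 (.sp 4 2 (.hi 38)
 (.sp 6 6 (.sp 1 25 (.sp 1 21 (.hi 43)
 (.sp 5 13 (.sp 0 3 (.hi 57)
 (.lo 29))
 (.lo 29)))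
 (.lo 41))
 (.lo 22)))
 (.lo 23))
 (.lo 23)))
 (.lo 21))
 (.lo 21)))
 (.lo 28)))
 (.lo 28))))
 (.lo 15)))
 (.sp 0 2 (.sp 3 15 (.sp 3 12 (.sp 3 11 (.sp 3 7 (.sp 0 1 (.hi 15)
 (.sp 1 5 (.hi 29)
 (.sp 1 9 (.hi 31)
 (.sp 2 18 (.sp 1 13 (.sp 5 13 (.hi 35)
 (.sp 2 11 (.sp 2 10 (.sp 6 6 (.hi 26)
 (.sp 7 9 (.sp 4 2 (.sp 5 17 (.hi 41)
 (.lo 28))
 (.lo 22))
 (.lo 22)))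
 (.lo 33))
 (.lo 33)))
 (.sp 7 9 (.sp 6 7 (.sp 2 14 (.sp 6 6 (.sp 2 10 (.hi 26)
 (.sp 7 4 (.hi 26)
 (.lo 30)))
 (.sp 4 2 (.sp 5 17 (.sp 1 17 (.hi 37)
 (.sp 5 13 (.sp 2 7 (.sp 7 7 (.hi 29)
 (.lo 40))
 (.lo 33))
 (.lo 33)))
 (.lo 28))
 (.lo 22)))
 (.sp 7 8 (.sp 6 6 (.sp 4 2 (.hi 38)
 (.lo 22))
 (.lo 22))
 (.lo 22)))
 (.lo 21))
 (.lo 21)))
 (.lo 34)))))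
 (.sp 0 1 (.sp 1 9 (.hi 31)
 (.sp 2 18 (.sp 1 13 (.sp 5 11 (.hi 31)
 (.sp 2 14 (.sp 2 10 (.sp 6 6 (.hi 26)
 (.sp 7 8 (.sp 4 2 (.sp 5 17 (.sp 5 15 (.sp 7 7 (.hi 27)
 (.sp 3 9 (.sp 5 13 (.hi 33)
 (.sp 2 7 (.sp 1 11 (.hi 38)
 (.sp 4 1 (.hi 45)
 (.lo 23)))
 (.lo 29)))
 (.lo 30)))
 (.lo 28))
 (.lo 28))
 (.lo 22))
 (.lo 22)))
 (.lo 32))
 (.lo 32)))
 (.sp 7 9 (.sp 6 7 (.sp 2 14 (.sp 7 8 (.sp 6 6 (.sp 4 2 (.hi 22)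
 (.sp 7 7 (.sp 2 10 (.hi 26)
 (.sp 5 15 (.hi 27)
 (.lo 28)))
 (.lo 23)))
 (.sp 4 2 (.sp 5 17 (.sp 5 15 (.sp 7 7 (.hi 27)
 (.sp 1 17 (.hi 37)
 (.lo 39)))
 (.lo 28))
 (.lo 28))
 (.lo 22)))
 (.sp 6 6 (.sp 2 10 (.hi 26)
 (.lo 30))
 (.lo 22)))
 (.sp 7 8 (.sp 6 6 (.sp 4 2 (.hi 38)
 (.lo 22))
 (.lo 22))
 (.lo 22)))
 (.lo 21))
 (.lo 21)))
 (.lo 34)))
 (.lo 15)))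
 (.lo 34))
 (.lo 34))
 (.lo 34))
 (.lo 14)))
 (.lo 20))
 (.lo 20))
 (.lo 19))
 (.lo 19))
 (.lo 18))
 (.lo 18)))
 (.lo 18)))))
 (.lo 12))))

theorem run_4_8 : run 8 4 57 288230376151711185 tr_4_8 = true := by decide +kernel

/-- search tree -/
def tr_4_9 : Tr :=
 (.sp 8 7 (.hi 9)
 (.sp 0 8 (.hi 10)
 (.sp 1 9 (.hi 11)
 (.lo 15))))

theorem run_4_9 : run 9 4 15 65507 tr_4_9 = true := by decide +kernel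

/-- search tree -/
def tr_4_10 : Tr :=
 (.sp 6 4 (.sp 8 6 (.hi 10)
 (.sp 9 7 (.hi 11)
 (.sp 2 10 (.sp 4 6 (.hi 22)
 (.sp 5 7 (.hi 23)
 (.sp 8 12 (.hi 24)
 (.sp 7 9 (.hi 25)
 (.lo 26)))))
 (.lo 14))))
 (.lo 8))

theorem run_4_10 : run 10 4 26 134209349 tr_4_10 = true := by decide +kernel

/-- search tree -/
def tr_4_11 : Tr :=
 (.sp 7 4 (.sp 10 7 (.hi 13)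
 (.sp 1 9 (.hi 15)
 (.sp 3 11 (.sp 8 16 (.hi 22)
 (.sp 0 19 (.hi 25)
 (.sp 6 7 (.hi 27)
 (.sp 10 14 (.hi 28)
 (.lo 31)))))
 (.lo 17))))
 (.lo 10))

theorem run_4_11 : run 11 4 31 4294932105 tr_4_11 = true := by decide +kernel

/-- search tree -/
def tr_4_12 : Tr :=
 (.sp 8 4 (.hi 12)
 (.sp 10 6 (.hi 14)
 (.sp 11 7 (.hi 15)
 (.sp 0 8 (.hi 16)
 (.sp 2 10 (.hi 18)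
 (.sp 3 11 (.hi 19)
 (.sp 4 12 (.sp 6 14 (.sp 7 15 (.sp 9 17 (.hi 25)
 (.sp 1 21 (.hi 29)
 (.sp 7 9 (.hi 29)
 (.sp 6 7 (.hi 29)
 (.sp 8 16 (.sp 4 8 (.hi 24)
 (.sp 10 18 (.sp 6 10 (.hi 26)
 (.sp 0 20 (.sp 8 12 (.sp 5 18 (.hi 40)
 (.sp 9 29 (.sp 9 25 (.sp 1 33 (.hi 41)
 (.sp 11 19 (.sp 7 11 (.hi 27)
 (.sp 3 35 (.sp 9 22 (.sp 5 37 (.sp 2 22 (.sp 10 14 (.sp 8 10 (.hi 30)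
 (.sp 3 23 (.sp 11 15 (.sp 10 12 (.sp 4 10 (.hi 46)
 (.sp 9 19 (.sp 5 25 (.sp 6 12 (.hi 52)
 (.sp 9 18 (.sp 11 13 (.sp 10 11 (.hi 33)
 (.sp 0 14 (.sp 11 12 (.sp 7 13 (.sp 2 16 (.hi 76)
 (.lo 68))
 (.lo 49))
 (.lo 34))
 (.lo 34)))
 (.sp 2 18 (.sp 10 10 (.sp 3 19 (.sp 0 13 (.sp 7 13 (.sp 5 19 (.hi 75)
 (.sp 0 12 (.hi 76)
 (.lo 67)))
 (.lo 49))
 (.lo 35))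
 (.lo 35))
 (.lo 34))
 (.lo 34)))
 (.lo 48)))
 (.sp 11 13 (.sp 10 11 (.sp 2 18 (.sp 0 14 (.sp 10 8 (.hi 68)
 (.sp 11 12 (.sp 2 16 (.hi 68)
 (.sp 0 12 (.hi 68)
 (.lo 36)))
 (.sp 3 19 (.sp 0 13 (.sp 5 31 (.hi 75)
 (.lo 51))
 (.lo 35))
 (.lo 35))))
 (.sp 3 17 (.sp 2 15 (.hi 37)
 (.sp 11 9 (.hi 37)
 (.lo 38)))
 (.lo 39)))
 (.sp 0 14 (.sp 11 12 (.sp 10 10 (.hi 68)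
 (.lo 34))
 (.lo 34))
 (.lo 34)))
 (.lo 33))
 (.lo 33)))
 (.lo 47)))
 (.lo 32))
 (.lo 31))
 (.lo 31)))
 (.sp 8 9 (.sp 11 15 (.sp 3 23 (.hi 31)
 (.lo 55))
 (.lo 33))
 (.lo 32)))
 (.sp 11 15 (.sp 8 9 (.sp 3 23 (.hi 31)
 (.sp 11 11 (.sp 11 9 (.sp 5 21 (.hi 37)
 (.sp 0 9 (.hi 63)
 (.lo 39)))
 (.lo 38))
 (.lo 38)))
 (.lo 56))
 (.lo 56)))
 (.lo 45))
 (.lo 44))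
 (.lo 43)))
 (.sp 8 10 (.sp 10 14 (.sp 2 22 (.hi 30)
 (.lo 56))
 (.lo 33))
 (.lo 31))))
 (.lo 43))
 (.lo 43)))
 (.lo 28))
 (.lo 28)))
 (.sp 0 20 (.sp 8 9 (.sp 11 19 (.sp 7 11 (.hi 27)
 (.sp 11 15 (.sp 3 23 (.hi 31)
 (.sp 5 18 (.hi 40)
 (.lo 55)))
 (.lo 33)))
 (.lo 33))
 (.lo 32))
 (.lo 32))))
 (.sp 10 18 (.sp 6 10 (.hi 26)
 (.sp 4 6 (.hi 26)
 (.lo 28)))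
 (.lo 32)))))))
 (.lo 23))
 (.lo 22))
 (.lo 20))))))))

theorem run_4_12 : run 12 4 76 151115727451828646698257 tr_4_12 = true := by decide +kernel

/-- search tree -/
def tr_4_13 : Tr :=
 (.sp 9 4 (.hi 14)
 (.sp 11 6 (.hi 16)
 (.sp 12 7 (.hi 17)
 (.sp 1 9 (.hi 19)
 (.sp 3 11 (.hi 21)
 (.sp 4 12 (.hi 22)
 (.sp 5 13 (.sp 7 15 (.sp 8 16 (.hi 26)
 (.sp 10 18 (.hi 28)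
 (.sp 9 17 (.sp 5 9 (.hi 27)
 (.sp 12 20 (.sp 0 8 (.hi 44)
 (.sp 11 19 (.sp 7 11 (.hi 29)
 (.sp 1 22 (.sp 0 21 (.sp 6 20 (.hi 44)
 (.sp 4 16 (.hi 44)
 (.sp 2 12 (.hi 44)
 (.sp 10 27 (.sp 8 23 (.hi 45)
 (.sp 3 13 (.hi 45)
 (.lo 46)))
 (.lo 47)))))
 (.sp 9 13 (.sp 11 15 (.sp 2 23 (.hi 33)
 (.sp 9 11 (.hi 33)
 (.sp 3 24 (.sp 6 27 (.sp 6 15 (.hi 49)
 (.sp 8 29 (.sp 4 21 (.sp 1 15 (.hi 39)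
 (.sp 12 11 (.hi 39)
 (.sp 4 19 (.sp 10 31 (.sp 6 23 (.hi 41)
 (.sp 3 17 (.hi 41)
 (.lo 43)))
 (.sp 4 16 (.sp 0 34 (.hi 44)
 (.sp 6 20 (.hi 44)
 (.lo 48)))
 (.lo 47)))
 (.lo 42))))
 (.sp 12 11 (.sp 1 15 (.hi 39)
 (.sp 12 9 (.sp 10 31 (.sp 6 23 (.hi 41)
 (.sp 3 17 (.hi 41)
 (.lo 43)))
 (.lo 47))
 (.lo 42)))
 (.lo 42)))
 (.sp 4 21 (.sp 1 15 (.sp 12 11 (.hi 39)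
 (.sp 4 19 (.sp 8 38 (.sp 5 11 (.hi 56)
 (.sp 0 34 (.sp 6 20 (.hi 44)
 (.sp 4 16 (.hi 44)
 (.sp 3 17 (.sp 10 31 (.hi 41)
 (.lo 47))
 (.lo 46))))
 (.lo 51)))
 (.lo 59))
 (.lo 42)))
 (.sp 6 23 (.sp 3 17 (.sp 10 31 (.hi 41)
 (.sp 4 19 (.hi 41)
 (.lo 47)))
 (.lo 43))
 (.lo 43)))
 (.sp 12 9 (.sp 10 31 (.sp 6 23 (.hi 41)
 (.sp 3 17 (.hi 41)
 (.lo 43)))
 (.lo 47))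
 (.lo 42)))))
 (.lo 37))
 (.lo 34))))
 (.lo 35))
 (.lo 31)))
 (.lo 32)))
 (.sp 7 11 (.sp 0 21 (.sp 9 13 (.hi 31)
 (.sp 7 9 (.hi 31)
 (.sp 2 23 (.sp 3 24 (.hi 53)
 (.lo 34))
 (.lo 33))))
 (.lo 35))
 (.lo 29))))
 (.lo 30)))
 (.sp 5 9 (.sp 11 19 (.sp 7 11 (.hi 29)
 (.sp 5 7 (.hi 29)
 (.sp 12 20 (.sp 0 21 (.sp 1 22 (.sp 3 24 (.sp 2 10 (.hi 51)
 (.sp 0 6 (.hi 51)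
 (.sp 2 23 (.sp 11 15 (.hi 33)
 (.sp 9 30 (.hi 53)
 (.sp 4 21 (.sp 10 31 (.sp 4 19 (.sp 6 23 (.hi 41)
 (.sp 3 17 (.hi 41)
 (.sp 1 13 (.hi 41)
 (.sp 0 14 (.sp 8 29 (.sp 2 17 (.hi 39)
 (.sp 3 20 (.hi 64)
 (.lo 40)))
 (.lo 43))
 (.lo 43)))))
 (.lo 47))
 (.lo 47))
 (.lo 47))))
 (.sp 11 15 (.sp 4 25 (.sp 0 17 (.sp 11 13 (.hi 35)
 (.sp 1 18 (.sp 12 14 (.sp 9 19 (.hi 51)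
 (.sp 6 40 (.sp 6 27 (.sp 8 29 (.hi 56)
 (.sp 0 15 (.sp 12 13 (.hi 37)
 (.sp 1 16 (.sp 3 20 (.sp 0 14 (.hi 38)
 (.sp 9 30 (.hi 62)
 (.lo 40)))
 (.sp 9 30 (.sp 10 31 (.sp 2 29 (.hi 53)
 (.sp 6 11 (.hi 53)
 (.sp 6 23 (.sp 4 19 (.hi 41)
 (.lo 72))
 (.lo 55))))
 (.lo 45))
 (.lo 40)))
 (.lo 39)))
 (.sp 9 30 (.sp 2 29 (.hi 53)
 (.sp 6 20 (.sp 9 26 (.hi 44)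
 (.sp 4 16 (.hi 44)
 (.lo 47)))
 (.lo 55)))
 (.lo 40))))
 (.sp 12 13 (.sp 2 32 (.sp 10 22 (.hi 50)
 (.sp 8 42 (.sp 2 29 (.sp 9 30 (.hi 53)
 (.sp 0 12 (.sp 10 31 (.sp 4 19 (.hi 76)
 (.lo 47))
 (.lo 47))
 (.lo 40)))
 (.lo 55))
 (.lo 52)))
 (.lo 55))
 (.lo 37)))
 (.lo 61)))
 (.lo 36))
 (.lo 36)))
 (.sp 12 14 (.sp 6 27 (.sp 8 29 (.hi 56)
 (.sp 1 18 (.sp 11 12 (.hi 36)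
 (.sp 9 30 (.sp 2 29 (.hi 53)
 (.sp 6 20 (.sp 9 26 (.hi 44)
 (.sp 4 16 (.hi 44)
 (.lo 47)))
 (.lo 55)))
 (.lo 40)))
 (.sp 6 23 (.sp 3 17 (.sp 10 31 (.hi 41)
 (.sp 4 19 (.hi 41)
 (.lo 47)))
 (.lo 43))
 (.lo 43))))
 (.lo 37))
 (.lo 37)))
 (.sp 9 26 (.sp 6 20 (.hi 44)
 (.sp 10 27 (.sp 8 23 (.hi 45)
 (.sp 3 13 (.hi 45)
 (.lo 46)))
 (.lo 47)))
 (.lo 47)))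
 (.lo 33)))))
 (.lo 34))
 (.lo 32))
 (.lo 31))
 (.lo 30))))
 (.sp 2 23 (.sp 7 11 (.sp 5 7 (.hi 29)
 (.sp 0 21 (.sp 7 9 (.hi 31)
 (.sp 1 22 (.sp 3 24 (.sp 12 16 (.sp 9 30 (.hi 53)
 (.sp 0 8 (.hi 53)
 (.sp 10 31 (.sp 4 19 (.sp 6 23 (.hi 41)
 (.sp 3 17 (.hi 41)
 (.sp 1 13 (.hi 41)
 (.sp 8 29 (.hi 58)
 (.lo 43)))))
 (.lo 47))
 (.lo 47))))
 (.lo 34))
 (.lo 34))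
 (.lo 32)))
 (.lo 35)))
 (.sp 5 7 (.sp 0 21 (.sp 12 20 (.sp 5 6 (.hi 30)
 (.sp 1 22 (.sp 3 24 (.sp 1 18 (.sp 12 14 (.sp 6 14 (.hi 50)
 (.sp 2 5 (.hi 51)
 (.sp 0 1 (.hi 51)
 (.sp 6 27 (.sp 8 29 (.hi 56)
 (.sp 2 19 (.sp 0 15 (.hi 37)
 (.sp 12 13 (.hi 37)
 (.sp 3 20 (.sp 9 43 (.sp 2 8 (.hi 53)
 (.sp 4 21 (.sp 2 17 (.sp 1 15 (.hi 39)
 (.sp 6 23 (.sp 3 17 (.sp 10 31 (.hi 41)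
 (.lo 74))
 (.lo 43))
 (.lo 43)))
 (.sp 9 30 (.sp 11 32 (.hi 62)
 (.lo 42))
 (.lo 40)))
 (.sp 11 32 (.sp 9 30 (.hi 62)
 (.lo 47))
 (.lo 42))))
 (.lo 60))
 (.lo 38))))
 (.sp 9 43 (.sp 7 13 (.hi 53)
 (.sp 8 38 (.hi 56)
 (.lo 58)))
 (.lo 57))))
 (.sp 9 43 (.sp 0 8 (.hi 53)
 (.sp 2 8 (.hi 53)
 (.sp 9 26 (.sp 4 16 (.hi 44)
 (.sp 2 12 (.hi 44)
 (.sp 10 27 (.sp 8 23 (.hi 45)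
 (.sp 3 13 (.hi 45)
 (.lo 46)))
 (.lo 47))))
 (.lo 49))))
 (.lo 60))))))
 (.lo 36))
 (.lo 36))
 (.lo 34))
 (.lo 32)))
 (.lo 36))
 (.lo 31))
 (.lo 29)))
 (.lo 33)))
 (.lo 27)))))
 (.lo 25))
 (.lo 23))))))))

theorem run_4_13 : run 13 4 76 151115727451828646271521 tr_4_13 = true := by decide +kernel

/-- search tree -/
def tr_4_14 : Tr :=
 (.sp 10 4 (.hi 16)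
 (.sp 12 6 (.hi 18)
 (.sp 13 7 (.hi 19)
 (.sp 2 10 (.hi 22)
 (.sp 4 12 (.hi 24)
 (.sp 5 13 (.hi 25)
 (.sp 6 14 (.sp 8 16 (.hi 28)
 (.sp 9 17 (.hi 29)
 (.sp 11 19 (.hi 31)
 (.sp 1 23 (.hi 35)
 (.sp 10 18 (.sp 6 10 (.hi 30)
 (.sp 12 20 (.sp 13 21 (.sp 0 22 (.sp 10 14 (.hi 34)
 (.sp 2 24 (.sp 12 16 (.sp 0 8 (.hi 54)
 (.sp 3 25 (.sp 13 17 (.hi 37)
 (.sp 12 14 (.sp 0 18 (.sp 4 26 (.hi 38)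
 (.sp 7 16 (.hi 54)
 (.lo 66)))
 (.lo 40))
 (.lo 39)))
 (.sp 13 17 (.sp 4 26 (.sp 0 18 (.sp 9 31 (.hi 64)
 (.sp 4 22 (.sp 4 20 (.sp 0 12 (.hi 44)
 (.sp 7 25 (.sp 4 19 (.sp 5 21 (.hi 45)
 (.sp 13 9 (.hi 45)
 (.sp 8 30 (.sp 2 18 (.hi 42)
 (.lo 46))
 (.lo 46))))
 (.lo 50))
 (.lo 47)))
 (.lo 50))
 (.lo 50)))
 (.sp 7 29 (.sp 7 16 (.hi 54)
 (.sp 5 27 (.sp 8 30 (.sp 3 32 (.hi 58)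
 (.sp 10 16 (.hi 60)
 (.sp 1 27 (.sp 11 47 (.hi 59)
 (.lo 63))
 (.lo 61))))
 (.sp 9 31 (.sp 5 23 (.sp 2 17 (.hi 43)
 (.sp 13 11 (.hi 43)
 (.lo 46)))
 (.sp 2 17 (.sp 13 11 (.hi 43)
 (.lo 46))
 (.lo 46)))
 (.sp 7 25 (.sp 4 19 (.sp 11 33 (.hi 45)
 (.sp 5 21 (.hi 45)
 (.lo 49)))
 (.lo 50))
 (.lo 47))))
 (.sp 8 30 (.sp 3 32 (.hi 58)
 (.sp 11 47 (.sp 5 35 (.sp 1 27 (.hi 59)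
 (.sp 10 16 (.sp 5 34 (.hi 60)
 (.lo 63))
 (.lo 61)))
 (.lo 63))
 (.lo 63)))
 (.sp 2 17 (.sp 13 11 (.sp 9 31 (.hi 43)
 (.sp 13 9 (.sp 7 25 (.sp 11 33 (.hi 45)
 (.lo 49))
 (.lo 47))
 (.lo 46)))
 (.lo 46))
 (.lo 46)))))
 (.lo 41)))
 (.sp 0 18 (.sp 9 31 (.sp 9 27 (.sp 7 23 (.hi 47)
 (.sp 9 25 (.sp 5 41 (.sp 5 27 (.sp 13 15 (.sp 12 13 (.hi 39)
 (.sp 2 20 (.sp 0 16 (.sp 13 14 (.hi 40)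
 (.lo 68))
 (.lo 44))
 (.lo 42)))
 (.sp 12 13 (.sp 2 20 (.sp 0 16 (.sp 7 29 (.sp 0 15 (.hi 41)
 (.sp 1 37 (.hi 67)
 (.sp 8 30 (.sp 4 34 (.sp 3 32 (.hi 58)
 (.sp 10 16 (.hi 60)
 (.lo 61)))
 (.lo 59))
 (.sp 5 23 (.sp 2 17 (.hi 43)
 (.lo 46))
 (.lo 46)))))
 (.sp 8 30 (.sp 2 18 (.sp 12 10 (.hi 42)
 (.sp 5 23 (.sp 2 17 (.hi 43)
 (.lo 72))
 (.lo 45)))
 (.sp 0 12 (.sp 12 8 (.hi 44)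
 (.lo 72))
 (.lo 72)))
 (.sp 2 17 (.sp 5 23 (.hi 43)
 (.lo 72))
 (.lo 48))))
 (.lo 40))
 (.lo 40))
 (.lo 39)))
 (.sp 13 15 (.sp 12 13 (.sp 11 29 (.sp 3 39 (.sp 11 27 (.sp 2 20 (.sp 0 16 (.sp 13 14 (.hi 40)
 (.sp 2 18 (.sp 2 17 (.sp 8 44 (.sp 7 43 (.sp 1 37 (.hi 77)
 (.sp 9 21 (.sp 4 40 (.sp 0 15 (.hi 79)
 (.sp 12 10 (.sp 8 30 (.hi 42)
 (.lo 46))
 (.lo 44)))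
 (.lo 59))
 (.lo 53)))
 (.lo 68))
 (.lo 66))
 (.lo 43))
 (.lo 43)))
 (.sp 12 10 (.sp 8 44 (.sp 8 30 (.sp 2 18 (.hi 42)
 (.sp 13 11 (.sp 1 51 (.sp 1 37 (.hi 77)
 (.sp 8 23 (.hi 77)
 (.lo 49)))
 (.lo 70))
 (.lo 43)))
 (.sp 2 17 (.sp 13 11 (.hi 43)
 (.lo 46))
 (.lo 46)))
 (.lo 66))
 (.lo 44)))
 (.sp 8 30 (.sp 13 11 (.sp 7 43 (.sp 1 37 (.hi 77)
 (.sp 9 21 (.sp 4 40 (.hi 79)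
 (.lo 59))
 (.lo 53)))
 (.lo 68))
 (.lo 43))
 (.lo 42)))
 (.lo 51))
 (.lo 51))
 (.lo 51))
 (.lo 39))
 (.lo 39)))
 (.lo 66))
 (.lo 50)))
 (.lo 50))
 (.lo 50))
 (.lo 38)))
 (.lo 37))))
 (.lo 36))
 (.lo 36)))
 (.sp 10 14 (.sp 12 16 (.sp 4 26 (.sp 12 14 (.sp 2 24 (.sp 10 12 (.hi 36)
 (.sp 13 17 (.sp 3 25 (.hi 37)
 (.sp 13 15 (.sp 2 20 (.sp 13 14 (.sp 7 29 (.sp 5 27 (.sp 12 13 (.hi 39)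
 (.sp 4 22 (.sp 4 20 (.sp 8 30 (.sp 2 18 (.hi 42)
 (.sp 9 31 (.sp 5 23 (.sp 13 11 (.hi 43)
 (.sp 5 21 (.sp 8 26 (.sp 5 20 (.sp 0 24 (.hi 60)
 (.sp 7 10 (.hi 60)
 (.sp 11 47 (.sp 1 27 (.hi 59)
 (.sp 7 11 (.hi 59)
 (.sp 11 33 (.sp 7 25 (.hi 45)
 (.sp 4 19 (.hi 45)
 (.sp 9 27 (.sp 0 36 (.sp 3 29 (.sp 1 51 (.sp 1 37 (.hi 99)
 (.sp 9 21 (.sp 5 15 (.hi 99)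
 (.sp 11 29 (.sp 8 23 (.hi 87)
 (.lo 79))
 (.lo 51)))
 (.lo 53)))
 (.lo 67))
 (.lo 61))
 (.lo 48))
 (.lo 47))))
 (.sp 7 25 (.sp 4 19 (.hi 45)
 (.sp 9 27 (.sp 7 23 (.hi 47)
 (.sp 0 36 (.sp 9 24 (.sp 5 17 (.sp 3 39 (.sp 5 15 (.sp 3 33 (.sp 6 11 (.hi 57)
 (.sp 3 29 (.sp 11 43 (.sp 1 30 (.hi 97)
 (.sp 0 32 (.sp 8 20 (.hi 78)
 (.sp 5 14 (.hi 99)
 (.lo 52)))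
 (.lo 85)))
 (.lo 65))
 (.lo 61)))
 (.lo 61))
 (.lo 51))
 (.lo 51))
 (.lo 51))
 (.lo 50))
 (.lo 48)))
 (.lo 50)))
 (.sp 4 19 (.sp 9 27 (.sp 3 39 (.sp 3 32 (.sp 3 29 (.sp 0 50 (.sp 11 43 (.sp 1 51 (.sp 0 36 (.sp 4 16 (.hi 74)
 (.sp 9 25 (.sp 5 17 (.sp 1 37 (.hi 101)
 (.sp 8 23 (.sp 9 21 (.hi 87)
 (.lo 53))
 (.lo 49)))
 (.lo 51))
 (.lo 50)))
 (.sp 4 16 (.sp 8 20 (.hi 86)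
 (.lo 52))
 (.lo 48)))
 (.lo 67))
 (.lo 65))
 (.lo 62))
 (.lo 61))
 (.lo 61))
 (.lo 61))
 (.lo 47))
 (.lo 45))))))
 (.lo 66))))
 (.lo 46))
 (.lo 46))
 (.lo 46)))
 (.sp 13 9 (.sp 8 26 (.sp 13 8 (.sp 0 24 (.hi 60)
 (.sp 7 10 (.hi 60)
 (.sp 11 47 (.sp 1 27 (.hi 59)
 (.sp 11 33 (.sp 7 25 (.hi 45)
 (.sp 4 19 (.hi 45)
 (.sp 9 27 (.sp 0 36 (.sp 9 24 (.sp 3 39 (.sp 11 27 (.sp 3 33 (.sp 11 21 (.hi 57)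
 (.sp 6 11 (.hi 57)
 (.sp 3 29 (.sp 1 30 (.hi 97)
 (.sp 0 32 (.sp 8 20 (.hi 78)
 (.sp 11 26 (.hi 99)
 (.lo 52)))
 (.lo 85)))
 (.lo 61))))
 (.lo 61))
 (.lo 51))
 (.lo 51))
 (.lo 50))
 (.lo 48))
 (.lo 47))))
 (.sp 9 27 (.sp 7 23 (.hi 47)
 (.sp 8 24 (.sp 4 16 (.sp 0 36 (.hi 48)
 (.lo 52))
 (.lo 51))
 (.lo 49)))
 (.lo 49))))
 (.lo 66))))
 (.lo 46))
 (.lo 46))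
 (.lo 46)))
 (.sp 7 25 (.sp 4 19 (.sp 11 33 (.hi 45)
 (.sp 5 21 (.hi 45)
 (.lo 49)))
 (.lo 50))
 (.lo 47))))
 (.sp 9 31 (.sp 5 23 (.sp 2 17 (.hi 43)
 (.sp 13 11 (.hi 43)
 (.lo 46)))
 (.sp 2 17 (.sp 13 11 (.hi 43)
 (.lo 46))
 (.lo 46)))
 (.sp 7 25 (.sp 4 19 (.sp 11 33 (.hi 45)
 (.sp 5 21 (.hi 45)
 (.lo 49)))
 (.lo 50))
 (.lo 47))))
 (.lo 44))
 (.lo 44)))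
 (.sp 12 13 (.sp 8 30 (.sp 4 22 (.sp 2 18 (.hi 42)
 (.sp 12 10 (.hi 42)
 (.sp 4 20 (.sp 13 9 (.sp 11 33 (.sp 7 25 (.hi 45)
 (.sp 4 19 (.hi 45)
 (.sp 9 27 (.sp 11 27 (.sp 5 37 (.sp 5 35 (.sp 1 27 (.hi 59)
 (.sp 5 34 (.sp 0 24 (.hi 60)
 (.sp 3 33 (.hi 85)
 (.lo 61)))
 (.lo 65)))
 (.lo 65))
 (.lo 65))
 (.lo 51))
 (.lo 47))))
 (.sp 9 27 (.sp 7 23 (.hi 47)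
 (.sp 8 24 (.sp 4 16 (.sp 0 36 (.hi 48)
 (.lo 52))
 (.lo 51))
 (.lo 49)))
 (.lo 49)))
 (.lo 46))
 (.lo 44))))
 (.sp 12 10 (.sp 2 18 (.hi 42)
 (.sp 13 11 (.sp 9 27 (.sp 7 23 (.hi 47)
 (.sp 9 25 (.sp 11 29 (.sp 3 39 (.sp 5 41 (.sp 1 51 (.sp 1 37 (.hi 77)
 (.sp 8 23 (.hi 77)
 (.lo 49)))
 (.lo 67))
 (.lo 65))
 (.lo 51))
 (.lo 51))
 (.lo 50)))
 (.lo 50))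
 (.lo 43)))
 (.lo 44)))
 (.sp 2 17 (.sp 13 11 (.sp 9 31 (.hi 43)
 (.sp 13 9 (.sp 7 25 (.sp 11 33 (.hi 45)
 (.lo 49))
 (.lo 47))
 (.lo 46)))
 (.lo 46))
 (.lo 46)))
 (.lo 39)))
 (.lo 41))
 (.lo 40))
 (.lo 40))
 (.lo 40)))
 (.lo 40)))
 (.sp 13 17 (.sp 10 11 (.hi 37)
 (.lo 40))
 (.lo 40)))
 (.lo 38))
 (.lo 38))
 (.lo 38))
 (.lo 34)))
 (.lo 33))
 (.lo 32)))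
 (.sp 6 10 (.sp 0 22 (.sp 12 20 (.sp 6 8 (.hi 32)
 (.sp 13 21 (.sp 2 24 (.sp 12 16 (.sp 3 25 (.sp 13 17 (.hi 37)
 (.sp 12 14 (.sp 0 18 (.sp 4 26 (.hi 38)
 (.sp 0 2 (.hi 54)
 (.sp 7 29 (.sp 3 21 (.hi 41)
 (.sp 0 15 (.hi 41)
 (.sp 9 27 (.sp 7 23 (.hi 47)
 (.lo 66))
 (.lo 50))))
 (.lo 66))))
 (.lo 40))
 (.lo 39)))
 (.sp 13 17 (.sp 4 26 (.sp 0 18 (.sp 12 14 (.hi 38)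
 (.sp 0 2 (.hi 54)
 (.sp 2 20 (.sp 0 16 (.sp 13 14 (.hi 40)
 (.sp 7 29 (.sp 0 15 (.hi 41)
 (.sp 4 22 (.sp 10 32 (.sp 9 31 (.hi 64)
 (.sp 2 18 (.sp 8 30 (.hi 42)
 (.sp 5 21 (.sp 7 25 (.sp 4 19 (.hi 45)
 (.lo 50))
 (.lo 47))
 (.lo 46)))
 (.lo 43)))
 (.lo 44))
 (.lo 44)))
 (.sp 8 30 (.sp 4 22 (.sp 2 18 (.hi 42)
 (.sp 9 31 (.sp 10 32 (.hi 64)
 (.lo 72))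
 (.lo 43)))
 (.sp 10 32 (.sp 0 8 (.hi 58)
 (.sp 9 31 (.hi 64)
 (.lo 50)))
 (.lo 44)))
 (.sp 10 46 (.sp 0 8 (.hi 58)
 (.sp 10 32 (.sp 9 31 (.hi 64)
 (.sp 0 12 (.sp 4 20 (.hi 44)
 (.lo 50))
 (.lo 47)))
 (.lo 54)))
 (.lo 68)))))
 (.sp 4 22 (.sp 10 32 (.sp 9 31 (.hi 64)
 (.sp 7 25 (.sp 4 19 (.sp 5 21 (.hi 45)
 (.sp 13 9 (.hi 45)
 (.sp 8 30 (.sp 2 18 (.hi 42)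
 (.lo 46))
 (.lo 46))))
 (.lo 50))
 (.lo 47)))
 (.lo 44))
 (.lo 44)))
 (.sp 8 30 (.sp 4 22 (.sp 7 29 (.sp 0 15 (.hi 41)
 (.sp 10 32 (.sp 9 31 (.hi 64)
 (.sp 7 25 (.sp 4 19 (.sp 11 33 (.hi 45)
 (.sp 5 21 (.hi 45)
 (.lo 49)))
 (.lo 50))
 (.lo 47)))
 (.lo 44)))
 (.sp 10 46 (.sp 0 8 (.hi 58)
 (.sp 3 32 (.hi 58)
 (.sp 1 37 (.sp 9 31 (.sp 10 32 (.hi 64)
 (.sp 9 25 (.sp 8 23 (.sp 11 29 (.hi 49)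
 (.sp 5 17 (.hi 49)
 (.lo 51)))
 (.lo 54))
 (.lo 50)))
 (.sp 5 23 (.sp 13 11 (.sp 0 12 (.sp 10 32 (.hi 70)
 (.lo 50))
 (.lo 47))
 (.lo 43))
 (.lo 43)))
 (.lo 61))))
 (.lo 68)))
 (.lo 42))
 (.lo 42)))))
 (.sp 13 15 (.sp 7 29 (.sp 5 27 (.sp 12 13 (.hi 39)
 (.sp 4 22 (.sp 10 32 (.sp 8 30 (.sp 2 18 (.hi 42)
 (.sp 3 32 (.hi 58)
 (.sp 7 12 (.hi 58)
 (.sp 9 31 (.sp 5 23 (.sp 13 11 (.hi 43)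
 (.sp 5 21 (.sp 11 47 (.sp 1 27 (.hi 59)
 (.sp 7 25 (.sp 4 19 (.hi 45)
 (.sp 9 27 (.sp 7 23 (.hi 47)
 (.lo 61))
 (.lo 50)))
 (.lo 61)))
 (.lo 63))
 (.lo 46)))
 (.sp 13 9 (.sp 11 47 (.sp 1 27 (.hi 59)
 (.sp 7 25 (.sp 11 33 (.hi 45)
 (.sp 4 19 (.hi 45)
 (.sp 9 27 (.sp 7 23 (.hi 47)
 (.lo 51))
 (.lo 49))))
 (.lo 61)))
 (.lo 63))
 (.lo 46)))
 (.sp 7 25 (.sp 4 19 (.sp 11 33 (.hi 45)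
 (.sp 5 21 (.hi 45)
 (.lo 49)))
 (.lo 50))
 (.lo 47))))))
 (.sp 9 31 (.sp 5 23 (.sp 2 17 (.hi 43)
 (.sp 13 11 (.hi 43)
 (.lo 46)))
 (.sp 2 17 (.sp 13 11 (.hi 43)
 (.lo 46))
 (.lo 46)))
 (.sp 7 25 (.sp 4 19 (.sp 11 33 (.hi 45)
 (.sp 5 21 (.hi 45)
 (.lo 49)))
 (.lo 50))
 (.lo 47))))
 (.lo 44))
 (.lo 44)))
 (.sp 12 13 (.sp 8 30 (.sp 4 22 (.sp 2 18 (.hi 42)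
 (.sp 12 10 (.hi 42)
 (.sp 10 32 (.sp 13 9 (.sp 3 32 (.hi 58)
 (.sp 7 12 (.hi 58)
 (.sp 5 35 (.sp 11 47 (.sp 1 27 (.hi 59)
 (.sp 7 25 (.sp 11 33 (.hi 45)
 (.sp 4 19 (.hi 45)
 (.sp 9 27 (.sp 7 23 (.hi 47)
 (.lo 51))
 (.lo 49))))
 (.lo 61)))
 (.lo 63))
 (.lo 60))))
 (.lo 46))
 (.lo 44))))
 (.sp 12 10 (.sp 2 18 (.hi 42)
 (.sp 13 9 (.sp 9 27 (.sp 7 23 (.hi 47)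
 (.sp 3 39 (.sp 11 27 (.sp 10 25 (.sp 5 41 (.hi 79)
 (.lo 60))
 (.lo 51))
 (.lo 51))
 (.lo 51)))
 (.lo 50))
 (.lo 46)))
 (.lo 44)))
 (.sp 2 17 (.sp 13 11 (.sp 9 31 (.hi 43)
 (.sp 13 9 (.sp 7 25 (.sp 11 33 (.hi 45)
 (.lo 49))
 (.lo 47))
 (.lo 46)))
 (.lo 46))
 (.lo 46)))
 (.lo 39)))
 (.lo 41))
 (.lo 40)))
 (.sp 0 2 (.hi 54)
 (.sp 5 27 (.sp 13 15 (.sp 12 13 (.hi 39)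
 (.sp 2 20 (.sp 0 16 (.sp 13 14 (.hi 40)
 (.sp 0 15 (.sp 7 29 (.hi 41)
 (.lo 68))
 (.lo 44)))
 (.lo 44))
 (.lo 42)))
 (.sp 12 13 (.sp 2 20 (.sp 0 16 (.sp 7 29 (.sp 0 15 (.hi 41)
 (.sp 10 32 (.sp 9 31 (.sp 9 27 (.sp 7 23 (.hi 47)
 (.sp 1 37 (.hi 67)
 (.sp 3 32 (.sp 4 34 (.hi 58)
 (.lo 62))
 (.lo 61))))
 (.lo 50))
 (.lo 50))
 (.lo 44)))
 (.sp 8 30 (.sp 2 18 (.sp 12 10 (.hi 42)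
 (.sp 5 23 (.sp 2 17 (.sp 9 31 (.hi 43)
 (.sp 0 10 (.sp 10 28 (.sp 0 8 (.sp 8 24 (.hi 48)
 (.sp 2 12 (.hi 48)
 (.sp 5 20 (.sp 8 26 (.hi 46)
 (.sp 2 14 (.hi 46)
 (.lo 74)))
 (.lo 49))))
 (.lo 50))
 (.lo 50))
 (.lo 47)))
 (.lo 72))
 (.lo 45)))
 (.sp 10 32 (.sp 0 12 (.sp 12 8 (.hi 44)
 (.lo 72))
 (.lo 72))
 (.lo 72)))
 (.sp 5 23 (.sp 2 17 (.sp 9 31 (.hi 43)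
 (.sp 0 12 (.sp 10 32 (.sp 12 8 (.hi 44)
 (.lo 72))
 (.lo 50))
 (.lo 47)))
 (.lo 72))
 (.lo 72))))
 (.lo 40))
 (.lo 40))
 (.lo 39)))
 (.sp 12 13 (.sp 2 20 (.sp 0 16 (.sp 13 14 (.hi 40)
 (.sp 2 18 (.sp 7 29 (.sp 0 15 (.hi 41)
 (.sp 12 10 (.sp 8 30 (.hi 42)
 (.lo 46))
 (.lo 44)))
 (.sp 12 10 (.sp 8 30 (.hi 42)
 (.lo 72))
 (.lo 45)))
 (.lo 43)))
 (.sp 12 10 (.sp 9 31 (.sp 9 27 (.sp 7 23 (.hi 47)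
 (.sp 9 25 (.sp 10 26 (.sp 11 29 (.sp 3 39 (.sp 5 41 (.sp 8 44 (.sp 8 30 (.sp 2 18 (.hi 42)
 (.sp 13 11 (.sp 1 51 (.sp 1 37 (.hi 77)
 (.sp 8 23 (.hi 77)
 (.lo 49)))
 (.lo 70))
 (.lo 43)))
 (.sp 2 17 (.sp 13 11 (.hi 43)
 (.lo 46))
 (.lo 46)))
 (.lo 60))
 (.lo 60))
 (.lo 51))
 (.lo 51))
 (.lo 50))
 (.lo 50)))
 (.lo 50))
 (.lo 50))
 (.lo 44)))
 (.sp 0 16 (.sp 12 10 (.sp 7 29 (.sp 0 15 (.hi 41)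
 (.sp 8 26 (.sp 13 8 (.sp 9 27 (.sp 7 23 (.hi 47)
 (.sp 10 28 (.sp 5 41 (.hi 74)
 (.lo 60))
 (.lo 48)))
 (.lo 50))
 (.lo 46))
 (.lo 46)))
 (.sp 10 32 (.sp 0 12 (.sp 12 8 (.hi 44)
 (.lo 72))
 (.lo 72))
 (.lo 72)))
 (.lo 42))
 (.lo 40)))
 (.lo 39)))))
 (.lo 37)))
 (.lo 36))
 (.lo 36))
 (.lo 33)))
 (.sp 6 7 (.sp 13 21 (.hi 33)
 (.sp 2 24 (.sp 3 25 (.sp 6 2 (.sp 6 1 (.sp 0 18 (.sp 4 26 (.hi 38)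
 (.sp 8 30 (.sp 7 29 (.sp 3 21 (.hi 41)
 (.sp 0 15 (.hi 41)
 (.lo 44)))
 (.sp 0 15 (.sp 3 21 (.hi 41)
 (.sp 10 32 (.sp 9 45 (.sp 0 9 (.sp 0 8 (.sp 4 34 (.hi 58)
 (.sp 12 22 (.hi 58)
 (.sp 13 35 (.sp 9 27 (.hi 47)
 (.sp 10 28 (.sp 8 24 (.hi 48)
 (.sp 2 12 (.hi 48)
 (.sp 1 37 (.sp 11 29 (.sp 5 17 (.sp 12 30 (.sp 10 26 (.sp 0 6 (.hi 77)
 (.lo 50))
 (.lo 50))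
 (.lo 50))
 (.lo 49))
 (.lo 49))
 (.lo 49))))
 (.lo 50)))
 (.lo 59))))
 (.lo 66))
 (.lo 66))
 (.lo 63))
 (.lo 44)))
 (.lo 66)))
 (.lo 42)))
 (.lo 40))
 (.lo 39))
 (.lo 39))
 (.lo 37))
 (.lo 36)))
 (.lo 36)))
 (.lo 34))
 (.lo 30)))))))
 (.lo 26))))))))

theorem run_4_14 : run 14 4 101 5070602400912917605986810541121 tr_4_14 = true := by decide +kernel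

end Pool.Agent.P.MP_e9218d_nt
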