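import Pool.Agent.P.MP_e9218d_nt.SmallChk

set_option maxRecDepth 100000

namespace Pool.Agent.P.MP_e9218d_nt

/-- search tree -/
def tr_4_15 : Tr :=
 (.sp 11 4 (.hi 18)
 (.sp 13 6 (.hi 20)
 (.sp 14 7 (.hi 21)
 (.sp 3 11 (.hi 25)
 (.sp 5 13 (.hi 27)
 (.sp 6 14 (.hi 28)
 (.sp 7 15 (.sp 9 17 (.hi 31)
 (.sp 10 18 (.hi 32)
 (.sp 12 20 (.hi 34)
 (.sp 11 19 (.sp 7 11 (.hi 33)
 (.sp 13 21 (.sp 14 22 (.sp 11 15 (.sp 1 24 (.hi 38)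
 (.sp 8 31 (.hi 45)
 (.sp 4 23 (.hi 45)
 (.sp 2 19 (.hi 45)
 (.sp 2 25 (.sp 13 17 (.hi 39)
 (.sp 11 13 (.hi 39)
 (.sp 3 26 (.sp 4 27 (.sp 5 28 (.sp 5 24 (.sp 5 22 (.sp 6 29 (.sp 9 32 (.hi 65)
 (.sp 6 25 (.sp 14 11 (.sp 10 33 (.hi 47)
 (.sp 3 19 (.hi 47)
 (.lo 51)))
 (.lo 50))
 (.lo 50)))
 (.sp 2 21 (.sp 9 32 (.sp 3 20 (.hi 46)
 (.sp 10 33 (.sp 14 9 (.sp 9 28 (.sp 7 13 (.hi 61)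
 (.sp 12 35 (.sp 5 21 (.hi 49)
 (.sp 0 38 (.hi 78)
 (.lo 82)))
 (.sp 5 15 (.sp 6 40 (.sp 0 38 (.hi 99)
 (.lo 82))
 (.lo 62))
 (.lo 55))))
 (.lo 50))
 (.lo 50))
 (.lo 47)))
 (.lo 50))
 (.lo 43)))
 (.lo 48))
 (.lo 48))
 (.lo 42))
 (.lo 41))
 (.lo 40))))
 (.sp 14 18 (.sp 14 16 (.sp 6 29 (.sp 14 15 (.sp 13 17 (.sp 11 13 (.hi 39)
 (.sp 3 26 (.sp 3 22 (.sp 4 27 (.sp 13 15 (.hi 41)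
 (.sp 5 28 (.sp 5 24 (.sp 5 22 (.sp 9 32 (.sp 3 20 (.hi 46)
 (.sp 10 33 (.sp 2 40 (.hi 69)
 (.sp 6 25 (.sp 14 11 (.hi 47)
 (.sp 6 23 (.sp 9 28 (.sp 0 27 (.hi 63)
 (.sp 12 35 (.sp 5 21 (.hi 49)
 (.sp 0 38 (.hi 78)
 (.lo 84)))
 (.sp 0 38 (.sp 9 26 (.hi 52)
 (.sp 2 55 (.hi 69)
 (.lo 82)))
 (.lo 84))))
 (.lo 50))
 (.lo 50)))
 (.lo 54)))
 (.lo 51)))
 (.sp 6 25 (.sp 14 11 (.sp 10 33 (.hi 47)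
 (.sp 3 19 (.hi 47)
 (.lo 51)))
 (.lo 50))
 (.lo 50)))
 (.lo 48))
 (.lo 48))
 (.lo 42)))
 (.sp 13 15 (.sp 5 28 (.sp 13 14 (.hi 42)
 (.sp 5 24 (.sp 5 22 (.sp 9 32 (.sp 3 20 (.hi 46)
 (.sp 10 33 (.sp 10 29 (.sp 6 25 (.sp 14 11 (.hi 47)
 (.sp 6 23 (.sp 9 28 (.sp 6 22 (.sp 12 35 (.sp 5 21 (.hi 49)
 (.sp 12 31 (.sp 12 29 (.sp 2 29 (.hi 65)
 (.sp 0 25 (.hi 65)
 (.sp 0 38 (.sp 9 26 (.hi 52)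
 (.sp 1 39 (.sp 4 42 (.hi 78)
 (.sp 2 55 (.sp 2 40 (.hi 80)
 (.sp 10 26 (.sp 6 18 (.sp 4 57 (.sp 0 34 (.sp 6 15 (.hi 113)
 (.sp 1 35 (.sp 7 13 (.hi 113)
 (.sp 10 22 (.sp 0 32 (.hi 58)
 (.sp 10 19 (.sp 12 21 (.hi 128)
 (.lo 63))
 (.lo 61)))
 (.lo 61)))
 (.lo 57)))
 (.sp 6 16 (.sp 10 22 (.sp 12 22 (.hi 99)
 (.lo 63))
 (.lo 58))
 (.lo 56)))
 (.lo 77))
 (.lo 54))
 (.lo 54)))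
 (.lo 69)))
 (.lo 53)))
 (.sp 9 26 (.sp 1 54 (.sp 11 14 (.hi 68)
 (.sp 1 39 (.sp 10 27 (.sp 9 25 (.hi 53)
 (.sp 1 35 (.sp 6 15 (.hi 57)
 (.sp 1 33 (.sp 2 40 (.sp 4 29 (.hi 69)
 (.sp 6 18 (.hi 83)
 (.sp 10 26 (.sp 4 42 (.sp 12 28 (.sp 7 13 (.hi 113)
 (.sp 2 36 (.sp 10 22 (.hi 58)
 (.sp 2 34 (.sp 2 33 (.sp 8 61 (.sp 3 21 (.hi 75)
 (.sp 14 13 (.hi 75)
 (.sp 8 46 (.sp 12 22 (.hi 120)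
 (.sp 4 38 (.sp 1 32 (.hi 60)
 (.sp 12 24 (.hi 60)
 (.sp 4 36 (.sp 4 35 (.sp 8 42 (.sp 8 40 (.sp 0 42 (.hi 78)
 (.sp 8 39 (.sp 0 68 (.sp 6 20 (.hi 82)
 (.sp 0 53 (.sp 4 31 (.hi 67)
 (.sp 10 24 (.hi 86)
 (.sp 0 49 (.sp 8 35 (.hi 71)
 (.sp 0 47 (.sp 0 46 (.sp 12 26 (.hi 88)
 (.sp 7 14 (.hi 90)
 (.sp 2 31 (.hi 93)
 (.sp 4 33 (.hi 95)
 (.sp 8 37 (.hi 99)
 (.sp 14 14 (.hi 104)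
 (.sp 0 44 (.hi 106)
 (.sp 6 21 (.hi 111)
 (.sp 10 25 (.hi 115)
 (.sp 12 27 (.hi 117)
 (.sp 2 32 (.hi 122)
 (.sp 4 34 (.hi 124)
 (.sp 8 38 (.hi 128)
 (.sp 0 45 (.hi 135)
 .sol))))))))))))))
 (.lo 74))
 (.lo 73)))
 (.sp 8 35 (.hi 142)
 (.lo 71)))))
 (.sp 4 31 (.sp 8 35 (.hi 108)
 (.lo 71))
 (.lo 67))))
 (.lo 114))
 (.lo 110)))
 (.lo 66))
 (.lo 64))
 (.lo 63))
 (.lo 62))))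
 (.lo 62)))
 (.sp 1 28 (.sp 0 49 (.sp 4 38 (.hi 101)
 (.sp 12 24 (.hi 101)
 (.lo 60)))
 (.lo 71))
 (.lo 64)))))
 (.lo 79))
 (.lo 61))
 (.lo 61)))
 (.sp 10 22 (.sp 10 19 (.sp 8 61 (.sp 8 46 (.sp 0 47 (.hi 114)
 (.sp 8 42 (.hi 124)
 (.lo 73)))
 (.sp 1 28 (.sp 0 53 (.hi 124)
 (.lo 71))
 (.lo 64)))
 (.lo 79))
 (.lo 61))
 (.lo 58))))
 (.lo 56))
 (.lo 56))
 (.lo 54))))
 (.sp 10 26 (.sp 6 18 (.sp 10 22 (.sp 4 57 (.sp 4 42 (.sp 6 16 (.hi 85)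
 (.sp 12 28 (.sp 8 46 (.sp 4 38 (.sp 1 32 (.sp 10 20 (.hi 60)
 (.sp 7 13 (.sp 0 42 (.hi 78)
 (.sp 2 55 (.hi 90)
 (.lo 80)))
 (.lo 61)))
 (.sp 8 42 (.sp 12 24 (.sp 10 20 (.hi 60)
 (.sp 7 13 (.sp 2 55 (.hi 90)
 (.sp 4 36 (.sp 12 22 (.hi 62)
 (.sp 7 12 (.hi 62)
 (.lo 103)))
 (.lo 69)))
 (.lo 61)))
 (.sp 10 20 (.sp 4 35 (.sp 2 48 (.hi 106)
 (.sp 0 53 (.hi 123)
 (.lo 80)))
 (.lo 63))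
 (.lo 60)))
 (.lo 64)))
 (.sp 12 22 (.sp 2 55 (.sp 7 13 (.hi 113)
 (.sp 10 19 (.hi 120)
 (.lo 61)))
 (.lo 69))
 (.lo 63)))
 (.sp 1 26 (.sp 0 53 (.sp 2 55 (.hi 95)
 (.lo 73))
 (.lo 71))
 (.lo 66)))
 (.lo 56)))
 (.sp 6 16 (.sp 12 22 (.sp 2 55 (.sp 0 49 (.hi 99)
 (.sp 8 42 (.sp 1 28 (.hi 64)
 (.sp 8 40 (.sp 0 53 (.hi 95)
 (.lo 67))
 (.lo 66)))
 (.lo 71)))
 (.lo 69))
 (.lo 63))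
 (.lo 56)))
 (.lo 77))
 (.lo 58))
 (.lo 54))
 (.lo 54)))
 (.lo 59)))
 (.lo 59)))
 (.sp 9 25 (.sp 2 40 (.sp 6 18 (.hi 83)
 (.lo 54))
 (.lo 54))
 (.lo 53)))
 (.sp 10 27 (.sp 9 21 (.sp 8 42 (.hi 94)
 (.lo 64))
 (.lo 59))
 (.lo 53))))
 (.lo 72))
 (.lo 52)))))
 (.lo 55))
 (.lo 55)))
 (.sp 5 17 (.sp 5 15 (.sp 0 25 (.hi 65)
 (.sp 12 50 (.sp 0 38 (.sp 9 26 (.hi 52)
 (.sp 1 39 (.sp 10 27 (.sp 12 46 (.sp 8 40 (.hi 109)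
 (.sp 1 33 (.sp 0 31 (.hi 59)
 (.sp 4 36 (.sp 1 28 (.hi 92)
 (.lo 66))
 (.lo 63)))
 (.lo 66)))
 (.lo 77))
 (.lo 53))
 (.lo 53)))
 (.sp 4 36 (.sp 8 42 (.hi 92)
 (.sp 1 28 (.hi 92)
 (.lo 64)))
 (.lo 63)))
 (.lo 77)))
 (.lo 55))
 (.lo 55)))
 (.lo 50))
 (.lo 50))
 (.lo 50)))
 (.sp 14 9 (.sp 9 28 (.sp 14 8 (.sp 10 27 (.sp 2 40 (.sp 10 26 (.sp 0 38 (.hi 80)
 (.sp 9 26 (.sp 12 50 (.sp 12 35 (.sp 5 21 (.hi 49)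
 (.sp 12 31 (.sp 12 29 (.sp 4 42 (.sp 12 28 (.sp 1 54 (.sp 4 35 (.hi 106)
 (.sp 12 22 (.sp 12 21 (.sp 1 39 (.sp 9 25 (.hi 53)
 (.sp 1 33 (.sp 7 13 (.hi 113)
 (.sp 2 36 (.sp 10 22 (.hi 58)
 (.sp 2 33 (.sp 0 47 (.hi 102)
 (.sp 8 46 (.hi 120)
 (.lo 73)))
 (.lo 61)))
 (.sp 10 19 (.sp 8 46 (.hi 120)
 (.sp 1 28 (.hi 121)
 (.lo 64)))
 (.lo 61))))
 (.lo 59)))
 (.sp 9 21 (.sp 8 42 (.hi 94)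
 (.lo 64))
 (.lo 57)))
 (.lo 63))
 (.lo 63)))
 (.lo 72))
 (.lo 56))
 (.lo 56))
 (.lo 55))
 (.lo 55)))
 (.sp 5 15 (.sp 4 36 (.sp 8 42 (.hi 92)
 (.sp 1 28 (.hi 92)
 (.lo 64)))
 (.lo 63))
 (.lo 55)))
 (.lo 77))
 (.lo 52)))
 (.lo 54))
 (.lo 54))
 (.lo 54))
 (.lo 50))
 (.lo 50))
 (.lo 50)))
 (.lo 51))
 (.lo 51)))
 (.sp 6 25 (.sp 14 11 (.sp 10 33 (.hi 47)
 (.sp 3 19 (.hi 47)
 (.lo 51)))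
 (.lo 50))
 (.lo 50)))
 (.lo 48))
 (.lo 48)))
 (.sp 13 14 (.sp 13 10 (.sp 12 31 (.sp 12 29 (.sp 9 32 (.sp 3 20 (.hi 46)
 (.sp 10 33 (.sp 10 29 (.sp 6 25 (.sp 14 11 (.hi 47)
 (.sp 9 28 (.sp 6 22 (.sp 0 25 (.hi 65)
 (.sp 0 38 (.sp 9 26 (.hi 52)
 (.sp 1 39 (.sp 10 27 (.sp 2 40 (.hi 80)
 (.sp 6 18 (.sp 5 43 (.hi 83)
 (.sp 6 16 (.sp 1 35 (.sp 10 22 (.sp 0 32 (.hi 58)
 (.sp 4 42 (.hi 85)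
 (.lo 63)))
 (.lo 61))
 (.lo 57))
 (.lo 57)))
 (.lo 54)))
 (.lo 53))
 (.lo 53)))
 (.sp 1 54 (.sp 1 39 (.sp 10 27 (.sp 9 25 (.hi 53)
 (.sp 1 35 (.sp 2 40 (.sp 4 29 (.hi 69)
 (.sp 5 43 (.hi 83)
 (.lo 70)))
 (.sp 6 18 (.sp 5 43 (.hi 83)
 (.sp 6 16 (.sp 4 42 (.hi 85)
 (.lo 63))
 (.lo 57)))
 (.lo 54)))
 (.lo 59)))
 (.sp 9 25 (.sp 2 40 (.sp 6 18 (.hi 83)
 (.lo 54))
 (.lo 54))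
 (.lo 53)))
 (.sp 10 27 (.sp 9 21 (.sp 8 42 (.sp 5 36 (.hi 94)
 (.lo 64))
 (.lo 64))
 (.lo 59))
 (.lo 53)))
 (.lo 72))))
 (.lo 50))
 (.lo 50)))
 (.sp 10 27 (.sp 2 40 (.sp 0 25 (.hi 65)
 (.sp 1 54 (.sp 1 39 (.sp 9 25 (.hi 53)
 (.sp 5 43 (.hi 83)
 (.lo 57)))
 (.sp 9 25 (.sp 5 43 (.hi 83)
 (.lo 57))
 (.lo 53)))
 (.lo 72)))
 (.lo 54))
 (.lo 54)))
 (.lo 51))
 (.lo 51)))
 (.sp 6 25 (.sp 14 11 (.sp 10 33 (.hi 47)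
 (.sp 3 19 (.hi 47)
 (.lo 51)))
 (.lo 50))
 (.lo 50)))
 (.lo 55))
 (.lo 55))
 (.lo 48))
 (.lo 42)))
 (.lo 41)))
 (.lo 44))
 (.lo 40)))
 (.sp 11 13 (.sp 4 27 (.sp 5 28 (.sp 5 24 (.sp 5 22 (.sp 3 26 (.sp 11 12 (.hi 40)
 (.sp 9 32 (.sp 3 20 (.hi 46)
 (.sp 10 33 (.sp 2 40 (.hi 69)
 (.sp 6 25 (.sp 14 11 (.hi 47)
 (.sp 6 23 (.sp 9 28 (.sp 0 27 (.hi 63)
 (.sp 12 35 (.sp 5 21 (.hi 49)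
 (.sp 0 38 (.hi 78)
 (.lo 84)))
 (.sp 0 38 (.sp 9 26 (.hi 52)
 (.sp 2 55 (.hi 69)
 (.lo 82)))
 (.lo 84))))
 (.lo 50))
 (.lo 50)))
 (.lo 54)))
 (.lo 51)))
 (.sp 6 25 (.sp 14 11 (.sp 10 33 (.hi 47)
 (.sp 3 19 (.hi 47)
 (.lo 51)))
 (.lo 50))
 (.lo 50))))
 (.sp 11 12 (.sp 11 8 (.sp 10 33 (.sp 10 29 (.sp 9 32 (.sp 6 25 (.sp 14 11 (.hi 47)
 (.sp 6 23 (.sp 9 28 (.sp 6 22 (.sp 0 27 (.hi 63)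
 (.sp 12 50 (.sp 12 35 (.sp 5 21 (.hi 49)
 (.sp 12 31 (.sp 3 41 (.sp 0 38 (.hi 78)
 (.sp 9 26 (.sp 1 54 (.sp 1 39 (.sp 8 46 (.hi 81)
 (.sp 1 28 (.sp 3 30 (.hi 94)
 (.lo 66))
 (.lo 64)))
 (.sp 9 25 (.sp 8 42 (.hi 94)
 (.lo 64))
 (.lo 53)))
 (.lo 72))
 (.lo 52)))
 (.lo 55))
 (.lo 55)))
 (.sp 5 17 (.sp 3 41 (.sp 5 15 (.sp 0 38 (.sp 9 26 (.hi 52)
 (.sp 1 39 (.sp 10 27 (.sp 2 40 (.hi 80)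
 (.sp 6 18 (.hi 83)
 (.lo 54)))
 (.lo 53))
 (.lo 53)))
 (.sp 9 26 (.sp 1 54 (.sp 1 39 (.sp 8 46 (.hi 81)
 (.sp 1 28 (.sp 3 34 (.sp 0 53 (.sp 6 16 (.hi 92)
 (.sp 5 14 (.hi 93)
 (.lo 56)))
 (.lo 71))
 (.lo 66))
 (.lo 64)))
 (.sp 9 25 (.sp 8 42 (.sp 3 30 (.hi 94)
 (.lo 66))
 (.lo 64))
 (.lo 53)))
 (.lo 72))
 (.lo 52)))
 (.lo 55))
 (.lo 55))
 (.lo 55)))
 (.lo 70)))
 (.lo 50))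
 (.lo 50))
 (.lo 50)))
 (.sp 14 9 (.sp 10 27 (.sp 2 40 (.sp 0 27 (.hi 63)
 (.sp 12 50 (.sp 12 35 (.sp 5 21 (.hi 49)
 (.sp 12 31 (.sp 3 41 (.sp 1 54 (.sp 1 39 (.hi 83)
 (.sp 9 25 (.hi 83)
 (.lo 53)))
 (.lo 72))
 (.lo 55))
 (.lo 55)))
 (.sp 5 17 (.sp 3 41 (.sp 1 54 (.sp 1 39 (.hi 83)
 (.sp 9 25 (.hi 83)
 (.lo 53)))
 (.lo 72))
 (.lo 55))
 (.lo 55)))
 (.lo 70)))
 (.lo 54))
 (.lo 54))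
 (.lo 50)))
 (.sp 6 25 (.sp 14 11 (.hi 47)
 (.lo 50))
 (.lo 50)))
 (.lo 51))
 (.lo 51))
 (.lo 44))
 (.lo 40)))
 (.lo 48))
 (.lo 48))
 (.lo 42))
 (.lo 41))
 (.lo 39)))
 (.lo 43))
 (.lo 43))
 (.lo 43))
 (.lo 43)))))))
 (.lo 37))
 (.lo 36))
 (.lo 35)))
 (.lo 37)))))
 (.lo 29))))))))

theorem run_4_15 : run 15 4 142 11150372599265311570767859136324179670100097 tr_4_15 = true := by decide +kernel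

/-- search tree -/
def tr_4_16 : Tr :=
 (.sp 12 4 (.hi 20)
 (.sp 14 6 (.hi 22)
 (.sp 15 7 (.hi 23)
 (.sp 4 12 (.hi 28)
 (.sp 6 14 (.hi 30)
 (.sp 7 15 (.hi 31)
 (.sp 8 16 (.hi 32)
 (.sp 10 18 (.hi 34)
 (.sp 11 19 (.hi 35)
 (.sp 12 20 (.sp 13 21 (.hi 37)
 (.sp 14 22 (.sp 15 23 (.sp 9 33 (.hi 49)
 (.sp 5 25 (.hi 49)
 (.sp 3 21 (.hi 49)
 (.sp 2 19 (.hi 49)
 (.sp 0 24 (.sp 12 16 (.hi 40)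
 (.sp 10 28 (.hi 56)
 (.sp 4 16 (.hi 56)
 (.sp 0 8 (.hi 56)
 (.sp 2 26 (.sp 14 18 (.hi 42)
 (.sp 4 28 (.sp 0 20 (.sp 3 27 (.sp 15 19 (.hi 43)
 (.sp 5 29 (.sp 6 30 (.sp 8 32 (.hi 68)
 (.sp 0 17 (.sp 7 31 (.hi 47)
 (.lo 54))
 (.lo 52)))
 (.sp 4 24 (.sp 8 32 (.hi 48)
 (.lo 52))
 (.lo 50)))
 (.lo 45)))
 (.sp 15 19 (.sp 6 30 (.sp 11 35 (.hi 74)
 (.sp 0 18 (.sp 15 16 (.hi 46)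
 (.sp 7 31 (.sp 0 17 (.hi 47)
 (.lo 55))
 (.lo 51)))
 (.lo 55)))
 (.sp 4 24 (.sp 8 32 (.hi 48)
 (.lo 52))
 (.lo 50)))
 (.lo 43)))
 (.lo 44))
 (.lo 44)))
 (.sp 14 18 (.sp 3 27 (.sp 15 19 (.hi 43)
 (.sp 0 20 (.sp 6 30 (.sp 4 28 (.sp 14 16 (.hi 44)
 (.sp 5 29 (.sp 8 32 (.hi 68)
 (.sp 0 17 (.sp 7 31 (.hi 47)
 (.lo 54))
 (.lo 52)))
 (.lo 45)))
 (.sp 7 31 (.sp 0 17 (.hi 47)
 (.sp 10 34 (.sp 1 35 (.hi 63)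
 (.sp 6 26 (.sp 14 10 (.hi 50)
 (.lo 83))
 (.lo 83)))
 (.lo 54)))
 (.lo 51)))
 (.lo 46))
 (.lo 46)))
 (.sp 15 19 (.sp 4 28 (.sp 0 20 (.sp 14 16 (.hi 44)
 (.sp 6 30 (.sp 0 18 (.sp 15 16 (.hi 46)
 (.sp 7 31 (.sp 0 17 (.hi 47)
 (.sp 8 32 (.sp 4 24 (.hi 48)
 (.sp 11 35 (.sp 7 25 (.sp 2 42 (.hi 74)
 (.sp 6 23 (.sp 13 37 (.hi 53)
 (.sp 1 37 (.sp 5 45 (.hi 61)
 (.lo 67))
 (.lo 64)))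
 (.lo 58)))
 (.lo 54))
 (.lo 51)))
 (.lo 52)))
 (.sp 4 24 (.sp 8 32 (.hi 48)
 (.lo 54))
 (.lo 51))))
 (.sp 11 35 (.sp 2 42 (.hi 74)
 (.sp 11 29 (.sp 1 41 (.sp 13 33 (.hi 57)
 (.sp 1 37 (.sp 5 45 (.hi 61)
 (.lo 67))
 (.lo 64)))
 (.lo 64))
 (.lo 58)))
 (.lo 55)))
 (.sp 4 24 (.sp 8 32 (.hi 48)
 (.lo 52))
 (.lo 50))))
 (.sp 15 17 (.sp 14 15 (.hi 45)
 (.sp 8 32 (.sp 4 24 (.hi 48)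
 (.sp 11 35 (.sp 7 27 (.sp 15 11 (.hi 51)
 (.sp 7 25 (.sp 1 41 (.sp 1 37 (.sp 5 45 (.hi 61)
 (.sp 13 37 (.sp 6 23 (.hi 53)
 (.sp 11 29 (.sp 13 33 (.hi 57)
 (.lo 67))
 (.lo 58)))
 (.lo 67)))
 (.lo 84))
 (.lo 84))
 (.lo 54)))
 (.sp 15 9 (.sp 13 37 (.sp 6 23 (.hi 53)
 (.sp 11 29 (.sp 13 33 (.sp 1 41 (.hi 57)
 (.lo 84))
 (.lo 59))
 (.lo 58)))
 (.lo 59))
 (.lo 54)))
 (.lo 55)))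
 (.lo 52)))
 (.lo 46)))
 (.sp 0 20 (.sp 8 32 (.sp 5 29 (.sp 15 17 (.hi 45)
 (.sp 6 30 (.hi 68)
 (.lo 46)))
 (.sp 15 17 (.sp 14 15 (.hi 45)
 (.sp 6 30 (.sp 0 18 (.sp 15 16 (.hi 46)
 (.sp 7 31 (.sp 0 17 (.hi 47)
 (.sp 7 25 (.sp 1 41 (.sp 5 45 (.hi 77)
 (.sp 13 37 (.sp 6 23 (.hi 53)
 (.sp 11 29 (.sp 13 33 (.hi 57)
 (.lo 67))
 (.lo 58)))
 (.lo 67)))
 (.lo 78))
 (.lo 54)))
 (.lo 51)))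
 (.sp 1 41 (.sp 1 37 (.sp 5 45 (.hi 61)
 (.sp 13 37 (.sp 13 33 (.sp 11 29 (.hi 57)
 (.sp 6 23 (.sp 7 25 (.hi 53)
 (.sp 15 9 (.hi 53)
 (.lo 54)))
 (.lo 58)))
 (.lo 67))
 (.lo 67)))
 (.lo 78))
 (.lo 78)))
 (.lo 50)))
 (.sp 14 15 (.sp 6 30 (.sp 0 18 (.sp 7 31 (.sp 0 17 (.hi 47)
 (.sp 11 35 (.sp 10 34 (.sp 7 25 (.sp 10 30 (.sp 8 26 (.sp 7 24 (.sp 11 31 (.sp 8 25 (.sp 6 26 (.sp 14 10 (.hi 50)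
 (.sp 6 24 (.sp 5 38 (.hi 68)
 (.sp 13 37 (.sp 6 23 (.hi 53)
 (.sp 11 29 (.sp 2 42 (.sp 2 30 (.hi 70)
 (.sp 1 41 (.sp 13 33 (.hi 57)
 (.sp 5 45 (.hi 77)
 (.lo 67)))
 (.sp 2 36 (.sp 9 45 (.sp 4 37 (.sp 9 43 (.sp 3 31 (.hi 71)
 (.sp 9 42 (.sp 4 32 (.sp 1 57 (.sp 13 30 (.hi 104)
 (.sp 5 39 (.sp 3 43 (.hi 114)
 (.sp 13 31 (.sp 7 19 (.hi 99)
 (.lo 59))
 (.lo 59)))
 (.lo 67)))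
 (.lo 73))
 (.lo 72))
 (.lo 72)))
 (.lo 72))
 (.lo 72))
 (.lo 69))
 (.lo 64))))
 (.lo 58))
 (.lo 58)))
 (.sp 1 41 (.sp 5 45 (.hi 77)
 (.lo 67))
 (.lo 57))))
 (.lo 52)))
 (.sp 14 8 (.sp 11 29 (.sp 2 30 (.hi 70)
 (.sp 1 41 (.sp 13 33 (.hi 57)
 (.sp 5 45 (.hi 77)
 (.lo 67)))
 (.sp 13 33 (.sp 2 36 (.sp 4 38 (.sp 9 43 (.hi 118)
 (.lo 72))
 (.lo 72))
 (.lo 64))
 (.lo 57))))
 (.lo 58))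
 (.lo 52)))
 (.lo 55))
 (.lo 55))
 (.lo 54))
 (.lo 54))
 (.lo 54))
 (.lo 54))
 (.lo 54))
 (.lo 51)))
 (.lo 51))
 (.lo 46))
 (.lo 46))
 (.lo 45))))
 (.lo 48))
 (.lo 44)))
 (.lo 43)))
 (.lo 42)))))))
 (.sp 12 16 (.sp 14 18 (.sp 2 26 (.hi 42)
 (.sp 12 14 (.hi 42)
 (.sp 4 28 (.sp 14 16 (.sp 15 19 (.sp 3 27 (.hi 43)
 (.sp 15 17 (.sp 5 29 (.hi 45)
 (.sp 14 15 (.hi 45)
 (.sp 6 30 (.sp 15 16 (.sp 7 31 (.sp 8 32 (.sp 4 24 (.hi 48)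
 (.sp 10 34 (.sp 6 26 (.sp 6 24 (.sp 11 35 (.sp 8 26 (.sp 11 31 (.sp 8 25 (.sp 7 27 (.sp 15 11 (.hi 51)
 (.sp 7 25 (.sp 10 30 (.sp 7 24 (.sp 13 37 (.sp 6 23 (.hi 53)
 (.sp 11 29 (.sp 2 42 (.sp 11 28 (.sp 2 30 (.hi 70)
 (.sp 0 40 (.sp 10 28 (.hi 56)
 (.sp 1 41 (.sp 13 33 (.hi 57)
 (.sp 3 43 (.sp 7 19 (.sp 5 45 (.hi 89)
 (.lo 67))
 (.lo 59))
 (.lo 59)))
 (.sp 13 33 (.sp 2 38 (.sp 9 43 (.sp 3 31 (.hi 71)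
 (.sp 3 43 (.sp 5 38 (.hi 114)
 (.sp 13 31 (.sp 7 19 (.hi 59)
 (.sp 5 45 (.sp 13 22 (.hi 114)
 (.sp 0 34 (.sp 8 18 (.hi 62)
 (.sp 3 39 (.hi 94)
 (.sp 11 23 (.hi 94)
 (.lo 63))))
 (.lo 68)))
 (.lo 61)))
 (.sp 7 19 (.sp 5 45 (.sp 1 57 (.hi 89)
 (.sp 12 15 (.sp 9 37 (.hi 117)
 (.lo 77))
 (.lo 73)))
 (.lo 67))
 (.lo 59))))
 (.sp 11 23 (.sp 0 34 (.hi 94)
 (.sp 8 18 (.hi 94)
 (.lo 63)))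
 (.lo 66))))
 (.lo 72))
 (.lo 64))
 (.lo 57))))
 (.sp 10 28 (.sp 13 33 (.sp 1 41 (.hi 57)
 (.sp 10 27 (.hi 57)
 (.sp 13 31 (.sp 13 30 (.sp 8 20 (.sp 2 38 (.sp 9 45 (.sp 9 43 (.sp 0 56 (.sp 5 38 (.hi 100)
 (.sp 13 22 (.sp 5 45 (.hi 100)
 (.sp 7 19 (.sp 3 43 (.hi 59)
 (.sp 8 18 (.hi 102)
 (.lo 63)))
 (.lo 61)))
 (.lo 68)))
 (.lo 72))
 (.lo 72))
 (.lo 69))
 (.lo 64))
 (.lo 60))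
 (.lo 60))
 (.lo 60))))
 (.lo 60))
 (.lo 56))))
 (.lo 58))
 (.lo 58))
 (.lo 58)))
 (.sp 6 23 (.sp 5 45 (.sp 1 37 (.hi 61)
 (.sp 9 49 (.sp 13 53 (.sp 9 45 (.sp 1 41 (.hi 85)
 (.sp 10 28 (.sp 0 40 (.hi 56)
 (.sp 8 20 (.sp 6 16 (.sp 5 38 (.hi 100)
 (.lo 68))
 (.lo 60))
 (.lo 60)))
 (.lo 57)))
 (.lo 69))
 (.lo 69))
 (.lo 69)))
 (.lo 67))
 (.lo 53)))
 (.lo 54))
 (.lo 54))
 (.lo 54)))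
 (.sp 15 11 (.sp 15 9 (.sp 10 30 (.sp 15 8 (.sp 13 37 (.sp 6 23 (.hi 53)
 (.sp 11 29 (.sp 2 42 (.sp 13 33 (.sp 1 41 (.hi 57)
 (.sp 10 27 (.hi 57)
 (.sp 3 43 (.sp 13 31 (.sp 5 45 (.sp 2 38 (.sp 0 40 (.sp 10 28 (.hi 56)
 (.sp 13 30 (.hi 114)
 (.sp 0 36 (.sp 8 20 (.sp 11 23 (.hi 91)
 (.sp 3 39 (.sp 0 34 (.hi 94)
 (.lo 96))
 (.lo 66)))
 (.lo 60))
 (.lo 60))))
 (.lo 90))
 (.lo 64))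
 (.lo 61))
 (.lo 59))
 (.lo 59))))
 (.lo 59))
 (.lo 58))
 (.lo 58)))
 (.lo 59))
 (.lo 54))
 (.lo 54))
 (.lo 54))
 (.lo 51)))
 (.lo 55))
 (.lo 55))
 (.lo 55))
 (.lo 55))
 (.lo 52))
 (.lo 50))
 (.lo 50)))
 (.lo 52))
 (.lo 47))
 (.lo 46))
 (.lo 46))))
 (.lo 46)))
 (.lo 46))
 (.lo 44))
 (.lo 44))))
 (.lo 44))
 (.lo 40)))))))
 (.lo 39))
 (.lo 38)))
 (.lo 36)))))))))))

theorem run_4_16 : run 16 4 118 664613997892457936451903521513591041 tr_4_16 = true := by decide +kernel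

/-- search tree -/
def tr_4_17 : Tr :=
 (.sp 13 4 (.hi 22)
 (.sp 15 6 (.hi 24)
 (.sp 16 7 (.hi 25)
 (.sp 5 13 (.hi 31)
 (.sp 7 15 (.hi 33)
 (.sp 8 16 (.hi 34)
 (.sp 9 17 (.hi 35)
 (.sp 11 19 (.hi 37)
 (.sp 12 20 (.hi 38)
 (.sp 13 21 (.sp 14 22 (.hi 40)
 (.sp 15 23 (.sp 13 17 (.sp 1 26 (.hi 44)
 (.sp 8 33 (.hi 51)
 (.sp 4 25 (.hi 51)
 (.sp 10 35 (.hi 53)
 (.sp 6 27 (.hi 53)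
 (.sp 3 21 (.hi 53)
 (.sp 16 20 (.sp 3 28 (.hi 46)
 (.sp 13 14 (.hi 46)
 (.sp 7 32 (.sp 16 18 (.sp 16 17 (.sp 6 31 (.hi 49)
 (.sp 9 34 (.sp 5 26 (.hi 52)
 (.sp 12 37 (.sp 11 36 (.sp 9 30 (.sp 16 9 (.sp 11 32 (.sp 9 28 (.sp 16 8 (.sp 12 33 (.sp 15 19 (.sp 4 29 (.sp 15 17 (.hi 47)
 (.sp 0 42 (.hi 77)
 (.sp 14 39 (.sp 7 25 (.hi 57)
 (.sp 2 44 (.hi 79)
 (.lo 96)))
 (.lo 64))))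
 (.sp 15 17 (.sp 5 30 (.sp 15 16 (.hi 48)
 (.sp 7 26 (.sp 14 39 (.sp 7 25 (.hi 57)
 (.sp 14 35 (.sp 3 45 (.sp 14 33 (.sp 0 42 (.sp 6 48 (.hi 90)
 (.sp 8 50 (.hi 92)
 (.lo 72)))
 (.sp 1 43 (.sp 12 31 (.hi 61)
 (.sp 2 44 (.sp 4 39 (.sp 8 50 (.hi 92)
 (.sp 6 48 (.hi 129)
 (.lo 72)))
 (.lo 71))
 (.lo 62)))
 (.sp 8 50 (.sp 2 44 (.hi 92)
 (.sp 12 31 (.sp 11 29 (.hi 61)
 (.lo 97))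
 (.lo 62)))
 (.lo 74))))
 (.lo 63))
 (.lo 63))
 (.lo 63)))
 (.sp 0 42 (.sp 8 50 (.hi 92)
 (.lo 72))
 (.lo 64)))
 (.lo 56)))
 (.sp 15 16 (.sp 7 28 (.sp 15 10 (.hi 54)
 (.sp 7 26 (.sp 14 39 (.sp 7 25 (.hi 57)
 (.sp 14 35 (.sp 3 45 (.sp 14 33 (.sp 0 42 (.sp 6 48 (.hi 90)
 (.sp 8 50 (.hi 92)
 (.lo 72)))
 (.sp 4 46 (.sp 1 43 (.sp 12 31 (.hi 61)
 (.sp 2 44 (.sp 5 47 (.hi 95)
 (.lo 71))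
 (.lo 62)))
 (.sp 5 47 (.sp 9 21 (.hi 97)
 (.lo 65))
 (.lo 65)))
 (.lo 64)))
 (.lo 63))
 (.lo 63))
 (.lo 63)))
 (.sp 0 42 (.sp 8 50 (.hi 92)
 (.lo 72))
 (.lo 64)))
 (.lo 56)))
 (.sp 15 8 (.sp 14 39 (.sp 14 35 (.sp 3 45 (.sp 0 42 (.sp 6 48 (.hi 90)
 (.sp 8 50 (.hi 92)
 (.lo 72)))
 (.sp 1 43 (.sp 12 31 (.hi 61)
 (.sp 2 44 (.sp 5 47 (.hi 95)
 (.lo 71))
 (.lo 62)))
 (.sp 5 47 (.sp 9 21 (.sp 8 50 (.sp 2 44 (.hi 92)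
 (.sp 12 31 (.sp 1 60 (.hi 95)
 (.sp 6 35 (.sp 2 61 (.hi 79)
 (.lo 85))
 (.lo 82)))
 (.lo 62)))
 (.lo 74))
 (.lo 65))
 (.lo 65))))
 (.lo 63))
 (.lo 63))
 (.lo 63))
 (.lo 56)))
 (.lo 48)))
 (.lo 47)))
 (.sp 13 15 (.sp 4 29 (.sp 2 44 (.hi 79)
 (.sp 12 31 (.sp 14 39 (.sp 7 25 (.hi 57)
 (.sp 14 35 (.sp 1 43 (.hi 61)
 (.sp 8 50 (.sp 0 42 (.hi 92)
 (.lo 96))
 (.lo 74)))
 (.lo 63)))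
 (.sp 0 42 (.sp 8 50 (.hi 92)
 (.lo 72))
 (.lo 64)))
 (.lo 62)))
 (.lo 47))
 (.lo 45)))
 (.lo 59))
 (.lo 58))
 (.lo 58))
 (.lo 58))
 (.lo 58))
 (.lo 58))
 (.lo 58))
 (.lo 55)))
 (.lo 58)))
 (.lo 58))
 (.lo 58))
 (.lo 50))))
 (.lo 58))))))))
 (.lo 43))
 (.lo 41)))
 (.lo 39)))))))))))

theorem run_4_17 : run 17 4 129 1361129467683753853853498429641026806273 tr_4_17 = true := by decide +kernel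

/-- search tree -/
def tr_4_18 : Tr :=
 (.sp 14 4 (.hi 24)
 (.sp 16 6 (.hi 26)
 (.sp 17 7 (.hi 27)
 (.sp 10 18 (.hi 38)
 (.sp 15 23 (.hi 43)
 (.sp 7 33 (.hi 53)
 (.sp 8 34 (.hi 54)
 (.sp 16 20 (.sp 2 28 (.hi 48)
 (.sp 17 19 (.sp 16 17 (.hi 51)
 (.lo 60))
 (.lo 52)))
 (.lo 60)))))))))

theorem run_4_18 : run 18 4 60 2305842252712461313 tr_4_18 = true := by decide +kernel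

/-- search tree -/
def tr_4_19 : Tr :=
 (.sp 15 4 (.hi 26)
 (.sp 17 6 (.hi 28)
 (.sp 18 7 (.hi 29)
 (.sp 16 24 (.hi 46)
 (.sp 8 35 (.hi 57)
 (.sp 9 36 (.hi 58)
 (.sp 10 37 (.hi 59)
 (.sp 17 18 (.sp 18 20 (.hi 54)
 (.lo 66))
 (.lo 64)))))))))

theorem run_4_19 : run 19 4 66 147429831077060315137 tr_4_19 = true := by decide +kernel

/-- search tree -/
def tr_4_20 : Tr :=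
 (.sp 16 4 (.hi 28)
 (.sp 19 7 (.hi 31)
 (.sp 14 22 (.hi 46)
 (.sp 15 23 (.hi 47)
 (.sp 17 25 (.hi 49)
 (.sp 7 35 (.hi 59)
 (.sp 8 36 (.hi 60)
 (.sp 9 37 (.hi 61)
 (.sp 10 38 (.hi 62)
 (.sp 11 39 (.hi 63)
 (.sp 18 22 (.sp 16 18 (.hi 54)
 (.sp 18 19 (.sp 19 21 (.hi 57)
 (.lo 67))
 (.lo 66)))
 (.lo 68))))))))))))

theorem run_4_20 : run 20 4 68 587989915663051067393 tr_4_20 = true := by decide +kernel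

/-- search tree -/
def tr_4_21 : Tr :=
 (.sp 20 7 (.hi 33)
 (.sp 15 23 (.hi 49)
 (.sp 16 24 (.hi 50)
 (.sp 18 26 (.hi 52)
 (.sp 19 23 (.sp 17 19 (.hi 57)
 (.sp 20 22 (.sp 19 20 (.hi 60)
 (.sp 8 37 (.hi 63)
 (.sp 9 38 (.hi 64)
 (.sp 11 40 (.hi 66)
 (.lo 70)))))
 (.lo 61)))
 (.lo 59))))))

theorem run_4_21 : run 21 4 70 2315065963398550921217 tr_4_21 = true := by decide +kernel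

/-- search tree -/
def tr_4_22 : Tr :=
 (.sp 21 7 (.hi 35)
 (.sp 16 24 (.hi 52)
 (.sp 17 25 (.hi 53)
 (.sp 19 27 (.hi 55)
 (.sp 20 24 (.sp 18 20 (.hi 60)
 (.sp 9 39 (.hi 67)
 (.sp 10 40 (.hi 68)
 (.sp 11 41 (.hi 69)
 (.sp 12 42 (.hi 70)
 (.sp 13 43 (.hi 71)
 (.sp 20 21 (.sp 21 23 (.hi 63)
 (.lo 75))
 (.lo 74))))))))
 (.lo 62))))))

theorem run_4_22 : run 22 4 75 74746203626413248233473 tr_4_22 = true := by decide +kernel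

/-- search tree -/
def tr_4_23 : Tr :=
 (.sp 22 7 (.hi 37)
 (.sp 17 25 (.hi 55)
 (.sp 18 26 (.hi 56)
 (.sp 20 28 (.hi 58)
 (.sp 21 25 (.sp 19 21 (.hi 63)
 (.sp 22 24 (.sp 21 22 (.hi 66)
 (.sp 10 41 (.hi 71)
 (.sp 11 42 (.hi 72)
 (.sp 13 44 (.hi 74)
 (.lo 78)))))
 (.lo 67)))
 (.lo 65))))))

theorem run_4_23 : run 23 4 78 590886079217234048745473 tr_4_23 = true := by decide +kernel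

/-- search tree -/
def tr_4_24 : Tr :=
 (.sp 23 7 (.hi 39)
 (.sp 18 26 (.hi 58)
 (.sp 19 27 (.hi 59)
 (.sp 21 29 (.hi 61)
 (.sp 22 26 (.sp 20 22 (.hi 66)
 (.sp 23 25 (.sp 22 23 (.hi 69)
 (.sp 11 43 (.hi 75)
 (.sp 12 44 (.hi 76)
 (.sp 14 46 (.hi 78)
 (.lo 82)))))
 (.lo 70)))
 (.lo 68))))))

theorem run_4_24 : run 24 4 82 9449455116328447767543809 tr_4_24 = true := by decide +kernel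

/-- search tree -/
def tr_4_25 : Tr :=
 (.sp 24 7 (.hi 41)
 (.sp 19 27 (.hi 61)
 (.sp 20 28 (.hi 62)
 (.sp 22 30 (.hi 64)
 (.sp 23 27 (.sp 21 23 (.hi 69)
 (.sp 24 26 (.sp 23 24 (.hi 72)
 (.sp 12 45 (.hi 79)
 (.sp 13 46 (.hi 80)
 (.sp 15 48 (.hi 82)
 (.lo 86)))))
 (.lo 73)))
 (.lo 71))))))

theorem run_4_25 : run 25 4 86 151153504655425626297204737 tr_4_25 = true := by decide +kernel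

/-- search tree -/
def tr_4_26 : Tr :=
 (.sp 25 7 (.hi 43)
 (.sp 20 28 (.hi 64)
 (.sp 21 29 (.hi 65)
 (.sp 23 31 (.hi 67)
 (.sp 24 28 (.sp 22 24 (.hi 72)
 (.sp 25 27 (.sp 24 25 (.hi 75)
 (.sp 13 47 (.hi 83)
 (.sp 14 48 (.hi 84)
 (.sp 16 50 (.hi 86)
 (.lo 90)))))
 (.lo 76)))
 (.lo 74))))))

theorem run_4_26 : run 26 4 90 2418153856853569068199051265 tr_4_26 = true := by decide +kernel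

/-- search tree -/
def tr_4_27 : Tr :=
 (.sp 26 7 (.hi 45)
 (.sp 21 29 (.hi 67)
 (.sp 22 30 (.hi 68)
 (.sp 24 32 (.hi 70)
 (.sp 25 29 (.sp 23 25 (.hi 75)
 (.sp 26 28 (.sp 25 26 (.hi 78)
 (.sp 14 49 (.hi 87)
 (.sp 15 50 (.hi 88)
 (.sp 17 52 (.hi 90)
 (.lo 94)))))
 (.lo 79)))
 (.lo 77))))))

theorem run_4_27 : run 27 4 94 38688043968644758873680904193 tr_4_27 = true := by decide +kernel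

/-- search tree -/
def tr_4_28 : Tr :=
 (.sp 27 7 (.hi 47)
 (.sp 22 30 (.hi 70)
 (.sp 23 31 (.hi 71)
 (.sp 25 33 (.hi 73)
 (.sp 26 30 (.sp 24 26 (.hi 78)
 (.sp 27 29 (.sp 26 27 (.hi 81)
 (.sp 15 51 (.hi 91)
 (.sp 16 52 (.hi 92)
 (.sp 18 54 (.hi 94)
 (.lo 98)))))
 (.lo 82)))
 (.lo 80))))))

theorem run_4_28 : run 28 4 98 618989361570431697846044459009 tr_4_28 = true := by decide +kernel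

/-- search tree -/
def tr_4_29 : Tr :=
 (.sp 28 7 (.hi 49)
 (.sp 23 31 (.hi 73)
 (.sp 24 32 (.hi 74)
 (.sp 26 34 (.hi 76)
 (.sp 27 31 (.sp 25 27 (.hi 81)
 (.sp 28 30 (.sp 27 28 (.hi 84)
 (.sp 16 53 (.hi 95)
 (.sp 17 54 (.hi 96)
 (.sp 19 56 (.hi 98)
 (.lo 102)))))
 (.lo 85)))
 (.lo 83))))))

theorem run_4_29 : run 29 4 102 9903675049704688914893432160257 tr_4_29 = true := by decide +kernel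

/-- search tree -/
def tr_4_30 : Tr :=
 (.sp 29 7 (.hi 51)
 (.sp 24 32 (.hi 76)
 (.sp 25 33 (.hi 77)
 (.sp 27 35 (.hi 79)
 (.sp 28 32 (.sp 26 28 (.hi 84)
 (.sp 29 31 (.sp 28 29 (.hi 87)
 (.sp 17 55 (.hi 99)
 (.sp 18 56 (.hi 100)
 (.sp 20 58 (.hi 102)
 (.lo 106)))))
 (.lo 88)))
 (.lo 86))))))

theorem run_4_30 : run 30 4 106 158457562911900705842808355815425 tr_4_30 = true := by decide +kernel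

/-- search tree -/
def tr_4_31 : Tr :=
 (.sp 30 7 (.hi 53)
 (.sp 25 33 (.hi 79)
 (.sp 26 34 (.hi 80)
 (.sp 28 36 (.hi 82)
 (.sp 29 33 (.sp 27 29 (.hi 87)
 (.sp 30 32 (.sp 29 30 (.hi 90)
 (.sp 18 57 (.hi 103)
 (.sp 19 58 (.hi 104)
 (.sp 21 60 (.hi 106)
 (.lo 110)))))
 (.lo 91)))
 (.lo 89))))))

theorem run_4_31 : run 31 4 110 2535311103523430475959643104346113 tr_4_31 = true := by decide +kernel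

/-- search tree -/
def tr_4_32 : Tr :=
 (.sp 31 7 (.hi 55)
 (.sp 26 34 (.hi 82)
 (.sp 27 35 (.hi 83)
 (.sp 29 37 (.hi 85)
 (.sp 30 34 (.sp 28 30 (.hi 90)
 (.sp 31 33 (.sp 30 31 (.hi 93)
 (.sp 19 59 (.hi 107)
 (.sp 20 60 (.hi 108)
 (.sp 22 62 (.hi 110)
 (.lo 114)))))
 (.lo 94)))
 (.lo 92))))))

theorem run_4_32 : run 32 4 114 40564898431839095942506298849886209 tr_4_32 = true := by decide +kernel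

/-- search tree -/
def tr_4_33 : Tr :=
 (.sp 32 7 (.hi 57)
 (.sp 27 35 (.hi 85)
 (.sp 28 36 (.hi 86)
 (.sp 30 38 (.hi 88)
 (.sp 31 35 (.sp 29 31 (.hi 93)
 (.sp 32 34 (.sp 31 32 (.hi 96)
 (.sp 20 61 (.hi 111)
 (.sp 21 62 (.hi 112)
 (.sp 23 64 (.hi 114)
 (.lo 118)))))
 (.lo 97)))
 (.lo 95))))))

theorem run_4_33 : run 33 4 118 649037741113139421166734043330379777 tr_4_33 = true := by decide +kernel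

/-- search tree -/
def tr_4_34 : Tr :=
 (.sp 33 7 (.hi 59)
 (.sp 28 36 (.hi 88)
 (.sp 29 37 (.hi 89)
 (.sp 31 39 (.hi 91)
 (.sp 32 36 (.sp 30 32 (.hi 96)
 (.sp 33 35 (.sp 32 33 (.hi 99)
 (.sp 21 63 (.hi 115)
 (.sp 22 64 (.hi 116)
 (.sp 24 66 (.hi 118)
 (.lo 122)))))
 (.lo 100)))
 (.lo 98))))))

theorem run_4_34 : run 34 4 122 10384598787439942705238479245760528385 tr_4_34 = true := by decide +kernel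

/-- search tree -/
def tr_4_35 : Tr :=
 (.sp 34 7 (.hi 61)
 (.sp 29 37 (.hi 91)
 (.sp 30 38 (.hi 92)
 (.sp 32 40 (.hi 94)
 (.sp 33 37 (.sp 31 33 (.hi 99)
 (.sp 34 36 (.sp 33 34 (.hi 102)
 (.sp 22 65 (.hi 119)
 (.sp 23 66 (.hi 120)
 (.sp 25 68 (.hi 122)
 (.lo 126)))))
 (.lo 103)))
 (.lo 101))))))

theorem run_4_35 : run 35 4 126 166153540036076782527892217597349855233 tr_4_35 = true := by decide +kernel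

/-- search tree -/
def tr_4_36 : Tr :=
 (.sp 35 7 (.hi 63)
 (.sp 30 38 (.hi 94)
 (.sp 31 39 (.hi 95)
 (.sp 33 41 (.hi 97)
 (.sp 34 38 (.sp 32 34 (.hi 102)
 (.sp 35 37 (.sp 34 35 (.hi 105)
 (.sp 23 67 (.hi 123)
 (.sp 24 68 (.hi 124)
 (.sp 26 70 (.hi 126)
 (.lo 130)))))
 (.lo 106)))
 (.lo 104))))))

theorem run_4_36 : run 36 4 130 2658456316073530128444930570682428817409 tr_4_36 = true := by decide +kernel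

/-- search tree -/
def tr_4_37 : Tr :=
 (.sp 36 7 (.hi 65)
 (.sp 31 39 (.hi 97)
 (.sp 32 40 (.hi 98)
 (.sp 34 42 (.hi 100)
 (.sp 35 39 (.sp 33 35 (.hi 105)
 (.sp 36 38 (.sp 35 36 (.hi 108)
 (.sp 24 69 (.hi 127)
 (.sp 25 70 (.hi 128)
 (.sp 27 72 (.hi 130)
 (.lo 134)))))
 (.lo 109)))
 (.lo 107))))))

theorem run_4_37 : run 37 4 134 42535298461146894975292300608774703415297 tr_4_37 = true := by decide +kernel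

/-- search tree -/
def tr_4_38 : Tr :=
 (.sp 37 7 (.hi 67)
 (.sp 32 40 (.hi 100)
 (.sp 33 41 (.hi 101)
 (.sp 35 43 (.hi 103)
 (.sp 36 40 (.sp 34 36 (.hi 108)
 (.sp 37 39 (.sp 36 37 (.hi 111)
 (.sp 25 71 (.hi 131)
 (.sp 26 72 (.hi 132)
 (.sp 28 74 (.hi 134)
 (.lo 138)))))
 (.lo 112)))
 (.lo 110))))))

theorem run_4_38 : run 38 4 138 680564754610113623190800784617958113542145 tr_4_38 = true := by decide +kernel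

/-- search tree -/
def tr_4_39 : Tr :=
 (.sp 38 7 (.hi 69)
 (.sp 33 41 (.hi 103)
 (.sp 34 42 (.hi 104)
 (.sp 36 44 (.hi 106)
 (.sp 37 41 (.sp 35 37 (.hi 111)
 (.sp 38 40 (.sp 37 38 (.hi 114)
 (.sp 26 73 (.hi 135)
 (.sp 27 74 (.hi 136)
 (.sp 29 76 (.hi 138)
 (.lo 142)))))
 (.lo 115)))
 (.lo 113))))))

theorem run_4_39 : run 39 4 142 10889035907615924400640751085117271862935553 tr_4_39 = true := by decide +kernel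

/-- search tree -/
def tr_4_40 : Tr :=
 (.sp 39 7 (.hi 71)
 (.sp 34 42 (.hi 106)
 (.sp 35 43 (.hi 107)
 (.sp 37 45 (.hi 109)
 (.sp 38 42 (.sp 36 38 (.hi 114)
 (.sp 39 41 (.sp 38 39 (.hi 117)
 (.sp 27 75 (.hi 139)
 (.sp 28 76 (.hi 140)
 (.sp 30 78 (.hi 142)
 (.lo 146)))))
 (.lo 118)))
 (.lo 116))))))

theorem run_4_40 : run 40 4 146 174224573192687641850551312540534792265924609 tr_4_40 = true := by decide +kernel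

/-- search tree -/
def tr_4_41 : Tr :=
 (.sp 40 7 (.hi 73)
 (.sp 35 43 (.hi 109)
 (.sp 36 44 (.hi 110)
 (.sp 38 46 (.hi 112)
 (.sp 39 43 (.sp 37 39 (.hi 117)
 (.sp 40 42 (.sp 39 40 (.hi 120)
 (.sp 28 77 (.hi 143)
 (.sp 29 78 (.hi 144)
 (.sp 31 80 (.hi 146)
 (.lo 150)))))
 (.lo 121)))
 (.lo 119))))))

theorem run_4_41 : run 41 4 150 2787593160449665081145598509793062139058978817 tr_4_41 = true := by decide +kernel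

end Pool.Agent.P.MP_e9218d_nt
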