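import Pool.Agent.P.MP_e9218d_nt.SmallBig
import Pool.Agent.P.MP_e9218d_nt.SmallRunA
import Pool.Agent.P.MP_e9218d_nt.SmallRunB
import Pool.Agent.P.MP_e9218d_nt.SmallRunC
import Pool.Agent.P.MP_e9218d_nt.SmallRunD

namespace Pool.Agent.P.MP_e9218d_nt

theorem runs_1 (M : ℕ) (h1 : 1 ≤ M) (h2 : M ≤ 18) :
    ∃ N D T, (M = 18 → N ≤ 16 * 18) ∧ run M 1 N D T = true := by
  interval_cases M
  · exact ⟨_, _, _, by omega, run_1_1⟩
  · exact ⟨_, _, _, by omega, run_1_2⟩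
  · exact ⟨_, _, _, by omega, run_1_3⟩
  · exact ⟨_, _, _, by omega, run_1_4⟩
  · exact ⟨_, _, _, by omega, run_1_5⟩
  · exact ⟨_, _, _, by omega, run_1_6⟩
  · exact ⟨_, _, _, by omega, run_1_7⟩
  · exact ⟨_, _, _, by omega, run_1_8⟩
  · exact ⟨_, _, _, by omega, run_1_9⟩
  · exact ⟨_, _, _, by omega, run_1_10⟩
  · exact ⟨_, _, _, by omega, run_1_11⟩
  · exact ⟨_, _, _, by omega, run_1_12⟩
  · exact ⟨_, _, _, by omega, run_1_13⟩
  · exact ⟨_, _, _, by omega, run_1_14⟩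
  · exact ⟨_, _, _, by omega, run_1_15⟩
  · exact ⟨_, _, _, by omega, run_1_16⟩
  · exact ⟨_, _, _, by omega, run_1_17⟩
  · exact ⟨_, _, _, by omega, run_1_18⟩

theorem runs_2 (M : ℕ) (h1 : 2 ≤ M) (h2 : M ≤ 25) :
    ∃ N D T, (M = 25 → N ≤ 11 * 25) ∧ run M 2 N D T = true := by
  interval_cases M
  · exact ⟨_, _, _, by omega, run_2_2⟩
  · exact ⟨_, _, _, by omega, run_2_3⟩
  · exact ⟨_, _, _, by omega, run_2_4⟩
  · exact ⟨_, _, _, by omega, run_2_5⟩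
  · exact ⟨_, _, _, by omega, run_2_6⟩
  · exact ⟨_, _, _, by omega, run_2_7⟩
  · exact ⟨_, _, _, by omega, run_2_8⟩
  · exact ⟨_, _, _, by omega, run_2_9⟩
  · exact ⟨_, _, _, by omega, run_2_10⟩
  · exact ⟨_, _, _, by omega, run_2_11⟩
  · exact ⟨_, _, _, by omega, run_2_12⟩
  · exact ⟨_, _, _, by omega, run_2_13⟩
  · exact ⟨_, _, _, by omega, run_2_14⟩
  · exact ⟨_, _, _, by omega, run_2_15⟩
  · exact ⟨_, _, _, by omega, run_2_16⟩
  · exact ⟨_, _, _, by omega, run_2_17⟩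
  · exact ⟨_, _, _, by omega, run_2_18⟩
  · exact ⟨_, _, _, by omega, run_2_19⟩
  · exact ⟨_, _, _, by omega, run_2_20⟩
  · exact ⟨_, _, _, by omega, run_2_21⟩
  · exact ⟨_, _, _, by omega, run_2_22⟩
  · exact ⟨_, _, _, by omega, run_2_23⟩
  · exact ⟨_, _, _, by omega, run_2_24⟩
  · exact ⟨_, _, _, by omega, run_2_25⟩

theorem runs_3 (M : ℕ) (h1 : 4 ≤ M) (h2 : M ≤ 37) :
    ∃ N D T, (M = 37 → N ≤ 8 * 37) ∧ run M 3 N D T = true := by
  interval_cases M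
  · exact ⟨_, _, _, by omega, run_3_4⟩
  · exact ⟨_, _, _, by omega, run_3_5⟩
  · exact ⟨_, _, _, by omega, run_3_6⟩
  · exact ⟨_, _, _, by omega, run_3_7⟩
  · exact ⟨_, _, _, by omega, run_3_8⟩
  · exact ⟨_, _, _, by omega, run_3_9⟩
  · exact ⟨_, _, _, by omega, run_3_10⟩
  · exact ⟨_, _, _, by omega, run_3_11⟩
  · exact ⟨_, _, _, by omega, run_3_12⟩
  · exact ⟨_, _, _, by omega, run_3_13⟩
  · exact ⟨_, _, _, by omega, run_3_14⟩
  · exact ⟨_, _, _, by omega, run_3_15⟩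
  · exact ⟨_, _, _, by omega, run_3_16⟩
  · exact ⟨_, _, _, by omega, run_3_17⟩
  · exact ⟨_, _, _, by omega, run_3_18⟩
  · exact ⟨_, _, _, by omega, run_3_19⟩
  · exact ⟨_, _, _, by omega, run_3_20⟩
  · exact ⟨_, _, _, by omega, run_3_21⟩
  · exact ⟨_, _, _, by omega, run_3_22⟩
  · exact ⟨_, _, _, by omega, run_3_23⟩
  · exact ⟨_, _, _, by omega, run_3_24⟩
  · exact ⟨_, _, _, by omega, run_3_25⟩
  · exact ⟨_, _, _, by omega, run_3_26⟩
  · exact ⟨_, _, _, by omega, run_3_27⟩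
  · exact ⟨_, _, _, by omega, run_3_28⟩
  · exact ⟨_, _, _, by omega, run_3_29⟩
  · exact ⟨_, _, _, by omega, run_3_30⟩
  · exact ⟨_, _, _, by omega, run_3_31⟩
  · exact ⟨_, _, _, by omega, run_3_32⟩
  · exact ⟨_, _, _, by omega, run_3_33⟩
  · exact ⟨_, _, _, by omega, run_3_34⟩
  · exact ⟨_, _, _, by omega, run_3_35⟩
  · exact ⟨_, _, _, by omega, run_3_36⟩
  · exact ⟨_, _, _, by omega, run_3_37⟩

theorem runs_4 (M : ℕ) (h1 : 8 ≤ M) (h2 : M ≤ 41) :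
    ∃ N D T, (M = 41 → N ≤ 4 * 41) ∧ run M 4 N D T = true := by
  interval_cases M
  · exact ⟨_, _, _, by omega, run_4_8⟩
  · exact ⟨_, _, _, by omega, run_4_9⟩
  · exact ⟨_, _, _, by omega, run_4_10⟩
  · exact ⟨_, _, _, by omega, run_4_11⟩
  · exact ⟨_, _, _, by omega, run_4_12⟩
  · exact ⟨_, _, _, by omega, run_4_13⟩
  · exact ⟨_, _, _, by omega, run_4_14⟩
  · exact ⟨_, _, _, by omega, run_4_15⟩
  · exact ⟨_, _, _, by omega, run_4_16⟩
  · exact ⟨_, _, _, by omega, run_4_17⟩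
  · exact ⟨_, _, _, by omega, run_4_18⟩
  · exact ⟨_, _, _, by omega, run_4_19⟩
  · exact ⟨_, _, _, by omega, run_4_20⟩
  · exact ⟨_, _, _, by omega, run_4_21⟩
  · exact ⟨_, _, _, by omega, run_4_22⟩
  · exact ⟨_, _, _, by omega, run_4_23⟩
  · exact ⟨_, _, _, by omega, run_4_24⟩
  · exact ⟨_, _, _, by omega, run_4_25⟩
  · exact ⟨_, _, _, by omega, run_4_26⟩
  · exact ⟨_, _, _, by omega, run_4_27⟩
  · exact ⟨_, _, _, by omega, run_4_28⟩
  · exact ⟨_, _, _, by omega, run_4_29⟩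
  · exact ⟨_, _, _, by omega, run_4_30⟩
  · exact ⟨_, _, _, by omega, run_4_31⟩
  · exact ⟨_, _, _, by omega, run_4_32⟩
  · exact ⟨_, _, _, by omega, run_4_33⟩
  · exact ⟨_, _, _, by omega, run_4_34⟩
  · exact ⟨_, _, _, by omega, run_4_35⟩
  · exact ⟨_, _, _, by omega, run_4_36⟩
  · exact ⟨_, _, _, by omega, run_4_37⟩
  · exact ⟨_, _, _, by omega, run_4_38⟩
  · exact ⟨_, _, _, by omega, run_4_39⟩
  · exact ⟨_, _, _, by omega, run_4_40⟩
  · exact ⟨_, _, _, by omega, run_4_41⟩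

lemma vec_inj {M : ℕ} {b c : ℕ → ℕ} (h : vec M b = vec M c) (j : ℕ) (h1 : 1 ≤ j) (h2 : j ≤ M) :
    b j = c j := by
  unfold vec at h
  have := List.map_inj_left.1 h (j - 1) (List.mem_range.2 (by omega))
  rwa [show j - 1 + 1 = j by omega] at this

lemma vec_andrews_1 : vec 1 (andrews 1) = [1] := by decide +kernel
lemma vec_andrews_3 : vec 3 (andrews 3) = [3, 3, 4] := by decide +kernel
lemma vec_andrews_7 : vec 7 (andrews 7) = [10, 10, 7, 12, 7, 7, 15] := by decide +kernel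
lemma vec_andrews_15 : vec 15 (andrews 15) =
    [33, 33, 22, 35, 22, 22, 15, 39, 26, 26, 15, 28, 15, 15, 46] := by decide +kernel

lemma answer_of_good {M s : ℕ} {b : ℕ → ℕ} (h : (M, s, vec M b) ∈ good) : Answer M s b := by
  unfold good at h
  rcases List.mem_append.1 h with h' | h'
  · exact Or.inr h'
  · left
    simp only [List.mem_cons, Prod.mk.injEq, List.not_mem_nil, or_false] at h'
    rcases h' with ⟨rfl, rfl, e⟩ | ⟨rfl, rfl, e⟩ | ⟨rfl, rfl, e⟩ | ⟨rfl, rfl, e⟩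
    · exact ⟨by norm_num, vec_inj (e.trans vec_andrews_1.symm)⟩
    · exact ⟨by norm_num, vec_inj (e.trans vec_andrews_3.symm)⟩
    · exact ⟨by norm_num, vec_inj (e.trans vec_andrews_7.symm)⟩
    · exact ⟨by norm_num, vec_inj (e.trans vec_andrews_15.symm)⟩

lemma le_of_good {M s : ℕ} {l : List ℕ} (h : (M, s, l) ∈ good) : M ≤ 15 := by
  simp only [good, sporadic, List.mem_append, List.mem_cons, Prod.mk.injEq, List.not_mem_nil,
    or_false] at h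
  omega

lemma nec_of_runs {s Lm M0 : ℕ} (h0 : (Lm + 1) * 2 ^ (s - 1) < M0) (h15 : 15 < M0)
    (hr : ∀ M, 2 ^ (s - 1) ≤ M → M ≤ M0 →
      ∃ N D T, (M = M0 → N ≤ Lm * M0) ∧ run M s N D T = true)
    {M : ℕ} {b : ℕ → ℕ} (hM : 2 ^ (s - 1) ≤ M) (hb : ∀ j, 1 ≤ j → j ≤ M → 0 < b j)
    (h : Ident M s b) : Answer M s b := by
  have h' := (ident_iff hM b).1 h
  rcases le_or_gt M M0 with h1 | h1
  · obtain ⟨N, D, T, -, h2⟩ := hr M hM h1
    exact answer_of_good (run_sound h2 hb (fun n _ => h' n))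
  · exfalso
    obtain ⟨b0, h2, h3⟩ := reduce_mod h0 h1.le hb h'
    have h4 : 1 * 2 ^ (s - 1) ≤ (Lm + 1) * 2 ^ (s - 1) := Nat.mul_le_mul_right _ (by omega)
    obtain ⟨N, D, T, h5, h6⟩ := hr M0 (by omega) le_rfl
    have := le_of_good (run_sound h6 h2 (fun n hn => h3 n (le_trans hn (h5 rfl))))
    omega

/-- necessity for `s ≤ 4` and every modulus -/
theorem small_nec_all {M s : ℕ} {b : ℕ → ℕ} (hs : 1 ≤ s) (hs4 : s ≤ 4) (hM : 2 ^ (s - 1) ≤ M)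
    (hb : ∀ j, 1 ≤ j → j ≤ M → 0 < b j) : Ident M s b → Answer M s b := by
  interval_cases s
  · exact nec_of_runs (by norm_num) (by norm_num) runs_1 hM hb
  · exact nec_of_runs (by norm_num) (by norm_num) runs_2 hM hb
  · exact nec_of_runs (by norm_num) (by norm_num) runs_3 hM hb
  · exact nec_of_runs (by norm_num) (by norm_num) runs_4 hM hb

theorem small_nec {M s : ℕ} {b : ℕ → ℕ} (hs : 1 ≤ s) (hs4 : s ≤ 4) (hM : 2 ^ (s - 1) ≤ M)
    (_hM' : s = 4 → M ≤ 17) (hb : ∀ j, 1 ≤ j → j ≤ M → 0 < b j) :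
    Ident M s b → Answer M s b := small_nec_all hs hs4 hM hb

end Pool.Agent.P.MP_e9218d_nt
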