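import Mathlib

namespace Pool.Agent.P.MP_e9218d_nt

open Finset

/-! ### three-colour recurrences in an arbitrary commutative ring -/

section ring
variable {R : Type*} [CommRing R]

/-- state of the three-colour system -/
structure St (R : Type*) where
  p : R
  s : R
  t : R
  w : R

/-- one level of the three-colour system -/
def golstep (A B C x y : R) (v : St R) : St R :=
  ⟨v.p + A * y * v.w + B * C * y * v.w + A * C * y * v.t + C * x * y * v.s
      + A * B * y * v.s + B * x * y * v.p,
    v.p + A * y * v.w + B * C * y * v.w + A * C * y * v.t + C * x * y * v.s,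
    v.p + A * y * v.w + B * C * y * v.w,
    v.p + A * y * v.w⟩

/-- the three-colour system -/
def gol (A B C x : R) : ℕ → St R
  | 0 => ⟨1 + B + C, 1 + C, 1, 1⟩
  | L + 1 => golstep A B C x (x ^ L) (gol A B C x L)

/-- contiguity relations for the cyclic shift of the colours -/
lemma gol_contig (A B C x : R) (L : ℕ) :
    (gol A B C x L).p = (gol (C * x) A B x L).s + C * (gol (C * x) A B x L).t ∧
    (gol A B C x L).s = (1 + C) * (gol (C * x) A B x L).w ∧
    (gol A B C x L).p + (A + B * C) * x ^ L * (gol A B C x L).w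
      = (gol (C * x) A B x L).p + C * (gol (C * x) A B x L).s ∧
    (gol (C * x) A B x L).p = (gol (C * x) A B x L).s + A * x ^ L * (gol A B C x L).t := by
  induction L with
  | zero =>
    simp only [gol]
    refine ⟨by ring, by ring, by ring, by ring⟩
  | succ L ih =>
    obtain ⟨h1, h2, h3, h4⟩ := ih
    simp only [gol, golstep]
    generalize gol A B C x L = f at *
    generalize gol (C * x) A B x L = g at *
    rw [pow_succ]
    generalize x ^ L = y at *
    refine ⟨?_, ?_, ?_, ?_⟩
    · linear_combination h3 - C * h4 + (C * x * y + A * B * y) * h2 + B * x * y * h1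
    · linear_combination h3 - C * h4 + C * x * y * h2
    · linear_combination (1 + A * x * y) * h3 - C * h4 + (C * x * y + A * B * y) * h2
        + (B * x * y + B * C * x * y) * h1
    · linear_combination (-(A * x * y)) * h3

lemma gol_shift (A B C x : R) {m : ℕ} (hx : x ^ m = 0) :
    (gol A B C x m).p = (1 + C) * (gol (C * x) A B x m).p := by
  have h := (gol_contig A B C x (m + 1)).2.1
  simp only [gol, golstep, hx] at h
  linear_combination h

lemma gol_zero (x : R) (L : ℕ) : (gol 0 0 0 x L).p = 1 := by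
  induction L with
  | zero => simp [gol]
  | succ L ih => simp [gol, golstep, ih]

theorem gol_prod (A B C x : R) {m : ℕ} (hx : x ^ m = 0) :
    (gol A B C x m).p =
      ∏ i ∈ range m, ((1 + A * x ^ i) * (1 + B * x ^ i) * (1 + C * x ^ i)) := by
  have key : ∀ k, (gol A B C x m).p =
      (∏ i ∈ range k, ((1 + A * x ^ i) * (1 + B * x ^ i) * (1 + C * x ^ i))) *
        (gol (A * x ^ k) (B * x ^ k) (C * x ^ k) x m).p := by
    intro k
    induction k with
    | zero => simp
    | succ k ih =>
      rw [ih, gol_shift _ _ _ _ hx, gol_shift _ _ _ _ hx, gol_shift _ _ _ _ hx, prod_range_succ]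
      simp only [pow_succ, mul_assoc]
      ring
  rw [key m, hx]
  simp [gol_zero]

/-- first system of gaps -/
theorem goll1 (A B C x : R) {m : ℕ} (hx : x ^ m = 0) (P S T W : ℕ → R)
    (hP0 : P 0 = 1 + B + C) (hS0 : S 0 = 1 + C) (hT0 : T 0 = 1) (hW0 : W 0 = 1)
    (hW : ∀ L, W (L + 1) = P L + A * x ^ L * W L)
    (hT : ∀ L, T (L + 1) = W (L + 1) + B * C * x ^ L * W L)
    (hS : ∀ L, S (L + 1) = T (L + 1) + A * C * x ^ L * T L + C * x * x ^ L * S L)
    (hP : ∀ L, P (L + 1) = S (L + 1) + A * B * x ^ L * S L + B * x * x ^ L * P L) :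
    P m = ∏ i ∈ range m, ((1 + A * x ^ i) * (1 + B * x ^ i) * (1 + C * x ^ i)) := by
  have key : ∀ L, P L = (gol A B C x L).p ∧ S L = (gol A B C x L).s ∧
      T L = (gol A B C x L).t ∧ W L = (gol A B C x L).w := by
    intro L
    induction L with
    | zero => exact ⟨hP0, hS0, hT0, hW0⟩
    | succ L ih =>
      obtain ⟨h1, h2, h3, h4⟩ := ih
      simp only [gol, golstep]
      rw [hP, hS, hT, hW, h1, h2, h3, h4]
      exact ⟨rfl, rfl, rfl, rfl⟩
  rw [(key m).1, gol_prod _ _ _ _ hx]

/-- second system of gaps -/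
theorem goll2 (A B C x : R) {m : ℕ} (hx : x ^ m = 0) (P S T Q : ℕ → R)
    (hP0 : P 0 = 1 + B + C) (hS0 : S 0 = 1 + C) (hT0 : T 0 = 1) (hQ0 : Q 0 = 1)
    (hQ : ∀ L, Q (L + 1) = P L)
    (hT : ∀ L, T (L + 1) = P L + A * x ^ L * T L + B * C * x ^ L * Q L)
    (hS : ∀ L, S (L + 1) = T (L + 1) + A * C * x ^ L * T L + C * x * x ^ L * S L)
    (hP : ∀ L, P (L + 1) = S (L + 1) + A * B * x ^ L * S L + B * x * x ^ L * P L) :
    P m = ∏ i ∈ range m, ((1 + A * x ^ i) * (1 + B * x ^ i) * (1 + C * x ^ i)) := by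
  have key : ∀ L, P L = (gol A B C x L).p ∧ S L = (gol A B C x L).s ∧
      T L = (gol A B C x L).t ∧ A * T L + B * C * Q L = (A + B * C) * (gol A B C x L).w := by
    intro L
    induction L with
    | zero =>
      refine ⟨hP0, hS0, hT0, ?_⟩
      rw [hT0, hQ0]
      simp [gol]
    | succ L ih =>
      obtain ⟨h1, h2, h3, h4⟩ := ih
      simp only [gol, golstep]
      rw [hP, hS, hT, hQ, ← h1, ← h2, ← h3]
      refine ⟨?_, ?_, ?_, ?_⟩
      · linear_combination x ^ L * h4
      · linear_combination x ^ L * h4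
      · linear_combination x ^ L * h4
      · linear_combination A * x ^ L * h4
  rw [(key m).1, gol_prod _ _ _ _ hx]

/-- the two-colour variant -/
theorem schur2 (A B x : R) {m : ℕ} (hx : x ^ m = 0) (P T Q : ℕ → R)
    (hP0 : P 0 = 1 + B) (hT0 : T 0 = 1) (hQ0 : Q 0 = 1)
    (hQ : ∀ L, Q (L + 1) = P L)
    (hT : ∀ L, T (L + 1) = P L + A * x ^ L * T L + A * B * x ^ L * Q L)
    (hP : ∀ L, P (L + 1) = T (L + 1) + B * x * x ^ L * P L) :
    P m = ∏ i ∈ range m, ((1 + A * x ^ i) * (1 + B * x ^ i)) := by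
  have key : ∀ L, P L = (gol A B 0 x L).p ∧ (gol A B 0 x L).s = (gol A B 0 x L).w ∧
      A * T L + A * B * Q L = (A + A * B) * (gol A B 0 x L).w := by
    intro L
    induction L with
    | zero =>
      refine ⟨?_, ?_, ?_⟩
      · rw [hP0]; simp [gol]
      · simp [gol]
      · rw [hT0, hQ0]; simp [gol]
    | succ L ih =>
      obtain ⟨h1, h2, h3⟩ := ih
      simp only [gol, golstep]
      rw [hP, hT, hQ, ← h1, h2]
      refine ⟨?_, ?_, ?_⟩
      · linear_combination x ^ L * h3
      · ring
      · linear_combination A * x ^ L * h3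
  rw [(key m).1, gol_prod _ _ _ _ hx]
  simp

/-! ### the recurrence behind the identity of Lebesgue -/

/-- first solution -/
def leb (U x : R) : ℕ → R
  | 0 => 1
  | 1 => 1 + x
  | L + 2 => (1 + x ^ (L + 2)) * leb U x (L + 1) + U * x ^ L * leb U x L

/-- second solution -/
def lebo (U x : R) : ℕ → R
  | 0 => 1
  | 1 => 1 + x + U
  | L + 2 => (1 + x ^ (L + 2)) * lebo U x (L + 1) + U * x ^ (L + 1) * lebo U x L

lemma lebo_eq (U x : R) (L : ℕ) :
    lebo U x (L + 1) = leb U x (L + 1) + U * x ^ L * leb U x L := by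
  have key : ∀ L, lebo U x (L + 1) = leb U x (L + 1) + U * x ^ L * leb U x L ∧
      lebo U x (L + 2) = leb U x (L + 2) + U * x ^ (L + 1) * leb U x (L + 1) := by
    intro L
    induction L with
    | zero =>
      simp only [lebo, leb]
      constructor <;> ring
    | succ L ih =>
      obtain ⟨h1, h2⟩ := ih
      refine ⟨h2, ?_⟩
      rw [lebo, h1, h2, leb.eq_3 U x (L + 1), leb.eq_3 U x L]
      ring
  exact (key L).1

lemma leb_shift (U x : R) (L : ℕ) :
    (1 + U) * leb (U * x ^ 2) x (L + 1) = lebo U x (L + 1) + U * x ^ (L + 1) * lebo U x L := by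
  have key : ∀ L, (1 + U) * leb (U * x ^ 2) x (L + 1)
        = lebo U x (L + 1) + U * x ^ (L + 1) * lebo U x L ∧
      (1 + U) * leb (U * x ^ 2) x (L + 2)
        = lebo U x (L + 2) + U * x ^ (L + 2) * lebo U x (L + 1) := by
    intro L
    induction L with
    | zero =>
      simp only [lebo, leb]
      constructor <;> ring
    | succ L ih =>
      obtain ⟨h1, h2⟩ := ih
      refine ⟨h2, ?_⟩
      rw [leb.eq_3 _ x (L + 1), lebo.eq_3 U x (L + 1)]
      have h3 := lebo.eq_3 U x L
      linear_combination (1 + x ^ (L + 3)) * h2 + U * x ^ (L + 3) * h1 - U * x ^ (L + 3) * h3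
  exact (key L).1

lemma leb_zero (x : R) (L : ℕ) : leb 0 x L = ∏ i ∈ range L, (1 + x ^ (i + 1)) := by
  have key : ∀ L, leb 0 x (L + 1) = ∏ i ∈ range (L + 1), (1 + x ^ (i + 1)) := by
    intro L
    induction L with
    | zero => simp [leb]
    | succ L ih => rw [leb, ih, prod_range_succ _ (L + 1)]; ring
  cases L with
  | zero => simp [leb]
  | succ L => exact key L

theorem leb_prod (U x : R) {L k : ℕ} (hL : x ^ L = 0) (hk : x ^ k = 0) :
    leb U x (L + 1) = (∏ i ∈ range k, (1 + U * x ^ (2 * i))) *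
      ∏ i ∈ range (L + 1), (1 + x ^ (i + 1)) := by
  have key : ∀ k, leb U x (L + 1) = (∏ i ∈ range k, (1 + U * x ^ (2 * i))) *
      leb (U * x ^ (2 * k)) x (L + 1) := by
    intro k
    induction k with
    | zero => simp
    | succ k ih =>
      have h1 := leb_shift (U * x ^ (2 * k)) x L
      rw [lebo_eq, pow_succ x L, hL] at h1
      have e : U * x ^ (2 * k) * x ^ 2 = U * x ^ (2 * (k + 1)) := by ring
      rw [e] at h1
      rw [ih, prod_range_succ]
      linear_combination (-(∏ i ∈ range k, (1 + U * x ^ (2 * i)))) * h1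
  rw [key k, two_mul, pow_add, hk, ← leb_zero]
  simp

end ring

end Pool.Agent.P.MP_e9218d_nt
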