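import Pool.Agent.P.MP_e9218d_nt.Basic

namespace Pool.Agent.P.MP_e9218d_nt

open Finset

open Classical in
/-- generating function of the `A` side with parts at most `N` -/
noncomputable def gfA (M s N : ℕ) : PowerSeries ℤ :=
  ∏ e ∈ (range (N + 1)).filter (okA M s), (1 + PowerSeries.X ^ e)

/-- generating function of the `B` side with parts at most `N` -/
noncomputable def gfB (P : Set ℕ) (M : ℕ) (b : ℕ → ℕ) (N : ℕ) : PowerSeries ℤ :=
  PowerSeries.mk fun n => (cntLe P M b N n : ℤ)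

lemma coeff_gfA (M s : ℕ) {N n : ℕ} (h : n ≤ N) :
    PowerSeries.coeff n (gfA M s N) = ((setA M s n).ncard : ℤ) := by
  classical
  unfold gfA
  rw [prod_one_add, map_sum]
  have e : ∀ t : Finset ℕ, ∏ e ∈ t, (PowerSeries.X : PowerSeries ℤ) ^ e
      = PowerSeries.X ^ (∑ e ∈ t, e) := fun t => prod_pow_eq_pow_sum t (fun e => e) _
  simp only [e, PowerSeries.coeff_X_pow]
  rw [sum_boole, ← Set.ncard_coe_finset]
  congr 2
  ext S
  simp only [coe_filter, mem_powerset, Set.mem_ofPred_eq, setA]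
  constructor
  · rintro ⟨h1, h2⟩
    exact ⟨fun e he => (mem_filter.1 (h1 he)).2, h2.symm⟩
  · rintro ⟨h1, h2⟩
    refine ⟨fun e he => mem_filter.2 ⟨mem_range.2 ?_, h1 e he⟩, h2.symm⟩
    have : e ≤ ∑ e ∈ S, e := Finset.single_le_sum (f := fun e => e) (by simp) he
    omega

lemma gfA_zero (M s : ℕ) : gfA M s 0 = 1 := by
  classical
  unfold gfA
  have : (range (0 + 1)).filter (okA M s) = ∅ := by
    ext e; simp [okA]; intro h; omega
  rw [this, prod_empty]

lemma gfA_succ_pos {M s N : ℕ} (h : okA M s (N + 1)) :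
    gfA M s (N + 1) = gfA M s N * (1 + PowerSeries.X ^ (N + 1)) := by
  classical
  unfold gfA
  rw [range_add_one (n := N + 1), filter_insert, if_pos h, prod_insert (by simp), mul_comm]

lemma gfA_succ_neg {M s N : ℕ} (h : ¬ okA M s (N + 1)) : gfA M s (N + 1) = gfA M s N := by
  classical
  unfold gfA
  rw [range_add_one (n := N + 1), filter_insert, if_neg h]

lemma gfB_zero {P : Set ℕ} (hP : ∀ a ∈ P, 0 < a) (M : ℕ) (b : ℕ → ℕ) : gfB P M b 0 = 1 := by
  ext n
  simp [gfB, cntLe_zero hP, PowerSeries.coeff_one]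

lemma gfB_succ_pos {P : Set ℕ} (hP : ∀ a ∈ P, 0 < a) (M : ℕ) (b : ℕ → ℕ) {N : ℕ}
    (h : N + 1 ∈ P) : gfB P M b (N + 1) = gfB P M b N +
      PowerSeries.X ^ (N + 1) * gfB P M b (N + 1 - b (idx M (N + 1))) := by
  ext n
  simp only [gfB, PowerSeries.coeff_mk, map_add, PowerSeries.coeff_X_pow_mul', cntLe_succ hP, h,
    true_and]
  split_ifs <;> simp

lemma gfB_succ_neg {P : Set ℕ} (hP : ∀ a ∈ P, 0 < a) (M : ℕ) (b : ℕ → ℕ) {N : ℕ}
    (h : N + 1 ∉ P) : gfB P M b (N + 1) = gfB P M b N := by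
  ext n
  simp [gfB, cntLe_succ hP, h]

/-- reduction of the identity to a statement on recurrences in a ring with nilpotent `q` -/
theorem ident_of_rec {M s : ℕ} (hM : 2 ^ (s - 1) ≤ M) (b : ℕ → ℕ)
    (h : ∀ (R : Type) [CommRing R] (q : R) (m : ℕ) (F G : ℕ → R), q ^ m = 0 → F 0 = 1 → G 0 = 1 →
      (∀ N, N + 1 ∈ Dset M s → F (N + 1) = F N + q ^ (N + 1) * F (N + 1 - b (idx M (N + 1)))) →
      (∀ N, N + 1 ∉ Dset M s → F (N + 1) = F N) →
      (∀ N, okA M s (N + 1) → G (N + 1) = G N * (1 + q ^ (N + 1))) →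
      (∀ N, ¬ okA M s (N + 1) → G (N + 1) = G N) →
      ∃ N N', m ≤ N ∧ m ≤ N' ∧ F N = G N') : Ident M s b := by
  rw [ident_iff hM]
  intro n
  have hD : ∀ a ∈ Dset M s, 0 < a := fun _ h => h.1
  let I : Ideal (PowerSeries ℤ) := Ideal.span {PowerSeries.X ^ (n + 1)}
  let φ := Ideal.Quotient.mk I
  obtain ⟨N, N', hN, hN', e⟩ := h (PowerSeries ℤ ⧸ I) (φ PowerSeries.X) (n + 1)
    (fun N => φ (gfB (Dset M s) M b N)) (fun N => φ (gfA M s N))
    (by
      rw [← map_pow, Ideal.Quotient.eq_zero_iff_mem]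
      exact Ideal.subset_span rfl)
    (by simp only [gfB_zero hD, map_one]) (by simp only [gfA_zero, map_one])
    (fun N hN => by simp only [gfB_succ_pos hD M b hN, map_add, map_mul, map_pow])
    (fun N hN => by simp only [gfB_succ_neg hD M b hN])
    (fun N hN => by simp only [gfA_succ_pos hN, map_add, map_mul, map_pow, map_one])
    (fun N hN => by simp only [gfA_succ_neg hN])
  have e2 := Ideal.Quotient.eq.1 e
  rw [Ideal.mem_span_singleton, PowerSeries.X_pow_dvd_iff] at e2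
  have e3 := e2 n (by omega)
  rw [map_sub, coeff_gfA M s (by omega), gfB, PowerSeries.coeff_mk,
    ← setB_eq_cntLe M s b (by omega : n ≤ N)] at e3
  omega

lemma mem_Dset_one {M s e : ℕ} (h : okA M s e) : e ∈ Dset M s :=
  ⟨h.1, {e}, by simpa using h, by simp⟩

lemma mem_Dset_two {M s e : ℕ} (a c : ℕ) (ha : okA M s a) (hc : okA M s c) (hac : a ≠ c)
    (he : a + c = e) : e ∈ Dset M s := by
  refine ⟨by have := ha.1; omega, {a, c}, ?_, by rw [sum_pair hac, he]⟩
  intro x hx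
  rcases mem_insert.1 hx with rfl | hx
  · exact ha
  · rw [mem_singleton.1 hx]; exact hc

lemma not_mem_Dset {M s e : ℕ} (k : ℕ) (hk : ∀ x, okA M s x → x ≤ e → x = k) (hke : k ≠ e) :
    e ∉ Dset M s := by
  rintro ⟨h0, S, h1, h2⟩
  have hS : S ⊆ {k} := by
    intro x hx
    have : x ≤ ∑ e ∈ S, e := Finset.single_le_sum (f := fun e => e) (by simp) hx
    exact mem_singleton.2 (hk x (h1 x hx) (by omega))
  rcases subset_singleton_iff.1 hS with rfl | rfl
  · simp at h2; omega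
  · simp at h2; omega

lemma okA_one (M e : ℕ) : okA M 1 e ↔ 0 < e ∧ M ∣ e + 1 := by
  simp [okA]

lemma okA_two (M e : ℕ) : okA M 2 e ↔ 0 < e ∧ (M ∣ e + 1 ∨ M ∣ e + 2) := by
  unfold okA
  constructor
  · rintro ⟨h, j, hj, hd⟩
    refine ⟨h, ?_⟩
    interval_cases j
    · exact Or.inl hd
    · exact Or.inr hd
  · rintro ⟨h, hd | hd⟩
    · exact ⟨h, 0, by omega, hd⟩
    · exact ⟨h, 1, by omega, hd⟩

lemma okA_three (M e : ℕ) : okA M 3 e ↔ 0 < e ∧ (M ∣ e + 1 ∨ M ∣ e + 2 ∨ M ∣ e + 4) := by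
  unfold okA
  constructor
  · rintro ⟨h, j, hj, hd⟩
    refine ⟨h, ?_⟩
    interval_cases j
    · exact Or.inl hd
    · exact Or.inr (Or.inl hd)
    · exact Or.inr (Or.inr hd)
  · rintro ⟨h, hd | hd | hd⟩
    · exact ⟨h, 0, by omega, hd⟩
    · exact ⟨h, 1, by omega, hd⟩
    · exact ⟨h, 2, by omega, hd⟩

lemma Dset_21 (e : ℕ) : e ∈ Dset 2 1 ↔ 0 < e ∧ e ≠ 2 := by
  constructor
  · intro h
    refine ⟨h.1, ?_⟩
    rintro rfl
    exact not_mem_Dset 1 (fun x hx => by rw [okA_one] at hx; omega) (by omega) h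
  · rintro ⟨h1, h2⟩
    by_cases h : e % 2 = 1
    · exact mem_Dset_one (by rw [okA_one]; omega)
    · exact mem_Dset_two 1 (e - 1) (by rw [okA_one]; omega) (by rw [okA_one]; omega)
        (by omega) (by omega)

lemma Dset_22 (e : ℕ) : e ∈ Dset 2 2 ↔ 0 < e :=
  ⟨fun h => h.1, fun h => mem_Dset_one (by rw [okA_two]; omega)⟩

lemma Dset_32 (e : ℕ) : e ∈ Dset 3 2 ↔ 0 < e := by
  refine ⟨fun h => h.1, fun h1 => ?_⟩
  by_cases h : e % 3 = 0
  · exact mem_Dset_two 1 (e - 1) (by rw [okA_two]; omega) (by rw [okA_two]; omega)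
      (by omega) (by omega)
  · exact mem_Dset_one (by rw [okA_two]; omega)

lemma Dset_43 (e : ℕ) : e ∈ Dset 4 3 ↔ 0 < e ∧ e ≠ 1 := by
  constructor
  · intro h
    refine ⟨h.1, ?_⟩
    rintro rfl
    exact not_mem_Dset 0 (fun x hx => by rw [okA_three] at hx; omega) (by omega) h
  · rintro ⟨h1, h2⟩
    by_cases h : e % 4 = 1
    · exact mem_Dset_two 2 (e - 2) (by rw [okA_three]; omega) (by rw [okA_three]; omega)
        (by omega) (by omega)
    · exact mem_Dset_one (by rw [okA_three]; omega)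

lemma Dset_63 (e : ℕ) : e ∈ Dset 6 3 ↔ 0 < e ∧ e ≠ 1 ∧ e ≠ 3 := by
  constructor
  · intro h
    refine ⟨h.1, ?_, ?_⟩
    · rintro rfl
      exact not_mem_Dset 0 (fun x hx => by rw [okA_three] at hx; omega) (by omega) h
    · rintro rfl
      exact not_mem_Dset 2 (fun x hx => by rw [okA_three] at hx; omega) (by omega) h
  · rintro ⟨h1, h2, h3⟩
    by_cases h : e % 6 = 0 ∨ e % 6 = 1
    · exact mem_Dset_two 2 (e - 2) (by rw [okA_three]; omega) (by rw [okA_three]; omega)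
        (by omega) (by omega)
    · by_cases h' : e % 6 = 3
      · exact mem_Dset_two 4 (e - 4) (by rw [okA_three]; omega) (by rw [okA_three]; omega)
          (by omega) (by omega)
      · exact mem_Dset_one (by rw [okA_three]; omega)

/-- one step of the recurrence, with the residue and the threshold given explicitly -/
lemma fstep {R : Type*} [CommRing R] {q : R} {F : ℕ → R} {D : Set ℕ} {M : ℕ} {b : ℕ → ℕ}
    (hF : ∀ N, N + 1 ∈ D → F (N + 1) = F N + q ^ (N + 1) * F (N + 1 - b (idx M (N + 1))))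
    (n N j k K : ℕ) (hn : n = N + 1) (hD : n ∈ D) (hj : idx M n = j) (hb : b j = k)
    (hK : n - k = K) : F n = F N + q ^ n * F K := by
  subst hn
  rw [hF N hD, hj, hb, hK]

end Pool.Agent.P.MP_e9218d_nt
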