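import Pool.Agent.P.MP_e9218d_nt.Sporadic1
import Pool.Agent.P.MP_e9218d_nt.Sporadic2

namespace Pool.Agent.P.MP_e9218d_nt

open Finset

lemma pow_pow_zero {R : Type*} [CommRing R] {q : R} {m : ℕ} (h : q ^ m = 0) (a k : ℕ)
    (hk : m ≤ a * k) : (q ^ a) ^ k = 0 := by
  rw [← pow_mul]
  exact pow_eq_zero_of_le hk h

lemma gprod63 {R : Type*} [CommRing R] {q : R} {G : ℕ → R} (hG0 : G 0 = 1)
    (hG : ∀ N, okA 6 3 (N + 1) → G (N + 1) = G N * (1 + q ^ (N + 1)))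
    (hG' : ∀ N, ¬ okA 6 3 (N + 1) → G (N + 1) = G N) (k : ℕ) :
    G (6 * k) = ∏ i ∈ range k, ((1 + q ^ 5 * (q ^ 6) ^ i) * (1 + q ^ 4 * (q ^ 6) ^ i) *
      (1 + q ^ 2 * (q ^ 6) ^ i)) := by
  induction k with
  | zero => simpa using hG0
  | succ k ih =>
    have g1 : G (6 * k + 1) = G (6 * k) := hG' (6 * k) (by rw [okA_three]; omega)
    have g2 : G (6 * k + 2) = G (6 * k + 1) * (1 + q ^ (6 * k + 2)) :=
      hG (6 * k + 1) (by rw [okA_three]; omega)
    have g3 : G (6 * k + 3) = G (6 * k + 2) := hG' (6 * k + 2) (by rw [okA_three]; omega)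
    have g4 : G (6 * k + 4) = G (6 * k + 3) * (1 + q ^ (6 * k + 4)) :=
      hG (6 * k + 3) (by rw [okA_three]; omega)
    have g5 : G (6 * k + 5) = G (6 * k + 4) * (1 + q ^ (6 * k + 5)) :=
      hG (6 * k + 4) (by rw [okA_three]; omega)
    have g6 : G (6 * k + 6) = G (6 * k + 5) := hG' (6 * k + 5) (by rw [okA_three]; omega)
    rw [show 6 * (k + 1) = 6 * k + 6 by ring, g6, g5, g4, g3, g2, g1, ih,
      prod_range_succ]
    ring

lemma gprod21 {R : Type*} [CommRing R] {q : R} {G : ℕ → R} (hG0 : G 0 = 1)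
    (hG : ∀ N, okA 2 1 (N + 1) → G (N + 1) = G N * (1 + q ^ (N + 1)))
    (hG' : ∀ N, ¬ okA 2 1 (N + 1) → G (N + 1) = G N) (k : ℕ) :
    G (6 * k) = ∏ i ∈ range k, ((1 + q ^ 5 * (q ^ 6) ^ i) * (1 + q ^ 3 * (q ^ 6) ^ i) *
      (1 + q * (q ^ 6) ^ i)) := by
  induction k with
  | zero => simpa using hG0
  | succ k ih =>
    have g1 : G (6 * k + 1) = G (6 * k) * (1 + q ^ (6 * k + 1)) :=
      hG (6 * k) (by rw [okA_one]; omega)
    have g2 : G (6 * k + 2) = G (6 * k + 1) := hG' (6 * k + 1) (by rw [okA_one]; omega)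
    have g3 : G (6 * k + 3) = G (6 * k + 2) * (1 + q ^ (6 * k + 3)) :=
      hG (6 * k + 2) (by rw [okA_one]; omega)
    have g4 : G (6 * k + 4) = G (6 * k + 3) := hG' (6 * k + 3) (by rw [okA_one]; omega)
    have g5 : G (6 * k + 5) = G (6 * k + 4) * (1 + q ^ (6 * k + 5)) :=
      hG (6 * k + 4) (by rw [okA_one]; omega)
    have g6 : G (6 * k + 6) = G (6 * k + 5) := hG' (6 * k + 5) (by rw [okA_one]; omega)
    rw [show 6 * (k + 1) = 6 * k + 6 by ring, g6, g5, g4, g3, g2, g1, ih,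
      prod_range_succ]
    ring

lemma gprod32 {R : Type*} [CommRing R] {q : R} {G : ℕ → R} (hG0 : G 0 = 1)
    (hG : ∀ N, okA 3 2 (N + 1) → G (N + 1) = G N * (1 + q ^ (N + 1)))
    (hG' : ∀ N, ¬ okA 3 2 (N + 1) → G (N + 1) = G N) (k : ℕ) :
    G (3 * k) = ∏ i ∈ range k, ((1 + q ^ 2 * (q ^ 3) ^ i) * (1 + q * (q ^ 3) ^ i)) := by
  induction k with
  | zero => simpa using hG0
  | succ k ih =>
    have g1 : G (3 * k + 1) = G (3 * k) * (1 + q ^ (3 * k + 1)) :=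
      hG (3 * k) (by rw [okA_two]; omega)
    have g2 : G (3 * k + 2) = G (3 * k + 1) * (1 + q ^ (3 * k + 2)) :=
      hG (3 * k + 1) (by rw [okA_two]; omega)
    have g3 : G (3 * k + 3) = G (3 * k + 2) := hG' (3 * k + 2) (by rw [okA_two]; omega)
    rw [show 3 * (k + 1) = 3 * k + 3 by ring, g3, g2, g1, ih,
      prod_range_succ]
    ring

lemma gprod43 {R : Type*} [CommRing R] {q : R} {G : ℕ → R} (hG0 : G 0 = 1)
    (hG : ∀ N, okA 4 3 (N + 1) → G (N + 1) = G N * (1 + q ^ (N + 1)))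
    (hG' : ∀ N, ¬ okA 4 3 (N + 1) → G (N + 1) = G N) (k : ℕ) :
    G (4 * k) = ∏ i ∈ range k, ((1 + q ^ 3 * (q ^ 2) ^ (2 * i)) *
      ((1 + (q ^ 2) ^ (2 * i + 1)) * (1 + (q ^ 2) ^ (2 * i + 1 + 1)))) := by
  induction k with
  | zero => simpa using hG0
  | succ k ih =>
    have g1 : G (4 * k + 1) = G (4 * k) := hG' (4 * k) (by rw [okA_three]; omega)
    have g2 : G (4 * k + 2) = G (4 * k + 1) * (1 + q ^ (4 * k + 2)) :=
      hG (4 * k + 1) (by rw [okA_three]; omega)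
    have g3 : G (4 * k + 3) = G (4 * k + 2) * (1 + q ^ (4 * k + 3)) :=
      hG (4 * k + 2) (by rw [okA_three]; omega)
    have g4 : G (4 * k + 4) = G (4 * k + 3) * (1 + q ^ (4 * k + 4)) :=
      hG (4 * k + 3) (by rw [okA_three]; omega)
    rw [show 4 * (k + 1) = 4 * k + 4 by ring, g4, g3, g2, g1, ih,
      prod_range_succ]
    ring

theorem ident_63a (b : ℕ → ℕ) (h1 : b 1 = 7) (h2 : b 2 = 6) (h3 : b 3 = 7)
    (h4 : b 4 = 6) (h5 : b 5 = 6) (h6 : b 6 = 7) : Ident 6 3 b := by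
  refine ident_of_rec (by norm_num) b ?_
  intro R _ q m F G hq hF0 hG0 hF hF' hG hG'
  have f1 : F 1 = F 0 := hF' 0 (by rw [Dset_63]; omega)
  have f2 := fstep hF 2 1 2 6 0 rfl (by rw [Dset_63]; omega)
    rfl h2 (by omega)
  have f3 : F 3 = F 2 := hF' 2 (by rw [Dset_63]; omega)
  have f4 := fstep hF 4 3 4 6 0 rfl (by rw [Dset_63]; omega)
    rfl h4 (by omega)
  refine ⟨6 * m + 4, 6 * m, by omega, by omega, ?_⟩
  rw [gprod63 hG0 hG hG']
  refine goll1 (q ^ 5) (q ^ 4) (q ^ 2) (q ^ 6) (pow_pow_zero hq 6 m (by omega))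
    (fun L => F (6 * L + 4)) (fun L => F (6 * L + 2)) (fun L => F (6 * L))
    (fun L => F (6 * L - 1)) ?_ ?_ hF0 hF0 ?_ ?_ ?_ ?_
  · show F 4 = _
    rw [f4, f3, f2, f1, hF0]; ring
  · show F 2 = _
    rw [f2, f1, hF0]; ring
  · intro L
    have f := fstep hF (6 * L + 5) (6 * L + 4) 5 6 (6 * L - 1) rfl (by rw [Dset_63]; omega)
      (by unfold idx; split_ifs <;> omega) h5 (by omega)
    rw [show 6 * (L + 1) - 1 = 6 * L + 5 by omega, f]; ring
  · intro L
    have f := fstep hF (6 * L + 6) (6 * L + 5) 6 7 (6 * L - 1) rfl (by rw [Dset_63]; omega)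
      (by unfold idx; split_ifs <;> omega) h6 (by omega)
    rw [show 6 * (L + 1) - 1 = 6 * L + 5 by omega, show 6 * (L + 1) = 6 * L + 6 by omega, f]; ring
  · intro L
    have f := fstep hF (6 * L + 7) (6 * L + 6) 1 7 (6 * L) rfl (by rw [Dset_63]; omega)
      (by unfold idx; split_ifs <;> omega) h1 (by omega)
    have g := fstep hF (6 * L + 8) (6 * L + 7) 2 6 (6 * L + 2) rfl (by rw [Dset_63]; omega)
      (by unfold idx; split_ifs <;> omega) h2 (by omega)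
    rw [show 6 * (L + 1) + 2 = 6 * L + 8 by omega, show 6 * (L + 1) = 6 * L + 6 by omega, g, f]
    ring
  · intro L
    have f := fstep hF (6 * L + 9) (6 * L + 8) 3 7 (6 * L + 2) rfl (by rw [Dset_63]; omega)
      (by unfold idx; split_ifs <;> omega) h3 (by omega)
    have g := fstep hF (6 * L + 10) (6 * L + 9) 4 6 (6 * L + 4) rfl (by rw [Dset_63]; omega)
      (by unfold idx; split_ifs <;> omega) h4 (by omega)
    rw [show 6 * (L + 1) + 4 = 6 * L + 10 by omega, show 6 * (L + 1) + 2 = 6 * L + 8 by omega,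
      g, f]
    ring

theorem ident_63b (b : ℕ → ℕ) (h1 : b 1 = 7) (h2 : b 2 = 6) (h3 : b 3 = 7)
    (h4 : b 4 = 6) (h5 : b 5 = 5) (h6 : b 6 = 8) : Ident 6 3 b := by
  refine ident_of_rec (by norm_num) b ?_
  intro R _ q m F G hq hF0 hG0 hF hF' hG hG'
  have f1 : F 1 = F 0 := hF' 0 (by rw [Dset_63]; omega)
  have f2 := fstep hF 2 1 2 6 0 rfl (by rw [Dset_63]; omega)
    rfl h2 (by omega)
  have f3 : F 3 = F 2 := hF' 2 (by rw [Dset_63]; omega)
  have f4 := fstep hF 4 3 4 6 0 rfl (by rw [Dset_63]; omega)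
    rfl h4 (by omega)
  refine ⟨6 * m + 4, 6 * m, by omega, by omega, ?_⟩
  rw [gprod63 hG0 hG hG']
  refine goll2 (q ^ 5) (q ^ 4) (q ^ 2) (q ^ 6) (pow_pow_zero hq 6 m (by omega))
    (fun L => F (6 * L + 4)) (fun L => F (6 * L + 2)) (fun L => F (6 * L))
    (fun L => F (6 * L - 2)) ?_ ?_ hF0 hF0 ?_ ?_ ?_ ?_
  · show F 4 = _
    rw [f4, f3, f2, f1, hF0]; ring
  · show F 2 = _
    rw [f2, f1, hF0]; ring
  · intro L
    rw [show 6 * (L + 1) - 2 = 6 * L + 4 by omega]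
  · intro L
    have f := fstep hF (6 * L + 5) (6 * L + 4) 5 5 (6 * L) rfl (by rw [Dset_63]; omega)
      (by unfold idx; split_ifs <;> omega) h5 (by omega)
    have g := fstep hF (6 * L + 6) (6 * L + 5) 6 8 (6 * L - 2) rfl (by rw [Dset_63]; omega)
      (by unfold idx; split_ifs <;> omega) h6 (by omega)
    rw [show 6 * (L + 1) = 6 * L + 6 by omega, g, f]; ring
  · intro L
    have f := fstep hF (6 * L + 7) (6 * L + 6) 1 7 (6 * L) rfl (by rw [Dset_63]; omega)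
      (by unfold idx; split_ifs <;> omega) h1 (by omega)
    have g := fstep hF (6 * L + 8) (6 * L + 7) 2 6 (6 * L + 2) rfl (by rw [Dset_63]; omega)
      (by unfold idx; split_ifs <;> omega) h2 (by omega)
    rw [show 6 * (L + 1) + 2 = 6 * L + 8 by omega, show 6 * (L + 1) = 6 * L + 6 by omega, g, f]
    ring
  · intro L
    have f := fstep hF (6 * L + 9) (6 * L + 8) 3 7 (6 * L + 2) rfl (by rw [Dset_63]; omega)
      (by unfold idx; split_ifs <;> omega) h3 (by omega)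
    have g := fstep hF (6 * L + 10) (6 * L + 9) 4 6 (6 * L + 4) rfl (by rw [Dset_63]; omega)
      (by unfold idx; split_ifs <;> omega) h4 (by omega)
    rw [show 6 * (L + 1) + 4 = 6 * L + 10 by omega, show 6 * (L + 1) + 2 = 6 * L + 8 by omega,
      g, f]
    ring

theorem ident_21 (b : ℕ → ℕ) (h1 : b 1 = 6) (h2 : b 2 = 7) : Ident 2 1 b := by
  refine ident_of_rec (by norm_num) b ?_
  intro R _ q m F G hq hF0 hG0 hF hF' hG hG'
  have f1 := fstep hF 1 0 1 6 0 rfl (by rw [Dset_21]; omega)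
    rfl h1 (by omega)
  have f2 : F 2 = F 1 := hF' 1 (by rw [Dset_21]; omega)
  have f3 := fstep hF 3 2 1 6 0 rfl (by rw [Dset_21]; omega)
    rfl h1 (by omega)
  refine ⟨6 * m + 3, 6 * m, by omega, by omega, ?_⟩
  rw [gprod21 hG0 hG hG']
  refine goll2 (q ^ 5) (q ^ 3) q (q ^ 6) (pow_pow_zero hq 6 m (by omega))
    (fun L => F (6 * L + 3)) (fun L => F (6 * L + 1)) (fun L => F (6 * L - 1))
    (fun L => F (6 * L - 3)) ?_ ?_ hF0 hF0 ?_ ?_ ?_ ?_
  · show F 3 = _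
    rw [f3, f2, f1, hF0]; ring
  · show F 1 = _
    rw [f1, hF0]; ring
  · intro L
    rw [show 6 * (L + 1) - 3 = 6 * L + 3 by omega]
  · intro L
    have f := fstep hF (6 * L + 4) (6 * L + 3) 2 7 (6 * L - 3) rfl (by rw [Dset_21]; omega)
      (by unfold idx; split_ifs <;> omega) h2 (by omega)
    have g := fstep hF (6 * L + 5) (6 * L + 4) 1 6 (6 * L - 1) rfl (by rw [Dset_21]; omega)
      (by unfold idx; split_ifs <;> omega) h1 (by omega)
    rw [show 6 * (L + 1) - 1 = 6 * L + 5 by omega, g, f]; ring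
  · intro L
    have f := fstep hF (6 * L + 6) (6 * L + 5) 2 7 (6 * L - 1) rfl (by rw [Dset_21]; omega)
      (by unfold idx; split_ifs <;> omega) h2 (by omega)
    have g := fstep hF (6 * L + 7) (6 * L + 6) 1 6 (6 * L + 1) rfl (by rw [Dset_21]; omega)
      (by unfold idx; split_ifs <;> omega) h1 (by omega)
    rw [show 6 * (L + 1) + 1 = 6 * L + 7 by omega, show 6 * (L + 1) - 1 = 6 * L + 5 by omega,
      g, f]
    ring
  · intro L
    have f := fstep hF (6 * L + 8) (6 * L + 7) 2 7 (6 * L + 1) rfl (by rw [Dset_21]; omega)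
      (by unfold idx; split_ifs <;> omega) h2 (by omega)
    have g := fstep hF (6 * L + 9) (6 * L + 8) 1 6 (6 * L + 3) rfl (by rw [Dset_21]; omega)
      (by unfold idx; split_ifs <;> omega) h1 (by omega)
    rw [show 6 * (L + 1) + 3 = 6 * L + 9 by omega, show 6 * (L + 1) + 1 = 6 * L + 7 by omega,
      g, f]
    ring

theorem ident_32 (b : ℕ → ℕ) (h1 : b 1 = 3) (h2 : b 2 = 2) (h3 : b 3 = 5) : Ident 3 2 b := by
  refine ident_of_rec (by norm_num) b ?_
  intro R _ q m F G hq hF0 hG0 hF hF' hG hG'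
  have f1 := fstep hF 1 0 1 3 0 rfl (by rw [Dset_32]; omega)
    rfl h1 (by omega)
  refine ⟨3 * m + 1, 3 * m, by omega, by omega, ?_⟩
  rw [gprod32 hG0 hG hG']
  refine schur2 (q ^ 2) q (q ^ 3) (pow_pow_zero hq 3 m (by omega))
    (fun L => F (3 * L + 1)) (fun L => F (3 * L)) (fun L => F (3 * L - 2))
    ?_ hF0 hF0 ?_ ?_ ?_
  · show F 1 = _
    rw [f1, hF0]; ring
  · intro L
    rw [show 3 * (L + 1) - 2 = 3 * L + 1 by omega]
  · intro L
    have f := fstep hF (3 * L + 2) (3 * L + 1) 2 2 (3 * L) rfl (by rw [Dset_32]; omega)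
      (by unfold idx; split_ifs <;> omega) h2 (by omega)
    have g := fstep hF (3 * L + 3) (3 * L + 2) 3 5 (3 * L - 2) rfl (by rw [Dset_32]; omega)
      (by unfold idx; split_ifs <;> omega) h3 (by omega)
    rw [show 3 * (L + 1) = 3 * L + 3 by omega, g, f]; ring
  · intro L
    have f := fstep hF (3 * L + 4) (3 * L + 3) 1 3 (3 * L + 1) rfl (by rw [Dset_32]; omega)
      (by unfold idx; split_ifs <;> omega) h1 (by omega)
    rw [show 3 * (L + 1) + 1 = 3 * L + 4 by omega, show 3 * (L + 1) = 3 * L + 3 by omega, f]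
    ring

theorem ident_22 (b : ℕ → ℕ) (h1 : b 1 = 1) (h2 : b 2 = 1) : Ident 2 2 b := by
  refine ident_of_rec (by norm_num) b ?_
  intro R _ q m F G hq hF0 hG0 hF hF' hG hG'
  refine ⟨m, m, le_rfl, le_rfl, ?_⟩
  clear hq
  induction m with
  | zero => rw [hF0, hG0]
  | succ m ih =>
    have hb : b (idx 2 (m + 1)) = 1 := by
      unfold idx
      split_ifs with h
      · exact h2
      · rw [show (m + 1) % 2 = 1 by omega]; exact h1
    rw [hF m (by rw [Dset_22]; omega), hG m (by rw [okA_two]; omega), hb,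
      Nat.add_sub_cancel, ih]
    ring

lemma prod43 {R : Type*} [CommRing R] (U x : R) (k : ℕ) :
    (∏ i ∈ range k, (1 + U * x ^ (2 * i))) * ∏ i ∈ range (2 * k), (1 + x ^ (i + 1)) =
      ∏ i ∈ range k, ((1 + U * x ^ (2 * i)) *
        ((1 + x ^ (2 * i + 1)) * (1 + x ^ (2 * i + 1 + 1)))) := by
  induction k with
  | zero => simp
  | succ k ih =>
    rw [show 2 * (k + 1) = 2 * k + 1 + 1 by ring, prod_range_succ, prod_range_succ,
      prod_range_succ, prod_range_succ, ← ih]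
    ring

lemma idx4_odd {b : ℕ → ℕ} {k : ℕ} (h1 : b 1 = k) (h3 : b 3 = k) (L : ℕ) :
    b (idx 4 (2 * L + 1)) = k := by
  unfold idx
  rw [if_neg (by omega)]
  rcases (by omega : (2 * L + 1) % 4 = 1 ∨ (2 * L + 1) % 4 = 3) with h | h <;> rw [h] <;>
    assumption

lemma idx4_even {b : ℕ → ℕ} {k : ℕ} (h2 : b 2 = k) (h4 : b 4 = k) (L : ℕ) :
    b (idx 4 (2 * L)) = k := by
  unfold idx
  split_ifs with h
  · exact h4
  · rw [show (2 * L) % 4 = 2 by omega]; exact h2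

theorem ident_43a (b : ℕ → ℕ) (h1 : b 1 = 3) (h2 : b 2 = 2) (h3 : b 3 = 3)
    (h4 : b 4 = 2) : Ident 4 3 b := by
  refine ident_of_rec (by norm_num) b ?_
  intro R _ q m F G hq hF0 hG0 hF hF' hG hG'
  have f1 : F 1 = F 0 := hF' 0 (by rw [Dset_43]; omega)
  have f2 := fstep hF 2 1 2 2 0 rfl (by rw [Dset_43]; omega)
    rfl h2 (by omega)
  have key : ∀ L, F (2 * L) = leb (q ^ 3) (q ^ 2) L ∧
      F (2 * L + 2) = leb (q ^ 3) (q ^ 2) (L + 1) := by
    intro L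
    induction L with
    | zero =>
      refine ⟨hF0, ?_⟩
      show F 2 = 1 + q ^ 2
      rw [f2, f1, hF0]; ring
    | succ L ih =>
      obtain ⟨e1, e2⟩ := ih
      refine ⟨e2, ?_⟩
      have f := fstep hF (2 * L + 3) (2 * L + 2) _ 3 (2 * L) rfl (by rw [Dset_43]; omega) rfl
        (idx4_odd h1 h3 (L + 1)) (by omega)
      have g := fstep hF (2 * L + 4) (2 * L + 3) _ 2 (2 * L + 2) rfl (by rw [Dset_43]; omega) rfl
        (idx4_even h2 h4 (L + 2)) (by omega)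
      rw [show 2 * (L + 1) + 2 = 2 * L + 4 by omega, g, f, e1, e2, leb]
      ring
  refine ⟨2 * (2 * m + 1 + 1), 4 * (m + 1), by omega, by omega, ?_⟩
  rw [gprod43 hG0 hG hG', ← prod43, (key _).1,
    leb_prod _ _ (pow_pow_zero hq 2 (2 * m + 1) (by omega)) (pow_pow_zero hq 2 (m + 1) (by omega))]
  rfl

theorem ident_43b (b : ℕ → ℕ) (h1 : b 1 = 4) (h2 : b 2 = 1) (h3 : b 3 = 4)
    (h4 : b 4 = 1) : Ident 4 3 b := by
  refine ident_of_rec (by norm_num) b ?_
  intro R _ q m F G hq hF0 hG0 hF hF' hG hG'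
  have f1 : F 1 = F 0 := hF' 0 (by rw [Dset_43]; omega)
  have f2 := fstep hF 2 1 2 1 1 rfl (by rw [Dset_43]; omega)
    rfl h2 (by omega)
  have f3 := fstep hF 3 2 3 4 0 rfl (by rw [Dset_43]; omega)
    rfl h3 (by omega)
  have key : ∀ L, F (2 * L + 1) = lebo (q ^ 3) (q ^ 2) L ∧
      F (2 * L + 3) = lebo (q ^ 3) (q ^ 2) (L + 1) := by
    intro L
    induction L with
    | zero =>
      refine ⟨f1.trans hF0, ?_⟩
      show F 3 = 1 + q ^ 2 + q ^ 3
      rw [f3, f2, f1, hF0]; ring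
    | succ L ih =>
      obtain ⟨e1, e2⟩ := ih
      refine ⟨e2, ?_⟩
      have f := fstep hF (2 * L + 4) (2 * L + 3) _ 1 (2 * L + 3) rfl (by rw [Dset_43]; omega) rfl
        (idx4_even h2 h4 (L + 2)) (by omega)
      have g := fstep hF (2 * L + 5) (2 * L + 4) _ 4 (2 * L + 1) rfl (by rw [Dset_43]; omega) rfl
        (idx4_odd h1 h3 (L + 2)) (by omega)
      rw [show 2 * (L + 1) + 3 = 2 * L + 5 by omega, g, f, e1, e2, lebo]
      ring
  refine ⟨2 * (2 * m + 1 + 1) + 1, 4 * (m + 1), by omega, by omega, ?_⟩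
  rw [gprod43 hG0 hG hG', ← prod43, (key _).1, lebo_eq,
    leb_prod _ _ (pow_pow_zero hq 2 (2 * m + 1) (by omega)) (pow_pow_zero hq 2 (m + 1) (by omega)),
    pow_pow_zero hq 2 (2 * m + 1) (by omega), mul_zero, zero_mul, add_zero]
  rfl

/-- the seven sporadic identities -/
theorem sporadic_ident {M s : ℕ} {b : ℕ → ℕ} (h : (M, s, vec M b) ∈ sporadic) : Ident M s b := by
  simp only [sporadic, List.mem_cons, Prod.mk.injEq, List.not_mem_nil, or_false] at h
  rcases h with ⟨rfl, rfl, h⟩ | ⟨rfl, rfl, h⟩ | ⟨rfl, rfl, h⟩ | ⟨rfl, rfl, h⟩ | ⟨rfl, rfl, h⟩ |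
    ⟨rfl, rfl, h⟩ | ⟨rfl, rfl, h⟩ <;>
    simp only [vec, List.range_succ, List.range_zero, List.nil_append, List.cons_append,
      List.map_cons, List.map_nil, List.cons.injEq, and_true, zero_add, Nat.reduceAdd] at h
  · exact ident_21 b h.1 h.2
  · exact ident_22 b h.1 h.2
  · exact ident_32 b h.1 h.2.1 h.2.2
  · exact ident_43a b h.1 h.2.1 h.2.2.1 h.2.2.2
  · exact ident_43b b h.1 h.2.1 h.2.2.1 h.2.2.2
  · exact ident_63a b h.1 h.2.1 h.2.2.1 h.2.2.2.1 h.2.2.2.2.1 h.2.2.2.2.2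
  · exact ident_63b b h.1 h.2.1 h.2.2.1 h.2.2.2.1 h.2.2.2.2.1 h.2.2.2.2.2

end Pool.Agent.P.MP_e9218d_nt
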